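import Pool.Agent.Lib.MP_629748_gt.FourPointB

/-!
A complete length space satisfying the CAT(κ) four-point condition is CAT(κ) (helper84):
zero curvature and the final assembly.
-/

set_option autoImplicit false

open Set Filter Topology
open scoped NNReal

namespace MP629748

section Zero

/-- squared distance in the plane -/
def fpq (v w : Fin 3 → ℝ) : ℝ := (v 1 - w 1) ^ 2 + (v 2 - w 2) ^ 2

theorem fpq_comm (v w : Fin 3 → ℝ) : fpq v w = fpq w v := by unfold fpq; ring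

theorem fpq_nonneg (v w : Fin 3 → ℝ) : 0 ≤ fpq v w := by unfold fpq; positivity

theorem fp_zero_dist (v w : Fin 3 → ℝ) : modelDist 0 v w = √(fpq v w) := by
  unfold modelDist fpq; rw [if_neg (lt_irrefl _), if_pos rfl]

theorem fp_zero_sq (v w : Fin 3 → ℝ) : modelDist 0 v w ^ 2 = fpq v w := by
  rw [fp_zero_dist, Real.sq_sqrt (fpq_nonneg _ _)]

theorem fp_zero_nonneg (v w : Fin 3 → ℝ) : 0 ≤ modelDist 0 v w := by
  rw [fp_zero_dist]; exact Real.sqrt_nonneg _

theorem fp_zero_comb {a x b : Fin 3 → ℝ} {u v : ℝ} (h1 : fpq a x = u ^ 2)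
    (h2 : fpq x b = v ^ 2) (h3 : fpq a b = (u + v) ^ 2) (z : Fin 3 → ℝ) :
    (u + v) * fpq x z = v * fpq a z + u * fpq b z - u * v * (u + v) := by
  have key : ((u + v) * x 1 - v * a 1 - u * b 1) ^ 2 + ((u + v) * x 2 - v * a 2 - u * b 2) ^ 2 =
      0 := by
    have : ((u + v) * x 1 - v * a 1 - u * b 1) ^ 2 + ((u + v) * x 2 - v * a 2 - u * b 2) ^ 2 =
      (u + v) * v * fpq a x + (u + v) * u * fpq x b - u * v * fpq a b := by
      unfold fpq; ring
    rw [this, h1, h2, h3]; ring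
  have q1 := sq_nonneg ((u + v) * x 1 - v * a 1 - u * b 1)
  have q2 := sq_nonneg ((u + v) * x 2 - v * a 2 - u * b 2)
  have e1 : (u + v) * x 1 - v * a 1 - u * b 1 = 0 :=
    pow_eq_zero_iff two_ne_zero |>.1 (by linarith)
  have e2 : (u + v) * x 2 - v * a 2 - u * b 2 = 0 :=
    pow_eq_zero_iff two_ne_zero |>.1 (by linarith)
  unfold fpq at *
  linear_combination (-v) * h1 + (-u) * h2 + 2 * (x 1 - z 1) * e1 + 2 * (x 2 - z 2) * e2

theorem fp_zero_triangle {a x b : Fin 3 → ℝ} {u v : ℝ} (hu : 0 ≤ u) (hv : 0 ≤ v)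
    (h1 : fpq a x = u ^ 2) (h2 : fpq x b = v ^ 2) : fpq a b ≤ (u + v) ^ 2 := by
  have h3 : ((a 1 - x 1) * (x 1 - b 1) + (a 2 - x 2) * (x 2 - b 2)) ^ 2 ≤ (u * v) ^ 2 := by
    rw [mul_pow, ← h1, ← h2]
    unfold fpq
    have : ((a 1 - x 1) ^ 2 + (a 2 - x 2) ^ 2) * ((x 1 - b 1) ^ 2 + (x 2 - b 2) ^ 2) =
      ((a 1 - x 1) * (x 1 - b 1) + (a 2 - x 2) * (x 2 - b 2)) ^ 2 +
      ((a 1 - x 1) * (x 2 - b 2) - (a 2 - x 2) * (x 1 - b 1)) ^ 2 := by ring
    rw [this]
    linarith [sq_nonneg ((a 1 - x 1) * (x 2 - b 2) - (a 2 - x 2) * (x 1 - b 1))]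
  have h4 := (abs_le_of_sq_le_sq' h3 (mul_nonneg hu hv)).2
  have h5 : fpq a b = fpq a x + fpq x b +
    2 * ((a 1 - x 1) * (x 1 - b 1) + (a 2 - x 2) * (x 2 - b 2)) := by unfold fpq; ring
  rw [h5, h1, h2]
  nlinarith

variable {X : Type*} [MetricSpace X]

/-- Stewart's inequality from the four-point condition, zero curvature. -/
theorem fp_stewart_zero (h : IsCATFourPoint 0 X) {a b x z : X}
    (hx : dist a x + dist x b = dist a b) :
    dist a b * dist x z ^ 2 ≤ dist x b * dist a z ^ 2 + dist a x * dist b z ^ 2 -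
      dist a x * dist x b * dist a b := by
  obtain ⟨z', _, a', _, x', _, b', _, e1, e2, e3, e4, e5, e6⟩ := h z a x b (Or.inl le_rfl)
  have c1 := fp_zero_sq z' a'
  have c2 := fp_zero_sq a' x'
  have c3 := fp_zero_sq x' b'
  have c4 := fp_zero_sq b' z'
  have c5 := fp_zero_sq z' x'
  have c6 := fp_zero_sq a' b'
  rw [e1] at c1
  rw [e2] at c2
  rw [e3] at c3
  rw [e4] at c4
  have hg := fp_zero_triangle dist_nonneg dist_nonneg c2.symm c3.symm
  have hab' : fpq a' b' = (dist a x + dist x b) ^ 2 := by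
    apply le_antisymm hg
    rw [← c6, hx]
    exact pow_le_pow_left₀ dist_nonneg e6 2
  have hc := fp_zero_comb c2.symm c3.symm hab' z'
  rw [hx, fpq_comm a' z', ← c1, ← c4, fpq_comm x' z', ← c5] at hc
  rw [dist_comm a z, ← hc]
  apply mul_le_mul_of_nonneg_left _ dist_nonneg
  rw [dist_comm x z]
  exact pow_le_pow_left₀ dist_nonneg e5 2

/-- the model version with equality -/
theorem fp_model_zero {a x b z : Fin 3 → ℝ} {s l : ℝ}
    (h1 : modelDist 0 a x = s) (h2 : modelDist 0 x b = l - s) (h3 : modelDist 0 a b = l) :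
    l * modelDist 0 x z ^ 2 = (l - s) * modelDist 0 a z ^ 2 + s * modelDist 0 b z ^ 2 -
      s * (l - s) * l := by
  have c1 := fp_zero_sq a x
  have c2 := fp_zero_sq x b
  have c3 := fp_zero_sq a b
  rw [h1] at c1
  rw [h2] at c2
  rw [h3] at c3
  have e : s + (l - s) = l := by ring
  have hc := fp_zero_comb c1.symm c2.symm (by rw [e]; exact c3.symm) z
  rw [e] at hc
  rw [fp_zero_sq, fp_zero_sq, fp_zero_sq, hc]

theorem fp_model_comm_zero (v w : Fin 3 → ℝ) : modelDist 0 v w = modelDist 0 w v := by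
  rw [fp_zero_dist, fp_zero_dist, fpq_comm]

theorem fp_unique_zero (h : IsCATFourPoint 0 X) {x y : X} (h0 : 0 < dist x y) :
    ∀ s ∈ Icc (0:ℝ) (dist x y), ∀ η > 0, ∃ ε > 0, ∀ m m' : X, dist x m ≤ s + ε →
      dist m y ≤ dist x y - s + ε → dist x m' ≤ s + ε → dist m' y ≤ dist x y - s + ε →
      dist m m' ≤ η := by
  intro s hs η hη
  set d := dist x y with hddef
  set σ : ℝ → ℝ := fun ε => d * (d - s) * (s + ε) ^ 2 + d * s * (d - s + ε) ^ 2 -
    s * (d - s) * d ^ 2 with hσ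
  have hσc : Continuous σ := by rw [hσ]; fun_prop
  have hσ0 : σ 0 = 0 := by
    rw [hσ]
    simp only [add_zero]
    ring
  have ht : Tendsto σ (𝓝[>] 0) (𝓝 0) := by
    have := (hσc.tendsto 0).mono_left (nhdsWithin_le_nhds (s := Ioi 0))
    rwa [hσ0] at this
  have hpos : 0 < (d * η) ^ 2 / 4 := by positivity
  have ev2 : ∀ᶠ ε in 𝓝[>] (0:ℝ), σ ε < (d * η) ^ 2 / 4 := ht.eventually (gt_mem_nhds hpos)
  obtain ⟨ε, e2, e4⟩ := (ev2.and self_mem_nhdsWithin).exists
  have e4' : 0 < ε := e4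
  refine ⟨ε, e4', ?_⟩
  intro m m' q1 q2 q3 q4
  obtain ⟨x', _, m1, _, y', _, m2, _, f1, f2, f3, f4, f5, f6⟩ := h x m y m' (Or.inl le_rfl)
  have hs0 := hs.1
  have hs1 : 0 ≤ d - s := by linarith [hs.2]
  have g1 : fpq x' m1 ≤ (s + ε) ^ 2 := by
    rw [← fp_zero_sq, f1]
    exact pow_le_pow_left₀ dist_nonneg q1 2
  have g2 : fpq m1 y' ≤ (d - s + ε) ^ 2 := by
    rw [← fp_zero_sq, f2]
    exact pow_le_pow_left₀ dist_nonneg q2 2
  have g3 : fpq y' m2 ≤ (d - s + ε) ^ 2 := by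
    rw [← fp_zero_sq, f3, dist_comm]
    exact pow_le_pow_left₀ dist_nonneg q4 2
  have g4 : fpq m2 x' ≤ (s + ε) ^ 2 := by
    rw [← fp_zero_sq, f4, dist_comm]
    exact pow_le_pow_left₀ dist_nonneg q3 2
  have g5 : d ^ 2 ≤ fpq x' y' := by
    rw [← fp_zero_sq]
    exact pow_le_pow_left₀ dist_nonneg f5 2
  have key : ∀ m1 : Fin 3 → ℝ, fpq x' m1 ≤ (s + ε) ^ 2 → fpq m1 y' ≤ (d - s + ε) ^ 2 →
      (d * m1 1 - (d - s) * x' 1 - s * y' 1) ^ 2 + (d * m1 2 - (d - s) * x' 2 - s * y' 2) ^ 2 ≤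
      σ ε := by
    intro m1 g1 g2
    have e : (d * m1 1 - (d - s) * x' 1 - s * y' 1) ^ 2 +
      (d * m1 2 - (d - s) * x' 2 - s * y' 2) ^ 2 =
      d * (d - s) * fpq x' m1 + d * s * fpq m1 y' - s * (d - s) * fpq x' y' := by
      unfold fpq; ring
    rw [e]
    have u1 := mul_le_mul_of_nonneg_left g1 (mul_nonneg h0.le hs1)
    have u2 := mul_le_mul_of_nonneg_left g2 (mul_nonneg h0.le hs0)
    have u3 := mul_le_mul_of_nonneg_left g5 (mul_nonneg hs0 hs1)
    simp only [hσ]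
    linarith
  have k1 := key m1 g1 g2
  have k2 := key m2 (by rw [fpq_comm]; exact g4) (by rw [fpq_comm]; exact g3)
  have k3 : d ^ 2 * fpq m1 m2 ≤ 4 * σ ε := by
    have r1 := sq_nonneg ((d * m1 1 - (d - s) * x' 1 - s * y' 1) +
      (d * m2 1 - (d - s) * x' 1 - s * y' 1))
    have r2 := sq_nonneg ((d * m1 2 - (d - s) * x' 2 - s * y' 2) +
      (d * m2 2 - (d - s) * x' 2 - s * y' 2))
    have r3 : d ^ 2 * fpq m1 m2 = 2 * ((d * m1 1 - (d - s) * x' 1 - s * y' 1) ^ 2 +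
      (d * m1 2 - (d - s) * x' 2 - s * y' 2) ^ 2) + 2 * ((d * m2 1 - (d - s) * x' 1 - s * y' 1) ^ 2 +
      (d * m2 2 - (d - s) * x' 2 - s * y' 2) ^ 2) -
      ((d * m1 1 - (d - s) * x' 1 - s * y' 1) + (d * m2 1 - (d - s) * x' 1 - s * y' 1)) ^ 2 -
      ((d * m1 2 - (d - s) * x' 2 - s * y' 2) + (d * m2 2 - (d - s) * x' 2 - s * y' 2)) ^ 2 := by
      unfold fpq; ring
    linarith
  have k4 : d ^ 2 * fpq m1 m2 ≤ d ^ 2 * η ^ 2 := by
    rw [← mul_pow]; linarith
  have k5 : fpq m1 m2 ≤ η ^ 2 := le_of_mul_le_mul_left k4 (pow_pos h0 2)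
  refine f6.trans ?_
  rw [fp_zero_dist]
  exact Real.sqrt_le_iff.2 ⟨hη.le, k5⟩

theorem fp_comp_zero (h : IsCATFourPoint 0 X) {a b c x y : X} {s t : ℝ}
    (hax : dist a x = s) (hxb : dist x b = dist a b - s) (hay : dist a y = t)
    (hyc : dist y c = dist a c - t) {a' b' c' x' y' : Fin 3 → ℝ}
    (ha' : a' ∈ modelPlane 0) (hx' : x' ∈ modelPlane 0) (hy' : y' ∈ modelPlane 0)
    (m1 : modelDist 0 a' b' = dist a b) (m2 : modelDist 0 b' c' = dist b c)
    (m3 : modelDist 0 a' c' = dist a c) (m4 : modelDist 0 a' x' = s)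
    (m5 : modelDist 0 x' b' = dist a b - s) (m6 : modelDist 0 a' y' = t)
    (m7 : modelDist 0 y' c' = dist a c - t) : dist x y ≤ modelDist 0 x' y' := by
  have hs0 : 0 ≤ s := hax ▸ dist_nonneg
  have ht0 : 0 ≤ t := hay ▸ dist_nonneg
  have hsL : s ≤ dist a b := by linarith [dist_nonneg (x := x) (y := b)]
  have htM : t ≤ dist a c := by linarith [dist_nonneg (x := y) (y := c)]
  have hone : ∀ v ∈ modelPlane 0, v 0 = 1 := by
    rintro v (h | h | h)
    · exact absurd h.1 (lt_irrefl _)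
    · exact h.2
    · exact absurd h.1 (lt_irrefl _)
  have heq : ∀ v ∈ modelPlane 0, ∀ w ∈ modelPlane 0, modelDist 0 v w = 0 → v = w := by
    intro v hv w hw h
    have h1 := fp_zero_sq v w
    rw [h] at h1
    unfold fpq at h1
    have q1 := sq_nonneg (v 1 - w 1)
    have q2 := sq_nonneg (v 2 - w 2)
    have e1 : v 1 - w 1 = 0 := pow_eq_zero_iff two_ne_zero |>.1 (by linarith)
    have e2 : v 2 - w 2 = 0 := pow_eq_zero_iff two_ne_zero |>.1 (by linarith)
    funext i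
    fin_cases i
    · show v 0 = w 0
      rw [hone v hv, hone w hw]
    · exact sub_eq_zero.1 e1
    · exact sub_eq_zero.1 e2
  rcases (dist_nonneg (x := a) (y := b)).eq_or_lt with hL | hL
  · have hs : s = 0 := by linarith
    subst hs
    have e1 : a' = x' := heq _ ha' _ hx' m4
    have e2 : a = x := dist_eq_zero.1 hax
    rw [← e1, ← e2, m6, hay]
  rcases (dist_nonneg (x := a) (y := c)).eq_or_lt with hM | hM
  · have ht : t = 0 := by linarith
    subst ht
    have e1 : a' = y' := heq _ ha' _ hy' m6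
    have e2 : a = y := dist_eq_zero.1 hay
    rw [← e1, ← e2, fp_model_comm_zero, m4, dist_comm, hax]
  have S1 := fp_stewart_zero h (a := a) (b := b) (x := x) (z := c) (by rw [hax, hxb]; ring)
  have S2 := fp_stewart_zero h (a := a) (b := c) (x := y) (z := x) (by rw [hay, hyc]; ring)
  have M1 := fp_model_zero (z := c') m4 m5 m1
  have M2 := fp_model_zero (z := x') m6 m7 m3
  rw [hxb, hax] at S1
  rw [hyc, hay, hax] at S2
  rw [m3, m2] at M1
  rw [m4, fp_model_comm_zero c' x'] at M2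
  rw [dist_comm c x] at S2
  have key : dist y x ^ 2 ≤ modelDist 0 y' x' ^ 2 := by
    rw [← M1] at S1
    have v1 := le_of_mul_le_mul_left S1 hL
    have v2 := mul_le_mul_of_nonneg_left v1 ht0
    refine le_of_mul_le_mul_left ?_ hM
    rw [M2]
    linarith
  rw [dist_comm x y, fp_model_comm_zero]
  exact le_of_sq_le_sq key (fp_zero_nonneg _ _)

end Zero

/-- A complete length space satisfying the `CAT(κ)` four-point condition is a `CAT(κ)` space. -/
theorem IsCATFourPoint.isCAT {κ : ℝ} {X : Type*} [MetricSpace X] [CompleteSpace X]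
    (h : IsCATFourPoint κ X) (hL : IsLengthSpace X) : IsCAT κ X where
  geod := by
    intro x y hxy
    rcases (dist_nonneg (x := x) (y := y)).eq_or_lt with h0 | h0
    · refine ⟨fun _ => x, rfl, dist_eq_zero.1 h0.symm, ?_⟩
      rw [← h0]
      intro s hs t ht
      have e1 : s = 0 := le_antisymm hs.2 hs.1
      have e2 : t = 0 := le_antisymm ht.2 ht.1
      rw [e1, e2]; simp
    · apply fp_geod_of_unique hL
      rcases lt_trichotomy κ 0 with hκ | hκ | hκ
      · exact fp_unique_neg hκ h h0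
      · subst hκ
        exact fp_unique_zero h h0
      · refine fp_unique_pos hκ h h0 ?_
        rcases hxy with h1 | h1
        · exact absurd h1 (not_le.2 hκ)
        · exact h1
  comp := by
    intro a b c γ₁ γ₂ γ₃ h1 h2 h3 hp s hs t ht a' ha' b' hb' c' hc' x' hx' y' hy'
      m1 m2 m3 m4 m5 m6 m7
    have hax : dist a (γ₁ s) = s := by
      have := h1.2.2 0 ⟨le_rfl, dist_nonneg⟩ s hs
      rw [h1.1] at this
      rw [this, zero_sub, abs_neg, abs_of_nonneg hs.1]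
    have hxb : dist (γ₁ s) b = dist a b - s := by
      have := h1.2.2 s hs (dist a b) ⟨dist_nonneg, le_rfl⟩
      rw [h1.2.1] at this
      rw [this, abs_sub_comm, abs_of_nonneg (by linarith [hs.2])]
    have hay : dist a (γ₂ t) = t := by
      have := h2.2.2 0 ⟨le_rfl, dist_nonneg⟩ t ht
      rw [h2.1] at this
      rw [this, zero_sub, abs_neg, abs_of_nonneg ht.1]
    have hyc : dist (γ₂ t) c = dist a c - t := by
      have := h2.2.2 t ht (dist a c) ⟨dist_nonneg, le_rfl⟩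
      rw [h2.2.1] at this
      rw [this, abs_sub_comm, abs_of_nonneg (by linarith [ht.2])]
    rcases lt_trichotomy κ 0 with hκ | hκ | hκ
    · exact fp_comp_neg hκ h hax hxb hay hyc ha' hb' hc' hx' hy' m1 m2 m3 m4 m5 m6 m7
    · subst hκ
      exact fp_comp_zero h hax hxb hay hyc ha' hx' hy' m1 m2 m3 m4 m5 m6 m7
    · refine fp_comp_pos hκ h hax hxb hay hyc ?_ ha' hb' hc' hx' hy' m1 m2 m3 m4 m5 m6 m7
      rcases hp with h4 | h4
      · exact absurd h4 (not_le.2 hκ)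
      · exact h4

end MP629748
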