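import Pool.Agent.Lib.MP_629748_gt.Stmt

/-!
The CAT(κ) four-point condition (Bridson-Haefliger II.1.10) for a complete length space implies
`IsCAT κ` (helper84).
-/

set_option autoImplicit false

open Set Filter Topology
open scoped NNReal

namespace MP629748

/-- The `CAT(κ)` four-point condition: every quadruple `x₁, y₁, x₂, y₂` with
`|x₁y₁| + |y₁x₂| + |x₂y₂| + |y₂x₁| < 2 ϖ_κ` has a subembedding in the model plane, i.e. there are
points of the model plane with the same side lengths and diagonals which are not shorter. -/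
def IsCATFourPoint (κ : ℝ) (X : Type*) [MetricSpace X] : Prop :=
  ∀ x₁ y₁ x₂ y₂ : X,
    LtVarpi κ ((dist x₁ y₁ + dist y₁ x₂ + dist x₂ y₂ + dist y₂ x₁) / 2) →
    ∃ x₁' ∈ modelPlane κ, ∃ y₁' ∈ modelPlane κ, ∃ x₂' ∈ modelPlane κ, ∃ y₂' ∈ modelPlane κ,
      modelDist κ x₁' y₁' = dist x₁ y₁ ∧ modelDist κ y₁' x₂' = dist y₁ x₂ ∧
      modelDist κ x₂' y₂' = dist x₂ y₂ ∧ modelDist κ y₂' x₁' = dist y₂ x₁ ∧
      dist x₁ x₂ ≤ modelDist κ x₁' x₂' ∧ dist y₁ y₂ ≤ modelDist κ y₁' y₂'

/-! ### Geodesics from almost uniqueness of almost intermediate points -/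

section Geod

variable {X : Type*} [MetricSpace X]

/-- In a length space there are pairs of almost intermediate points. -/
theorem fp_pair (hL : IsLengthSpace X) (x y : X) {s t ε : ℝ} (hs : 0 ≤ s) (hst : s ≤ t)
    (ht : t ≤ dist x y) (hε : 0 < ε) :
    ∃ p q : X, dist x p = s ∧ dist x q = t ∧ dist p q ≤ t - s + ε ∧
      dist q y ≤ dist x y - t + ε ∧ dist p y ≤ dist x y - s + ε := by
  obtain ⟨γ, hγc, hγ0, hγ1, hγv⟩ := hL x y ε hε
  have hfc : ContinuousOn (fun u => dist x (γ u)) (Icc 0 1) :=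
    continuous_dist.comp_continuousOn (continuousOn_const.prodMk hγc)
  have h1 : t ∈ (fun u => dist x (γ u)) '' Icc 0 1 := by
    apply intermediate_value_Icc zero_le_one hfc
    simp only [hγ0, hγ1, dist_self]
    exact ⟨hs.trans hst, ht⟩
  obtain ⟨ut, hut, hut'⟩ := h1
  have h2 : s ∈ (fun u => dist x (γ u)) '' Icc 0 ut := by
    apply intermediate_value_Icc hut.1 (hfc.mono (Icc_subset_Icc_right hut.2))
    simp only [hγ0, dist_self]
    exact ⟨hs, by rw [show dist x (γ ut) = t from hut']; exact hst⟩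
  obtain ⟨us, hus, hus'⟩ := h2
  simp only at hut' hus'
  have hv1 : eVariationOn γ (Icc 0 us) + eVariationOn γ (Icc us ut) = eVariationOn γ (Icc 0 ut) := by
    have := eVariationOn.Icc_add_Icc γ (s := Icc (0:ℝ) 1) hus.1 hus.2
      ⟨hus.1, hus.2.trans hut.2⟩
    rwa [inter_eq_right.2 (Icc_subset_Icc_right (hus.2.trans hut.2)),
      inter_eq_right.2 (Icc_subset_Icc hus.1 hut.2),
      inter_eq_right.2 (Icc_subset_Icc_right hut.2)] at this
  have hv2 : eVariationOn γ (Icc 0 ut) + eVariationOn γ (Icc ut 1) = eVariationOn γ (Icc 0 1) := by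
    have := eVariationOn.Icc_add_Icc γ (s := Icc (0:ℝ) 1) hut.1 hut.2 hut
    rwa [inter_eq_right.2 (Icc_subset_Icc_right hut.2),
      inter_eq_right.2 (Icc_subset_Icc_left hut.1), inter_self] at this
  have e1 : edist (γ 0) (γ us) ≤ eVariationOn γ (Icc 0 us) :=
    eVariationOn.edist_le γ ⟨le_rfl, hus.1⟩ ⟨hus.1, le_rfl⟩
  have e2 : edist (γ us) (γ ut) ≤ eVariationOn γ (Icc us ut) :=
    eVariationOn.edist_le γ ⟨le_rfl, hus.2⟩ ⟨hus.2, le_rfl⟩
  have e3 : edist (γ ut) (γ 1) ≤ eVariationOn γ (Icc ut 1) :=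
    eVariationOn.edist_le γ ⟨le_rfl, hut.2⟩ ⟨hut.2, le_rfl⟩
  have e4 : edist (γ 0) (γ us) + edist (γ us) (γ ut) + edist (γ ut) (γ 1) ≤
      ENNReal.ofReal (dist x y + ε) := by
    refine le_trans ?_ hγv
    rw [← hv2, ← hv1]
    exact add_le_add (add_le_add e1 e2) e3
  rw [hγ0, hγ1, edist_dist, edist_dist, edist_dist, ← ENNReal.ofReal_add dist_nonneg dist_nonneg,
    ← ENNReal.ofReal_add (add_nonneg dist_nonneg dist_nonneg) dist_nonneg,
    ENNReal.ofReal_le_ofReal_iff (add_nonneg dist_nonneg hε.le), hus'] at e4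
  have t1 := dist_triangle x (γ ut) y
  have t2 := dist_triangle x (γ us) (γ ut)
  have t3 := dist_triangle (γ us) (γ ut) y
  rw [hut'] at t1 t2
  rw [hus'] at t2
  exact ⟨γ us, γ ut, hus', hut', by linarith, by linarith, by linarith⟩

theorem fp_geod_of_unique [CompleteSpace X] (hL : IsLengthSpace X) {x y : X}
    (hU : ∀ s ∈ Icc (0:ℝ) (dist x y), ∀ η > 0, ∃ ε > 0, ∀ m m' : X, dist x m ≤ s + ε →
      dist m y ≤ dist x y - s + ε → dist x m' ≤ s + ε → dist m' y ≤ dist x y - s + ε →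
      dist m m' ≤ η) : ∃ γ : ℝ → X, IsGeodFromTo γ x y := by
  -- intermediate points
  have hex : ∀ s ∈ Icc (0:ℝ) (dist x y), ∃ g : X, dist x g = s ∧ dist g y = dist x y - s := by
    intro s hs
    have h1 : ∀ n : ℕ, ∃ m : X, dist x m = s ∧ dist m y ≤ dist x y - s + 1 / ((n:ℝ) + 1) := by
      intro n
      obtain ⟨p, q, hp, _, _, _, hpy⟩ := fp_pair hL x y hs.1 le_rfl hs.2
        (show (0:ℝ) < 1 / ((n:ℝ) + 1) by positivity)
      exact ⟨p, hp, hpy⟩
    choose m hm1 hm2 using h1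
    have hlim0 := tendsto_one_div_add_atTop_nhds_zero_nat (𝕜 := ℝ)
    have hc : CauchySeq m := by
      rw [Metric.cauchySeq_iff]
      intro η hη
      obtain ⟨ε, hε, hU'⟩ := hU s hs (η / 2) (by linarith)
      obtain ⟨N, hN⟩ := (hlim0.eventually (gt_mem_nhds hε)).exists_forall_of_atTop
      refine ⟨N, fun n hn n' hn' => ?_⟩
      have := hU' (m n) (m n') (by rw [hm1]; linarith) (by linarith [hm2 n, hN n hn])
        (by rw [hm1]; linarith) (by linarith [hm2 n', hN n' hn'])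
      linarith
    obtain ⟨g, hg⟩ := cauchySeq_tendsto_of_complete hc
    have hxg : dist x g = s := by
      have h2 : Tendsto (fun n => dist x (m n)) atTop (𝓝 (dist x g)) := tendsto_const_nhds.dist hg
      have h3 : Tendsto (fun n => dist x (m n)) atTop (𝓝 s) := by
        simp only [hm1]; exact tendsto_const_nhds
      exact tendsto_nhds_unique h2 h3
    have hgy : dist g y ≤ dist x y - s := by
      have h2 : Tendsto (fun n => dist (m n) y) atTop (𝓝 (dist g y)) := hg.dist tendsto_const_nhds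
      have h3 : Tendsto (fun n : ℕ => dist x y - s + 1 / ((n:ℝ) + 1)) atTop
          (𝓝 (dist x y - s + 0)) := hlim0.const_add _
      rw [add_zero] at h3
      exact le_of_tendsto_of_tendsto' h2 h3 hm2
    refine ⟨g, hxg, le_antisymm hgy ?_⟩
    have := dist_triangle x g y
    rw [hxg] at this
    linarith
  have : Nonempty X := ⟨x⟩
  choose! G hG1 hG2 using hex
  have hd0 : (0:ℝ) ≤ dist x y := dist_nonneg
  refine ⟨G, ?_, ?_, ?_⟩
  · have := hG1 0 ⟨le_rfl, hd0⟩
    exact (dist_eq_zero.1 this).symm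
  · have := hG2 (dist x y) ⟨hd0, le_rfl⟩
    rw [sub_self] at this
    exact dist_eq_zero.1 this
  · have key : ∀ s ∈ Icc (0:ℝ) (dist x y), ∀ t ∈ Icc (0:ℝ) (dist x y), s ≤ t →
        dist (G s) (G t) = t - s := by
      intro s hs t ht hst
      apply le_antisymm
      · apply le_of_forall_pos_le_add
        intro η hη
        obtain ⟨ε1, hε1, hU1⟩ := hU s hs (η / 3) (by linarith)
        obtain ⟨ε2, hε2, hU2⟩ := hU t ht (η / 3) (by linarith)
        obtain ⟨p, q, hp, hq, hpq, hqy, hpy⟩ := fp_pair hL x y hs.1 hst ht.2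
          (show 0 < min (min ε1 ε2) (η / 3) from lt_min (lt_min hε1 hε2) (by linarith))
        have m1 : min (min ε1 ε2) (η / 3) ≤ ε1 := (min_le_left _ _).trans (min_le_left _ _)
        have m2 : min (min ε1 ε2) (η / 3) ≤ ε2 := (min_le_left _ _).trans (min_le_right _ _)
        have m3 : min (min ε1 ε2) (η / 3) ≤ η / 3 := min_le_right _ _
        have d1 := hU1 (G s) p (by rw [hG1 s hs]; linarith) (by rw [hG2 s hs]; linarith)
          (by rw [hp]; linarith) (by linarith)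
        have d2 := hU2 q (G t) (by rw [hq]; linarith) (by linarith)
          (by rw [hG1 t ht]; linarith) (by rw [hG2 t ht]; linarith)
        have d3 := dist_triangle4 (G s) p q (G t)
        linarith
      · have := dist_triangle x (G s) (G t)
        rw [hG1 s hs, hG1 t ht] at this
        linarith
    intro s hs t ht
    rcases le_total s t with h | h
    · rw [key s hs t ht h, abs_sub_comm, abs_of_nonneg (by linarith)]
    · rw [dist_comm, key t ht s hs h, abs_of_nonneg (by linarith)]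

end Geod

/-! ### Positive curvature -/

section Pos

/-- the euclidean inner product of `ℝ³` -/
def fpi (v w : Fin 3 → ℝ) : ℝ := v 0 * w 0 + v 1 * w 1 + v 2 * w 2

theorem fpi_comm (v w : Fin 3 → ℝ) : fpi v w = fpi w v := by unfold fpi; ring

theorem fp_pos_self {κ : ℝ} (hκ : 0 < κ) {v : Fin 3 → ℝ} (hv : v ∈ modelPlane κ) :
    fpi v v = 1 := by
  rcases hv with h | h | h
  · rw [← h.2]; unfold fpi; ring
  · exact absurd h.1 hκ.ne'
  · exact absurd h.1 (not_lt.2 hκ.le)

theorem fpi_cs (v w : Fin 3 → ℝ) : fpi v w ^ 2 ≤ fpi v v * fpi w w := by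
  unfold fpi
  nlinarith [sq_nonneg (v 0 * w 1 - v 1 * w 0), sq_nonneg (v 0 * w 2 - v 2 * w 0),
    sq_nonneg (v 1 * w 2 - v 2 * w 1)]

theorem fpi_abs_le {κ : ℝ} (hκ : 0 < κ) {v w : Fin 3 → ℝ} (hv : v ∈ modelPlane κ)
    (hw : w ∈ modelPlane κ) : -1 ≤ fpi v w ∧ fpi v w ≤ 1 := by
  have h := fpi_cs v w
  rw [fp_pos_self hκ hv, fp_pos_self hκ hw, one_mul] at h
  exact abs_le.1 (abs_le_one_iff_mul_self_le_one.2 (by rw [← sq]; exact h))

theorem fp_pos_dist {κ : ℝ} (hκ : 0 < κ) (v w : Fin 3 → ℝ) :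
    modelDist κ v w = Real.arccos (fpi v w) / √κ := by
  unfold modelDist fpi; rw [if_pos hκ]

theorem fp_pos_cos {κ : ℝ} (hκ : 0 < κ) {v w : Fin 3 → ℝ} (hv : v ∈ modelPlane κ)
    (hw : w ∈ modelPlane κ) : Real.cos (√κ * modelDist κ v w) = fpi v w := by
  have hk : √κ ≠ 0 := (Real.sqrt_pos.2 hκ).ne'
  have h := fpi_abs_le hκ hv hw
  rw [fp_pos_dist hκ, mul_div_cancel₀ _ hk, Real.cos_arccos h.1 h.2]

theorem fp_pos_mem {κ : ℝ} (hκ : 0 < κ) (v w : Fin 3 → ℝ) :
    √κ * modelDist κ v w ∈ Icc 0 Real.pi := by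
  have hk : √κ ≠ 0 := (Real.sqrt_pos.2 hκ).ne'
  rw [fp_pos_dist hκ, mul_div_cancel₀ _ hk]
  exact ⟨Real.arccos_nonneg _, Real.arccos_le_pi _⟩

/-- points of a segment are linear combinations of the end points -/
theorem fp_pos_comb {a x b : Fin 3 → ℝ} (ha : fpi a a = 1) (hx : fpi x x = 1)
    (hb : fpi b b = 1) {u v : ℝ} (h1 : fpi a x = Real.cos u) (h2 : fpi x b = Real.cos v)
    (h3 : fpi a b = Real.cos (u + v)) (z : Fin 3 → ℝ) :
    Real.sin (u + v) * fpi x z = Real.sin v * fpi a z + Real.sin u * fpi b z := by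
  have pu := Real.sin_sq_add_cos_sq u
  have pv := Real.sin_sq_add_cos_sq v
  rw [Real.cos_add] at h3
  rw [Real.sin_add]
  generalize Real.sin u = su at *
  generalize Real.cos u = cu at *
  generalize Real.sin v = sv at *
  generalize Real.cos v = cv at *
  have key : ((su * cv + cu * sv) * x 0 - sv * a 0 - su * b 0) ^ 2 +
      ((su * cv + cu * sv) * x 1 - sv * a 1 - su * b 1) ^ 2 +
      ((su * cv + cu * sv) * x 2 - sv * a 2 - su * b 2) ^ 2 = 0 := by
    have : ((su * cv + cu * sv) * x 0 - sv * a 0 - su * b 0) ^ 2 +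
      ((su * cv + cu * sv) * x 1 - sv * a 1 - su * b 1) ^ 2 +
      ((su * cv + cu * sv) * x 2 - sv * a 2 - su * b 2) ^ 2 =
      (su * cv + cu * sv) ^ 2 * fpi x x + sv ^ 2 * fpi a a + su ^ 2 * fpi b b -
      2 * (su * cv + cu * sv) * sv * fpi a x - 2 * (su * cv + cu * sv) * su * fpi x b +
      2 * sv * su * fpi a b := by
      unfold fpi; ring
    rw [this, ha, hx, hb, h1, h2, h3]
    linear_combination (-(sv ^ 2)) * pu + (-(su ^ 2)) * pv
  have q0 := sq_nonneg ((su * cv + cu * sv) * x 0 - sv * a 0 - su * b 0)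
  have q1 := sq_nonneg ((su * cv + cu * sv) * x 1 - sv * a 1 - su * b 1)
  have q2 := sq_nonneg ((su * cv + cu * sv) * x 2 - sv * a 2 - su * b 2)
  have h0 : (su * cv + cu * sv) * x 0 - sv * a 0 - su * b 0 = 0 :=
    pow_eq_zero_iff two_ne_zero |>.1 (by linarith)
  have h1' : (su * cv + cu * sv) * x 1 - sv * a 1 - su * b 1 = 0 :=
    pow_eq_zero_iff two_ne_zero |>.1 (by linarith)
  have h2' : (su * cv + cu * sv) * x 2 - sv * a 2 - su * b 2 = 0 :=
    pow_eq_zero_iff two_ne_zero |>.1 (by linarith)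
  unfold fpi
  linear_combination z 0 * h0 + z 1 * h1' + z 2 * h2'

/-- the Gram determinant inequality -/
theorem fpi_gram {a x b : Fin 3 → ℝ} (ha : fpi a a = 1) (hx : fpi x x = 1) (hb : fpi b b = 1) :
    (fpi a b - fpi a x * fpi x b) ^ 2 ≤ (1 - fpi a x ^ 2) * (1 - fpi x b ^ 2) := by
  have h : fpi a a * fpi x x * fpi b b + 2 * fpi a x * fpi x b * fpi a b -
      fpi a a * fpi x b ^ 2 - fpi x x * fpi a b ^ 2 - fpi b b * fpi a x ^ 2 =
      (a 0 * (x 1 * b 2 - x 2 * b 1) - a 1 * (x 0 * b 2 - x 2 * b 0) +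
        a 2 * (x 0 * b 1 - x 1 * b 0)) ^ 2 := by
    unfold fpi; ring
  rw [ha, hx, hb] at h
  nlinarith [sq_nonneg (a 0 * (x 1 * b 2 - x 2 * b 1) - a 1 * (x 0 * b 2 - x 2 * b 0) +
        a 2 * (x 0 * b 1 - x 1 * b 0))]

theorem fpi_gram_cos {a x b : Fin 3 → ℝ} (ha : fpi a a = 1) (hx : fpi x x = 1)
    (hb : fpi b b = 1) {u v : ℝ} (h1 : fpi a x = Real.cos u) (h2 : fpi x b = Real.cos v)
    (hu : 0 ≤ Real.sin u) (hv : 0 ≤ Real.sin v) :
    Real.cos (u + v) ≤ fpi a b := by
  have h := fpi_gram ha hx hb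
  rw [h1, h2] at h
  have e : (1 - Real.cos u ^ 2) * (1 - Real.cos v ^ 2) = (Real.sin u * Real.sin v) ^ 2 := by
    rw [mul_pow, Real.sin_sq, Real.sin_sq]
  rw [e] at h
  have h3 := abs_le_of_sq_le_sq' h (mul_nonneg hu hv)
  rw [Real.cos_add]
  linarith [h3.1]

variable {κ : ℝ} {X : Type*} [MetricSpace X]

/-- Stewart's inequality from the four-point condition, positive curvature. -/
theorem fp_stewart_pos (hκ : 0 < κ) (h : IsCATFourPoint κ X) {a b x z : X}
    (hx : dist a x + dist x b = dist a b)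
    (hp : (dist z a + dist a b + dist b z) / 2 < Real.pi / √κ) :
    Real.sin (√κ * dist x b) * Real.cos (√κ * dist a z) +
      Real.sin (√κ * dist a x) * Real.cos (√κ * dist b z) ≤
      Real.sin (√κ * dist a b) * Real.cos (√κ * dist x z) := by
  have hk : 0 < √κ := Real.sqrt_pos.2 hκ
  rw [lt_div_iff₀ hk] at hp
  have t1 : dist a b ≤ dist z a + dist b z := by
    have := dist_triangle a z b
    rw [dist_comm a z, dist_comm z b] at this; exact this
  have t2 : dist z x ≤ dist z a + dist a x := dist_triangle _ _ _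
  have t3 : dist z x ≤ dist b z + dist x b := by
    have := dist_triangle z b x
    rw [dist_comm z b, dist_comm b x] at this; exact this
  have n1 := dist_nonneg (x := a) (y := x)
  have n2 := dist_nonneg (x := x) (y := b)
  have hab : √κ * dist a b < Real.pi := by
    rw [mul_comm]
    exact lt_of_le_of_lt (mul_le_mul_of_nonneg_right (by linarith) hk.le) hp
  have hu0 : 0 ≤ √κ * dist a x := by positivity
  have hv0 : 0 ≤ √κ * dist x b := by positivity
  have huv : √κ * dist a x + √κ * dist x b = √κ * dist a b := by rw [← hx]; ring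
  obtain ⟨z', hz', a', ha', x', hx', b', hb', e1, e2, e3, e4, e5, e6⟩ := h z a x b (Or.inr (by
    rw [lt_div_iff₀ hk]
    have : dist z a + dist a x + dist x b + dist b z = dist z a + dist a b + dist b z := by
      rw [← hx]; ring
    rw [this]; exact hp))
  have c1 := fp_pos_cos hκ hz' ha'
  have c2 := fp_pos_cos hκ ha' hx'
  have c3 := fp_pos_cos hκ hx' hb'
  have c4 := fp_pos_cos hκ hb' hz'
  have c5 := fp_pos_cos hκ hz' hx'
  have c6 := fp_pos_cos hκ ha' hb'
  rw [e1] at c1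
  rw [e2] at c2
  rw [e3] at c3
  rw [e4] at c4
  have hsu : 0 ≤ Real.sin (√κ * dist a x) := Real.sin_nonneg_of_nonneg_of_le_pi hu0 (by linarith)
  have hsv : 0 ≤ Real.sin (√κ * dist x b) := Real.sin_nonneg_of_nonneg_of_le_pi hv0 (by linarith)
  have hg := fpi_gram_cos (fp_pos_self hκ ha') (fp_pos_self hκ hx') (fp_pos_self hκ hb')
    c2.symm c3.symm hsu hsv
  have hab' : fpi a' b' = Real.cos (√κ * dist a x + √κ * dist x b) := by
    apply le_antisymm _ hg
    rw [← c6, huv]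
    exact Real.cos_le_cos_of_nonneg_of_le_pi (by positivity) (fp_pos_mem hκ _ _).2
      (mul_le_mul_of_nonneg_left e6 hk.le)
  have hc := fp_pos_comb (fp_pos_self hκ ha') (fp_pos_self hκ hx') (fp_pos_self hκ hb')
    c2.symm c3.symm hab' z'
  rw [huv, fpi_comm a' z', ← c1, ← c4, fpi_comm x' z', ← c5] at hc
  rw [dist_comm a z, ← hc]
  apply mul_le_mul_of_nonneg_left _ (Real.sin_nonneg_of_nonneg_of_le_pi (by positivity) hab.le)
  rw [dist_comm x z]
  exact Real.cos_le_cos_of_nonneg_of_le_pi (by positivity) (fp_pos_mem hκ _ _).2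
      (mul_le_mul_of_nonneg_left e5 hk.le)

/-- the model version with equality -/
theorem fp_model_pos (hκ : 0 < κ) {a x b z : Fin 3 → ℝ} (ha : a ∈ modelPlane κ)
    (hx : x ∈ modelPlane κ) (hb : b ∈ modelPlane κ) (hz : z ∈ modelPlane κ) {s l : ℝ}
    (h1 : modelDist κ a x = s) (h2 : modelDist κ x b = l - s) (h3 : modelDist κ a b = l) :
    Real.sin (√κ * (l - s)) * Real.cos (√κ * modelDist κ a z) +
      Real.sin (√κ * s) * Real.cos (√κ * modelDist κ b z) =
      Real.sin (√κ * l) * Real.cos (√κ * modelDist κ x z) := by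
  have c1 := fp_pos_cos hκ ha hx
  have c2 := fp_pos_cos hκ hx hb
  have c3 := fp_pos_cos hκ ha hb
  rw [h1] at c1
  rw [h2] at c2
  rw [h3] at c3
  have e : √κ * s + √κ * (l - s) = √κ * l := by ring
  have hc := fp_pos_comb (fp_pos_self hκ ha) (fp_pos_self hκ hx) (fp_pos_self hκ hb)
    c1.symm c2.symm (by rw [e]; exact c3.symm) z
  rw [e] at hc
  rw [fp_pos_cos hκ ha hz, fp_pos_cos hκ hb hz, fp_pos_cos hκ hx hz, hc]

theorem fp_model_eq_pos (hκ : 0 < κ) {a x : Fin 3 → ℝ} (ha : a ∈ modelPlane κ)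
    (hx : x ∈ modelPlane κ) (h : modelDist κ a x = 0) : a = x := by
  have c := fp_pos_cos hκ ha hx
  rw [h, mul_zero, Real.cos_zero] at c
  have h1 := fp_pos_self hκ ha
  have h2 := fp_pos_self hκ hx
  have h3 : (a 0 - x 0) ^ 2 + (a 1 - x 1) ^ 2 + (a 2 - x 2) ^ 2 = 0 := by
    have : (a 0 - x 0) ^ 2 + (a 1 - x 1) ^ 2 + (a 2 - x 2) ^ 2 =
      fpi a a + fpi x x - 2 * fpi a x := by unfold fpi; ring
    rw [this, h1, h2, ← c]; ring
  have q0 := sq_nonneg (a 0 - x 0)
  have q1 := sq_nonneg (a 1 - x 1)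
  have q2 := sq_nonneg (a 2 - x 2)
  have h4 : a 0 - x 0 = 0 := pow_eq_zero_iff two_ne_zero |>.1 (by linarith)
  have h5 : a 1 - x 1 = 0 := pow_eq_zero_iff two_ne_zero |>.1 (by linarith)
  have h6 : a 2 - x 2 = 0 := pow_eq_zero_iff two_ne_zero |>.1 (by linarith)
  funext i
  fin_cases i
  · exact sub_eq_zero.1 h4
  · exact sub_eq_zero.1 h5
  · exact sub_eq_zero.1 h6

theorem fp_unique_pos (hκ : 0 < κ) (h : IsCATFourPoint κ X) {x y : X} (h0 : 0 < dist x y)
    (hd : dist x y < Real.pi / √κ) :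
    ∀ s ∈ Icc (0:ℝ) (dist x y), ∀ η > 0, ∃ ε > 0, ∀ m m' : X, dist x m ≤ s + ε →
      dist m y ≤ dist x y - s + ε → dist x m' ≤ s + ε → dist m' y ≤ dist x y - s + ε →
      dist m m' ≤ η := by
  intro s hs η hη
  have hk : 0 < √κ := Real.sqrt_pos.2 hκ
  rw [lt_div_iff₀ hk] at hd
  set k := √κ with hkdef
  set d := dist x y with hddef
  have hkd0 : 0 < k * d := mul_pos hk h0
  have hkd : k * d < Real.pi := by rw [mul_comm]; exact hd
  have hS : 0 < Real.sin (k * d) := Real.sin_pos_of_pos_of_lt_pi hkd0 hkd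
  set σ : ℝ → ℝ := fun ε => Real.sin (k * (d - s)) * Real.cos (k * (s + ε)) +
    Real.sin (k * s) * Real.cos (k * (d - s + ε)) with hσ
  have hσc : Continuous σ := by rw [hσ]; fun_prop
  have hσ0 : σ 0 = Real.sin (k * d) := by
    rw [hσ]
    simp only [add_zero]
    rw [show k * d = k * (d - s) + k * s by ring, Real.sin_add]
    ring
  set η' := min η (Real.pi / k) with hη'
  have hη'0 : 0 < η' := lt_min hη (div_pos Real.pi_pos hk)
  have hη'1 : k * η' ≤ Real.pi := by
    have : η' ≤ Real.pi / k := min_le_right _ _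
    rwa [le_div_iff₀ hk, mul_comm] at this
  have hcos : Real.cos (k * η') < 1 := by
    rw [← Real.cos_zero]
    exact Real.cos_lt_cos_of_nonneg_of_le_pi le_rfl hη'1 (mul_pos hk hη'0)
  have ht : Tendsto σ (𝓝[>] 0) (𝓝 (Real.sin (k * d))) := by
    rw [← hσ0]; exact (hσc.tendsto 0).mono_left nhdsWithin_le_nhds
  have ev1 : ∀ᶠ ε in 𝓝[>] (0:ℝ), 0 < σ ε := ht.eventually (lt_mem_nhds hS)
  have ev2 : ∀ᶠ ε in 𝓝[>] (0:ℝ), (1 + Real.cos (k * η')) * Real.sin (k * d) ^ 2 < 2 * σ ε ^ 2 := by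
    have h1 : Tendsto (fun ε => 2 * σ ε ^ 2) (𝓝[>] 0) (𝓝 (2 * Real.sin (k * d) ^ 2)) :=
      (ht.pow 2).const_mul 2
    refine h1.eventually (lt_mem_nhds ?_)
    have := pow_pos hS 2
    nlinarith
  have ev3 : ∀ᶠ ε in 𝓝[>] (0:ℝ), k * (d + 2 * ε) < Real.pi := by
    have hc : Continuous fun ε : ℝ => k * (d + 2 * ε) := by fun_prop
    have h1 : Tendsto (fun ε : ℝ => k * (d + 2 * ε)) (𝓝[>] 0) (𝓝 (k * (d + 2 * 0))) :=
      (hc.tendsto 0).mono_left nhdsWithin_le_nhds
    rw [mul_zero, add_zero] at h1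
    exact h1.eventually (gt_mem_nhds hkd)
  obtain ⟨ε, ⟨⟨e1, e2⟩, e3⟩, e4⟩ := (((ev1.and ev2).and ev3).and self_mem_nhdsWithin).exists
  have e4' : 0 < ε := e4
  refine ⟨ε, e4', ?_⟩
  intro m m' q1 q2 q3 q4
  obtain ⟨x', hx', m1, hm1, y', hy', m2, hm2, f1, f2, f3, f4, f5, f6⟩ := h x m y m' (Or.inr (by
    rw [lt_div_iff₀ hk, dist_comm y m', dist_comm m' x]
    have : (dist x m + dist m y + dist m' y + dist x m') / 2 ≤ d + 2 * ε := by linarith
    calc (dist x m + dist m y + dist m' y + dist x m') / 2 * k ≤ (d + 2 * ε) * k :=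
          mul_le_mul_of_nonneg_right this hk.le
      _ < Real.pi := by rw [mul_comm]; exact e3))
  have c1 := fp_pos_cos hκ hx' hm1
  have c2 := fp_pos_cos hκ hm1 hy'
  have c3 := fp_pos_cos hκ hy' hm2
  have c4 := fp_pos_cos hκ hm2 hx'
  have c5 := fp_pos_cos hκ hx' hy'
  have c6 := fp_pos_cos hκ hm1 hm2
  rw [f1] at c1
  rw [f2] at c2
  rw [f3] at c3
  rw [f4] at c4
  rw [← hkdef] at c1 c2 c3 c4 c5 c6
  have hks : 0 ≤ k * s := mul_nonneg hk.le hs.1
  have hkds : 0 ≤ k * (d - s) := mul_nonneg hk.le (by linarith [hs.2])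
  have hle : ∀ r, r ≤ d + 2 * ε → k * r ≤ Real.pi := fun r hr =>
    (mul_le_mul_of_nonneg_left hr hk.le).trans e3.le
  have hkse : k * (s + ε) ≤ Real.pi := hle _ (by linarith [hs.2])
  have hkdse : k * (d - s + ε) ≤ Real.pi := hle _ (by linarith [hs.1])
  have g1 : Real.cos (k * (s + ε)) ≤ fpi x' m1 := by
    rw [← c1]
    exact Real.cos_le_cos_of_nonneg_of_le_pi (by positivity) hkse (mul_le_mul_of_nonneg_left q1 hk.le)
  have g2 : Real.cos (k * (d - s + ε)) ≤ fpi m1 y' := by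
    rw [← c2]
    exact Real.cos_le_cos_of_nonneg_of_le_pi (by positivity) hkdse (mul_le_mul_of_nonneg_left q2 hk.le)
  have g3 : Real.cos (k * (d - s + ε)) ≤ fpi y' m2 := by
    rw [← c3, dist_comm y m']
    exact Real.cos_le_cos_of_nonneg_of_le_pi (by positivity) hkdse (mul_le_mul_of_nonneg_left q4 hk.le)
  have g4 : Real.cos (k * (s + ε)) ≤ fpi m2 x' := by
    rw [← c4, dist_comm m' x]
    exact Real.cos_le_cos_of_nonneg_of_le_pi (by positivity) hkse (mul_le_mul_of_nonneg_left q3 hk.le)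
  have g5 : fpi x' y' ≤ Real.cos (k * d) := by
    rw [← c5]
    exact Real.cos_le_cos_of_nonneg_of_le_pi hkd0.le (fp_pos_mem hκ _ _).2
      (mul_le_mul_of_nonneg_left f5 hk.le)
  set A := Real.sin (k * (d - s)) with hA
  set B := Real.sin (k * s) with hB
  have hA0 : 0 ≤ A := Real.sin_nonneg_of_nonneg_of_le_pi hkds (hle _ (by linarith [hs.1]))
  have hB0 : 0 ≤ B := Real.sin_nonneg_of_nonneg_of_le_pi hks (hle _ (by linarith [hs.2]))
  have hcs := fpi_cs (fun i => A * x' i + B * y' i) (fun i => m1 i + m2 i)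
  have w1 : fpi (fun i => A * x' i + B * y' i) (fun i => m1 i + m2 i) =
      A * fpi x' m1 + B * fpi m1 y' + (A * fpi m2 x' + B * fpi y' m2) := by
    unfold fpi; ring
  have w2 : fpi (fun i => A * x' i + B * y' i) (fun i => A * x' i + B * y' i) =
      A ^ 2 * fpi x' x' + B ^ 2 * fpi y' y' + 2 * A * B * fpi x' y' := by
    unfold fpi; ring
  have w3 : fpi (fun i => m1 i + m2 i) (fun i => m1 i + m2 i) =
      fpi m1 m1 + fpi m2 m2 + 2 * fpi m1 m2 := by
    unfold fpi; ring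
  rw [w1, w2, w3, fp_pos_self hκ hx', fp_pos_self hκ hy', fp_pos_self hκ hm1,
    fp_pos_self hκ hm2] at hcs
  have v1 : 2 * σ ε ≤ A * fpi x' m1 + B * fpi m1 y' + (A * fpi m2 x' + B * fpi y' m2) := by
    have u1 := mul_le_mul_of_nonneg_left g1 hA0
    have u2 := mul_le_mul_of_nonneg_left g2 hB0
    have u3 := mul_le_mul_of_nonneg_left g3 hB0
    have u4 := mul_le_mul_of_nonneg_left g4 hA0
    simp only [hσ]
    linarith
  have v2 : A ^ 2 * 1 + B ^ 2 * 1 + 2 * A * B * fpi x' y' ≤ Real.sin (k * d) ^ 2 := by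
    have u1 : 2 * A * B * fpi x' y' ≤ 2 * A * B * Real.cos (k * d) :=
      mul_le_mul_of_nonneg_left g5 (by positivity)
    have u2 : A ^ 2 * 1 + B ^ 2 * 1 + 2 * A * B * Real.cos (k * d) = Real.sin (k * d) ^ 2 := by
      have pu := Real.sin_sq_add_cos_sq (k * (d - s))
      have pv := Real.sin_sq_add_cos_sq (k * s)
      rw [show k * d = k * (d - s) + k * s by ring, Real.sin_add, Real.cos_add, ← hA, ← hB]
      rw [← hA] at pu
      rw [← hB] at pv
      linear_combination (-(B ^ 2)) * pu + (-(A ^ 2)) * pv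
    linarith
  have v3 : (2 * σ ε) ^ 2 ≤ Real.sin (k * d) ^ 2 * (1 + 1 + 2 * fpi m1 m2) := by
    have u1 := pow_le_pow_left₀ (by linarith : 0 ≤ 2 * σ ε) v1 2
    have u2 : 0 ≤ 1 + 1 + 2 * fpi m1 m2 := by linarith [(fpi_abs_le hκ hm1 hm2).1]
    have u3 := mul_le_mul_of_nonneg_right v2 u2
    linarith
  have v4 : Real.cos (k * η') < fpi m1 m2 := by
    have hS2 := pow_pos hS 2
    by_contra hcon
    push Not at hcon
    have a0 := mul_le_mul_of_nonneg_left hcon hS2.le
    have a1 : (2 * σ ε) ^ 2 = 2 * (2 * σ ε ^ 2) := by ring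
    have a2 : Real.sin (k * d) ^ 2 * (1 + 1 + 2 * fpi m1 m2) =
      2 * Real.sin (k * d) ^ 2 + 2 * (Real.sin (k * d) ^ 2 * fpi m1 m2) := by ring
    have a3 : (1 + Real.cos (k * η')) * Real.sin (k * d) ^ 2 =
      Real.sin (k * d) ^ 2 + Real.sin (k * d) ^ 2 * Real.cos (k * η') := by ring
    rw [a1, a2] at v3
    rw [a3] at e2
    linarith
  have v5 : modelDist κ m1 m2 < η' := by
    by_contra hcon
    push Not at hcon
    have u1 := Real.cos_le_cos_of_nonneg_of_le_pi (mul_pos hk hη'0).le (fp_pos_mem hκ m1 m2).2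
      (mul_le_mul_of_nonneg_left hcon hk.le)
    rw [← hkdef, c6] at u1
    linarith
  exact (f6.trans v5.le).trans (min_le_left _ _)

theorem fp_model_comm_pos (hκ : 0 < κ) (v w : Fin 3 → ℝ) :
    modelDist κ v w = modelDist κ w v := by
  rw [fp_pos_dist hκ, fp_pos_dist hκ, fpi_comm]

theorem fp_comp_pos (hκ : 0 < κ) (h : IsCATFourPoint κ X) {a b c x y : X} {s t : ℝ}
    (hax : dist a x = s) (hxb : dist x b = dist a b - s) (hay : dist a y = t)
    (hyc : dist y c = dist a c - t)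
    (hp : (dist a b + dist b c + dist a c) / 2 < Real.pi / √κ)
    {a' b' c' x' y' : Fin 3 → ℝ} (ha' : a' ∈ modelPlane κ) (hb' : b' ∈ modelPlane κ)
    (hc' : c' ∈ modelPlane κ) (hx' : x' ∈ modelPlane κ) (hy' : y' ∈ modelPlane κ)
    (m1 : modelDist κ a' b' = dist a b) (m2 : modelDist κ b' c' = dist b c)
    (m3 : modelDist κ a' c' = dist a c) (m4 : modelDist κ a' x' = s)
    (m5 : modelDist κ x' b' = dist a b - s) (m6 : modelDist κ a' y' = t)
    (m7 : modelDist κ y' c' = dist a c - t) : dist x y ≤ modelDist κ x' y' := by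
  have hs0 : 0 ≤ s := hax ▸ dist_nonneg
  have ht0 : 0 ≤ t := hay ▸ dist_nonneg
  have hsL : s ≤ dist a b := by linarith [dist_nonneg (x := x) (y := b)]
  have htM : t ≤ dist a c := by linarith [dist_nonneg (x := y) (y := c)]
  have hk : 0 < √κ := Real.sqrt_pos.2 hκ
  rcases (dist_nonneg (x := a) (y := b)).eq_or_lt with hL | hL
  · have hs : s = 0 := by linarith
    subst hs
    have e1 : a' = x' := fp_model_eq_pos hκ ha' hx' m4
    have e2 : a = x := dist_eq_zero.1 hax
    rw [← e1, ← e2, m6, hay]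
  rcases (dist_nonneg (x := a) (y := c)).eq_or_lt with hM | hM
  · have ht : t = 0 := by linarith
    subst ht
    have e1 : a' = y' := fp_model_eq_pos hκ ha' hy' m6
    have e2 : a = y := dist_eq_zero.1 hay
    rw [← e1, ← e2, fp_model_comm_pos hκ, m4, dist_comm, hax]
  have t1 : dist a c ≤ dist a b + dist b c := dist_triangle _ _ _
  have t2 : dist a b ≤ dist a c + dist b c := by
    have := dist_triangle a c b; rwa [dist_comm c b] at this
  have t3 : dist c x ≤ dist b c + (dist a b - s) := by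
    have := dist_triangle c b x
    rw [dist_comm c b, dist_comm b x, hxb] at this; exact this
  have t4 : dist y x ≤ t + s := by
    have := dist_triangle y a x
    rw [dist_comm y a, hay, hax] at this; exact this
  have t5 : dist y x ≤ (dist a c - t) + (dist b c + (dist a b - s)) := by
    have := dist_triangle y c x
    rw [hyc] at this; linarith
  have hp' := hp
  rw [lt_div_iff₀ hk] at hp'
  have hle : ∀ r, r ≤ (dist a b + dist b c + dist a c) / 2 → √κ * r < Real.pi := fun r hr => by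
    rw [mul_comm]
    exact lt_of_le_of_lt (mul_le_mul_of_nonneg_right hr hk.le) hp'
  have sL : 0 < Real.sin (√κ * dist a b) :=
    Real.sin_pos_of_pos_of_lt_pi (by positivity) (hle _ (by linarith))
  have sM : 0 < Real.sin (√κ * dist a c) :=
    Real.sin_pos_of_pos_of_lt_pi (by positivity) (hle _ (by linarith))
  have st : 0 ≤ Real.sin (√κ * t) :=
    Real.sin_nonneg_of_nonneg_of_le_pi (by positivity) (hle _ (by linarith)).le
  have S1 := fp_stewart_pos hκ h (a := a) (b := b) (x := x) (z := c) (by rw [hax, hxb]; ring)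
    (by
      have : dist c a + dist a b + dist b c = dist a b + dist b c + dist a c := by
        rw [dist_comm c a]; ring
      rw [this]; exact hp)
  have S2 := fp_stewart_pos hκ h (a := a) (b := c) (x := y) (z := x) (by rw [hay, hyc]; ring)
    (lt_of_le_of_lt (by rw [dist_comm x a, hax]; linarith) hp)
  have M1 := fp_model_pos hκ ha' hx' hb' hc' m4 m5 m1
  have M2 := fp_model_pos hκ ha' hy' hc' hx' m6 m7 m3
  rw [hxb, hax] at S1
  rw [hyc, hay, hax] at S2
  rw [m3, m2] at M1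
  rw [m4, fp_model_comm_pos hκ c' x'] at M2
  rw [dist_comm c x] at S2
  have key : Real.cos (√κ * modelDist κ y' x') ≤ Real.cos (√κ * dist y x) := by
    rw [M1] at S1
    have v1 := le_of_mul_le_mul_left S1 sL
    have v2 := mul_le_mul_of_nonneg_left v1 st
    refine le_of_mul_le_mul_left ?_ sM
    rw [← M2]
    linarith
  rw [dist_comm x y, fp_model_comm_pos hκ]
  by_contra hcon
  push Not at hcon
  have := Real.cos_lt_cos_of_nonneg_of_le_pi (fp_pos_mem hκ y' x').1
    (hle (dist y x) (by linarith)).le (mul_lt_mul_of_pos_left hcon hk)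
  linarith

end Pos

end MP629748
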