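import Pool.Agent.Lib.MP_629748_gt.FourPointA

/-!
The CAT(κ) four-point condition, negative curvature (helper84).
-/

set_option autoImplicit false

open Set Filter Topology
open scoped NNReal

namespace MP629748

section Neg

/-- the Lorentzian form of `ℝ³` -/
def fpj (v w : Fin 3 → ℝ) : ℝ := v 0 * w 0 - v 1 * w 1 - v 2 * w 2

theorem fpj_comm (v w : Fin 3 → ℝ) : fpj v w = fpj w v := by unfold fpj; ring

theorem fp_neg_self {κ : ℝ} (hκ : κ < 0) {v : Fin 3 → ℝ} (hv : v ∈ modelPlane κ) :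
    fpj v v = 1 ∧ 0 < v 0 := by
  rcases hv with h | h | h
  · exact absurd h.1 (not_lt.2 hκ.le)
  · exact absurd h.1 hκ.ne
  · refine ⟨?_, h.2.1⟩
    rw [← h.2.2]; unfold fpj; ring

theorem fpj_ge_one {κ : ℝ} (hκ : κ < 0) {v w : Fin 3 → ℝ} (hv : v ∈ modelPlane κ)
    (hw : w ∈ modelPlane κ) : 1 ≤ fpj v w := by
  obtain ⟨h1, h2⟩ := fp_neg_self hκ hv
  obtain ⟨h3, h4⟩ := fp_neg_self hκ hw
  unfold fpj at *
  by_contra hcon
  push Not at hcon
  have h5 : v 0 * w 0 < 1 + (v 1 * w 1 + v 2 * w 2) := by linarith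
  have h6 := pow_lt_pow_left₀ h5 (mul_pos h2 h4).le two_ne_zero
  have h7 : v 0 * v 0 = 1 + (v 1 * v 1 + v 2 * v 2) := by linarith
  have h8 : w 0 * w 0 = 1 + (w 1 * w 1 + w 2 * w 2) := by linarith
  have h9 : (v 0 * w 0) ^ 2 = (v 0 * v 0) * (w 0 * w 0) := by ring
  rw [h9, h7, h8] at h6
  have h10 : (1 + (v 1 * v 1 + v 2 * v 2)) * (1 + (w 1 * w 1 + w 2 * w 2)) =
      (1 + (v 1 * w 1 + v 2 * w 2)) ^ 2 + ((v 1 - w 1) ^ 2 + (v 2 - w 2) ^ 2 +
        (v 1 * w 2 - v 2 * w 1) ^ 2) := by ring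
  rw [h10] at h6
  have := sq_nonneg (v 1 - w 1)
  have := sq_nonneg (v 2 - w 2)
  have := sq_nonneg (v 1 * w 2 - v 2 * w 1)
  linarith

theorem fp_neg_dist {κ : ℝ} (hκ : κ < 0) (v w : Fin 3 → ℝ) :
    modelDist κ v w = Real.arcosh (fpj v w) / √(-κ) := by
  unfold modelDist fpj; rw [if_neg (not_lt.2 hκ.le), if_neg hκ.ne]

theorem fp_neg_cosh {κ : ℝ} (hκ : κ < 0) {v w : Fin 3 → ℝ} (hv : v ∈ modelPlane κ)
    (hw : w ∈ modelPlane κ) : Real.cosh (√(-κ) * modelDist κ v w) = fpj v w := by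
  have hk : √(-κ) ≠ 0 := (Real.sqrt_pos.2 (by linarith)).ne'
  rw [fp_neg_dist hκ, mul_div_cancel₀ _ hk, Real.cosh_arcosh (fpj_ge_one hκ hv hw)]

theorem fp_neg_nonneg {κ : ℝ} (hκ : κ < 0) {v w : Fin 3 → ℝ} (hv : v ∈ modelPlane κ)
    (hw : w ∈ modelPlane κ) : 0 ≤ √(-κ) * modelDist κ v w := by
  have hk : √(-κ) ≠ 0 := (Real.sqrt_pos.2 (by linarith)).ne'
  rw [fp_neg_dist hκ, mul_div_cancel₀ _ hk]
  exact Real.arcosh_nonneg (fpj_ge_one hκ hv hw)

theorem fp_cosh_mono {u v : ℝ} (hu : 0 ≤ u) (huv : u ≤ v) : Real.cosh u ≤ Real.cosh v := by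
  rw [Real.cosh_le_cosh, abs_of_nonneg hu, abs_of_nonneg (hu.trans huv)]; exact huv

theorem fp_cosh_lt {u v : ℝ} (hu : 0 ≤ u) (huv : u < v) : Real.cosh u < Real.cosh v := by
  rw [Real.cosh_lt_cosh, abs_of_nonneg hu, abs_of_nonneg (hu.trans huv.le)]; exact huv

/-- a null vector orthogonal to a timelike vector vanishes -/
theorem fpj_null {w a : Fin 3 → ℝ} (ha : fpj a a = 1) (h1 : fpj w w = 0) (h2 : fpj w a = 0) :
    w 0 = 0 ∧ w 1 = 0 ∧ w 2 = 0 := by
  unfold fpj at *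
  have e1 : w 0 * a 0 = w 1 * a 1 + w 2 * a 2 := by linarith
  have e2 : w 0 * w 0 = w 1 * w 1 + w 2 * w 2 := by linarith
  have e3 : a 0 * a 0 = 1 + (a 1 * a 1 + a 2 * a 2) := by linarith
  have e4 : (w 1 * a 1 + w 2 * a 2) ^ 2 ≤ (w 1 * w 1 + w 2 * w 2) * (a 1 * a 1 + a 2 * a 2) := by
    have : (w 1 * w 1 + w 2 * w 2) * (a 1 * a 1 + a 2 * a 2) =
      (w 1 * a 1 + w 2 * a 2) ^ 2 + (w 1 * a 2 - w 2 * a 1) ^ 2 := by ring
    rw [this]; linarith [sq_nonneg (w 1 * a 2 - w 2 * a 1)]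
  have e5 : (w 0 * a 0) ^ 2 = (w 0 * w 0) * (a 0 * a 0) := by ring
  rw [← e1, e5, e3, ← e2] at e4
  have e6 : w 0 ^ 2 ≤ 0 := by
    have : w 0 * w 0 * (1 + (a 1 * a 1 + a 2 * a 2)) =
      w 0 ^ 2 + w 0 * w 0 * (a 1 * a 1 + a 2 * a 2) := by ring
    linarith
  have e7 : w 0 = 0 := pow_eq_zero_iff two_ne_zero |>.1 (le_antisymm e6 (sq_nonneg _))
  rw [e7] at e2
  have q1 := mul_self_nonneg (w 1)
  have q2 := mul_self_nonneg (w 2)
  exact ⟨e7, mul_self_eq_zero.1 (by linarith), mul_self_eq_zero.1 (by linarith)⟩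

/-- points of a segment are linear combinations of the end points -/
theorem fp_neg_comb {a x b : Fin 3 → ℝ} (ha : fpj a a = 1) (hx : fpj x x = 1)
    (hb : fpj b b = 1) {u v : ℝ} (h1 : fpj a x = Real.cosh u) (h2 : fpj x b = Real.cosh v)
    (h3 : fpj a b = Real.cosh (u + v)) (z : Fin 3 → ℝ) :
    Real.sinh (u + v) * fpj x z = Real.sinh v * fpj a z + Real.sinh u * fpj b z := by
  have pu := Real.cosh_sq u
  have pv := Real.cosh_sq v
  rw [Real.cosh_add] at h3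
  rw [Real.sinh_add]
  generalize Real.sinh u = su at *
  generalize Real.cosh u = cu at *
  generalize Real.sinh v = sv at *
  generalize Real.cosh v = cv at *
  have k1 : fpj (fun i => (su * cv + cu * sv) * x i - sv * a i - su * b i)
      (fun i => (su * cv + cu * sv) * x i - sv * a i - su * b i) = 0 := by
    have : fpj (fun i => (su * cv + cu * sv) * x i - sv * a i - su * b i)
      (fun i => (su * cv + cu * sv) * x i - sv * a i - su * b i) =
      (su * cv + cu * sv) ^ 2 * fpj x x + sv ^ 2 * fpj a a + su ^ 2 * fpj b b -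
      2 * (su * cv + cu * sv) * sv * fpj a x - 2 * (su * cv + cu * sv) * su * fpj x b +
      2 * sv * su * fpj a b := by
      unfold fpj; ring
    rw [this, ha, hx, hb, h1, h2, h3]
    linear_combination (-(sv ^ 2)) * pu + (-(su ^ 2)) * pv
  have k2 : fpj (fun i => (su * cv + cu * sv) * x i - sv * a i - su * b i) a = 0 := by
    have : fpj (fun i => (su * cv + cu * sv) * x i - sv * a i - su * b i) a =
      (su * cv + cu * sv) * fpj a x - sv * fpj a a - su * fpj a b := by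
      unfold fpj; ring
    rw [this, ha, h1, h3]
    linear_combination sv * pu
  obtain ⟨h0, h1', h2'⟩ := fpj_null ha k1 k2
  unfold fpj
  linear_combination z 0 * h0 - z 1 * h1' - z 2 * h2'

/-- the Gram determinant inequality -/
theorem fpj_gram {a x b : Fin 3 → ℝ} (ha : fpj a a = 1) (hx : fpj x x = 1) (hb : fpj b b = 1) :
    (fpj a b - fpj a x * fpj x b) ^ 2 ≤ (fpj a x ^ 2 - 1) * (fpj x b ^ 2 - 1) := by
  have h : fpj a a * fpj x x * fpj b b + 2 * fpj a x * fpj x b * fpj a b -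
      fpj a a * fpj x b ^ 2 - fpj x x * fpj a b ^ 2 - fpj b b * fpj a x ^ 2 =
      (a 0 * (x 1 * b 2 - x 2 * b 1) - a 1 * (x 0 * b 2 - x 2 * b 0) +
        a 2 * (x 0 * b 1 - x 1 * b 0)) ^ 2 := by
    unfold fpj; ring
  rw [ha, hx, hb] at h
  have q := sq_nonneg (a 0 * (x 1 * b 2 - x 2 * b 1) - a 1 * (x 0 * b 2 - x 2 * b 0) +
        a 2 * (x 0 * b 1 - x 1 * b 0))
  rw [← h] at q
  have e : (fpj a x ^ 2 - 1) * (fpj x b ^ 2 - 1) - (fpj a b - fpj a x * fpj x b) ^ 2 =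
    1 * 1 * 1 + 2 * fpj a x * fpj x b * fpj a b - 1 * fpj x b ^ 2 - 1 * fpj a b ^ 2 -
      1 * fpj a x ^ 2 := by ring
  linarith

theorem fpj_gram_cosh {a x b : Fin 3 → ℝ} (ha : fpj a a = 1) (hx : fpj x x = 1)
    (hb : fpj b b = 1) {u v : ℝ} (h1 : fpj a x = Real.cosh u) (h2 : fpj x b = Real.cosh v)
    (hu : 0 ≤ Real.sinh u) (hv : 0 ≤ Real.sinh v) :
    fpj a b ≤ Real.cosh (u + v) := by
  have h := fpj_gram ha hx hb
  rw [h1, h2] at h
  have e : (Real.cosh u ^ 2 - 1) * (Real.cosh v ^ 2 - 1) = (Real.sinh u * Real.sinh v) ^ 2 := by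
    rw [mul_pow, Real.cosh_sq, Real.cosh_sq]; ring
  rw [e] at h
  have h3 := abs_le_of_sq_le_sq' h (mul_nonneg hu hv)
  rw [Real.cosh_add]
  linarith [h3.2]

/-- reversed Cauchy-Schwarz inequality -/
theorem fpj_rcs {w u : Fin 3 → ℝ} (hw : 0 < fpj w w) : fpj w w * fpj u u ≤ fpj w u ^ 2 := by
  have h0 : 0 < w 0 ^ 2 := by
    unfold fpj at hw
    have q1 := mul_self_nonneg (w 1)
    have q2 := mul_self_nonneg (w 2)
    rw [sq]; linarith
  have key : w 0 ^ 2 * (fpj w u ^ 2 - fpj w w * fpj u u) =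
      fpj w w * ((w 0 * u 1 - w 1 * u 0) ^ 2 + (w 0 * u 2 - w 2 * u 0) ^ 2) +
      (w 1 * (w 0 * u 1 - w 1 * u 0) + w 2 * (w 0 * u 2 - w 2 * u 0)) ^ 2 := by
    unfold fpj; ring
  have h1 : 0 ≤ w 0 ^ 2 * (fpj w u ^ 2 - fpj w w * fpj u u) := by
    rw [key]; positivity
  have h2 := nonneg_of_mul_nonneg_right h1 h0
  linarith

variable {κ : ℝ} {X : Type*} [MetricSpace X]

/-- Stewart's inequality from the four-point condition, negative curvature. -/
theorem fp_stewart_neg (hκ : κ < 0) (h : IsCATFourPoint κ X) {a b x z : X}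
    (hx : dist a x + dist x b = dist a b) :
    Real.sinh (√(-κ) * dist a b) * Real.cosh (√(-κ) * dist x z) ≤
    Real.sinh (√(-κ) * dist x b) * Real.cosh (√(-κ) * dist a z) +
      Real.sinh (√(-κ) * dist a x) * Real.cosh (√(-κ) * dist b z) := by
  have hk : 0 < √(-κ) := Real.sqrt_pos.2 (by linarith)
  have n1 := dist_nonneg (x := a) (y := x)
  have n2 := dist_nonneg (x := x) (y := b)
  have hu0 : 0 ≤ √(-κ) * dist a x := by positivity
  have hv0 : 0 ≤ √(-κ) * dist x b := by positivity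
  have huv : √(-κ) * dist a x + √(-κ) * dist x b = √(-κ) * dist a b := by rw [← hx]; ring
  obtain ⟨z', hz', a', ha', x', hx', b', hb', e1, e2, e3, e4, e5, e6⟩ := h z a x b (Or.inl hκ.le)
  have c1 := fp_neg_cosh hκ hz' ha'
  have c2 := fp_neg_cosh hκ ha' hx'
  have c3 := fp_neg_cosh hκ hx' hb'
  have c4 := fp_neg_cosh hκ hb' hz'
  have c5 := fp_neg_cosh hκ hz' hx'
  have c6 := fp_neg_cosh hκ ha' hb'
  rw [e1] at c1
  rw [e2] at c2
  rw [e3] at c3
  rw [e4] at c4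
  have hsu : 0 ≤ Real.sinh (√(-κ) * dist a x) := Real.sinh_nonneg_iff.2 hu0
  have hsv : 0 ≤ Real.sinh (√(-κ) * dist x b) := Real.sinh_nonneg_iff.2 hv0
  have hg := fpj_gram_cosh (fp_neg_self hκ ha').1 (fp_neg_self hκ hx').1 (fp_neg_self hκ hb').1
    c2.symm c3.symm hsu hsv
  have hab' : fpj a' b' = Real.cosh (√(-κ) * dist a x + √(-κ) * dist x b) := by
    apply le_antisymm hg
    rw [← c6, huv]
    exact fp_cosh_mono (by positivity) (mul_le_mul_of_nonneg_left e6 hk.le)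
  have hc := fp_neg_comb (fp_neg_self hκ ha').1 (fp_neg_self hκ hx').1 (fp_neg_self hκ hb').1
    c2.symm c3.symm hab' z'
  rw [huv, fpj_comm a' z', ← c1, ← c4, fpj_comm x' z', ← c5] at hc
  rw [dist_comm a z, ← hc]
  apply mul_le_mul_of_nonneg_left _ (Real.sinh_nonneg_iff.2 (by positivity))
  rw [dist_comm x z]
  exact fp_cosh_mono (by positivity) (mul_le_mul_of_nonneg_left e5 hk.le)

/-- the model version with equality -/
theorem fp_model_neg (hκ : κ < 0) {a x b z : Fin 3 → ℝ} (ha : a ∈ modelPlane κ)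
    (hx : x ∈ modelPlane κ) (hb : b ∈ modelPlane κ) (hz : z ∈ modelPlane κ) {s l : ℝ}
    (h1 : modelDist κ a x = s) (h2 : modelDist κ x b = l - s) (h3 : modelDist κ a b = l) :
    Real.sinh (√(-κ) * (l - s)) * Real.cosh (√(-κ) * modelDist κ a z) +
      Real.sinh (√(-κ) * s) * Real.cosh (√(-κ) * modelDist κ b z) =
      Real.sinh (√(-κ) * l) * Real.cosh (√(-κ) * modelDist κ x z) := by
  have c1 := fp_neg_cosh hκ ha hx
  have c2 := fp_neg_cosh hκ hx hb
  have c3 := fp_neg_cosh hκ ha hb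
  rw [h1] at c1
  rw [h2] at c2
  rw [h3] at c3
  have e : √(-κ) * s + √(-κ) * (l - s) = √(-κ) * l := by ring
  have hc := fp_neg_comb (fp_neg_self hκ ha).1 (fp_neg_self hκ hx).1 (fp_neg_self hκ hb).1
    c1.symm c2.symm (by rw [e]; exact c3.symm) z
  rw [e] at hc
  rw [fp_neg_cosh hκ ha hz, fp_neg_cosh hκ hb hz, fp_neg_cosh hκ hx hz, hc]

theorem fp_model_eq_neg (hκ : κ < 0) {a x : Fin 3 → ℝ} (ha : a ∈ modelPlane κ)
    (hx : x ∈ modelPlane κ) (h : modelDist κ a x = 0) : a = x := by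
  have c := fp_neg_cosh hκ ha hx
  rw [h, mul_zero, Real.cosh_zero] at c
  have h1 := (fp_neg_self hκ ha).1
  have h2 := (fp_neg_self hκ hx).1
  have h3 : fpj (fun i => a i - x i) (fun i => a i - x i) = 0 := by
    have : fpj (fun i => a i - x i) (fun i => a i - x i) =
      fpj a a + fpj x x - 2 * fpj a x := by unfold fpj; ring
    rw [this, h1, h2, ← c]; ring
  have h4 : fpj (fun i => a i - x i) a = 0 := by
    have : fpj (fun i => a i - x i) a = fpj a a - fpj a x := by unfold fpj; ring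
    rw [this, h1, ← c]; ring
  obtain ⟨h5, h6, h7⟩ := fpj_null h1 h3 h4
  funext i
  fin_cases i
  · exact sub_eq_zero.1 h5
  · exact sub_eq_zero.1 h6
  · exact sub_eq_zero.1 h7

theorem fp_model_comm_neg (hκ : κ < 0) (v w : Fin 3 → ℝ) :
    modelDist κ v w = modelDist κ w v := by
  rw [fp_neg_dist hκ, fp_neg_dist hκ, fpj_comm]

theorem fp_unique_neg (hκ : κ < 0) (h : IsCATFourPoint κ X) {x y : X} (h0 : 0 < dist x y) :
    ∀ s ∈ Icc (0:ℝ) (dist x y), ∀ η > 0, ∃ ε > 0, ∀ m m' : X, dist x m ≤ s + ε →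
      dist m y ≤ dist x y - s + ε → dist x m' ≤ s + ε → dist m' y ≤ dist x y - s + ε →
      dist m m' ≤ η := by
  intro s hs η hη
  have hk : 0 < √(-κ) := Real.sqrt_pos.2 (by linarith)
  set k := √(-κ) with hkdef
  set d := dist x y with hddef
  have hkd0 : 0 < k * d := mul_pos hk h0
  have hS : 0 < Real.sinh (k * d) := Real.sinh_pos_iff.2 hkd0
  set σ : ℝ → ℝ := fun ε => Real.sinh (k * (d - s)) * Real.cosh (k * (s + ε)) +
    Real.sinh (k * s) * Real.cosh (k * (d - s + ε)) with hσ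
  have hσc : Continuous σ := by rw [hσ]; fun_prop
  have hσ0 : σ 0 = Real.sinh (k * d) := by
    rw [hσ]
    simp only [add_zero]
    rw [show k * d = k * (d - s) + k * s by ring, Real.sinh_add]
    ring
  have hcos : 1 < Real.cosh (k * η) := by
    rw [← Real.cosh_zero]
    exact fp_cosh_lt le_rfl (mul_pos hk hη)
  have ht : Tendsto σ (𝓝[>] 0) (𝓝 (Real.sinh (k * d))) := by
    rw [← hσ0]; exact (hσc.tendsto 0).mono_left nhdsWithin_le_nhds
  have ev2 : ∀ᶠ ε in 𝓝[>] (0:ℝ), 2 * σ ε ^ 2 < (1 + Real.cosh (k * η)) * Real.sinh (k * d) ^ 2 := by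
    have h1 : Tendsto (fun ε => 2 * σ ε ^ 2) (𝓝[>] 0) (𝓝 (2 * Real.sinh (k * d) ^ 2)) :=
      (ht.pow 2).const_mul 2
    refine h1.eventually (gt_mem_nhds ?_)
    have := pow_pos hS 2
    nlinarith
  obtain ⟨ε, e2, e4⟩ := (ev2.and self_mem_nhdsWithin).exists
  have e4' : 0 < ε := e4
  refine ⟨ε, e4', ?_⟩
  intro m m' q1 q2 q3 q4
  obtain ⟨x', hx', m1, hm1, y', hy', m2, hm2, f1, f2, f3, f4, f5, f6⟩ := h x m y m'
    (Or.inl hκ.le)
  have c1 := fp_neg_cosh hκ hx' hm1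
  have c2 := fp_neg_cosh hκ hm1 hy'
  have c3 := fp_neg_cosh hκ hy' hm2
  have c4 := fp_neg_cosh hκ hm2 hx'
  have c5 := fp_neg_cosh hκ hx' hy'
  have c6 := fp_neg_cosh hκ hm1 hm2
  rw [f1] at c1
  rw [f2] at c2
  rw [f3] at c3
  rw [f4] at c4
  rw [← hkdef] at c1 c2 c3 c4 c5 c6
  have hks : 0 ≤ k * s := mul_nonneg hk.le hs.1
  have hkds : 0 ≤ k * (d - s) := mul_nonneg hk.le (by linarith [hs.2])
  have g1 : fpj x' m1 ≤ Real.cosh (k * (s + ε)) := by
    rw [← c1]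
    exact fp_cosh_mono (by positivity) (mul_le_mul_of_nonneg_left q1 hk.le)
  have g2 : fpj m1 y' ≤ Real.cosh (k * (d - s + ε)) := by
    rw [← c2]
    exact fp_cosh_mono (by positivity) (mul_le_mul_of_nonneg_left q2 hk.le)
  have g3 : fpj y' m2 ≤ Real.cosh (k * (d - s + ε)) := by
    rw [← c3, dist_comm y m']
    exact fp_cosh_mono (by positivity) (mul_le_mul_of_nonneg_left q4 hk.le)
  have g4 : fpj m2 x' ≤ Real.cosh (k * (s + ε)) := by
    rw [← c4, dist_comm m' x]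
    exact fp_cosh_mono (by positivity) (mul_le_mul_of_nonneg_left q3 hk.le)
  have g5 : Real.cosh (k * d) ≤ fpj x' y' := by
    rw [← c5]
    exact fp_cosh_mono hkd0.le (mul_le_mul_of_nonneg_left f5 hk.le)
  set A := Real.sinh (k * (d - s)) with hA
  set B := Real.sinh (k * s) with hB
  have hA0 : 0 ≤ A := Real.sinh_nonneg_iff.2 hkds
  have hB0 : 0 ≤ B := Real.sinh_nonneg_iff.2 hks
  have w1 : fpj (fun i => A * x' i + B * y' i) (fun i => m1 i + m2 i) =
      A * fpj x' m1 + B * fpj m1 y' + (A * fpj m2 x' + B * fpj y' m2) := by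
    unfold fpj; ring
  have w2 : fpj (fun i => A * x' i + B * y' i) (fun i => A * x' i + B * y' i) =
      A ^ 2 * fpj x' x' + B ^ 2 * fpj y' y' + 2 * A * B * fpj x' y' := by
    unfold fpj; ring
  have w3 : fpj (fun i => m1 i + m2 i) (fun i => m1 i + m2 i) =
      fpj m1 m1 + fpj m2 m2 + 2 * fpj m1 m2 := by
    unfold fpj; ring
  rw [(fp_neg_self hκ hx').1, (fp_neg_self hκ hy').1] at w2
  rw [(fp_neg_self hκ hm1).1, (fp_neg_self hκ hm2).1] at w3
  have v2 : Real.sinh (k * d) ^ 2 ≤ A ^ 2 * 1 + B ^ 2 * 1 + 2 * A * B * fpj x' y' := by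
    have u1 : 2 * A * B * Real.cosh (k * d) ≤ 2 * A * B * fpj x' y' :=
      mul_le_mul_of_nonneg_left g5 (by positivity)
    have u2 : A ^ 2 * 1 + B ^ 2 * 1 + 2 * A * B * Real.cosh (k * d) = Real.sinh (k * d) ^ 2 := by
      have pu := Real.cosh_sq (k * (d - s))
      have pv := Real.cosh_sq (k * s)
      rw [show k * d = k * (d - s) + k * s by ring, Real.sinh_add, Real.cosh_add, ← hA, ← hB]
      rw [← hA] at pu
      rw [← hB] at pv
      linear_combination (-(B ^ 2)) * pu + (-(A ^ 2)) * pv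
    linarith
  have hS2 := pow_pos hS 2
  have hcs := fpj_rcs (w := fun i => A * x' i + B * y' i) (u := fun i => m1 i + m2 i)
    (by rw [w2]; linarith)
  rw [w1, w2, w3] at hcs
  have v1 : A * fpj x' m1 + B * fpj m1 y' + (A * fpj m2 x' + B * fpj y' m2) ≤ 2 * σ ε := by
    have u1 := mul_le_mul_of_nonneg_left g1 hA0
    have u2 := mul_le_mul_of_nonneg_left g2 hB0
    have u3 := mul_le_mul_of_nonneg_left g3 hB0
    have u4 := mul_le_mul_of_nonneg_left g4 hA0
    simp only [hσ]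
    linarith
  have v0 : 0 ≤ A * fpj x' m1 + B * fpj m1 y' + (A * fpj m2 x' + B * fpj y' m2) := by
    have u1 : 0 ≤ fpj x' m1 := by linarith [fpj_ge_one hκ hx' hm1]
    have u2 : 0 ≤ fpj m1 y' := by linarith [fpj_ge_one hκ hm1 hy']
    have u3 : 0 ≤ fpj m2 x' := by linarith [fpj_ge_one hκ hm2 hx']
    have u4 : 0 ≤ fpj y' m2 := by linarith [fpj_ge_one hκ hy' hm2]
    positivity
  have v3 : Real.sinh (k * d) ^ 2 * (1 + 1 + 2 * fpj m1 m2) ≤ (2 * σ ε) ^ 2 := by
    have u1 := pow_le_pow_left₀ v0 v1 2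
    have u2 : 0 ≤ 1 + 1 + 2 * fpj m1 m2 := by linarith [fpj_ge_one hκ hm1 hm2]
    have u3 := mul_le_mul_of_nonneg_right v2 u2
    linarith
  have v4 : fpj m1 m2 < Real.cosh (k * η) := by
    by_contra hcon
    push Not at hcon
    have a0 := mul_le_mul_of_nonneg_left hcon hS2.le
    have a1 : (2 * σ ε) ^ 2 = 2 * (2 * σ ε ^ 2) := by ring
    have a2 : Real.sinh (k * d) ^ 2 * (1 + 1 + 2 * fpj m1 m2) =
      2 * Real.sinh (k * d) ^ 2 + 2 * (Real.sinh (k * d) ^ 2 * fpj m1 m2) := by ring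
    have a3 : (1 + Real.cosh (k * η)) * Real.sinh (k * d) ^ 2 =
      Real.sinh (k * d) ^ 2 + Real.sinh (k * d) ^ 2 * Real.cosh (k * η) := by ring
    rw [a1, a2] at v3
    rw [a3] at e2
    linarith
  have v5 : modelDist κ m1 m2 < η := by
    by_contra hcon
    push Not at hcon
    have u1 := fp_cosh_mono (mul_pos hk hη).le (mul_le_mul_of_nonneg_left hcon hk.le)
    rw [c6] at u1
    linarith
  exact f6.trans v5.le

theorem fp_comp_neg (hκ : κ < 0) (h : IsCATFourPoint κ X) {a b c x y : X} {s t : ℝ}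
    (hax : dist a x = s) (hxb : dist x b = dist a b - s) (hay : dist a y = t)
    (hyc : dist y c = dist a c - t)
    {a' b' c' x' y' : Fin 3 → ℝ} (ha' : a' ∈ modelPlane κ) (hb' : b' ∈ modelPlane κ)
    (hc' : c' ∈ modelPlane κ) (hx' : x' ∈ modelPlane κ) (hy' : y' ∈ modelPlane κ)
    (m1 : modelDist κ a' b' = dist a b) (m2 : modelDist κ b' c' = dist b c)
    (m3 : modelDist κ a' c' = dist a c) (m4 : modelDist κ a' x' = s)
    (m5 : modelDist κ x' b' = dist a b - s) (m6 : modelDist κ a' y' = t)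
    (m7 : modelDist κ y' c' = dist a c - t) : dist x y ≤ modelDist κ x' y' := by
  have hs0 : 0 ≤ s := hax ▸ dist_nonneg
  have ht0 : 0 ≤ t := hay ▸ dist_nonneg
  have hsL : s ≤ dist a b := by linarith [dist_nonneg (x := x) (y := b)]
  have htM : t ≤ dist a c := by linarith [dist_nonneg (x := y) (y := c)]
  have hk : 0 < √(-κ) := Real.sqrt_pos.2 (by linarith)
  rcases (dist_nonneg (x := a) (y := b)).eq_or_lt with hL | hL
  · have hs : s = 0 := by linarith
    subst hs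
    have e1 : a' = x' := fp_model_eq_neg hκ ha' hx' m4
    have e2 : a = x := dist_eq_zero.1 hax
    rw [← e1, ← e2, m6, hay]
  rcases (dist_nonneg (x := a) (y := c)).eq_or_lt with hM | hM
  · have ht : t = 0 := by linarith
    subst ht
    have e1 : a' = y' := fp_model_eq_neg hκ ha' hy' m6
    have e2 : a = y := dist_eq_zero.1 hay
    rw [← e1, ← e2, fp_model_comm_neg hκ, m4, dist_comm, hax]
  have sL : 0 < Real.sinh (√(-κ) * dist a b) := Real.sinh_pos_iff.2 (by positivity)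
  have sM : 0 < Real.sinh (√(-κ) * dist a c) := Real.sinh_pos_iff.2 (by positivity)
  have st : 0 ≤ Real.sinh (√(-κ) * t) := Real.sinh_nonneg_iff.2 (by positivity)
  have S1 := fp_stewart_neg hκ h (a := a) (b := b) (x := x) (z := c) (by rw [hax, hxb]; ring)
  have S2 := fp_stewart_neg hκ h (a := a) (b := c) (x := y) (z := x) (by rw [hay, hyc]; ring)
  have M1 := fp_model_neg hκ ha' hx' hb' hc' m4 m5 m1
  have M2 := fp_model_neg hκ ha' hy' hc' hx' m6 m7 m3
  rw [hxb, hax] at S1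
  rw [hyc, hay, hax] at S2
  rw [m3, m2] at M1
  rw [m4, fp_model_comm_neg hκ c' x'] at M2
  rw [dist_comm c x] at S2
  have key : Real.cosh (√(-κ) * dist y x) ≤ Real.cosh (√(-κ) * modelDist κ y' x') := by
    rw [M1] at S1
    have v1 := le_of_mul_le_mul_left S1 sL
    have v2 := mul_le_mul_of_nonneg_left v1 st
    refine le_of_mul_le_mul_left ?_ sM
    rw [← M2]
    linarith
  rw [dist_comm x y, fp_model_comm_neg hκ]
  by_contra hcon
  push Not at hcon
  have := fp_cosh_lt (fp_neg_nonneg hκ hy' hx') (mul_lt_mul_of_pos_left hcon hk)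
  linarith

end Neg

end MP629748
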