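import Pool.Agent.Lib.MP_629748_gt.MBase

/-!
Stokes, area formula, barycentres, the labelled simplex, integral extension.
-/

section part0

open Set Filter Topology MeasureTheory
open scoped NNReal

namespace MP629748

namespace StokesAux

/-! ### bounded measurable functions -/

/-- bounded measurable functions -/
def BM {α : Type*} [MeasurableSpace α] (f : α → ℝ) : Prop :=
  Measurable f ∧ ∃ C, ∀ x, |f x| ≤ C

section BM
variable {α β ι : Type*} [MeasurableSpace α] [MeasurableSpace β]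

theorem BM.const (c : ℝ) : BM (fun _ : α => c) := ⟨measurable_const, |c|, fun _ => le_rfl⟩

theorem BM.add {f g : α → ℝ} (hf : BM f) (hg : BM g) : BM (fun x => f x + g x) := by
  obtain ⟨hf, C, hC⟩ := hf
  obtain ⟨hg, D, hD⟩ := hg
  exact ⟨hf.add hg, C + D, fun x => (abs_add_le _ _).trans (add_le_add (hC x) (hD x))⟩

theorem BM.mul {f g : α → ℝ} (hf : BM f) (hg : BM g) : BM (fun x => f x * g x) := by
  obtain ⟨hf, C, hC⟩ := hf
  obtain ⟨hg, D, hD⟩ := hg
  refine ⟨hf.mul hg, C * D, fun x => ?_⟩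
  rw [abs_mul]
  exact mul_le_mul (hC x) (hD x) (abs_nonneg _) ((abs_nonneg _).trans (hC x))

theorem BM.sum (s : Finset ι) {f : ι → α → ℝ} (hf : ∀ i, BM (f i)) :
    BM (fun x => ∑ i ∈ s, f i x) := by
  classical
  induction s using Finset.induction_on with
  | empty => simpa using BM.const (α := α) 0
  | insert a s ha ih => simpa [Finset.sum_insert ha] using (hf a).add ih

theorem BM.prod (s : Finset ι) {f : ι → α → ℝ} (hf : ∀ i, BM (f i)) :
    BM (fun x => ∏ i ∈ s, f i x) := by
  classical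
  induction s using Finset.induction_on with
  | empty => simpa using BM.const (α := α) 1
  | insert a s ha ih => simpa [Finset.prod_insert ha] using (hf a).mul ih

theorem BM.comp {f : α → ℝ} (hf : BM f) {g : β → α} (hg : Measurable g) :
    BM (fun x => f (g x)) := by
  obtain ⟨hf, C, hC⟩ := hf
  exact ⟨hf.comp hg, C, fun x => hC _⟩

theorem BM.det {m : ℕ} {A : Fin m → Fin m → α → ℝ} (hA : ∀ i j, BM (A i j)) :
    BM (fun x => Matrix.det (Matrix.of fun i j => A i j x)) := by
  simp only [Matrix.det_apply', Matrix.of_apply]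
  exact BM.sum _ fun σ => (BM.const _).mul (BM.prod _ fun i => hA _ _)

theorem BM.integrable {f : α → ℝ} (hf : BM f) (μ : Measure α) [IsFiniteMeasure μ] :
    Integrable f μ := by
  obtain ⟨hf, C, hC⟩ := hf
  exact Integrable.of_bound hf.aestronglyMeasurable C (ae_of_all _ fun x => by simpa using hC x)

end BM

/-! ### hat functions -/

/-- hat function -/
noncomputable def hat (N k : ℕ) (t : ℝ) : ℝ := max 0 (1 - |N * t - k|)

/-- its derivative -/
noncomputable def dhat (N k : ℕ) (t : ℝ) : ℝ :=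
  if (k : ℝ) ≤ N * t ∧ (N : ℝ) * t < k + 1 then -N else
    if (k : ℝ) - 1 ≤ N * t ∧ (N : ℝ) * t < k then N else 0

theorem continuous_hat (N k : ℕ) : Continuous (hat N k) := by
  unfold hat
  fun_prop

theorem BM_hat (N k : ℕ) : BM (hat N k) := by
  refine ⟨(continuous_hat N k).measurable, 1, fun x => ?_⟩
  unfold hat
  rw [abs_of_nonneg (le_max_left _ _)]
  refine max_le zero_le_one ?_
  linarith [abs_nonneg ((N : ℝ) * x - k)]

theorem BM_dhat (N k : ℕ) : BM (dhat N k) := by
  constructor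
  · unfold dhat
    refine Measurable.ite ?_ measurable_const (Measurable.ite ?_ measurable_const measurable_const)
    · exact (measurableSet_le measurable_const (measurable_const.mul measurable_id)).inter
        (measurableSet_lt (measurable_const.mul measurable_id) measurable_const)
    · exact (measurableSet_le measurable_const (measurable_const.mul measurable_id)).inter
        (measurableSet_lt (measurable_const.mul measurable_id) measurable_const)
  · refine ⟨N, fun x => ?_⟩
    unfold dhat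
    split_ifs <;> simp

theorem hat_hasDerivAt {N : ℕ} (k : ℕ) (t : ℝ)
    (h : ∀ m : ℤ, (N : ℝ) * t ≠ m) : HasDerivAt (hat N k) (dhat N k t) t := by
  have hk0 : (N : ℝ) * t ≠ k := by simpa using h k
  have hk1 : (N : ℝ) * t ≠ k + 1 := by simpa using h (k + 1)
  have hk2 : (N : ℝ) * t ≠ k - 1 := by simpa using h (k - 1)
  have hc : Tendsto (fun s : ℝ => (N : ℝ) * s) (𝓝 t) (𝓝 (N * t)) :=
    (continuous_const.mul continuous_id).tendsto t
  unfold dhat
  rcases lt_or_gt_of_ne hk0 with h0 | h0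
  · rw [if_neg (by intro h; linarith [h.1])]
    rcases lt_or_gt_of_ne hk2 with h2 | h2
    · rw [if_neg (by intro h; linarith [h.1])]
      refine (hasDerivAt_const t (0 : ℝ)).congr_of_eventuallyEq ?_
      filter_upwards [hc.eventually (gt_mem_nhds h2)] with s hs
      unfold hat
      rw [abs_of_nonpos (by linarith), max_eq_left (by linarith)]
    · rw [if_pos ⟨h2.le, h0⟩]
      have : HasDerivAt (fun s : ℝ => 1 + ((N : ℝ) * s - k)) (N : ℝ) t := by
        simpa using (((hasDerivAt_id t).const_mul (N : ℝ)).sub_const (k : ℝ)).const_add 1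
      refine this.congr_of_eventuallyEq ?_
      filter_upwards [hc.eventually (gt_mem_nhds h0), hc.eventually (lt_mem_nhds h2)] with s hs hs'
      unfold hat
      rw [abs_of_nonpos (by linarith), max_eq_right (by linarith)]
      ring
  · rcases lt_or_gt_of_ne hk1 with h1 | h1
    · rw [if_pos ⟨h0.le, h1⟩]
      have : HasDerivAt (fun s : ℝ => 1 - ((N : ℝ) * s - k)) (-(N : ℝ)) t := by
        simpa using (((hasDerivAt_id t).const_mul (N : ℝ)).sub_const (k : ℝ)).const_sub 1
      refine this.congr_of_eventuallyEq ?_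
      filter_upwards [hc.eventually (gt_mem_nhds h1), hc.eventually (lt_mem_nhds h0)] with s hs hs'
      unfold hat
      rw [abs_of_nonneg (by linarith), max_eq_right (by linarith)]
    · rw [if_neg (by intro h; linarith [h.2]), if_neg (by intro h; linarith [h.2])]
      refine (hasDerivAt_const t (0 : ℝ)).congr_of_eventuallyEq ?_
      filter_upwards [hc.eventually (lt_mem_nhds h1)] with s hs
      unfold hat
      rw [abs_of_nonneg (by linarith), max_eq_left (by linarith)]

theorem countable_grid (N : ℕ) (hN : 0 < N) : {t : ℝ | ∃ m : ℤ, (N : ℝ) * t = m}.Countable := by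
  have : {t : ℝ | ∃ m : ℤ, (N : ℝ) * t = m} ⊆ range (fun m : ℤ => (m : ℝ) / N) := by
    rintro t ⟨m, hm⟩
    refine ⟨m, ?_⟩
    have : (N : ℝ) ≠ 0 := by positivity
    simp only
    rw [← hm]
    field_simp
  exact (countable_range _).mono this

/-- sum against hat functions -/
theorem sum_hat {N : ℕ} {t : ℝ} (ht : t ∈ Icc (0 : ℝ) 1) (g : ℕ → ℝ) :
    ∑ k : Fin (N + 2), g k * hat N k t =
      (1 - (N * t - ⌊(N : ℝ) * t⌋₊)) * g ⌊(N : ℝ) * t⌋₊ +
        (N * t - ⌊(N : ℝ) * t⌋₊) * g (⌊(N : ℝ) * t⌋₊ + 1) := by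
  set m := ⌊(N : ℝ) * t⌋₊ with hm
  have hNt : 0 ≤ (N : ℝ) * t := mul_nonneg (Nat.cast_nonneg _) ht.1
  have h1 : (m : ℝ) ≤ N * t := Nat.floor_le hNt
  have h2 : (N : ℝ) * t < m + 1 := Nat.lt_floor_add_one _
  have hmN : m ≤ N := by
    have : (N : ℝ) * t ≤ N := by nlinarith [ht.2, (Nat.cast_nonneg N : (0 : ℝ) ≤ N)]
    exact_mod_cast h1.trans this
  rw [Fin.sum_univ_eq_sum_range (fun k => g k * hat N k t) (N + 2)]
  have hsub : ({m, m + 1} : Finset ℕ) ⊆ Finset.range (N + 2) := by
    intro a ha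
    simp only [Finset.mem_insert, Finset.mem_singleton] at ha
    rw [Finset.mem_range]
    omega
  rw [← Finset.sum_subset hsub, Finset.sum_pair (by omega)]
  · have e1 : hat N m t = 1 - (N * t - m) := by
      unfold hat
      rw [abs_of_nonneg (by linarith), max_eq_right (by linarith)]
    have e2 : hat N (m + 1) t = N * t - m := by
      unfold hat
      push_cast
      rw [abs_of_nonpos (by linarith), max_eq_right (by linarith)]
      ring
    rw [e1, e2]
    ring
  · intro k _ hk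
    simp only [Finset.mem_insert, Finset.mem_singleton, not_or] at hk
    have : hat N k t = 0 := by
      unfold hat
      refine max_eq_left ?_
      rcases lt_or_gt_of_ne hk.1 with h | h
      · have : (k : ℝ) + 1 ≤ m := by exact_mod_cast h
        rw [abs_of_nonneg (by linarith)]
        linarith
      · have : m + 2 ≤ k := by omega
        have : (m : ℝ) + 2 ≤ k := by exact_mod_cast this
        rw [abs_of_nonpos (by linarith)]
        linarith
    rw [this, mul_zero]

theorem sum_dhat {N : ℕ} {t : ℝ} (ht : t ∈ Icc (0 : ℝ) 1) (g : ℕ → ℝ) (φ : ℝ → ℝ) (hφ : φ 0 = 0) :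
    ∑ k : Fin (N + 2), g k * φ (dhat N k t) =
      g ⌊(N : ℝ) * t⌋₊ * φ (-N) + g (⌊(N : ℝ) * t⌋₊ + 1) * φ N := by
  set m := ⌊(N : ℝ) * t⌋₊ with hm
  have hNt : 0 ≤ (N : ℝ) * t := mul_nonneg (Nat.cast_nonneg _) ht.1
  have h1 : (m : ℝ) ≤ N * t := Nat.floor_le hNt
  have h2 : (N : ℝ) * t < m + 1 := Nat.lt_floor_add_one _
  have hmN : m ≤ N := by
    have : (N : ℝ) * t ≤ N := by nlinarith [ht.2, (Nat.cast_nonneg N : (0 : ℝ) ≤ N)]
    exact_mod_cast h1.trans this
  rw [Fin.sum_univ_eq_sum_range (fun k => g k * φ (dhat N k t)) (N + 2)]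
  have hsub : ({m, m + 1} : Finset ℕ) ⊆ Finset.range (N + 2) := by
    intro a ha
    simp only [Finset.mem_insert, Finset.mem_singleton] at ha
    rw [Finset.mem_range]
    omega
  rw [← Finset.sum_subset hsub, Finset.sum_pair (by omega)]
  · have e1 : dhat N m t = -N := by
      unfold dhat
      rw [if_pos ⟨h1, h2⟩]
    have e2 : dhat N (m + 1) t = N := by
      unfold dhat
      push_cast
      rw [if_neg (by intro h; linarith [h.1]), if_pos ⟨by linarith, h2⟩]
    rw [e1, e2]
  · intro k _ hk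
    simp only [Finset.mem_insert, Finset.mem_singleton, not_or] at hk
    have : dhat N k t = 0 := by
      unfold dhat
      rcases lt_or_gt_of_ne hk.1 with h | h
      · have : (k : ℝ) + 1 ≤ m := by exact_mod_cast h
        rw [if_neg (by intro h; linarith [h.2]), if_neg (by intro h; linarith [h.2])]
      · have : m + 2 ≤ k := by omega
        have : (m : ℝ) + 2 ≤ k := by exact_mod_cast this
        rw [if_neg (by intro h; linarith [h.1]), if_neg (by intro h; linarith [h.1])]
    rw [this, hφ, mul_zero]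

theorem hat_nonneg (N k : ℕ) (t : ℝ) : 0 ≤ hat N k t := le_max_left _ _

theorem hat_near {N k : ℕ} {t : ℝ} (hN : 0 < N) (h : hat N k t ≠ 0) : |(k : ℝ) / N - t| ≤ 1 / N := by
  have hN' : (0 : ℝ) < N := by exact_mod_cast hN
  have : |(N : ℝ) * t - k| ≤ 1 := by
    by_contra hc
    push Not at hc
    apply h
    unfold hat
    exact max_eq_left (by linarith)
  rw [show (k : ℝ) / N - t = -((N : ℝ) * t - k) / N by field_simp; ring, abs_div, abs_neg,
    abs_of_pos hN']
  exact div_le_div_of_nonneg_right this hN'.le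

theorem dhat_near {N k : ℕ} {t : ℝ} (hN : 0 < N) (h : dhat N k t ≠ 0) :
    |(k : ℝ) / N - t| ≤ 1 / N := by
  have hN' : (0 : ℝ) < N := by exact_mod_cast hN
  have : |(N : ℝ) * t - k| ≤ 1 := by
    unfold dhat at h
    split_ifs at h with h1 h2
    · rw [abs_le]; constructor <;> linarith [h1.1, h1.2]
    · rw [abs_le]; constructor <;> linarith [h2.1, h2.2]
    · exact absurd rfl h
  rw [show (k : ℝ) / N - t = -((N : ℝ) * t - k) / N by field_simp; ring, abs_div, abs_neg,
    abs_of_pos hN']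
  exact div_le_div_of_nonneg_right this hN'.le

theorem hat_grid (N k m : ℕ) (t : ℝ) (ht : (N : ℝ) * t = m) : hat N k t = if k = m then 1 else 0 := by
  unfold hat
  rw [ht]
  split_ifs with h
  · subst h; simp
  · refine max_eq_left ?_
    have : (1 : ℝ) ≤ |(m : ℝ) - k| := by
      have h1 : (m : ℤ) - k ≠ 0 := by omega
      have h2 : (1 : ℤ) ≤ |(m : ℤ) - k| := Int.one_le_abs h1
      exact_mod_cast h2
    linarith


theorem sum_hat_one {N : ℕ} {t : ℝ} (ht : t ∈ Icc (0 : ℝ) 1) :
    ∑ k : Fin (N + 2), hat N k t = 1 := by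
  have := sum_hat (N := N) ht (fun _ => 1)
  simpa using this

theorem sum_hat_id {N : ℕ} (hN : 0 < N) {t : ℝ} (ht : t ∈ Icc (0 : ℝ) 1) :
    ∑ k : Fin (N + 2), ((k : ℕ) : ℝ) / N * hat N k t = t := by
  have := sum_hat (N := N) ht (fun k => (k : ℝ) / N)
  rw [this]
  have hN' : (N : ℝ) ≠ 0 := by positivity
  push_cast
  field_simp
  ring

theorem sum_dhat_zero {N : ℕ} {t : ℝ} (ht : t ∈ Icc (0 : ℝ) 1) :
    ∑ k : Fin (N + 2), dhat N k t = 0 := by
  have := sum_dhat (N := N) ht (fun _ => 1) id rfl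
  simpa using this

theorem sum_dhat_id {N : ℕ} (hN : 0 < N) {t : ℝ} (ht : t ∈ Icc (0 : ℝ) 1) :
    ∑ k : Fin (N + 2), ((k : ℕ) : ℝ) / N * dhat N k t = 1 := by
  have := sum_dhat (N := N) ht (fun k => (k : ℝ) / N) id rfl
  simp only [id] at this
  rw [this]
  have hN' : (N : ℝ) ≠ 0 := by positivity
  push_cast
  field_simp
  ring

theorem sum_abs_dhat {N : ℕ} {t : ℝ} (ht : t ∈ Icc (0 : ℝ) 1) :
    ∑ k : Fin (N + 2), |dhat N k t| = 2 * N := by
  have := sum_dhat (N := N) ht (fun _ => 1) (fun x => |x|) (by simp)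
  simp only [one_mul] at this
  rw [this]
  simp
  ring

/-! ### multi-dimensional interpolation -/

variable {n : ℕ}

/-- grid point -/
noncomputable def pt (N : ℕ) (k : Fin n → Fin (N + 2)) : Fin n → ℝ := fun i => ((k i : ℕ) : ℝ) / N

/-- product of hat functions -/
noncomputable def H (N : ℕ) (k : Fin n → Fin (N + 2)) (x : Fin n → ℝ) : ℝ :=
  ∏ i, hat N (k i) (x i)

/-- partial derivative of `H` -/
noncomputable def G (N : ℕ) (i : Fin n) (k : Fin n → Fin (N + 2)) (x : Fin n → ℝ) : ℝ :=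
  ∏ j, if j = i then dhat N (k j) (x j) else hat N (k j) (x j)

/-- interpolation -/
noncomputable def IN (N : ℕ) (u : (Fin n → ℝ) → ℝ) (x : Fin n → ℝ) : ℝ :=
  ∑ k, u (pt N k) * H N k x

/-- partial derivative of the interpolation -/
noncomputable def DN (N : ℕ) (u : (Fin n → ℝ) → ℝ) (i : Fin n) (x : Fin n → ℝ) : ℝ :=
  ∑ k, u (pt N k) * G N i k x

theorem sum_H {N : ℕ} {x : Fin n → ℝ} (hx : x ∈ Icc (0 : Fin n → ℝ) 1) : ∑ k, H N k x = 1 := by
  have := Finset.prod_univ_sum (fun _ : Fin n => (Finset.univ : Finset (Fin (N + 2))))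
    (fun i k => hat N k (x i))
  rw [Fintype.piFinset_univ] at this
  unfold H
  rw [← this]
  exact Finset.prod_eq_one fun i _ => sum_hat_one ⟨hx.1 i, hx.2 i⟩

theorem H_nonneg (N : ℕ) (k : Fin n → Fin (N + 2)) (x : Fin n → ℝ) : 0 ≤ H N k x :=
  Finset.prod_nonneg fun _ _ => hat_nonneg _ _ _

theorem H_near {N : ℕ} (hN : 0 < N) {k : Fin n → Fin (N + 2)} {x : Fin n → ℝ} (h : H N k x ≠ 0) :
    ‖pt N k - x‖ ≤ 1 / N := by
  rw [pi_norm_le_iff_of_nonneg (by positivity)]
  intro i
  rw [Real.norm_eq_abs]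
  exact hat_near hN fun h0 => h (Finset.prod_eq_zero (Finset.mem_univ i) h0)

theorem G_near {N : ℕ} (hN : 0 < N) {i : Fin n} {k : Fin n → Fin (N + 2)} {x : Fin n → ℝ}
    (h : G N i k x ≠ 0) : ‖pt N k - x‖ ≤ 1 / N := by
  rw [pi_norm_le_iff_of_nonneg (by positivity)]
  intro j
  rw [Real.norm_eq_abs]
  have h0 := Finset.prod_ne_zero_iff.mp h j (Finset.mem_univ j)
  by_cases hj : j = i
  · rw [if_pos hj] at h0
    exact dhat_near hN h0
  · rw [if_neg hj] at h0
    exact hat_near hN h0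

theorem sum_G_mul {N : ℕ} (i : Fin n) (x : Fin n → ℝ) (w : Fin n → ℕ → ℝ) :
    ∑ k : Fin n → Fin (N + 2), (∏ j, w j (k j)) * G N i k x =
      ∏ j, ∑ k : Fin (N + 2), w j k * if j = i then dhat N k (x j) else hat N k (x j) := by
  have := Finset.prod_univ_sum (fun _ : Fin n => (Finset.univ : Finset (Fin (N + 2))))
    (fun j k => w j k * if j = i then dhat N k (x j) else hat N k (x j))
  rw [Fintype.piFinset_univ] at this
  rw [this]
  refine Finset.sum_congr rfl fun k _ => ?_
  rw [Finset.prod_mul_distrib]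
  rfl

theorem sum_G {N : ℕ} (i : Fin n) {x : Fin n → ℝ} (hx : x ∈ Icc (0 : Fin n → ℝ) 1) :
    ∑ k, G N i k x = 0 := by
  have := sum_G_mul (N := N) i x (fun _ _ => 1)
  simp only [Finset.prod_const_one, one_mul] at this
  rw [this]
  refine Finset.prod_eq_zero (Finset.mem_univ i) ?_
  simp only [if_true]
  exact sum_dhat_zero ⟨hx.1 i, hx.2 i⟩

theorem sum_G_coord {N : ℕ} (hN : 0 < N) (i l : Fin n) {x : Fin n → ℝ}
    (hx : x ∈ Icc (0 : Fin n → ℝ) 1) :
    ∑ k, pt N k l * G N i k x = if l = i then 1 else 0 := by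
  have := sum_G_mul (N := N) i x (fun j k => if j = l then (k : ℝ) / N else 1)
  have e : ∀ k : Fin n → Fin (N + 2),
      (∏ j, if j = l then (((k j : ℕ) : ℝ)) / N else 1) = pt N k l := by
    intro k
    rw [Finset.prod_ite_eq' Finset.univ l (fun j => ((k j : ℕ) : ℝ) / N)]
    simp [pt]
  simp only [e] at this
  rw [this]
  by_cases hl : l = i
  · subst hl
    rw [if_pos rfl]
    refine Finset.prod_eq_one fun j _ => ?_
    by_cases hj : j = l
    · simp only [if_pos hj]
      exact sum_dhat_id hN ⟨hx.1 j, hx.2 j⟩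
    · simp only [if_neg hj, one_mul]
      exact sum_hat_one ⟨hx.1 j, hx.2 j⟩
  · rw [if_neg hl]
    refine Finset.prod_eq_zero (Finset.mem_univ i) ?_
    simp only [if_neg (Ne.symm hl), one_mul, if_true]
    exact sum_dhat_zero ⟨hx.1 i, hx.2 i⟩

theorem sum_abs_G {N : ℕ} (i : Fin n) {x : Fin n → ℝ} (hx : x ∈ Icc (0 : Fin n → ℝ) 1) :
    ∑ k, |G N i k x| = 2 * N := by
  have := Finset.prod_univ_sum (fun _ : Fin n => (Finset.univ : Finset (Fin (N + 2))))
    (fun j k => |if j = i then dhat N k (x j) else hat N k (x j)|)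
  rw [Fintype.piFinset_univ] at this
  simp only [← Finset.abs_prod] at this
  unfold G
  rw [← this]
  rw [← Finset.mul_prod_erase Finset.univ _ (Finset.mem_univ i)]
  simp only [if_true]
  rw [sum_abs_dhat ⟨hx.1 i, hx.2 i⟩, Finset.prod_eq_one, mul_one]
  intro j hj
  have hj := Finset.ne_of_mem_erase hj
  simp only [if_neg hj, abs_of_nonneg (hat_nonneg _ _ _)]
  exact sum_hat_one ⟨hx.1 j, hx.2 j⟩

theorem IN_near {N : ℕ} (hN : 0 < N) {u : (Fin n → ℝ) → ℝ} {K : ℝ≥0} (hu : LipschitzWith K u)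
    {x : Fin n → ℝ} (hx : x ∈ Icc (0 : Fin n → ℝ) 1) : |IN N u x - u x| ≤ K / N := by
  have e : IN N u x - u x = ∑ k, (u (pt N k) - u x) * H N k x := by
    simp only [sub_mul, Finset.sum_sub_distrib, ← Finset.mul_sum, sum_H hx, mul_one]
    rfl
  rw [e]
  refine (Finset.abs_sum_le_sum_abs _ _).trans ?_
  calc ∑ k, |(u (pt N k) - u x) * H N k x| ≤ ∑ k : Fin n → Fin (N + 2), (K / N : ℝ) * H N k x := by
        refine Finset.sum_le_sum fun k _ => ?_
        rw [abs_mul, abs_of_nonneg (H_nonneg _ _ _)]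
        by_cases h0 : H N k x = 0
        · rw [h0]; simp
        refine mul_le_mul_of_nonneg_right ?_ (H_nonneg _ _ _)
        have h1 := hu.dist_le_mul (pt N k) x
        rw [Real.dist_eq, dist_eq_norm] at h1
        refine h1.trans ?_
        calc (K : ℝ) * ‖pt N k - x‖ ≤ K * (1 / N) :=
              mul_le_mul_of_nonneg_left (H_near hN h0) K.2
          _ = K / N := by ring
    _ = K / N := by rw [← Finset.mul_sum, sum_H hx, mul_one]

theorem DN_bound {N : ℕ} (hN : 0 < N) {u : (Fin n → ℝ) → ℝ} {K : ℝ≥0} (hu : LipschitzWith K u)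
    (i : Fin n) {x : Fin n → ℝ} (hx : x ∈ Icc (0 : Fin n → ℝ) 1) : |DN N u i x| ≤ 2 * K := by
  have e : DN N u i x = ∑ k, (u (pt N k) - u x) * G N i k x := by
    simp only [sub_mul, Finset.sum_sub_distrib, ← Finset.mul_sum, sum_G i hx, mul_zero, sub_zero]
    rfl
  rw [e]
  refine (Finset.abs_sum_le_sum_abs _ _).trans ?_
  calc ∑ k, |(u (pt N k) - u x) * G N i k x|
      ≤ ∑ k : Fin n → Fin (N + 2), (K / N : ℝ) * |G N i k x| := by
        refine Finset.sum_le_sum fun k _ => ?_
        rw [abs_mul]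
        by_cases h0 : G N i k x = 0
        · rw [h0]; simp
        refine mul_le_mul_of_nonneg_right ?_ (abs_nonneg _)
        have h1 := hu.dist_le_mul (pt N k) x
        rw [Real.dist_eq, dist_eq_norm] at h1
        refine h1.trans ?_
        calc (K : ℝ) * ‖pt N k - x‖ ≤ K * (1 / N) :=
              mul_le_mul_of_nonneg_left (G_near hN h0) K.2
          _ = K / N := by ring
    _ = 2 * K := by
        rw [← Finset.mul_sum, sum_abs_G i hx]
        have : (N : ℝ) ≠ 0 := by positivity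
        field_simp

theorem DN_tendsto {u : (Fin n → ℝ) → ℝ} (i : Fin n) {x : Fin n → ℝ}
    (hx : x ∈ Icc (0 : Fin n → ℝ) 1) (hu : DifferentiableAt ℝ u x) :
    Tendsto (fun N : ℕ => DN (N + 1) u i x) atTop (𝓝 (fderiv ℝ u x (Pi.single i 1))) := by
  rw [Metric.tendsto_atTop]
  intro ε hε
  have h1 := hu.hasFDerivAt.isLittleO
  rw [Asymptotics.isLittleO_iff] at h1
  have h2 := h1 (show (0 : ℝ) < ε / 4 by positivity)
  rw [Metric.eventually_nhds_iff] at h2
  obtain ⟨δ, hδ, h2⟩ := h2
  obtain ⟨N₀, hN₀⟩ := exists_nat_gt (1 / δ)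
  refine ⟨N₀, fun N hN => ?_⟩
  have hNpos : (0 : ℝ) < ((N + 1 : ℕ) : ℝ) := by positivity
  have hN1 : 1 / ((N + 1 : ℕ) : ℝ) < δ := by
    rw [div_lt_iff₀ hNpos]
    rw [div_lt_iff₀ hδ] at hN₀
    have : (N₀ : ℝ) ≤ ((N + 1 : ℕ) : ℝ) := by exact_mod_cast (by omega : N₀ ≤ N + 1)
    nlinarith
  set L := fderiv ℝ u x with hL
  have e : DN (N + 1) u i x - L (Pi.single i 1) =
      ∑ k, (u (pt (N + 1) k) - u x - L (pt (N + 1) k - x)) * G (N + 1) i k x := by
    have e1 : ∀ k : Fin n → Fin (N + 1 + 2), L (pt (N + 1) k) =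
        ∑ l, pt (N + 1) k l * L (Pi.single l 1) := by
      intro k
      have : pt (N + 1) k = ∑ l, pt (N + 1) k l • (Pi.single l (1 : ℝ) : Fin n → ℝ) := by
        ext j
        simp [Finset.sum_apply, Pi.single_apply]
      conv_lhs => rw [this]
      rw [map_sum]
      simp
    have e2 : ∑ k : Fin n → Fin (N + 1 + 2), L (pt (N + 1) k) * G (N + 1) i k x =
        L (Pi.single i 1) := by
      simp only [e1, Finset.sum_mul]
      rw [Finset.sum_comm]
      have : ∀ l, ∑ k : Fin n → Fin (N + 1 + 2),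
          pt (N + 1) k l * L (Pi.single l 1) * G (N + 1) i k x =
          (if l = i then 1 else 0) * L (Pi.single l 1) := by
        intro l
        rw [← sum_G_coord (Nat.succ_pos N) i l hx, Finset.sum_mul]
        refine Finset.sum_congr rfl fun k _ => ?_
        ring
      simp only [this]
      simp
    simp only [map_sub, sub_mul, Finset.sum_sub_distrib, ← Finset.mul_sum, sum_G i hx, e2]
    unfold DN
    ring
  rw [Real.dist_eq, e]
  refine lt_of_le_of_lt (Finset.abs_sum_le_sum_abs _ _) ?_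
  calc ∑ k, |(u (pt (N + 1) k) - u x - L (pt (N + 1) k - x)) * G (N + 1) i k x|
      ≤ ∑ k : Fin n → Fin (N + 1 + 2),
        (ε / 4 * (1 / ((N + 1 : ℕ) : ℝ))) * |G (N + 1) i k x| := by
        refine Finset.sum_le_sum fun k _ => ?_
        rw [abs_mul]
        by_cases h0 : G (N + 1) i k x = 0
        · rw [h0]; simp
        refine mul_le_mul_of_nonneg_right ?_ (abs_nonneg _)
        have hk := G_near (Nat.succ_pos N) h0
        have h3 := h2 (y := pt (N + 1) k) (by
          rw [dist_eq_norm]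
          exact lt_of_le_of_lt hk hN1)
        rw [Real.norm_eq_abs] at h3
        exact h3.trans (mul_le_mul_of_nonneg_left hk (by positivity))
    _ = ε / 2 := by
        rw [← Finset.mul_sum, sum_abs_G i hx]
        field_simp
        ring
    _ < ε := by linarith

theorem BM_H (N : ℕ) (k : Fin n → Fin (N + 2)) : BM (H N k) :=
  BM.prod _ fun i => (BM_hat N (k i)).comp (measurable_pi_apply i)

theorem BM_G (N : ℕ) (i : Fin n) (k : Fin n → Fin (N + 2)) : BM (G N i k) := by
  refine BM.prod _ fun j => ?_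
  by_cases hj : j = i
  · simp only [if_pos hj]
    exact (BM_dhat N (k j)).comp (measurable_pi_apply j)
  · simp only [if_neg hj]
    exact (BM_hat N (k j)).comp (measurable_pi_apply j)

theorem BM_IN (N : ℕ) (u : (Fin n → ℝ) → ℝ) : BM (IN N u) :=
  BM.sum _ fun k => (BM.const _).mul (BM_H N k)

theorem BM_DN (N : ℕ) (u : (Fin n → ℝ) → ℝ) (i : Fin n) : BM (DN N u i) :=
  BM.sum _ fun k => (BM.const _).mul (BM_G N i k)


/-! ### determinants of products -/

theorem restrict_cube (m : ℕ) : (volume : Measure (Fin m → ℝ)).restrict (Icc 0 1) =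
    Measure.pi fun _ => (volume : Measure ℝ).restrict (Icc 0 1) := by
  rw [← Set.pi_univ_Icc, volume_pi, Measure.restrict_pi_pi]
  rfl

theorem integral_cube_prod {m : ℕ} (f : Fin m → ℝ → ℝ) :
    ∫ x in Icc (0 : Fin m → ℝ) 1, ∏ i, f i (x i) = ∏ i, ∫ t in Icc (0 : ℝ) 1, f i t := by
  rw [restrict_cube]
  exact integral_fintype_prod_eq_prod f

theorem integral_prod_mul_det {m : ℕ} (g : Fin m → ℝ → ℝ) (f f' : Fin m → Fin m → ℝ → ℝ)
    (hg : ∀ i, BM (g i)) (hf : ∀ l i, BM (f l i)) (hf' : ∀ l i, BM (f' l i)) :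
    ∫ x in Icc (0 : Fin m → ℝ) 1, (∏ i, g i (x i)) * Matrix.det (Matrix.of fun l i =>
      ∏ j, if j = i then f' l j (x j) else f l j (x j)) =
    Matrix.det (Matrix.of fun l i => ∫ t in Icc (0 : ℝ) 1,
      g i t * (f' l i t * ∏ l' ∈ Finset.univ.erase l, f l' i t)) := by
  simp only [Matrix.det_apply', Matrix.of_apply, Finset.mul_sum]
  have key : ∀ (σ : Equiv.Perm (Fin m)) (x : Fin m → ℝ),
      (∏ i, g i (x i)) * (((Equiv.Perm.sign σ : ℤ) : ℝ) *
        ∏ i, ∏ j, if j = i then f' (σ i) j (x j) else f (σ i) j (x j)) =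
      ((Equiv.Perm.sign σ : ℤ) : ℝ) * ∏ i, (g i (x i) * (f' (σ i) i (x i) *
        ∏ l' ∈ Finset.univ.erase (σ i), f l' i (x i))) := by
    intro σ x
    rw [Finset.prod_mul_distrib, Finset.prod_comm]
    have : ∀ j, (∏ i, if j = i then f' (σ i) j (x j) else f (σ i) j (x j)) =
        f' (σ j) j (x j) * ∏ l' ∈ Finset.univ.erase (σ j), f l' j (x j) := by
      intro j
      rw [← Finset.mul_prod_erase Finset.univ _ (Finset.mem_univ j)]
      simp only [if_true]
      congr 1
      refine Finset.prod_bij (fun i _ => σ i) ?_ ?_ ?_ ?_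
      · intro i hi
        exact Finset.mem_erase.mpr ⟨fun h => Finset.ne_of_mem_erase hi (σ.injective h),
          Finset.mem_univ _⟩
      · intro a _ b _ h
        exact σ.injective h
      · intro b hb
        refine ⟨σ.symm b, Finset.mem_erase.mpr ⟨fun h => ?_, Finset.mem_univ _⟩, by simp⟩
        apply Finset.ne_of_mem_erase hb
        rw [← h]; simp
      · intro i hi
        rw [if_neg (Finset.ne_of_mem_erase hi).symm]
    simp only [this]
    ring
  simp only [key]
  rw [integral_finsetSum]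
  · refine Finset.sum_congr rfl fun σ _ => ?_
    rw [integral_const_mul]
    congr 1
    exact integral_cube_prod (fun i t => g i t * (f' (σ i) i t *
        ∏ l' ∈ Finset.univ.erase (σ i), f l' i t))
  · intro σ _
    have : IsFiniteMeasure ((volume : Measure (Fin m → ℝ)).restrict (Icc 0 1)) := by
      rw [restrict_cube]; infer_instance
    refine BM.integrable ?_ _
    refine (BM.const _).mul (BM.prod _ fun i => ?_)
    refine BM.comp (f := fun t => g i t * (f' (σ i) i t *
        ∏ l' ∈ Finset.univ.erase (σ i), f l' i t)) ?_ (measurable_pi_apply i)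
    exact (hg i).mul ((hf' _ _).mul (BM.prod _ fun _ => hf _ _))

/-- the one-dimensional fundamental theorem -/
theorem sum_integral_hat {N : ℕ} (hN : 0 < N) {m : ℕ} (κ : Fin m → ℕ) :
    ∑ l, ∫ t in Icc (0 : ℝ) 1, dhat N (κ l) t * ∏ l' ∈ Finset.univ.erase l, hat N (κ l') t =
      (∏ l, hat N (κ l) 1) - ∏ l, hat N (κ l) 0 := by
  rw [← integral_finsetSum]
  · rw [integral_Icc_eq_integral_Ioc, ← intervalIntegral.integral_of_le zero_le_one]
    refine integral_eq_of_hasDerivAt_off_countable_of_le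
      (fun t => ∏ l, hat N (κ l) t) _ zero_le_one (countable_grid N hN) ?_ ?_ ?_
    · exact (continuous_finsetProd _ fun l _ => continuous_hat N (κ l)).continuousOn
    · intro t ht
      have h := HasDerivAt.fun_finsetProd (u := Finset.univ) (f := fun l => hat N (κ l))
        (f' := fun l => dhat N (κ l) t) (x := t)
        (fun l _ => hat_hasDerivAt (κ l) t (by
          intro m hm
          exact ht.2 ⟨m, hm⟩))
      have h' : ∑ l, (∏ j ∈ Finset.univ.erase l, hat N (κ j) t) • dhat N (κ l) t =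
          ∑ l, dhat N (κ l) t * ∏ l' ∈ Finset.univ.erase l, hat N (κ l') t :=
        Finset.sum_congr rfl fun l _ => by rw [smul_eq_mul, mul_comm]
      rw [h'] at h
      exact h
    · rw [intervalIntegrable_iff_integrableOn_Ioc_of_le zero_le_one]
      exact BM.integrable (BM.sum _ fun l => (BM_dhat N (κ l)).mul
        (BM.prod _ fun l' => BM_hat N (κ l'))) _
  · intro l _
    exact BM.integrable ((BM_dhat N (κ l)).mul (BM.prod _ fun l' => BM_hat N (κ l'))) _


theorem face_integral {N d : ℕ} (κ : Fin (d + 1) → Fin (d + 1) → Fin (N + 2)) (j : Fin (d + 1))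
    (c : ℝ) :
    ∫ s in Icc (0 : Fin d → ℝ) 1, H N (κ 0) (j.insertNth c s) *
      Matrix.det (Matrix.of fun l i => G N (j.succAbove i) (κ (Fin.succ l)) (j.insertNth c s)) =
    (∏ l, hat N (κ l j) c) * Matrix.det ((Matrix.of fun l i => ∫ t in Icc (0 : ℝ) 1,
      dhat N (κ l i) t * ∏ l' ∈ Finset.univ.erase l, hat N (κ l' i) t).submatrix
        Fin.succ j.succAbove) := by
  have e1 : ∀ s : Fin d → ℝ, H N (κ 0) (j.insertNth c s) =
      hat N (κ 0 j) c * ∏ i, hat N (κ 0 (j.succAbove i)) (s i) := by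
    intro s
    unfold H
    rw [Fin.prod_univ_succAbove _ j]
    simp
  have e2 : ∀ (s : Fin d → ℝ) (l i : Fin d), G N (j.succAbove i) (κ (Fin.succ l))
      (j.insertNth c s) = hat N (κ l.succ j) c *
        ∏ i', if i' = i then dhat N (κ l.succ (j.succAbove i')) (s i') else
          hat N (κ l.succ (j.succAbove i')) (s i') := by
    intro s l i
    unfold G
    rw [Fin.prod_univ_succAbove _ j]
    rw [if_neg (Fin.succAbove_ne j i).symm]
    simp
  simp only [e1, e2]
  have e3 : ∀ s : Fin d → ℝ, (hat N (κ 0 j) c * ∏ i, hat N (κ 0 (j.succAbove i)) (s i)) *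
      Matrix.det (Matrix.of fun l i => hat N (κ (Fin.succ l) j) c *
        ∏ i', if i' = i then dhat N (κ (Fin.succ l) (j.succAbove i')) (s i') else
          hat N (κ (Fin.succ l) (j.succAbove i')) (s i')) =
      (∏ l, hat N (κ l j) c) * ((∏ i, hat N (κ 0 (j.succAbove i)) (s i)) *
        Matrix.det (Matrix.of fun l i =>
        ∏ i', if i' = i then dhat N (κ (Fin.succ l) (j.succAbove i')) (s i') else
          hat N (κ (Fin.succ l) (j.succAbove i')) (s i'))) := by
    intro s
    have := Matrix.det_mul_column (fun l : Fin d => hat N (κ (Fin.succ l) j) c)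
      (Matrix.of fun l i =>
        ∏ i', if i' = i then dhat N (κ (Fin.succ l) (j.succAbove i')) (s i') else
          hat N (κ (Fin.succ l) (j.succAbove i')) (s i'))
    simp only [Matrix.of_apply] at this
    rw [this, Fin.prod_univ_succ (fun l => hat N (κ l j) c)]
    ring
  simp only [e3]
  rw [integral_const_mul]
  congr 1
  rw [integral_prod_mul_det (fun i => hat N (κ 0 (j.succAbove i)))
    (fun l i => hat N (κ (Fin.succ l) (j.succAbove i)))
    (fun l i => dhat N (κ (Fin.succ l) (j.succAbove i)))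
    (fun _ => BM_hat _ _) (fun _ _ => BM_hat _ _) (fun _ _ => BM_dhat _ _)]
  congr 1
  ext l i
  simp only [Matrix.of_apply, Matrix.submatrix_apply]
  refine integral_congr_ae (ae_of_all _ fun t => ?_)
  simp only
  have : ∏ l' ∈ Finset.univ.erase l.succ, hat N (κ l' (j.succAbove i)) t =
      hat N (κ 0 (j.succAbove i)) t *
        ∏ l' ∈ Finset.univ.erase l, hat N (κ (Fin.succ l') (j.succAbove i)) t := by
    have h0 : (Finset.univ.erase l.succ : Finset (Fin (d + 1))) =
        insert 0 ((Finset.univ.erase l).map (Fin.succEmb d)) := by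
      ext a
      simp only [Finset.mem_erase, Finset.mem_univ, and_true, Finset.mem_insert, Finset.mem_map,
        Fin.coe_succEmb]
      constructor
      · intro ha
        rcases Fin.eq_zero_or_eq_succ a with h | ⟨b, h⟩
        · exact Or.inl h
        · refine Or.inr ⟨b, fun hb => ha (by rw [h, hb]), h.symm⟩
      · rintro (h | ⟨b, hb, h⟩)
        · rw [h]; exact (Fin.succ_ne_zero l).symm
        · rw [← h]; exact fun h' => hb (Fin.succ_injective _ h')
    rw [h0, Finset.prod_insert, Finset.prod_map]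
    · rfl
    · simp [Fin.succ_ne_zero]
  rw [this]
  ring

theorem stokes_basis {N d : ℕ} (hN : 0 < N) (κ : Fin (d + 1) → Fin (d + 1) → Fin (N + 2)) :
    ∑ j : Fin (d + 1), (-1 : ℝ) ^ (j : ℕ) *
      ((∫ s in Icc (0 : Fin d → ℝ) 1, H N (κ 0) (j.insertNth 1 s) *
        Matrix.det (Matrix.of fun l i => G N (j.succAbove i) (κ (Fin.succ l)) (j.insertNth 1 s))) -
      ∫ s in Icc (0 : Fin d → ℝ) 1, H N (κ 0) (j.insertNth 0 s) *
        Matrix.det (Matrix.of fun l i => G N (j.succAbove i) (κ (Fin.succ l)) (j.insertNth 0 s))) =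
    ∫ x in Icc (0 : Fin (d + 1) → ℝ) 1, Matrix.det (Matrix.of fun l i => G N i (κ l) x) := by
  have h1 : ∫ x in Icc (0 : Fin (d + 1) → ℝ) 1, Matrix.det (Matrix.of fun l i => G N i (κ l) x) =
      Matrix.det (Matrix.of fun l i => ∫ t in Icc (0 : ℝ) 1,
        dhat N (κ l i) t * ∏ l' ∈ Finset.univ.erase l, hat N (κ l' i) t) := by
    have := integral_prod_mul_det (m := d + 1) (fun _ _ => 1)
      (fun l i => hat N (κ l i)) (fun l i => dhat N (κ l i))
      (fun _ => BM.const _) (fun _ _ => BM_hat _ _) (fun _ _ => BM_dhat _ _)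
    simp only [Finset.prod_const_one, one_mul] at this
    exact this
  rw [h1]
  set M : Matrix (Fin (d + 1)) (Fin (d + 1)) ℝ := Matrix.of fun l i => ∫ t in Icc (0 : ℝ) 1,
        dhat N (κ l i) t * ∏ l' ∈ Finset.univ.erase l, hat N (κ l' i) t with hM
  simp only [face_integral]
  rw [← hM]
  have h2 := Matrix.det_updateRow_sum M 0 (fun _ => 1)
  simp only [one_smul] at h2
  rw [← h2, Matrix.det_succ_row_zero]
  refine Finset.sum_congr rfl fun j _ => ?_
  have h3 : (M.updateRow 0 (∑ k, M k)) 0 j = (∏ l, hat N (κ l j) 1) - ∏ l, hat N (κ l j) 0 := by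
    rw [Matrix.updateRow_self]
    exact (Finset.sum_apply j Finset.univ (fun k => M k)).trans
      (sum_integral_hat hN (fun l => κ l j))
  have h4 : (M.updateRow 0 (∑ k, M k)).submatrix Fin.succ j.succAbove =
      M.submatrix Fin.succ j.succAbove := by
    ext a b
    simp only [Matrix.submatrix_apply]
    rw [Matrix.updateRow_ne (Fin.succ_ne_zero a)]
  rw [h3, h4]
  ring


theorem det_sum {m : ℕ} {κ : Type*} [Fintype κ] [DecidableEq κ] (c : Fin m → κ → ℝ)
    (A : κ → Fin m → ℝ) :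
    Matrix.det (Matrix.of fun l i => ∑ k, c l k * A k i) =
      ∑ r : Fin m → κ, (∏ l, c l (r l)) * Matrix.det (Matrix.of fun l i => A (r l) i) := by
  have h := MultilinearMap.map_sum
    (Matrix.detRowAlternating (R := ℝ) (n := Fin m)).toMultilinearMap
    (fun (l : Fin m) (k : κ) => c l k • A k)
  have e1 : (Matrix.of fun l i => ∑ k, c l k * A k i : Matrix (Fin m) (Fin m) ℝ) =
      fun l => ∑ k, c l k • A k := by
    ext l i
    simp [Finset.sum_apply]
  rw [e1]
  refine h.trans (Finset.sum_congr rfl fun r _ => ?_)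
  exact MultilinearMap.map_smul_univ
    (Matrix.detRowAlternating (R := ℝ) (n := Fin m)).toMultilinearMap
    (fun l => c l (r l)) (fun l => A (r l))

theorem mul_det_sum {d : ℕ} {κ : Type*} [Fintype κ] [DecidableEq κ] (c : Fin (d + 1) → κ → ℝ)
    (B : κ → ℝ) (A : κ → Fin d → ℝ) :
    (∑ k, c 0 k * B k) * Matrix.det (Matrix.of fun l i => ∑ k, c (Fin.succ l) k * A k i) =
      ∑ r : Fin (d + 1) → κ, (∏ l, c l (r l)) *
        (B (r 0) * Matrix.det (Matrix.of fun l i => A (r (Fin.succ l)) i)) := by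
  rw [det_sum, ← (Fin.consEquiv (fun _ => κ)).sum_comp, Fintype.sum_prod_type,
    Finset.sum_mul_sum]
  refine Finset.sum_congr rfl fun k _ => Finset.sum_congr rfl fun r _ => ?_
  simp only [Fin.consEquiv_apply, Fin.cons_zero, Fin.cons_succ, Fin.prod_univ_succ]
  ring

theorem finite_cube (m : ℕ) :
    IsFiniteMeasure ((volume : Measure (Fin m → ℝ)).restrict (Icc 0 1)) := by
  rw [restrict_cube]; infer_instance

theorem stokes_grid {N d : ℕ} (hN : 0 < N) (u : Fin (d + 1) → (Fin (d + 1) → ℝ) → ℝ) :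
    ∑ j : Fin (d + 1), (-1 : ℝ) ^ (j : ℕ) *
      ((∫ s in Icc (0 : Fin d → ℝ) 1, IN N (u 0) (j.insertNth 1 s) *
        Matrix.det (Matrix.of fun l i =>
          DN N (u (Fin.succ l)) (j.succAbove i) (j.insertNth 1 s))) -
      ∫ s in Icc (0 : Fin d → ℝ) 1, IN N (u 0) (j.insertNth 0 s) *
        Matrix.det (Matrix.of fun l i =>
          DN N (u (Fin.succ l)) (j.succAbove i) (j.insertNth 0 s))) =
    ∫ x in Icc (0 : Fin (d + 1) → ℝ) 1, Matrix.det (Matrix.of fun l i => DN N (u l) i x) := by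
  have := finite_cube d
  have := finite_cube (d + 1)
  have hf : ∀ (j : Fin (d + 1)) (c : ℝ), ∫ s in Icc (0 : Fin d → ℝ) 1,
      IN N (u 0) (j.insertNth c s) * Matrix.det (Matrix.of fun l i =>
          DN N (u (Fin.succ l)) (j.succAbove i) (j.insertNth c s)) =
      ∑ r : Fin (d + 1) → (Fin (d + 1) → Fin (N + 2)), (∏ l, u l (pt N (r l))) *
        ∫ s in Icc (0 : Fin d → ℝ) 1, H N (r 0) (j.insertNth c s) *
        Matrix.det (Matrix.of fun l i =>
          G N (j.succAbove i) (r (Fin.succ l)) (j.insertNth c s)) := by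
    intro j c
    have e : ∀ s : Fin d → ℝ, IN N (u 0) (j.insertNth c s) * Matrix.det (Matrix.of fun l i =>
          DN N (u (Fin.succ l)) (j.succAbove i) (j.insertNth c s)) =
        ∑ r : Fin (d + 1) → (Fin (d + 1) → Fin (N + 2)), (∏ l, u l (pt N (r l))) *
        (H N (r 0) (j.insertNth c s) * Matrix.det (Matrix.of fun l i =>
          G N (j.succAbove i) (r (Fin.succ l)) (j.insertNth c s))) := fun s =>
      mul_det_sum (fun l k => u l (pt N k)) (fun k => H N k (j.insertNth c s))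
        (fun k i => G N (j.succAbove i) k (j.insertNth c s))
    simp only [e]
    have hm : Measurable (fun s : Fin d → ℝ => (j.insertNth c s : Fin (d + 1) → ℝ)) := by
      refine measurable_pi_iff.mpr fun i => ?_
      rcases Fin.eq_self_or_eq_succAbove j i with h | ⟨i', h⟩
      · subst h; simp
      · subst h; simpa using measurable_pi_apply i'
    rw [integral_finsetSum]
    · exact Finset.sum_congr rfl fun r _ => integral_const_mul _ _
    · intro r _
      refine BM.integrable ?_ _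
      refine (BM.const _).mul (((BM_H N (r 0)).comp hm).mul (BM.det fun l i => ?_))
      exact (BM_G N _ _).comp hm
  have hb : ∫ x in Icc (0 : Fin (d + 1) → ℝ) 1,
      Matrix.det (Matrix.of fun l i => DN N (u l) i x) =
      ∑ r : Fin (d + 1) → (Fin (d + 1) → Fin (N + 2)), (∏ l, u l (pt N (r l))) *
        ∫ x in Icc (0 : Fin (d + 1) → ℝ) 1, Matrix.det (Matrix.of fun l i => G N i (r l) x) := by
    have e : ∀ x : Fin (d + 1) → ℝ, Matrix.det (Matrix.of fun l i => DN N (u l) i x) =
        ∑ r : Fin (d + 1) → (Fin (d + 1) → Fin (N + 2)), (∏ l, u l (pt N (r l))) *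
          Matrix.det (Matrix.of fun l i => G N i (r l) x) := fun x =>
      det_sum (fun l k => u l (pt N k)) (fun k i => G N i k x)
    simp only [e]
    rw [integral_finsetSum]
    · exact Finset.sum_congr rfl fun r _ => integral_const_mul _ _
    · intro r _
      exact BM.integrable ((BM.const _).mul (BM.det fun l i => BM_G N _ _)) _
  rw [hb]
  simp only [hf]
  have : ∀ r : Fin (d + 1) → (Fin (d + 1) → Fin (N + 2)),
      (∏ l, u l (pt N (r l))) * ∫ x in Icc (0 : Fin (d + 1) → ℝ) 1,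
        Matrix.det (Matrix.of fun l i => G N i (r l) x) =
      ∑ j : Fin (d + 1), (-1 : ℝ) ^ (j : ℕ) * ((∏ l, u l (pt N (r l))) *
      (∫ s in Icc (0 : Fin d → ℝ) 1, H N (r 0) (j.insertNth 1 s) *
        Matrix.det (Matrix.of fun l i =>
          G N (j.succAbove i) (r (Fin.succ l)) (j.insertNth 1 s))) -
      (∏ l, u l (pt N (r l))) * ∫ s in Icc (0 : Fin d → ℝ) 1, H N (r 0) (j.insertNth 0 s) *
        Matrix.det (Matrix.of fun l i =>
          G N (j.succAbove i) (r (Fin.succ l)) (j.insertNth 0 s))) := by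
    intro r
    rw [← stokes_basis hN r, Finset.mul_sum]
    refine Finset.sum_congr rfl fun j _ => ?_
    ring
  simp only [this]
  rw [Finset.sum_comm]
  refine Finset.sum_congr rfl fun j _ => ?_
  rw [← Finset.sum_sub_distrib, Finset.mul_sum]

theorem pt_insertNth {N d : ℕ} (j : Fin (d + 1)) (m : Fin (N + 2)) (k : Fin d → Fin (N + 2)) :
    pt N (j.insertNth m k : Fin (d + 1) → Fin (N + 2)) =
      (j.insertNth (((m : ℕ) : ℝ) / N) (pt N k) : Fin (d + 1) → ℝ) := by
  ext i
  rcases Fin.eq_self_or_eq_succAbove j i with h | ⟨i', h⟩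
  · subst h; simp [pt]
  · subst h; simp [pt]

theorem insertNthEquiv_eq {N d : ℕ} (j : Fin (d + 1)) (b : Fin (N + 2))
    (k : Fin d → Fin (N + 2)) : (Fin.insertNthEquiv (fun _ => Fin (N + 2)) j) (b, k) =
      (j.insertNth b k : Fin (d + 1) → Fin (N + 2)) := rfl

theorem IN_face {N d : ℕ} (hN : 0 < N) (u : (Fin (d + 1) → ℝ) → ℝ) (j : Fin (d + 1))
    (m : Fin (N + 2)) (s : Fin d → ℝ) :
    IN N u (j.insertNth (((m : ℕ) : ℝ) / N) s) =
      IN N (fun s => u (j.insertNth (((m : ℕ) : ℝ) / N) s)) s := by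
  have hN' : (N : ℝ) ≠ 0 := by positivity
  unfold IN
  rw [← (Fin.insertNthEquiv (fun _ => Fin (N + 2)) j).sum_comp, Fintype.sum_prod_type,
    Finset.sum_eq_single m]
  · refine Finset.sum_congr rfl fun k _ => ?_
    simp only [insertNthEquiv_eq, pt_insertNth]
    congr 1
    unfold H
    rw [Fin.prod_univ_succAbove _ j]
    simp only [Fin.insertNth_apply_same, Fin.insertNth_apply_succAbove]
    rw [hat_grid N m m _ (by field_simp), if_pos rfl, one_mul]
  · intro b _ hb
    refine Finset.sum_eq_zero fun k _ => ?_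
    simp only [insertNthEquiv_eq]
    unfold H
    rw [Fin.prod_univ_succAbove _ j]
    simp only [Fin.insertNth_apply_same, Fin.insertNth_apply_succAbove]
    rw [hat_grid N b m _ (by field_simp), if_neg (fun h => hb (Fin.ext h)), zero_mul, mul_zero]
  · intro h
    exact absurd (Finset.mem_univ _) h

theorem DN_face {N d : ℕ} (hN : 0 < N) (u : (Fin (d + 1) → ℝ) → ℝ) (j : Fin (d + 1))
    (m : Fin (N + 2)) (s : Fin d → ℝ) (i : Fin d) :
    DN N u (j.succAbove i) (j.insertNth (((m : ℕ) : ℝ) / N) s) =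
      DN N (fun s => u (j.insertNth (((m : ℕ) : ℝ) / N) s)) i s := by
  have hN' : (N : ℝ) ≠ 0 := by positivity
  unfold DN
  rw [← (Fin.insertNthEquiv (fun _ => Fin (N + 2)) j).sum_comp, Fintype.sum_prod_type,
    Finset.sum_eq_single m]
  · refine Finset.sum_congr rfl fun k _ => ?_
    simp only [insertNthEquiv_eq, pt_insertNth]
    congr 1
    unfold G
    rw [Fin.prod_univ_succAbove _ j, if_neg (Fin.succAbove_ne j i).symm]
    simp only [Fin.insertNth_apply_same, Fin.insertNth_apply_succAbove]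
    rw [hat_grid N m m _ (by field_simp), if_pos rfl, one_mul]
    simp
  · intro b _ hb
    refine Finset.sum_eq_zero fun k _ => ?_
    simp only [insertNthEquiv_eq]
    unfold G
    rw [Fin.prod_univ_succAbove _ j, if_neg (Fin.succAbove_ne j i).symm]
    simp only [Fin.insertNth_apply_same, Fin.insertNth_apply_succAbove]
    rw [hat_grid N b m _ (by field_simp), if_neg (fun h => hb (Fin.ext h)), zero_mul, mul_zero]
  · intro h
    exact absurd (Finset.mem_univ _) h

theorem conv {m : ℕ} (w : ℕ → (Fin m → ℝ) → ℝ) (w' : (Fin m → ℝ) → ℝ) (C : ℝ)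
    (hw : ∀ N, BM (w N)) (hwC : ∀ N, ∀ x ∈ Icc (0 : Fin m → ℝ) 1, |w N x| ≤ C)
    (hww : ∀ x ∈ Icc (0 : Fin m → ℝ) 1, Tendsto (fun N => w N x) atTop (𝓝 (w' x)))
    (v : Fin m → (Fin m → ℝ) → ℝ) (K : ℝ≥0) (hv : ∀ l, LipschitzWith K (v l)) :
    Tendsto (fun N : ℕ => ∫ x in Icc (0 : Fin m → ℝ) 1, w N x *
      Matrix.det (Matrix.of fun l i => DN (N + 1) (v l) i x)) atTop
      (𝓝 (∫ x in Icc (0 : Fin m → ℝ) 1, w' x * jac v x)) := by
  have := finite_cube m
  refine tendsto_integral_of_dominated_convergence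
    (fun _ => C * ((Nat.factorial m : ℝ) * (2 * K) ^ m)) ?_ ?_ ?_ ?_
  · intro N
    exact ((hw N).mul (BM.det fun l i => BM_DN _ _ _)).1.aestronglyMeasurable
  · exact integrable_const _
  · intro N
    refine (ae_restrict_iff' measurableSet_Icc).mpr (ae_of_all _ fun x hx => ?_)
    rw [Real.norm_eq_abs, abs_mul]
    have hC : 0 ≤ C := (abs_nonneg _).trans (hwC N x hx)
    refine mul_le_mul (hwC N x hx) ?_ (abs_nonneg _) hC
    have := Matrix.det_le (A := Matrix.of fun l i => DN (N + 1) (v l) i x)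
      (abv := IsAbsoluteValue.toAbsoluteValue (abs : ℝ → ℝ)) (x := 2 * (K : ℝ))
      (fun l i => DN_bound (Nat.succ_pos N) (hv l) i hx)
    simpa using this
  · have h1 : ∀ᵐ x : Fin m → ℝ, ∀ l, DifferentiableAt ℝ (v l) x :=
      ae_all_iff.mpr fun l => (hv l).ae_differentiableAt
    refine (ae_restrict_iff' measurableSet_Icc).mpr (h1.mono fun x hx hxI => ?_)
    refine (hww x hxI).mul ?_
    unfold jac
    have hc : Continuous (fun A : Matrix (Fin m) (Fin m) ℝ => A.det) := continuous_id.matrix_det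
    refine (hc.tendsto _).comp ?_
    refine tendsto_pi_nhds.mpr fun l => tendsto_pi_nhds.mpr fun i => ?_
    exact DN_tendsto i hxI (hx l)

end StokesAux

open StokesAux in
/-- **Stokes' theorem** for Lipschitz functions on the unit cube. -/
theorem stokes {d : ℕ} (u : Fin (d + 1) → (Fin (d + 1) → ℝ) → ℝ) (K : ℝ≥0)
    (hu : ∀ i, LipschitzWith K (u i)) :
    ∑ j : Fin (d + 1), (-1 : ℝ) ^ (j : ℕ) *
      ((∫ s in Icc (0 : Fin d → ℝ) 1, u 0 (j.insertNth 1 s) *
          jac (fun i s => u i.succ (j.insertNth 1 s)) s) -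
        ∫ s in Icc (0 : Fin d → ℝ) 1, u 0 (j.insertNth 0 s) *
          jac (fun i s => u i.succ (j.insertNth 0 s)) s)
      = ∫ s in Icc (0 : Fin (d + 1) → ℝ) 1, jac u s := by
  have hlip : ∀ (j : Fin (d + 1)) (c : ℝ) (i : Fin (d + 1)),
      LipschitzWith K (fun s : Fin d → ℝ => u i (j.insertNth c s)) := by
    intro j c i
    have : LipschitzWith 1 (fun s : Fin d → ℝ => (j.insertNth c s : Fin (d + 1) → ℝ)) := by
      refine LipschitzWith.of_dist_le_mul fun s t => ?_
      rw [NNReal.coe_one, one_mul, dist_pi_le_iff dist_nonneg]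
      intro i
      rcases Fin.eq_self_or_eq_succAbove j i with h | ⟨i', h⟩
      · subst h; simp
      · subst h; simpa using dist_le_pi_dist s t i'
    have h := (hu i).comp this
    rw [mul_one] at h
    exact h
  have hface : ∀ (j : Fin (d + 1)) (c : ℝ) (hc : ∀ N : ℕ, ∃ m : Fin (N + 1 + 2),
      ((m : ℕ) : ℝ) / ((N + 1 : ℕ) : ℝ) = c),
      Tendsto (fun N : ℕ => ∫ s in Icc (0 : Fin d → ℝ) 1, IN (N + 1) (u 0) (j.insertNth c s) *
        Matrix.det (Matrix.of fun l i =>
          DN (N + 1) (u (Fin.succ l)) (j.succAbove i) (j.insertNth c s))) atTop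
      (𝓝 (∫ s in Icc (0 : Fin d → ℝ) 1, u 0 (j.insertNth c s) *
          jac (fun i s => u i.succ (j.insertNth c s)) s)) := by
    intro j c hc
    have e1 : ∀ N : ℕ, ∀ s : Fin d → ℝ, IN (N + 1) (u 0) (j.insertNth c s) =
        IN (N + 1) (fun s => u 0 (j.insertNth c s)) s := by
      intro N s
      obtain ⟨m, hm⟩ := hc N
      rw [← hm]
      exact IN_face (Nat.succ_pos N) (u 0) j m s
    have e2 : ∀ N : ℕ, ∀ (s : Fin d → ℝ) (l i : Fin d),
        DN (N + 1) (u (Fin.succ l)) (j.succAbove i) (j.insertNth c s) =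
        DN (N + 1) (fun s => u (Fin.succ l) (j.insertNth c s)) i s := by
      intro N s l i
      obtain ⟨m, hm⟩ := hc N
      rw [← hm]
      exact DN_face (Nat.succ_pos N) (u l.succ) j m s i
    simp only [e1, e2]
    obtain ⟨C, hC⟩ := (isCompact_Icc (a := (0 : Fin d → ℝ)) (b := 1)).exists_bound_of_continuousOn
      (hlip j c 0).continuous.continuousOn
    refine conv (fun N => IN (N + 1) (fun s => u 0 (j.insertNth c s)))
      (fun s => u 0 (j.insertNth c s)) (K + C) (fun N => BM_IN _ _) ?_ ?_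
      (fun l s => u l.succ (j.insertNth c s)) K (fun l => hlip j c l.succ)
    · intro N x hx
      have h1 := IN_near (Nat.succ_pos N) (hlip j c 0) hx
      have h2 := hC x hx
      rw [Real.norm_eq_abs] at h2
      have h3 : (K : ℝ) / ((N + 1 : ℕ) : ℝ) ≤ K := by
        refine div_le_self K.2 ?_
        exact_mod_cast Nat.succ_pos N
      calc |IN (N + 1) (fun s => u 0 (j.insertNth c s)) x|
          = |(IN (N + 1) (fun s => u 0 (j.insertNth c s)) x - u 0 (j.insertNth c x)) +
            u 0 (j.insertNth c x)| := by ring_nf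
        _ ≤ _ := abs_add_le _ _
        _ ≤ K + C := add_le_add (h1.trans h3) h2
    · intro x hx
      rw [tendsto_iff_norm_sub_tendsto_zero]
      refine squeeze_zero (fun _ => norm_nonneg _)
        (fun N => IN_near (Nat.succ_pos N) (hlip j c 0) hx) ?_
      have := tendsto_const_div_atTop_nhds_zero_nat (K : ℝ)
      exact this.comp (tendsto_add_atTop_nat 1)
  have hR : Tendsto (fun N : ℕ => ∫ x in Icc (0 : Fin (d + 1) → ℝ) 1,
      Matrix.det (Matrix.of fun l i => DN (N + 1) (u l) i x)) atTop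
      (𝓝 (∫ s in Icc (0 : Fin (d + 1) → ℝ) 1, jac u s)) := by
    have := conv (m := d + 1) (fun _ _ => 1) (fun _ => 1) 1 (fun _ => BM.const _)
      (fun _ _ _ => by simp) (fun _ _ => tendsto_const_nhds) u K hu
    simpa only [one_mul] using this
  have hc1 : ∀ N : ℕ, ∃ m : Fin (N + 1 + 2), ((m : ℕ) : ℝ) / ((N + 1 : ℕ) : ℝ) = 1 := by
    intro N
    refine ⟨⟨N + 1, by omega⟩, ?_⟩
    have : ((N + 1 : ℕ) : ℝ) ≠ 0 := by positivity
    simp only
    exact div_self this
  have hc0 : ∀ N : ℕ, ∃ m : Fin (N + 1 + 2), ((m : ℕ) : ℝ) / ((N + 1 : ℕ) : ℝ) = 0 := by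
    intro N
    exact ⟨⟨0, by omega⟩, by simp⟩
  refine tendsto_nhds_unique ?_ hR
  simp only [← stokes_grid (Nat.succ_pos _) u]
  exact tendsto_finsetSum _ fun j _ => (((hface j 1 hc1).sub (hface j 0 hc0)).const_mul _)

end MP629748

end part0

section part1

/-! # MP_629748_gt, piece P5: area formula with multiplicities (helper14) -/

set_option autoImplicit false

open Set Filter Topology MeasureTheory Metric
open scoped NNReal ENNReal

namespace MP629748

section area

variable {d : ℕ} {φ : (Fin d → ℝ) → (Fin d → ℝ)} {K : ℝ≥0}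

theorem area_jac_eq_det {s : Fin d → ℝ} (h : DifferentiableAt ℝ φ s) :
    jac (fun i s => φ s i) s = (fderiv ℝ φ s).det := by
  unfold jac
  rw [ContinuousLinearMap.det, ← LinearMap.det_toMatrix']
  congr 1
  ext i j
  have h1 : fderiv ℝ (fun s => φ s i) s =
      (ContinuousLinearMap.proj i : (Fin d → ℝ) →L[ℝ] ℝ).comp (fderiv ℝ φ s) :=
    ((hasFDerivAt_pi'.1 h.hasFDerivAt) i).fderiv
  simp [LinearMap.toMatrix'_apply, h1]

theorem area_jac_meas : Measurable (fun s => jac (fun i s => φ s i) s) := by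
  unfold jac
  simp only [Matrix.det_apply, Matrix.of_apply]
  refine Finset.measurable_fun_sum _ fun σ _ => ?_
  refine Measurable.const_smul ?_ _
  refine Finset.measurable_fun_prod _ fun i _ => ?_
  exact measurable_fderiv_apply_const ℝ _ _

theorem area_jac_bdd (hφ : LipschitzWith K φ) (s : Fin d → ℝ) :
    |jac (fun i s => φ s i) s| ≤ (Nat.factorial d : ℝ) * (K:ℝ) ^ d := by
  have h := Matrix.det_le (A := Matrix.of fun i j => fderiv ℝ (fun s => φ s i) s (Pi.single j 1))
    (abv := (AbsoluteValue.abs : AbsoluteValue ℝ ℝ)) (x := (K:ℝ)) ?_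
  · simpa [jac] using h
  · intro i j
    have h1 : LipschitzWith K (fun s => φ s i) := by
      refine LipschitzWith.of_dist_le_mul (fun x y => ?_)
      exact (dist_le_pi_dist (φ x) (φ y) i).trans (hφ.dist_le_mul x y)
    have h2 := norm_fderiv_le_of_lipschitz ℝ h1 (x₀ := s)
    have h3 : ‖(Pi.single j 1 : Fin d → ℝ)‖ ≤ 1 := by
      rw [pi_norm_le_iff_of_nonneg zero_le_one]
      intro k
      by_cases hk : k = j
      · subst hk; simp
      · simp [hk]
    calc |fderiv ℝ (fun s => φ s i) s (Pi.single j 1)|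
        ≤ ‖fderiv ℝ (fun s => φ s i) s‖ * ‖(Pi.single j 1 : Fin d → ℝ)‖ := by
          rw [← Real.norm_eq_abs]
          exact ContinuousLinearMap.le_opNorm _ _
      _ ≤ K * 1 := mul_le_mul h2 h3 (norm_nonneg _) K.coe_nonneg
      _ = K := mul_one _

/-- the good points of the open unit cube -/
def areaG (φ : (Fin d → ℝ) → (Fin d → ℝ)) : Set (Fin d → ℝ) :=
  {s | (∀ i, s i ∈ Ioo (0:ℝ) 1) ∧ DifferentiableAt ℝ φ s ∧ jac (fun i s => φ s i) s ≠ 0}

theorem area_mem_goodPre {v s : Fin d → ℝ} : s ∈ goodPre φ v ↔ s ∈ areaG φ ∧ φ s = v := by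
  unfold goodPre areaG
  simp only [mem_ofPred_eq]
  tauto

theorem areaG_subset : areaG φ ⊆ Icc 0 1 := by
  intro s hs
  exact ⟨fun i => (hs.1 i).1.le, fun i => (hs.1 i).2.le⟩

theorem areaG_meas : MeasurableSet (areaG φ) := by
  have h1 : areaG φ = (Set.univ.pi fun _ : Fin d => Ioo (0:ℝ) 1) ∩
      ({s | DifferentiableAt ℝ φ s} ∩ {s | jac (fun i s => φ s i) s ≠ 0}) := by
    ext s
    simp [areaG]
  rw [h1]
  refine (MeasurableSet.univ_pi fun _ => measurableSet_Ioo).inter
    ((measurableSet_of_differentiableAt ℝ φ).inter ?_)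
  exact (area_jac_meas (measurableSet_singleton (0:ℝ))).compl

/-- radius for the linear approximation -/
noncomputable def areaR (A : (Fin d → ℝ) →L[ℝ] (Fin d → ℝ)) : ℝ≥0 :=
  open Classical in
  if h : A.det ≠ 0 then
    if ‖((A.toContinuousLinearEquivOfDetNeZero h).symm :
      (Fin d → ℝ) →L[ℝ] (Fin d → ℝ))‖₊ = 0 then 1
    else ‖((A.toContinuousLinearEquivOfDetNeZero h).symm :
      (Fin d → ℝ) →L[ℝ] (Fin d → ℝ))‖₊⁻¹ / 2
  else 1

theorem areaR_ne (A : (Fin d → ℝ) →L[ℝ] (Fin d → ℝ)) : areaR A ≠ 0 := by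
  unfold areaR
  split_ifs with h1 h2
  · exact one_ne_zero
  · have := inv_ne_zero h2
    positivity
  · exact one_ne_zero

theorem area_partition (φ : (Fin d → ℝ) → (Fin d → ℝ)) : ∃ t : ℕ → Set (Fin d → ℝ),
    Pairwise (Function.onFun Disjoint t) ∧ (∀ n, MeasurableSet (t n)) ∧ (⋃ n, t n) = areaG φ ∧
    ∀ n, InjOn φ (t n) := by
  obtain ⟨t, A, hd, hm, hcov, happ, hA⟩ :=
    exists_partition_approximatesLinearOn_of_hasFDerivWithinAt φ (areaG φ) (fderiv ℝ φ)
      (fun x hx => hx.2.1.hasFDerivAt.hasFDerivWithinAt) areaR areaR_ne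
  refine ⟨fun n => areaG φ ∩ t n, ?_, fun n => areaG_meas.inter (hm n), ?_, ?_⟩
  · intro i j hij
    exact (hd hij).mono inter_subset_right inter_subset_right
  · rw [← inter_iUnion, inter_eq_left]
    exact hcov
  · intro n
    rcases (areaG φ).eq_empty_or_nonempty with he | hne
    · have h0 : areaG φ ∩ t n = ∅ := by rw [he, empty_inter]
      show InjOn φ (areaG φ ∩ t n)
      rw [h0]
      exact injOn_empty _
    · obtain ⟨y, hy, hyA⟩ := hA hne n
      have hdet : (A n).det ≠ 0 := by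
        rw [hyA, ← area_jac_eq_det hy.2.1]
        exact hy.2.2
      have h1 := happ n
      rw [← ContinuousLinearMap.coe_toContinuousLinearEquivOfDetNeZero (A n) hdet] at h1
      refine h1.injOn ?_
      by_cases hN : ‖(((A n).toContinuousLinearEquivOfDetNeZero hdet).symm :
          (Fin d → ℝ) →L[ℝ] (Fin d → ℝ))‖₊ = 0
      · left
        rcases ((A n).toContinuousLinearEquivOfDetNeZero hdet).subsingleton_or_nnnorm_symm_pos
          with h | h
        · exact h
        · exact absurd hN h.ne'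
      · right
        rw [ContinuousLinearMap.coe_toContinuousLinearEquivOfDetNeZero]
        unfold areaR
        rw [dif_pos hdet, if_neg hN]
        exact NNReal.half_lt_self (inv_ne_zero hN)

theorem area_null_image (hφ : LipschitzWith K φ) {s : Set (Fin d → ℝ)} (hs : volume s = 0) :
    volume (φ '' s) = 0 := by
  have h := hφ.hausdorffMeasure_image_le (d := (Fintype.card (Fin d) : ℝ)) (by positivity) s
  rw [hausdorffMeasure_pi_real, hs, mul_zero] at h
  exact le_antisymm h zero_le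

theorem area_bad (hφ : LipschitzWith K φ) :
    ∀ᵐ v : Fin d → ℝ, ∀ s ∈ Icc (0 : Fin d → ℝ) 1, φ s = v → s ∈ goodPre φ v := by
  -- boundary
  have h1 : volume {s : Fin d → ℝ | s ∈ Icc (0 : Fin d → ℝ) 1 ∧ ¬ ∀ i, s i ∈ Ioo (0:ℝ) 1} = 0 := by
    have h2 : {s : Fin d → ℝ | s ∈ Icc (0 : Fin d → ℝ) 1 ∧ ¬ ∀ i, s i ∈ Ioo (0:ℝ) 1} ⊆
        Icc (0 : Fin d → ℝ) 1 \ (Set.univ.pi fun i => Ioo ((0 : Fin d → ℝ) i) ((1 : Fin d → ℝ) i)) := by
      rintro s ⟨hs, hn⟩
      refine ⟨hs, fun h => hn (fun i => ?_)⟩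
      simpa using h i (mem_univ i)
    refine measure_mono_null h2 ?_
    have h3 := Measure.univ_pi_Ioo_ae_eq_Icc (μ := fun _ : Fin d => (volume : Measure ℝ))
      (f := (0 : Fin d → ℝ)) (g := 1)
    exact (ae_le_set.1 h3.symm.le)
  have h4 : volume {s : Fin d → ℝ | ¬ DifferentiableAt ℝ φ s} = 0 := by
    have := hφ.ae_differentiableAt (μ := (volume : Measure (Fin d → ℝ)))
    exact this
  have h5 : volume (φ '' {s : Fin d → ℝ | DifferentiableAt ℝ φ s ∧
      jac (fun i s => φ s i) s = 0}) = 0 := by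
    refine addHaar_image_eq_zero_of_det_fderivWithin_eq_zero (f' := fderiv ℝ φ) volume
      (fun x hx => hx.1.hasFDerivAt.hasFDerivWithinAt) (fun x hx => ?_)
    rw [← area_jac_eq_det hx.1]
    exact hx.2
  have h6 := area_null_image hφ h1
  have h7 := area_null_image hφ h4
  have h8 := measure_union_null (measure_union_null h6 h7) h5
  rw [← compl_mem_ae_iff] at h8
  filter_upwards [h8] with v hv s hs hsv
  rw [mem_compl_iff, mem_union, mem_union, not_or, not_or] at hv
  rw [area_mem_goodPre]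
  refine ⟨⟨?_, ?_, ?_⟩, hsv⟩
  · by_contra hc
    exact hv.1.1 ⟨s, ⟨hs, hc⟩, hsv⟩
  · by_contra hc
    exact hv.1.2 ⟨s, hc, hsv⟩
  · intro hc
    refine hv.2 ⟨s, ⟨?_, hc⟩, hsv⟩
    by_contra hc
    exact hv.1.2 ⟨s, hc, hsv⟩

theorem area_jac_integrableOn (hφ : LipschitzWith K φ) (g : (Fin d → ℝ) → ℝ) (hg : Measurable g)
    (C : ℝ) (hgC : ∀ s, |g s| ≤ C) :
    IntegrableOn (fun s => g s * jac (fun i s => φ s i) s) (Icc (0 : Fin d → ℝ) 1) := by
  refine Measure.integrableOn_of_bounded (M := C * ((Nat.factorial d : ℝ) * (K:ℝ) ^ d)) ?_ ?_ ?_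
  · exact isCompact_Icc.measure_lt_top.ne
  · exact (hg.mul area_jac_meas).aestronglyMeasurable
  · refine ae_of_all _ (fun s => ?_)
    rw [norm_mul]
    exact mul_le_mul (hgC s) (area_jac_bdd hφ s) (abs_nonneg _)
      ((abs_nonneg _).trans (hgC s))

section part

variable {t : ℕ → Set (Fin d → ℝ)}

theorem area_mem_finite (hφ : LipschitzWith K φ)
    (hd : Pairwise (Function.onFun Disjoint t)) (hm : ∀ n, MeasurableSet (t n))
    (hcov : (⋃ n, t n) = areaG φ) (hinj : ∀ n, InjOn φ (t n)) :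
    ∀ᵐ v : Fin d → ℝ, {n | v ∈ φ '' t n}.Finite := by
  refine ae_finite_setOfPred_mem ?_
  have h1 : ∀ n, volume (φ '' t n) = ∫⁻ x in t n, ENNReal.ofReal |jac (fun i s => φ s i) x| := by
    intro n
    have hsub : t n ⊆ areaG φ := by rw [← hcov]; exact subset_iUnion t n
    rw [← lintegral_abs_det_fderiv_eq_addHaar_image volume (hm n)
      (f' := fderiv ℝ φ) (fun x hx => (hsub hx).2.1.hasFDerivAt.hasFDerivWithinAt) (hinj n)]
    refine setLIntegral_congr_fun (hm n) (fun x hx => ?_)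
    rw [area_jac_eq_det (hsub hx).2.1]
  simp only [h1]
  rw [← lintegral_iUnion hm hd]
  refine ne_of_lt ?_
  have h2 := area_jac_integrableOn hφ (fun _ => 1) measurable_const 1 (by simp)
  have h3 : IntegrableOn (fun s => jac (fun i s => φ s i) s) (⋃ n, t n) := by
    simp only [one_mul] at h2
    exact h2.mono_set (by rw [hcov]; exact areaG_subset)
  have h4 := h3.2
  unfold HasFiniteIntegral at h4
  refine lt_of_le_of_lt (lintegral_mono (fun x => ?_)) h4
  rw [← Real.norm_eq_abs, ofReal_norm]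

theorem area_finite_of (hcov : (⋃ n, t n) = areaG φ) (hinj : ∀ n, InjOn φ (t n))
    {v : Fin d → ℝ} (hv : {n | v ∈ φ '' t n}.Finite) : (goodPre φ v).Finite := by
  have h1 : goodPre φ v ⊆ ⋃ n ∈ {n | v ∈ φ '' t n}, {s | s ∈ t n ∧ φ s = v} := by
    intro s hs
    rw [area_mem_goodPre] at hs
    have h2 := hs.1
    rw [← hcov, mem_iUnion] at h2
    obtain ⟨n, hn⟩ := h2
    exact mem_biUnion (show n ∈ {n | v ∈ φ '' t n} from ⟨s, hn, hs.2⟩) ⟨hn, hs.2⟩
  refine (hv.biUnion (fun n _ => ?_)).subset h1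
  refine Set.Subsingleton.finite ?_
  intro a ha b hb
  exact hinj n ha.1 hb.1 (ha.2.trans hb.2.symm)

/-- the contribution of the piece `t n` -/
noncomputable def areaH (φ : (Fin d → ℝ) → (Fin d → ℝ)) (t : ℕ → Set (Fin d → ℝ))
    (g : (Fin d → ℝ) → ℝ) (n : ℕ) (v : Fin d → ℝ) : ℝ :=
  (φ '' t n).indicator (fun v => g (Function.invFunOn φ (t n) v) *
    (SignType.sign (jac (fun i s => φ s i) (Function.invFunOn φ (t n) v)) : ℝ)) v

theorem area_abs_det_mul_sign (a : ℝ) : |a| * (SignType.sign a : ℝ) = a := by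
  rw [mul_comm]
  exact sign_mul_abs a

theorem areaH_int (hm : ∀ n, MeasurableSet (t n)) (hφ : LipschitzWith K φ)
    (hcov : (⋃ n, t n) = areaG φ) (hinj : ∀ n, InjOn φ (t n)) (g : (Fin d → ℝ) → ℝ)
    (hg : Measurable g) (C : ℝ) (hgC : ∀ s, |g s| ≤ C) (n : ℕ) :
    Integrable (areaH φ t g n) ∧
    ∫ v, areaH φ t g n v = ∫ s in t n, g s * jac (fun i s => φ s i) s ∧
    ∫ v, ‖areaH φ t g n v‖ = ∫ s in t n, ‖g s * jac (fun i s => φ s i) s‖ := by
  have hsub : t n ⊆ areaG φ := by rw [← hcov]; exact subset_iUnion t n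
  have hder : ∀ x ∈ t n, HasFDerivWithinAt φ (fderiv ℝ φ x) (t n) x :=
    fun x hx => (hsub hx).2.1.hasFDerivAt.hasFDerivWithinAt
  have himg : MeasurableSet (φ '' t n) := measurable_image_of_fderivWithin (hm n) hder (hinj n)
  have hinv : ∀ x ∈ t n, Function.invFunOn φ (t n) (φ x) = x := fun x hx =>
    (hinj n).leftInvOn_invFunOn hx
  have hpt : ∀ x ∈ t n, |(fderiv ℝ φ x).det| • (g (Function.invFunOn φ (t n) (φ x)) *
      (SignType.sign (jac (fun i s => φ s i) (Function.invFunOn φ (t n) (φ x))) : ℝ)) =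
      g x * jac (fun i s => φ s i) x := by
    intro x hx
    rw [hinv x hx, area_jac_eq_det (hsub hx).2.1, smul_eq_mul]
    calc |(fderiv ℝ φ x).det| * (g x * (SignType.sign (fderiv ℝ φ x).det : ℝ))
        = g x * (|(fderiv ℝ φ x).det| * (SignType.sign (fderiv ℝ φ x).det : ℝ)) := by ring
      _ = _ := by rw [area_abs_det_mul_sign]
  have hgi : IntegrableOn (fun s => g s * jac (fun i s => φ s i) s) (t n) :=
    (area_jac_integrableOn hφ g hg C hgC).mono_set (hsub.trans areaG_subset)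
  refine ⟨?_, ?_, ?_⟩
  · unfold areaH
    rw [integrable_indicator_iff himg,
      integrableOn_image_iff_integrableOn_abs_det_fderiv_smul volume (hm n) hder (hinj n)]
    exact hgi.congr_fun (fun x hx => (hpt x hx).symm) (hm n)
  · unfold areaH
    rw [integral_indicator himg,
      integral_image_eq_integral_abs_det_fderiv_smul volume (hm n) hder (hinj n)]
    exact setIntegral_congr_fun (hm n) hpt
  · have h1 : (fun v => ‖areaH φ t g n v‖) = (φ '' t n).indicator
        (fun v => ‖g (Function.invFunOn φ (t n) v) *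
          (SignType.sign (jac (fun i s => φ s i) (Function.invFunOn φ (t n) v)) : ℝ)‖) := by
      funext v
      unfold areaH
      rw [norm_indicator_eq_indicator_norm]
    rw [h1, integral_indicator himg,
      integral_image_eq_integral_abs_det_fderiv_smul volume (hm n) hder (hinj n)]
    refine setIntegral_congr_fun (hm n) (fun x hx => ?_)
    rw [← hpt x hx, norm_smul, smul_eq_mul, Real.norm_eq_abs, Real.norm_eq_abs, abs_abs]

theorem areaH_hasSum (hd : Pairwise (Function.onFun Disjoint t))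
    (hcov : (⋃ n, t n) = areaG φ) (hinj : ∀ n, InjOn φ (t n)) (g : (Fin d → ℝ) → ℝ)
    {v : Fin d → ℝ} (hv : {n | v ∈ φ '' t n}.Finite) :
    HasSum (fun n => areaH φ t g n v)
      (∑ᶠ s ∈ goodPre φ v, g s * SignType.sign (jac (fun i s => φ s i) s)) := by
  have h0 : ∀ n ∉ hv.toFinset, areaH φ t g n v = 0 := by
    intro n hn
    rw [Set.Finite.mem_toFinset] at hn
    unfold areaH
    exact indicator_of_notMem (show v ∉ φ '' t n from hn) _
  have h1 : HasSum (fun n => areaH φ t g n v) (∑ n ∈ hv.toFinset, areaH φ t g n v) :=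
    hasSum_sum_of_ne_finset_zero h0
  have h2 : ∑ n ∈ hv.toFinset, areaH φ t g n v =
      ∑ᶠ s ∈ goodPre φ v, g s * (SignType.sign (jac (fun i s => φ s i) s) : ℝ) := by
    rw [← finsum_mem_eq_finite_toFinset_sum _ hv]
    refine finsum_mem_eq_of_bijOn (fun n => Function.invFunOn φ (t n) v) ⟨?_, ?_, ?_⟩ ?_
    · intro n hn
      rw [area_mem_goodPre, ← hcov]
      exact ⟨mem_iUnion.2 ⟨n, Function.invFunOn_mem hn⟩, Function.invFunOn_eq hn⟩
    · intro n hn m hm hnm
      by_contra hne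
      have h3 : Function.invFunOn φ (t n) v ∈ t n := Function.invFunOn_mem hn
      have h4 : Function.invFunOn φ (t n) v ∈ t m := by
        simp only at hnm
        rw [hnm]
        exact Function.invFunOn_mem hm
      exact Set.disjoint_left.1 (hd hne) h3 h4
    · intro s hs
      rw [area_mem_goodPre, ← hcov] at hs
      obtain ⟨n, hn⟩ := mem_iUnion.1 hs.1
      refine ⟨n, ⟨s, hn, hs.2⟩, ?_⟩
      simp only
      rw [← hs.2]
      exact (hinj n).leftInvOn_invFunOn hn
    · intro n hn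
      unfold areaH
      rw [indicator_of_mem (show v ∈ φ '' t n from hn)]
  rw [← h2]
  exact h1

end part

theorem area_ae {d : ℕ} (φ : (Fin d → ℝ) → (Fin d → ℝ)) (K : ℝ≥0) (hφ : LipschitzWith K φ) :
    ∀ᵐ v : Fin d → ℝ, (goodPre φ v).Finite ∧
      ∀ s ∈ Icc (0 : Fin d → ℝ) 1, φ s = v → s ∈ goodPre φ v := by
  obtain ⟨t, hd, hm, hcov, hinj⟩ := area_partition φ
  filter_upwards [area_mem_finite hφ hd hm hcov hinj, area_bad hφ] with v h1 h2
  exact ⟨area_finite_of hcov hinj h1, h2⟩

theorem area_formula {d : ℕ} (φ : (Fin d → ℝ) → (Fin d → ℝ)) (K : ℝ≥0)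
    (hφ : LipschitzWith K φ) (g : (Fin d → ℝ) → ℝ) (hg : Measurable g) (C : ℝ)
    (hgC : ∀ s, |g s| ≤ C) :
    Integrable (fun v => ∑ᶠ s ∈ goodPre φ v, g s * SignType.sign (jac (fun i s => φ s i) s)) ∧
    ∫ s in Icc (0 : Fin d → ℝ) 1, g s * jac (fun i s => φ s i) s =
      ∫ v, ∑ᶠ s ∈ goodPre φ v, g s * SignType.sign (jac (fun i s => φ s i) s) := by
  obtain ⟨t, hd, hm, hcov, hinj⟩ := area_partition φ
  have hfin := area_mem_finite hφ hd hm hcov hinj
  have hH := areaH_int hm hφ hcov hinj g hg C hgC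
  have hgi := area_jac_integrableOn hφ g hg C hgC
  have hgU : IntegrableOn (fun s => g s * jac (fun i s => φ s i) s) (⋃ n, t n) :=
    hgi.mono_set (by rw [hcov]; exact areaG_subset)
  have hsum : Summable (fun n => ∫ v, ‖areaH φ t g n v‖) := by
    have h1 := (hasSum_integral_iUnion hm hd hgU.norm).summable
    refine h1.congr (fun n => ?_)
    exact ((hH n).2.2).symm
  have hae : ∀ᵐ v : Fin d → ℝ, HasSum (fun n => areaH φ t g n v)
      (∑ᶠ s ∈ goodPre φ v, g s * SignType.sign (jac (fun i s => φ s i) s)) := by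
    filter_upwards [hfin] with v hv
    exact areaH_hasSum hd hcov hinj g hv
  have hae' : (fun v => ∑ᶠ s ∈ goodPre φ v, g s * (SignType.sign (jac (fun i s => φ s i) s) : ℝ))
      =ᵐ[volume] fun v => ∑' n, areaH φ t g n v := by
    filter_upwards [hae] with v hv
    exact hv.tsum_eq.symm
  have hmeas : AEStronglyMeasurable (fun v => ∑ᶠ s ∈ goodPre φ v,
      g s * (SignType.sign (jac (fun i s => φ s i) s) : ℝ)) volume := by
    refine aestronglyMeasurable_of_tendsto_ae atTop
      (f := fun N v => ∑ n ∈ Finset.range N, areaH φ t g n v) (fun N => ?_) ?_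
    · exact Finset.aestronglyMeasurable_fun_sum _ (fun n _ => (hH n).1.1)
    · filter_upwards [hae] with v hv
      exact hv.tendsto_sum_nat
  refine ⟨⟨hmeas, ?_⟩, ?_⟩
  · unfold HasFiniteIntegral
    calc ∫⁻ v, ‖∑ᶠ s ∈ goodPre φ v, g s * (SignType.sign (jac (fun i s => φ s i) s) : ℝ)‖ₑ
        ≤ ∫⁻ v, ∑' n, ‖areaH φ t g n v‖ₑ := by
          refine lintegral_mono_ae ?_
          filter_upwards [hae'] with v hv
          rw [hv]
          exact enorm_tsum_le_tsum_enorm
      _ = ∑' n, ∫⁻ v, ‖areaH φ t g n v‖ₑ := lintegral_tsum (fun n => (hH n).1.1.enorm)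
      _ = ∑' n, ENNReal.ofReal (∫ v, ‖areaH φ t g n v‖) := by
          refine tsum_congr (fun n => ?_)
          rw [ofReal_integral_norm_eq_lintegral_enorm (hH n).1]
      _ < ⊤ := hsum.tsum_ofReal_lt_top
  · rw [integral_congr_ae hae']
    rw [← integral_tsum_of_summable_integral_norm (fun n => (hH n).1) hsum]
    have h3 := (hasSum_integral_iUnion hm hd hgU).tsum_eq
    simp only [(hH _).2.1]
    rw [h3, hcov]
    refine (setIntegral_eq_of_subset_of_ae_sdiff_eq_zero measurableSet_Icc.nullMeasurableSet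
      areaG_subset ?_)
    have h4 : ∀ᵐ s : Fin d → ℝ, DifferentiableAt ℝ φ s := hφ.ae_differentiableAt
    have h5 := Measure.univ_pi_Ioo_ae_eq_Icc (μ := fun _ : Fin d => (volume : Measure ℝ))
      (f := (0 : Fin d → ℝ)) (g := 1)
    have h6 : ∀ᵐ s : Fin d → ℝ, s ∈ Icc (0 : Fin d → ℝ) 1 → ∀ i, s i ∈ Ioo (0:ℝ) 1 := by
      filter_upwards [h5.symm.le] with s hs hs1 i
      have := hs hs1 i (mem_univ i)
      simpa using this
    filter_upwards [h4, h6] with s hs1 hs2 hs3
    by_contra hc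
    refine hs3.2 ⟨hs2 hs3.1, hs1, ?_⟩
    intro h
    exact hc (by rw [h, mul_zero])

end area

end MP629748

end part1

section part2

/-!
P6a: barycentres in uniformly convex spaces.
-/

open Set Filter Topology MeasureTheory Metric
open scoped NNReal

namespace MP629748

section bary
variable {X : Type*} [MetricSpace X]

/-- the functional minimised by the barycentre -/
noncomputable def baryFun {k : ℕ} (x : Fin (k + 1) → X) (l : Fin (k + 1) → ℝ) (y : X) : ℝ :=
  ∑ i, l i * dist (x i) y ^ 2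

theorem baryFun_continuous {k : ℕ} (x : Fin (k + 1) → X) (l : Fin (k + 1) → ℝ) :
    Continuous (baryFun x l) := by
  unfold baryFun
  fun_prop

theorem baryFun_nonneg {k : ℕ} (x : Fin (k + 1) → X) {l : Fin (k + 1) → ℝ}
    (hl : l ∈ stdSimplex ℝ (Fin (k + 1))) (y : X) : 0 ≤ baryFun x l y :=
  Finset.sum_nonneg fun i _ => mul_nonneg (hl.1 i) (sq_nonneg _)

theorem baryFun_cc {c : ℝ} (U : UC X c) {k : ℕ} (x : Fin (k + 1) → X) {l : Fin (k + 1) → ℝ}
    (hl : l ∈ stdSimplex ℝ (Fin (k + 1))) (y z : X) {t : ℝ} (ht : t ∈ Icc (0:ℝ) 1) :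
    baryFun x l (U.cc y z t) ≤ (1 - t) * baryFun x l y + t * baryFun x l z
      - c * (t * (1 - t)) * dist y z ^ 2 := by
  have h1 : baryFun x l (U.cc y z t) ≤ ∑ i, l i * ((1 - t) * dist (x i) y ^ 2 +
      t * dist (x i) z ^ 2 - c * (t * (1 - t)) * dist y z ^ 2) := by
    unfold baryFun
    exact Finset.sum_le_sum fun i _ => mul_le_mul_of_nonneg_left (U.cn y z (x i) t ht) (hl.1 i)
  refine h1.trans (le_of_eq ?_)
  have h2 : ∑ i, l i * (c * (t * (1 - t)) * dist y z ^ 2) = c * (t * (1 - t)) * dist y z ^ 2 := by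
    rw [← Finset.sum_mul, hl.2, one_mul]
  rw [← h2]
  unfold baryFun
  rw [Finset.mul_sum, Finset.mul_sum, ← Finset.sum_add_distrib, ← Finset.sum_sub_distrib]
  refine Finset.sum_congr rfl fun i _ => ?_
  rw [h2]
  ring

theorem bary_spec {k : ℕ} {x : Fin (k + 1) → X} {l : Fin (k + 1) → ℝ}
    (h : ∃ y, ∀ z, ∑ i, l i * dist (x i) y ^ 2 ≤ ∑ i, l i * dist (x i) z ^ 2) (z : X) :
    baryFun x l (bary x l) ≤ baryFun x l z := by
  have h1 : bary x l = h.choose := by
    unfold bary
    rw [dif_pos h]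
  rw [h1]
  exact h.choose_spec z

theorem exists_min [CompleteSpace X] {c : ℝ} (U : UC X c) (hc : 0 < c) {k : ℕ}
    (x : Fin (k + 1) → X) {l : Fin (k + 1) → ℝ} (hl : l ∈ stdSimplex ℝ (Fin (k + 1))) :
    ∃ y, ∀ z, baryFun x l y ≤ baryFun x l z := by
  set m := ⨅ y, baryFun x l y with hm
  have hbdd : BddBelow (range (baryFun x l)) := ⟨0, by
    rintro _ ⟨y, rfl⟩
    exact baryFun_nonneg x hl y⟩
  have : Nonempty X := ⟨x 0⟩
  have hmle : ∀ y, m ≤ baryFun x l y := fun y => ciInf_le hbdd y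
  have hex : ∀ n : ℕ, ∃ y, baryFun x l y < m + 1 / (n + 1 : ℝ) := fun n =>
    exists_lt_of_ciInf_lt (by
      have : (0:ℝ) < 1 / (n + 1 : ℝ) := Nat.one_div_pos_of_nat
      linarith)
  choose y hy using hex
  have hmid : ∀ p q : X, c / 4 * dist p q ^ 2 ≤
      (baryFun x l p + baryFun x l q) / 2 - m := by
    intro p q
    have h1 := baryFun_cc U x hl p q (t := 1 / 2) (by norm_num)
    have h2 := hmle (U.cc p q (1 / 2))
    nlinarith
  have hcau : CauchySeq y := by
    rw [Metric.cauchySeq_iff']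
    intro ε hε
    obtain ⟨N, hN⟩ := exists_nat_one_div_lt (show (0:ℝ) < c / 4 * ε ^ 2 by positivity)
    refine ⟨N, fun n hn => ?_⟩
    have h1 := hmid (y n) (y N)
    have h2 := hy n
    have h3 := hy N
    have h4 : 1 / (n + 1 : ℝ) ≤ 1 / (N + 1 : ℝ) := by
      apply one_div_le_one_div_of_le (by positivity)
      have : (N : ℝ) ≤ n := by exact_mod_cast hn
      linarith
    have h5 : c / 4 * dist (y n) (y N) ^ 2 < c / 4 * ε ^ 2 := by
      have : (baryFun x l (y n) + baryFun x l (y N)) / 2 - m < 1 / (N + 1 : ℝ) := by linarith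
      linarith
    have h6 : dist (y n) (y N) ^ 2 < ε ^ 2 := lt_of_mul_lt_mul_left h5 (by positivity)
    exact lt_of_pow_lt_pow_left₀ 2 hε.le h6
  obtain ⟨p, hp⟩ := cauchySeq_tendsto_of_complete hcau
  refine ⟨p, fun z => ?_⟩
  have h1 : Tendsto (fun n => baryFun x l (y n)) atTop (𝓝 (baryFun x l p)) :=
    ((baryFun_continuous x l).tendsto p).comp hp
  have h2 : Tendsto (fun n : ℕ => m + 1 / (n + 1 : ℝ)) atTop (𝓝 (m + 0)) :=
    tendsto_const_nhds.add tendsto_one_div_add_atTop_nhds_zero_nat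
  rw [add_zero] at h2
  exact (le_of_tendsto_of_tendsto' h1 h2 fun n => (hy n).le).trans (hmle z)

variable [CompleteSpace X] {c : ℝ} (U : UC X c) (hc : 0 < c)
include U hc

theorem bary_min {k : ℕ} (x : Fin (k + 1) → X) (l : Fin (k + 1) → ℝ)
    (hl : l ∈ stdSimplex ℝ (Fin (k + 1))) (z : X) :
    ∑ i, l i * dist (x i) (bary x l) ^ 2 + c / 2 * dist z (bary x l) ^ 2 ≤
      ∑ i, l i * dist (x i) z ^ 2 := by
  change baryFun x l (bary x l) + c / 2 * dist z (bary x l) ^ 2 ≤ baryFun x l z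
  have h1 := bary_spec (exists_min U hc x hl) (U.cc (bary x l) z (1 / 2))
  have h2 := baryFun_cc U x hl (bary x l) z (t := 1 / 2) (by norm_num)
  rw [dist_comm z]
  nlinarith

theorem bary_eq_of_min {k : ℕ} (x : Fin (k + 1) → X) {l : Fin (k + 1) → ℝ}
    (hl : l ∈ stdSimplex ℝ (Fin (k + 1))) {y : X}
    (h : baryFun x l y ≤ baryFun x l (bary x l)) : bary x l = y := by
  have h1 := bary_min U hc x l hl y
  change baryFun x l (bary x l) + c / 2 * dist y (bary x l) ^ 2 ≤ baryFun x l y at h1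
  have h2 : c / 2 * dist y (bary x l) ^ 2 ≤ 0 := by linarith
  have h3 : dist y (bary x l) = 0 := by
    by_contra hne
    have : 0 < c / 2 * dist y (bary x l) ^ 2 := by positivity
    linarith
  exact (dist_eq_zero.1 h3).symm

theorem bary_face {k : ℕ} (x : Fin (k + 2) → X) (l : Fin (k + 1) → ℝ)
    (hl : l ∈ stdSimplex ℝ (Fin (k + 1))) (i : Fin (k + 2)) :
    bary x (i.insertNth 0 l) = bary (x ∘ i.succAbove) l := by
  have hfun : ∀ y, baryFun x (i.insertNth 0 l) y = baryFun (x ∘ i.succAbove) l y := by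
    intro y
    unfold baryFun
    rw [Fin.sum_univ_succAbove _ i]
    simp
  have hl' : (i.insertNth 0 l : Fin (k + 2) → ℝ) ∈ stdSimplex ℝ (Fin (k + 2)) := by
    constructor
    · intro j
      refine Fin.succAboveCases i ?_ (fun j => ?_) j
      · simp
      · simpa using hl.1 j
    · rw [Fin.sum_univ_succAbove _ i]
      simpa using hl.2
  refine bary_eq_of_min U hc x hl' ?_
  rw [hfun, hfun]
  exact bary_spec (exists_min U hc _ hl) _

theorem bary_convex {k : ℕ} (x : Fin (k + 1) → X) (y : X) :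
    Convex ℝ {l | l ∈ stdSimplex ℝ (Fin (k + 1)) ∧ bary x l = y} := by
  rintro l ⟨hl, hly⟩ l' ⟨hl', hly'⟩ a b ha hb hab
  have hm := convex_stdSimplex ℝ (Fin (k + 1)) hl hl' ha hb hab
  refine ⟨hm, bary_eq_of_min U hc x hm ?_⟩
  have hfun : ∀ z, baryFun x (a • l + b • l') z = a * baryFun x l z + b * baryFun x l' z := by
    intro z
    unfold baryFun
    rw [Finset.mul_sum, Finset.mul_sum, ← Finset.sum_add_distrib]
    refine Finset.sum_congr rfl fun i _ => ?_
    simp only [Pi.add_apply, Pi.smul_apply, smul_eq_mul]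
    ring
  rw [hfun, hfun]
  have h1 := bary_spec (exists_min U hc x hl) (bary x (a • l + b • l'))
  have h2 := bary_spec (exists_min U hc x hl') (bary x (a • l + b • l'))
  rw [hly] at h1
  rw [hly'] at h2
  exact add_le_add (mul_le_mul_of_nonneg_left h1 ha) (mul_le_mul_of_nonneg_left h2 hb)

theorem dist_bary_le {k : ℕ} (x : Fin (k + 1) → X) (l : Fin (k + 1) → ℝ)
    (hl : l ∈ stdSimplex ℝ (Fin (k + 1))) (z : X) (r : ℝ) (hr : ∀ i, dist (x i) z ≤ r) :
    dist (bary x l) z ≤ 2 * r := by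
  have hr0 : 0 ≤ r := dist_nonneg.trans (hr 0)
  have h1 := bary_spec (exists_min U hc x hl) z
  have h2 : baryFun x l z ≤ r ^ 2 := by
    have : baryFun x l z ≤ ∑ i, l i * r ^ 2 :=
      Finset.sum_le_sum fun i _ => mul_le_mul_of_nonneg_left
        (pow_le_pow_left₀ dist_nonneg (hr i) 2) (hl.1 i)
    rwa [← Finset.sum_mul, hl.2, one_mul] at this
  have h3 : ∃ i, dist (x i) (bary x l) ≤ r := by
    by_contra hcon
    push Not at hcon
    have h4 : ∑ i, l i * r ^ 2 < ∑ i, l i * dist (x i) (bary x l) ^ 2 := by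
      obtain ⟨j, hj⟩ : ∃ j, 0 < l j := by
        by_contra hn
        push Not at hn
        have : ∑ i, l i ≤ 0 := Finset.sum_nonpos fun i _ => hn i
        rw [hl.2] at this
        linarith
      refine Finset.sum_lt_sum (fun i _ => mul_le_mul_of_nonneg_left
        (pow_le_pow_left₀ hr0 (hcon i).le 2) (hl.1 i)) ⟨j, Finset.mem_univ j, ?_⟩
      exact mul_lt_mul_of_pos_left (pow_lt_pow_left₀ (hcon j) hr0 two_ne_zero) hj
    rw [← Finset.sum_mul, hl.2, one_mul] at h4
    change r ^ 2 < baryFun x l (bary x l) at h4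
    linarith
  obtain ⟨i, hi⟩ := h3
  calc dist (bary x l) z ≤ dist (bary x l) (x i) + dist (x i) z := dist_triangle _ _ _
    _ ≤ r + r := add_le_add (by rwa [dist_comm]) (hr i)
    _ = 2 * r := by ring

theorem bary_lipschitz {k : ℕ} (x : Fin (k + 1) → X) :
    ∃ K : ℝ≥0, LipschitzOnWith K (bary x) (stdSimplex ℝ (Fin (k + 1))) := by
  set R : ℝ := ∑ i, dist (x i) (x 0) with hR
  have hR0 : 0 ≤ R := Finset.sum_nonneg fun i _ => dist_nonneg
  have hRi : ∀ i, dist (x i) (x 0) ≤ R := fun i =>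
    Finset.single_le_sum (f := fun i => dist (x i) (x 0)) (fun i _ => dist_nonneg)
      (Finset.mem_univ i)
  have hM : ∀ l ∈ stdSimplex ℝ (Fin (k + 1)), ∀ i, dist (x i) (bary x l) ≤ 3 * R := by
    intro l hl i
    have h1 := dist_bary_le U hc x l hl (x 0) R hRi
    calc dist (x i) (bary x l) ≤ dist (x i) (x 0) + dist (x 0) (bary x l) := dist_triangle _ _ _
      _ ≤ R + 2 * R := add_le_add (hRi i) (by rwa [dist_comm])
      _ = 3 * R := by ring
  have hK0 : 0 ≤ 6 * R * (k + 1) / c := by positivity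
  refine ⟨(6 * R * (k + 1) / c).toNNReal, LipschitzOnWith.of_dist_le_mul ?_⟩
  intro l hl l' hl'
  rw [Real.coe_toNNReal _ hK0]
  have h1 := bary_min U hc x l hl (bary x l')
  have h2 := bary_min U hc x l' hl' (bary x l)
  rw [dist_comm (bary x l') (bary x l)] at h1
  set D := dist (bary x l) (bary x l') with hD
  have hD0 : 0 ≤ D := dist_nonneg
  have h3 : c * D ^ 2 ≤ ∑ i, (l i - l' i) * (dist (x i) (bary x l') ^ 2 -
      dist (x i) (bary x l) ^ 2) := by
    have : ∑ i, (l i - l' i) * (dist (x i) (bary x l') ^ 2 - dist (x i) (bary x l) ^ 2) =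
        (∑ i, l i * dist (x i) (bary x l') ^ 2 - ∑ i, l i * dist (x i) (bary x l) ^ 2) +
        (∑ i, l' i * dist (x i) (bary x l) ^ 2 - ∑ i, l' i * dist (x i) (bary x l') ^ 2) := by
      rw [← Finset.sum_sub_distrib, ← Finset.sum_sub_distrib, ← Finset.sum_add_distrib]
      refine Finset.sum_congr rfl fun i _ => ?_
      ring
    rw [this]
    linarith
  have h4 : ∀ i, (l i - l' i) * (dist (x i) (bary x l') ^ 2 - dist (x i) (bary x l) ^ 2) ≤
      dist l l' * (6 * R * D) := by
    intro i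
    have h5 : |l i - l' i| ≤ dist l l' := by
      have := dist_le_pi_dist l l' i
      rwa [Real.dist_eq] at this
    have h6 : |dist (x i) (bary x l') - dist (x i) (bary x l)| ≤ D := by
      rw [hD, dist_comm (bary x l) (bary x l'), abs_le]
      constructor
      · have := dist_triangle (x i) (bary x l') (bary x l)
        linarith
      · have := dist_triangle (x i) (bary x l) (bary x l')
        rw [dist_comm (bary x l) (bary x l')] at this
        linarith
    have h7 : |dist (x i) (bary x l') ^ 2 - dist (x i) (bary x l) ^ 2| ≤ 6 * R * D := by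
      have : dist (x i) (bary x l') ^ 2 - dist (x i) (bary x l) ^ 2 =
          (dist (x i) (bary x l') + dist (x i) (bary x l)) *
          (dist (x i) (bary x l') - dist (x i) (bary x l)) := by ring
      rw [this, abs_mul]
      refine mul_le_mul ?_ h6 (abs_nonneg _) (by positivity)
      rw [abs_of_nonneg (by positivity)]
      have := hM l hl i
      have := hM l' hl' i
      linarith
    calc (l i - l' i) * (dist (x i) (bary x l') ^ 2 - dist (x i) (bary x l) ^ 2)
        ≤ |(l i - l' i) * (dist (x i) (bary x l') ^ 2 - dist (x i) (bary x l) ^ 2)| :=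
          le_abs_self _
      _ = |l i - l' i| * |dist (x i) (bary x l') ^ 2 - dist (x i) (bary x l) ^ 2| := abs_mul _ _
      _ ≤ dist l l' * (6 * R * D) := mul_le_mul h5 h7 (abs_nonneg _) dist_nonneg
  have h8 : c * D ^ 2 ≤ (k + 1) * (dist l l' * (6 * R * D)) := by
    refine h3.trans ((Finset.sum_le_sum fun i _ => h4 i).trans (le_of_eq ?_))
    rw [Finset.sum_const, Finset.card_univ, Fintype.card_fin, nsmul_eq_mul]
    push_cast
    ring
  rcases hD0.eq_or_lt with h0 | h0
  · rw [← h0]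
    positivity
  · have h9 : c * D ≤ (k + 1) * (dist l l' * (6 * R)) := by
      have : (c * D) * D ≤ ((k + 1) * (dist l l' * (6 * R))) * D := by nlinarith
      exact le_of_mul_le_mul_right this h0
    rw [div_mul_eq_mul_div, le_div_iff₀ hc]
    nlinarith

end bary

end MP629748

end part2

section part3

/-!
Piece P6b of MP_629748_gt: the parametrisation `duffy` of the simplex and the singular cubes.
-/

open Set Filter Topology MeasureTheory Metric
open scoped NNReal

namespace MP629748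

universe u

/-! ### elementary facts on `duffy` -/

theorem cb_duffy_zero' (s : Fin 0 → ℝ) : duffy 0 s = fun _ => 1 := rfl

theorem cb_duffy_succ' {k : ℕ} (s : Fin (k + 1) → ℝ) :
    duffy (k + 1) s = Fin.cons (1 - s 0) (s 0 • duffy k (Fin.tail s)) := rfl

theorem cb_duffy_succ_zero {k : ℕ} (s : Fin (k + 1) → ℝ) : duffy (k + 1) s 0 = 1 - s 0 := rfl

theorem cb_duffy_succ_succ {k : ℕ} (s : Fin (k + 1) → ℝ) (i : Fin (k + 1)) :
    duffy (k + 1) s i.succ = s 0 * duffy k (Fin.tail s) i := rfl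

theorem cb_duffy_sum : ∀ (k : ℕ) (s : Fin k → ℝ), ∑ i, duffy k s i = 1
  | 0, s => by simp [cb_duffy_zero']
  | (k + 1), s => by
    rw [Fin.sum_univ_succ, cb_duffy_succ_zero]
    simp only [cb_duffy_succ_succ]
    rw [← Finset.mul_sum, cb_duffy_sum k, mul_one]
    ring

theorem cb_duffy_nonneg : ∀ (k : ℕ) (s : Fin k → ℝ), (∀ i, s i ∈ Icc (0:ℝ) 1) →
    ∀ i, 0 ≤ duffy k s i
  | 0, s, _, i => by simp [cb_duffy_zero']
  | (k + 1), s, hs, i => by
    refine Fin.cases ?_ (fun i => ?_) i
    · rw [cb_duffy_succ_zero]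
      linarith [(hs 0).2]
    · rw [cb_duffy_succ_succ]
      exact mul_nonneg (hs 0).1 (cb_duffy_nonneg k _ (fun i => hs i.succ) i)

theorem cb_duffy_pos : ∀ (k : ℕ) (s : Fin k → ℝ), (∀ i, s i ∈ Ioo (0:ℝ) 1) →
    ∀ i, 0 < duffy k s i
  | 0, s, _, i => by simp [cb_duffy_zero']
  | (k + 1), s, hs, i => by
    refine Fin.cases ?_ (fun i => ?_) i
    · rw [cb_duffy_succ_zero]
      linarith [(hs 0).2]
    · rw [cb_duffy_succ_succ]
      exact mul_pos (hs 0).1 (cb_duffy_pos k _ (fun i => hs i.succ) i)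

theorem duffy_mem {k : ℕ} {s : Fin k → ℝ} (hs : s ∈ Icc (0 : Fin k → ℝ) 1) :
    duffy k s ∈ stdSimplex ℝ (Fin (k + 1)) :=
  ⟨cb_duffy_nonneg k s (fun i => ⟨hs.1 i, hs.2 i⟩), cb_duffy_sum k s⟩

theorem cb_duffy_le_one {k : ℕ} {s : Fin k → ℝ} (hs : s ∈ Icc (0 : Fin k → ℝ) 1) (i : Fin (k + 1)) :
    |duffy k s i| ≤ 1 := by
  have h := duffy_mem hs
  rw [abs_of_nonneg (h.1 i)]
  calc duffy k s i ≤ ∑ j, duffy k s j :=
        Finset.single_le_sum (fun j _ => h.1 j) (Finset.mem_univ i)
    _ = 1 := h.2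

theorem cb_smul_insertNth_zero {k : ℕ} (i : Fin (k + 1)) (a : ℝ) (v : Fin k → ℝ) :
    a • (i.insertNth 0 v : Fin (k + 1) → ℝ) = i.insertNth 0 (a • v) := by
  rw [Fin.eq_insertNth_iff]
  refine ⟨by simp, ?_⟩
  ext j
  simp [Fin.removeNth]

theorem cb_duffy_cons {k : ℕ} (a : ℝ) (p : Fin k → ℝ) :
    duffy (k + 1) (Fin.cons a p) = Fin.cons (1 - a) (a • duffy k p) := by
  rw [cb_duffy_succ']
  simp

theorem duffy_face_one : ∀ {k : ℕ} (i : Fin (k + 1)) (s : Fin k → ℝ),
    duffy (k + 1) (i.insertNth 1 s) = i.castSucc.insertNth 0 (duffy k s) := by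
  intro k
  induction k with
  | zero =>
    intro i s
    have hi : i = 0 := Fin.fin_one_eq_zero i
    subst hi
    ext j
    fin_cases j <;> simp [cb_duffy_succ', cb_duffy_zero']
  | succ k ih =>
    intro i s
    obtain ⟨a, p, rfl⟩ : ∃ a p, s = Fin.cons a p := ⟨s 0, Fin.tail s, by simp⟩
    refine Fin.cases ?_ (fun i => ?_) i
    · rw [Fin.insertNth_zero', cb_duffy_cons, Fin.castSucc_zero, Fin.insertNth_zero']
      simp
    · rw [Fin.insertNth_succ_cons, cb_duffy_cons, ih, cb_duffy_cons, Fin.castSucc_succ,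
        Fin.insertNth_succ_cons, cb_smul_insertNth_zero]

theorem duffy_face_last {k : ℕ} (s : Fin k → ℝ) :
    duffy (k + 1) ((Fin.last k).insertNth 0 s) =
      (Fin.last (k + 1)).insertNth 0 (duffy k s) := by
  induction k with
  | zero =>
    ext j
    rw [Fin.insertNth_last', Fin.insertNth_last']
    fin_cases j
    · simp only [cb_duffy_succ', cb_duffy_zero']
      simp [Fin.snoc]
    · simp only [cb_duffy_succ', cb_duffy_zero']
      simp [Fin.snoc]
  | succ k ih =>
    obtain ⟨a, p, rfl⟩ : ∃ a p, s = Fin.cons a p := ⟨s 0, Fin.tail s, by simp⟩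
    rw [← Fin.succ_last k, Fin.insertNth_succ_cons, cb_duffy_cons, ih, cb_duffy_cons,
      ← Fin.succ_last (k + 1), Fin.insertNth_succ_cons, cb_smul_insertNth_zero]

/-- if the coordinate `i < k` is zero, the later coordinates are irrelevant -/
theorem duffy_degenerate {k : ℕ} (i : Fin (k + 1)) (s t : Fin (k + 1) → ℝ) (hs : s i = 0)
    (ht : t i = 0) (hst : ∀ j < i, s j = t j) : duffy (k + 1) s = duffy (k + 1) t := by
  induction k with
  | zero =>
    have hi : i = 0 := Fin.fin_one_eq_zero i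
    subst hi
    have : s = t := by
      ext j
      rw [Fin.fin_one_eq_zero j, hs, ht]
    rw [this]
  | succ k ih =>
    revert hs ht hst
    refine Fin.cases ?_ (fun i => ?_) i
    · intro hs ht _
      rw [cb_duffy_succ' s, cb_duffy_succ' t, hs, ht]
      simp
    · intro hs ht hst
      have h0 : s 0 = t 0 := hst 0 (Fin.succ_pos i)
      rw [cb_duffy_succ' s, cb_duffy_succ' t, h0]
      rw [ih i (Fin.tail s) (Fin.tail t) hs ht (fun j hj => hst j.succ (Fin.succ_lt_succ_iff.2 hj))]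

/-! ### Lipschitz property -/

theorem cb_duffy_lipschitzOn (k : ℕ) :
    LipschitzOnWith (k : ℝ≥0) (duffy k) (Icc (0 : Fin k → ℝ) 1) := by
  induction k with
  | zero =>
    intro s _ t _
    simp [cb_duffy_zero']
  | succ k ih =>
    apply LipschitzOnWith.of_dist_le_mul
    intro s hs t ht
    rw [dist_pi_le_iff (by positivity)]
    intro i
    have hs' : Fin.tail s ∈ Icc (0 : Fin k → ℝ) 1 := ⟨fun i => hs.1 i.succ, fun i => hs.2 i.succ⟩
    have ht' : Fin.tail t ∈ Icc (0 : Fin k → ℝ) 1 := ⟨fun i => ht.1 i.succ, fun i => ht.2 i.succ⟩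
    have h0 : |s 0 - t 0| ≤ dist s t := by
      rw [← Real.dist_eq]
      exact dist_le_pi_dist s t 0
    have htail : dist (Fin.tail s) (Fin.tail t) ≤ dist s t := by
      rw [dist_pi_le_iff dist_nonneg]
      intro j
      exact dist_le_pi_dist s t j.succ
    have hd : 0 ≤ dist s t := dist_nonneg
    refine Fin.cases ?_ (fun i => ?_) i
    · rw [cb_duffy_succ_zero, cb_duffy_succ_zero, Real.dist_eq]
      have : |1 - s 0 - (1 - t 0)| = |s 0 - t 0| := by
        rw [abs_sub_comm]; congr 1; ring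
      rw [this]
      calc |s 0 - t 0| ≤ 1 * dist s t := by linarith
        _ ≤ ((k + 1 : ℕ) : ℝ≥0) * dist s t := by
          gcongr
          push_cast
          have : (0:ℝ) ≤ k := Nat.cast_nonneg k
          linarith
    · rw [cb_duffy_succ_succ, cb_duffy_succ_succ, Real.dist_eq]
      have h1 : |duffy k (Fin.tail s) i - duffy k (Fin.tail t) i| ≤ k * dist s t := by
        have h := ih.dist_le_mul _ hs' _ ht'
        have h2 := dist_le_pi_dist (duffy k (Fin.tail s)) (duffy k (Fin.tail t)) i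
        rw [Real.dist_eq] at h2
        calc _ ≤ _ := h2
          _ ≤ _ := h
          _ ≤ k * dist s t := by
            push_cast
            gcongr
      have h2 : |duffy k (Fin.tail s) i| ≤ 1 := cb_duffy_le_one hs' i
      have h3 : |t 0| ≤ 1 := by
        rw [abs_of_nonneg (ht.1 0)]
        exact ht.2 0
      have e : s 0 * duffy k (Fin.tail s) i - t 0 * duffy k (Fin.tail t) i =
          (s 0 - t 0) * duffy k (Fin.tail s) i +
            t 0 * (duffy k (Fin.tail s) i - duffy k (Fin.tail t) i) := by ring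
      rw [e]
      calc _ ≤ |(s 0 - t 0) * duffy k (Fin.tail s) i| +
            |t 0 * (duffy k (Fin.tail s) i - duffy k (Fin.tail t) i)| := abs_add_le _ _
        _ ≤ dist s t * 1 + 1 * (k * dist s t) := by
          rw [abs_mul, abs_mul]
          gcongr
        _ = ((k + 1 : ℕ) : ℝ≥0) * dist s t := by
          push_cast
          ring

theorem cb_clamp_mem {k : ℕ} (s : Fin k → ℝ) : clamp s ∈ Icc (0 : Fin k → ℝ) 1 :=
  ⟨fun _ => le_max_left _ _, fun _ => max_le zero_le_one (min_le_left _ _)⟩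

theorem cb_clamp_of_mem {k : ℕ} {s : Fin k → ℝ} (hs : s ∈ Icc (0 : Fin k → ℝ) 1) : clamp s = s := by
  ext i
  have h0 : 0 ≤ s i := hs.1 i
  have h1 : s i ≤ 1 := hs.2 i
  simp only [clamp]
  rw [min_eq_right h1, max_eq_right h0]

theorem cb_clamp_lipschitz {k : ℕ} : LipschitzWith 1 (clamp (k := k)) := by
  apply LipschitzWith.of_dist_le_mul
  intro s t
  rw [NNReal.coe_one, one_mul, dist_pi_le_iff dist_nonneg]
  intro i
  refine le_trans ?_ (dist_le_pi_dist s t i)
  simp only [clamp, Real.dist_eq]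
  calc |max 0 (min 1 (s i)) - max 0 (min 1 (t i))| ≤ |min 1 (s i) - min 1 (t i)| := by
        rw [max_comm 0, max_comm 0]
        exact abs_max_sub_max_le_abs _ _ _
    _ ≤ |s i - t i| := by
        refine (abs_min_sub_min_le_max _ _ _ _).trans ?_
        simp

/-! ### The inverse of `duffy` -/

/-- inverse of `duffy` (on positive vectors) -/
noncomputable def cb_duffyInv : (k : ℕ) → (Fin (k + 1) → ℝ) → (Fin k → ℝ)
  | 0, _ => fun i => i.elim0
  | (k + 1), l => Fin.cons (1 - l 0 / ∑ i, l i) (cb_duffyInv k (Fin.tail l))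

theorem cb_duffyInv_succ {k : ℕ} (l : Fin (k + 2) → ℝ) :
    cb_duffyInv (k + 1) l = Fin.cons (1 - l 0 / ∑ i, l i) (cb_duffyInv k (Fin.tail l)) := rfl

theorem cb_duffyInv_smul : ∀ (k : ℕ) (r : ℝ), r ≠ 0 → ∀ l : Fin (k + 1) → ℝ,
    cb_duffyInv k (r • l) = cb_duffyInv k l
  | 0, _, _, _ => by ext i; exact i.elim0
  | (k + 1), r, hr, l => by
    rw [cb_duffyInv_succ, cb_duffyInv_succ]
    have h1 : Fin.tail (r • l) = r • Fin.tail l := rfl
    rw [h1, cb_duffyInv_smul k r hr]
    congr 2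
    simp only [Pi.smul_apply, smul_eq_mul]
    rw [← Finset.mul_sum, mul_div_mul_left _ _ hr]

theorem cb_duffyInv_duffy : ∀ (k : ℕ) (s : Fin k → ℝ), (∀ i, s i ∈ Ioo (0:ℝ) 1) →
    cb_duffyInv k (duffy k s) = s
  | 0, s, _ => by ext i; exact i.elim0
  | (k + 1), s, hs => by
    rw [cb_duffyInv_succ, cb_duffy_sum, cb_duffy_succ_zero]
    have h1 : Fin.tail (duffy (k + 1) s) = s 0 • duffy k (Fin.tail s) := by
      ext i
      rfl
    rw [h1, cb_duffyInv_smul k _ (hs 0).1.ne', cb_duffyInv_duffy k (Fin.tail s) (fun i => hs i.succ)]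
    have h2 : 1 - (1 - s 0) / 1 = s 0 := by ring
    rw [h2]
    exact Fin.cons_self_tail s

theorem cb_duffy_duffyInv : ∀ (k : ℕ) (l : Fin (k + 1) → ℝ), (∀ i, 0 < l i) →
    (∑ i, l i) • duffy k (cb_duffyInv k l) = l
  | 0, l, _ => by
    ext i
    rw [Fin.fin_one_eq_zero i]
    simp [cb_duffy_zero']
  | (k + 1), l, hl => by
    have hS : 0 < ∑ i, l i := Finset.sum_pos (fun i _ => hl i) Finset.univ_nonempty
    have hT : 0 < ∑ i, Fin.tail l i :=
      Finset.sum_pos (fun i _ => hl i.succ) Finset.univ_nonempty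
    have hST : ∑ i, l i = l 0 + ∑ i, Fin.tail l i := Fin.sum_univ_succ l
    have ih := cb_duffy_duffyInv k (Fin.tail l) (fun i => hl i.succ)
    ext i
    refine Fin.cases ?_ (fun i => ?_) i
    · rw [Pi.smul_apply, cb_duffy_succ_zero, cb_duffyInv_succ]
      simp only [Fin.cons_zero, smul_eq_mul]
      field_simp
      ring
    · rw [Pi.smul_apply, cb_duffy_succ_succ, cb_duffyInv_succ]
      simp only [Fin.cons_zero, smul_eq_mul, Fin.tail_cons]
      have h := congrFun ih i
      rw [Pi.smul_apply, smul_eq_mul] at h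
      have h2 : (∑ i, l i) * ((1 - l 0 / ∑ i, l i) * duffy k (cb_duffyInv k (Fin.tail l)) i) =
          (∑ i, Fin.tail l i) * duffy k (cb_duffyInv k (Fin.tail l)) i := by
        rw [← mul_assoc]
        congr 1
        field_simp
        linarith
      rw [h2, h]
      rfl

theorem cb_duffyInv_mem : ∀ (k : ℕ) (l : Fin (k + 1) → ℝ), (∀ i, 0 < l i) →
    ∀ i, cb_duffyInv k l i ∈ Ioo (0:ℝ) 1
  | 0, _, _, i => i.elim0
  | (k + 1), l, hl, i => by
    have hS : 0 < ∑ i, l i := Finset.sum_pos (fun i _ => hl i) Finset.univ_nonempty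
    have hT : 0 < ∑ i, Fin.tail l i :=
      Finset.sum_pos (fun i _ => hl i.succ) Finset.univ_nonempty
    have hST : ∑ i, l i = l 0 + ∑ i, Fin.tail l i := Fin.sum_univ_succ l
    rw [cb_duffyInv_succ]
    refine Fin.cases ?_ (fun i => ?_) i
    · rw [Fin.cons_zero]
      constructor
      · rw [sub_pos, div_lt_one hS]
        linarith
      · have : 0 < l 0 / ∑ i, l i := div_pos (hl 0) hS
        linarith
    · rw [Fin.cons_succ]
      exact cb_duffyInv_mem k _ (fun i => hl i.succ) i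

theorem cb_duffyInv_continuousAt : ∀ (k : ℕ) (l : Fin (k + 1) → ℝ), (∀ i, 0 < l i) →
    ContinuousAt (cb_duffyInv k) l
  | 0, _, _ => by
    rw [continuousAt_pi]
    exact fun i => i.elim0
  | (k + 1), l, hl => by
    have hS : 0 < ∑ i, l i := Finset.sum_pos (fun i _ => hl i) Finset.univ_nonempty
    rw [continuousAt_pi]
    intro i
    refine Fin.cases ?_ (fun i => ?_) i
    · simp only [cb_duffyInv_succ, Fin.cons_zero]
      refine ContinuousAt.sub continuousAt_const (ContinuousAt.div ?_ ?_ hS.ne')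
      · exact continuousAt_apply 0 l
      · exact (continuous_finsetSum _ fun i _ => continuous_apply i).continuousAt
    · simp only [cb_duffyInv_succ, Fin.cons_succ]
      have h1 : ContinuousAt (fun l : Fin (k + 2) → ℝ => Fin.tail l) l := by
        rw [continuousAt_pi]
        exact fun i => continuousAt_apply i.succ l
      have h2 := cb_duffyInv_continuousAt k (Fin.tail l) (fun i => hl i.succ)
      exact (continuousAt_apply i _).comp (h2.comp_of_eq h1 rfl)

/-! ### The singular cubes -/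

section cube
variable {X : Type*} [MetricSpace X] [CompleteSpace X] {c : ℝ} (U : UC X c) (hc : 0 < c)

include U hc in
theorem cube_lipschitz {k : ℕ} (x : Fin (k + 1) → X) : ∃ K : ℝ≥0, LipschitzWith K (cube x) := by
  obtain ⟨K, hK⟩ := bary_lipschitz U hc x
  refine ⟨K * ((k : ℝ≥0) * 1), ?_⟩
  have h1 : LipschitzOnWith ((k : ℝ≥0) * 1) (fun s => duffy k (clamp s)) univ :=
    (cb_duffy_lipschitzOn k).comp cb_clamp_lipschitz.lipschitzOnWith (fun s _ => cb_clamp_mem s)
  have h2 : LipschitzOnWith (K * ((k : ℝ≥0) * 1)) (fun s => bary x (duffy k (clamp s))) univ :=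
    hK.comp h1 (fun s _ => duffy_mem (cb_clamp_mem s))
  exact lipschitzOnWith_univ.1 h2

/-- a nonzero Jacobian gives an injective derivative -/
theorem cb_antilipschitz_of_jac_ne_zero {k : ℕ} (ψ : (Fin k → ℝ) → (Fin k → ℝ)) (s : Fin k → ℝ)
    (hd : DifferentiableAt ℝ ψ s) (hj : jac (fun i s => ψ s i) s ≠ 0) :
    ∃ C, AntilipschitzWith C (fderiv ℝ ψ s) := by
  have hmat : Matrix.of (fun i j => fderiv ℝ (fun s => ψ s i) s (Pi.single j 1)) =
      LinearMap.toMatrix' (fderiv ℝ ψ s : (Fin k → ℝ) →ₗ[ℝ] (Fin k → ℝ)) := by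
    ext i j
    rw [Matrix.of_apply, LinearMap.toMatrix'_apply]
    have := fderiv_apply hd i
    rw [this]
    rfl
  have hdet : (fderiv ℝ ψ s).det ≠ 0 := by
    have h : jac (fun i s => ψ s i) s = (fderiv ℝ ψ s).det := by
      rw [jac, hmat, LinearMap.det_toMatrix']
    rwa [h] at hj
  have h := ((fderiv ℝ ψ s).toContinuousLinearEquivOfDetNeZero hdet).antilipschitz
  have he : ((fderiv ℝ ψ s).toContinuousLinearEquivOfDetNeZero hdet :
      (Fin k → ℝ) → (Fin k → ℝ)) = fderiv ℝ ψ s := by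
    ext y
    simp
  rw [he] at h
  exact ⟨_, h⟩

include U hc in
/-- The key injectivity property: if `φ : X → ℝ^k` and `φ ∘ cube x` has two distinct good
preimages, they have different images in `X`. -/
theorem cube_good_inj {k : ℕ} (x : Fin (k + 1) → X) (φ : X → (Fin k → ℝ))
    {s t : Fin k → ℝ} {v : Fin k → ℝ} (hs : s ∈ goodPre (φ ∘ cube x) v)
    (ht : t ∈ goodPre (φ ∘ cube x) v) (hst : cube x s = cube x t) : s = t := by
  by_contra hne
  obtain ⟨hs0, hsv, hsd, hsj⟩ := hs
  obtain ⟨ht0, -, -, -⟩ := ht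
  have hsI : s ∈ Icc (0 : Fin k → ℝ) 1 := ⟨fun i => (hs0 i).1.le, fun i => (hs0 i).2.le⟩
  have htI : t ∈ Icc (0 : Fin k → ℝ) 1 := ⟨fun i => (ht0 i).1.le, fun i => (ht0 i).2.le⟩
  have hcs : cube x s = bary x (duffy k s) := by rw [cube, cb_clamp_of_mem hsI]
  have hct : cube x t = bary x (duffy k t) := by rw [cube, cb_clamp_of_mem htI]
  set l := duffy k s with hl
  set l' := duffy k t with hl'
  have hl0 : ∀ i, 0 < l i := cb_duffy_pos k s hs0
  have hl0' : ∀ i, 0 < l' i := cb_duffy_pos k t ht0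
  have hlne : l ≠ l' := by
    intro h
    apply hne
    rw [← cb_duffyInv_duffy k s hs0, ← cb_duffyInv_duffy k t ht0, ← hl, ← hl', h]
  have hconv := bary_convex U hc x (cube x s)
  have hmem : ∀ τ ∈ Icc (0:ℝ) 1, (1 - τ) • l + τ • l' ∈ stdSimplex ℝ (Fin (k + 1)) ∧
      bary x ((1 - τ) • l + τ • l') = cube x s := by
    intro τ hτ
    exact hconv ⟨duffy_mem hsI, hcs.symm⟩ ⟨duffy_mem htI, (hst.trans hct).symm⟩
      (by linarith [hτ.2]) hτ.1 (by ring)
  -- the path
  set γ : ℝ → (Fin k → ℝ) := fun τ => cb_duffyInv k ((1 - τ) • l + τ • l') with hγ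
  have hpos : ∀ τ ∈ Icc (0:ℝ) 1, ∀ i, 0 < ((1 - τ) • l + τ • l') i := by
    intro τ hτ i
    simp only [Pi.add_apply, Pi.smul_apply, smul_eq_mul]
    rcases eq_or_lt_of_le hτ.1 with h | h
    · rw [← h]
      simpa using hl0 i
    · have h1 : 0 < τ * l' i := mul_pos h (hl0' i)
      have h2 : 0 ≤ (1 - τ) * l i := mul_nonneg (by linarith [hτ.2]) (hl0 i).le
      linarith
  have hγ0 : γ 0 = s := by
    simp only [hγ, sub_zero, one_smul, zero_smul, add_zero]
    exact cb_duffyInv_duffy k s hs0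
  have hdγ : ∀ τ ∈ Icc (0:ℝ) 1, duffy k (γ τ) = (1 - τ) • l + τ • l' := by
    intro τ hτ
    have h := cb_duffy_duffyInv k _ (hpos τ hτ)
    rw [(hmem τ hτ).1.2, one_smul] at h
    exact h
  have hγc : ∀ τ ∈ Icc (0:ℝ) 1, cube x (γ τ) = cube x s := by
    intro τ hτ
    have hm : γ τ ∈ Icc (0 : Fin k → ℝ) 1 :=
      ⟨fun i => (cb_duffyInv_mem k _ (hpos τ hτ) i).1.le, fun i => (cb_duffyInv_mem k _ (hpos τ hτ) i).2.le⟩
    rw [cube, cb_clamp_of_mem hm, hdγ τ hτ]
    exact (hmem τ hτ).2
  have hγcont : Tendsto γ (𝓝 0) (𝓝 s) := by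
    rw [← hγ0]
    have h1 : ContinuousAt (fun τ : ℝ => (1 - τ) • l + τ • l') 0 := by fun_prop
    have h2 : ContinuousAt (cb_duffyInv k) ((1 - (0:ℝ)) • l + (0:ℝ) • l') :=
      cb_duffyInv_continuousAt k _ (hpos 0 ⟨le_refl _, zero_le_one⟩)
    exact (h2.comp_of_eq h1 rfl : ContinuousAt γ 0)
  have hev := hsd.hasFDerivAt.eventually_ne (c := v)
    (cb_antilipschitz_of_jac_ne_zero (φ ∘ cube x) s hsd hsj)
  have htend : Tendsto γ (𝓝[>] 0) (𝓝[≠] s) := by
    apply tendsto_nhdsWithin_of_tendsto_nhds_of_eventually_within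
    · exact hγcont.mono_left nhdsWithin_le_nhds
    · have h1 : ∀ᶠ τ : ℝ in 𝓝[>] 0, τ ∈ Ioc (0:ℝ) 1 := Ioc_mem_nhdsGT zero_lt_one
      filter_upwards [h1] with τ hτ
      intro h
      have h2 := hdγ τ ⟨hτ.1.le, hτ.2⟩
      rw [h, ← hl] at h2
      apply hlne
      have h3 : τ • (l - l') = 0 := by
        have : l - ((1 - τ) • l + τ • l') = 0 := by rw [← h2, sub_self]
        rw [← this]
        module
      rcases smul_eq_zero.1 h3 with h4 | h4
      · exact absurd h4 hτ.1.ne'
      · exact sub_eq_zero.1 h4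
  have hcon : ∀ᶠ τ in 𝓝[>] (0:ℝ), (φ ∘ cube x) (γ τ) ≠ v := htend.eventually hev
  have h1 : ∀ᶠ τ : ℝ in 𝓝[>] 0, τ ∈ Ioc (0:ℝ) 1 := Ioc_mem_nhdsGT zero_lt_one
  obtain ⟨τ, hτ1, hτ2⟩ := (hcon.and h1).exists
  apply hτ1
  rw [Function.comp_apply, hγc τ ⟨hτ2.1.le, hτ2.2⟩]
  exact hsv

end cube

end MP629748

end part3

section part4

/-! P7a: labels and the degree of the labelled affine simplex. -/

open Set Filter Topology MeasureTheory Metric
open scoped NNReal

namespace MP629748

universe u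

/-! ### labels -/

theorem sg_M_nonneg {m : ℕ} (y : Fin m → ℝ) :
    0 ≤ ⨆ j : Option (Fin m), j.elim 0 (fun j => - y j) :=
  le_ciSup (f := fun j : Option (Fin m) => j.elim 0 (fun j => - y j)) (Set.finite_range _).bddAbove
    none

theorem sg_neg_le_M {m : ℕ} (y : Fin m → ℝ) (j : Fin m) :
    - y j ≤ ⨆ j : Option (Fin m), j.elim 0 (fun j => - y j) :=
  le_ciSup (f := fun j : Option (Fin m) => j.elim 0 (fun j => - y j)) (Set.finite_range _).bddAbove
    (some j)

theorem sg_cof_nonneg {m : ℕ} (y : Fin m → ℝ) (i : Fin (m + 1)) : 0 ≤ cof m y i := by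
  unfold cof
  refine Fin.cases ?_ (fun j => ?_) i
  · simpa using sg_M_nonneg y
  · have := sg_neg_le_M y j
    simp only [Fin.cases_succ]
    linarith

theorem sg_exists_cof_zero {m : ℕ} (y : Fin m → ℝ) : ∃ i, cof m y i = 0 := by
  obtain ⟨j, hj⟩ := exists_eq_ciSup_of_finite
    (f := fun j : Option (Fin m) => j.elim 0 (fun j => - y j))
  cases j with
  | none =>
    refine ⟨0, ?_⟩
    unfold cof
    rw [← hj]
    simp
  | some j =>
    refine ⟨j.succ, ?_⟩
    unfold cof
    rw [← hj]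
    simp

theorem sg_sum_cof {m : ℕ} (y : Fin m → ℝ) (i : Fin (m + 1)) :
    phi m i y = (∑ j, cof m y j) - (m + 1) * cof m y i := by
  set M := ⨆ j : Option (Fin m), j.elim 0 (fun j => - y j) with hM
  have hs : ∑ j, cof m y j = (m + 1) * M + ∑ j, y j := by
    rw [Fin.sum_univ_succ]
    have h0 : cof m y 0 = M := by simp [cof, hM]
    have h1 : ∀ j : Fin m, cof m y j.succ = M + y j := fun j => by simp [cof, hM]
    rw [h0]
    simp_rw [h1]
    rw [Finset.sum_add_distrib]
    simp
    ring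
  rw [hs]
  refine Fin.cases ?_ (fun j => ?_) i
  · simp [phi, cof, ← hM]
  · simp [phi, cof, ← hM]
    ring

theorem sg_cof_le_add {m : ℕ} (y y' : Fin m → ℝ) (i : Fin (m + 1)) :
    cof m y' i ≤ cof m y i + 2 * ‖y' - y‖ := by
  have hM : (⨆ j : Option (Fin m), j.elim 0 (fun j => - y' j)) ≤
      (⨆ j : Option (Fin m), j.elim 0 (fun j => - y j)) + ‖y' - y‖ := by
    refine ciSup_le fun j => ?_
    cases j with
    | none =>
      have := sg_M_nonneg y
      have := norm_nonneg (y' - y)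
      simp only [Option.elim_none]
      linarith
    | some j =>
      have h1 := sg_neg_le_M y j
      have h2 := norm_le_pi_norm (y' - y) j
      rw [Pi.sub_apply, Real.norm_eq_abs] at h2
      have h3 := abs_le.1 h2
      simp only [Option.elim_some]
      linarith [h3.1]
  unfold cof
  have hn := norm_nonneg (y' - y)
  refine Fin.cases ?_ (fun j => ?_) i
  · simp only [Fin.cases_zero]
    linarith
  · have h2 := norm_le_pi_norm (y' - y) j
    rw [Pi.sub_apply, Real.norm_eq_abs] at h2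
    have h3 := abs_le.1 h2
    simp only [Fin.cases_succ]
    linarith [h3.2]

theorem sg_lab_max {m : ℕ} (y : Fin m → ℝ) (i : Fin (m + 1)) :
    cof m y i ≤ cof m y (lab m y) := (Finite.exists_max (cof m y)).choose_spec i

theorem lab_spec {m : ℕ} {y : Fin m → ℝ} (hy : 1 / 2 ≤ ‖y‖) : ∃ i₀ : Fin (m + 1),
    ∀ y' : Fin m → ℝ, ‖y' - y‖ ≤ 1 / (16 * (m + 1)) → lab m y' ≠ i₀ ∧ 1 / 8 ≤ phi m i₀ y' := by
  obtain ⟨i₀, hi₀⟩ := sg_exists_cof_zero y
  -- a large coefficient
  obtain ⟨i₁, hi₁⟩ : ∃ i₁, 1 / 2 ≤ cof m y i₁ := by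
    by_contra hcon
    push Not at hcon
    have h1 : ‖y‖ < 1 / 2 := by
      rw [pi_norm_lt_iff (by norm_num)]
      intro j
      rw [Real.norm_eq_abs, abs_lt]
      have h0 := hcon 0
      have hj := hcon j.succ
      have h2 := sg_neg_le_M y j
      have h3 := sg_M_nonneg y
      simp only [cof, Fin.cases_zero, Fin.cases_succ, add_zero] at h0 hj
      constructor <;> linarith
    exact absurd hy (not_le.2 h1)
  refine ⟨i₀, fun y' hy' => ?_⟩
  have hm : (0:ℝ) ≤ m := Nat.cast_nonneg m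
  have hb : 1 / (16 * ((m:ℝ) + 1)) ≤ 1 / 16 := by
    apply one_div_le_one_div_of_le (by norm_num)
    linarith
  constructor
  · intro hl
    have h1 := sg_lab_max y' i₁
    rw [hl] at h1
    have h2 := sg_cof_le_add y y' i₀
    have h3 := sg_cof_le_add y' y i₁
    rw [norm_sub_rev] at h3
    rw [hi₀] at h2
    linarith
  · have h1 : 1 / 2 ≤ phi m i₀ y := by
      rw [sg_sum_cof, hi₀]
      have : cof m y i₁ ≤ ∑ j, cof m y j :=
        Finset.single_le_sum (f := cof m y) (fun j _ => sg_cof_nonneg y j) (Finset.mem_univ i₁)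
      linarith
    have h2 := abs_phi_le i₀ (y' - y)
    have h3 : phi m i₀ y' = phi m i₀ y + phi m i₀ (y' - y) := by
      rw [← phi_add]; congr 1; abel
    have h4 : (2 * (m:ℝ) + 1) * ‖y' - y‖ ≤ 1 / 8 := by
      calc (2 * (m:ℝ) + 1) * ‖y' - y‖ ≤ (2 * (m:ℝ) + 1) * (1 / (16 * (m + 1))) :=
            mul_le_mul_of_nonneg_left hy' (by linarith)
        _ ≤ 1 / 8 := by
            rw [mul_one_div, div_le_div_iff₀ (by positivity) (by norm_num)]
            linarith
    have h5 := abs_le.1 (h2.trans h4)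
    rw [h3]
    linarith [h5.1]

/-! ### the Duffy map -/

theorem sg_duffy_sum {k : ℕ} (s : Fin k → ℝ) : ∑ a, duffy k s a = 1 := by
  induction k with
  | zero => simp [duffy]
  | succ k ih =>
    rw [Fin.sum_univ_succ]
    simp only [duffy, Fin.cons_zero, Fin.cons_succ, Pi.smul_apply, smul_eq_mul]
    rw [← Finset.mul_sum, ih]
    ring

/-- `Fin.tail` as a continuous linear map -/
noncomputable def sgTail (k : ℕ) : (Fin (k + 1) → ℝ) →L[ℝ] (Fin k → ℝ) :=
  ContinuousLinearMap.pi fun i => ContinuousLinearMap.proj i.succ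

theorem sg_duffy_diff {k : ℕ} (a : Fin (k + 1)) : Differentiable ℝ fun s => duffy k s a := by
  induction k with
  | zero => simp only [duffy]; exact differentiable_const _
  | succ k ih =>
    refine Fin.cases ?_ (fun a => ?_) a
    · simp only [duffy, Fin.cons_zero]
      exact (differentiable_const _).sub (differentiable_apply 0)
    · simp only [duffy, Fin.cons_succ, Pi.smul_apply, smul_eq_mul]
      exact (differentiable_apply 0).mul ((ih a).comp (sgTail k).differentiable)

/-- partial derivatives of the Duffy map -/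
noncomputable def sgD (k : ℕ) (s : Fin k → ℝ) (a : Fin (k + 1)) (j : Fin k) : ℝ :=
  fderiv ℝ (fun s => duffy k s a) s (Pi.single j 1)

theorem sg_D_sum {k : ℕ} (s : Fin k → ℝ) (j : Fin k) : ∑ a, sgD k s a j = 0 := by
  have h1 : fderiv ℝ (fun s => ∑ a, duffy k s a) s = ∑ a, fderiv ℝ (fun s => duffy k s a) s := by
    rw [fderiv_fun_sum fun a _ => (sg_duffy_diff a).differentiableAt]
  have h2 : (fun s : Fin k → ℝ => ∑ a, duffy k s a) = fun _ => 1 := funext sg_duffy_sum
  rw [h2, fderiv_const_apply] at h1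
  have h3 := congrArg (fun L : (Fin k → ℝ) →L[ℝ] ℝ => L (Pi.single j 1)) h1
  simp only [zero_apply, sum_apply] at h3
  exact h3.symm

theorem sg_D_zero {k : ℕ} (s : Fin (k + 1) → ℝ) (j : Fin (k + 1)) :
    sgD (k + 1) s 0 j = - (Pi.single (M := fun _ => ℝ) j 1 : Fin (k + 1) → ℝ) 0 := by
  unfold sgD
  have h : HasFDerivAt (fun s : Fin (k + 1) → ℝ => duffy (k + 1) s 0)
      (- (ContinuousLinearMap.proj 0 : (Fin (k + 1) → ℝ) →L[ℝ] ℝ)) s := by
    simp only [duffy, Fin.cons_zero]
    have := ((ContinuousLinearMap.proj 0 : (Fin (k + 1) → ℝ) →L[ℝ] ℝ).hasFDerivAt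
      (x := s)).const_sub 1
    exact this
  rw [h.fderiv]
  simp

theorem sg_D_succ {k : ℕ} (s : Fin (k + 1) → ℝ) (a : Fin (k + 1)) (j : Fin (k + 1)) :
    sgD (k + 1) s a.succ j = Fin.cases (duffy k (Fin.tail s) a)
      (fun j => s 0 * sgD k (Fin.tail s) a j) j := by
  have h1 : HasFDerivAt (fun s : Fin (k + 1) → ℝ => duffy k (Fin.tail s) a)
      ((fderiv ℝ (fun s => duffy k s a) (Fin.tail s)).comp (sgTail k)) s :=
    (sg_duffy_diff a).differentiableAt.hasFDerivAt.comp s (sgTail k).hasFDerivAt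
  have h0 : HasFDerivAt (fun s : Fin (k + 1) → ℝ => s 0)
      (ContinuousLinearMap.proj 0 : (Fin (k + 1) → ℝ) →L[ℝ] ℝ) s :=
    (ContinuousLinearMap.proj 0 : (Fin (k + 1) → ℝ) →L[ℝ] ℝ).hasFDerivAt
  have h2 : HasFDerivAt (fun s : Fin (k + 1) → ℝ => s 0 * duffy k (Fin.tail s) a) _ s :=
    h0.mul h1
  have h3 : (fun s : Fin (k + 1) → ℝ => duffy (k + 1) s a.succ) =
      fun s => s 0 * duffy k (Fin.tail s) a := by
    funext s
    simp [duffy]
  unfold sgD
  rw [h3, h2.fderiv]
  refine Fin.cases ?_ (fun j => ?_) j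
  · have ht : sgTail k (Pi.single 0 1) = 0 := by
      funext i
      simp [sgTail]
    simp [ht]
  · have ht : sgTail k (Pi.single j.succ 1) = Pi.single j 1 := by
      funext i
      simp [sgTail, Pi.single_apply]
    simp [ht]

/-- the extended derivative matrix of the Duffy map -/
noncomputable def sgM (k : ℕ) (s : Fin k → ℝ) : Matrix (Fin (k + 1)) (Fin (k + 1)) ℝ :=
  Matrix.of fun a b => Fin.cases (motive := fun _ => ℝ) (duffy k s a) (fun j => sgD k s a j) b

theorem sg_det_M_succ {k : ℕ} (s : Fin (k + 1) → ℝ) :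
    (sgM (k + 1) s).det = s 0 ^ k * (sgM k (Fin.tail s)).det := by
  have hne : (0 : Fin (k + 2)) ≠ 1 := by simp
  rw [← Matrix.det_updateCol_add_smul_self (sgM (k + 1) s) hne (-(s 0)),
    Matrix.det_succ_column_zero, Fin.sum_univ_succ]
  have hzero : ∀ i : Fin (k + 1), ((sgM (k + 1) s).updateCol 0 fun a =>
      sgM (k + 1) s a 0 + -(s 0) • sgM (k + 1) s a 1) i.succ 0 = 0 := by
    intro i
    have h1 : (1 : Fin (k + 2)) = Fin.succ 0 := rfl
    simp only [Matrix.updateCol_self, sgM, Matrix.of_apply, h1, Fin.cases_zero, Fin.cases_succ]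
    rw [sg_D_succ]
    simp [duffy]
  have hone : ((sgM (k + 1) s).updateCol 0 fun a =>
      sgM (k + 1) s a 0 + -(s 0) • sgM (k + 1) s a 1) 0 0 = 1 := by
    have h1 : (1 : Fin (k + 2)) = Fin.succ 0 := rfl
    simp only [Matrix.updateCol_self, sgM, Matrix.of_apply, h1, Fin.cases_zero, Fin.cases_succ]
    rw [sg_D_zero]
    simp [duffy]
  rw [hone]
  have hsum : (∑ i : Fin (k + 1), (-1 : ℝ) ^ (i.succ : ℕ) * ((sgM (k + 1) s).updateCol 0 fun a =>
      sgM (k + 1) s a 0 + -(s 0) • sgM (k + 1) s a 1) i.succ 0 *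
      (Matrix.submatrix ((sgM (k + 1) s).updateCol 0 fun a =>
      sgM (k + 1) s a 0 + -(s 0) • sgM (k + 1) s a 1) i.succ.succAbove Fin.succ).det) = 0 :=
    Finset.sum_eq_zero fun i _ => by rw [hzero]; simp
  rw [hsum]
  have hsub : Matrix.submatrix ((sgM (k + 1) s).updateCol 0 fun a =>
      sgM (k + 1) s a 0 + -(s 0) • sgM (k + 1) s a 1) (Fin.succAbove 0) Fin.succ =
      Matrix.of fun a b => (Fin.cases (motive := fun _ => ℝ) 1 (fun _ => s 0) b : ℝ) *
        sgM k (Fin.tail s) a b := by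
    ext a b
    simp only [Matrix.submatrix_apply, Fin.succAbove_zero, Matrix.of_apply]
    rw [Matrix.updateCol_ne (Fin.succ_ne_zero b)]
    refine Fin.cases ?_ (fun j => ?_) b
    · simp only [sgM, Matrix.of_apply, Fin.cases_succ, Fin.cases_zero, sg_D_succ, one_mul]
    · simp only [sgM, Matrix.of_apply, Fin.cases_succ, sg_D_succ]
  rw [hsub, Matrix.det_mul_row, Fin.prod_univ_succ]
  simp

theorem sg_det_M_pos {k : ℕ} (s : Fin k → ℝ) (hs : ∀ i, 0 < s i) : 0 < (sgM k s).det := by
  induction k with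
  | zero =>
    simp [sgM, duffy]
  | succ k ih =>
    rw [sg_det_M_succ]
    exact mul_pos (pow_pos (hs 0) k) (ih _ fun i => hs i.succ)

/-- the matrix of the vertices, bordered by ones -/
noncomputable def sgN (m : ℕ) (l : Fin (m + 1) → Fin (m + 1)) :
    Matrix (Fin (m + 1)) (Fin (m + 1)) ℝ :=
  Matrix.of fun i a => Fin.cases (motive := fun _ => ℝ) 1 (fun i => ev m (l a) i) i

theorem sg_jac {k : ℕ} (l : Fin (k + 2) → Fin (k + 2)) (s : Fin (k + 1) → ℝ) :
    jac (fun i s => lam l (duffy (k + 1) s) i) s = (sgN (k + 1) l).det * (sgM (k + 1) s).det := by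
  rw [← Matrix.det_mul, Matrix.det_succ_row_zero, Fin.sum_univ_succ]
  have h0 : (sgN (k + 1) l * sgM (k + 1) s) 0 0 = 1 := by
    simp only [Matrix.mul_apply, sgN, sgM, Matrix.of_apply, Fin.cases_zero, one_mul]
    exact sg_duffy_sum s
  have h1 : ∀ j : Fin (k + 1), (sgN (k + 1) l * sgM (k + 1) s) 0 j.succ = 0 := by
    intro j
    simp only [Matrix.mul_apply, sgN, sgM, Matrix.of_apply, Fin.cases_zero, Fin.cases_succ,
      one_mul]
    exact sg_D_sum s j
  have hsum : (∑ i : Fin (k + 1), (-1 : ℝ) ^ (i.succ : ℕ) *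
      (sgN (k + 1) l * sgM (k + 1) s) 0 i.succ *
      (Matrix.submatrix (sgN (k + 1) l * sgM (k + 1) s) Fin.succ i.succ.succAbove).det) = 0 :=
    Finset.sum_eq_zero fun i _ => by rw [h1]; simp
  rw [hsum, h0]
  simp only [Fin.val_zero, pow_zero, one_mul, add_zero]
  unfold jac
  congr 1
  ext i j
  simp only [Matrix.of_apply, Matrix.submatrix_apply, Fin.succAbove_zero, Matrix.mul_apply]
  have hd : HasFDerivAt (fun s => lam l (duffy (k + 1) s) i)
      (∑ a, (ev (k + 1) (l a) i) • fderiv ℝ (fun s => duffy (k + 1) s a) s) s := by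
    have h2 : (fun s => lam l (duffy (k + 1) s) i) =
        fun s => ∑ a, ev (k + 1) (l a) i * duffy (k + 1) s a := by
      funext s
      simp only [lam, Finset.sum_apply, Pi.smul_apply, smul_eq_mul]
      exact Finset.sum_congr rfl fun a _ => mul_comm _ _
    rw [h2]
    refine HasFDerivAt.fun_sum fun a _ => ?_
    exact ((sg_duffy_diff a).differentiableAt.hasFDerivAt).const_mul _
  rw [hd.fderiv]
  simp only [sum_apply, smul_apply, smul_eq_mul]
  rfl

theorem sg_lam_eq {m : ℕ} (l : Fin (m + 1) → Fin (m + 1)) (x : Fin (m + 1) → ℝ) :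
    Matrix.mulVec (sgN m l) x = Fin.cons (∑ a, x a) (lam l x) := by
  funext i
  refine Fin.cases ?_ (fun i => ?_) i
  · simp [Matrix.mulVec, dotProduct, sgN]
  · simp only [Matrix.mulVec, dotProduct, sgN, Matrix.of_apply, Fin.cases_succ, Fin.cons_succ, lam,
      Finset.sum_apply, Pi.smul_apply, smul_eq_mul]
    exact Finset.sum_congr rfl fun a _ => mul_comm _ _

theorem sg_det_N_id (m : ℕ) : (sgN m id).det ≠ 0 := by
  intro h
  obtain ⟨v, hv, h0⟩ := Matrix.exists_mulVec_eq_zero_iff.2 h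
  rw [sg_lam_eq] at h0
  have hs : ∑ a, v a = 0 := by simpa using congrFun h0 0
  have hj : ∀ j : Fin m, v j.succ = v 0 := by
    intro j
    have h1 := congrFun h0 j.succ
    simp only [Fin.cons_succ, lam, Finset.sum_apply, Pi.smul_apply, smul_eq_mul, id, Pi.zero_apply]
      at h1
    rw [Fin.sum_univ_succ] at h1
    have h2 : ∑ i : Fin m, v i.succ * ev m i.succ j = v j.succ := by
      rw [Finset.sum_eq_single j]
      · simp [ev]
      · intro b _ hb
        simp [ev, Ne.symm hb]
      · simp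
    rw [h2] at h1
    simp only [ev, Fin.cases_zero] at h1
    linarith
  apply hv
  rw [Fin.sum_univ_succ] at hs
  simp_rw [hj] at hs
  simp only [Finset.sum_const, Finset.card_univ, Fintype.card_fin, nsmul_eq_mul] at hs
  have hm : (0:ℝ) ≤ m := Nat.cast_nonneg m
  have h00 : v 0 = 0 := by
    have : ((m:ℝ) + 1) * v 0 = 0 := by linarith
    rcases mul_eq_zero.1 this with h | h
    · linarith
    · exact h
  funext i
  refine Fin.cases ?_ (fun j => ?_) i
  · simpa using h00
  · rw [hj j, h00]; rfl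

theorem sg_det_N {m : ℕ} (l : Fin (m + 1) → Fin (m + 1)) :
    (sgN m l).det = (csgn l : ℝ) * (sgN m id).det := by
  have hsub : sgN m l = (sgN m id).submatrix id l := by
    ext i a
    simp [sgN]
  rw [hsub]
  unfold csgn
  split_ifs with h
  · have := Matrix.det_permute' (Equiv.ofBijective l h) (sgN m id)
    exact this
  · have hinj : ¬ Function.Injective l := fun hi => h (Finite.injective_iff_bijective.1 hi)
    rw [Function.not_injective_iff] at hinj
    obtain ⟨a, b, hab, hne⟩ := hinj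
    rw [Matrix.det_zero_of_column_eq hne (fun i => by simp [hab])]
    simp

/-! ### the open cube -/

theorem sg_duffy_pos {k : ℕ} {s : Fin k → ℝ} (hs : ∀ i, s i ∈ Ioo (0:ℝ) 1) (a : Fin (k + 1)) :
    0 < duffy k s a := by
  induction k with
  | zero => simp [duffy]
  | succ k ih =>
    refine Fin.cases ?_ (fun a => ?_) a
    · simp only [duffy, Fin.cons_zero]
      linarith [(hs 0).2]
    · simp only [duffy, Fin.cons_succ, Pi.smul_apply, smul_eq_mul]
      exact mul_pos (hs 0).1 (ih (fun i => hs i.succ) a)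

theorem sg_duffy_inj {k : ℕ} {s t : Fin k → ℝ} (hs : ∀ i, s i ∈ Ioo (0:ℝ) 1)
    (ht : ∀ i, t i ∈ Ioo (0:ℝ) 1) (h : duffy k s = duffy k t) : s = t := by
  induction k with
  | zero => exact Subsingleton.elim _ _
  | succ k ih =>
    have h0 : s 0 = t 0 := by
      have := congrFun h 0
      simp only [duffy, Fin.cons_zero] at this
      linarith
    have h1 : duffy k (Fin.tail s) = duffy k (Fin.tail t) := by
      funext a
      have := congrFun h a.succ
      simp only [duffy, Fin.cons_succ, Pi.smul_apply, smul_eq_mul, h0] at this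
      exact mul_left_cancel₀ (ht 0).1.ne' this
    have h2 := ih (fun i => hs i.succ) (fun i => ht i.succ) h1
    funext i
    refine Fin.cases h0 (fun i => ?_) i
    exact congrFun h2 i

theorem sg_duffy_surj {k : ℕ} (x : Fin (k + 1) → ℝ) (hx : ∀ a, 0 < x a) (hs : ∑ a, x a = 1) :
    ∃ s : Fin k → ℝ, (∀ i, s i ∈ Ioo (0:ℝ) 1) ∧ duffy k s = x := by
  induction k with
  | zero =>
    refine ⟨0, fun i => i.elim0, ?_⟩
    funext a
    have ha : a = 0 := Fin.fin_one_eq_zero a
    subst ha
    simpa [duffy] using hs.symm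
  | succ k ih =>
    rw [Fin.sum_univ_succ] at hs
    have hpos : 0 < ∑ a : Fin (k + 1), x a.succ :=
      Finset.sum_pos (fun a _ => hx a.succ) Finset.univ_nonempty
    have hx0 : x 0 < 1 := by linarith
    have hc : 0 < 1 - x 0 := by linarith
    obtain ⟨s, hs1, hs2⟩ := ih (fun a => x a.succ / (1 - x 0)) (fun a => div_pos (hx a.succ) hc) (by
      rw [← Finset.sum_div, div_eq_one_iff_eq hc.ne']
      linarith)
    refine ⟨Fin.cons (1 - x 0) s, ?_, ?_⟩
    · intro i
      refine Fin.cases ?_ (fun i => ?_) i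
      · simp only [Fin.cons_zero]
        exact ⟨hc, by linarith [hx 0]⟩
      · simp only [Fin.cons_succ]
        exact hs1 i
    · funext a
      refine Fin.cases ?_ (fun a => ?_) a
      · simp [duffy]
      · simp only [duffy, Fin.cons_zero, Fin.cons_succ, Pi.smul_apply, smul_eq_mul, Fin.tail_cons,
          hs2]
        field_simp

theorem sg_mem_simplex {m : ℕ} (v : Fin m → ℝ) (hv : ‖v‖ < rB m) (e : Fin (m + 1) ≃ Fin (m + 1)) :
    ∃ x : Fin (m + 1) → ℝ, (∀ a, 0 < x a) ∧ ∑ a, x a = 1 ∧ lam e x = v := by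
  have hm : (0:ℝ) ≤ m := Nat.cast_nonneg m
  have hm1 : (0:ℝ) < m + 1 := by linarith
  let β : Fin (m + 1) → ℝ := fun j => (1 - phi m j v) / (m + 1)
  have hβ0 : β 0 = (1 - ∑ j, v j) / (m + 1) := by simp [β, phi]
  have hβs : ∀ j : Fin m, β j.succ = β 0 + v j := by
    intro j
    rw [hβ0]
    simp only [β, phi, Fin.cases_succ]
    field_simp
    ring
  have hpos : ∀ j, 0 < β j := by
    intro j
    apply div_pos _ hm1
    have h1 := abs_phi_le j v
    have h2 : (2 * (m:ℝ) + 1) * ‖v‖ < 1 := by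
      have h3 : (2 * (m:ℝ) + 1) * ‖v‖ < (2 * (m:ℝ) + 1) * rB m :=
        mul_lt_mul_of_pos_left hv (by linarith)
      have h4 : (2 * (m:ℝ) + 1) * rB m ≤ 1 := by
        unfold rB
        rw [mul_one_div, div_le_one (by positivity)]
        linarith
      linarith
    have h5 := (abs_lt.1 (h1.trans_lt h2)).2
    linarith
  refine ⟨β ∘ e, fun a => hpos _, ?_, ?_⟩
  · have h0 : ∑ a, (β ∘ e) a = ∑ a, β a := Equiv.sum_comp e β
    rw [h0, Fin.sum_univ_succ]
    simp_rw [hβs]
    rw [Finset.sum_add_distrib, hβ0]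
    simp only [Finset.sum_const, Finset.card_univ, Fintype.card_fin, nsmul_eq_mul]
    field_simp
    ring
  · have h1 : lam e (β ∘ e) = ∑ i, β i • ev m i := by
      unfold lam
      exact Equiv.sum_comp e (fun i => β i • ev m i)
    rw [h1, Fin.sum_univ_succ]
    funext j
    simp only [Pi.add_apply, Pi.smul_apply, Finset.sum_apply, smul_eq_mul]
    have h2 : ∑ i : Fin m, β i.succ * ev m i.succ j = β j.succ := by
      rw [Finset.sum_eq_single j]
      · simp [ev]
      · intro b _ hb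
        simp [ev, Ne.symm hb]
      · simp
    rw [h2, hβs]
    simp [ev]

theorem exists_sign (k : ℕ) : ∃ s0 : ℤ, (s0 = 1 ∨ s0 = -1) ∧
    ∀ (l : Fin (k + 2) → Fin (k + 2)) (ρ : (Fin (k + 1) → ℝ) → ℝ), Continuous ρ →
      (∀ v, ρ v ≠ 0 → ‖v‖ < rB (k + 1)) →
      ∫ s in Icc (0 : Fin (k + 1) → ℝ) 1, ρ (lam l (duffy (k + 1) s)) *
        jac (fun i s => lam l (duffy (k + 1) s) i) s = s0 * csgn l * ∫ v, ρ v := by
  have hd := sg_det_N_id (k + 1)
  set δ := (sgN (k + 1) id).det with hδ
  refine ⟨if 0 < δ then 1 else -1, by split_ifs <;> simp, ?_⟩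
  intro l ρ hρ hρs
  have hsδ : (((if 0 < δ then 1 else -1 : ℤ) : ℤ) : ℝ) * |δ| = δ := by
    split_ifs with h
    · rw [abs_of_pos h]; simp
    · rw [abs_of_neg (lt_of_le_of_ne (not_lt.1 h) hd)]; simp
  by_cases hl : Function.Bijective l
  swap
  · have h0 : csgn l = 0 := by unfold csgn; rw [dif_neg hl]
    rw [h0]
    have : ∀ s, jac (fun i s => lam l (duffy (k + 1) s) i) s = 0 := by
      intro s
      rw [sg_jac, sg_det_N, h0]
      simp
    simp [this]
  -- the bijective case
  set e := Equiv.ofBijective l hl with he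
  have hle : lam l = lam e := rfl
  set Ψ : (Fin (k + 1) → ℝ) → (Fin (k + 1) → ℝ) := fun s => lam l (duffy (k + 1) s) with hΨ
  have hcs : (csgn l : ℝ) = (Equiv.Perm.sign e : ℤ) := by
    unfold csgn
    rw [dif_pos hl]
  have hcs1 : |(csgn l : ℝ)| = 1 := by
    rw [hcs]
    rcases Int.units_eq_one_or (Equiv.Perm.sign e) with h | h <;> rw [h] <;> simp
  have hcs2 : (csgn l : ℝ) * (csgn l : ℝ) = 1 := by
    rw [← abs_mul_abs_self, hcs1, one_mul]
  set O : Set (Fin (k + 1) → ℝ) := Set.pi univ fun _ => Ioo (0:ℝ) 1 with hO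
  have hOm : MeasurableSet O := MeasurableSet.univ_pi fun _ => measurableSet_Ioo
  have hae : (Icc (0 : Fin (k + 1) → ℝ) 1) =ᵐ[volume] O :=
    (MeasureTheory.Measure.univ_pi_Ioo_ae_eq_Icc (μ := fun _ : Fin (k + 1) => (volume : Measure ℝ))
      (f := (0 : Fin (k + 1) → ℝ)) (g := 1)).symm
  have hΨd : Differentiable ℝ Ψ := by
    rw [differentiable_pi]
    intro i
    have h2 : (fun s => Ψ s i) = fun s => ∑ a, duffy (k + 1) s a * ev (k + 1) (l a) i := by
      funext s
      simp [hΨ, lam, Finset.sum_apply]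
    rw [h2]
    exact Differentiable.fun_sum fun a _ => (sg_duffy_diff a).mul_const _
  have hdet : ∀ s, (fderiv ℝ Ψ s).det = jac (fun i s => lam l (duffy (k + 1) s) i) s := by
    intro s
    rw [ContinuousLinearMap.det, ← LinearMap.det_toMatrix']
    unfold jac
    congr 1
    ext i j
    rw [LinearMap.toMatrix'_apply, Matrix.of_apply]
    have h1 : HasFDerivAt (fun s => Ψ s i)
        ((ContinuousLinearMap.proj i : (Fin (k + 1) → ℝ) →L[ℝ] ℝ).comp (fderiv ℝ Ψ s)) s :=
      (ContinuousLinearMap.proj i : (Fin (k + 1) → ℝ) →L[ℝ] ℝ).hasFDerivAt.comp s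
        (hΨd s).hasFDerivAt
    change (fderiv ℝ Ψ s) (Pi.single j 1) i = fderiv ℝ (fun s => Ψ s i) s (Pi.single j 1)
    rw [h1.fderiv]
    rfl
  have hjac : ∀ s ∈ O, jac (fun i s => lam l (duffy (k + 1) s) i) s =
      ((if 0 < δ then 1 else -1 : ℤ) : ℝ) * csgn l * |(fderiv ℝ Ψ s).det| := by
    intro s hs
    have hp := sg_det_M_pos s fun i => (hs i (mem_univ i)).1
    rw [hdet, sg_jac, sg_det_N, ← hδ, abs_mul, abs_mul, hcs1, one_mul, abs_of_pos hp]
    calc (csgn l : ℝ) * δ * (sgM (k + 1) s).det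
        = csgn l * ((((if 0 < δ then 1 else -1 : ℤ) : ℤ) : ℝ) * |δ|) * (sgM (k + 1) s).det := by
          rw [hsδ]
      _ = _ := by ring
  have hinj : InjOn Ψ O := by
    intro s hs t ht hst
    have h1 : Matrix.mulVec (sgN (k + 1) l) (duffy (k + 1) s) =
        Matrix.mulVec (sgN (k + 1) l) (duffy (k + 1) t) := by
      rw [sg_lam_eq, sg_lam_eq, sg_duffy_sum, sg_duffy_sum]
      exact congrArg _ hst
    have hdl : (sgN (k + 1) l).det ≠ 0 := by
      rw [sg_det_N]
      refine mul_ne_zero ?_ hd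
      intro h
      rw [h] at hcs1
      simp at hcs1
    have h2 : duffy (k + 1) s = duffy (k + 1) t := by
      have hu : IsUnit (sgN (k + 1) l) := (Matrix.isUnit_iff_isUnit_det _).2 (isUnit_iff_ne_zero.2 hdl)
      exact Matrix.mulVec_injective_iff_isUnit.2 hu h1
    exact sg_duffy_inj (fun i => hs i (mem_univ i)) (fun i => ht i (mem_univ i)) h2
  have himg : ∀ v, ρ v ≠ 0 → v ∈ Ψ '' O := by
    intro v hv
    obtain ⟨x, hx, hsum, hlam⟩ := sg_mem_simplex v (hρs v hv) e
    obtain ⟨s, hs, hds⟩ := sg_duffy_surj x hx hsum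
    exact ⟨s, fun i _ => hs i, by simp only [hΨ]; rw [hds]; exact hlam⟩
  rw [setIntegral_congr_set hae]
  have h1 : ∫ s in O, ρ (lam l (duffy (k + 1) s)) *
      jac (fun i s => lam l (duffy (k + 1) s) i) s =
      ∫ s in O, (((if 0 < δ then 1 else -1 : ℤ) : ℝ) * csgn l) *
        (|(fderiv ℝ Ψ s).det| • ρ (Ψ s)) := by
    refine setIntegral_congr_fun hOm fun s hs => ?_
    simp only [hjac s hs, smul_eq_mul]
    ring
  rw [h1, integral_const_mul, ← integral_image_eq_integral_abs_det_fderiv_smul volume hOm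
    (fun s _ => hΨd.differentiableAt.hasFDerivAt.hasFDerivWithinAt) hinj ρ]
  congr 1
  rw [setIntegral_eq_integral_of_forall_compl_eq_zero]
  intro v hv
  by_contra h
  exact hv (himg v h)

/-- the chosen sign -/
noncomputable def sgn0 (k : ℕ) : ℤ := (exists_sign k).choose

end MP629748

end part4

section part5

/-!
# P8 (Algebra): extension of integral homomorphisms (helper72)
-/

open Set Filter Topology

namespace MP629748

universe u

/-! ### submodules of free `ℤ`-modules are free -/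

section freeSub

variable {I : Type*} [LinearOrder I] [WellFoundedLT I] (N : Submodule ℤ (I →₀ ℤ))

/-- the ideal of leading coefficients at `i` -/
def leadIdeal (i : I) : Ideal ℤ where
  carrier := {a | ∃ x ∈ N, (∀ j, i < j → x j = 0) ∧ x i = a}
  add_mem' := by
    rintro a b ⟨x, hx, hx1, rfl⟩ ⟨y, hy, hy1, rfl⟩
    exact ⟨x + y, N.add_mem hx hy, fun j hj => by simp [hx1 j hj, hy1 j hj], by simp⟩
  zero_mem' := ⟨0, N.zero_mem, by simp, by simp⟩
  smul_mem' := by
    rintro c a ⟨x, hx, hx1, rfl⟩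
    exact ⟨c • x, N.smul_mem c hx, fun j hj => by simp [hx1 j hj], by simp⟩

/-- generator of the ideal of leading coefficients -/
noncomputable def leadGen (i : I) : ℤ := Submodule.IsPrincipal.generator (leadIdeal N i)

theorem leadGen_mem (i : I) : ∃ x ∈ N, (∀ j, i < j → x j = 0) ∧ x i = leadGen N i :=
  Submodule.IsPrincipal.generator_mem (leadIdeal N i)

theorem leadGen_dvd {i : I} {x : I →₀ ℤ} (hx : x ∈ N) (h : ∀ j, i < j → x j = 0) :
    leadGen N i ∣ x i := by
  have h1 : x i ∈ leadIdeal N i := ⟨x, hx, h, rfl⟩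
  exact (Submodule.IsPrincipal.mem_iff_generator_dvd (leadIdeal N i)).1 h1

/-- the chosen element with leading coefficient at `i` -/
noncomputable def leadElt (i : I) : N := ⟨(leadGen_mem N i).choose, (leadGen_mem N i).choose_spec.1⟩

theorem leadElt_zero {i j : I} (h : i < j) : (leadElt N i : I →₀ ℤ) j = 0 :=
  (leadGen_mem N i).choose_spec.2.1 j h

theorem leadElt_self (i : I) : (leadElt N i : I →₀ ℤ) i = leadGen N i :=
  (leadGen_mem N i).choose_spec.2.2

theorem lead_linearIndependent :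
    LinearIndependent ℤ (fun i : {i : I // leadGen N i ≠ 0} => leadElt N i) := by
  rw [linearIndependent_iff]
  intro l hl
  by_contra hne
  have hs : l.support.Nonempty := Finsupp.support_nonempty_iff.2 hne
  set m := l.support.max' hs with hm
  have hmem : m ∈ l.support := Finset.max'_mem _ hs
  have h1 : ((Finsupp.linearCombination ℤ (fun i : {i : I // leadGen N i ≠ 0} => leadElt N i.1) l :
      N) : I →₀ ℤ) m.1 = 0 := by rw [hl]; rfl
  rw [Finsupp.linearCombination_apply, Finsupp.sum] at h1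
  have h2 : ((∑ i ∈ l.support, l i • leadElt N i.1 : N) : I →₀ ℤ) m.1 =
      ∑ i ∈ l.support, l i * (leadElt N i.1 : I →₀ ℤ) m.1 := by
    rw [Submodule.coe_sum, Finsupp.finsetSum_apply]
    rfl
  rw [h2, Finset.sum_eq_single m] at h1
  · rw [leadElt_self] at h1
    rcases mul_eq_zero.1 h1 with h3 | h3
    · exact Finsupp.mem_support_iff.1 hmem h3
    · exact m.2 h3
  · intro i hi him
    have hlt : i < m := lt_of_le_of_ne (Finset.le_max' _ i hi) him
    rw [leadElt_zero N (show i.1 < m.1 from hlt), mul_zero]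
  · intro h; exact absurd hmem h

theorem lead_span_aux (i : I) : ∀ x : N, (∀ j, i < j → (x : I →₀ ℤ) j = 0) →
    x ∈ Submodule.span ℤ (Set.range (fun i : {i : I // leadGen N i ≠ 0} => leadElt N i)) := by
  induction i using WellFoundedLT.induction with
  | ind i ih =>
  intro x hx
  have key : ∀ y : N, (∀ j, i ≤ j → (y : I →₀ ℤ) j = 0) →
      y ∈ Submodule.span ℤ (Set.range (fun i : {i : I // leadGen N i ≠ 0} => leadElt N i)) := by
    intro y hy
    by_cases h0 : (y : I →₀ ℤ) = 0
    · have : y = 0 := Subtype.ext h0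
      rw [this]; exact Submodule.zero_mem _
    have hs : (y : I →₀ ℤ).support.Nonempty := Finsupp.support_nonempty_iff.2 h0
    set m := (y : I →₀ ℤ).support.max' hs with hm
    have hmem : m ∈ (y : I →₀ ℤ).support := Finset.max'_mem _ hs
    have hmi : m < i := by
      by_contra h
      exact Finsupp.mem_support_iff.1 hmem (hy m (not_lt.1 h))
    apply ih m hmi y
    intro j hj
    by_contra h
    exact absurd (Finset.le_max' _ j (Finsupp.mem_support_iff.2 h)) (not_le.2 hj)
  obtain ⟨c, hc⟩ := leadGen_dvd N x.2 hx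
  have hxe : x = (x - c • leadElt N i) + c • leadElt N i := by abel
  rw [hxe]
  apply Submodule.add_mem
  · apply key
    intro j hj
    have h3 : ((x - c • leadElt N i : N) : I →₀ ℤ) j =
        (x : I →₀ ℤ) j - c * (leadElt N i : I →₀ ℤ) j := by
      simp
    rw [h3]
    rcases hj.eq_or_lt with rfl | hj
    · rw [leadElt_self, hc]; ring
    · rw [hx j hj, leadElt_zero N hj]; ring
  · by_cases hg : leadGen N i = 0
    · have h4 : c • leadElt N i ∈ Submodule.span ℤ
          (Set.range (fun i : {i : I // leadGen N i ≠ 0} => leadElt N i)) := by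
        apply key
        intro j hj
        have h3 : ((c • leadElt N i : N) : I →₀ ℤ) j = c * (leadElt N i : I →₀ ℤ) j := by simp
        rw [h3]
        rcases hj.eq_or_lt with rfl | hj
        · rw [leadElt_self, hg]; ring
        · rw [leadElt_zero N hj]; ring
      exact h4
    · exact Submodule.smul_mem _ _ (Submodule.subset_span ⟨⟨i, hg⟩, rfl⟩)

theorem lead_span : ⊤ ≤ Submodule.span ℤ
    (Set.range (fun i : {i : I // leadGen N i ≠ 0} => leadElt N i)) := by
  intro x _
  by_cases h0 : (x : I →₀ ℤ) = 0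
  · have : x = 0 := Subtype.ext h0
    rw [this]; exact Submodule.zero_mem _
  have hs : (x : I →₀ ℤ).support.Nonempty := Finsupp.support_nonempty_iff.2 h0
  refine lead_span_aux N ((x : I →₀ ℤ).support.max' hs) x ?_
  intro j hj
  by_contra h
  exact absurd (Finset.le_max' _ j (Finsupp.mem_support_iff.2 h)) (not_le.2 hj)

theorem free_submodule_finsupp : Module.Free ℤ N :=
  Module.Free.of_basis (Module.Basis.mk (lead_linearIndependent N) (lead_span N))

end freeSub

/-- A submodule of a free `ℤ`-module (of any rank) is free. -/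
theorem free_submodule {M : Type*} [AddCommGroup M] [Module.Free ℤ M] (N : Submodule ℤ M) :
    Module.Free ℤ N := by
  classical
  let B := Module.Free.chooseBasis ℤ M
  let _ : LinearOrder (Module.Free.ChooseBasisIndex ℤ M) := linearOrderOfSTO WellOrderingRel
  have _ : WellFoundedLT (Module.Free.ChooseBasisIndex ℤ M) :=
    ⟨(inferInstance : IsWellOrder (Module.Free.ChooseBasisIndex ℤ M) WellOrderingRel).wf⟩
  have _ := free_submodule_finsupp (N.map B.repr.toLinearMap)
  exact Module.Free.of_equiv (N.equivMapOfInjective B.repr.toLinearMap B.repr.injective).symm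

/-! ### the value of a bounded function at an ultrafilter -/

section ultra

variable {S : Type u} (F : Filter S)

/-- the ultrafilters finer than `F` -/
def UF : Type u := {U : Ultrafilter S // (U : Filter S) ≤ F}

instance : TopologicalSpace (UF F) := inferInstanceAs (TopologicalSpace {_U : Ultrafilter S // _})
instance : T2Space (UF F) := inferInstanceAs (T2Space {_U : Ultrafilter S // _})
instance : TotallyDisconnectedSpace (UF F) :=
  inferInstanceAs (TotallyDisconnectedSpace {_U : Ultrafilter S // _})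

theorem isClosed_UF : IsClosed {U : Ultrafilter S | (U : Filter S) ≤ F} := by
  have : {U : Ultrafilter S | (U : Filter S) ≤ F} = ⋂ s ∈ F, {U : Ultrafilter S | s ∈ U} := by
    ext U
    simp only [mem_iInter]
    rfl
  rw [this]
  exact isClosed_biInter fun s _ => ultrafilter_isClosed_basic s

instance : CompactSpace (UF F) :=
  isCompact_iff_compactSpace.1 (isClosed_UF F).isCompact

theorem exists_val {f : S → ℤ} (hf : ∃ C : ℤ, ∀ s, |f s| ≤ C) (U : Ultrafilter S) :
    ∃ a : ℤ, ∀ᶠ s in U, f s = a := by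
  obtain ⟨C, hC⟩ := hf
  have h1 : (⋃ a ∈ Set.Icc (-C) C, {s | f s = a}) ∈ U := by
    have : (⋃ a ∈ Set.Icc (-C) C, {s | f s = a}) = univ := by
      ext s
      simp only [mem_iUnion, mem_univ, iff_true]
      exact ⟨f s, Set.mem_Icc.2 (abs_le.1 (hC s)), rfl⟩
    rw [this]; exact Filter.univ_mem
  rw [Ultrafilter.finite_biUnion_mem_iff (Set.finite_Icc _ _)] at h1
  obtain ⟨a, _, ha⟩ := h1
  exact ⟨a, ha⟩

/-- the locally constant function on ultrafilters defined by a bounded function -/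
noncomputable def LC {f : S → ℤ} (hf : ∃ C : ℤ, ∀ s, |f s| ≤ C) : LocallyConstant (UF F) ℤ where
  toFun U := (exists_val hf U.1).choose
  isLocallyConstant := by
    rw [IsLocallyConstant.iff_exists_open]
    intro U
    set a := (exists_val hf U.1).choose with ha
    refine ⟨Subtype.val ⁻¹' {V : Ultrafilter S | {s | f s = a} ∈ V},
      (ultrafilter_isOpen_basic _).preimage continuous_subtype_val,
      (exists_val hf U.1).choose_spec, ?_⟩
    intro V hV
    have h1 : ∀ᶠ s in (V.1 : Filter S), f s = a := hV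
    obtain ⟨s, h2, h3⟩ := (h1.and (exists_val hf V.1).choose_spec).exists
    exact h3.symm.trans h2

theorem LC_spec {f : S → ℤ} (hf : ∃ C : ℤ, ∀ s, |f s| ≤ C) (U : UF F) :
    ∀ᶠ s in (U.1 : Filter S), f s = LC F hf U := (exists_val hf U.1).choose_spec

end ultra

instance free_LC {S : Type u} (F : Filter S) : Module.Free ℤ (LocallyConstant (UF F) ℤ) :=
  LocallyConstant.freeOfProfinite (Profinite.of (UF F))

theorem exists_integral_extension {ι S κ : Type u} (F : Filter S) (χ : ι → S → ℤ)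
    (hχ : ∀ i, ∃ C : ℤ, ∀ s, |χ i s| ≤ C) (D : (ι →₀ ℤ) →+ (κ →₀ ℤ)) (J : (ι →₀ ℤ) →+ ℝ)
    (hJ : ∀ z : ι →₀ ℤ, D z = 0 → (∀ᶠ s in F, (z.sum fun i a => a * χ i s) = 0) →
      ∃ a : ℤ, J z = a) :
    ∃ b : (ι →₀ ℤ) →+ ℤ, ∀ z : ι →₀ ℤ, D z = 0 →
      (∀ᶠ s in F, (z.sum fun i a => a * χ i s) = 0) → (b z : ℝ) = J z := by
  classical
  let φ : (ι →₀ ℤ) →ₗ[ℤ] LocallyConstant (UF F) ℤ :=
    Finsupp.linearCombination ℤ (fun i => LC F (hχ i))
  have hφ : ∀ (z : ι →₀ ℤ) (U : UF F),
      ∀ᶠ s in (U.1 : Filter S), (z.sum fun i a => a * χ i s) = φ z U := by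
    intro z U
    have h1 : ∀ᶠ s in (U.1 : Filter S), ∀ i ∈ z.support, χ i s = LC F (hχ i) U := by
      rw [Filter.eventually_all_finset]
      exact fun i _ => LC_spec F (hχ i) U
    filter_upwards [h1] with s hs
    have h2 : φ z U = ∑ i ∈ z.support, z i * LC F (hχ i) U := by
      simp only [φ, Finsupp.linearCombination_apply, Finsupp.sum]
      rw [← LocallyConstant.coeFnAddMonoidHom_apply, map_sum, Finset.sum_apply]
      rfl
    rw [h2, Finsupp.sum]
    exact Finset.sum_congr rfl fun i hi => by rw [hs i hi]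
  have hker : ∀ z : ι →₀ ℤ, φ z = 0 ↔ ∀ᶠ s in F, (z.sum fun i a => a * χ i s) = 0 := by
    intro z
    constructor
    · intro h
      by_contra hn
      rw [Filter.not_eventually] at hn
      obtain ⟨U, hU⟩ : ∃ U : Ultrafilter S, (U : Filter S) ≤
          F ⊓ 𝓟 {s | ¬ (z.sum fun i a => a * χ i s) = 0} :=
        @Ultrafilter.exists_le _ _ (Filter.frequently_mem_iff_neBot.1 hn)
      have h3 := hφ z ⟨U, hU.trans inf_le_left⟩
      rw [h] at h3
      have h4 : ∀ᶠ s in (U : Filter S), ¬ (z.sum fun i a => a * χ i s) = 0 :=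
        (hU.trans inf_le_right) (mem_principal_self _)
      obtain ⟨s, h5, h6⟩ := (h3.and h4).exists
      exact h6 h5
    · intro h
      ext U
      obtain ⟨s, h5, h6⟩ := ((hφ z U).and (U.2 h)).exists
      rw [← h5, h6]; rfl
  let Ψ : (ι →₀ ℤ) →ₗ[ℤ] LocallyConstant (UF F) ℤ × (κ →₀ ℤ) := φ.prod D.toIntLinearMap
  have _ : Module.Free ℤ (LinearMap.range Ψ) := free_submodule _
  obtain ⟨σ, hσ⟩ := Module.projective_lifting_property Ψ.rangeRestrict
    (LinearMap.id : LinearMap.range Ψ →ₗ[ℤ] LinearMap.range Ψ) Ψ.surjective_rangeRestrict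
  let p : (ι →₀ ℤ) →ₗ[ℤ] (ι →₀ ℤ) := LinearMap.id - σ.comp Ψ.rangeRestrict
  have hp : ∀ z, Ψ (p z) = 0 := by
    intro z
    have h1 : Ψ.rangeRestrict (σ (Ψ.rangeRestrict z)) = Ψ.rangeRestrict z :=
      LinearMap.congr_fun hσ (Ψ.rangeRestrict z)
    have h2 : Ψ (σ (Ψ.rangeRestrict z)) = Ψ z := congrArg Subtype.val h1
    simp only [p, LinearMap.sub_apply, LinearMap.id_apply, LinearMap.comp_apply, map_sub, h2,
      sub_self]
  have hp0 : ∀ z, Ψ z = 0 → p z = z := by
    intro z hz
    have h1 : Ψ.rangeRestrict z = 0 := Subtype.ext hz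
    simp only [p, LinearMap.sub_apply, LinearMap.id_apply, LinearMap.comp_apply, h1, map_zero,
      sub_zero]
  have hint : ∀ z, ∃ a : ℤ, J (p z) = a := by
    intro z
    have h1 := hp z
    have h2 : φ (p z) = 0 := congrArg Prod.fst h1
    have h3 : D (p z) = 0 := congrArg Prod.snd h1
    exact hJ _ h3 ((hker _).1 h2)
  choose b hb using hint
  refine ⟨⟨⟨b, ?_⟩, ?_⟩, ?_⟩
  · have h1 := hb 0
    rw [map_zero, map_zero] at h1
    exact_mod_cast h1.symm
  · intro x y
    have h1 := hb (x + y)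
    rw [map_add, map_add, hb x, hb y] at h1
    exact_mod_cast h1.symm
  · intro z hz1 hz2
    have h1 : Ψ z = 0 := Prod.ext ((hker z).2 hz2) hz1
    have h2 := hb z
    rw [hp0 z h1] at h2
    exact h2.symm

end MP629748

end part5
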