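import Mathlib

/-!
Core definitions and basic lemmas for MP_629748_gt.
-/

section part0

/-!
Core definitions for MP_629748_gt (TopDim = LinDim for complete length CAT spaces).
-/

open Set Filter Topology MeasureTheory
open scoped NNReal

namespace MP629748

universe u

/-! ### The extension property -/

/-- `NZ m Y`: every continuous `f : Y → ℝ^m` which does not vanish on a closed set `A` can be
changed off `A` to a continuous map without zeros. (For normal spaces: every map from a closed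
subset to the sphere `S^(m-1)` extends; i.e. `dim Y ≤ m - 1`.) -/
def NZ (m : ℕ) (Y : Type*) [TopologicalSpace Y] : Prop :=
  ∀ (f : Y → (Fin m → ℝ)) (A : Set Y), Continuous f → IsClosed A → (∀ a ∈ A, f a ≠ 0) →
    ∃ g : Y → (Fin m → ℝ), Continuous g ∧ (∀ y, g y ≠ 0) ∧ ∀ a ∈ A, g a = f a

/-! ### Uniformly convex metric structures -/

/-- A convex combination structure on a metric space with a uniform convexity constant `c`. -/
structure UC (X : Type*) [MetricSpace X] (c : ℝ) where
  /-- the point of parameter `t` on the geodesic from `x` to `y` -/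
  cc : X → X → ℝ → X
  zero : ∀ x y, cc x y 0 = x
  one : ∀ x y, cc x y 1 = y
  cont : ContinuousOn (fun p : X × X × ℝ => cc p.1 p.2.1 p.2.2) {p | p.2.2 ∈ Icc (0:ℝ) 1}
  cn : ∀ x y z t, t ∈ Icc (0:ℝ) 1 →
    dist z (cc x y t) ^ 2 ≤ (1 - t) * dist z x ^ 2 + t * dist z y ^ 2
      - c * (t * (1 - t)) * dist x y ^ 2

/-- A subset closed under the convex combinations. -/
def UC.ConvexSet {X : Type*} [MetricSpace X] {c : ℝ} (U : UC X c) (Z : Set X) : Prop :=
  ∀ x ∈ Z, ∀ y ∈ Z, ∀ t ∈ Icc (0:ℝ) 1, U.cc x y t ∈ Z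

/-- Rank condition: at almost every point of a Lipschitz map `ℝ^d → X` the metric derivative
vanishes on a linear subspace of codimension at most `n`. -/
def RankLE (n : ℕ) (X : Type*) [MetricSpace X] : Prop :=
  ∀ (d : ℕ) (f : (Fin d → ℝ) → X) (K : ℝ≥0), LipschitzWith K f →
    ∀ᵐ s : Fin d → ℝ, ∃ L : Submodule ℝ (Fin d → ℝ),
      Module.finrank ℝ ((Fin d → ℝ) ⧸ L) ≤ n ∧
      Tendsto (fun w => dist (f (s + w)) (f s) / ‖w‖) (𝓝[(L : Set (Fin d → ℝ)) \ {0}] 0) (𝓝 0)

/-! ### Jacobians -/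

/-- Jacobian determinant of a `d`-tuple of functions on `ℝ^d`. -/
noncomputable def jac {d : ℕ} (u : Fin d → (Fin d → ℝ) → ℝ) (s : Fin d → ℝ) : ℝ :=
  Matrix.det (Matrix.of fun i j => fderiv ℝ (u i) s (Pi.single j 1))

/-! ### Labels -/

/-- The `m+1` vertices of a simplex of `ℝ^m` with `0` in its interior. -/
def ev (m : ℕ) (i : Fin (m + 1)) : Fin m → ℝ :=
  Fin.cases (fun _ => -1) (fun j => Pi.single j 1) i

/-- The linear functional equal to `1` on all `ev m j` with `j ≠ i` and to `-m` on `ev m i`. -/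
def phi (m : ℕ) (i : Fin (m + 1)) (y : Fin m → ℝ) : ℝ :=
  Fin.cases (∑ j, y j) (fun i => (∑ j, y j) - (m + 1) * y i) i

/-- sign of a labelling `Fin k → Fin k`, zero if it is not bijective. -/
noncomputable def csgn {k : ℕ} (l : Fin k → Fin k) : ℤ :=
  open Classical in
  if h : Function.Bijective l then (Equiv.Perm.sign (Equiv.ofBijective l h) : ℤ) else 0

/-- affine map of the standard simplex with the labelled vertices. -/
def lam {m k : ℕ} (l : Fin k → Fin (m + 1)) (x : Fin k → ℝ) : Fin m → ℝ :=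
  ∑ i, x i • ev m (l i)

/-- Parametrisation of the `k`-simplex by the `k`-cube. -/
def duffy : (k : ℕ) → (Fin k → ℝ) → (Fin (k + 1) → ℝ)
  | 0, _ => fun _ => 1
  | (k + 1), s => Fin.cons (1 - s 0) (s 0 • duffy k (Fin.tail s))

/-- clamp to the unit cube -/
def clamp {k : ℕ} (s : Fin k → ℝ) : Fin k → ℝ := fun i => max 0 (min 1 (s i))

end MP629748

end part0

section part1

/-!
Shared definitions for the pieces of MP_629748_gt.
-/

open Set Filter Topology MeasureTheory Metric
open scoped NNReal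

namespace MP629748

universe u

/-- good preimages of `v` in the unit cube -/
def goodPre {d : ℕ} (φ : (Fin d → ℝ) → (Fin d → ℝ)) (v : Fin d → ℝ) : Set (Fin d → ℝ) :=
  {s | (∀ i, s i ∈ Ioo (0:ℝ) 1) ∧ φ s = v ∧ DifferentiableAt ℝ φ s ∧
    jac (fun i s => φ s i) s ≠ 0}

open Classical in
/-- The barycentre of the points `x i` with weights `l i`. -/
noncomputable def bary {X : Type*} [MetricSpace X] {k : ℕ} (x : Fin (k + 1) → X)
    (l : Fin (k + 1) → ℝ) : X :=
  if h : ∃ y, ∀ z, ∑ i, l i * dist (x i) y ^ 2 ≤ ∑ i, l i * dist (x i) z ^ 2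
  then h.choose else x 0

/-- The singular cube of the points `x 0, ..., x k`. -/
noncomputable def cube {X : Type*} [MetricSpace X] {k : ℕ} (x : Fin (k + 1) → X)
    (s : Fin k → ℝ) : X := bary x (duffy k (clamp s))

/-- `f` is Lipschitz on `ball z r` and oscillates by at most `η` there. -/
def Good {X : Type*} [MetricSpace X] {m : ℕ} (f : X → Fin m → ℝ) (η : ℝ) (z : X) (r : ℝ) :
    Prop :=
  0 < r ∧ (∃ K : ℝ≥0, LipschitzOnWith K f (ball z r)) ∧
    ∀ x ∈ ball z r, ∀ y ∈ ball z r, ‖f x - f y‖ ≤ η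

def Small {X : Type*} [MetricSpace X] {m : ℕ} (f : X → Fin m → ℝ) (η : ℝ) {k : ℕ}
    (x : Fin k → X) : Prop := ∃ z r, Good f η z r ∧ ∀ i, dist (x i) z < r / 8

/-- coefficients of `y` with respect to the fan of the vectors `ev m i` -/
noncomputable def cof (m : ℕ) (y : Fin m → ℝ) (i : Fin (m + 1)) : ℝ :=
  (⨆ j : Option (Fin m), j.elim 0 (fun j => - y j)) + Fin.cases 0 (fun j => y j) i

/-- label of `y`: an index with maximal coefficient -/
noncomputable def lab (m : ℕ) (y : Fin m → ℝ) : Fin (m + 1) :=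
  (Finite.exists_max (cof m y)).choose

/-- radius of the ball around `0` avoided by the labelled faces -/
noncomputable def rB (m : ℕ) : ℝ := 1 / (20 * (m + 1))

/-- the linear homotopy from the labelled simplex to `f ∘ cube x`, as a map of the `(k+1)`-cube -/
noncomputable def hmap {X : Type*} [MetricSpace X] {k : ℕ} (f : X → Fin (k + 1) → ℝ)
    (x : Fin (k + 1) → X) (p : Fin (k + 1) → ℝ) : Fin (k + 1) → ℝ :=
  (1 - clamp p 0) • lam (fun i => lab (k + 1) (f (x i))) (duffy k (clamp (Fin.tail p))) +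
    clamp p 0 • f (cube x (Fin.tail p))

/-- the smeared degree of `hmap` -/
noncomputable def Jdeg {X : Type*} [MetricSpace X] {k : ℕ} (f : X → Fin (k + 1) → ℝ)
    (ρ : (Fin (k + 1) → ℝ) → ℝ) (x : Fin (k + 1) → X) : ℝ :=
  ∫ p in Icc (0 : Fin (k + 1) → ℝ) 1, ρ (hmap f x p) * jac (fun i p => hmap f x p i) p

/-- the test maps: `f` with the coordinate `j` deleted -/
def utest {X : Type*} {k : ℕ} (f : X → Fin (k + 1) → ℝ) (j : Fin (k + 1)) (y : X) : Fin k → ℝ :=
  fun i => f y (j.succAbove i)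

open Classical in
/-- signed multiplicity of the cube of `x` at `y`, tested by `utest f j` -/
noncomputable def chi {X : Type*} [MetricSpace X] {k : ℕ} (f : X → Fin (k + 1) → ℝ)
    (x : Fin (k + 1) → X) (q : Fin (k + 1) × X) : ℤ :=
  if ‖f q.2‖ ≤ rB (k + 1) then
    ∑ᶠ s ∈ {s | cube x s = q.2 ∧ s ∈ goodPre (utest f q.1 ∘ cube x) (utest f q.1 q.2)},
      (SignType.sign (jac (fun i s => utest f q.1 (cube x s) i) s) : ℤ)
  else 0

/-- complements of sets with null images under the test maps -/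
def nullFilter {X : Type*} {k : ℕ} (f : X → Fin (k + 1) → ℝ) : Filter (Fin (k + 1) × X) where
  sets := {E | ∀ j, volume (utest f j '' {y | (j, y) ∉ E}) = 0}
  univ_sets := by intro j; simp
  sets_of_superset := by
    intro E E' h hs j
    refine measure_mono_null (image_mono ?_) (h j)
    intro y hy hyE
    exact hy (hs hyE)
  inter_sets := by
    intro E E' h h' j
    have : utest f j '' {y | (j, y) ∉ E ∩ E'} ⊆
        utest f j '' {y | (j, y) ∉ E} ∪ utest f j '' {y | (j, y) ∉ E'} := by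
      rw [← image_union]
      refine image_mono ?_
      intro y hy
      by_cases hyE : (j, y) ∈ E
      · right; exact fun h2 => hy ⟨hyE, h2⟩
      · left; exact hyE
    exact measure_mono_null this (measure_union_null (h j) (h' j))

/-- the boundary operator, forgetting tuples on which `f` is large -/
noncomputable def bdry {X : Type*} {k : ℕ} (f : X → Fin (k + 1) → ℝ) (z : (Fin (k + 1) → X) →₀ ℤ) : (Fin k → X) →₀ ℤ :=
  open Classical in
  (z.sum fun x a => ∑ i : Fin (k + 1), Finsupp.single (x ∘ i.succAbove) ((-1) ^ (i : ℕ) * a)).filter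
    (fun y => ¬ ∀ i, 1 / 2 ≤ ‖f (y i)‖)

end MP629748

end part1

section part2

/-! Elementary facts on `phi`, `ev`, `lam`. -/

open Set Filter Topology MeasureTheory Metric
open scoped NNReal

namespace MP629748

theorem phi_add (m : ℕ) (i : Fin (m + 1)) (y z : Fin m → ℝ) :
    phi m i (y + z) = phi m i y + phi m i z := by
  refine Fin.cases ?_ (fun i => ?_) i
  · simp [phi, Finset.sum_add_distrib]
  · simp [phi, Finset.sum_add_distrib]; ring

theorem phi_smul (m : ℕ) (i : Fin (m + 1)) (a : ℝ) (y : Fin m → ℝ) :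
    phi m i (a • y) = a * phi m i y := by
  refine Fin.cases ?_ (fun i => ?_) i
  · simp [phi, Finset.mul_sum]
  · simp [phi, ← Finset.mul_sum]; ring

theorem phi_zero (m : ℕ) (i : Fin (m + 1)) : phi m i 0 = 0 := by
  refine Fin.cases ?_ (fun i => ?_) i <;> simp [phi]

theorem phi_sum (m : ℕ) (i : Fin (m + 1)) {ι : Type*} (s : Finset ι) (y : ι → Fin m → ℝ) :
    phi m i (∑ j ∈ s, y j) = ∑ j ∈ s, phi m i (y j) := by
  classical
  induction s using Finset.induction_on with
  | empty => simp [phi_zero]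
  | insert a s ha ih => rw [Finset.sum_insert ha, Finset.sum_insert ha, phi_add, ih]

theorem phi_ev_of_ne (m : ℕ) (i j : Fin (m + 1)) (h : j ≠ i) : phi m i (ev m j) = 1 := by
  induction i using Fin.cases with
  | zero =>
    induction j using Fin.cases with
    | zero => exact absurd rfl h
    | succ j => simp [phi, ev]
  | succ i =>
    induction j using Fin.cases with
    | zero => simp [phi, ev]
    | succ j =>
      have hij : i ≠ j := fun e => h (by rw [e])
      simp [phi, ev, Pi.single_apply, hij]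

theorem phi_ev_self (m : ℕ) (i : Fin (m + 1)) : phi m i (ev m i) = -m := by
  induction i using Fin.cases with
  | zero => simp [phi, ev]
  | succ i => simp [phi, ev]

theorem phi_lam_of_forall_ne {m k : ℕ} (i₀ : Fin (m + 1)) (l : Fin k → Fin (m + 1))
    (h : ∀ i, l i ≠ i₀) {x : Fin k → ℝ} (hx : x ∈ stdSimplex ℝ (Fin k)) :
    phi m i₀ (lam l x) = 1 := by
  unfold lam
  rw [phi_sum]
  simp_rw [phi_smul]
  rw [← hx.2]
  refine Finset.sum_congr rfl fun i _ => ?_
  rw [phi_ev_of_ne m i₀ (l i) (h i), mul_one]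

theorem abs_phi_le {m : ℕ} (i : Fin (m + 1)) (y : Fin m → ℝ) :
    |phi m i y| ≤ (2 * m + 1) * ‖y‖ := by
  have hs : |∑ j, y j| ≤ m * ‖y‖ := by
    calc |∑ j, y j| ≤ ∑ j, |y j| := Finset.abs_sum_le_sum_abs _ _
      _ ≤ ∑ _j : Fin m, ‖y‖ := Finset.sum_le_sum fun j _ => norm_le_pi_norm y j
      _ = m * ‖y‖ := by simp
  have hn : 0 ≤ ‖y‖ := norm_nonneg y
  have hm : (0:ℝ) ≤ m := Nat.cast_nonneg m
  induction i using Fin.cases with
  | zero =>
    simp only [phi, Fin.cases_zero]
    nlinarith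
  | succ i =>
    simp only [phi, Fin.cases_succ]
    have hi : |y i| ≤ ‖y‖ := norm_le_pi_norm y i
    calc |∑ j, y j - (m + 1) * y i| ≤ |∑ j, y j| + |(m + 1) * y i| := abs_sub _ _
      _ ≤ m * ‖y‖ + (m + 1) * ‖y‖ := by
        refine add_le_add hs ?_
        rw [abs_mul, abs_of_nonneg (by positivity : (0:ℝ) ≤ m + 1)]
        exact mul_le_mul_of_nonneg_left hi (by positivity)
      _ = _ := by ring

/-- a vector with `phi m i ≥ 1/8` has norm at least `1 / (20 (m+1))` -/
theorem norm_ge_of_phi_ge {m : ℕ} (i : Fin (m + 1)) (y : Fin m → ℝ) (h : 1 / 8 ≤ phi m i y) :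
    1 / (20 * ((m : ℝ) + 1)) < ‖y‖ := by
  have h1 := abs_phi_le i y
  have h2 : 1 / 8 ≤ (2 * m + 1) * ‖y‖ := le_trans h (le_trans (le_abs_self _) h1)
  have hm : (0:ℝ) ≤ m := Nat.cast_nonneg m
  rw [div_lt_iff₀ (by positivity)]
  by_contra hc
  push Not at hc
  have hn : 0 ≤ ‖y‖ := norm_nonneg y
  nlinarith

theorem phi_segment {m k : ℕ} (i₀ : Fin (m + 1)) (l : Fin k → Fin (m + 1))
    (h : ∀ i, l i ≠ i₀) {x : Fin k → ℝ} (hx : x ∈ stdSimplex ℝ (Fin k)) (w : Fin m → ℝ)
    (hw : 1 / 8 ≤ phi m i₀ w) {t : ℝ} (ht : t ∈ Icc (0:ℝ) 1) :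
    1 / 8 ≤ phi m i₀ ((1 - t) • lam l x + t • w) := by
  rw [phi_add, phi_smul, phi_smul, phi_lam_of_forall_ne i₀ l h hx]
  obtain ⟨h0, h1⟩ := ht
  nlinarith

end MP629748

end part2
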