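import Pool.Agent.Lib.MP_629748_gt.MAnalysis

/-!
The cochain lemma.
-/

section part0

/-!
Piece P7c (helper5): multiplicities of singular cubes tested by `utest f j`.
-/

open Set Filter Topology MeasureTheory Metric
open scoped NNReal

namespace MP629748

universe u


/-! ### clamp and the faces of the cube -/

theorem chi_clamp_mem {k : ℕ} (s : Fin k → ℝ) : clamp s ∈ Icc (0 : Fin k → ℝ) 1 := by
  constructor
  · intro i
    exact le_max_left _ _
  · intro i
    exact max_le zero_le_one (min_le_left _ _)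

theorem chi_clamp_of_mem {k : ℕ} {s : Fin k → ℝ} (hs : s ∈ Icc (0 : Fin k → ℝ) 1) :
    clamp s = s := by
  funext i
  have h0 : 0 ≤ s i := hs.1 i
  have h1 : s i ≤ 1 := hs.2 i
  simp [clamp, min_eq_right h1, max_eq_right h0]

theorem chi_clamp_clamp {k : ℕ} (s : Fin k → ℝ) : clamp (clamp s) = clamp s :=
  chi_clamp_of_mem (chi_clamp_mem s)

theorem chi_clamp_insert {k : ℕ} (i : Fin (k + 1)) (a : ℝ) (ha : a ∈ Icc (0:ℝ) 1)
    (s : Fin k → ℝ) : clamp (i.insertNth a s : Fin (k + 1) → ℝ) = i.insertNth a (clamp s) := by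
  funext j
  refine Fin.succAboveCases i ?_ (fun j => ?_) j
  · simp only [clamp, Fin.insertNth_apply_same]
    rw [min_eq_right ha.2, max_eq_right ha.1]
  · simp only [clamp, Fin.insertNth_apply_succAbove]

section faces

variable {X : Type*} [MetricSpace X]

theorem chi_cube_clamp {k : ℕ} (x : Fin (k + 1) → X) (s : Fin k → ℝ) :
    cube x (clamp s) = cube x s := by
  unfold cube
  rw [chi_clamp_clamp]

variable [CompleteSpace X] {c : ℝ} (hc : 0 < c) (U : UC X c)

include hc U in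
theorem chi_cube_face_one {k : ℕ} (x : Fin (k + 2) → X) (i : Fin (k + 1)) (s : Fin k → ℝ) :
    cube x (i.insertNth 1 s) = cube (x ∘ i.castSucc.succAbove) s := by
  unfold cube
  rw [chi_clamp_insert i 1 ⟨zero_le_one, le_rfl⟩, duffy_face_one,
    bary_face U hc x _ (duffy_mem (chi_clamp_mem s))]

include hc U in
theorem chi_cube_face_last {k : ℕ} (x : Fin (k + 2) → X) (s : Fin k → ℝ) :
    cube x ((Fin.last k).insertNth 0 s) = cube (x ∘ (Fin.last (k + 1)).succAbove) s := by
  unfold cube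
  rw [chi_clamp_insert _ 0 ⟨le_rfl, zero_le_one⟩, duffy_face_last,
    bary_face U hc x _ (duffy_mem (chi_clamp_mem s))]

omit [CompleteSpace X] in
theorem chi_cube_degenerate {k : ℕ} (x : Fin (k + 2) → X) (i : Fin (k + 1)) (s t : Fin k → ℝ)
    (hst : ∀ j : Fin k, j.castSucc < i → s j = t j) :
    cube x (i.insertNth 0 s) = cube x (i.insertNth 0 t) := by
  unfold cube
  rw [chi_clamp_insert _ 0 ⟨le_rfl, zero_le_one⟩, chi_clamp_insert _ 0 ⟨le_rfl, zero_le_one⟩]
  congr 1
  refine duffy_degenerate i _ _ (by simp) (by simp) ?_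
  intro j hj
  have hj' : j ≠ i := hj.ne
  obtain ⟨j', rfl⟩ := Fin.exists_succAbove_eq hj'
  have hlt : j'.castSucc < i := by
    by_contra hcon
    rw [not_lt] at hcon
    rw [Fin.succAbove_of_le_castSucc i j' hcon] at hj
    exact absurd hj (not_lt.mpr (le_trans hcon (Fin.castSucc_lt_succ).le))
  simp only [Fin.insertNth_apply_succAbove]
  unfold clamp
  rw [hst j' hlt]

/-! ### Lipschitz bounds for small tuples -/

include hc U in
theorem chi_cube_mem_ball {m k : ℕ} {f : X → Fin m → ℝ} {η : ℝ} {x : Fin (k + 1) → X} {z : X}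
    {r : ℝ} (hG : Good f η z r) (hx : ∀ i, dist (x i) z < r / 8) (s : Fin k → ℝ) :
    cube x s ∈ ball z r := by
  have h1 := dist_bary_le U hc x (duffy k (clamp s)) (duffy_mem (chi_clamp_mem s)) z (r / 8)
    (fun i => (hx i).le)
  have h2 := hG.1
  rw [mem_ball]
  unfold cube
  linarith

include hc U in
/-- `f` is Lipschitz along the cube of a small tuple -/
theorem chi_small_lip {m k : ℕ} {f : X → Fin m → ℝ} {η : ℝ} {x : Fin (k + 1) → X}
    (hx : Small f η x) : ∃ K : ℝ≥0, ∀ s t, dist (f (cube x s)) (f (cube x t)) ≤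
      K * dist (cube x s) (cube x t) := by
  obtain ⟨z, r, hG, hxz⟩ := hx
  obtain ⟨K, hK⟩ := hG.2.1
  exact ⟨K, fun s t => hK.dist_le_mul _ (chi_cube_mem_ball hc U hG hxz s) _
    (chi_cube_mem_ball hc U hG hxz t)⟩

include hc U in
theorem chi_lip_comp {k : ℕ} {E : Type*} [PseudoMetricSpace E] {g : X → E}
    {x : Fin (k + 1) → X} {K : ℝ≥0}
    (hK : ∀ s t, dist (g (cube x s)) (g (cube x t)) ≤ K * dist (cube x s) (cube x t)) :
    ∃ K' : ℝ≥0, LipschitzWith K' (g ∘ cube x) := by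
  obtain ⟨K2, hK2⟩ := cube_lipschitz U hc x
  refine ⟨K * K2, LipschitzWith.of_dist_le_mul fun s t => ?_⟩
  refine (hK s t).trans ?_
  rw [NNReal.coe_mul, mul_assoc]
  exact mul_le_mul_of_nonneg_left (hK2.dist_le_mul s t) K.2

omit [MetricSpace X] [CompleteSpace X] in
theorem chi_utest_dist {k : ℕ} (f : X → Fin (k + 1) → ℝ) (j : Fin (k + 1)) (y y' : X) :
    dist (utest f j y) (utest f j y') ≤ dist (f y) (f y') := by
  rw [dist_pi_le_iff dist_nonneg]
  intro i
  exact dist_le_pi_dist (f y) (f y') (j.succAbove i)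

include hc U in
theorem chi_utest_lip {k k' : ℕ} {f : X → Fin (k + 1) → ℝ} {η : ℝ} {x : Fin (k' + 1) → X}
    (hx : Small f η x) (j : Fin (k + 1)) : ∃ K : ℝ≥0, LipschitzWith K (utest f j ∘ cube x) := by
  obtain ⟨K, hK⟩ := chi_small_lip hc U hx
  exact chi_lip_comp hc U (K := K) fun s t => (chi_utest_dist f j _ _).trans (hK s t)

omit [CompleteSpace X] in
theorem chi_small_face {m k : ℕ} {f : X → Fin m → ℝ} {η : ℝ} {x : Fin (k + 1) → X}
    (hx : Small f η x) (i : Fin (k + 1)) : Small f η (x ∘ i.succAbove) := by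
  obtain ⟨z, r, hG, hxz⟩ := hx
  exact ⟨z, r, hG, fun j => hxz _⟩

omit [CompleteSpace X] in
/-- a function along the cube is bounded if it is continuous -/
theorem chi_bdd {k : ℕ} {g : X → ℝ} {x : Fin (k + 1) → X} (hg : Continuous (g ∘ cube x)) :
    ∃ C, ∀ s, |(g ∘ cube x) s| ≤ C := by
  obtain ⟨C, hC⟩ := (isCompact_Icc (a := (0 : Fin k → ℝ)) (b := 1)).exists_bound_of_continuousOn
    hg.continuousOn
  refine ⟨C, fun s => ?_⟩
  have := hC (clamp s) (chi_clamp_mem s)
  simpa [Function.comp, chi_cube_clamp] using this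

end faces

/-! ### vanishing Jacobians -/

/-- the determinant of functions which do not depend on one coordinate -/
theorem chi_jac_indep {d : ℕ} (u : Fin d → (Fin d → ℝ) → ℝ) (l : Fin d)
    (h : ∀ i s t, (∀ j, j ≠ l → s j = t j) → u i s = u i t) (s : Fin d → ℝ) : jac u s = 0 := by
  unfold jac
  refine Matrix.det_eq_zero_of_column_eq_zero l fun i => ?_
  simp only [Matrix.of_apply]
  by_cases hd : DifferentiableAt ℝ (u i) s
  · have h1 := hd.hasFDerivAt.hasLineDerivAt (Pi.single l 1)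
    have h2 : HasLineDerivAt ℝ (u i) 0 s (Pi.single l 1) := by
      unfold HasLineDerivAt
      have : (fun t : ℝ => u i (s + t • (Pi.single l 1 : Fin d → ℝ))) = fun _ => u i s := by
        funext t
        refine h i _ _ fun j hj => ?_
        simp [hj]
      rw [this]
      exact hasDerivAt_const _ _
    exact h1.unique h2
  · rw [fderiv_zero_of_not_differentiableAt hd]
    rfl

/-- functions factoring through a space of small rank -/
theorem chi_jac_rank {X : Type*} [MetricSpace X] {n d : ℕ} (hR : RankLE n X) (hnd : n < d)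
    (cb : (Fin d → ℝ) → X) (K : ℝ≥0) (hcb : LipschitzWith K cb)
    (u : Fin d → (Fin d → ℝ) → ℝ) (K' : ℝ≥0)
    (hu : ∀ i s t, |u i s - u i t| ≤ K' * dist (cb s) (cb t)) : ∀ᵐ s, jac u s = 0 := by
  have hlip : ∀ i, LipschitzWith (K' * K) (u i) := fun i =>
    LipschitzWith.of_dist_le_mul fun s t => by
      rw [Real.dist_eq, NNReal.coe_mul, mul_assoc]
      exact (hu i s t).trans (mul_le_mul_of_nonneg_left (hcb.dist_le_mul s t) K'.2)
  have hdiff : ∀ᵐ s, ∀ i, DifferentiableAt ℝ (u i) s := by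
    rw [ae_all_iff]
    exact fun i => (hlip i).ae_differentiableAt
  filter_upwards [hdiff, hR d cb K hcb] with s hs hL
  obtain ⟨L, hfr, htend⟩ := hL
  have hLne : L ≠ ⊥ := by
    rintro rfl
    have h1 := Submodule.finrank_quotient_add_finrank (⊥ : Submodule ℝ (Fin d → ℝ))
    rw [finrank_bot, Module.finrank_fin_fun] at h1
    omega
  obtain ⟨w, hwL, hw0⟩ := Submodule.exists_mem_ne_zero_of_ne_bot hLne
  have hpath : Tendsto (fun t : ℝ => t • w) (𝓝[>] (0:ℝ)) (𝓝[(L : Set (Fin d → ℝ)) \ {0}] 0) := by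
    refine tendsto_nhdsWithin_iff.mpr ⟨?_, ?_⟩
    · have : Tendsto (fun t : ℝ => t • w) (𝓝 0) (𝓝 ((0:ℝ) • w)) :=
        (continuous_id.smul continuous_const).tendsto 0
      rw [zero_smul] at this
      exact this.mono_left nhdsWithin_le_nhds
    · filter_upwards [self_mem_nhdsWithin] with t ht
      refine ⟨L.smul_mem t hwL, ?_⟩
      simp only [mem_singleton_iff, smul_eq_zero, not_or]
      exact ⟨(mem_Ioi.mp ht).ne', hw0⟩
  have hlim := htend.comp hpath
  have hzero : ∀ i, fderiv ℝ (u i) s w = 0 := by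
    intro i
    have h1 : HasDerivAt (fun t : ℝ => u i (s + t • w)) (fderiv ℝ (u i) s w) 0 :=
      (hs i).hasFDerivAt.hasLineDerivAt w
    have h2 := h1.tendsto_slope_zero
    have h3 : Tendsto (fun t : ℝ => t⁻¹ • (u i (s + (0 + t) • w) - u i (s + (0:ℝ) • w)))
        (𝓝[>] (0:ℝ)) (𝓝 (fderiv ℝ (u i) s w)) :=
      h2.mono_left (nhdsWithin_mono _ fun t ht => (mem_Ioi.mp ht).ne')
    have h4 : Tendsto (fun t : ℝ => t⁻¹ • (u i (s + (0 + t) • w) - u i (s + (0:ℝ) • w)))
        (𝓝[>] (0:ℝ)) (𝓝 0) := by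
      have h5 : Tendsto (fun t : ℝ => K' * ‖w‖ * (dist (cb (s + t • w)) (cb s) / ‖t • w‖))
          (𝓝[>] (0:ℝ)) (𝓝 0) := by
        have := hlim.const_mul ((K' : ℝ) * ‖w‖)
        rw [mul_zero] at this
        exact this
      refine squeeze_zero_norm' ?_ h5
      filter_upwards [self_mem_nhdsWithin] with t ht
      have ht0 : 0 < t := ht
      have hwn : 0 < ‖w‖ := norm_pos_iff.mpr hw0
      rw [zero_add, zero_smul, add_zero, norm_smul, norm_smul, norm_inv, Real.norm_eq_abs,
        Real.norm_eq_abs, abs_of_pos ht0]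
      have h6 := hu i (s + t • w) s
      have h7 : (K' : ℝ) * ‖w‖ * (dist (cb (s + t • w)) (cb s) / (t * ‖w‖)) =
          t⁻¹ * (K' * dist (cb (s + t • w)) (cb s)) := by
        field_simp
      rw [h7]
      exact mul_le_mul_of_nonneg_left h6 (by positivity)
    exact tendsto_nhds_unique h3 h4
  unfold jac
  rw [← Matrix.exists_mulVec_eq_zero_iff]
  refine ⟨w, hw0, ?_⟩
  funext i
  have h1 := hzero i
  have h2 : (fderiv ℝ (u i) s) w =
      ∑ j, w j • (fderiv ℝ (u i) s) (fun i' => if j = i' then 1 else 0) :=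
    LinearMap.pi_apply_eq_sum_univ ((fderiv ℝ (u i) s).toLinearMap) w
  rw [h2] at h1
  simp only [Matrix.mulVec, dotProduct, Matrix.of_apply, Pi.zero_apply]
  rw [← h1]
  refine Finset.sum_congr rfl fun j _ => ?_
  rw [smul_eq_mul, mul_comm]
  congr 2
  funext i'
  by_cases hij : i' = j
  · subst hij; simp
  · rw [Pi.single_eq_of_ne hij, if_neg (Ne.symm hij)]

/-! ### Counting preimages -/

section count

variable {X : Type*} [MetricSpace X] {k : ℕ}

/-- signed multiplicity without truncation -/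
noncomputable def chi0 (f : X → Fin (k + 1) → ℝ) (x : Fin (k + 1) → X) (j : Fin (k + 1))
    (y : X) : ℤ :=
  ∑ᶠ s ∈ {s | cube x s = y ∧ s ∈ goodPre (utest f j ∘ cube x) (utest f j y)},
    (SignType.sign (jac (fun i s => utest f j (cube x s) i) s) : ℤ)

theorem chi_eq_chi0 (f : X → Fin (k + 1) → ℝ) (x : Fin (k + 1) → X) (j : Fin (k + 1)) {y : X}
    (hy : ‖f y‖ ≤ rB (k + 1)) : chi f x (j, y) = chi0 f x j y := by
  unfold chi chi0
  rw [if_pos hy]

theorem chi_eq_zero (f : X → Fin (k + 1) → ℝ) (x : Fin (k + 1) → X) (j : Fin (k + 1)) {y : X}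
    (hy : ¬ ‖f y‖ ≤ rB (k + 1)) : chi f x (j, y) = 0 := by
  unfold chi
  rw [if_neg hy]

theorem chi0_eq_zero {f : X → Fin (k + 1) → ℝ} {x : Fin (k + 1) → X} {j : Fin (k + 1)} {y : X}
    (h : ∀ s, s ∈ goodPre (utest f j ∘ cube x) (utest f j y) → cube x s ≠ y) :
    chi0 f x j y = 0 := by
  unfold chi0
  have : {s | cube x s = y ∧ s ∈ goodPre (utest f j ∘ cube x) (utest f j y)} = ∅ := by
    ext s
    simp only [mem_ofPred_eq, mem_empty_iff_false, iff_false, not_and]
    intro h1 h2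
    exact h s h2 h1
  rw [this, finsum_mem_empty]

/-- the sum over the preimages of `v` -/
noncomputable def Tsum (f : X → Fin (k + 1) → ℝ) (x : Fin (k + 1) → X) (j : Fin (k + 1))
    (G : X → ℝ) (v : Fin k → ℝ) : ℝ :=
  ∑ᶠ s ∈ goodPre (utest f j ∘ cube x) v, G (cube x s) *
    SignType.sign (jac (fun i s => (utest f j ∘ cube x) s i) s)

theorem Tsum_eq {f : X → Fin (k + 1) → ℝ} {x : Fin (k + 1) → X} {j : Fin (k + 1)}
    (G : X → ℝ) {v : Fin k → ℝ} (hfin : (goodPre (utest f j ∘ cube x) v).Finite) (Y : Finset X)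
    (hY1 : ∀ s ∈ goodPre (utest f j ∘ cube x) v, cube x s ∈ Y)
    (hY2 : ∀ y ∈ Y, utest f j y = v) :
    Tsum f x j G v = ∑ y ∈ Y, G y * (chi0 f x j y : ℝ) := by
  classical
  unfold Tsum
  rw [finsum_mem_eq_finite_toFinset_sum _ hfin]
  have h1 : ∀ y ∈ Y, (chi0 f x j y : ℝ) = ∑ s ∈ hfin.toFinset.filter (fun s => cube x s = y),
      ((SignType.sign (jac (fun i s => (utest f j ∘ cube x) s i) s) : SignType) : ℝ) := by
    intro y hy
    unfold chi0
    rw [hY2 y hy]
    have hset : {s | cube x s = y ∧ s ∈ goodPre (utest f j ∘ cube x) v} =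
        ((hfin.toFinset.filter (fun s => cube x s = y) : Finset (Fin k → ℝ)) :
          Set (Fin k → ℝ)) := by
      ext s
      simp only [mem_ofPred_eq, Finset.coe_filter, Finite.mem_toFinset]
      exact and_comm
    rw [hset, finsum_mem_coe_finset]
    push_cast
    refine Finset.sum_congr rfl fun s _ => ?_
    rfl
  rw [← Finset.sum_fiberwise_of_maps_to (t := Y) (g := fun s => cube x s)
    (fun s hs => hY1 s ((Finite.mem_toFinset hfin).mp hs))]
  refine Finset.sum_congr rfl fun y hy => ?_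
  rw [h1 y hy, Finset.mul_sum]
  refine Finset.sum_congr rfl fun s hs => ?_
  rw [(Finset.mem_filter.mp hs).2]

theorem Tsum_mul {f : X → Fin (k + 1) → ℝ} {x : Fin (k + 1) → X} {j : Fin (k + 1)}
    (G : X → ℝ) (h : (Fin k → ℝ) → ℝ) {v : Fin k → ℝ}
    (hfin : (goodPre (utest f j ∘ cube x) v).Finite) :
    Tsum f x j (fun y => G y * h (utest f j y)) v = h v * Tsum f x j G v := by
  unfold Tsum
  rw [finsum_mem_eq_finite_toFinset_sum _ hfin, finsum_mem_eq_finite_toFinset_sum _ hfin,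
    Finset.mul_sum]
  refine Finset.sum_congr rfl fun s hs => ?_
  have h1 := ((Finite.mem_toFinset hfin).mp hs).2.1
  have h2 : utest f j (cube x s) = v := h1
  simp only [h2]
  ring

end count

section P7
variable {X : Type u} [MetricSpace X] [CompleteSpace X] {c : ℝ} (hc : 0 < c) (U : UC X c)
  {k : ℕ} (f : X → Fin (k + 1) → ℝ) (η : ℝ)

include hc U in
/-- P7c -/
theorem abs_chi_le (x : Fin (k + 1) → X) (q : Fin (k + 1) × X) : |chi f x q| ≤ 1 := by
  unfold chi
  split_ifs with h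
  · have hsub : {s | cube x s = q.2 ∧
        s ∈ goodPre (utest f q.1 ∘ cube x) (utest f q.1 q.2)}.Subsingleton :=
      fun s hs t ht => cube_good_inj U hc x (utest f q.1) hs.2 ht.2 (hs.1.trans ht.1.symm)
    rcases hsub.eq_empty_or_singleton with h0 | ⟨s, h0⟩
    · rw [h0, finsum_mem_empty]; simp
    · rw [h0, finsum_mem_singleton]
      generalize SignType.sign (jac (fun i s => utest f q.1 (cube x s) i) s) = σ
      cases σ <;> decide
  · simp

include hc U in
theorem chi_area {f : X → Fin (k + 1) → ℝ} {η : ℝ} {x : Fin (k + 1) → X} (hx : Small f η x)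
    (j : Fin (k + 1)) (G : X → ℝ) (hG : Continuous (G ∘ cube x)) :
    Integrable (Tsum f x j G) ∧
      ∫ s in Icc (0 : Fin k → ℝ) 1, G (cube x s) * jac (fun i s => utest f j (cube x s) i) s =
        ∫ v, Tsum f x j G v := by
  obtain ⟨K, hK⟩ := chi_utest_lip hc U hx j
  obtain ⟨C, hC⟩ := chi_bdd hG
  exact area_formula (utest f j ∘ cube x) K hK (G ∘ cube x) hG.measurable C hC

include hc U in
theorem chi_ae {f : X → Fin (k + 1) → ℝ} {η : ℝ} {x : Fin (k + 1) → X} (hx : Small f η x)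
    (j : Fin (k + 1)) : ∀ᵐ v, (goodPre (utest f j ∘ cube x) v).Finite := by
  obtain ⟨K, hK⟩ := chi_utest_lip hc U hx j
  filter_upwards [area_ae _ K hK] with v hv using hv.1

include hc U in
/-- P7c (K1): a combination with zero multiplicities integrates to zero. -/
theorem sum_integral_eq_zero (hk : 1 ≤ k) (z : (Fin (k + 1) → X) →₀ ℤ)
    (hz : ∀ x ∈ z.support, Small f η x)
    (h0 : ∀ᶠ q in nullFilter f, (z.sum fun x a => a * chi f x q) = 0) (j : Fin (k + 1))
    (g : X → ℝ) (hg : ∀ x ∈ z.support, Continuous (g ∘ cube x))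
    (hgs : ∀ y, g y ≠ 0 → ‖f y‖ ≤ rB (k + 1)) :
    (z.sum fun x a => (a : ℝ) * ∫ s in Icc (0 : Fin k → ℝ) 1, g (cube x s) *
      jac (fun i s => utest f j (cube x s) i) s) = 0 := by
  classical
  have _ := hk
  have hnull : volume (utest f j '' {y | ¬ (z.sum fun x a => a * chi f x (j, y)) = 0}) = 0 := h0 j
  have hae : ∀ᵐ v, v ∉ utest f j '' {y | ¬ (z.sum fun x a => a * chi f x (j, y)) = 0} :=
    measure_eq_zero_iff_ae_notMem.mp hnull
  have hfin : ∀ᵐ v, ∀ x : z.support, (goodPre (utest f j ∘ cube x.1) v).Finite := by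
    rw [ae_all_iff]
    exact fun x => chi_ae hc U (hz x.1 x.2) j
  unfold Finsupp.sum
  have h1 : ∀ x ∈ z.support, ((z x : ℤ) : ℝ) * ∫ s in Icc (0 : Fin k → ℝ) 1, g (cube x s) *
      jac (fun i s => utest f j (cube x s) i) s = ∫ v, ((z x : ℤ) : ℝ) * Tsum f x j g v := by
    intro x hx
    rw [(chi_area hc U (hz x hx) j g (hg x hx)).2, integral_const_mul]
  rw [Finset.sum_congr rfl h1, ← integral_finsetSum _ (fun x hx =>
    ((chi_area hc U (hz x hx) j g (hg x hx)).1).const_mul _)]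
  refine integral_eq_zero_of_ae ?_
  filter_upwards [hae, hfin] with v hv hf
  have hf' : ∀ x ∈ z.support, (goodPre (utest f j ∘ cube x) v).Finite := fun x hx => hf ⟨x, hx⟩
  have hfinU : (⋃ x ∈ z.support, cube x '' (goodPre (utest f j ∘ cube x) v)).Finite :=
    z.support.finite_toSet.biUnion fun x hx => (hf' x hx).image _
  have hY2 : ∀ y ∈ hfinU.toFinset, utest f j y = v := by
    intro y hy
    rw [Finite.mem_toFinset] at hy
    simp only [mem_iUnion, mem_image] at hy
    obtain ⟨x, hx, s, hs, rfl⟩ := hy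
    exact hs.2.1
  have hY1 : ∀ x ∈ z.support, ∀ s ∈ goodPre (utest f j ∘ cube x) v,
      cube x s ∈ hfinU.toFinset := by
    intro x hx s hs
    rw [Finite.mem_toFinset]
    simp only [mem_iUnion, mem_image]
    exact ⟨x, hx, s, hs, rfl⟩
  have h2 : ∀ x ∈ z.support, ((z x : ℤ) : ℝ) * Tsum f x j g v =
      ∑ y ∈ hfinU.toFinset, g y * (((z x * chi0 f x j y : ℤ)) : ℝ) := by
    intro x hx
    rw [Tsum_eq g (hf' x hx) _ (hY1 x hx) hY2, Finset.mul_sum]
    refine Finset.sum_congr rfl fun y _ => ?_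
    push_cast
    ring
  rw [Finset.sum_congr rfl h2, Finset.sum_comm]
  simp only [Pi.zero_apply]
  refine Finset.sum_eq_zero fun y hy => ?_
  rw [← Finset.mul_sum]
  by_cases hgy : g y = 0
  · rw [hgy, zero_mul]
  · have hfy := hgs y hgy
    have h3 : (z.sum fun x a => a * chi f x (j, y)) = 0 := by
      by_contra hne
      exact hv ⟨y, hne, hY2 y hy⟩
    have h4 : ∑ x ∈ z.support, z x * chi0 f x j y = 0 := by
      rw [← h3]
      unfold Finsupp.sum
      refine Finset.sum_congr rfl fun x _ => ?_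
      show z x * chi0 f x j y = z x * chi f x (j, y)
      rw [chi_eq_chi0 f x j hfy]
    rw [← Int.cast_sum, h4, Int.cast_zero, mul_zero]

include hc U in
/-- Stokes on the cube of `x`, for the test maps. -/
theorem chi_stokes {n : ℕ} (hk : n ≤ k) (hR : RankLE n X) {f : X → Fin (k + 1) → ℝ} {η : ℝ}
    {x : Fin (k + 2) → X} (hx : Small f η x) (j : Fin (k + 1)) (G : X → ℝ) (K : ℝ≥0)
    (hG : ∀ s t, |G (cube x s) - G (cube x t)| ≤ K * dist (cube x s) (cube x t)) :
    ∑ i : Fin (k + 2), (-1 : ℝ) ^ (i : ℕ) * ∫ s in Icc (0 : Fin k → ℝ) 1,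
      G (cube (x ∘ i.succAbove) s) *
        jac (fun i' s => utest f j (cube (x ∘ i.succAbove) s) i') s = 0 := by
  obtain ⟨K1, hK1⟩ := chi_small_lip hc U hx
  obtain ⟨K2, hK2⟩ := cube_lipschitz U hc x
  set u : Fin (k + 1) → (Fin (k + 1) → ℝ) → ℝ :=
    Fin.cons (fun s => G (cube x s)) (fun i s => utest f j (cube x s) i) with hu
  have hu0 : ∀ s, u 0 s = G (cube x s) := fun s => rfl
  have hus : ∀ (i : Fin k) s, u i.succ s = utest f j (cube x s) i := fun i s => rfl
  have hlip : ∀ i s t, |u i s - u i t| ≤ (max K K1 : ℝ≥0) * dist (cube x s) (cube x t) := by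
    intro i s t
    refine Fin.cases ?_ (fun i => ?_) i
    · rw [hu0, hu0]
      refine (hG s t).trans (mul_le_mul_of_nonneg_right ?_ dist_nonneg)
      exact_mod_cast le_max_left K K1
    · rw [hus, hus]
      have h1 : |utest f j (cube x s) i - utest f j (cube x t) i| ≤
          dist (f (cube x s)) (f (cube x t)) := by
        rw [← Real.dist_eq]
        exact dist_le_pi_dist (f (cube x s)) (f (cube x t)) (j.succAbove i)
      refine h1.trans ((hK1 s t).trans (mul_le_mul_of_nonneg_right ?_ dist_nonneg))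
      exact_mod_cast le_max_right K K1
  have hlip' : ∀ i, LipschitzWith (max K K1 * K2) (u i) := fun i =>
    LipschitzWith.of_dist_le_mul fun s t => by
      rw [Real.dist_eq, NNReal.coe_mul, mul_assoc]
      exact (hlip i s t).trans (mul_le_mul_of_nonneg_left (hK2.dist_le_mul s t) (NNReal.coe_nonneg _))
  have hst := stokes u _ hlip'
  have hzero : ∫ s in Icc (0 : Fin (k + 1) → ℝ) 1, jac u s = 0 := by
    refine integral_eq_zero_of_ae ?_
    exact ae_restrict_of_ae (chi_jac_rank hR (Nat.lt_succ_of_le hk) (cube x) K2 hK2 u _ hlip)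
  rw [hzero] at hst
  simp only [hu0, hus, chi_cube_face_one hc U] at hst
  -- the degenerate faces
  have hdeg : ∀ i : Fin (k + 1), i ≠ Fin.last k → ∀ s : Fin k → ℝ,
      jac (fun i' s => utest f j (cube x (i.insertNth 0 s)) i') s = 0 := by
    intro i hi s
    have hik : (i : ℕ) < k := lt_of_le_of_ne (Nat.lt_succ_iff.mp i.2) (fun h => hi (Fin.ext h))
    refine chi_jac_indep _ ⟨k - 1, by omega⟩ (fun i' s t hst => ?_) s
    rw [chi_cube_degenerate x i s t fun j' hj' => hst j' ?_]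
    rintro rfl
    have : (k - 1 : ℕ) < i := hj'
    omega
  rw [Fin.sum_univ_castSucc]
  simp only [Fin.val_castSucc, Fin.val_last]
  have hsplit : ∀ A B : Fin (k + 1) → ℝ, ∑ i : Fin (k + 1), (-1 : ℝ) ^ (i : ℕ) * (A i - B i) =
      ∑ i : Fin (k + 1), (-1 : ℝ) ^ (i : ℕ) * A i - ∑ i : Fin (k + 1), (-1 : ℝ) ^ (i : ℕ) * B i := by
    intro A B
    rw [← Finset.sum_sub_distrib]
    refine Finset.sum_congr rfl fun i _ => by ring
  rw [hsplit] at hst
  have hB : ∑ i : Fin (k + 1), (-1 : ℝ) ^ (i : ℕ) * ∫ s in Icc (0 : Fin k → ℝ) 1,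
      G (cube x (i.insertNth 0 s)) * jac (fun i' s => utest f j (cube x (i.insertNth 0 s)) i') s =
      (-1 : ℝ) ^ k * ∫ s in Icc (0 : Fin k → ℝ) 1,
        G (cube (x ∘ (Fin.last (k + 1)).succAbove) s) *
          jac (fun i' s => utest f j (cube (x ∘ (Fin.last (k + 1)).succAbove) s) i') s := by
    rw [Finset.sum_eq_single (Fin.last k)]
    · simp only [Fin.val_last, chi_cube_face_last hc U]
    · intro i _ hi
      simp only [hdeg i hi, mul_zero, integral_zero]
    · intro h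
      exact absurd (Finset.mem_univ _) h
  rw [hB] at hst
  rw [pow_succ]
  linarith

include hc U in
theorem chi_test {n : ℕ} (hk : n ≤ k) (hR : RankLE n X) {f : X → Fin (k + 1) → ℝ} {η : ℝ}
    {x : Fin (k + 2) → X} (hx : Small f η x) (j : Fin (k + 1)) (G : X → ℝ) (KG : ℝ≥0)
    (hG : LipschitzWith KG G) :
    ∀ᵐ v, ∑ i : Fin (k + 2), (-1 : ℝ) ^ (i : ℕ) * Tsum f (x ∘ i.succAbove) j G v = 0 := by
  have hxi : ∀ i : Fin (k + 2), Small f η (x ∘ i.succAbove) := fun i => chi_small_face hx i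
  have hGc : ∀ i : Fin (k + 2), Continuous (G ∘ cube (x ∘ i.succAbove)) := fun i => by
    obtain ⟨K2, hK2⟩ := cube_lipschitz U hc (x ∘ i.succAbove)
    exact hG.continuous.comp hK2.continuous
  have huc : ∀ i : Fin (k + 2), Continuous (utest f j ∘ cube (x ∘ i.succAbove)) := fun i => by
    obtain ⟨K2, hK2⟩ := chi_utest_lip hc U (hxi i) j
    exact hK2.continuous
  have hint : Integrable (fun v => ∑ i : Fin (k + 2), (-1 : ℝ) ^ (i : ℕ) *
      Tsum f (x ∘ i.succAbove) j G v) :=
    integrable_finsetSum _ fun i _ => ((chi_area hc U (hxi i) j G (hGc i)).1).const_mul _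
  refine ae_eq_zero_of_integral_contDiff_smul_eq_zero hint.locallyIntegrable ?_
  intro h hh hcs
  obtain ⟨Lh, hLh⟩ := hh.lipschitzWith_of_hasCompactSupport hcs (by simp)
  obtain ⟨Ch, hCh⟩ := hh.continuous.bounded_above_of_compact_support hcs
  have hGx : Continuous (G ∘ cube x) := by
    obtain ⟨K2, hK2⟩ := cube_lipschitz U hc x
    exact hG.continuous.comp hK2.continuous
  obtain ⟨CG, hCG⟩ := chi_bdd hGx
  obtain ⟨K1, hK1⟩ := chi_small_lip hc U hx
  have hGlip : ∀ s t, |(fun y => G y * h (utest f j y)) (cube x s) -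
      (fun y => G y * h (utest f j y)) (cube x t)| ≤
      (Real.toNNReal CG * Lh * K1 + Real.toNNReal Ch * KG : ℝ≥0) * dist (cube x s) (cube x t) := by
    intro s t
    have h1 : |G (cube x s)| ≤ Real.toNNReal CG := (hCG s).trans (Real.le_coe_toNNReal CG)
    have h2 : |h (utest f j (cube x t))| ≤ Real.toNNReal Ch :=
      (hCh _).trans (Real.le_coe_toNNReal Ch)
    have h3 : |h (utest f j (cube x s)) - h (utest f j (cube x t))| ≤
        Lh * (K1 * dist (cube x s) (cube x t)) := by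
      rw [← Real.dist_eq]
      refine (hLh.dist_le_mul _ _).trans ?_
      exact mul_le_mul_of_nonneg_left ((chi_utest_dist f j _ _).trans (hK1 s t)) Lh.2
    have h4 : |G (cube x s) - G (cube x t)| ≤ KG * dist (cube x s) (cube x t) := by
      rw [← Real.dist_eq]
      exact hG.dist_le_mul _ _
    calc |G (cube x s) * h (utest f j (cube x s)) - G (cube x t) * h (utest f j (cube x t))|
        = |G (cube x s) * (h (utest f j (cube x s)) - h (utest f j (cube x t))) +
            h (utest f j (cube x t)) * (G (cube x s) - G (cube x t))| := by ring_nf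
      _ ≤ |G (cube x s)| * |h (utest f j (cube x s)) - h (utest f j (cube x t))| +
            |h (utest f j (cube x t))| * |G (cube x s) - G (cube x t)| := by
          rw [← abs_mul, ← abs_mul]
          exact abs_add_le _ _
      _ ≤ Real.toNNReal CG * (Lh * (K1 * dist (cube x s) (cube x t))) +
            Real.toNNReal Ch * (KG * dist (cube x s) (cube x t)) :=
          add_le_add (mul_le_mul h1 h3 (abs_nonneg _) (NNReal.coe_nonneg _))
            (mul_le_mul h2 h4 (abs_nonneg _) (NNReal.coe_nonneg _))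
      _ = _ := by push_cast; ring
  have hst := chi_stokes hc U hk hR hx j (fun y => G y * h (utest f j y)) _ hGlip
  have hGc' : ∀ i : Fin (k + 2),
      Continuous ((fun y => G y * h (utest f j y)) ∘ cube (x ∘ i.succAbove)) := fun i =>
    (hGc i).mul (hh.continuous.comp (huc i))
  have harea := fun i : Fin (k + 2) => chi_area hc U (hxi i) j (fun y => G y * h (utest f j y))
    (hGc' i)
  have haeq : ∀ i : Fin (k + 2), Tsum f (x ∘ i.succAbove) j (fun y => G y * h (utest f j y))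
      =ᵐ[volume] fun v => h v * Tsum f (x ∘ i.succAbove) j G v := fun i => by
    filter_upwards [chi_ae hc U (hxi i) j] with v hv
    exact Tsum_mul G h hv
  have hinth : ∀ i : Fin (k + 2), Integrable (fun v => h v * Tsum f (x ∘ i.succAbove) j G v) :=
    fun i => (harea i).1.congr (haeq i)
  have h5 : ∀ v, h v • ∑ i : Fin (k + 2), (-1 : ℝ) ^ (i : ℕ) * Tsum f (x ∘ i.succAbove) j G v =
      ∑ i : Fin (k + 2), (-1 : ℝ) ^ (i : ℕ) * (h v * Tsum f (x ∘ i.succAbove) j G v) := by
    intro v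
    rw [smul_eq_mul, Finset.mul_sum]
    exact Finset.sum_congr rfl fun i _ => by ring
  simp only [h5]
  rw [integral_finsetSum _ fun i _ => (hinth i).const_mul _]
  rw [← hst]
  refine Finset.sum_congr rfl fun i _ => ?_
  rw [integral_const_mul, ← integral_congr_ae (haeq i), (harea i).2]

include hc U in
theorem chi_face_range {x : Fin (k + 2) → X} (i : Fin (k + 2)) (s : Fin k → ℝ) :
    ∃ t : Fin (k + 1) → ℝ, cube x t = cube (x ∘ i.succAbove) s := by
  refine Fin.lastCases ?_ (fun i => ?_) i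
  · exact ⟨_, chi_cube_face_last hc U x s⟩
  · exact ⟨_, chi_cube_face_one hc U x i s⟩

include hc U in
/-- P7c (K2): boundaries have zero multiplicities. -/
theorem chi_boundary {n : ℕ} (hk : n ≤ k) (hk1 : 1 ≤ k) (hR : RankLE n X)
    (x : Fin (k + 2) → X) (hx : Small f η x) :
    ∀ᶠ q in nullFilter f, ∑ i : Fin (k + 2), (-1 : ℤ) ^ (i : ℕ) * chi f (x ∘ i.succAbove) q = 0 := by
  classical
  have _ := hk1
  obtain ⟨K2, hK2⟩ := cube_lipschitz U hc x
  show ∀ j, volume (utest f j '' {y | ¬ ∑ i : Fin (k + 2), (-1 : ℤ) ^ (i : ℕ) *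
    chi f (x ∘ i.succAbove) (j, y) = 0}) = 0
  intro j
  have hall : ∀ᵐ v, ∀ (n m : ℕ), ∑ i : Fin (k + 2), (-1 : ℝ) ^ (i : ℕ) *
      Tsum f (x ∘ i.succAbove) j (fun y => max 0 (1 / ((m : ℝ) + 1) -
        dist y (cube x (TopologicalSpace.denseSeq (Fin (k + 1) → ℝ) n)))) v = 0 := by
    rw [ae_all_iff]
    intro n
    rw [ae_all_iff]
    intro m
    refine chi_test hc U hk hR hx j _ 1 ?_
    have h1 : LipschitzWith 1 (fun y : X => 1 / ((m : ℝ) + 1) -
        dist y (cube x (TopologicalSpace.denseSeq (Fin (k + 1) → ℝ) n))) := by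
      refine LipschitzWith.of_dist_le_mul fun y y' => ?_
      rw [Real.dist_eq, NNReal.coe_one, one_mul]
      have h2 : 1 / ((m : ℝ) + 1) - dist y (cube x (TopologicalSpace.denseSeq _ n)) -
          (1 / ((m : ℝ) + 1) - dist y' (cube x (TopologicalSpace.denseSeq _ n))) =
          -(dist y (cube x (TopologicalSpace.denseSeq _ n)) -
            dist y' (cube x (TopologicalSpace.denseSeq _ n))) := by ring
      rw [h2, abs_neg]
      exact abs_dist_sub_le y y' _
    exact h1.const_max 0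
  have hfin : ∀ᵐ v, ∀ i : Fin (k + 2),
      (goodPre (utest f j ∘ cube (x ∘ i.succAbove)) v).Finite := by
    rw [ae_all_iff]
    exact fun i => chi_ae hc U (chi_small_face hx i) j
  have key : ∀ᵐ v, ∀ y, utest f j y = v →
      ∑ i : Fin (k + 2), (-1 : ℤ) ^ (i : ℕ) * chi f (x ∘ i.succAbove) (j, y) = 0 := by
    filter_upwards [hall, hfin] with v hv hf y0 hy0
    by_cases hfy : ‖f y0‖ ≤ rB (k + 1)
    swap
    · refine Finset.sum_eq_zero fun i _ => ?_
      rw [chi_eq_zero f _ j hfy, mul_zero]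
    have e1 : ∀ i : Fin (k + 2), chi f (x ∘ i.succAbove) (j, y0) =
        chi0 f (x ∘ i.succAbove) j y0 := fun i => chi_eq_chi0 f _ j hfy
    simp only [e1]
    by_contra hne
    have hfinU : (⋃ i : Fin (k + 2), cube (x ∘ i.succAbove) ''
        (goodPre (utest f j ∘ cube (x ∘ i.succAbove)) v)).Finite :=
      finite_iUnion fun i => (hf i).image _
    have hY1 : ∀ i : Fin (k + 2), ∀ s ∈ goodPre (utest f j ∘ cube (x ∘ i.succAbove)) v,
        cube (x ∘ i.succAbove) s ∈ hfinU.toFinset := by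
      intro i s hs
      rw [Finite.mem_toFinset]
      simp only [mem_iUnion, mem_image]
      exact ⟨i, s, hs, rfl⟩
    have hY2 : ∀ y ∈ hfinU.toFinset, utest f j y = v := by
      intro y hy
      rw [Finite.mem_toFinset] at hy
      simp only [mem_iUnion, mem_image] at hy
      obtain ⟨i, s, hs, rfl⟩ := hy
      exact hs.2.1
    have hy0Y : y0 ∈ hfinU.toFinset := by
      by_contra hnot
      refine hne (Finset.sum_eq_zero fun i _ => ?_)
      rw [chi0_eq_zero, mul_zero]
      intro s hs hcs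
      rw [hy0] at hs
      exact hnot (hcs ▸ hY1 i s hs)
    obtain ⟨t0, ht0⟩ : ∃ t : Fin (k + 1) → ℝ, cube x t = y0 := by
      rw [Finite.mem_toFinset] at hy0Y
      simp only [mem_iUnion, mem_image] at hy0Y
      obtain ⟨i, s, hs, hs2⟩ := hy0Y
      obtain ⟨t, ht⟩ := chi_face_range hc U (x := x) i s
      exact ⟨t, ht.trans hs2⟩
    obtain ⟨ε, hε, hball⟩ : ∃ ε > 0, ∀ y ∈ hfinU.toFinset, y ≠ y0 → ε ≤ dist y y0 := by
      have hcl : IsClosed (((hfinU.toFinset.erase y0 : Finset X)) : Set X) :=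
        (Finset.finite_toSet _).isClosed
      have hmem : y0 ∈ (((hfinU.toFinset.erase y0 : Finset X)) : Set X)ᶜ := by simp
      obtain ⟨ε, hε, hsub⟩ := Metric.isOpen_iff.mp hcl.isOpen_compl y0 hmem
      refine ⟨ε, hε, fun y hy hyne => ?_⟩
      by_contra hlt
      have h1 : y ∈ ball y0 ε := by rw [mem_ball]; exact not_le.mp hlt
      exact hsub h1 (Finset.mem_coe.mpr (Finset.mem_erase.mpr ⟨hyne, hy⟩))
    obtain ⟨m, hm⟩ := exists_nat_one_div_lt (half_pos hε)
    have hr : (0:ℝ) < 1 / ((m : ℝ) + 1) := by positivity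
    obtain ⟨n', hn'⟩ : ∃ n' : ℕ, dist (cube x (TopologicalSpace.denseSeq (Fin (k + 1) → ℝ) n')) y0 <
        1 / ((m : ℝ) + 1) := by
      have hopen : IsOpen {t : Fin (k + 1) → ℝ | dist (cube x t) y0 < 1 / ((m : ℝ) + 1)} :=
        isOpen_lt (hK2.continuous.dist continuous_const) continuous_const
      exact (TopologicalSpace.denseRange_denseSeq (Fin (k + 1) → ℝ)).exists_mem_open hopen
        ⟨t0, by simpa [ht0] using hr⟩
    have hsum := hv n' m
    have h2 : ∀ i : Fin (k + 2), Tsum f (x ∘ i.succAbove) j (fun y => max 0 (1 / ((m : ℝ) + 1) -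
        dist y (cube x (TopologicalSpace.denseSeq (Fin (k + 1) → ℝ) n')))) v =
        (1 / ((m : ℝ) + 1) - dist y0 (cube x (TopologicalSpace.denseSeq (Fin (k + 1) → ℝ) n'))) *
          (chi0 f (x ∘ i.succAbove) j y0 : ℝ) := by
      intro i
      rw [Tsum_eq _ (hf i) hfinU.toFinset (hY1 i) hY2, Finset.sum_eq_single y0]
      · rw [max_eq_right]
        rw [dist_comm]
        linarith
      · intro y hy hyne
        have h3 := hball y hy hyne
        have h4 : dist y y0 ≤ dist y (cube x (TopologicalSpace.denseSeq (Fin (k + 1) → ℝ) n')) +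
            dist (cube x (TopologicalSpace.denseSeq (Fin (k + 1) → ℝ) n')) y0 :=
          dist_triangle _ _ _
        rw [max_eq_left, zero_mul]
        linarith
      · intro h; exact absurd hy0Y h
    simp only [h2] at hsum
    have h5 : (1 / ((m : ℝ) + 1) -
        dist y0 (cube x (TopologicalSpace.denseSeq (Fin (k + 1) → ℝ) n'))) *
        ((∑ i : Fin (k + 2), (-1 : ℤ) ^ (i : ℕ) * chi0 f (x ∘ i.succAbove) j y0 : ℤ) : ℝ) = 0 := by
      rw [← hsum]
      push_cast
      rw [Finset.mul_sum]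
      exact Finset.sum_congr rfl fun i _ => by ring
    rcases mul_eq_zero.mp h5 with h6 | h6
    · rw [dist_comm] at h6
      linarith
    · exact hne (by exact_mod_cast h6)
  refine measure_mono_null ?_ (ae_iff.mp key)
  rintro v ⟨y, hy, rfl⟩ hcon
  exact hy (hcon y rfl)

end P7

end MP629748

end part0

section part1

/-! Faces and Stokes' theorem for the linear homotopy from the labelled simplex to `f ∘ cube x`. -/

open Set Filter Topology MeasureTheory Metric
open scoped NNReal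

namespace MP629748

/-- The linear homotopy from the labelled simplex to `f ∘ cube x` for tuples of any length. -/
noncomputable def hgen {X : Type*} [MetricSpace X] {m n : ℕ} (f : X → Fin m → ℝ)
    (x : Fin (n + 1) → X) (p : Fin (n + 1) → ℝ) : Fin m → ℝ :=
  (1 - clamp p 0) • lam (fun i => lab m (f (x i))) (duffy n (clamp (Fin.tail p))) +
    clamp p 0 • f (cube x (Fin.tail p))

theorem hmap_eq_hgen {X : Type*} [MetricSpace X] {k : ℕ} (f : X → Fin (k + 1) → ℝ)
    (x : Fin (k + 1) → X) : hmap f x = hgen f x := rfl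

/-- Small is inherited by subtuples. -/
theorem small_comp {X : Type*} [MetricSpace X] {m : ℕ} {f : X → Fin m → ℝ} {η : ℝ} {k l : ℕ}
    {x : Fin k → X} (h : Small f η x) (g : Fin l → Fin k) : Small f η (x ∘ g) := by
  obtain ⟨z, r, h1, h2⟩ := h
  exact ⟨z, r, h1, fun i => h2 _⟩

namespace HS

/-! ### clamp and duffy -/

theorem clamp_mem {k : ℕ} (s : Fin k → ℝ) : clamp s ∈ Icc (0 : Fin k → ℝ) 1 := by
  constructor
  · intro i; exact le_max_left _ _
  · intro i; exact max_le zero_le_one (min_le_left _ _)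

theorem clamp_apply_mem {k : ℕ} (s : Fin k → ℝ) (i : Fin k) : clamp s i ∈ Icc (0:ℝ) 1 :=
  ⟨(clamp_mem s).1 i, (clamp_mem s).2 i⟩

theorem clamp_of_mem {k : ℕ} {s : Fin k → ℝ} (h : s ∈ Icc (0 : Fin k → ℝ) 1) : clamp s = s := by
  funext i
  have h0 : 0 ≤ s i := h.1 i
  have h1 : s i ≤ 1 := h.2 i
  simp [clamp, h0, h1]

theorem clamp_lipschitz {k : ℕ} : LipschitzWith 1 (clamp : (Fin k → ℝ) → (Fin k → ℝ)) := by
  refine LipschitzWith.of_dist_le_mul fun s t => ?_
  rw [NNReal.coe_one, one_mul, dist_pi_le_iff dist_nonneg]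
  intro i
  have h := dist_le_pi_dist s t i
  refine le_trans ?_ h
  simp only [clamp, Real.dist_eq]
  have h1 : |max 0 (min 1 (s i)) - max 0 (min 1 (t i))| ≤ |min 1 (s i) - min 1 (t i)| := by
    have := abs_max_sub_max_le_max (0:ℝ) (min 1 (s i)) 0 (min 1 (t i))
    simpa using this
  have h2 : |min 1 (s i) - min 1 (t i)| ≤ |s i - t i| := by
    have := abs_min_sub_min_le_max (1:ℝ) (s i) 1 (t i)
    simpa using this
  exact h1.trans h2

theorem tail_lipschitz {k : ℕ} :
    LipschitzWith 1 (Fin.tail : (Fin (k + 1) → ℝ) → (Fin k → ℝ)) := by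
  refine LipschitzWith.of_dist_le_mul fun s t => ?_
  rw [NNReal.coe_one, one_mul, dist_pi_le_iff dist_nonneg]
  intro i
  exact dist_le_pi_dist s t i.succ

theorem tail_clamp {k : ℕ} (s : Fin (k + 1) → ℝ) : Fin.tail (clamp s) = clamp (Fin.tail s) := rfl

/-- product of bounded Lipschitz functions -/
theorem lipschitz_smul {E : Type*} [PseudoMetricSpace E] {m : ℕ} {a : E → ℝ}
    {A : E → (Fin m → ℝ)} {Ka KA : ℝ≥0} {C : ℝ≥0} (ha : LipschitzWith Ka a)
    (hA : LipschitzWith KA A) (ha1 : ∀ p, |a p| ≤ 1) (hAC : ∀ p, ‖A p‖ ≤ C) :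
    LipschitzWith (KA + Ka * C) (fun p => a p • A p) := by
  refine LipschitzWith.of_dist_le_mul fun p q => ?_
  have h1 : a p • A p - a q • A q = a p • (A p - A q) + (a p - a q) • A q := by
    rw [smul_sub, sub_smul]; abel
  rw [dist_eq_norm, h1]
  have h2 : ‖A p - A q‖ ≤ KA * dist p q := by
    rw [← dist_eq_norm]; exact hA.dist_le_mul p q
  have h3 : |a p - a q| ≤ Ka * dist p q := by
    rw [← Real.dist_eq]; exact ha.dist_le_mul p q
  calc ‖a p • (A p - A q) + (a p - a q) • A q‖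
      ≤ ‖a p • (A p - A q)‖ + ‖(a p - a q) • A q‖ := norm_add_le _ _
    _ = |a p| * ‖A p - A q‖ + |a p - a q| * ‖A q‖ := by
        rw [norm_smul, norm_smul, Real.norm_eq_abs, Real.norm_eq_abs]
    _ ≤ 1 * (KA * dist p q) + (Ka * dist p q) * C := by
        gcongr
        · exact ha1 p
        · exact hAC q
    _ = _ := by push_cast; ring

theorem duffy_norm_le {k : ℕ} {s : Fin k → ℝ} (hs : s ∈ Icc (0 : Fin k → ℝ) 1) :
    ‖duffy k s‖ ≤ 1 := by
  have h := duffy_mem hs
  rw [pi_norm_le_iff_of_nonneg zero_le_one]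
  intro i
  rw [Real.norm_eq_abs, abs_of_nonneg (h.1 i), ← h.2]
  exact Finset.single_le_sum (fun j _ => h.1 j) (Finset.mem_univ i)

theorem duffy_lipschitz (k : ℕ) : ∃ K : ℝ≥0,
    LipschitzWith K (fun s : Fin k → ℝ => duffy k (clamp s)) := by
  induction k with
  | zero => exact ⟨0, by
      refine LipschitzWith.of_dist_le_mul fun s t => ?_
      simp [duffy]⟩
  | succ k ih =>
    obtain ⟨K, hK⟩ := ih
    have h0 : LipschitzWith 1 (fun s : Fin (k + 1) → ℝ => clamp s 0) := by
      refine LipschitzWith.of_dist_le_mul fun s t => ?_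
      exact (dist_le_pi_dist (clamp s) (clamp t) 0).trans (clamp_lipschitz.dist_le_mul s t)
    have h1 : LipschitzWith (K * 1) (fun s : Fin (k + 1) → ℝ => duffy k (clamp (Fin.tail s))) :=
      hK.comp tail_lipschitz
    have h2 := lipschitz_smul (C := 1) h0 h1 (fun p => by
      have := clamp_apply_mem p 0
      rw [abs_of_nonneg this.1]; exact this.2) (fun p => by
      simpa using duffy_norm_le (clamp_mem (Fin.tail p)))
    refine ⟨1 + (K * 1 + 1 * 1), ?_⟩
    refine LipschitzWith.of_dist_le_mul fun s t => ?_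
    rw [dist_pi_le_iff (by positivity)]
    intro i
    refine Fin.cases ?_ (fun i => ?_) i
    · have h3 := h0.dist_le_mul s t
      simp only [duffy, Fin.cons_zero]
      rw [dist_sub_left] 
      refine h3.trans ?_
      have := @dist_nonneg _ _ s t
      have h4 : (0:ℝ) ≤ K := K.coe_nonneg
      push_cast
      nlinarith [mul_nonneg h4 this]
    · have h3 := (dist_le_pi_dist _ _ i).trans (h2.dist_le_mul s t)
      simp only [duffy, Fin.cons_succ]
      refine h3.trans ?_
      have := @dist_nonneg _ _ s t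
      push_cast
      nlinarith

/-- `lam` is Lipschitz -/
theorem lam_lipschitz {m k : ℕ} (l : Fin k → Fin (m + 1)) :
    ∃ K : ℝ≥0, LipschitzWith K (lam l : (Fin k → ℝ) → (Fin m → ℝ)) := by
  refine ⟨∑ i, ‖ev m (l i)‖₊, LipschitzWith.of_dist_le_mul fun x y => ?_⟩
  have h : lam l x - lam l y = ∑ i, (x i - y i) • ev m (l i) := by
    simp only [lam, ← Finset.sum_sub_distrib, sub_smul]
  rw [dist_eq_norm, h]
  refine (norm_sum_le _ _).trans ?_
  push_cast
  rw [Finset.sum_mul]
  refine Finset.sum_le_sum fun i _ => ?_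
  rw [norm_smul, mul_comm]
  refine mul_le_mul_of_nonneg_left ?_ (norm_nonneg _)
  rw [Real.norm_eq_abs, ← Real.dist_eq]
  exact dist_le_pi_dist x y i

theorem lam_norm_le {m k : ℕ} (l : Fin k → Fin (m + 1)) : ∃ C : ℝ≥0,
    ∀ x : Fin k → ℝ, ‖x‖ ≤ 1 → ‖lam l x‖ ≤ C := by
  obtain ⟨K, hK⟩ := lam_lipschitz (m := m) l
  refine ⟨K, fun x hx => ?_⟩
  have h := hK.dist_le_mul x 0
  have h0 : lam l (0 : Fin k → ℝ) = 0 := by simp [lam]
  rw [h0, dist_zero_right, dist_zero_right] at h
  refine h.trans ?_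
  have : (0:ℝ) ≤ K := K.coe_nonneg
  nlinarith

end HS

open HS

section
variable {X : Type*} [MetricSpace X] [CompleteSpace X] {c : ℝ} (hc : 0 < c) (U : UC X c)
  {m n : ℕ} (f : X → Fin m → ℝ) (η : ℝ)

include hc U in
theorem Small.norm_sub_le {x : Fin (n + 1) → X} (hx : Small f η x) (s : Fin n → ℝ)
    (i : Fin (n + 1)) : ‖f (cube x s) - f (x i)‖ ≤ η := by
  obtain ⟨z, r, ⟨hr, -, hosc⟩, hz⟩ := hx
  have h1 : dist (cube x s) z ≤ 2 * (r / 8) :=
    dist_bary_le U hc x _ (duffy_mem (clamp_mem s)) z (r / 8) (fun i => (hz i).le)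
  refine hosc _ ?_ _ ?_
  · rw [mem_ball]; linarith
  · rw [mem_ball]; have := hz i; linarith

include hc U in
theorem Small.lipschitz_cube {x : Fin (n + 1) → X} (hx : Small f η x) :
    ∃ K : ℝ≥0, LipschitzWith K (fun s => f (cube x s)) := by
  obtain ⟨z, r, ⟨hr, ⟨K, hK⟩, -⟩, hz⟩ := hx
  have h1 : ∀ s, cube x s ∈ ball z r := fun s => by
    have : dist (cube x s) z ≤ 2 * (r / 8) :=
      dist_bary_le U hc x _ (duffy_mem (clamp_mem s)) z (r / 8) (fun i => (hz i).le)
    rw [mem_ball]; linarith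
  obtain ⟨K', hK'⟩ := cube_lipschitz U hc x
  refine ⟨K * K', LipschitzWith.of_dist_le_mul fun s t => ?_⟩
  refine (hK.dist_le_mul _ (h1 s) _ (h1 t)).trans ?_
  push_cast
  rw [mul_assoc]
  exact mul_le_mul_of_nonneg_left (hK'.dist_le_mul s t) K.coe_nonneg

include hc U in
theorem Small.lipschitz_hgen {x : Fin (n + 1) → X} (hx : Small f η x) :
    ∃ K : ℝ≥0, LipschitzWith K (hgen f x) := by
  have h0 : LipschitzWith 1 (fun s : Fin (n + 1) → ℝ => clamp s 0) := by
    refine LipschitzWith.of_dist_le_mul fun s t => ?_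
    exact (dist_le_pi_dist (clamp s) (clamp t) 0).trans (clamp_lipschitz.dist_le_mul s t)
  have h0' : LipschitzWith 1 (fun s : Fin (n + 1) → ℝ => 1 - clamp s 0) := by
    refine LipschitzWith.of_dist_le_mul fun s t => ?_
    rw [dist_sub_left]
    exact h0.dist_le_mul s t
  obtain ⟨K1, hK1⟩ := duffy_lipschitz n
  obtain ⟨K2, hK2⟩ := lam_lipschitz (fun i => lab m (f (x i)))
  obtain ⟨C2, hC2⟩ := lam_norm_le (fun i => lab m (f (x i)))
  obtain ⟨K3, hK3⟩ := hx.lipschitz_cube hc U
  have hA : LipschitzWith (K2 * (K1 * 1)) (fun p : Fin (n + 1) → ℝ =>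
      lam (fun i => lab m (f (x i))) (duffy n (clamp (Fin.tail p)))) :=
    hK2.comp (hK1.comp tail_lipschitz)
  have hB : LipschitzWith (K3 * 1) (fun p : Fin (n + 1) → ℝ => f (cube x (Fin.tail p))) :=
    hK3.comp tail_lipschitz
  have hη : 0 ≤ η := (norm_nonneg _).trans (hx.norm_sub_le hc U f η 0 0)
  have hBC : ∀ p : Fin (n + 1) → ℝ, ‖f (cube x (Fin.tail p))‖ ≤
      (⟨‖f (x 0)‖ + η, by positivity⟩ : ℝ≥0) := fun p => by
    have h1 := hx.norm_sub_le hc U f η (Fin.tail p) 0
    have h2 : f (cube x (Fin.tail p)) = (f (cube x (Fin.tail p)) - f (x 0)) + f (x 0) := by abel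
    rw [h2]
    refine (norm_add_le _ _).trans ?_
    show _ ≤ ‖f (x 0)‖ + η
    linarith
  have h1 := lipschitz_smul h0' hA (fun p => by
      have := clamp_apply_mem p 0
      rw [abs_of_nonneg (by linarith [this.2])]; linarith [this.1])
    (fun p => hC2 _ (duffy_norm_le (clamp_mem (Fin.tail p))))
  have h2 := lipschitz_smul h0 hB (fun p => by
      have := clamp_apply_mem p 0
      rw [abs_of_nonneg this.1]; exact this.2) hBC
  exact ⟨_, h1.add h2⟩

include hc U in
/-- `hgen` avoids the ball of radius `rB` when `f` is large at one vertex -/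
theorem Small.rB_lt_hgen {x : Fin (n + 1) → X} (hx : Small f η x) (hη : η ≤ 1 / (16 * (m + 1)))
    (i : Fin (n + 1)) (hi : 1 / 2 ≤ ‖f (x i)‖) (p : Fin (n + 1) → ℝ) : rB m < ‖hgen f x p‖ := by
  obtain ⟨i₀, hi₀⟩ := lab_spec hi
  have h1 : ∀ j, lab m (f (x j)) ≠ i₀ := fun j => by
    refine (hi₀ _ ?_).1
    obtain ⟨z, r, ⟨hr, -, hosc⟩, hz⟩ := hx
    refine (hosc _ ?_ _ ?_).trans hη
    · rw [mem_ball]; have := hz j; linarith
    · rw [mem_ball]; have := hz i; linarith
  have h2 := (hi₀ _ ((hx.norm_sub_le hc U f η (Fin.tail p) i).trans hη)).2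
  have h3 := phi_segment i₀ _ h1 (duffy_mem (clamp_mem (Fin.tail p))) _ h2 (clamp_apply_mem p 0)
  exact norm_ge_of_phi_ge i₀ _ h3

end

namespace HS

/-! ### faces -/

theorem insertNth_succ_zero {n : ℕ} (l : Fin (n + 1)) (a : ℝ) (q : Fin (n + 1) → ℝ) :
    (l.succ.insertNth a q : Fin (n + 2) → ℝ) 0 = q 0 := by
  have h : (0 : Fin (n + 2)) = l.succ.succAbove 0 := by simp
  rw [h, Fin.insertNth_apply_succAbove]

theorem tail_insertNth_succ {n : ℕ} (l : Fin (n + 1)) (a : ℝ) (q : Fin (n + 1) → ℝ) :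
    Fin.tail (l.succ.insertNth a q : Fin (n + 2) → ℝ) =
      (l.insertNth a (Fin.tail q) : Fin (n + 1) → ℝ) := by
  funext i
  refine Fin.succAboveCases l ?_ (fun j => ?_) i
  · simp [Fin.tail]
  · rw [Fin.insertNth_apply_succAbove]
    simp only [Fin.tail]
    rw [← Fin.succ_succAbove_succ, Fin.insertNth_apply_succAbove]

theorem clamp_insertNth {n : ℕ} (l : Fin (n + 1)) (a : ℝ) (ha : a ∈ Icc (0:ℝ) 1)
    (q : Fin n → ℝ) : clamp (l.insertNth a q : Fin (n + 1) → ℝ) =
      (l.insertNth a (clamp q) : Fin (n + 1) → ℝ) := by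
  funext i
  refine Fin.succAboveCases l ?_ (fun j => ?_) i
  · simp [clamp, ha.1, ha.2]
  · simp [clamp]

theorem lam_insertNth_zero {m n : ℕ} (l : Fin (n + 1) → Fin (m + 1)) (i : Fin (n + 1))
    (v : Fin n → ℝ) : lam l (i.insertNth 0 v : Fin (n + 1) → ℝ) = lam (l ∘ i.succAbove) v := by
  unfold lam
  rw [Fin.sum_univ_succAbove _ i]
  simp

end HS

section faces
variable {X : Type*} [MetricSpace X] [CompleteSpace X] {c : ℝ} (hc : 0 < c) (U : UC X c)
  {m n : ℕ} (f : X → Fin m → ℝ)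

omit [CompleteSpace X] in
theorem hgen_face_one_zero (x : Fin (n + 1) → X) (s : Fin n → ℝ) :
    hgen f x ((0 : Fin (n + 1)).insertNth 1 s) = f (cube x s) := by
  have h1 : clamp ((0 : Fin (n + 1)).insertNth (1:ℝ) s : Fin (n + 1) → ℝ) 0 = 1 := by
    simp [clamp]
  have h2 : Fin.tail ((0 : Fin (n + 1)).insertNth (1:ℝ) s : Fin (n + 1) → ℝ) = s := by
    rw [Fin.insertNth_zero]; exact Fin.tail_cons _ _
  simp only [hgen, h1, h2]
  simp

omit [CompleteSpace X] in
theorem hgen_face_zero_zero (x : Fin (n + 1) → X) (s : Fin n → ℝ) :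
    hgen f x ((0 : Fin (n + 1)).insertNth 0 s) =
      lam (fun i => lab m (f (x i))) (duffy n (clamp s)) := by
  have h1 : clamp ((0 : Fin (n + 1)).insertNth (0:ℝ) s : Fin (n + 1) → ℝ) 0 = 0 := by
    simp [clamp]
  have h2 : Fin.tail ((0 : Fin (n + 1)).insertNth (0:ℝ) s : Fin (n + 1) → ℝ) = s := by
    rw [Fin.insertNth_zero]; exact Fin.tail_cons _ _
  simp only [hgen, h1, h2]
  simp

include hc U in
/-- the common part of the two nondegenerate faces -/
theorem hgen_face_aux (x : Fin (n + 2) → X) (l : Fin (n + 1)) (a : ℝ) (ha : a ∈ Icc (0:ℝ) 1)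
    (i : Fin (n + 2)) (hd : ∀ σ : Fin n → ℝ, duffy (n + 1) (l.insertNth a σ : Fin (n + 1) → ℝ) =
      (i.insertNth 0 (duffy n σ) : Fin (n + 2) → ℝ)) (q : Fin (n + 1) → ℝ) :
    hgen f x (l.succ.insertNth a q) = hgen f (x ∘ i.succAbove) q := by
  have h1 : clamp (l.succ.insertNth a q : Fin (n + 2) → ℝ) 0 = clamp q 0 := by
    simp only [clamp, insertNth_succ_zero]
  have h2 := tail_insertNth_succ l a q
  have h3 : duffy (n + 1) (clamp (l.insertNth a (Fin.tail q) : Fin (n + 1) → ℝ)) =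
      (i.insertNth 0 (duffy n (clamp (Fin.tail q))) : Fin (n + 2) → ℝ) := by
    rw [clamp_insertNth l a ha, hd]
  have h4 : cube x (l.insertNth a (Fin.tail q) : Fin (n + 1) → ℝ) =
      cube (x ∘ i.succAbove) (Fin.tail q) := by
    unfold cube
    rw [h3]
    exact bary_face U hc x _ (duffy_mem (clamp_mem _)) i
  simp only [hgen]
  rw [h1, h2, h4, h3, lam_insertNth_zero]
  rfl

include hc U in
theorem hgen_face_one (x : Fin (n + 2) → X) (l : Fin (n + 1)) (q : Fin (n + 1) → ℝ) :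
    hgen f x (l.succ.insertNth 1 q) = hgen f (x ∘ l.castSucc.succAbove) q :=
  hgen_face_aux hc U f x l 1 (by simp) _ (fun σ => duffy_face_one l σ) q

include hc U in
theorem hgen_face_last (x : Fin (n + 2) → X) (q : Fin (n + 1) → ℝ) :
    hgen f x ((Fin.last n).succ.insertNth 0 q) = hgen f (x ∘ (Fin.last (n + 1)).succAbove) q :=
  hgen_face_aux hc U f x (Fin.last n) 0 (by simp) _ (fun σ => duffy_face_last σ) q

omit [CompleteSpace X] in
theorem hgen_face_degenerate (x : Fin (n + 2) → X) (l : Fin (n + 1)) (hl : l ≠ Fin.last n)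
    (q : Fin (n + 1) → ℝ) (a : ℝ) :
    hgen f x (l.succ.insertNth 0 q) =
      hgen f x (l.succ.insertNth 0 (Function.update q (Fin.last n) a)) := by
  have hn : (0 : Fin (n + 1)) ≠ Fin.last n := by
    intro h
    apply hl
    have h1 : (0:ℕ) = n := by simpa using congrArg Fin.val h
    apply Fin.ext
    have := l.2
    simp only [Fin.val_last]
    omega
  set q' := Function.update q (Fin.last n) a with hq'
  have h0 : q' 0 = q 0 := by rw [hq', Function.update_of_ne hn]
  have h1 : clamp (l.succ.insertNth 0 q : Fin (n + 2) → ℝ) 0 =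
      clamp (l.succ.insertNth 0 q' : Fin (n + 2) → ℝ) 0 := by
    simp only [clamp, insertNth_succ_zero, h0]
  have h3 : duffy (n + 1) (clamp (l.insertNth 0 (Fin.tail q) : Fin (n + 1) → ℝ)) =
      duffy (n + 1) (clamp (l.insertNth 0 (Fin.tail q') : Fin (n + 1) → ℝ)) := by
    rw [clamp_insertNth l 0 (by simp), clamp_insertNth l 0 (by simp)]
    refine duffy_degenerate l _ _ (by simp) (by simp) (fun j hj => ?_)
    obtain ⟨j', rfl⟩ := Fin.exists_succAbove_eq hj.ne
    simp only [Fin.insertNth_apply_succAbove, clamp, Fin.tail]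
    have h5 : q' j'.succ = q j'.succ := by
      rw [hq', Function.update_of_ne]
      intro h
      have h6 : j'.castSucc < l := by
        by_contra hcon
        rw [Fin.succAbove_of_le_castSucc _ _ (not_lt.mp hcon)] at hj
        have h7 : (j'.castSucc : ℕ) < (j'.succ : ℕ) := by simp
        have h8 : (j'.succ : ℕ) < l := hj
        exact hcon (by
          rw [Fin.lt_def]; omega)
      have h7 : ((j'.succ : Fin (n + 1)) : ℕ) = n := by simpa using congrArg Fin.val h
      have h8 : (j' : ℕ) < l := h6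
      have h9 : (j' : ℕ) + 1 = n := by simpa using h7
      apply hl
      apply Fin.ext
      have := l.2
      simp only [Fin.val_last]
      omega
    rw [h5]
  have h4 : cube x (l.insertNth 0 (Fin.tail q) : Fin (n + 1) → ℝ) =
      cube x (l.insertNth 0 (Fin.tail q') : Fin (n + 1) → ℝ) := by
    unfold cube
    rw [h3]
  simp only [hgen]
  rw [h1, tail_insertNth_succ, tail_insertNth_succ, h4, h3]

end faces

namespace HS

/-! ### Jacobians -/

theorem jac_congr {d : ℕ} {u v : Fin d → (Fin d → ℝ) → ℝ} {s : Fin d → ℝ}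
    (h : ∀ i, u i =ᶠ[𝓝 s] v i) : jac u s = jac v s := by
  unfold jac
  congr 1
  ext i j
  simp only [Matrix.of_apply]
  rw [(h i).fderiv_eq]

/-- a column of the Jacobian vanishes if the functions do not depend on that variable -/
theorem fderiv_single_eq_zero {d : ℕ} {F : (Fin d → ℝ) → ℝ} (j : Fin d)
    (h : ∀ s a, F s = F (Function.update s j a)) (s : Fin d → ℝ) :
    fderiv ℝ F s (Pi.single j 1) = 0 := by
  by_cases hd : DifferentiableAt ℝ F s
  · have h1 : HasDerivAt (fun t : ℝ => F (s + t • Pi.single j 1))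
        (fderiv ℝ F s (Pi.single j 1)) 0 := by
      have h2 : HasFDerivAt F (fderiv ℝ F s) (s + (0:ℝ) • Pi.single j 1) := by
        simpa using hd.hasFDerivAt
      have h3 : HasDerivAt (fun t : ℝ => s + t • (Pi.single j 1 : Fin d → ℝ))
          (Pi.single j 1) 0 := by
        simpa using ((hasDerivAt_id (0:ℝ)).smul_const (Pi.single j 1 : Fin d → ℝ)).const_add s
      exact h2.comp_hasDerivAt (0:ℝ) h3
    have h4 : (fun t : ℝ => F (s + t • Pi.single j 1)) = fun _ => F s := by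
      funext t
      have h5 : Function.update (s + t • (Pi.single j 1 : Fin d → ℝ)) j (s j) = s := by
        funext i
        by_cases hi : i = j
        · subst hi; simp
        · rw [Function.update_of_ne hi]; simp [hi]
      rw [h (s + t • Pi.single j 1) (s j), h5]
    rw [h4] at h1
    exact h1.unique (hasDerivAt_const (0:ℝ) (F s))
  · rw [fderiv_zero_of_not_differentiableAt hd]; rfl

theorem jac_eq_zero_of_indep {d : ℕ} {u : Fin d → (Fin d → ℝ) → ℝ} (j : Fin d)
    (h : ∀ i s a, u i s = u i (Function.update s j a)) (s : Fin d → ℝ) : jac u s = 0 := by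
  unfold jac
  exact Matrix.det_eq_zero_of_column_eq_zero j
    (fun i => fderiv_single_eq_zero j (h i) s)

/-- almost every point of the cube is an interior point -/
theorem ae_interior {d : ℕ} : ∀ᵐ s : Fin d → ℝ, s ∈ Icc (0 : Fin d → ℝ) 1 →
    ∀ i, s i ∈ Ioo (0:ℝ) 1 := by
  have h := (Measure.univ_pi_Ioo_ae_eq_Icc (μ := fun _ : Fin d => (volume : Measure ℝ))
    (f := (0 : Fin d → ℝ)) (g := 1))
  rw [← volume_pi] at h
  filter_upwards [h.mem_iff] with s hs h1 i
  exact (hs.mpr h1) i (mem_univ i)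

theorem clamp_eventually {d : ℕ} {s : Fin d → ℝ} (h : ∀ i, s i ∈ Ioo (0:ℝ) 1) :
    ∀ᶠ t in 𝓝 s, clamp t = t := by
  have h1 : ∀ i, ∀ᶠ t in 𝓝 s, t i ∈ Ioo (0:ℝ) 1 := fun i =>
    (continuous_apply i).continuousAt.eventually (isOpen_Ioo.mem_nhds (h i))
  filter_upwards [Filter.eventually_all.mpr h1] with t ht
  exact clamp_of_mem ⟨fun i => (ht i).1.le, fun i => (ht i).2.le⟩

end HS

section final
variable {X : Type*} [MetricSpace X] [CompleteSpace X] {c : ℝ}
  {m n : ℕ} (f : X → Fin m → ℝ) (η : ℝ)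

/-- Stokes' theorem for functions of `hgen`. -/
theorem hgen_stokes (hc : 0 < c) (U : UC X c) (x : Fin (n + 2) → X) (hx : Small f η x)
    (G : Fin (n + 2) → (Fin m → ℝ) → ℝ) (K : ℝ≥0) (hG : ∀ i, LipschitzWith K (G i)) :
    ∫ p in Icc (0 : Fin (n + 2) → ℝ) 1, jac (fun i p => G i (hgen f x p)) p =
      (∫ s in Icc (0 : Fin (n + 1) → ℝ) 1, G 0 (f (cube x s)) *
        jac (fun i s => G i.succ (f (cube x s))) s) -
      (∫ s in Icc (0 : Fin (n + 1) → ℝ) 1,
        G 0 (lam (fun i => lab m (f (x i))) (duffy (n + 1) s)) *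
        jac (fun i s => G i.succ (lam (fun i => lab m (f (x i))) (duffy (n + 1) s))) s) -
      ∑ i : Fin (n + 2), (-1 : ℝ) ^ (i : ℕ) *
        ∫ p in Icc (0 : Fin (n + 1) → ℝ) 1, G 0 (hgen f (x ∘ i.succAbove) p) *
          jac (fun j p => G j.succ (hgen f (x ∘ i.succAbove) p)) p := by
  obtain ⟨K', hK'⟩ := hx.lipschitz_hgen hc U
  have hst := stokes (fun i p => G i (hgen f x p)) (K * K') (fun i => (hG i).comp hK')
  rw [← hst, Fin.sum_univ_succ]
  have hT1 : (∫ s in Icc (0 : Fin (n + 1) → ℝ) 1,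
      G 0 (hgen f x ((0 : Fin (n + 2)).insertNth 1 s)) *
        jac (fun i s => G i.succ (hgen f x ((0 : Fin (n + 2)).insertNth 1 s))) s) =
      ∫ s in Icc (0 : Fin (n + 1) → ℝ) 1, G 0 (f (cube x s)) *
        jac (fun i s => G i.succ (f (cube x s))) s := by
    simp only [hgen_face_one_zero]
  have hT0 : (∫ s in Icc (0 : Fin (n + 1) → ℝ) 1,
      G 0 (hgen f x ((0 : Fin (n + 2)).insertNth 0 s)) *
        jac (fun i s => G i.succ (hgen f x ((0 : Fin (n + 2)).insertNth 0 s))) s) =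
      ∫ s in Icc (0 : Fin (n + 1) → ℝ) 1,
        G 0 (lam (fun i => lab m (f (x i))) (duffy (n + 1) s)) *
        jac (fun i s => G i.succ (lam (fun i => lab m (f (x i))) (duffy (n + 1) s))) s := by
    simp only [hgen_face_zero_zero]
    refine setIntegral_congr_ae measurableSet_Icc ?_
    filter_upwards [ae_interior (d := n + 1)] with s hs hsI
    have h1 := clamp_eventually (hs hsI)
    rw [clamp_of_mem hsI]
    congr 1
    refine jac_congr fun i => ?_
    filter_upwards [h1] with t ht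
    rw [ht]
  have hE1 : ∀ l : Fin (n + 1), (∫ s in Icc (0 : Fin (n + 1) → ℝ) 1,
      G 0 (hgen f x (l.succ.insertNth 1 s)) *
        jac (fun i s => G i.succ (hgen f x (l.succ.insertNth 1 s))) s) =
      ∫ p in Icc (0 : Fin (n + 1) → ℝ) 1, G 0 (hgen f (x ∘ l.castSucc.succAbove) p) *
          jac (fun j p => G j.succ (hgen f (x ∘ l.castSucc.succAbove) p)) p := fun l => by
    simp only [hgen_face_one hc U]
  have hE0 : (∫ s in Icc (0 : Fin (n + 1) → ℝ) 1,
      G 0 (hgen f x ((Fin.last n).succ.insertNth 0 s)) *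
        jac (fun i s => G i.succ (hgen f x ((Fin.last n).succ.insertNth 0 s))) s) =
      ∫ p in Icc (0 : Fin (n + 1) → ℝ) 1, G 0 (hgen f (x ∘ (Fin.last (n + 1)).succAbove) p) *
          jac (fun j p => G j.succ (hgen f (x ∘ (Fin.last (n + 1)).succAbove) p)) p := by
    simp only [hgen_face_last hc U]
  have hE0' : ∀ l : Fin n, (∫ s in Icc (0 : Fin (n + 1) → ℝ) 1,
      G 0 (hgen f x (l.castSucc.succ.insertNth 0 s)) *
        jac (fun i s => G i.succ (hgen f x (l.castSucc.succ.insertNth 0 s))) s) = 0 := fun l => by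
    have h1 : ∀ s, jac (fun i s => G i.succ (hgen f x (l.castSucc.succ.insertNth 0 s))) s = 0 := by
      refine jac_eq_zero_of_indep (Fin.last n) (fun i s a => ?_)
      rw [← hgen_face_degenerate f x l.castSucc (Fin.castSucc_lt_last l).ne s a]
    simp only [h1, mul_zero, integral_zero]
  have hsum : ∑ i : Fin (n + 1), (-1 : ℝ) ^ ((i.succ : Fin (n + 2)) : ℕ) *
      ((∫ s in Icc (0 : Fin (n + 1) → ℝ) 1, G 0 (hgen f x (i.succ.insertNth 1 s)) *
        jac (fun j s => G j.succ (hgen f x (i.succ.insertNth 1 s))) s) -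
        ∫ s in Icc (0 : Fin (n + 1) → ℝ) 1, G 0 (hgen f x (i.succ.insertNth 0 s)) *
        jac (fun j s => G j.succ (hgen f x (i.succ.insertNth 0 s))) s) =
      - ∑ i : Fin (n + 2), (-1 : ℝ) ^ (i : ℕ) *
        ∫ p in Icc (0 : Fin (n + 1) → ℝ) 1, G 0 (hgen f (x ∘ i.succAbove) p) *
          jac (fun j p => G j.succ (hgen f (x ∘ i.succAbove) p)) p := by
    simp_rw [hE1, mul_sub]
    rw [Finset.sum_sub_distrib, Fin.sum_univ_castSucc (n := n)
      (f := fun i : Fin (n + 1) => (-1 : ℝ) ^ ((i.succ : Fin (n + 2)) : ℕ) *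
        ∫ s in Icc (0 : Fin (n + 1) → ℝ) 1, G 0 (hgen f x (i.succ.insertNth 0 s)) *
        jac (fun j s => G j.succ (hgen f x (i.succ.insertNth 0 s))) s)]
    simp_rw [hE0', hE0]
    rw [Fin.sum_univ_castSucc (n := n + 1)]
    simp only [mul_zero, Finset.sum_const_zero, zero_add, Fin.val_succ, Fin.val_last,
      Fin.val_castSucc, pow_succ]
    rw [neg_add, ← Finset.sum_neg_distrib]
    congr 1
    · refine Finset.sum_congr rfl fun i _ => by ring
  rw [hT1, hT0, hsum]
  simp
  ring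

end final

end MP629748

end part1

section part2

/-!
P7b: Stokes on the `(k+2)`-cube for the smeared degrees `Jdeg`.
-/

open Set Filter Topology MeasureTheory Metric
open scoped NNReal

namespace MP629748

universe u

/-! ### clamp -/

theorem jb_clamp_mem {k : ℕ} (s : Fin k → ℝ) : clamp s ∈ Icc (0 : Fin k → ℝ) 1 := by
  refine ⟨fun i => ?_, fun i => ?_⟩
  · exact le_max_left _ _
  · exact max_le zero_le_one (min_le_left _ _)

theorem jb_clamp_eq {k : ℕ} {s : Fin k → ℝ} (hs : s ∈ Icc (0 : Fin k → ℝ) 1) : clamp s = s := by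
  funext i
  have h0 : 0 ≤ s i := hs.1 i
  have h1 : s i ≤ 1 := hs.2 i
  simp [clamp, h0, h1]

theorem jb_clamp_lip {k : ℕ} : LipschitzWith 1 (clamp : (Fin k → ℝ) → (Fin k → ℝ)) := by
  refine LipschitzWith.of_dist_le_mul fun s t => ?_
  rw [NNReal.coe_one, one_mul]
  refine (dist_pi_le_iff dist_nonneg).2 fun i => ?_
  refine le_trans ?_ (dist_le_pi_dist s t i)
  have h := (((LipschitzWith.id (α := ℝ)).const_min 1).const_max 0).dist_le_mul (s i) (t i)
  simpa [clamp] using h

theorem jb_clamp_cons {k : ℕ} (a : ℝ) (s : Fin k → ℝ) :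
    clamp (Fin.cons a s : Fin (k + 1) → ℝ) = Fin.cons (max 0 (min 1 a)) (clamp s) := by
  funext i
  refine Fin.cases ?_ (fun i => ?_) i <;> simp [clamp]

theorem jb_clamp_insertNth {k : ℕ} (i : Fin (k + 1)) (a : ℝ) (s : Fin k → ℝ) :
    clamp (i.insertNth a s : Fin (k + 1) → ℝ) = i.insertNth (max 0 (min 1 a)) (clamp s) := by
  funext j
  refine Fin.succAboveCases i ?_ (fun j => ?_) j
  · simp [clamp]
  · simp [clamp]

theorem jb_clamp_clamp {k : ℕ} (s : Fin k → ℝ) : clamp (clamp s) = clamp s :=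
  jb_clamp_eq (jb_clamp_mem s)

/-! ### Lipschitz lemmas -/

theorem jb_lip_smul {E F : Type*} [PseudoMetricSpace E] [NormedAddCommGroup F] [NormedSpace ℝ F]
    {a : E → ℝ} {b : E → F} {Ka Kb A B : ℝ≥0} (ha : LipschitzWith Ka a)
    (hb : LipschitzWith Kb b) (hA : ∀ p, |a p| ≤ A) (hB : ∀ p, ‖b p‖ ≤ B) :
    LipschitzWith (A * Kb + Ka * B) (fun p => a p • b p) := by
  refine LipschitzWith.of_dist_le_mul fun p q => ?_
  have h1 : a p • b p - a q • b q = a p • (b p - b q) + (a p - a q) • b q := by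
    rw [smul_sub, sub_smul]; abel
  rw [dist_eq_norm, h1]
  have h2 : ‖a p • (b p - b q)‖ ≤ A * (Kb * dist p q) := by
    rw [norm_smul, Real.norm_eq_abs, ← dist_eq_norm]
    exact mul_le_mul (hA p) (hb.dist_le_mul p q) dist_nonneg A.2
  have h3 : ‖(a p - a q) • b q‖ ≤ (Ka * dist p q) * B := by
    rw [norm_smul, ← dist_eq_norm]
    exact mul_le_mul (ha.dist_le_mul p q) (hB q) (norm_nonneg _) (by positivity)
  calc ‖a p • (b p - b q) + (a p - a q) • b q‖ ≤ A * (Kb * dist p q) + (Ka * dist p q) * B :=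
        (norm_add_le _ _).trans (add_le_add h2 h3)
    _ = _ := by push_cast; ring

theorem jb_duffy_norm_le {k : ℕ} : ∀ {s : Fin k → ℝ}, s ∈ Icc (0 : Fin k → ℝ) 1 →
    ‖duffy k s‖ ≤ 1 := by
  intro s hs
  have h := duffy_mem hs
  refine (pi_norm_le_iff_of_nonneg zero_le_one).2 fun i => ?_
  rw [Real.norm_eq_abs, abs_of_nonneg (h.1 i), ← h.2]
  exact Finset.single_le_sum (fun j _ => h.1 j) (Finset.mem_univ i)

theorem jb_duffy_lip (k : ℕ) : ∃ K : ℝ≥0, LipschitzWith K (fun s : Fin k → ℝ => duffy k (clamp s)) := by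
  induction k with
  | zero => exact ⟨0, LipschitzWith.of_dist_le_mul fun s t => by simp [duffy]⟩
  | succ k ih =>
    obtain ⟨K, hK⟩ := ih
    -- the functions `s ↦ clamp s 0` and `s ↦ duffy k (clamp (tail s))`
    have h0 : LipschitzWith 1 (fun s : Fin (k + 1) → ℝ => clamp s 0) := by
      refine LipschitzWith.of_dist_le_mul fun s t => ?_
      exact (dist_le_pi_dist _ _ 0).trans (jb_clamp_lip.dist_le_mul s t)
    have ht : LipschitzWith 1 (fun s : Fin (k + 1) → ℝ => (Fin.tail s : Fin k → ℝ)) := by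
      refine LipschitzWith.of_dist_le_mul fun s t => ?_
      rw [NNReal.coe_one, one_mul]
      exact (dist_pi_le_iff dist_nonneg).2 fun i => dist_le_pi_dist s t i.succ
    have h1 : LipschitzWith (K * 1) (fun s : Fin (k + 1) → ℝ => duffy k (clamp (Fin.tail s))) :=
      hK.comp ht
    have h2 := jb_lip_smul (A := 1) (B := 1) h0 h1 (fun s => by
      have := jb_clamp_mem s
      rw [abs_of_nonneg (this.1 0)]; exact_mod_cast this.2 0)
      (fun s => by exact_mod_cast jb_duffy_norm_le (jb_clamp_mem _))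
    refine ⟨1 + (1 * (K * 1) + 1 * 1), ?_⟩
    refine LipschitzWith.of_dist_le_mul fun s t => ?_
    refine (dist_pi_le_iff (by positivity)).2 fun i => ?_
    refine Fin.cases ?_ (fun i => ?_) i
    · have hs : ∀ s : Fin (k + 1) → ℝ, duffy (k + 1) (clamp s) 0 = 1 - clamp s 0 := fun s => rfl
      simp only [hs]
      have e1 := h0.dist_le_mul s t
      have e2 : dist (1 - clamp s 0) (1 - clamp t 0) = dist (clamp s 0) (clamp t 0) := by
        rw [dist_comm (clamp s 0), Real.dist_eq, Real.dist_eq]; congr 1; ring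
      rw [e2]
      refine e1.trans ?_
      refine mul_le_mul_of_nonneg_right ?_ dist_nonneg
      push_cast; nlinarith [K.2, (K : ℝ≥0).coe_nonneg]
    · have hs : ∀ s : Fin (k + 1) → ℝ, duffy (k + 1) (clamp s) i.succ =
          (clamp s 0 • duffy k (clamp (Fin.tail s))) i := fun s => rfl
      simp only [hs]
      refine (dist_le_pi_dist _ _ i).trans ((h2.dist_le_mul s t).trans ?_)
      refine mul_le_mul_of_nonneg_right ?_ dist_nonneg
      push_cast; linarith

theorem jb_lam_lip {m k : ℕ} (l : Fin k → Fin (m + 1)) : ∃ K : ℝ≥0,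
    LipschitzWith K (fun x : Fin k → ℝ => lam l x) := by
  refine ⟨∑ i, ‖ev m (l i)‖₊, LipschitzWith.of_dist_le_mul fun x y => ?_⟩
  rw [dist_eq_norm]
  have h : lam l x - lam l y = ∑ i, (x i - y i) • ev m (l i) := by
    simp [lam, ← Finset.sum_sub_distrib, sub_smul]
  rw [h]
  push_cast
  rw [Finset.sum_mul]
  refine (norm_sum_le _ _).trans (Finset.sum_le_sum fun i _ => ?_)
  rw [norm_smul, mul_comm]
  refine mul_le_mul_of_nonneg_left ?_ (norm_nonneg _)
  rw [← dist_eq_norm]
  exact dist_le_pi_dist x y i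

theorem jb_lam_bound {m k : ℕ} (l : Fin k → Fin (m + 1)) {x : Fin k → ℝ} (hx : ‖x‖ ≤ 1) :
    ‖lam l x‖ ≤ ∑ i, ‖ev m (l i)‖ := by
  refine (norm_sum_le _ _).trans (Finset.sum_le_sum fun i _ => ?_)
  rw [norm_smul]
  calc ‖x i‖ * ‖ev m (l i)‖ ≤ 1 * ‖ev m (l i)‖ :=
        mul_le_mul_of_nonneg_right ((norm_le_pi_norm x i).trans hx) (norm_nonneg _)
    _ = _ := one_mul _

theorem jb_lam_insertNth {m k : ℕ} (l : Fin (k + 1) → Fin (m + 1)) (j : Fin (k + 1))
    (y : Fin k → ℝ) : lam l (j.insertNth 0 y) = lam (l ∘ j.succAbove) y := by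
  unfold lam
  rw [Fin.sum_univ_succAbove _ j]
  simp

/-! ### jacobians that vanish -/

theorem jb_jac_eq_zero {d : ℕ} (u : Fin d → (Fin d → ℝ) → ℝ) (s w : Fin d → ℝ) (hw : w ≠ 0)
    (h : ∀ i, DifferentiableAt ℝ (u i) s → fderiv ℝ (u i) s w = 0) : jac u s = 0 := by
  unfold jac
  refine Matrix.exists_mulVec_eq_zero_iff.1 ⟨w, hw, ?_⟩
  funext i
  have h1 : fderiv ℝ (u i) s w = 0 := by
    by_cases hd : DifferentiableAt ℝ (u i) s
    · exact h i hd
    · rw [fderiv_zero_of_not_differentiableAt hd]; rfl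
  have h2 : w = ∑ j, w j • (Pi.single j (1:ℝ) : Fin d → ℝ) := by
    funext a
    simp [Finset.sum_apply, Pi.single_apply]
  rw [h2, map_sum] at h1
  simp only [Matrix.mulVec, dotProduct, Matrix.of_apply, Pi.zero_apply]
  rw [← h1]
  refine Finset.sum_congr rfl fun j _ => ?_
  rw [map_smul, smul_eq_mul, mul_comm]

theorem jb_jac_comp_eq_zero {d : ℕ} (ρ : (Fin d → ℝ) → ℝ) (hρ : Differentiable ℝ ρ)
    (H : (Fin (d + 1) → ℝ) → Fin d → ℝ) (u : Fin (d + 1) → (Fin (d + 1) → ℝ) → ℝ)
    (hu0 : u 0 = fun p => ρ (H p)) (hu : ∀ i : Fin d, u i.succ = fun p => H p i)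
    (p : Fin (d + 1) → ℝ) : jac u p = 0 := by
  by_cases hd : ∀ i, DifferentiableAt ℝ (fun q => H q i) p
  · have hH : DifferentiableAt ℝ H p := differentiableAt_pi.2 hd
    have hk : LinearMap.ker (fderiv ℝ H p : (Fin (d + 1) → ℝ) →ₗ[ℝ] (Fin d → ℝ)) ≠ ⊥ := by
      refine LinearMap.ker_ne_bot_of_finrank_lt ?_
      simp
    obtain ⟨w, hw, hw0⟩ := (Submodule.ne_bot_iff _).1 hk
    rw [LinearMap.mem_ker] at hw
    have hw' : fderiv ℝ H p w = 0 := hw
    refine jb_jac_eq_zero u p w hw0 fun i hi => ?_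
    refine Fin.cases ?_ (fun i => ?_) i
    · rw [hu0]
      have : (fun p => ρ (H p)) = ρ ∘ H := rfl
      rw [this, fderiv_comp p (hρ _) hH]
      simp [hw']
    · rw [hu]
      rw [fderiv_apply hH i]
      simp [hw']
  · push Not at hd
    obtain ⟨i, hi⟩ := hd
    unfold jac
    refine Matrix.det_eq_zero_of_row_eq_zero i.succ fun j => ?_
    rw [Matrix.of_apply, hu, fderiv_zero_of_not_differentiableAt hi]
    rfl

/-! ### the homotopy from the labelled simplex to `f ∘ cube x` -/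

section G
variable {X : Type*} [MetricSpace X] {k m : ℕ}

/-- linear homotopy from the labelled simplex to `f ∘ cube x` -/
noncomputable def jbG (f : X → Fin m → ℝ) (x : Fin (k + 1) → X) (p : Fin (k + 1) → ℝ) :
    Fin m → ℝ :=
  (1 - clamp p 0) • lam (fun i => lab m (f (x i))) (duffy k (clamp (Fin.tail p))) +
    clamp p 0 • f (cube x (Fin.tail p))

theorem jbG_cons (f : X → Fin m → ℝ) (x : Fin (k + 1) → X) (a : ℝ) (s : Fin k → ℝ) :
    jbG f x (Fin.cons a s : Fin (k + 1) → ℝ) =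
      (1 - max 0 (min 1 a)) • lam (fun i => lab m (f (x i))) (duffy k (clamp s)) +
        max 0 (min 1 a) • f (cube x s) := by
  simp [jbG, jb_clamp_cons]

theorem jbG_eq_hmap (f : X → Fin (k + 1) → ℝ) (x : Fin (k + 1) → X) : jbG f x = hmap f x := rfl

theorem jb_cube_clamp (x : Fin (k + 1) → X) (s : Fin k → ℝ) :
    cube x s = bary x (duffy k (clamp s)) := rfl

variable [CompleteSpace X] {c : ℝ} (U : UC X c) (hc : 0 < c)
include U hc

theorem jb_cube_face_one (x : Fin (k + 2) → X) (i : Fin (k + 1)) (s : Fin k → ℝ) :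
    cube x (i.insertNth 1 s) = cube (x ∘ i.castSucc.succAbove) s := by
  rw [jb_cube_clamp, jb_clamp_insertNth]
  have h1 : max (0:ℝ) (min 1 1) = 1 := by simp
  rw [h1, duffy_face_one, bary_face U hc x _ (duffy_mem (jb_clamp_mem s)), jb_cube_clamp]

theorem jb_cube_face_last (x : Fin (k + 2) → X) (s : Fin k → ℝ) :
    cube x ((Fin.last k).insertNth 0 s) = cube (x ∘ (Fin.last (k + 1)).succAbove) s := by
  rw [jb_cube_clamp, jb_clamp_insertNth]
  have h1 : max (0:ℝ) (min 1 0) = 0 := by simp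
  rw [h1, duffy_face_last, bary_face U hc x _ (duffy_mem (jb_clamp_mem s)), jb_cube_clamp]

theorem jbG_face_one (f : X → Fin m → ℝ) (x : Fin (k + 2) → X) (i : Fin (k + 1))
    (q : Fin (k + 1) → ℝ) :
    jbG f x (i.succ.insertNth 1 q) = jbG f (x ∘ i.castSucc.succAbove) q := by
  rw [← Fin.cons_self_tail q, Fin.insertNth_succ_cons, jbG_cons, jbG_cons,
    jb_cube_face_one U hc, jb_clamp_insertNth]
  have h1 : max (0:ℝ) (min 1 1) = 1 := by simp
  rw [h1, duffy_face_one, jb_lam_insertNth]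
  rfl

theorem jbG_face_last (f : X → Fin m → ℝ) (x : Fin (k + 2) → X)
    (q : Fin (k + 1) → ℝ) :
    jbG f x ((Fin.last k).succ.insertNth 0 q) = jbG f (x ∘ (Fin.last (k + 1)).succAbove) q := by
  rw [← Fin.cons_self_tail q, Fin.insertNth_succ_cons, jbG_cons, jbG_cons,
    jb_cube_face_last U hc, jb_clamp_insertNth]
  have h1 : max (0:ℝ) (min 1 0) = 0 := by simp
  rw [h1, duffy_face_last, jb_lam_insertNth]
  rfl

omit [CompleteSpace X] U hc in
theorem jbG_face_degenerate (f : X → Fin m → ℝ) (x : Fin (k + 2) → X) (i : Fin (k + 1))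
    (hi : i ≠ Fin.last k) (q q' : Fin (k + 1) → ℝ) (hq : ∀ j, j ≠ Fin.last k → q j = q' j) :
    jbG f x (i.succ.insertNth 0 q) = jbG f x (i.succ.insertNth 0 q') := by
  have hlt : i < Fin.last k := lt_of_le_of_ne (Fin.le_last i) hi
  have hk : 0 < k := by
    rcases Nat.eq_zero_or_pos k with h | h
    · subst h; exact absurd (Subsingleton.elim (α := Fin 1) i (Fin.last 0)) hi
    · exact h
  have h0 : q 0 = q' 0 := hq 0 (by
    intro h
    have := congrArg Fin.val h
    simp at this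
    omega)
  have hduffy : duffy (k + 1) (clamp (i.insertNth 0 (Fin.tail q) : Fin (k + 1) → ℝ)) =
      duffy (k + 1) (clamp (i.insertNth 0 (Fin.tail q') : Fin (k + 1) → ℝ)) := by
    refine duffy_degenerate i _ _ (by simp [clamp]) (by simp [clamp]) fun j hj => ?_
    rw [jb_clamp_insertNth, jb_clamp_insertNth]
    obtain ⟨j', rfl⟩ := Fin.exists_succAbove_eq (ne_of_lt hj)
    simp only [Fin.insertNth_apply_succAbove]
    have hj' : Fin.tail q j' = Fin.tail q' j' := by
      refine hq _ fun h => ?_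
      have h1 : (j'.succ : Fin (k + 1)).val = k := by rw [h]; rfl
      have h2 : j'.castSucc < i := by
        by_contra hcon
        push Not at hcon
        rw [Fin.succAbove_of_le_castSucc _ _ hcon] at hj
        have h3 : i.val ≤ j'.val := hcon
        have h4 : j'.val + 1 < i.val := hj
        omega
      have h3 : j'.val < i.val := h2
      have h4 : i.val < k := hlt
      simp at h1
      omega
    simp only [clamp, hj']
  rw [← Fin.cons_self_tail q, ← Fin.cons_self_tail q', Fin.insertNth_succ_cons,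
    Fin.insertNth_succ_cons, jbG_cons, jbG_cons, jb_cube_clamp, jb_cube_clamp, h0, hduffy]

theorem jb_cube_mem_ball (x : Fin (k + 1) → X) {z : X} {r : ℝ} (hr : 0 < r)
    (hx : ∀ i, dist (x i) z < r / 8) (s : Fin k → ℝ) : cube x s ∈ ball z r := by
  rw [mem_ball, jb_cube_clamp]
  refine lt_of_le_of_lt (dist_bary_le U hc x _ (duffy_mem (jb_clamp_mem s)) z (r / 8)
    fun i => (hx i).le) ?_
  linarith

theorem jb_f_cube (f : X → Fin m → ℝ) (η : ℝ) (x : Fin (k + 1) → X) (hx : Small f η x) :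
    (∃ K : ℝ≥0, LipschitzWith K (fun s => f (cube x s))) ∧
      ∃ B : ℝ≥0, ∀ s, ‖f (cube x s)‖ ≤ B := by
  obtain ⟨z, r, ⟨hr, ⟨K, hK⟩, hosc⟩, hxz⟩ := hx
  obtain ⟨K', hK'⟩ := cube_lipschitz U hc x
  constructor
  · refine ⟨K * K', LipschitzWith.of_dist_le_mul fun s t => ?_⟩
    refine (hK.dist_le_mul _ (jb_cube_mem_ball U hc x hr hxz s) _
      (jb_cube_mem_ball U hc x hr hxz t)).trans ?_
    rw [NNReal.coe_mul, mul_assoc]
    exact mul_le_mul_of_nonneg_left (hK'.dist_le_mul s t) K.2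
  · refine ⟨‖f z‖₊ + Real.toNNReal η, fun s => ?_⟩
    have h1 := hosc _ (jb_cube_mem_ball U hc x hr hxz s) z (mem_ball_self hr)
    have h2 : ‖f (cube x s)‖ ≤ ‖f z‖ + ‖f (cube x s) - f z‖ := by
      have := norm_add_le (f z) (f (cube x s) - f z)
      rwa [add_sub_cancel] at this
    have h3 : η ≤ Real.toNNReal η := Real.le_coe_toNNReal η
    push_cast
    linarith

theorem jbG_lipschitz (f : X → Fin m → ℝ) (η : ℝ) (x : Fin (k + 1) → X) (hx : Small f η x) :
    ∃ K : ℝ≥0, LipschitzWith K (jbG f x) := by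
  obtain ⟨⟨Kf, hKf⟩, ⟨B, hB⟩⟩ := jb_f_cube U hc f η x hx
  obtain ⟨Kd, hKd⟩ := jb_duffy_lip k
  obtain ⟨Kl, hKl⟩ := jb_lam_lip (fun i => lab m (f (x i)))
  have htail : LipschitzWith 1 (fun s : Fin (k + 1) → ℝ => (Fin.tail s : Fin k → ℝ)) := by
    refine LipschitzWith.of_dist_le_mul fun s t => ?_
    rw [NNReal.coe_one, one_mul]
    exact (dist_pi_le_iff dist_nonneg).2 fun i => dist_le_pi_dist s t i.succ
  have h0 : LipschitzWith 1 (fun s : Fin (k + 1) → ℝ => clamp s 0) := by
    refine LipschitzWith.of_dist_le_mul fun s t => ?_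
    exact (dist_le_pi_dist _ _ 0).trans (jb_clamp_lip.dist_le_mul s t)
  have h0' : LipschitzWith 1 (fun s : Fin (k + 1) → ℝ => 1 - clamp s 0) := by
    refine LipschitzWith.of_dist_le_mul fun s t => ?_
    have e2 : dist (1 - clamp s 0) (1 - clamp t 0) = dist (clamp s 0) (clamp t 0) := by
      rw [dist_comm (clamp s 0), Real.dist_eq, Real.dist_eq]; congr 1; ring
    rw [e2]
    exact h0.dist_le_mul s t
  have hb : ∀ s : Fin (k + 1) → ℝ, 0 ≤ clamp s 0 ∧ clamp s 0 ≤ 1 := fun s =>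
    ⟨(jb_clamp_mem s).1 0, (jb_clamp_mem s).2 0⟩
  have h1 : LipschitzWith (Kl * (Kd * 1)) (fun p : Fin (k + 1) → ℝ =>
      lam (fun i => lab m (f (x i))) (duffy k (clamp (Fin.tail p)))) :=
    hKl.comp (hKd.comp htail)
  have h2 : LipschitzWith (Kf * 1) (fun p : Fin (k + 1) → ℝ => f (cube x (Fin.tail p))) :=
    hKf.comp htail
  have h3 := jb_lip_smul (A := 1) (B := ∑ i, ‖ev m (lab m (f (x i)))‖₊) h0' h1
    (fun p => by
      rw [abs_of_nonneg (by linarith [(hb p).2])]
      push_cast; linarith [(hb p).1])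
    (fun p => by
      push_cast
      exact jb_lam_bound _ (jb_duffy_norm_le (jb_clamp_mem _)))
  have h4 := jb_lip_smul (A := 1) (B := B) h0 h2
    (fun p => by
      rw [abs_of_nonneg (hb p).1]
      exact_mod_cast (hb p).2)
    (fun p => hB _)
  exact ⟨_, h3.add h4⟩

end G

/-! ### the faces `t = 0` and `t = 1` -/

theorem jb_integral_congr_Ioo {d : ℕ} (F G : (Fin d → ℝ) → ℝ)
    (h : ∀ s : Fin d → ℝ, (∀ i, s i ∈ Ioo (0:ℝ) 1) → F s = G s) :
    ∫ s in Icc (0 : Fin d → ℝ) 1, F s = ∫ s in Icc (0 : Fin d → ℝ) 1, G s := by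
  have h1 : (Set.pi univ fun _ : Fin d => Ioo (0:ℝ) 1) =ᵐ[volume] Icc (0 : Fin d → ℝ) 1 :=
    Measure.univ_pi_Ioo_ae_eq_Icc
  rw [← setIntegral_congr_set h1, ← setIntegral_congr_set h1]
  refine setIntegral_congr_fun (MeasurableSet.univ_pi fun _ => measurableSet_Ioo) fun s hs => ?_
  exact h s fun i => hs i (mem_univ i)

theorem jb_clamp_eventually {d : ℕ} {s : Fin d → ℝ} (hs : ∀ i, s i ∈ Ioo (0:ℝ) 1) :
    ∀ᶠ t in 𝓝 s, clamp t = t := by
  have h1 : ∀ᶠ t : Fin d → ℝ in 𝓝 s, ∀ i, t i ∈ Ioo (0:ℝ) 1 := by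
    refine Filter.eventually_all.2 fun i => ?_
    exact (continuous_apply i).continuousAt.eventually (isOpen_Ioo.mem_nhds (hs i))
  filter_upwards [h1] with t ht
  exact jb_clamp_eq ⟨fun i => (ht i).1.le, fun i => (ht i).2.le⟩

theorem jb_rank_jac {X : Type u} [MetricSpace X] {n d : ℕ} (hn : n < d) (hR : RankLE n X)
    (g : (Fin d → ℝ) → X) (K : ℝ≥0) (hg : LipschitzWith K g) (S : Set X)
    (hS : ∀ s, g s ∈ S) (f : X → Fin d → ℝ) (K' : ℝ≥0) (hf : LipschitzOnWith K' f S) :
    ∀ᵐ s : Fin d → ℝ, jac (fun i s => f (g s) i) s = 0 := by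
  filter_upwards [hR d g K hg] with s hs
  obtain ⟨L, hL, hT⟩ := hs
  have hLne : L ≠ ⊥ := by
    intro h
    subst h
    have h1 : Module.finrank ℝ ((Fin d → ℝ) ⧸ (⊥ : Submodule ℝ (Fin d → ℝ))) = d := by
      have := Submodule.finrank_quotient_add_finrank (⊥ : Submodule ℝ (Fin d → ℝ))
      simpa using this
    omega
  obtain ⟨w, hwL, hw0⟩ := (Submodule.ne_bot_iff _).1 hLne
  refine jb_jac_eq_zero _ s w hw0 fun i hi => ?_
  -- the derivative along `w` is the limit of difference quotients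
  have hd : HasFDerivAt (fun s => f (g s) i) (fderiv ℝ (fun s => f (g s) i) s) s :=
    hi.hasFDerivAt
  have hline : HasDerivAt (fun τ : ℝ => f (g (s + τ • w)) i)
      (fderiv ℝ (fun s => f (g s) i) s w) 0 := by
    have h1 : HasDerivAt (fun τ : ℝ => s + τ • w) w 0 := by
      simpa using ((hasDerivAt_id (0:ℝ)).smul_const w).const_add s
    have h2 : HasFDerivAt (fun s => f (g s) i) (fderiv ℝ (fun s => f (g s) i) s)
        ((fun τ : ℝ => s + τ • w) 0) := by simpa using hd
    exact h2.comp_hasDerivAt 0 h1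
  have hzero : HasDerivAt (fun τ : ℝ => f (g (s + τ • w)) i) 0 0 := by
    rw [hasDerivAt_iff_isLittleO_nhds_zero, Asymptotics.isLittleO_iff]
    intro ε hε
    have hwn : 0 < ‖w‖ := norm_pos_iff.2 hw0
    -- choose the tolerance
    have hK1 : (0:ℝ) < K' * ‖w‖ + 1 := by positivity
    have hT' := (Metric.tendsto_nhds.1 hT) (ε / (K' * ‖w‖ + 1)) (by positivity)
    have htend : Tendsto (fun τ : ℝ => τ • w) (𝓝[≠] 0) (𝓝[(L : Set (Fin d → ℝ)) \ {0}] 0) := by
      refine tendsto_nhdsWithin_iff.2 ⟨?_, ?_⟩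
      · have : Tendsto (fun τ : ℝ => τ • w) (𝓝 0) (𝓝 ((0:ℝ) • w)) :=
          (continuous_id.smul continuous_const).tendsto 0
        rw [zero_smul] at this
        exact this.mono_left nhdsWithin_le_nhds
      · filter_upwards [self_mem_nhdsWithin] with τ hτ
        exact ⟨L.smul_mem _ hwL, smul_ne_zero hτ hw0⟩
    have hev := htend.eventually hT'
    rw [eventually_nhdsWithin_iff] at hev
    filter_upwards [hev] with τ hτ
    by_cases h0 : τ = 0
    · subst h0; simp
    · have h1 := hτ h0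
      rw [Real.dist_eq, sub_zero, abs_of_nonneg (by positivity)] at h1
      have hτw : 0 < ‖τ • w‖ := norm_pos_iff.2 (smul_ne_zero h0 hw0)
      rw [div_lt_iff₀ hτw] at h1
      have h2 : ‖f (g (s + τ • w)) i - f (g s) i‖ ≤ K' * dist (g (s + τ • w)) (g s) := by
        rw [← dist_eq_norm]
        exact (dist_le_pi_dist _ _ i).trans (hf.dist_le_mul _ (hS _) _ (hS _))
      simp only [zero_add, zero_smul, add_zero, smul_zero, sub_zero]
      refine h2.trans ?_
      rw [norm_smul] at h1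
      have h3 : K' * dist (g (s + τ • w)) (g s) ≤ K' * (ε / (K' * ‖w‖ + 1) * (‖τ‖ * ‖w‖)) :=
        mul_le_mul_of_nonneg_left h1.le K'.2
      refine h3.trans ?_
      have h4 : K' * (ε / (K' * ‖w‖ + 1) * (‖τ‖ * ‖w‖)) =
          (K' * ‖w‖) / (K' * ‖w‖ + 1) * (ε * ‖τ‖) := by ring
      rw [h4]
      have h5 : (K' * ‖w‖) / (K' * ‖w‖ + 1) ≤ 1 := by
        rw [div_le_one hK1]; linarith
      have h6 : 0 ≤ ε * ‖τ‖ := by positivity
      nlinarith
  exact hline.unique hzero

/-! ### the main statement -/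

theorem jb_Jdeg_eq {X : Type*} [MetricSpace X] {k : ℕ} (f : X → Fin (k + 1) → ℝ)
    (ρ : (Fin (k + 1) → ℝ) → ℝ) (x : Fin (k + 1) → X)
    (G : (Fin (k + 1) → ℝ) → Fin (k + 1) → ℝ) (hG : ∀ q, G q = jbG f x q) :
    ∫ q in Icc (0 : Fin (k + 1) → ℝ) 1, ρ (G q) * jac (fun i q => G q i) q = Jdeg f ρ x := by
  have h : G = hmap f x := funext hG
  subst h
  rfl

/-- P7b (R1): Stokes on the `(k+2)`-cube. -/
theorem Jdeg_boundary {X : Type u} [MetricSpace X] [CompleteSpace X] {c : ℝ} (hc : 0 < c)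
    (U : UC X c) {n k : ℕ} (hk : n ≤ k) (hR : RankLE n X) (f : X → Fin (k + 1) → ℝ) (η : ℝ)
    (_hη : η ≤ 1 / (16 * ((k + 1 : ℕ) + 1))) (ρ : (Fin (k + 1) → ℝ) → ℝ) (hρ : ContDiff ℝ 2 ρ)
    (hρs : ∀ v, ρ v ≠ 0 → ‖v‖ < rB (k + 1)) (x : Fin (k + 2) → X) (hx : Small f η x) :
    ∑ i : Fin (k + 2), (-1 : ℝ) ^ (i : ℕ) * Jdeg f ρ (x ∘ i.succAbove) =
      -(sgn0 k * csgn (fun i => lab (k + 1) (f (x i))) * ∫ v, ρ v) := by
  -- `ρ` is Lipschitz
  have hcs : HasCompactSupport ρ := by
    refine HasCompactSupport.intro (K := closedBall 0 (rB (k + 1))) (isCompact_closedBall _ _) ?_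
    intro v hv
    by_contra h
    exact hv (mem_closedBall_zero_iff.2 (hρs v h).le)
  obtain ⟨Kρ, hKρ⟩ := hρ.lipschitzWith_of_hasCompactSupport hcs (by norm_num)
  obtain ⟨KG, hKG⟩ := jbG_lipschitz U hc f η x hx
  -- the functions
  set u : Fin (k + 2) → (Fin (k + 2) → ℝ) → ℝ :=
    Fin.cons (fun p => ρ (jbG f x p)) (fun i p => jbG f x p i) with hu
  have hu0 : u 0 = fun p => ρ (jbG f x p) := rfl
  have hus : ∀ i : Fin (k + 1), u i.succ = fun p => jbG f x p i := fun i => rfl
  have hLip : ∀ i, LipschitzWith (max (Kρ * KG) KG) (u i) := by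
    intro i
    refine Fin.cases ?_ (fun i => ?_) i
    · rw [hu0]; exact (hKρ.comp hKG).weaken (le_max_left _ _)
    · rw [hus]
      refine LipschitzWith.weaken ?_ (le_max_right (Kρ * KG) KG)
      exact LipschitzWith.of_dist_le_mul fun p q =>
        (dist_le_pi_dist _ _ i).trans (hKG.dist_le_mul p q)
  have hst := stokes u _ hLip
  have hjac : ∀ p, jac u p = 0 := fun p =>
    jb_jac_comp_eq_zero ρ (hρ.differentiable (by norm_num)) (jbG f x) u hu0 hus p
  have hrhs : ∫ s in Icc (0 : Fin (k + 2) → ℝ) 1, jac u s = 0 := by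
    simp [hjac]
  rw [hrhs, Fin.sum_univ_succ] at hst
  -- the faces `s_i = 1`
  have hone : ∀ i : Fin (k + 1), (∫ s in Icc (0 : Fin (k + 1) → ℝ) 1, u 0 (i.succ.insertNth 1 s) *
      jac (fun a s => u a.succ (i.succ.insertNth 1 s)) s) =
      Jdeg f ρ (x ∘ i.castSucc.succAbove) := fun i =>
    jb_Jdeg_eq f ρ _ (fun q => jbG f x (i.succ.insertNth 1 q))
      (fun q => jbG_face_one U hc f x i q)
  -- the face `s_last = 0`
  have hlast : (∫ s in Icc (0 : Fin (k + 1) → ℝ) 1, u 0 ((Fin.last k).succ.insertNth 0 s) *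
      jac (fun a s => u a.succ ((Fin.last k).succ.insertNth 0 s)) s) =
      Jdeg f ρ (x ∘ (Fin.last (k + 1)).succAbove) :=
    jb_Jdeg_eq f ρ _ (fun q => jbG f x ((Fin.last k).succ.insertNth 0 q))
      (fun q => jbG_face_last U hc f x q)
  -- the degenerate faces
  have hdeg : ∀ i : Fin (k + 1), i ≠ Fin.last k →
      (∫ s in Icc (0 : Fin (k + 1) → ℝ) 1, u 0 (i.succ.insertNth 0 s) *
        jac (fun a s => u a.succ (i.succ.insertNth 0 s)) s) = 0 := by
    intro i hi
    have hz : ∀ s : Fin (k + 1) → ℝ, jac (fun a s => u a.succ (i.succ.insertNth 0 s)) s = 0 := by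
      intro s
      refine jb_jac_eq_zero _ s (Pi.single (Fin.last k) 1) (by simp) fun a ha => ?_
      have hconst : ∀ τ : ℝ, u a.succ (i.succ.insertNth 0
          (s + τ • (Pi.single (Fin.last k) (1:ℝ) : Fin (k + 1) → ℝ))) =
          u a.succ (i.succ.insertNth 0 s) := by
        intro τ
        rw [hus]
        simp only
        rw [jbG_face_degenerate f x i hi _ s fun j hj => by simp [hj]]
      have hline : HasDerivAt (fun τ : ℝ => u a.succ (i.succ.insertNth 0
          (s + τ • (Pi.single (Fin.last k) (1:ℝ) : Fin (k + 1) → ℝ))))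
          (fderiv ℝ (fun s => u a.succ (i.succ.insertNth 0 s)) s (Pi.single (Fin.last k) 1)) 0 := by
        have h1 : HasDerivAt (fun τ : ℝ => s + τ • (Pi.single (Fin.last k) (1:ℝ) :
            Fin (k + 1) → ℝ)) (Pi.single (Fin.last k) 1) 0 := by
          simpa using ((hasDerivAt_id (0:ℝ)).smul_const
            (Pi.single (Fin.last k) (1:ℝ) : Fin (k + 1) → ℝ)).const_add s
        have h2 : HasFDerivAt (fun s => u a.succ (i.succ.insertNth 0 s))
            (fderiv ℝ (fun s => u a.succ (i.succ.insertNth 0 s)) s)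
            ((fun τ : ℝ => s + τ • (Pi.single (Fin.last k) (1:ℝ) : Fin (k + 1) → ℝ)) 0) := by
          simpa using ha.hasFDerivAt
        exact h2.comp_hasDerivAt 0 h1
      simp only [hconst] at hline
      exact hline.unique (hasDerivAt_const _ _)
    simp only [hz, mul_zero, integral_zero]
  -- the face `t = 1`
  have ht1 : (∫ s in Icc (0 : Fin (k + 1) → ℝ) 1, u 0 ((0 : Fin (k + 2)).insertNth 1 s) *
      jac (fun a s => u a.succ ((0 : Fin (k + 2)).insertNth 1 s)) s) = 0 := by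
    have hface : ∀ s : Fin (k + 1) → ℝ, jbG f x ((0 : Fin (k + 2)).insertNth 1 s) =
        f (cube x s) := by
      intro s
      rw [Fin.insertNth_zero', jbG_cons]
      simp
    obtain ⟨z, r, ⟨hr, ⟨K, hK⟩, hosc⟩, hxz⟩ := hx
    obtain ⟨K', hK'⟩ := cube_lipschitz U hc x
    have hae := jb_rank_jac (Nat.lt_succ_of_le hk) hR (cube x) K' hK' (ball z r)
      (jb_cube_mem_ball U hc x hr hxz) f K hK
    refine integral_eq_zero_of_ae ?_
    refine ae_restrict_of_ae ?_
    filter_upwards [hae] with s hs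
    have : (fun (a : Fin (k + 1)) (s : Fin (k + 1) → ℝ) =>
        u a.succ ((0 : Fin (k + 2)).insertNth 1 s)) = fun i s => f (cube x s) i := by
      funext a s
      rw [hus]
      simp only
      rw [hface]
    simp only [Pi.zero_apply]
    rw [this, hs, mul_zero]
  -- the face `t = 0`
  have ht0 : (∫ s in Icc (0 : Fin (k + 1) → ℝ) 1, u 0 ((0 : Fin (k + 2)).insertNth 0 s) *
      jac (fun a s => u a.succ ((0 : Fin (k + 2)).insertNth 0 s)) s) =
      sgn0 k * csgn (fun i => lab (k + 1) (f (x i))) * ∫ v, ρ v := by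
    have hface : ∀ s : Fin (k + 1) → ℝ, jbG f x ((0 : Fin (k + 2)).insertNth 0 s) =
        lam (fun i => lab (k + 1) (f (x i))) (duffy (k + 1) (clamp s)) := by
      intro s
      rw [Fin.insertNth_zero', jbG_cons]
      simp
    have hsgn := (exists_sign k).choose_spec.2 (fun i => lab (k + 1) (f (x i))) ρ
      hρ.continuous hρs
    have hdef : (exists_sign k).choose = sgn0 k := rfl
    rw [hdef] at hsgn
    rw [← hsgn]
    refine jb_integral_congr_Ioo _ _ fun s hs => ?_
    have hsI : s ∈ Icc (0 : Fin (k + 1) → ℝ) 1 := ⟨fun i => (hs i).1.le, fun i => (hs i).2.le⟩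
    have e1 : u 0 ((0 : Fin (k + 2)).insertNth 0 s) =
        ρ (lam (fun i => lab (k + 1) (f (x i))) (duffy (k + 1) s)) := by
      rw [hu0]
      simp only
      rw [hface, jb_clamp_eq hsI]
    have e2 : jac (fun a s => u a.succ ((0 : Fin (k + 2)).insertNth 0 s)) s =
        jac (fun i s => lam (fun i => lab (k + 1) (f (x i))) (duffy (k + 1) s) i) s := by
      unfold jac
      congr 1
      ext a b
      simp only [Matrix.of_apply]
      have : (fun s => u a.succ ((0 : Fin (k + 2)).insertNth 0 s)) =ᶠ[𝓝 s]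
          fun s => lam (fun i => lab (k + 1) (f (x i))) (duffy (k + 1) s) a := by
        filter_upwards [jb_clamp_eventually hs] with t ht
        rw [hus]
        simp only
        rw [hface, ht]
      rw [this.fderiv_eq]
    rw [e1, e2]
  rw [ht1, ht0] at hst
  simp only [hone] at hst
  rw [Fin.sum_univ_castSucc] at hst
  rw [hlast] at hst
  have hsum : ∑ i : Fin k, (-1 : ℝ) ^ ((i.castSucc.succ : Fin (k + 2)) : ℕ) *
      (Jdeg f ρ (x ∘ i.castSucc.castSucc.succAbove) -
        ∫ s in Icc (0 : Fin (k + 1) → ℝ) 1, u 0 (i.castSucc.succ.insertNth 0 s) *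
        jac (fun a s => u a.succ (i.castSucc.succ.insertNth 0 s)) s) =
      - ∑ i : Fin k, (-1 : ℝ) ^ (i : ℕ) * Jdeg f ρ (x ∘ i.castSucc.castSucc.succAbove) := by
    rw [← Finset.sum_neg_distrib]
    refine Finset.sum_congr rfl fun i _ => ?_
    rw [hdeg i.castSucc (Fin.castSucc_lt_last i).ne]
    simp only [Fin.val_succ, Fin.val_castSucc, pow_succ]
    ring
  rw [hsum] at hst
  rw [Fin.sum_univ_castSucc, Fin.sum_univ_castSucc]
  simp only [Fin.val_succ, Fin.val_castSucc, Fin.val_last, Fin.val_zero, pow_zero, pow_succ] at hst ⊢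
  linarith

end MP629748

end part2

section part3

/-! P7d: integrality of the smeared degree. -/

open Set Filter Topology MeasureTheory Metric
open scoped NNReal

namespace MP629748

universe u

namespace JI

open HS

/-- determinant of the matrix with first row `w` and the unit vectors `j.succAbove i` below -/
theorem det_cons {n : ℕ} (w : Fin (n + 1) → ℝ) (j : Fin (n + 1)) :
    (Matrix.of (Fin.cons w (fun i : Fin n => (Pi.single (j.succAbove i) 1 : Fin (n + 1) → ℝ))) :
      Matrix (Fin (n + 1)) (Fin (n + 1)) ℝ).det = (-1) ^ (j : ℕ) * w j := by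
  rw [Matrix.det_succ_row_zero, Finset.sum_eq_single j]
  · have h : (Matrix.of (Fin.cons w (fun i : Fin n =>
        (Pi.single (j.succAbove i) 1 : Fin (n + 1) → ℝ))) :
        Matrix (Fin (n + 1)) (Fin (n + 1)) ℝ).submatrix Fin.succ j.succAbove = 1 := by
      ext i l
      simp only [Matrix.submatrix_apply, Matrix.of_apply, Fin.cons_succ, Matrix.one_apply,
        Pi.single_apply, Fin.succAbove_right_inj]
      by_cases hil : i = l
      · simp [hil]
      · simp [hil, Ne.symm hil]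
    rw [h]
    simp
  · intro a _ ha
    obtain ⟨i₀, hi₀⟩ := Fin.exists_succAbove_eq ha
    have h : ((Matrix.of (Fin.cons w (fun i : Fin n =>
        (Pi.single (j.succAbove i) 1 : Fin (n + 1) → ℝ))) :
        Matrix (Fin (n + 1)) (Fin (n + 1)) ℝ).submatrix Fin.succ a.succAbove).det = 0 := by
      refine Matrix.det_eq_zero_of_row_eq_zero i₀ fun l => ?_
      simp only [Matrix.submatrix_apply, Matrix.of_apply, Fin.cons_succ, Pi.single_apply]
      rw [if_neg]
      rw [hi₀]
      exact Fin.succAbove_ne a l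
    rw [h, mul_zero]
  · intro h; exact absurd (Finset.mem_univ j) h

/-- the Jacobian of `(Φ ∘ h, h_i (i ≠ j))` -/
theorem jac_cons {n : ℕ} (Φ : (Fin (n + 1) → ℝ) → ℝ) (j : Fin (n + 1))
    (h : (Fin (n + 1) → ℝ) → (Fin (n + 1) → ℝ)) (p : Fin (n + 1) → ℝ)
    (hh : DifferentiableAt ℝ h p) (hΦ : DifferentiableAt ℝ Φ (h p)) :
    jac (fun i p => (Fin.cons Φ (fun (i : Fin n) (v : Fin (n + 1) → ℝ) => v (j.succAbove i)) :
      Fin (n + 1) → (Fin (n + 1) → ℝ) → ℝ) i (h p)) p =
      (-1) ^ (j : ℕ) * (fderiv ℝ Φ (h p) (Pi.single j 1) * jac (fun i p => h p i) p) := by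
  have hi : ∀ i l, fderiv ℝ (fun p => h p i) p (Pi.single l 1) = fderiv ℝ h p (Pi.single l 1) i := by
    intro i l
    have h1 : HasFDerivAt (fun p => h p i)
        ((ContinuousLinearMap.proj (R := ℝ) (φ := fun _ : Fin (n + 1) => ℝ) i).comp
          (fderiv ℝ h p)) p := hasFDerivAt_pi'.mp hh.hasFDerivAt i
    rw [h1.fderiv]
    rfl
  have hM : (Matrix.of fun i l => fderiv ℝ ((fun i p => (Fin.cons Φ
      (fun (i : Fin n) (v : Fin (n + 1) → ℝ) => v (j.succAbove i)) :
      Fin (n + 1) → (Fin (n + 1) → ℝ) → ℝ) i (h p)) i) p (Pi.single l 1)) =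
      (Matrix.of (Fin.cons (fun a => fderiv ℝ Φ (h p) (Pi.single a 1))
        (fun i : Fin n => (Pi.single (j.succAbove i) 1 : Fin (n + 1) → ℝ))) :
        Matrix (Fin (n + 1)) (Fin (n + 1)) ℝ) *
      (Matrix.of fun i l => fderiv ℝ (fun p => h p i) p (Pi.single l 1)) := by
    ext i l
    rw [Matrix.mul_apply]
    simp only [Matrix.of_apply]
    refine Fin.cases ?_ (fun i => ?_) i
    · simp only [Fin.cons_zero]
      have h1 : fderiv ℝ (fun p => Φ (h p)) p = (fderiv ℝ Φ (h p)).comp (fderiv ℝ h p) :=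
        fderiv_comp p hΦ hh
      rw [h1, ContinuousLinearMap.comp_apply]
      have h2 : fderiv ℝ h p (Pi.single l 1) =
          ∑ a, (fderiv ℝ h p (Pi.single l 1) a) • (Pi.single a 1 : Fin (n + 1) → ℝ) := by
        conv_lhs => rw [← Finset.univ_sum_single (fderiv ℝ h p (Pi.single l 1))]
        refine Finset.sum_congr rfl fun a _ => ?_
        rw [← Pi.single_smul]; simp
      conv_lhs => rw [h2]
      rw [map_sum]
      refine Finset.sum_congr rfl fun a _ => ?_
      rw [map_smul, hi, smul_eq_mul, mul_comm]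
    · simp only [Fin.cons_succ]
      rw [Finset.sum_eq_single (j.succAbove i)]
      · simp
      · intro a _ ha; simp [ha]
      · intro h; exact absurd (Finset.mem_univ _) h
  unfold jac
  rw [hM, Matrix.det_mul, det_cons]
  ring

/-- the integrals over the facets -/
noncomputable def E {X : Type*} [MetricSpace X] {n : ℕ} (f : X → Fin (n + 2) → ℝ)
    (Φ : (Fin (n + 2) → ℝ) → ℝ) (j : Fin (n + 2)) (y : Fin (n + 1) → X) : ℝ :=
  ∫ p in Icc (0 : Fin (n + 1) → ℝ) 1, Φ (hgen f y p) *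
    jac (fun i p => hgen f y p (j.succAbove i)) p

/-- Stokes for one tuple -/
theorem single_stokes {X : Type*} [MetricSpace X] [CompleteSpace X] {c : ℝ} (hc : 0 < c)
    (U : UC X c) {n : ℕ} (f : X → Fin (n + 2) → ℝ) (η : ℝ) (x : Fin (n + 2) → X)
    (hx : Small f η x) (Φ : (Fin (n + 2) → ℝ) → ℝ) (hΦ : ContDiff ℝ 1 Φ)
    (hΦs : ∀ v, Φ v ≠ 0 → ‖v‖ < rB (n + 2)) (j : Fin (n + 2)) :
    (-1 : ℝ) ^ (j : ℕ) * Jdeg f (fun v => fderiv ℝ Φ v (Pi.single j 1)) x =
      (∫ s in Icc (0 : Fin (n + 1) → ℝ) 1, Φ (f (cube x s)) *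
        jac (fun i s => utest f j (cube x s) i) s) -
      ∑ i : Fin (n + 2), (-1 : ℝ) ^ (i : ℕ) * E f Φ j (x ∘ i.succAbove) := by
  have hcs : HasCompactSupport Φ := by
    refine HasCompactSupport.intro (isCompact_closedBall (0 : Fin (n + 2) → ℝ) (rB (n + 2))) ?_
    intro v hv
    by_contra h
    exact hv (by rw [mem_closedBall, dist_zero_right]; exact (hΦs v h).le)
  obtain ⟨K, hK⟩ := hΦ.lipschitzWith_of_hasCompactSupport hcs (by norm_num)
  have hG : ∀ i, LipschitzWith (max K 1) ((Fin.cons Φ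
      (fun (i : Fin (n + 1)) (v : Fin (n + 2) → ℝ) => v (j.succAbove i)) :
      Fin (n + 2) → (Fin (n + 2) → ℝ) → ℝ) i) := by
    intro i
    refine Fin.cases ?_ (fun i => ?_) i
    · exact hK.weaken (le_max_left _ _)
    · refine LipschitzWith.weaken ?_ (le_max_right K 1)
      exact LipschitzWith.eval _
  have hst := hgen_stokes (n := n) f η hc U x hx _ _ hG
  have hL : ∫ p in Icc (0 : Fin (n + 2) → ℝ) 1, jac (fun i p => (Fin.cons Φ
      (fun (i : Fin (n + 1)) (v : Fin (n + 2) → ℝ) => v (j.succAbove i)) :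
      Fin (n + 2) → (Fin (n + 2) → ℝ) → ℝ) i (hgen f x p)) p =
      (-1 : ℝ) ^ (j : ℕ) * Jdeg f (fun v => fderiv ℝ Φ v (Pi.single j 1)) x := by
    obtain ⟨K', hK'⟩ := hx.lipschitz_hgen hc U
    unfold Jdeg
    rw [← integral_const_mul]
    refine setIntegral_congr_ae measurableSet_Icc ?_
    filter_upwards [hK'.ae_differentiableAt] with p hp _
    rw [jac_cons Φ j (hgen f x) p hp (hΦ.differentiable (by norm_num) _)]
    rfl
  rw [hL] at hst
  rw [hst]
  have hT0 : ∫ s in Icc (0 : Fin (n + 1) → ℝ) 1,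
      (Fin.cons Φ (fun (i : Fin (n + 1)) (v : Fin (n + 2) → ℝ) => v (j.succAbove i)) :
      Fin (n + 2) → (Fin (n + 2) → ℝ) → ℝ) 0
        (lam (fun i => lab (n + 2) (f (x i))) (duffy (n + 1) s)) *
        jac (fun i s => (Fin.cons Φ (fun (i : Fin (n + 1)) (v : Fin (n + 2) → ℝ) =>
          v (j.succAbove i)) : Fin (n + 2) → (Fin (n + 2) → ℝ) → ℝ) i.succ
          (lam (fun i => lab (n + 2) (f (x i))) (duffy (n + 1) s))) s = 0 := by
    have h0 : ∫ s in Icc (0 : Fin (n + 1) → ℝ) 1, (0:ℝ) = 0 := by simp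
    rw [← h0]
    refine setIntegral_congr_fun measurableSet_Icc ?_
    intro s hs
    have hex : ∃ i₀ : Fin (n + 3), ∀ i : Fin (n + 2), lab (n + 2) (f (x i)) ≠ i₀ := by
      by_contra hcon
      push Not at hcon
      have hsurj : Function.Surjective (fun i : Fin (n + 2) => lab (n + 2) (f (x i))) :=
        fun i₀ => hcon i₀
      have := Fintype.card_le_of_surjective _ hsurj
      simp at this
    obtain ⟨i₀, hi₀⟩ := hex
    have h1 := phi_lam_of_forall_ne i₀ _ hi₀ (duffy_mem hs)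
    have h2 := norm_ge_of_phi_ge i₀ (lam (fun i => lab (n + 2) (f (x i))) (duffy (n + 1) s))
      (by rw [h1]; norm_num)
    have h3 : Φ (lam (fun i => lab (n + 2) (f (x i))) (duffy (n + 1) s)) = 0 := by
      by_contra h4
      have h5 := hΦs _ h4
      unfold rB at h5
      exact absurd h5 (not_lt.mpr h2.le)
    simp only [Fin.cons_zero, h3, zero_mul]
  rw [hT0, sub_zero]
  rfl

open scoped Convolution in
/-- An integrable integer valued function whose distributional derivatives vanish on a ball is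
almost everywhere constant on a smaller ball. -/
theorem ae_const_of_weak {d : ℕ} (B : (Fin d → ℝ) → ℝ) (hB : Integrable B)
    (hBint : ∀ v, ∃ a : ℤ, B v = a) {R : ℝ} (hR : 0 < R)
    (h : ∀ (Φ : (Fin d → ℝ) → ℝ), ContDiff ℝ 1 Φ → (∀ v, Φ v ≠ 0 → ‖v‖ < R) →
      ∀ j, ∫ v, fderiv ℝ Φ v (Pi.single j 1) * B v = 0) :
    ∃ a : ℤ, ∀ᵐ v : Fin d → ℝ, ‖v‖ < R / 4 → B v = a := by
  let φ : ℕ → ContDiffBump (0 : Fin d → ℝ) := fun n =>
    ⟨1 / ((n : ℝ) + 1), 2 / ((n : ℝ) + 1), by positivity, by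
      apply div_lt_div_of_pos_right _ (by positivity); norm_num⟩
  have hφ : Tendsto (fun n => (φ n).rOut) atTop (𝓝 0) := by
    have h1 : Tendsto (fun n : ℕ => 2 * (1 / ((n : ℝ) + 1))) atTop (𝓝 (2 * 0)) :=
      tendsto_one_div_add_atTop_nhds_zero_nat.const_mul 2
    rw [mul_zero] at h1
    refine h1.congr fun n => ?_
    show 2 * (1 / ((n : ℝ) + 1)) = 2 / ((n : ℝ) + 1)
    ring
  have hφ' : ∀ᶠ n in atTop, (φ n).rOut ≤ 2 * (φ n).rIn := by
    refine Eventually.of_forall fun n => ?_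
    show 2 / ((n : ℝ) + 1) ≤ 2 * (1 / ((n : ℝ) + 1))
    apply le_of_eq; ring
  have hconv := ContDiffBump.ae_convolution_tendsto_right_of_locallyIntegrable
    (μ := (volume : Measure (Fin d → ℝ))) hφ hφ' hB.locallyIntegrable
  -- the convolutions are constant near zero
  have hconst : ∀ᶠ n in atTop, ∀ w ∈ ball (0 : Fin d → ℝ) (R / 4),
      ((φ n).normed volume ⋆[ContinuousLinearMap.lsmul ℝ ℝ, volume] B) w =
      ((φ n).normed volume ⋆[ContinuousLinearMap.lsmul ℝ ℝ, volume] B) 0 := by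
    have h1 : ∀ᶠ n in atTop, (φ n).rOut < R / 4 := hφ.eventually (gt_mem_nhds (by positivity))
    filter_upwards [h1] with n hn w hw
    set ψ := (φ n).normed (volume : Measure (Fin d → ℝ)) with hψ
    have hψc : ContDiff ℝ 1 ψ := (φ n).contDiff_normed
    have hψs : HasCompactSupport ψ := (φ n).hasCompactSupport_normed
    have hder : ∀ x, HasFDerivAt (ψ ⋆[ContinuousLinearMap.lsmul ℝ ℝ, volume] B)
        ((fderiv ℝ ψ ⋆[(ContinuousLinearMap.lsmul ℝ ℝ).precompL (Fin d → ℝ), volume] B) x) x :=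
      fun x => hψs.hasFDerivAt_convolution_left _ hψc hB.locallyIntegrable x
    refine isOpen_ball.is_const_of_fderiv_eq_zero (𝕜 := ℝ)
      (convex_ball (0 : Fin d → ℝ) (R / 4)).isPreconnected
      (fun x _ => (hder x).differentiableAt.differentiableWithinAt) ?_ hw
      (mem_ball_self (by positivity))
    intro x hx
    rw [(hder x).fderiv]
    show _ = (0 : (Fin d → ℝ) →L[ℝ] ℝ)
    have hex := (hψs.fderiv ℝ).convolutionExists_left
      ((ContinuousLinearMap.lsmul ℝ ℝ).precompL (Fin d → ℝ) :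
        ((Fin d → ℝ) →L[ℝ] ℝ) →L[ℝ] ℝ →L[ℝ] ((Fin d → ℝ) →L[ℝ] ℝ))
      (hψc.continuous_fderiv one_ne_zero) hB.locallyIntegrable x
    have hex' := hex.integrable_swap
    have key : ∀ j, ((fderiv ℝ ψ ⋆[(ContinuousLinearMap.lsmul ℝ ℝ).precompL (Fin d → ℝ), volume] B)
        x) (Pi.single j 1) = 0 := by
      intro j
      rw [convolution_eq_swap, ContinuousLinearMap.integral_apply hex']
      have h2 := h (fun v => ψ (x - v)) (hψc.comp (contDiff_const.sub contDiff_id)) (by
        intro v hv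
        have h3 : x - v ∈ Function.support ψ := hv
        rw [hψ, ContDiffBump.support_normed_eq, mem_ball, dist_zero_right] at h3
        rw [mem_ball, dist_zero_right] at hx
        have h4 : v = x - (x - v) := by abel
        rw [h4]
        refine (norm_sub_le _ _).trans_lt ?_
        linarith) j
      have h3 : ∀ v, fderiv ℝ (fun v => ψ (x - v)) v (Pi.single j 1) =
          - fderiv ℝ ψ (x - v) (Pi.single j 1) := by
        intro v
        have h5 : HasFDerivAt (fun v => ψ (x - v))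
            ((fderiv ℝ ψ (x - v)).comp (-(ContinuousLinearMap.id ℝ (Fin d → ℝ)))) v := by
          refine HasFDerivAt.comp v
            ((hψc.differentiable one_ne_zero) (x - v)).hasFDerivAt ?_
          exact (hasFDerivAt_id v).const_sub x
        rw [h5.fderiv]
        simp
      simp only [h3, neg_mul, integral_neg, neg_eq_zero] at h2
      exact h2
    refine ContinuousLinearMap.ext fun v => ?_
    have hv : v = ∑ j, v j • (Pi.single j 1 : Fin d → ℝ) := by
      conv_lhs => rw [← Finset.univ_sum_single v]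
      refine Finset.sum_congr rfl fun a _ => ?_
      rw [← Pi.single_smul]; simp
    conv_lhs => rw [hv]
    rw [map_sum]
    simp only [map_smul, key, smul_zero, Finset.sum_const_zero]
    rfl
  -- the limit
  have hae : ∀ᵐ w : Fin d → ℝ, w ∈ ball (0 : Fin d → ℝ) (R / 4) →
      Tendsto (fun n => ((φ n).normed volume ⋆[ContinuousLinearMap.lsmul ℝ ℝ, volume] B) 0) atTop
        (𝓝 (B w)) := by
    filter_upwards [hconv] with w hw hwb
    refine hw.congr' ?_
    filter_upwards [hconst] with n hn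
    exact hn w hwb
  obtain ⟨w₀, hw₀, hlim⟩ : ∃ w₀ ∈ ball (0 : Fin d → ℝ) (R / 4),
      Tendsto (fun n => ((φ n).normed volume ⋆[ContinuousLinearMap.lsmul ℝ ℝ, volume] B) 0) atTop
        (𝓝 (B w₀)) := by
    by_contra hcon
    push Not at hcon
    have h1 : ∀ᵐ w : Fin d → ℝ, w ∉ ball (0 : Fin d → ℝ) (R / 4) := by
      filter_upwards [hae] with w hw hwb
      exact hcon w hwb (hw hwb)
    have h2 : volume (ball (0 : Fin d → ℝ) (R / 4)) = 0 := measure_eq_zero_iff_ae_notMem.mpr h1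
    exact (measure_ball_pos volume (0 : Fin d → ℝ) (by positivity : 0 < R / 4)).ne' h2
  obtain ⟨a, ha⟩ := hBint w₀
  refine ⟨a, ?_⟩
  filter_upwards [hae] with w hw hwb
  rw [← ha]
  exact tendsto_nhds_unique (hw (by rwa [mem_ball, dist_zero_right])) hlim

/-- the signed number of good preimages -/
noncomputable def mult {X : Type*} [MetricSpace X] {k : ℕ} (f : X → Fin (k + 1) → ℝ)
    (x : Fin (k + 1) → X) (v : Fin (k + 1) → ℝ) : ℝ :=
  ∑ᶠ s ∈ goodPre (hmap f x) v, (SignType.sign (jac (fun i s => hmap f x s i) s) : ℝ)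

theorem mult_int {X : Type*} [MetricSpace X] {k : ℕ} (f : X → Fin (k + 1) → ℝ)
    (x : Fin (k + 1) → X) (v : Fin (k + 1) → ℝ) : ∃ a : ℤ, mult f x v = a := by
  unfold mult
  refine finsum_mem_induction (fun y : ℝ => ∃ a : ℤ, y = a) ⟨0, by simp⟩ ?_ ?_
  · rintro _ _ ⟨a, rfl⟩ ⟨b, rfl⟩
    exact ⟨a + b, by push_cast; ring⟩
  · intro s _
    rcases SignType.trichotomy (SignType.sign (jac (fun i s => hmap f x s i) s)) with h | h | h
    · exact ⟨-1, by rw [h]; simp⟩
    · exact ⟨0, by rw [h]; simp⟩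
    · exact ⟨1, by rw [h]; simp⟩

section
variable {X : Type*} [MetricSpace X] [CompleteSpace X] {c : ℝ} (hc : 0 < c) (U : UC X c)
  {k : ℕ} (f : X → Fin (k + 1) → ℝ) (η : ℝ)

include hc U in
theorem mult_integrable {x : Fin (k + 1) → X} (hx : Small f η x) : Integrable (mult f x) := by
  obtain ⟨K, hK⟩ := hx.lipschitz_hgen hc U
  have h := (area_formula (hmap f x) K hK (fun _ => 1) measurable_const 1 (by simp)).1
  simp only [one_mul] at h
  exact h

include hc U in
theorem Jdeg_eq {x : Fin (k + 1) → X} (hx : Small f η x) (g : (Fin (k + 1) → ℝ) → ℝ)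
    (hg : Continuous g) (C : ℝ) (hC : ∀ v, |g v| ≤ C) :
    Jdeg f g x = ∫ v, g v * mult f x v := by
  obtain ⟨K, hK⟩ := hx.lipschitz_hgen hc U
  have h := (area_formula (hmap f x) K hK (fun s => g (hmap f x s))
    (hg.comp hK.continuous).measurable C (fun s => hC _)).2
  unfold Jdeg
  rw [h]
  refine integral_congr_ae ?_
  filter_upwards [area_ae (hmap f x) K hK] with v hv
  unfold mult
  rw [mul_finsum_mem]
  refine finsum_mem_congr rfl fun s hs => ?_
  rw [hs.2.1]

end

end JI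

section P7
variable {X : Type u} [MetricSpace X] [CompleteSpace X] {c : ℝ} (hc : 0 < c) (U : UC X c)
  {k : ℕ} (f : X → Fin (k + 1) → ℝ) (η : ℝ)

include hc U in
/-- P7d (R3): integrals of derivatives vanish. -/
theorem sum_deriv_eq_zero (hk : 1 ≤ k) (hη : η ≤ 1 / (16 * ((k + 1 : ℕ) + 1)))
    (z : (Fin (k + 1) → X) →₀ ℤ) (hz : ∀ x ∈ z.support, Small f η x)
    (h0 : ∀ᶠ q in nullFilter f, (z.sum fun x a => a * chi f x q) = 0) (hb : bdry f z = 0)
    (Φ : (Fin (k + 1) → ℝ) → ℝ) (hΦ : ContDiff ℝ 1 Φ) (hΦs : ∀ v, Φ v ≠ 0 → ‖v‖ < rB (k + 1))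
    (j : Fin (k + 1)) :
    (z.sum fun x a => (a : ℝ) * Jdeg f (fun v => fderiv ℝ Φ v (Pi.single j 1)) x) = 0 := by
  obtain ⟨n, rfl⟩ : ∃ n, k = n + 1 := ⟨k - 1, by omega⟩
  classical
  -- the facet integrals, set to zero on tuples where `f` is large
  set E' : (Fin (n + 1) → X) → ℝ := fun y => if (∀ i, 1 / 2 ≤ ‖f (y i)‖) then 0 else JI.E f Φ j y
    with hE'
  have hEE' : ∀ x ∈ z.support, ∀ i : Fin (n + 2), JI.E f Φ j (x ∘ i.succAbove) =
      E' (x ∘ i.succAbove) := by
    intro x hx i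
    rw [hE']
    dsimp only
    split_ifs with h
    · unfold JI.E
      have h0 : ∫ s in Icc (0 : Fin (n + 1) → ℝ) 1, (0:ℝ) = 0 := by simp
      rw [← h0]
      refine setIntegral_congr_fun measurableSet_Icc ?_
      intro p _
      have h1 := (small_comp (hz x hx) i.succAbove).rB_lt_hgen hc U f η (by exact_mod_cast hη) 0 (h 0) p
      have h2 : Φ (hgen f (x ∘ i.succAbove) p) = 0 := by
        by_contra h3
        exact absurd (hΦs _ h3) (not_lt.mpr h1.le)
      simp only [h2, zero_mul]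
    · rfl
  -- K1
  have hK1 := sum_integral_eq_zero hc U f η hk z hz h0 j (fun y => Φ (f y))
    (fun x hx => by
      obtain ⟨K, hK⟩ := (hz x hx).lipschitz_cube hc U f η
      exact hΦ.continuous.comp hK.continuous)
    (fun y hy => (hΦs _ hy).le)
  -- the boundary term
  have hL : ∀ w : (Fin (n + 1) → X) →₀ ℤ,
      (w.filter (fun y => ¬ ∀ i, 1 / 2 ≤ ‖f (y i)‖)).sum (fun y b => (b : ℝ) * E' y) =
        w.sum (fun y b => (b : ℝ) * E' y) := by
    intro w
    rw [Finsupp.sum, Finsupp.sum, Finsupp.support_filter, Finset.sum_filter]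
    refine Finset.sum_congr rfl fun y hy => ?_
    by_cases h : ∀ i, 1 / 2 ≤ ‖f (y i)‖
    · rw [if_neg (not_not.mpr h), hE']
      dsimp only
      rw [if_pos h, mul_zero]
    · rw [if_pos h, Finsupp.filter_apply_pos (fun y => ¬ ∀ i, 1 / 2 ≤ ‖f (y i)‖) w h]
  have hB : (z.sum fun x a => (a : ℝ) * ∑ i : Fin (n + 2), (-1 : ℝ) ^ (i : ℕ) *
      JI.E f Φ j (x ∘ i.succAbove)) = 0 := by
    have h1 := hL (z.sum fun x a => ∑ i : Fin (n + 2),
      Finsupp.single (x ∘ i.succAbove) ((-1) ^ (i : ℕ) * a))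
    have h2 : (z.sum fun x a => ∑ i : Fin (n + 2),
      Finsupp.single (x ∘ i.succAbove) ((-1) ^ (i : ℕ) * a)).filter
        (fun y => ¬ ∀ i, 1 / 2 ≤ ‖f (y i)‖) = 0 := hb
    rw [h2, Finsupp.sum_zero_index] at h1
    rw [Finsupp.sum_sum_index (fun _ => by simp) (fun _ _ _ => by push_cast; ring)] at h1
    rw [h1]
    refine Finsupp.sum_congr fun x hx => ?_
    rw [← Finsupp.sum_finsetSum_index (fun _ => by simp) (fun _ _ _ => by push_cast; ring),
      Finset.mul_sum]
    refine Finset.sum_congr rfl fun i _ => ?_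
    rw [Finsupp.sum_single_index (by simp), hEE' x hx i]
    push_cast
    ring
  have hmain : (-1 : ℝ) ^ (j : ℕ) *
      (z.sum fun x a => (a : ℝ) * Jdeg f (fun v => fderiv ℝ Φ v (Pi.single j 1)) x) =
      (z.sum fun x a => (a : ℝ) * ∫ s in Icc (0 : Fin (n + 1) → ℝ) 1, Φ (f (cube x s)) *
        jac (fun i s => utest f j (cube x s) i) s) -
      (z.sum fun x a => (a : ℝ) * ∑ i : Fin (n + 2), (-1 : ℝ) ^ (i : ℕ) *
        JI.E f Φ j (x ∘ i.succAbove)) := by
    rw [← Finsupp.sum_sub, Finsupp.mul_sum]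
    refine Finsupp.sum_congr fun x hx => ?_
    have h1 := JI.single_stokes hc U f η x (hz x hx) Φ hΦ hΦs j
    rw [← mul_sub, ← h1]
    ring
  rw [hK1, hB, sub_zero] at hmain
  have hne : (-1 : ℝ) ^ (j : ℕ) ≠ 0 := by positivity
  exact (mul_eq_zero.mp hmain).resolve_left hne

include hc U in
/-- P7d (R2+R3): integrality -/
theorem sum_Jdeg_int (hk : 1 ≤ k) (hη : η ≤ 1 / (16 * ((k + 1 : ℕ) + 1)))
    (z : (Fin (k + 1) → X) →₀ ℤ) (hz : ∀ x ∈ z.support, Small f η x)
    (h0 : ∀ᶠ q in nullFilter f, (z.sum fun x a => a * chi f x q) = 0) (hb : bdry f z = 0)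
    (ρ : (Fin (k + 1) → ℝ) → ℝ) (hρ : ContDiff ℝ 2 ρ)
    (hρs : ∀ v, ρ v ≠ 0 → ‖v‖ < rB (k + 1) / 4) (hρ1 : ∫ v, ρ v = 1) :
    ∃ a : ℤ, (z.sum fun x b => (b : ℝ) * Jdeg f ρ x) = a := by
  have hr : 0 < rB (k + 1) := by unfold rB; positivity
  set B : (Fin (k + 1) → ℝ) → ℝ := fun v => z.sum fun x b => (b : ℝ) * JI.mult f x v with hBdef
  have hBi : Integrable B := by
    rw [hBdef]
    unfold Finsupp.sum
    exact integrable_finsetSum _ fun x hx => (JI.mult_integrable hc U f η (hz x hx)).const_mul _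
  have hBint : ∀ v, ∃ a : ℤ, B v = a := by
    intro v
    choose a ha using fun x => JI.mult_int f x v
    refine ⟨z.sum fun x b => b * a x, ?_⟩
    rw [hBdef]
    simp only [Finsupp.sum, ha]
    push_cast
    rfl
  have hJ : ∀ g : (Fin (k + 1) → ℝ) → ℝ, Continuous g → HasCompactSupport g →
      (z.sum fun x b => (b : ℝ) * Jdeg f g x) = ∫ v, g v * B v := by
    intro g hg hgs
    obtain ⟨C, hC⟩ := hg.bounded_above_of_compact_support hgs
    have h1 : (z.sum fun x b => (b : ℝ) * Jdeg f g x) =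
        z.sum fun x b => ∫ v, (b : ℝ) * (g v * JI.mult f x v) := by
      refine Finsupp.sum_congr fun x hx => ?_
      rw [integral_const_mul, JI.Jdeg_eq hc U f η (hz x hx) g hg C hC]
    rw [h1]
    unfold Finsupp.sum
    rw [← integral_finsetSum]
    · refine integral_congr_ae (Eventually.of_forall fun v => ?_)
      rw [hBdef]
      simp only [Finsupp.sum, Finset.mul_sum]
      refine Finset.sum_congr rfl fun x _ => by ring
    · intro x hx
      refine Integrable.const_mul ?_ _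
      exact (JI.mult_integrable hc U f η (hz x hx)).bdd_mul hg.aestronglyMeasurable
        (Eventually.of_forall hC)
  have hcs : ∀ (g : (Fin (k + 1) → ℝ) → ℝ) (R : ℝ), (∀ v, g v ≠ 0 → ‖v‖ < R) →
      HasCompactSupport g := by
    intro g R hR
    refine HasCompactSupport.intro (isCompact_closedBall (0 : Fin (k + 1) → ℝ) R) ?_
    intro v hv
    by_contra h
    exact hv (by rw [mem_closedBall, dist_zero_right]; exact (hR v h).le)
  obtain ⟨a, ha⟩ := JI.ae_const_of_weak B hBi hBint hr (by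
    intro Φ hΦ hΦs j
    have h1 := sum_deriv_eq_zero hc U f η hk hη z hz h0 hb Φ hΦ hΦs j
    rw [hJ _ ((hΦ.continuous_fderiv one_ne_zero).clm_apply continuous_const)
      ((hcs Φ _ hΦs).fderiv_apply ℝ _)] at h1
    exact h1)
  refine ⟨a, ?_⟩
  rw [hJ ρ hρ.continuous (hcs ρ _ hρs)]
  have h2 : ∫ v, ρ v * B v = ∫ v, ρ v * (a : ℝ) := by
    refine integral_congr_ae ?_
    filter_upwards [ha] with v hv
    by_cases h : ρ v = 0
    · simp [h]
    · rw [hv (hρs v h)]
  rw [h2, integral_mul_const, hρ1, one_mul]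

end P7

end MP629748

end part3

section part4

/-! P7e: the cochain lemma (assembly). -/

open Set Filter Topology MeasureTheory Metric
open scoped NNReal

namespace MP629748

universe u

/-! stubs -/

/-! ### geometry of small tuples on which `f` is large -/

theorem clamp_mem {k : ℕ} (s : Fin k → ℝ) : clamp s ∈ Icc (0 : Fin k → ℝ) 1 := by
  refine ⟨fun i => ?_, fun i => ?_⟩
  · exact le_max_left _ _
  · exact max_le zero_le_one (min_le_left _ _)

section large
variable {X : Type u} [MetricSpace X] [CompleteSpace X] {c : ℝ} (hc : 0 < c) (U : UC X c)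
  {m : ℕ} (f : X → Fin m → ℝ) (η : ℝ)

include hc U in
/-- points of the cube lie in the good ball -/
theorem cube_mem_ball {j : ℕ} (x : Fin (j + 1) → X) {z : X} {r : ℝ} (hr : 0 < r)
    (hx : ∀ i, dist (x i) z < r / 8) (s : Fin j → ℝ) : cube x s ∈ ball z r := by
  have h := dist_bary_le U hc x (duffy j (clamp s)) (duffy_mem (clamp_mem s)) z (r / 8)
    (fun i => (hx i).le)
  rw [mem_ball]
  exact lt_of_le_of_lt h (by linarith)

include hc U in
/-- for a small tuple on which `f` is large, a functional `phi` is bounded below on all values and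
no label equals its index. -/
theorem exists_index {j : ℕ} (hη : η ≤ 1 / (16 * ((m : ℝ) + 1))) (x : Fin (j + 1) → X)
    (hx : Small f η x) (hl : ∀ i, 1 / 2 ≤ ‖f (x i)‖) :
    ∃ i₀ : Fin (m + 1), (∀ i, lab m (f (x i)) ≠ i₀) ∧ ∀ s, 1 / 8 ≤ phi m i₀ (f (cube x s)) := by
  obtain ⟨z, r, ⟨hr, -, hosc⟩, hxr⟩ := hx
  obtain ⟨i₀, hi₀⟩ := lab_spec (hl 0)
  have hb : ∀ i, x i ∈ ball z r := fun i => by
    rw [mem_ball]; exact (hxr i).trans (by linarith)
  refine ⟨i₀, fun i => (hi₀ _ ?_).1, fun s => (hi₀ _ ?_).2⟩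
  · exact (hosc _ (hb i) _ (hb 0)).trans hη
  · exact (hosc _ (cube_mem_ball hc U x hr hxr s) _ (hb 0)).trans hη

end large

section
variable {X : Type u} [MetricSpace X] [CompleteSpace X] {c : ℝ} (hc : 0 < c) (U : UC X c)
  {k : ℕ} (f : X → Fin (k + 1) → ℝ) (η : ℝ)

include hc U in
theorem norm_hmap_gt (hη : η ≤ 1 / (16 * ((k + 1 : ℕ) + 1))) (x : Fin (k + 1) → X)
    (hx : Small f η x) (hl : ∀ i, 1 / 2 ≤ ‖f (x i)‖) (p : Fin (k + 1) → ℝ) :
    rB (k + 1) < ‖hmap f x p‖ := by
  obtain ⟨i₀, h1, h2⟩ := exists_index hc U f η hη x hx hl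
  refine norm_ge_of_phi_ge i₀ _ ?_
  unfold hmap
  refine phi_segment i₀ _ h1 (duffy_mem (clamp_mem _)) _ (h2 _) ?_
  have := clamp_mem p
  exact ⟨this.1 0, this.2 0⟩

include hc U in
theorem Jdeg_eq_zero_of_large (hη : η ≤ 1 / (16 * ((k + 1 : ℕ) + 1))) (x : Fin (k + 1) → X)
    (hx : Small f η x) (hl : ∀ i, 1 / 2 ≤ ‖f (x i)‖) (ρ : (Fin (k + 1) → ℝ) → ℝ)
    (hρs : ∀ v, ρ v ≠ 0 → ‖v‖ < rB (k + 1)) : Jdeg f ρ x = 0 := by
  unfold Jdeg
  have : ∀ p, ρ (hmap f x p) = 0 := fun p => by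
    by_contra h
    exact absurd (hρs _ h) (not_lt.2 (norm_hmap_gt hc U f η hη x hx hl p).le)
  simp [this]

include hc U in
theorem chi_eq_zero_of_large (hη : η ≤ 1 / (16 * ((k + 1 : ℕ) + 1))) (x : Fin (k + 1) → X)
    (hx : Small f η x) (hl : ∀ i, 1 / 2 ≤ ‖f (x i)‖) (q : Fin (k + 1) × X) : chi f x q = 0 := by
  obtain ⟨i₀, h1, h2⟩ := exists_index hc U f η hη x hx hl
  unfold chi
  split_ifs with h
  · have : {s | cube x s = q.2 ∧ s ∈ goodPre (utest f q.1 ∘ cube x) (utest f q.1 q.2)} = ∅ := by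
      ext s
      simp only [mem_ofPred_eq, mem_empty_iff_false, iff_false, not_and]
      intro hs _
      have h3 := norm_ge_of_phi_ge i₀ _ (h2 s)
      rw [hs] at h3
      exact absurd h (not_le.2 h3)
    rw [this]
    simp
  · rfl

end

/-! ### chains -/

section chains
variable {X : Type u} {k : ℕ} (f : X → Fin (k + 1) → ℝ)

/-- the full boundary as a homomorphism -/
noncomputable def bdHom (X : Type u) (k : ℕ) : ((Fin (k + 1) → X) →₀ ℤ) →+ ((Fin k → X) →₀ ℤ) :=
  Finsupp.liftAddHom fun x => AddMonoidHom.mk'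
    (fun a : ℤ => ∑ i : Fin (k + 1), Finsupp.single (x ∘ i.succAbove) ((-1) ^ (i : ℕ) * a))
    (by intro a b; simp [mul_add, Finset.sum_add_distrib])

open Classical in
/-- `bdry` as a homomorphism -/
noncomputable def bdryHom : ((Fin (k + 1) → X) →₀ ℤ) →+ ((Fin k → X) →₀ ℤ) :=
  (Finsupp.filterAddHom (fun y : Fin k → X => ¬ ∀ i, 1 / 2 ≤ ‖f (y i)‖)).comp (bdHom X k)

theorem bdryHom_apply (z : (Fin (k + 1) → X) →₀ ℤ) : bdryHom f z = bdry f z := by
  rfl

theorem bdHom_single (x : Fin (k + 1) → X) (a : ℤ) : bdHom X k (Finsupp.single x a) =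
    ∑ i : Fin (k + 1), Finsupp.single (x ∘ i.succAbove) ((-1) ^ (i : ℕ) * a) := by
  simp [bdHom]

theorem bdry_single_of_large (x : Fin (k + 1) → X) (hl : ∀ i, 1 / 2 ≤ ‖f (x i)‖) (a : ℤ) :
    bdryHom f (Finsupp.single x a) = 0 := by
  classical
  simp only [bdryHom, AddMonoidHom.comp_apply, bdHom_single, map_sum]
  refine Finset.sum_eq_zero fun i _ => ?_
  change Finsupp.filter _ _ = 0
  rw [Finsupp.filter_single_of_neg]
  simp only [not_not]
  exact fun j => hl _

/-- `∂∂ = 0` for ordered tuples. -/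
theorem bdHom_bdHom (x : Fin (k + 2) → X) : bdHom X k (∑ i : Fin (k + 2),
    Finsupp.single (x ∘ i.succAbove) ((-1) ^ (i : ℕ))) = 0 := by
  classical
  rw [map_sum]
  simp_rw [bdHom_single]
  rw [← Finset.sum_product']
  refine Finset.sum_involution (fun (p : Fin (k + 2) × Fin (k + 1)) _ =>
    (p.1.succAbove p.2, p.2.predAbove p.1)) ?_ ?_ ?_ ?_
  · rintro ⟨i, j⟩ -
    have h1 : x ∘ (i.succAbove j).succAbove ∘ (j.predAbove i).succAbove =
        x ∘ i.succAbove ∘ j.succAbove := by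
      funext l
      simp [Fin.succAbove_succAbove_succAbove_predAbove]
    simp only
    rw [Function.comp_assoc, Function.comp_assoc, h1, ← Finsupp.single_add, ← pow_add, ← pow_add,
      add_comm ((j.predAbove i : Fin (k + 1)) : ℕ), Fin.neg_one_pow_succAbove_add_predAbove,
      add_comm (j : ℕ)]
    simp
  · rintro ⟨i, j⟩ - - h
    have := congrArg Prod.fst h
    exact Fin.succAbove_ne _ _ this
  · rintro ⟨i, j⟩ -
    simp
  · rintro ⟨i, j⟩ -
    simp [Fin.succAbove_succAbove_predAbove, Fin.predAbove_predAbove_succAbove]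

end chains

/-! ### a bump function -/

theorem exists_bump (m : ℕ) {r : ℝ} (hr : 0 < r) : ∃ ρ : (Fin m → ℝ) → ℝ, ContDiff ℝ 2 ρ ∧
    (∀ v, ρ v ≠ 0 → ‖v‖ < r) ∧ ∫ v, ρ v = 1 := by
  let φ : ContDiffBump (0 : Fin m → ℝ) := ⟨r / 2, r, by positivity, by linarith⟩
  refine ⟨φ.normed volume, φ.contDiff_normed, fun v hv => ?_, φ.integral_normed⟩
  have : v ∈ Function.support (φ.normed volume) := hv
  rw [φ.support_normed_eq] at this
  simpa using this

/-! ### small subtuples -/

theorem Small.comp {X : Type*} [MetricSpace X] {m : ℕ} {f : X → Fin m → ℝ} {η : ℝ} {k l : ℕ}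
    {x : Fin k → X} (hx : Small f η x) (σ : Fin l → Fin k) : Small f η (x ∘ σ) := by
  obtain ⟨z, r, h1, h2⟩ := hx
  exact ⟨z, r, h1, fun i => h2 _⟩

theorem cochain_aux {X : Type u} [MetricSpace X] [CompleteSpace X] {c : ℝ} (hc : 0 < c)
    (U : UC X c) {n k : ℕ} (hk : n ≤ k) (hk1 : 1 ≤ k) (hR : RankLE n X)
    (f : X → Fin (k + 1) → ℝ) (η : ℝ) (hη : η ≤ 1 / (16 * ((k + 1 : ℕ) + 1))) :
    ∃ b : (Fin (k + 1) → X) → ℤ,
      (∀ x : Fin (k + 2) → X, Small f η x →
        ∑ i : Fin (k + 2), (-1 : ℤ) ^ (i : ℕ) * b (x ∘ i.succAbove) =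
          csgn (fun i => lab (k + 1) (f (x i)))) ∧
      (∀ x : Fin (k + 1) → X, Small f η x → (∀ i, 1 / 2 ≤ ‖f (x i)‖) → b x = 0) := by
  classical
  have hrB : 0 < rB (k + 1) := by unfold rB; positivity
  obtain ⟨ρ, hρ, hρs, hρ1⟩ := exists_bump (k + 1) (show 0 < rB (k + 1) / 4 by linarith)
  have hρs' : ∀ v, ρ v ≠ 0 → ‖v‖ < rB (k + 1) := fun v hv => (hρs v hv).trans (by linarith)
  let ι := {x : Fin (k + 1) → X // Small f η x}
  let incl : (ι →₀ ℤ) →+ ((Fin (k + 1) → X) →₀ ℤ) := Finsupp.mapDomain.addMonoidHom Subtype.val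
  let J : (ι →₀ ℤ) →+ ℝ := Finsupp.liftAddHom fun x : ι =>
    (AddMonoidHom.mulRight (Jdeg f ρ x.1)).comp (Int.castAddHom ℝ)
  have hJ_sum : ∀ z : ι →₀ ℤ, J z = (incl z).sum fun x b => (b : ℝ) * Jdeg f ρ x := by
    intro z
    have h1 : (incl z).sum (fun x b => (b : ℝ) * Jdeg f ρ x) =
        z.sum fun x b => (b : ℝ) * Jdeg f ρ x.1 := by
      show (Finsupp.mapDomain Subtype.val z).sum _ = _
      rw [Finsupp.sum_mapDomain_index]
      · intro x; simp
      · intro x a b; push_cast; ring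
    rw [h1]
    rfl
  have hchi_sum : ∀ (z : ι →₀ ℤ) (q : Fin (k + 1) × X),
      (incl z).sum (fun x a => a * chi f x q) = z.sum fun x a => a * chi f x.1 q := by
    intro z q
    show (Finsupp.mapDomain Subtype.val z).sum _ = _
    rw [Finsupp.sum_mapDomain_index]
    · intro x; simp
    · intro x a b; ring
  have hsupp : ∀ z : ι →₀ ℤ, ∀ x ∈ (incl z).support, Small f η x := by
    intro z x hx
    have := Finsupp.mapDomain_support hx
    rw [Finset.mem_image] at this
    obtain ⟨y, -, rfl⟩ := this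
    exact y.2
  obtain ⟨b, hb⟩ := exists_integral_extension (ι := ι) (S := Fin (k + 1) × X) (κ := Fin k → X)
    (nullFilter f) (fun x q => chi f x.1 q) (fun x => ⟨1, fun q => abs_chi_le hc U f x.1 q⟩)
    ((bdryHom f).comp incl) J (by
      intro z hz h0
      rw [hJ_sum]
      refine sum_Jdeg_int hc U f η hk1 hη (incl z) (hsupp z) ?_ hz ρ hρ hρs hρ1
      filter_upwards [h0] with q hq
      rw [hchi_sum]
      exact hq)
  refine ⟨fun x => if h : Small f η x then -sgn0 k * b (Finsupp.single ⟨x, h⟩ 1) else 0, ?_, ?_⟩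
  · intro x hx
    let z : ι →₀ ℤ := ∑ i : Fin (k + 2),
      Finsupp.single (⟨x ∘ i.succAbove, hx.comp _⟩ : ι) ((-1 : ℤ) ^ (i : ℕ))
    have hincl : incl z = ∑ i : Fin (k + 2),
        Finsupp.single (x ∘ i.succAbove) ((-1 : ℤ) ^ (i : ℕ)) := by
      show incl z = _
      rw [map_sum]
      refine Finset.sum_congr rfl fun i _ => ?_
      show Finsupp.mapDomain _ _ = _
      rw [Finsupp.mapDomain_single]
    have hbz : b z = ∑ i : Fin (k + 2), (-1 : ℤ) ^ (i : ℕ) *
        b (Finsupp.single (⟨x ∘ i.succAbove, hx.comp _⟩ : ι) 1) := by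
      rw [map_sum]
      refine Finset.sum_congr rfl fun i _ => ?_
      rw [show Finsupp.single (⟨x ∘ i.succAbove, hx.comp _⟩ : ι) ((-1 : ℤ) ^ (i : ℕ)) =
        ((-1 : ℤ) ^ (i : ℕ)) • Finsupp.single (⟨x ∘ i.succAbove, hx.comp _⟩ : ι) (1 : ℤ) by simp,
        map_zsmul, smul_eq_mul]
    have hD : ((bdryHom f).comp incl) z = 0 := by
      rw [AddMonoidHom.comp_apply, hincl, bdryHom, AddMonoidHom.comp_apply, bdHom_bdHom, map_zero]
    have hX : ∀ᶠ q in nullFilter f, (z.sum fun i a => a * chi f i.1 q) = 0 := by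
      filter_upwards [chi_boundary hc U f η hk hk1 hR x hx] with q hq
      rw [← hchi_sum, hincl, ← Finsupp.sum_finsetSum_index]
      · rw [← hq]
        refine Finset.sum_congr rfl fun i _ => ?_
        rw [Finsupp.sum_single_index]
        simp
      · intro x; simp
      · intro x a b; ring
    have h1 := hb z hD hX
    have h2 : J z = ∑ i : Fin (k + 2), (-1 : ℝ) ^ (i : ℕ) * Jdeg f ρ (x ∘ i.succAbove) := by
      rw [hJ_sum, hincl, ← Finsupp.sum_finsetSum_index]
      · refine Finset.sum_congr rfl fun i _ => ?_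
        rw [Finsupp.sum_single_index]
        · push_cast; rfl
        · simp
      · intro x; simp
      · intro x a b; push_cast; ring
    rw [h2, Jdeg_boundary hc U hk hR f η hη ρ hρ hρs' x hx, hρ1, mul_one] at h1
    have h3 : b z = -(sgn0 k * csgn (fun i => lab (k + 1) (f (x i)))) := by exact_mod_cast h1
    have h4 : sgn0 k * sgn0 k = 1 := by
      rcases (exists_sign k).choose_spec.1 with h | h
      · show (exists_sign k).choose * (exists_sign k).choose = 1
        rw [h]; norm_num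
      · show (exists_sign k).choose * (exists_sign k).choose = 1
        rw [h]; norm_num
    have h5 : ∀ i : Fin (k + 2), Small f η (x ∘ i.succAbove) := fun i => hx.comp _
    simp only [h5, dif_pos]
    have h6 : ∑ i : Fin (k + 2), (-1 : ℤ) ^ (i : ℕ) *
        (-sgn0 k * b (Finsupp.single (⟨x ∘ i.succAbove, h5 i⟩ : ι) 1)) = -sgn0 k * b z := by
      rw [hbz, Finset.mul_sum]
      refine Finset.sum_congr rfl fun i _ => by ring
    rw [h6, h3]
    linear_combination (csgn (fun i => lab (k + 1) (f (x i)))) * h4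
  · intro x hx hl
    simp only [hx, dif_pos]
    have hz : ∀ z : ι →₀ ℤ, z = Finsupp.single ⟨x, hx⟩ 1 → b z = 0 := by
      intro z hz
      have hincl : incl z = Finsupp.single x 1 := by
        rw [hz]
        show Finsupp.mapDomain _ _ = _
        rw [Finsupp.mapDomain_single]
      have hD : ((bdryHom f).comp incl) z = 0 := by
        rw [AddMonoidHom.comp_apply, hincl, bdry_single_of_large f x hl]
      have hX : ∀ᶠ q in nullFilter f, (z.sum fun i a => a * chi f i.1 q) = 0 := by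
        refine Eventually.of_forall fun q => ?_
        rw [← hchi_sum, hincl, Finsupp.sum_single_index (by simp),
          chi_eq_zero_of_large hc U f η hη x hx hl, mul_zero]
      have h1 := hb z hD hX
      rw [hJ_sum, hincl, Finsupp.sum_single_index (by simp),
        Jdeg_eq_zero_of_large hc U f η hη x hx hl ρ hρs', mul_zero] at h1
      exact_mod_cast h1
    rw [hz _ rfl, mul_zero]

theorem cochain {X : Type u} [MetricSpace X] [CompleteSpace X] {c : ℝ} (hc : 0 < c)
    (U : UC X c) {n m : ℕ} (hm : n + 1 ≤ m) (hm2 : 2 ≤ m) (hR : RankLE n X)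
    (f : X → Fin m → ℝ) (η : ℝ) (hη : η ≤ 1 / (16 * (m + 1))) :
    ∃ b : (Fin m → X) → ℤ,
      (∀ x : Fin (m + 1) → X, Small f η x →
        ∑ i : Fin (m + 1), (-1 : ℤ) ^ (i : ℕ) * b (x ∘ i.succAbove) =
          csgn (fun i => lab m (f (x i)))) ∧
      (∀ x : Fin m → X, Small f η x → (∀ i, 1 / 2 ≤ ‖f (x i)‖) → b x = 0) := by
  obtain ⟨k, rfl⟩ : ∃ k, m = k + 1 := ⟨m - 1, by omega⟩
  exact cochain_aux hc U (by omega) (by omega) hR f η hη

end MP629748

end part4
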