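import Pool.Agent.Lib.MP_629748_gt.MGeoA
import Pool.Agent.Lib.MP_e589f0_an.Brouwer

/-!
The lower bound.
-/

section part0

/-! Comparison of isosceles triangles with a common vertex. -/

open Set Filter Topology Metric
open scoped NNReal

namespace MP629748

/-- sine comparison near zero -/
theorem iso_sin_lower {q : ℝ} (hq : 0 < q) : ∃ r > 0, r ≤ 1 ∧ ∀ x, 0 ≤ x → x ≤ r →
    (1 - q) * x ≤ Real.sin x := by
  refine ⟨min 1 q, lt_min one_pos hq, min_le_left _ _, ?_⟩
  intro x hx hxr
  rcases hx.eq_or_lt with rfl | hx0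
  · simp
  have h1 : x ≤ 1 := hxr.trans (min_le_left _ _)
  have h2 : x ≤ q := hxr.trans (min_le_right _ _)
  have h3 := Real.sin_gt_sub_cube hx0
  have h4 : x ^ 3 / 6 ≤ q * x := by
    have : x ^ 3 = x * x * x := by ring
    have h5 : x * x ≤ 1 * q := mul_le_mul h1 h2 hx zero_le_one
    nlinarith
  linarith only [h3, h4]

theorem iso_sinh_upper {q : ℝ} (hq : 0 < q) : ∃ r > 0, r ≤ 1 ∧ ∀ x, 0 ≤ x → x ≤ r →
    Real.sinh x ≤ (1 + q) * x := by
  have h := (Real.hasDerivAt_sinh 0)
  rw [hasDerivAt_iff_isLittleO] at h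
  have h2 := h.bound hq
  rw [Metric.eventually_nhds_iff] at h2
  obtain ⟨ε, hε, hb⟩ := h2
  refine ⟨min 1 (ε / 2), lt_min one_pos (by positivity), min_le_left _ _, ?_⟩
  intro x hx hxr
  have h1 : x ≤ ε / 2 := hxr.trans (min_le_right _ _)
  have h3 := hb (y := x) (by rw [Real.dist_eq, sub_zero, abs_of_nonneg hx]; linarith only [hε, h1])
  simp only [Real.sinh_zero, sub_zero, Real.cosh_zero, smul_eq_mul, mul_one, Real.norm_eq_abs,
    abs_of_nonneg hx] at h3
  have h4 := le_abs_self (Real.sinh x - x)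
  linarith only [h3, h4]

theorem iso_geod_dist {X : Type*} [MetricSpace X] {γ : ℝ → X} {S : ℝ} (hS : 0 ≤ S)
    (hγ : IsGeodOn γ S) : dist (γ 0) (γ S) = S := by
  rw [hγ 0 ⟨le_rfl, hS⟩ S ⟨hS, le_rfl⟩, zero_sub, abs_neg, abs_of_nonneg hS]

theorem iso_fromTo {X : Type*} [MetricSpace X] {γ : ℝ → X} {S : ℝ} (hS : 0 ≤ S) {p : X}
    (h0 : γ 0 = p) (hγ : IsGeodOn γ S) : IsGeodFromTo γ p (γ S) := by
  have h := iso_geod_dist hS hγ
  rw [h0] at h
  refine ⟨h0, by rw [h], by rwa [h]⟩

section
variable {X : Type*} [MetricSpace X] {κ : ℝ}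

theorem iso_pos (h : IsCAT κ X) (hκ : 0 < κ) {p : X} {γ η : ℝ → X} {S : ℝ} (hS : 0 < S)
    (hS1 : √κ * S ≤ 1) (h0 : γ 0 = p) (h0' : η 0 = p) (hγ : IsGeodOn γ S) (hη : IsGeodOn η S)
    {s : ℝ} (hs : 0 < s) (hsS : s ≤ S) :
    Real.sin (√κ * dist (γ s) (η s) / 2) * Real.sin (√κ * S) ≤
      Real.sin (√κ * dist (γ S) (η S) / 2) * Real.sin (√κ * s) := by
  have hw : 0 < √κ := Real.sqrt_pos.mpr hκ
  set w := √κ with hwdef
  set D := dist (γ S) (η S) with hD
  have hpi := Real.pi_gt_three
  have hdS : dist p (γ S) = S := by rw [← h0]; exact iso_geod_dist hS.le hγ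
  have hdS' : dist p (η S) = S := by rw [← h0']; exact iso_geod_dist hS.le hη
  have hD0 : 0 ≤ D := dist_nonneg
  have hD2 : D ≤ 2 * S := by
    have := dist_triangle (γ S) p (η S)
    rw [dist_comm (γ S) p, hdS, hdS'] at this
    linarith only [this]
  have hvar : LtVarpi κ D := by
    right
    rw [lt_div_iff₀ hw]
    nlinarith only [hS, hD2, hpi, hS1, hD0]
  obtain ⟨γ₃, hγ₃⟩ := h.geod (γ S) (η S) hvar
  have hwS : 0 < w * S := mul_pos hw hS
  have hsinS : 0 < Real.sin (w * S) := Real.sin_pos_of_pos_of_lt_pi hwS (by linarith only [hS1, hpi])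
  have hws : 0 < w * s := mul_pos hw hs
  have hws1 : w * s ≤ w * S := by nlinarith only [hsS, hw]
  have hsins : 0 < Real.sin (w * s) := Real.sin_pos_of_pos_of_lt_pi hws (by linarith only [hS1, hpi, hws1])
  have hwD0 : 0 ≤ w * D := mul_nonneg hw.le hD0
  have hwD2 : w * D ≤ 2 * (w * S) := by nlinarith only [hw, hD2]
  have hsc := Real.sin_sq_add_cos_sq (w * S)
  set k : ℝ := (Real.cos (w * D) - Real.cos (w * S) ^ 2) / Real.sin (w * S) ^ 2 with hk
  have hksin : Real.cos (w * S) ^ 2 + k * Real.sin (w * S) ^ 2 = Real.cos (w * D) := by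
    rw [hk]; field_simp; ring
  have hk1 : (1 - k) * Real.sin (w * S) ^ 2 = (1 - Real.cos (w * D)) := by
    linarith only [hsc, hksin]
  have hk_le : k ≤ 1 := by
    have h1 := Real.cos_le_one (w * D)
    by_contra hc
    push Not at hc
    have : 0 < Real.sin (w * S) ^ 2 := by positivity
    nlinarith only [hsc, hksin, h1, hc, this]
  have hk_ge : -1 ≤ k := by
    have h1 : Real.cos (2 * (w * S)) ≤ Real.cos (w * D) :=
      Real.cos_le_cos_of_nonneg_of_le_pi hwD0 (by linarith only [hS1, hpi]) hwD2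
    rw [Real.cos_two_mul] at h1
    by_contra hc
    push Not at hc
    have : 0 < Real.sin (w * S) ^ 2 := by positivity
    nlinarith only [hsc, hksin, h1, hc, this]
  have hkk : 0 ≤ 1 - k ^ 2 := by nlinarith only [hk_le, hk_ge]
  have hkk' := Real.sq_sqrt hkk
  have hcs := Real.sin_sq_add_cos_sq (w * s)
  have hab : dist p (γ S) = S := hdS
  have key := h.comp p (γ S) (η S) γ η γ₃ (iso_fromTo hS.le h0 hγ) (iso_fromTo hS.le h0' hη) hγ₃
    (by
      right
      rw [hdS, hdS', ← hD, lt_div_iff₀ hw]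
      nlinarith only [hS1, hpi, hwD2]) s ⟨hs.le, by rw [hdS]; exact hsS⟩ s ⟨hs.le, by rw [hdS']; exact hsS⟩
    ![1, 0, 0] (Or.inl ⟨hκ, by simp⟩)
    ![Real.cos (w * S), Real.sin (w * S), 0] (Or.inl ⟨hκ, by simp⟩)
    ![Real.cos (w * S), k * Real.sin (w * S), √(1 - k ^ 2) * Real.sin (w * S)]
    (Or.inl ⟨hκ, by simp [mul_pow, hkk']; linear_combination hsc⟩)
    ![Real.cos (w * s), Real.sin (w * s), 0] (Or.inl ⟨hκ, by simp⟩)
    ![Real.cos (w * s), k * Real.sin (w * s), √(1 - k ^ 2) * Real.sin (w * s)]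
    (Or.inl ⟨hκ, by simp [mul_pow, hkk']; linear_combination hcs⟩)
    (by
      simp only [modelDist, hκ, if_true]
      simp only [Matrix.cons_val_zero, Matrix.cons_val_one, Matrix.cons_val_two, Matrix.tail_cons,
        Matrix.head_cons]
      rw [show (1 : ℝ) * Real.cos (w * S) + 0 * Real.sin (w * S) + 0 * 0 = Real.cos (w * S) by ring,
        Real.arccos_cos hwS.le (by linarith only [hS1, hpi]), hdS, ← hwdef]
      field_simp)
    (by
      simp only [modelDist, hκ, if_true]
      simp only [Matrix.cons_val_zero, Matrix.cons_val_one, Matrix.cons_val_two, Matrix.tail_cons,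
        Matrix.head_cons]
      rw [show Real.cos (w * S) * Real.cos (w * S) + Real.sin (w * S) * (k * Real.sin (w * S)) +
        0 * (√(1 - k ^ 2) * Real.sin (w * S)) = Real.cos (w * D) by linear_combination hksin,
        Real.arccos_cos hwD0 (by linarith only [hS1, hpi, hwD2]), ← hwdef, ← hD]
      field_simp)
    (by
      simp only [modelDist, hκ, if_true]
      simp only [Matrix.cons_val_zero, Matrix.cons_val_one, Matrix.cons_val_two, Matrix.tail_cons,
        Matrix.head_cons]
      rw [show (1 : ℝ) * Real.cos (w * S) + 0 * (k * Real.sin (w * S)) +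
        0 * (√(1 - k ^ 2) * Real.sin (w * S)) = Real.cos (w * S) by ring,
        Real.arccos_cos hwS.le (by linarith only [hS1, hpi]), hdS', ← hwdef]
      field_simp)
    (by
      simp only [modelDist, hκ, if_true]
      simp only [Matrix.cons_val_zero, Matrix.cons_val_one, Matrix.cons_val_two, Matrix.tail_cons,
        Matrix.head_cons]
      rw [show (1 : ℝ) * Real.cos (w * s) + 0 * Real.sin (w * s) + 0 * 0 = Real.cos (w * s) by ring,
        Real.arccos_cos hws.le (by linarith only [hS1, hpi, hws1]), ← hwdef]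
      field_simp)
    (by
      simp only [modelDist, hκ, if_true]
      simp only [Matrix.cons_val_zero, Matrix.cons_val_one, Matrix.cons_val_two, Matrix.tail_cons,
        Matrix.head_cons]
      rw [show Real.cos (w * s) * Real.cos (w * S) + Real.sin (w * s) * Real.sin (w * S) + 0 * 0 =
        Real.cos (w * S - w * s) by rw [Real.cos_sub]; ring,
        Real.arccos_cos (by linarith only [hws1]) (by linarith only [hS1, hpi, hws]), hdS, ← hwdef]
      field_simp)
    (by
      simp only [modelDist, hκ, if_true]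
      simp only [Matrix.cons_val_zero, Matrix.cons_val_one, Matrix.cons_val_two, Matrix.tail_cons,
        Matrix.head_cons]
      rw [show (1 : ℝ) * Real.cos (w * s) + 0 * (k * Real.sin (w * s)) +
        0 * (√(1 - k ^ 2) * Real.sin (w * s)) = Real.cos (w * s) by ring,
        Real.arccos_cos hws.le (by linarith only [hS1, hpi, hws1]), ← hwdef]
      field_simp)
    (by
      simp only [modelDist, hκ, if_true]
      simp only [Matrix.cons_val_zero, Matrix.cons_val_one, Matrix.cons_val_two, Matrix.tail_cons,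
        Matrix.head_cons]
      rw [show Real.cos (w * s) * Real.cos (w * S) + k * Real.sin (w * s) * (k * Real.sin (w * S)) +
        √(1 - k ^ 2) * Real.sin (w * s) * (√(1 - k ^ 2) * Real.sin (w * S)) =
        Real.cos (w * S - w * s) by
          rw [Real.cos_sub]
          linear_combination (Real.sin (w * s) * Real.sin (w * S)) * hkk',
        Real.arccos_cos (by linarith only [hws1]) (by linarith only [hS1, hpi, hws]), hdS', ← hwdef]
      field_simp)
  simp only [modelDist, hκ, if_true] at key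
  simp only [Matrix.cons_val_zero, Matrix.cons_val_one, Matrix.cons_val_two, Matrix.tail_cons,
        Matrix.head_cons] at key
  set d := dist (γ s) (η s) with hd
  rw [show Real.cos (w * s) * Real.cos (w * s) + Real.sin (w * s) * (k * Real.sin (w * s)) +
        0 * (√(1 - k ^ 2) * Real.sin (w * s)) = 1 - (1 - k) * Real.sin (w * s) ^ 2 by
          linear_combination hcs, ← hwdef, le_div_iff₀ hw] at key
  have hd0 : 0 ≤ d := dist_nonneg
  have hwd0 : 0 ≤ w * d := by positivity
  have hcos : 1 - (1 - k) * Real.sin (w * s) ^ 2 ≤ Real.cos (w * d) := by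
    have hle1 : 1 - (1 - k) * Real.sin (w * s) ^ 2 ≤ 1 := by
      have : 0 ≤ (1 - k) * Real.sin (w * s) ^ 2 := by
        have : 0 ≤ 1 - k := by linarith only [hk_le]
        positivity
      linarith only [this]
    have hge1 : -1 ≤ 1 - (1 - k) * Real.sin (w * s) ^ 2 := by
      have h1 : Real.sin (w * s) ^ 2 ≤ 1 := Real.sin_sq_le_one _
      nlinarith only [sq_nonneg (Real.sin (w * s)), hcs, hk_ge]
    rw [← Real.cos_arccos hge1 hle1]
    refine Real.cos_le_cos_of_nonneg_of_le_pi hwd0 (Real.arccos_le_pi _) ?_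
    linarith only [key]
  have hd2s : d ≤ 2 * s := by
    have h1 : dist p (γ s) = s := by
      rw [← h0]; exact iso_geod_dist hs.le (fun a ha b hb => hγ a ⟨ha.1, ha.2.trans hsS⟩ b ⟨hb.1, hb.2.trans hsS⟩)
    have h2 : dist p (η s) = s := by
      rw [← h0']; exact iso_geod_dist hs.le (fun a ha b hb => hη a ⟨ha.1, ha.2.trans hsS⟩ b ⟨hb.1, hb.2.trans hsS⟩)
    have := dist_triangle (γ s) p (η s)
    rw [dist_comm (γ s) p, h1, h2] at this
    linarith only [this]
  have hc1 : 1 - Real.cos (w * d) = 2 * Real.sin (w * d / 2) ^ 2 := by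
    rw [Real.sin_sq_eq_half_sub, show 2 * (w * d / 2) = w * d by ring]; ring
  have hc2 : 1 - Real.cos (w * D) = 2 * Real.sin (w * D / 2) ^ 2 := by
    rw [Real.sin_sq_eq_half_sub, show 2 * (w * D / 2) = w * D by ring]; ring
  have hwd2 : w * d ≤ 2 * (w * s) := by nlinarith only [hw, hd2s]
  have hn1 : 0 ≤ Real.sin (w * d / 2) :=
    Real.sin_nonneg_of_nonneg_of_le_pi (by positivity) (by linarith only [hS1, hpi, hws1, hwd2])
  have hn2 : 0 ≤ Real.sin (w * D / 2) :=
    Real.sin_nonneg_of_nonneg_of_le_pi (by positivity) (by linarith only [hS1, hpi, hwD2])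
  have hfin : (Real.sin (w * d / 2) * Real.sin (w * S)) ^ 2 ≤
      (Real.sin (w * D / 2) * Real.sin (w * s)) ^ 2 := by
    have h1 : 2 * Real.sin (w * d / 2) ^ 2 ≤ (1 - k) * Real.sin (w * s) ^ 2 := by linarith only [hcos, hc1]
    have h2 : (1 - k) * Real.sin (w * S) ^ 2 = 2 * Real.sin (w * D / 2) ^ 2 := by linarith only [hsc, hksin, hc2]
    calc (Real.sin (w * d / 2) * Real.sin (w * S)) ^ 2
        = (2 * Real.sin (w * d / 2) ^ 2) * Real.sin (w * S) ^ 2 / 2 := by ring
      _ ≤ ((1 - k) * Real.sin (w * s) ^ 2) * Real.sin (w * S) ^ 2 / 2 := by gcongr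
      _ = ((1 - k) * Real.sin (w * S) ^ 2) * Real.sin (w * s) ^ 2 / 2 := by ring
      _ = (Real.sin (w * D / 2) * Real.sin (w * s)) ^ 2 := by rw [h2]; ring
  exact (sq_le_sq₀ (by positivity) (by positivity)).mp hfin

theorem iso_neg (h : IsCAT κ X) (hκ : κ < 0) {p : X} {γ η : ℝ → X} {S : ℝ} (hS : 0 < S)
    (h0 : γ 0 = p) (h0' : η 0 = p) (hγ : IsGeodOn γ S) (hη : IsGeodOn η S)
    {s : ℝ} (hs : 0 < s) (hsS : s ≤ S) :
    Real.sinh (√(-κ) * dist (γ s) (η s) / 2) * Real.sinh (√(-κ) * S) ≤
      Real.sinh (√(-κ) * dist (γ S) (η S) / 2) * Real.sinh (√(-κ) * s) := by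
  have hκ0 : ¬ (0 < κ) := not_lt.mpr hκ.le
  have hκ1 : ¬ (κ = 0) := hκ.ne
  have hw : 0 < √(-κ) := Real.sqrt_pos.mpr (by linarith only [hκ])
  set w := √(-κ) with hwdef
  set D := dist (γ S) (η S) with hD
  have hdS : dist p (γ S) = S := by rw [← h0]; exact iso_geod_dist hS.le hγ
  have hdS' : dist p (η S) = S := by rw [← h0']; exact iso_geod_dist hS.le hη
  have hD0 : 0 ≤ D := dist_nonneg
  have hD2 : D ≤ 2 * S := by
    have := dist_triangle (γ S) p (η S)
    rw [dist_comm (γ S) p, hdS, hdS'] at this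
    linarith only [this]
  have hvar : LtVarpi κ D := Or.inl hκ.le
  obtain ⟨γ₃, hγ₃⟩ := h.geod (γ S) (η S) hvar
  have hwS : 0 < w * S := mul_pos hw hS
  have hsinS : 0 < Real.sinh (w * S) := Real.sinh_pos_iff.mpr hwS
  have hws : 0 < w * s := mul_pos hw hs
  have hws1 : w * s ≤ w * S := by nlinarith only [hsS, hw]
  have hsins : 0 < Real.sinh (w * s) := Real.sinh_pos_iff.mpr hws
  have hwD0 : 0 ≤ w * D := mul_nonneg hw.le hD0
  have hwD2 : w * D ≤ 2 * (w * S) := by nlinarith only [hw, hD2]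
  have hsc := Real.cosh_sq (w * S)
  have hcs := Real.cosh_sq (w * s)
  set k : ℝ := (Real.cosh (w * S) ^ 2 - Real.cosh (w * D)) / Real.sinh (w * S) ^ 2 with hk
  have hksin : Real.cosh (w * S) ^ 2 - k * Real.sinh (w * S) ^ 2 = Real.cosh (w * D) := by
    rw [hk]; field_simp; ring
  have hk1 : (1 - k) * Real.sinh (w * S) ^ 2 = (Real.cosh (w * D) - 1) := by
    linarith only [hsc, hksin]
  have hk_le : k ≤ 1 := by
    have h1 := Real.one_le_cosh (w * D)
    by_contra hc
    push Not at hc
    have : 0 < Real.sinh (w * S) ^ 2 := by positivity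
    nlinarith only [hsc, hksin, h1, hc, this]
  have hk_ge : -1 ≤ k := by
    have h1 : Real.cosh (w * D) ≤ Real.cosh (2 * (w * S)) := by
      rw [Real.cosh_le_cosh, abs_of_nonneg hwD0, abs_of_nonneg (by positivity)]
      exact hwD2
    rw [Real.cosh_two_mul] at h1
    by_contra hc
    push Not at hc
    have : 0 < Real.sinh (w * S) ^ 2 := by positivity
    nlinarith only [hksin, h1, hc, this]
  have hkk : 0 ≤ 1 - k ^ 2 := by nlinarith only [hk_le, hk_ge]
  have hkk' := Real.sq_sqrt hkk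
  have hpos1 := Real.cosh_pos (w * S)
  have hpos2 := Real.cosh_pos (w * s)
  have key := h.comp p (γ S) (η S) γ η γ₃ (iso_fromTo hS.le h0 hγ) (iso_fromTo hS.le h0' hη) hγ₃
    (Or.inl hκ.le) s ⟨hs.le, by rw [hdS]; exact hsS⟩ s ⟨hs.le, by rw [hdS']; exact hsS⟩
    ![1, 0, 0] (Or.inr (Or.inr ⟨hκ, by simp, by simp⟩))
    ![Real.cosh (w * S), Real.sinh (w * S), 0]
    (Or.inr (Or.inr ⟨hκ, by simpa using hpos1, by simp⟩))
    ![Real.cosh (w * S), k * Real.sinh (w * S), √(1 - k ^ 2) * Real.sinh (w * S)]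
    (Or.inr (Or.inr ⟨hκ, by simpa using hpos1, by simp [mul_pow, hkk']; linear_combination hsc⟩))
    ![Real.cosh (w * s), Real.sinh (w * s), 0]
    (Or.inr (Or.inr ⟨hκ, by simpa using hpos2, by simp⟩))
    ![Real.cosh (w * s), k * Real.sinh (w * s), √(1 - k ^ 2) * Real.sinh (w * s)]
    (Or.inr (Or.inr ⟨hκ, by simpa using hpos2, by simp [mul_pow, hkk']; linear_combination hcs⟩))
    (by
      simp only [modelDist, hκ0, hκ1, if_false]
      simp only [Matrix.cons_val_zero, Matrix.cons_val_one, Matrix.cons_val_two, Matrix.tail_cons,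
        Matrix.head_cons]
      rw [show (1 : ℝ) * Real.cosh (w * S) - 0 * Real.sinh (w * S) - 0 * 0 = Real.cosh (w * S) by ring,
        Real.arcosh_cosh hwS.le, hdS, ← hwdef]
      field_simp)
    (by
      simp only [modelDist, hκ0, hκ1, if_false]
      simp only [Matrix.cons_val_zero, Matrix.cons_val_one, Matrix.cons_val_two, Matrix.tail_cons,
        Matrix.head_cons]
      rw [show Real.cosh (w * S) * Real.cosh (w * S) - Real.sinh (w * S) * (k * Real.sinh (w * S)) -
        0 * (√(1 - k ^ 2) * Real.sinh (w * S)) = Real.cosh (w * D) by linear_combination hksin,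
        Real.arcosh_cosh hwD0, ← hwdef, ← hD]
      field_simp)
    (by
      simp only [modelDist, hκ0, hκ1, if_false]
      simp only [Matrix.cons_val_zero, Matrix.cons_val_one, Matrix.cons_val_two, Matrix.tail_cons,
        Matrix.head_cons]
      rw [show (1 : ℝ) * Real.cosh (w * S) - 0 * (k * Real.sinh (w * S)) -
        0 * (√(1 - k ^ 2) * Real.sinh (w * S)) = Real.cosh (w * S) by ring,
        Real.arcosh_cosh hwS.le, hdS', ← hwdef]
      field_simp)
    (by
      simp only [modelDist, hκ0, hκ1, if_false]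
      simp only [Matrix.cons_val_zero, Matrix.cons_val_one, Matrix.cons_val_two, Matrix.tail_cons,
        Matrix.head_cons]
      rw [show (1 : ℝ) * Real.cosh (w * s) - 0 * Real.sinh (w * s) - 0 * 0 = Real.cosh (w * s) by ring,
        Real.arcosh_cosh hws.le, ← hwdef]
      field_simp)
    (by
      simp only [modelDist, hκ0, hκ1, if_false]
      simp only [Matrix.cons_val_zero, Matrix.cons_val_one, Matrix.cons_val_two, Matrix.tail_cons,
        Matrix.head_cons]
      rw [show Real.cosh (w * s) * Real.cosh (w * S) - Real.sinh (w * s) * Real.sinh (w * S) - 0 * 0 =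
        Real.cosh (w * S - w * s) by rw [Real.cosh_sub]; ring,
        Real.arcosh_cosh (by linarith only [hws1]), hdS, ← hwdef]
      field_simp)
    (by
      simp only [modelDist, hκ0, hκ1, if_false]
      simp only [Matrix.cons_val_zero, Matrix.cons_val_one, Matrix.cons_val_two, Matrix.tail_cons,
        Matrix.head_cons]
      rw [show (1 : ℝ) * Real.cosh (w * s) - 0 * (k * Real.sinh (w * s)) -
        0 * (√(1 - k ^ 2) * Real.sinh (w * s)) = Real.cosh (w * s) by ring,
        Real.arcosh_cosh hws.le, ← hwdef]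
      field_simp)
    (by
      simp only [modelDist, hκ0, hκ1, if_false]
      simp only [Matrix.cons_val_zero, Matrix.cons_val_one, Matrix.cons_val_two, Matrix.tail_cons,
        Matrix.head_cons]
      rw [show Real.cosh (w * s) * Real.cosh (w * S) - k * Real.sinh (w * s) * (k * Real.sinh (w * S)) -
        √(1 - k ^ 2) * Real.sinh (w * s) * (√(1 - k ^ 2) * Real.sinh (w * S)) =
        Real.cosh (w * S - w * s) by
          rw [Real.cosh_sub]
          linear_combination (-(Real.sinh (w * s) * Real.sinh (w * S))) * hkk',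
        Real.arcosh_cosh (by linarith only [hws1]), hdS', ← hwdef]
      field_simp)
  simp only [modelDist, hκ0, hκ1, if_false] at key
  simp only [Matrix.cons_val_zero, Matrix.cons_val_one, Matrix.cons_val_two, Matrix.tail_cons,
        Matrix.head_cons] at key
  set d := dist (γ s) (η s) with hd
  rw [show Real.cosh (w * s) * Real.cosh (w * s) - Real.sinh (w * s) * (k * Real.sinh (w * s)) -
        0 * (√(1 - k ^ 2) * Real.sinh (w * s)) = 1 + (1 - k) * Real.sinh (w * s) ^ 2 by
          linear_combination hcs, ← hwdef, le_div_iff₀ hw] at key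
  have hd0 : 0 ≤ d := dist_nonneg
  have hwd0 : 0 ≤ w * d := by positivity
  have hle1 : 1 ≤ 1 + (1 - k) * Real.sinh (w * s) ^ 2 := by
    have : 0 ≤ (1 - k) * Real.sinh (w * s) ^ 2 := by
      have : 0 ≤ 1 - k := by linarith only [hk_le]
      positivity
    linarith only [this]
  have hcos : Real.cosh (w * d) ≤ 1 + (1 - k) * Real.sinh (w * s) ^ 2 := by
    rw [← Real.cosh_arcosh hle1, Real.cosh_le_cosh, abs_of_nonneg hwd0,
      abs_of_nonneg (Real.arcosh_nonneg hle1)]
    linarith only [key]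
  have hc1 : Real.cosh (w * d) - 1 = 2 * Real.sinh (w * d / 2) ^ 2 := by
    have h1 := Real.cosh_two_mul (w * d / 2)
    have h2 := Real.cosh_sq (w * d / 2)
    rw [show 2 * (w * d / 2) = w * d by ring] at h1
    linarith only [h1, h2]
  have hc2 : Real.cosh (w * D) - 1 = 2 * Real.sinh (w * D / 2) ^ 2 := by
    have h1 := Real.cosh_two_mul (w * D / 2)
    have h2 := Real.cosh_sq (w * D / 2)
    rw [show 2 * (w * D / 2) = w * D by ring] at h1
    linarith only [h1, h2]
  have hn1 : 0 ≤ Real.sinh (w * d / 2) := Real.sinh_nonneg_iff.mpr (by positivity)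
  have hn2 : 0 ≤ Real.sinh (w * D / 2) := Real.sinh_nonneg_iff.mpr (by positivity)
  have hfin : (Real.sinh (w * d / 2) * Real.sinh (w * S)) ^ 2 ≤
      (Real.sinh (w * D / 2) * Real.sinh (w * s)) ^ 2 := by
    have h1 : 2 * Real.sinh (w * d / 2) ^ 2 ≤ (1 - k) * Real.sinh (w * s) ^ 2 := by linarith only [hcos, hc1]
    have h2 : (1 - k) * Real.sinh (w * S) ^ 2 = 2 * Real.sinh (w * D / 2) ^ 2 := by linarith only [hsc, hksin, hc2]
    calc (Real.sinh (w * d / 2) * Real.sinh (w * S)) ^ 2
        = (2 * Real.sinh (w * d / 2) ^ 2) * Real.sinh (w * S) ^ 2 / 2 := by ring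
      _ ≤ ((1 - k) * Real.sinh (w * s) ^ 2) * Real.sinh (w * S) ^ 2 / 2 := by gcongr
      _ = ((1 - k) * Real.sinh (w * S) ^ 2) * Real.sinh (w * s) ^ 2 / 2 := by ring
      _ = (Real.sinh (w * D / 2) * Real.sinh (w * s)) ^ 2 := by rw [h2]; ring
  exact (sq_le_sq₀ (by positivity) (by positivity)).mp hfin

theorem iso_zero (h : IsCAT κ X) (hκ : κ = 0) {p : X} {γ η : ℝ → X} {S : ℝ} (hS : 0 < S)
    (h0 : γ 0 = p) (h0' : η 0 = p) (hγ : IsGeodOn γ S) (hη : IsGeodOn η S)
    {s : ℝ} (hs : 0 < s) (hsS : s ≤ S) :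
    dist (γ s) (η s) * S ≤ dist (γ S) (η S) * s := by
  have hκ0 : ¬ (0 < κ) := not_lt.mpr hκ.le
  set D := dist (γ S) (η S) with hD
  have hdS : dist p (γ S) = S := by rw [← h0]; exact iso_geod_dist hS.le hγ
  have hdS' : dist p (η S) = S := by rw [← h0']; exact iso_geod_dist hS.le hη
  have hD0 : 0 ≤ D := dist_nonneg
  have hD2 : D ≤ 2 * S := by
    have := dist_triangle (γ S) p (η S)
    rw [dist_comm (γ S) p, hdS, hdS'] at this
    linarith only [this]
  have hvar : LtVarpi κ D := Or.inl hκ.le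
  obtain ⟨γ₃, hγ₃⟩ := h.geod (γ S) (η S) hvar
  set k : ℝ := 1 - D ^ 2 / (2 * S ^ 2) with hk
  have hk1 : (1 - k) * (2 * S ^ 2) = D ^ 2 := by
    rw [hk]; field_simp; ring
  have hk_le : k ≤ 1 := by
    rw [hk]
    have : 0 ≤ D ^ 2 / (2 * S ^ 2) := by positivity
    linarith only [this]
  have hk_ge : -1 ≤ k := by
    by_contra hc
    push Not at hc
    have : 0 < S ^ 2 := by positivity
    nlinarith only [hk1, hS, hD2, hD0, hc, this]
  have hkk : 0 ≤ 1 - k ^ 2 := by nlinarith only [hk_le, hk_ge]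
  have hkk' := Real.sq_sqrt hkk
  have key := h.comp p (γ S) (η S) γ η γ₃ (iso_fromTo hS.le h0 hγ) (iso_fromTo hS.le h0' hη) hγ₃
    (Or.inl hκ.le) s ⟨hs.le, by rw [hdS]; exact hsS⟩ s ⟨hs.le, by rw [hdS']; exact hsS⟩
    ![1, 0, 0] (Or.inr (Or.inl ⟨hκ, by simp⟩))
    ![1, S, 0] (Or.inr (Or.inl ⟨hκ, by simp⟩))
    ![1, k * S, √(1 - k ^ 2) * S] (Or.inr (Or.inl ⟨hκ, by simp⟩))
    ![1, s, 0] (Or.inr (Or.inl ⟨hκ, by simp⟩))
    ![1, k * s, √(1 - k ^ 2) * s] (Or.inr (Or.inl ⟨hκ, by simp⟩))
    (by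
      simp only [modelDist, hκ, if_true]
      simp only [Matrix.cons_val_zero, Matrix.cons_val_one, Matrix.cons_val_two, Matrix.tail_cons,
        Matrix.head_cons]
      rw [hdS, if_neg (lt_irrefl _), show (0 - S) ^ 2 + ((0:ℝ) - 0) ^ 2 = S ^ 2 by ring, Real.sqrt_sq hS.le])
    (by
      simp only [modelDist, hκ, if_true]
      simp only [Matrix.cons_val_zero, Matrix.cons_val_one, Matrix.cons_val_two, Matrix.tail_cons,
        Matrix.head_cons]
      rw [← hD, if_neg (lt_irrefl _), show (S - k * S) ^ 2 + (0 - √(1 - k ^ 2) * S) ^ 2 = D ^ 2 by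
        linear_combination hk1 + S ^ 2 * hkk', Real.sqrt_sq hD0])
    (by
      simp only [modelDist, hκ, if_true]
      simp only [Matrix.cons_val_zero, Matrix.cons_val_one, Matrix.cons_val_two, Matrix.tail_cons,
        Matrix.head_cons]
      rw [hdS', if_neg (lt_irrefl _), show (0 - k * S) ^ 2 + (0 - √(1 - k ^ 2) * S) ^ 2 = S ^ 2 by
        linear_combination S ^ 2 * hkk', Real.sqrt_sq hS.le])
    (by
      simp only [modelDist, hκ, if_true]
      simp only [Matrix.cons_val_zero, Matrix.cons_val_one, Matrix.cons_val_two, Matrix.tail_cons,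
        Matrix.head_cons]
      rw [if_neg (lt_irrefl _), show (0 - s) ^ 2 + ((0:ℝ) - 0) ^ 2 = s ^ 2 by ring, Real.sqrt_sq hs.le])
    (by
      simp only [modelDist, hκ, if_true]
      simp only [Matrix.cons_val_zero, Matrix.cons_val_one, Matrix.cons_val_two, Matrix.tail_cons,
        Matrix.head_cons]
      rw [hdS, if_neg (lt_irrefl _), show (s - S) ^ 2 + ((0:ℝ) - 0) ^ 2 = (S - s) ^ 2 by ring,
        Real.sqrt_sq (by linarith only [hsS])])
    (by
      simp only [modelDist, hκ, if_true]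
      simp only [Matrix.cons_val_zero, Matrix.cons_val_one, Matrix.cons_val_two, Matrix.tail_cons,
        Matrix.head_cons]
      rw [if_neg (lt_irrefl _), show (0 - k * s) ^ 2 + (0 - √(1 - k ^ 2) * s) ^ 2 = s ^ 2 by
        linear_combination s ^ 2 * hkk', Real.sqrt_sq hs.le])
    (by
      simp only [modelDist, hκ, if_true]
      simp only [Matrix.cons_val_zero, Matrix.cons_val_one, Matrix.cons_val_two, Matrix.tail_cons,
        Matrix.head_cons]
      rw [hdS', if_neg (lt_irrefl _), show (k * s - k * S) ^ 2 +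
        (√(1 - k ^ 2) * s - √(1 - k ^ 2) * S) ^ 2 = (S - s) ^ 2 by
        linear_combination (s - S) ^ 2 * hkk', Real.sqrt_sq (by linarith only [hsS])])
  simp only [modelDist, hκ, if_true] at key
  simp only [Matrix.cons_val_zero, Matrix.cons_val_one, Matrix.cons_val_two, Matrix.tail_cons,
        Matrix.head_cons] at key
  rw [if_neg (lt_irrefl _), show (s - k * s) ^ 2 + (0 - √(1 - k ^ 2) * s) ^ 2 = (s * D / S) ^ 2 by
    have : (s * D / S) ^ 2 = s ^ 2 * (D ^ 2 / S ^ 2) := by field_simp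
    rw [this, ← hk1]
    field_simp
    linear_combination s ^ 2 * hkk', Real.sqrt_sq (by positivity), le_div_iff₀ hS] at key
  linarith only [key]

/-- Almost convexity of the distance of geodesics issuing from a point. -/
theorem iso_all (h : IsCAT κ X) {δ : ℝ} (hδ : 0 < δ) : ∃ r₀ > 0, ∀ (p : X) (γ η : ℝ → X) (S : ℝ),
    0 < S → S ≤ r₀ → γ 0 = p → η 0 = p → IsGeodOn γ S → IsGeodOn η S → ∀ s, 0 < s → s ≤ S →
    dist (γ s) (η s) * S ≤ (1 + δ) * (dist (γ S) (η S) * s) := by
  rcases lt_trichotomy κ 0 with hκ | hκ | hκ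
  · have hw : 0 < √(-κ) := Real.sqrt_pos.mpr (by linarith only [hκ])
    obtain ⟨q, hq, hq2⟩ : ∃ q : ℝ, 0 < q ∧ (1 + q) ^ 2 ≤ 1 + δ := by
      refine ⟨min 1 (δ / 3), lt_min one_pos (by positivity), ?_⟩
      have h1 : min 1 (δ / 3) ≤ 1 := min_le_left _ _
      have h2 : min 1 (δ / 3) ≤ δ / 3 := min_le_right _ _
      have h3 : 0 < min 1 (δ / 3) := lt_min one_pos (by positivity)
      nlinarith only [h2, h1, h3]
    obtain ⟨r, hr, hr1, hb⟩ := iso_sinh_upper hq
    refine ⟨r / √(-κ), by positivity, ?_⟩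
    intro p γ η S hS hSr h0 h0' hγ hη s hs hsS
    have key := iso_neg h hκ hS h0 h0' hγ hη hs hsS
    set w := √(-κ) with hwdef
    set D := dist (γ S) (η S) with hD
    set d := dist (γ s) (η s) with hd
    have hwSr : w * S ≤ r := by rwa [le_div_iff₀ hw, mul_comm] at hSr
    have hdS : dist p (γ S) = S := by rw [← h0]; exact iso_geod_dist hS.le hγ
    have hdS' : dist p (η S) = S := by rw [← h0']; exact iso_geod_dist hS.le hη
    have hD0 : 0 ≤ D := dist_nonneg
    have hd0 : 0 ≤ d := dist_nonneg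
    have hD2 : D ≤ 2 * S := by
      have := dist_triangle (γ S) p (η S)
      rw [dist_comm (γ S) p, hdS, hdS'] at this
      linarith only [this]
    have h1 : w * d / 2 ≤ Real.sinh (w * d / 2) := Real.self_le_sinh_iff.mpr (by positivity)
    have h2 : w * S ≤ Real.sinh (w * S) := Real.self_le_sinh_iff.mpr (by positivity)
    have h3 : Real.sinh (w * D / 2) ≤ (1 + q) * (w * D / 2) :=
      hb _ (by positivity) (by nlinarith only [hwSr, hw, hD2])
    have h4 : Real.sinh (w * s) ≤ (1 + q) * (w * s) := hb _ (by positivity) (by nlinarith only [hr, hsS, hS, hs, hwSr])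
    have h5 : (w * d / 2) * (w * S) ≤ ((1 + q) * (w * D / 2)) * ((1 + q) * (w * s)) := by
      refine le_trans (mul_le_mul h1 h2 (by positivity) (le_trans (by positivity) h1)) ?_
      refine key.trans ?_
      refine mul_le_mul h3 h4 (Real.sinh_nonneg_iff.mpr (by positivity)) (by positivity)
    have h6 : d * S ≤ (1 + q) ^ 2 * (D * s) := by
      have h7 : (w ^ 2 / 2) * (d * S) ≤ (w ^ 2 / 2) * ((1 + q) ^ 2 * (D * s)) := by nlinarith only [h5]
      exact le_of_mul_le_mul_left h7 (by positivity)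
    refine h6.trans ?_
    gcongr
  · refine ⟨1, one_pos, ?_⟩
    intro p γ η S hS hSr h0 h0' hγ hη s hs hsS
    have key := iso_zero h hκ hS h0 h0' hγ hη hs hsS
    have : 0 ≤ dist (γ S) (η S) * s := by positivity
    nlinarith only [key, hδ, this]
  · have hw : 0 < √κ := Real.sqrt_pos.mpr hκ
    obtain ⟨q, hq, hq1, hq2⟩ : ∃ q : ℝ, 0 < q ∧ q < 1 ∧ 1 ≤ (1 + δ) * (1 - q) ^ 2 := by
      refine ⟨min (1 / 2) (δ / (2 * (1 + δ))), lt_min (by norm_num) (by positivity),
        (min_le_left _ _).trans_lt (by norm_num), ?_⟩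
      set q := min (1 / 2 : ℝ) (δ / (2 * (1 + δ)))
      have h1 : q ≤ δ / (2 * (1 + δ)) := min_le_right _ _
      have h2 : q * (2 * (1 + δ)) ≤ δ := by rwa [le_div_iff₀ (by positivity)] at h1
      have h3 : (1 - q) ^ 2 ≥ 1 - 2 * q := by nlinarith only [sq_nonneg q]
      nlinarith only [h2, h3, hδ]
    obtain ⟨r, hr, hr1, hb⟩ := iso_sin_lower hq
    refine ⟨r / √κ, by positivity, ?_⟩
    intro p γ η S hS hSr h0 h0' hγ hη s hs hsS
    set w := √κ with hwdef
    have hwSr : w * S ≤ r := by rwa [le_div_iff₀ hw, mul_comm] at hSr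
    have key := iso_pos h hκ hS (hwSr.trans hr1) h0 h0' hγ hη hs hsS
    rw [← hwdef] at key
    set D := dist (γ S) (η S) with hD
    set d := dist (γ s) (η s) with hd
    have hD0 : 0 ≤ D := dist_nonneg
    have hd0 : 0 ≤ d := dist_nonneg
    have hd2s : d ≤ 2 * s := by
      have h1 : dist p (γ s) = s := by
        rw [← h0]
        exact iso_geod_dist hs.le
          (fun a ha b hb => hγ a ⟨ha.1, ha.2.trans hsS⟩ b ⟨hb.1, hb.2.trans hsS⟩)
      have h2 : dist p (η s) = s := by
        rw [← h0']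
        exact iso_geod_dist hs.le
          (fun a ha b hb => hη a ⟨ha.1, ha.2.trans hsS⟩ b ⟨hb.1, hb.2.trans hsS⟩)
      have := dist_triangle (γ s) p (η s)
      rw [dist_comm (γ s) p, h1, h2] at this
      linarith only [this]
    have h1 : (1 - q) * (w * d / 2) ≤ Real.sin (w * d / 2) := hb _ (by positivity) (by nlinarith only [hwSr, hq, hq1, hsS, hw, hd2s])
    have h2 : (1 - q) * (w * S) ≤ Real.sin (w * S) := hb _ (by positivity) hwSr
    have h3 : Real.sin (w * D / 2) ≤ w * D / 2 := Real.sin_le (by positivity)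
    have h4 : Real.sin (w * s) ≤ w * s := Real.sin_le (by positivity)
    have h4' : 0 ≤ Real.sin (w * s) := by
      refine Real.sin_nonneg_of_nonneg_of_le_pi (by positivity) ?_
      have := Real.pi_gt_three
      nlinarith only [hq, hS, hq1, hr, hsS, hr1, this, hs, hwSr]
    have hq0 : 0 ≤ 1 - q := by linarith only [hq1]
    have h5 : ((1 - q) * (w * d / 2)) * ((1 - q) * (w * S)) ≤ (w * D / 2) * (w * s) := by
      refine le_trans (mul_le_mul h1 h2 (by positivity) (le_trans (by positivity) h1)) ?_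
      refine key.trans ?_
      refine mul_le_mul h3 h4 h4' (by positivity)
    have h6 : (1 - q) ^ 2 * (d * S) ≤ D * s := by
      have h7 : (w ^ 2 / 2) * ((1 - q) ^ 2 * (d * S)) ≤ (w ^ 2 / 2) * (D * s) := by nlinarith only [h5]
      exact le_of_mul_le_mul_left h7 (by positivity)
    calc d * S = 1 * (d * S) := by ring
      _ ≤ ((1 + δ) * (1 - q) ^ 2) * (d * S) := by gcongr
      _ = (1 + δ) * ((1 - q) ^ 2 * (d * S)) := by ring
      _ ≤ (1 + δ) * (D * s) := by gcongr

end

end MP629748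

end part0

section part1

/-! Germs and cone embeddings: first order estimates. -/

open Set Filter Topology Metric
open scoped NNReal

namespace MP629748

section
variable {X : Type*} [MetricSpace X] {κ : ℝ}

theorem low_compAngle_le (a b c : ℝ) : compAngle a b c ≤ Real.pi := Real.arccos_le_pi _
theorem low_compAngle_nonneg (a b c : ℝ) : 0 ≤ compAngle a b c := Real.arccos_nonneg _

theorem low_upper {p : X} (γ η : Germ p) {b : ℝ} (hb : b ≤ Real.pi)
    (hang : germAngle γ η < b) : ∃ r > 0, ∀ s t : ℝ, 0 < s → s ≤ r → 0 < t → t ≤ r →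
      dist (γ.toFun s) (η.toFun t) ^ 2 ≤ s ^ 2 + t ^ 2 - 2 * (s * t) * Real.cos b := by
  have hb0 : 0 ≤ b := (germAngle_nonneg γ η).trans hang.le
  have h1 : ∀ᶠ q : ℝ × ℝ in 𝓝[>] (0:ℝ) ×ˢ 𝓝[>] (0:ℝ),
      compAngle q.1 q.2 (dist (γ.toFun q.1) (η.toFun q.2)) < b := by
    refine Filter.eventually_lt_of_limsup_lt hang ?_
    exact Filter.isBoundedUnder_of ⟨Real.pi, fun q => low_compAngle_le _ _ _⟩
  rw [Filter.eventually_prod_iff] at h1
  obtain ⟨pa, hpa, pb, hpb, hab⟩ := h1
  rw [eventually_nhdsWithin_iff, Metric.eventually_nhds_iff] at hpa hpb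
  obtain ⟨ε₁, hε₁, h1⟩ := hpa
  obtain ⟨ε₂, hε₂, h2⟩ := hpb
  refine ⟨min ε₁ ε₂ / 2, by positivity, ?_⟩
  intro s t hs hsr ht htr
  have hm : 0 < min ε₁ ε₂ := lt_min hε₁ hε₂
  have hs1 : pa s := h1 (by
    rw [Real.dist_eq, sub_zero, abs_of_pos hs]
    have := min_le_left ε₁ ε₂
    linarith only [hs, hsr, this]) hs
  have ht1 : pb t := h2 (by
    rw [Real.dist_eq, sub_zero, abs_of_pos ht]
    have := min_le_right ε₁ ε₂
    linarith only [hs, hsr, htr, this]) ht
  have h3 := hab hs1 ht1
  simp only at h3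
  have h4 : Real.cos b < (s ^ 2 + t ^ 2 - dist (γ.toFun s) (η.toFun t) ^ 2) / (2 * s * t) := by
    by_contra hc
    push Not at hc
    have := Real.arccos_le_arccos hc
    rw [Real.arccos_cos hb0 hb] at this
    exact absurd h3 (not_lt.mpr this)
  rw [lt_div_iff₀ (by positivity)] at h4
  linarith only [h4]

theorem low_freq {p : X} (γ η : Germ p) {b : ℝ} (hb0 : 0 ≤ b) (hb : b ≤ Real.pi)
    (hang : b < germAngle γ η) {r : ℝ} (hr : 0 < r) : ∃ s t : ℝ, 0 < s ∧ s < r ∧ 0 < t ∧ t < r ∧
      s ^ 2 + t ^ 2 - 2 * (s * t) * Real.cos b < dist (γ.toFun s) (η.toFun t) ^ 2 := by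
  have h1 : ∃ᶠ q : ℝ × ℝ in 𝓝[>] (0:ℝ) ×ˢ 𝓝[>] (0:ℝ),
      b < compAngle q.1 q.2 (dist (γ.toFun q.1) (η.toFun q.2)) := by
    refine Filter.frequently_lt_of_lt_limsup ?_ hang
    exact Filter.IsBoundedUnder.isCoboundedUnder_le
      (Filter.isBoundedUnder_of ⟨0, fun q => low_compAngle_nonneg _ _ _⟩)
  have h2 : ∀ᶠ q : ℝ × ℝ in 𝓝[>] (0:ℝ) ×ˢ 𝓝[>] (0:ℝ), q.1 ∈ Ioo 0 r ∧ q.2 ∈ Ioo 0 r := by
    refine Filter.Eventually.prod_mk ?_ ?_ <;>
      exact Ioo_mem_nhdsGT hr
  obtain ⟨⟨s, t⟩, h3, h4⟩ := (h1.and_eventually h2).exists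
  refine ⟨s, t, h4.1.1, h4.1.2, h4.2.1, h4.2.2, ?_⟩
  have hs := h4.1.1
  have ht := h4.2.1
  simp only at hs ht h3
  have h5 : (s ^ 2 + t ^ 2 - dist (γ.toFun s) (η.toFun t) ^ 2) / (2 * s * t) < Real.cos b := by
    by_contra hc
    push Not at hc
    have := Real.arccos_le_arccos hc
    rw [Real.arccos_cos hb0 hb] at this
    exact absurd h3 (not_lt.mpr this)
  rw [div_lt_iff₀ (by positivity)] at h5
  linarith only [h5]

theorem low_diag {p : X} (γ η : Germ p) {a : ℝ} (ha : 0 < a) (ha1 : a ≤ 1)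
    (hang : Real.pi - a < germAngle γ η) {r : ℝ} (hr : 0 < r) (hrγ : r ≤ γ.len)
    (hrη : r ≤ η.len) :
    ∃ s : ℝ, 0 < s ∧ s < r ∧ (2 - a ^ 2) * s ≤ dist (γ.toFun s) (η.toFun s) := by
  have hpi := Real.pi_gt_three
  obtain ⟨s, t, hs, hsr, ht, htr, hst⟩ :=
    low_freq γ η (b := Real.pi - a) (by linarith only [ha1, hpi]) (by linarith only [ha]) hang hr
  rw [Real.cos_pi_sub] at hst
  have hcos : 1 - a ^ 2 / 2 ≤ Real.cos a := Real.one_sub_sq_div_two_le_cos
  set m := min s t with hm
  have hm0 : 0 < m := lt_min hs ht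
  have hD : s + t - a ^ 2 * m ≤ dist (γ.toFun s) (η.toFun t) := by
    have h1 : s ^ 2 + t ^ 2 + 2 * (s * t) * (1 - a ^ 2 / 2) ≤
        dist (γ.toFun s) (η.toFun t) ^ 2 := by
      have : 0 < s * t := by positivity
      nlinarith only [hst, hcos, this]
    have h2 : (s + t - a ^ 2 * m) ^ 2 ≤ s ^ 2 + t ^ 2 + 2 * (s * t) * (1 - a ^ 2 / 2) := by
      have hms : m ≤ s := min_le_left _ _
      have hmt : m ≤ t := min_le_right _ _
      have hmm : s * t = m * max s t := by rw [hm, min_mul_max]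
      have hmx : s + t = m + max s t := by rw [hm, min_add_max]
      have hx : m ≤ max s t := le_trans hms (le_max_left _ _)
      have ha2 : a ^ 2 ≤ 1 := by nlinarith only [ha1, ha]
      have h3 : (s + t - a ^ 2 * m) ^ 2 - (s ^ 2 + t ^ 2 + 2 * (s * t) * (1 - a ^ 2 / 2)) =
        a ^ 2 * (s * t) - 2 * a ^ 2 * m * (s + t) + (a ^ 2) ^ 2 * m ^ 2 := by ring
      have h4 : a ^ 2 * (s * t) - 2 * a ^ 2 * m * (s + t) + (a ^ 2) ^ 2 * m ^ 2 =
        a ^ 2 * m * (max s t - 2 * (m + max s t) + a ^ 2 * m) := by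
        rw [hmm, hmx]; ring
      have h5 : max s t - 2 * (m + max s t) + a ^ 2 * m ≤ 0 := by nlinarith only [ht, hm0, hmx, hms, hs, ha2]
      have h6 : a ^ 2 * m * (max s t - 2 * (m + max s t) + a ^ 2 * m) ≤ 0 :=
        mul_nonpos_of_nonneg_of_nonpos (by positivity) h5
      linarith only [h4, h6]
    exact abs_le_of_sq_le_sq' (h2.trans h1) dist_nonneg |>.2
  refine ⟨m, hm0, (min_le_left _ _).trans_lt hsr, ?_⟩
  have hγs : dist (γ.toFun s) (γ.toFun m) = s - m := by
    rw [γ.geod s ⟨hs.le, by linarith only [hrγ, hsr]⟩ m ⟨hm0.le, by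
      have := min_le_left s t
      linarith only [hrγ, hsr, this]⟩, abs_of_nonneg]
    have := min_le_left s t
    linarith only [this]
  have hηt : dist (η.toFun m) (η.toFun t) = t - m := by
    rw [dist_comm, η.geod t ⟨ht.le, by linarith only [hrη, htr]⟩ m ⟨hm0.le, by
      have := min_le_right s t
      linarith only [hrη, htr, this]⟩, abs_of_nonneg]
    have := min_le_right s t
    linarith only [this]
  have htri : dist (γ.toFun s) (η.toFun t) ≤
      dist (γ.toFun s) (γ.toFun m) + dist (γ.toFun m) (η.toFun m) + dist (η.toFun m) (η.toFun t) :=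
    dist_triangle4 _ _ _ _
  rw [hγs, hηt] at htri
  linarith only [hD, htri]

theorem low_opposite (h : IsCAT κ X) {ε : ℝ} (hε : 0 < ε) : ∃ a > 0, a ≤ 1 ∧
    ∀ (p : X) (γ η : Germ p), Real.pi - a < germAngle γ η →
      ∃ r > 0, ∀ S, 0 < S → S ≤ r → (2 - ε) * S ≤ dist (γ.toFun S) (η.toFun S) := by
  refine ⟨min 1 (ε / 2), lt_min one_pos (by positivity), min_le_left _ _, ?_⟩
  intro p γ η hang
  set a := min 1 (ε / 2) with ha
  have ha0 : 0 < a := lt_min one_pos (by positivity)
  have ha1 : a ≤ 1 := min_le_left _ _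
  have ha2 : a ≤ ε / 2 := min_le_right _ _
  have ha3 : a ^ 2 ≤ ε / 2 := by nlinarith only [ha2, ha0, ha1]
  obtain ⟨r₀, hr₀, hiso⟩ := iso_all h (δ := ε / 4) (by positivity)
  refine ⟨min r₀ (min γ.len η.len), lt_min hr₀ (lt_min γ.len_pos η.len_pos), ?_⟩
  intro S hS hSr
  have hSγ : S ≤ γ.len := hSr.trans ((min_le_right _ _).trans (min_le_left _ _))
  have hSη : S ≤ η.len := hSr.trans ((min_le_right _ _).trans (min_le_right _ _))
  obtain ⟨s, hs, hsS, hD⟩ := low_diag γ η ha0 ha1 hang hS hSγ hSη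
  have hγ : IsGeodOn γ.toFun S := fun x hx y hy =>
    γ.geod x ⟨hx.1, hx.2.trans hSγ⟩ y ⟨hy.1, hy.2.trans hSγ⟩
  have hη : IsGeodOn η.toFun S := fun x hx y hy =>
    η.geod x ⟨hx.1, hx.2.trans hSη⟩ y ⟨hy.1, hy.2.trans hSη⟩
  have key := hiso p γ.toFun η.toFun S hS (hSr.trans (min_le_left _ _)) γ.base η.base hγ hη s hs
    hsS.le
  rcases le_or_gt 2 ε with h2 | h2
  · have : (2 - ε) * S ≤ 0 := mul_nonpos_of_nonpos_of_nonneg (by linarith only [h2]) hS.le
    exact this.trans dist_nonneg
  have h3 : (2 - ε / 2) * s * S ≤ (1 + ε / 4) * (dist (γ.toFun S) (η.toFun S) * s) := by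
    refine le_trans ?_ key
    gcongr
    refine le_trans ?_ hD
    gcongr
  have h4 : (2 - ε / 2) * S ≤ (1 + ε / 4) * dist (γ.toFun S) (η.toFun S) := by
    have : s * ((2 - ε / 2) * S) ≤ s * ((1 + ε / 4) * dist (γ.toFun S) (η.toFun S)) := by
      linarith only [h3]
    exact le_of_mul_le_mul_left this hs
  have h5 : (1 + ε / 4) * ((2 - ε) * S) ≤ (1 + ε / 4) * dist (γ.toFun S) (η.toFun S) := by
    refine le_trans ?_ h4
    nlinarith only [mul_pos hε hS, hε, hS]
  exact le_of_mul_le_mul_left h5 (by positivity)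

/-! ### Directions of a cone embedding -/

theorem low_dir_le_pi {p : X} (ξ η : Directions p) : dist ξ η ≤ Real.pi := by
  induction ξ, η using UniformSpace.Completion.induction_on₂ with
  | hp => exact isClosed_le (by fun_prop) continuous_const
  | ih a b => rw [UniformSpace.Completion.dist_eq]; exact germAngle_le_pi a b

theorem low_exists_germ {p : X} (ξ : Directions p) {ε : ℝ} (hε : 0 < ε) :
    ∃ γ : Germ p, dist ξ (γ : Directions p) < ε := by
  have := UniformSpace.Completion.denseRange_coe (α := Germ p)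
  exact this.exists_dist_lt ξ hε

/-- Germs in the directions `± e_i` of a cone embedding. -/
theorem low_germs {p : X} {m : ℕ} (hp : HasConeEmb m p) {ε : ℝ} (hε : 0 < ε) :
    ∃ g : Fin m → Bool → Germ p,
      (∀ i, Real.pi - ε < germAngle (g i true) (g i false)) ∧
      ∀ i j, i ≠ j → ∀ a b, germAngle (g i a) (g j b) < Real.pi / 2 + ε := by
  obtain ⟨j, hj, hj0, hjr⟩ := hp
  let sg : Bool → ℝ := fun a => if a then 1 else -1
  have hsg2 : ∀ a, sg a * sg a = 1 := by intro a; cases a <;> simp [sg]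
  let e : Fin m → Bool → EuclideanSpace ℝ (Fin m) := fun i a => EuclideanSpace.single i (sg a)
  have hnorm : ∀ i a, ‖e i a‖ = 1 := by
    intro i a
    simp only [e, PiLp.norm_single, sg]
    cases a <;> simp
  have hx : ∀ i a, ∃ ξ : Directions p, j (e i a) = TCone.pt 1 one_pos ξ := by
    intro i a
    have h1 := hj (e i a) 0
    rw [hj0, dist_zero_right, hnorm] at h1
    match h : j (e i a) with
    | .apex => rw [h] at h1; simp [TCone.cdist] at h1
    | .pt t ht ξ =>
      rw [h] at h1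
      simp only [TCone.cdist] at h1
      subst h1
      exact ⟨ξ, rfl⟩
  choose ξ hξ using hx
  have hcos : ∀ i a i' b, Real.cos (dist (ξ i a) (ξ i' b)) = 1 - ‖e i a - e i' b‖ ^ 2 / 2 := by
    intro i a i' b
    have h1 := hj (e i a) (e i' b)
    rw [hξ, hξ, dist_eq_norm] at h1
    simp only [TCone.cdist] at h1
    have h2 : 0 ≤ (1:ℝ) ^ 2 + 1 ^ 2 - 2 * 1 * 1 * Real.cos (dist (ξ i a) (ξ i' b)) := by
      have := Real.cos_le_one (dist (ξ i a) (ξ i' b))
      linarith only [this]
    rw [← h1, Real.sq_sqrt h2]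
    ring
  choose g hg using fun i a => low_exists_germ (ξ i a) (half_pos hε)
  have hclose : ∀ i a i' b, |germAngle (g i a) (g i' b) - dist (ξ i a) (ξ i' b)| < ε := by
    intro i a i' b
    have h1 : germAngle (g i a) (g i' b) = dist (g i a : Directions p) (g i' b : Directions p) := by
      rw [UniformSpace.Completion.dist_eq]; rfl
    rw [h1]
    have h2 := hg i a
    have h3 := hg i' b
    have h4 := dist_dist_dist_le (g i a : Directions p) (g i' b : Directions p)
      (ξ i a) (ξ i' b)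
    rw [Real.dist_eq] at h4
    refine lt_of_le_of_lt h4 ?_
    rw [dist_comm (g i a : Directions p), dist_comm (g i' b : Directions p)]
    linarith only [h2, h3]
  refine ⟨g, ?_, ?_⟩
  · intro i
    have h1 : ‖e i true - e i false‖ ^ 2 = 4 := by
      have : e i true - e i false = EuclideanSpace.single i (2 : ℝ) := by
        simp only [e, sg]
        ext k
        by_cases hk : k = i
        · subst hk; simp; norm_num
        · simp [hk]
      rw [this, PiLp.norm_single]
      norm_num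
    have h2 := hcos i true i false
    rw [h1] at h2
    have h3 : Real.pi ≤ dist (ξ i true) (ξ i false) := by
      by_contra hc
      push Not at hc
      have h4 : Real.cos Real.pi < Real.cos (dist (ξ i true) (ξ i false)) :=
        Real.cos_lt_cos_of_nonneg_of_le_pi dist_nonneg le_rfl hc
      rw [Real.cos_pi, h2] at h4
      linarith only [h4]
    have h4 := abs_lt.mp (hclose i true i false)
    linarith only [h3, h4]
  · intro i k hik a b
    have h1 : ‖e i a - e k b‖ ^ 2 = 2 := by
      rw [EuclideanSpace.norm_sq_eq]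
      have : ∀ l, ‖(e i a - e k b) l‖ ^ 2 = (if l = i then 1 else 0) + (if l = k then 1 else 0) := by
        intro l
        simp only [e, PiLp.sub_apply, PiLp.single_apply, Real.norm_eq_abs, sq_abs]
        by_cases hl : l = i
        · subst hl
          simp only [if_true, if_neg hik, sub_zero, add_zero]
          rw [sq, hsg2]
        · by_cases hl' : l = k
          · subst hl'
            simp only [if_true, if_neg hl, zero_sub, zero_add]
            rw [neg_sq, sq, hsg2]
          · simp [hl, hl']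
      simp_rw [this]
      rw [Finset.sum_add_distrib]
      simp
      norm_num
    have h2 := hcos i a k b
    rw [h1] at h2
    have h3 : dist (ξ i a) (ξ k b) ≤ Real.pi / 2 := by
      by_contra hc
      push Not at hc
      have h4 : Real.cos (dist (ξ i a) (ξ k b)) < Real.cos (Real.pi / 2) :=
        Real.cos_lt_cos_of_nonneg_of_le_pi (by positivity) (low_dir_le_pi _ _) hc
      rw [Real.cos_pi_div_two, h2] at h4
      linarith only [h4]
    have h4 := abs_lt.mp (hclose i a k b)
    linarith only [h3, h4]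

end

end MP629748

end part1

section part2

/-! The lower bound: means of geodesics and the Brouwer fixed point theorem. -/

open Set Filter Topology Metric
open scoped NNReal

namespace MP629748

theorem low_not_NZ {m : ℕ} {Z : Type*} [TopologicalSpace Z] (F : Z → Fin m → ℝ)
    (hF : Continuous F) (τ : (Fin m → ℝ) → Z) (hτ : Continuous τ)
    (h : ∀ v : Fin m → ℝ, ‖v‖ ≤ 1 → ‖F (τ v) - v‖ ≤ 1 / 4) : ¬ NZ m Z := by
  intro hNZ
  obtain ⟨g, hg, hg0, hgF⟩ := hNZ F {z | 1 / 2 ≤ ‖F z‖} hF
    (isClosed_le continuous_const hF.norm) (by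
      intro a ha h0
      simp only [mem_ofPred_eq, h0, norm_zero] at ha
      norm_num at ha)
  set G : (Fin m → ℝ) → (Fin m → ℝ) := fun v => g (τ v) with hG
  have hGc : Continuous G := hg.comp hτ
  have hG0 : ∀ v, G v ≠ 0 := fun v => hg0 _
  set φ : (Fin m → ℝ) → (Fin m → ℝ) := fun v => -((‖G v‖)⁻¹ • G v) with hφ
  have hφc : Continuous φ := by
    refine Continuous.neg (Continuous.smul (Continuous.inv₀ hGc.norm ?_) hGc)
    intro v
    exact norm_ne_zero_iff.mpr (hG0 v)
  have hφn : ∀ v, ‖φ v‖ = 1 := by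
    intro v
    simp only [hφ, norm_neg, norm_smul, norm_inv, norm_norm]
    exact inv_mul_cancel₀ (norm_ne_zero_iff.mpr (hG0 v))
  obtain ⟨x, hx, hfx⟩ := Pool.Agent.Lib.MP_e589f0_an.brouwer_box (n := m) (fun _ => 2)
    (fun _ => by norm_num) (fun x => (fun _ => 1) + φ (x - fun _ => 1))
    (Continuous.continuousOn (by fun_prop)) (by
      intro x _
      have h1 : ∀ i, |φ (x - fun _ => 1) i| ≤ 1 := by
        intro i
        have h0 := norm_le_pi_norm (φ (x - fun _ => 1)) i
        rwa [hφn, Real.norm_eq_abs] at h0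
      constructor
      · intro i
        have := (abs_le.mp (h1 i)).1
        simp only [Pi.zero_apply, Pi.add_apply]
        linarith only [this]
      · intro i
        have := (abs_le.mp (h1 i)).2
        simp only [Pi.add_apply]
        linarith only [this])
  set v : Fin m → ℝ := x - fun _ => 1 with hv
  have hfix : φ v = v := by
    have : x = (fun _ => 1) + φ v := hfx.symm
    rw [hv]
    nth_rewrite 2 [this]
    rw [hv]
    simp
  have hvn : ‖v‖ = 1 := by rw [← hfix, hφn]
  have h1 := h v hvn.le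
  have h2 : 1 / 2 ≤ ‖F (τ v)‖ := by
    have : ‖v‖ ≤ ‖F (τ v)‖ + ‖F (τ v) - v‖ := by
      have := norm_sub_le (F (τ v)) (F (τ v) - v)
      rwa [sub_sub_cancel] at this
    linarith only [hvn, h1, this]
  have h3 : G v = F (τ v) := hgF _ h2
  have h4 : G v = -(‖G v‖ • v) := by
    have h5 : -((‖G v‖)⁻¹ • G v) = v := hfix
    have h6 : ‖G v‖ ≠ 0 := norm_ne_zero_iff.mpr (hG0 v)
    nth_rewrite 3 [← h5]
    rw [smul_neg, neg_neg, smul_smul, mul_inv_cancel₀ h6, one_smul]
  have h5 : ‖G v - v‖ = ‖G v‖ + 1 := by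
    nth_rewrite 1 [h4]
    rw [show -(‖G v‖ • v) - v = -((‖G v‖ + 1) • v) by rw [add_smul, one_smul]; abel, norm_neg,
      norm_smul, hvn, mul_one, Real.norm_eq_abs, abs_of_nonneg (by positivity)]
  rw [← h3, h5] at h1
  have := norm_nonneg (G v)
  linarith only [h1, this]

theorem low_mean {Y : Type*} [MetricSpace Y] {c : ℝ} (hc : 0 ≤ c) (U : UC Y c) (n : ℕ) :
    ∃ M : (Fin (n + 1) → Y) → Y, Continuous M ∧ ∀ (y : Fin (n + 1) → Y) (z : Y),
      dist z (M y) ^ 2 ≤ (∑ i, dist z (y i) ^ 2) / (n + 1) := by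
  induction n with
  | zero =>
    refine ⟨fun y => y 0, continuous_apply 0, ?_⟩
    intro y z
    simp
  | succ n ih =>
    obtain ⟨M, hM, hMd⟩ := ih
    have ht : (1 / ((n : ℝ) + 2)) ∈ Icc (0:ℝ) 1 := by
      constructor
      · positivity
      · rw [div_le_one (by positivity)]
        have : (0:ℝ) ≤ n := Nat.cast_nonneg n
        linarith only []
    refine ⟨fun y => U.cc (M fun i => y i.castSucc) (y (Fin.last _)) (1 / ((n : ℝ) + 2)), ?_, ?_⟩
    · have h1 : Continuous fun y : Fin (n + 1 + 1) → Y =>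
          ((M fun i => y i.castSucc, y (Fin.last _), 1 / ((n : ℝ) + 2)) : Y × Y × ℝ) := by
        refine Continuous.prodMk (hM.comp (by fun_prop)) (Continuous.prodMk (by fun_prop)
          continuous_const)
      exact U.cont.comp_continuous h1 (fun y => ht)
    · intro y z
      have h1 := U.cn (M fun i => y i.castSucc) (y (Fin.last _)) z _ ht
      have h2 := hMd (fun i => y i.castSucc) z
      rw [Fin.sum_univ_castSucc]
      set A := ∑ i : Fin (n + 1), dist z (y i.castSucc) ^ 2 with hA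
      set t := 1 / ((n : ℝ) + 2) with htdef
      have h3 : 0 ≤ c * (t * (1 - t)) * dist (M fun i => y i.castSucc) (y (Fin.last _)) ^ 2 := by
        have : 0 ≤ 1 - t := by linarith only [ht.2, ht]
        have := ht.1
        positivity
      have h4 : (1 - t) * dist z (M fun i => y i.castSucc) ^ 2 ≤ (1 - t) * (A / (n + 1)) :=
        mul_le_mul_of_nonneg_left h2 (by linarith only [ht.2, ht])
      have h5 : (1 - t) * (A / (n + 1)) + t * dist z (y (Fin.last _)) ^ 2 =
          (A + dist z (y (Fin.last (n + 1))) ^ 2) / (((n + 1 : ℕ) : ℝ) + 1) := by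
        rw [htdef]
        push_cast
        field_simp
        ring
      linarith only [h1, h3, h4, h5]

section
variable {X : Type*} [MetricSpace X] {κ : ℝ}

theorem low_germ_dist {p : X} (γ : Germ p) {s : ℝ} (hs : 0 ≤ s) (hsl : s ≤ γ.len) :
    dist p (γ.toFun s) = s := by
  have h := γ.geod 0 ⟨le_rfl, γ.len_pos.le⟩ s ⟨hs, hsl⟩
  rwa [γ.base, zero_sub, abs_neg, abs_of_nonneg hs] at h

/-- the path through `p` built from two germs -/
noncomputable def lowPath {p : X} (γ η : Germ p) (L : ℝ) (x : ℝ) : X :=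
  if 0 ≤ x then γ.toFun (L * max 0 (min x 1)) else η.toFun (L * max 0 (min (-x) 1))

theorem lowPath_continuous {p : X} (γ η : Germ p) {L : ℝ} (hL : 0 ≤ L) (hγ : L ≤ γ.len)
    (hη : L ≤ η.len) : Continuous (lowPath γ η L) := by
  have hc : ∀ (ζ : Germ p), L ≤ ζ.len → ∀ u : ℝ → ℝ, Continuous u →
      Continuous fun x => ζ.toFun (L * max 0 (min (u x) 1)) := by
    intro ζ hζ u hu
    have h1 : ContinuousOn ζ.toFun (Icc 0 ζ.len) := by
      have : LipschitzOnWith 1 ζ.toFun (Icc 0 ζ.len) := by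
        refine LipschitzOnWith.of_dist_le_mul ?_
        intro x hx y hy
        rw [ζ.geod x hx y hy, NNReal.coe_one, one_mul, Real.dist_eq]
      exact this.continuousOn
    refine h1.comp_continuous (by fun_prop) ?_
    intro x
    have h2 : 0 ≤ max 0 (min (u x) 1) := le_max_left _ _
    have h3 : max 0 (min (u x) 1) ≤ 1 := max_le zero_le_one (min_le_right _ _)
    exact ⟨by positivity, by nlinarith only [hζ, hL, h3]⟩
  unfold lowPath
  refine Continuous.if_le (hc γ hγ _ continuous_id) (hc η hη _ continuous_neg) continuous_const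
    continuous_id ?_
  intro x hx
  subst hx
  simp [γ.base, η.base]

theorem low_dist_p {p : X} (γ η : Germ p) {L : ℝ} (hL : 0 ≤ L) (hγ : L ≤ γ.len)
    (hη : L ≤ η.len) (x : ℝ) : dist p (lowPath γ η L x) ≤ L := by
  unfold lowPath
  have h2 : ∀ y : ℝ, 0 ≤ max 0 (min y 1) := fun y => le_max_left _ _
  have h3 : ∀ y : ℝ, max 0 (min y 1) ≤ 1 := fun y => max_le zero_le_one (min_le_right _ _)
  split_ifs with hx
  · have := h2 x
    have := h3 x
    rw [low_germ_dist γ (by positivity) (by nlinarith only [hγ, hL, this])]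
    nlinarith only [hL, this]
  · have := h2 (-x)
    have := h3 (-x)
    rw [low_germ_dist η (by positivity) (by nlinarith only [hη, hL, this])]
    nlinarith only [hL, this]

/-- value of the path: either the base point, or a point of one of the two germs -/
theorem lowPath_cases {p : X} (γ η : Germ p) {L : ℝ} {x : ℝ} (hx : |x| ≤ 1) :
    (0 ≤ x ∧ lowPath γ η L x = γ.toFun (L * x)) ∨ (x < 0 ∧ lowPath γ η L x = η.toFun (L * (-x))) := by
  rw [abs_le] at hx
  rcases le_or_gt 0 x with h | h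
  · left
    refine ⟨h, ?_⟩
    unfold lowPath
    rw [if_pos h, min_eq_left hx.2, max_eq_right h]
  · right
    refine ⟨h, ?_⟩
    unfold lowPath
    rw [if_neg (not_le.mpr h), min_eq_left (by linarith only [hx]), max_eq_right (by linarith only [h])]

end

/-- The choice of the scale. -/
theorem low_scale {X : Type*} [MetricSpace X] {κ : ℝ} (h : IsCAT κ X) {m : ℕ} {p : X}
    (hp : HasConeEmb m p) {R : ℝ} (hR : 1 ≤ R) {r₀ : ℝ} (hr₀ : 0 < r₀) :
    ∃ (g : Fin m → Bool → Germ p) (T : ℝ), 0 < T ∧ T ≤ r₀ ∧ (∀ i a, T ≤ (g i a).len) ∧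
      (∀ i, (2 - 1 / (8 * R)) * T ≤ dist ((g i true).toFun T) ((g i false).toFun T)) ∧
      ∀ i j, i ≠ j → ∀ a b s t, 0 < s → s ≤ T → 0 < t → t ≤ T →
        dist ((g i a).toFun s) ((g j b).toFun t) ^ 2 ≤ s ^ 2 + t ^ 2 + 2 * (s * t) / R := by
  have hR0 : 0 < R := by linarith only [hR]
  obtain ⟨a₀, ha₀, ha₀1, hopp⟩ := low_opposite h (ε := 1 / (8 * R)) (by positivity)
  obtain ⟨g, hg1, hg2⟩ := low_germs hp (ε := min a₀ (1 / R)) (lt_min ha₀ (by positivity))
  have hpi := Real.pi_gt_three
  have hR1 : 1 / R ≤ 1 := by rw [div_le_one hR0]; exact hR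
  have e1 : ∀ᶠ T : ℝ in 𝓝[>] 0, 0 < T ∧ T ≤ r₀ := by
    filter_upwards [Ioc_mem_nhdsGT hr₀] with T hT using hT
  have e2 : ∀ᶠ T : ℝ in 𝓝[>] 0, ∀ i a, T ≤ (g i a).len := by
    rw [Filter.eventually_all]
    intro i
    rw [Filter.eventually_all]
    intro a
    filter_upwards [Ioc_mem_nhdsGT (g i a).len_pos] with T hT using hT.2
  have e3 : ∀ᶠ T : ℝ in 𝓝[>] 0, ∀ i,
      (2 - 1 / (8 * R)) * T ≤ dist ((g i true).toFun T) ((g i false).toFun T) := by
    rw [Filter.eventually_all]
    intro i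
    obtain ⟨r, hr, hrS⟩ := hopp p (g i true) (g i false) (by
      have := hg1 i
      have := min_le_left a₀ (1 / R)
      linarith)
    filter_upwards [Ioc_mem_nhdsGT hr] with T hT using hrS T hT.1 hT.2
  have e4 : ∀ᶠ T : ℝ in 𝓝[>] 0, ∀ i j, i ≠ j → ∀ a b s t, 0 < s → s ≤ T → 0 < t → t ≤ T →
        dist ((g i a).toFun s) ((g j b).toFun t) ^ 2 ≤ s ^ 2 + t ^ 2 + 2 * (s * t) / R := by
    rw [Filter.eventually_all]
    intro i
    rw [Filter.eventually_all]
    intro j
    by_cases hij : i = j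
    · exact Filter.Eventually.of_forall fun T hne => absurd hij hne
    have : ∀ᶠ T : ℝ in 𝓝[>] 0, ∀ a b, ∀ s t, 0 < s → s ≤ T → 0 < t → t ≤ T →
        dist ((g i a).toFun s) ((g j b).toFun t) ^ 2 ≤ s ^ 2 + t ^ 2 + 2 * (s * t) / R := by
      rw [Filter.eventually_all]
      intro a
      rw [Filter.eventually_all]
      intro b
      have hlt : germAngle (g i a) (g j b) < Real.pi / 2 + 1 / R := by
        have := hg2 i j hij a b
        have := min_le_right a₀ (1 / R)
        linarith
      obtain ⟨r, hr, hrS⟩ := low_upper (g i a) (g j b) (b := Real.pi / 2 + 1 / R)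
        (by linarith only [hpi, hR1]) hlt
      filter_upwards [Ioc_mem_nhdsGT hr] with T hT s t hs hsT ht htT
      have h1 := hrS s t hs (hsT.trans hT.2) ht (htT.trans hT.2)
      have h2 : -(1 / R) ≤ Real.cos (Real.pi / 2 + 1 / R) := by
        rw [add_comm, Real.cos_add_pi_div_two]
        have := Real.sin_le (show 0 ≤ 1 / R by positivity)
        linarith only [this]
      have h3 : 0 < s * t := by positivity
      have h4 : 2 * (s * t) / R = 2 * (s * t) * (1 / R) := by ring
      rw [h4]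
      nlinarith only [h1, h2, h3]
    filter_upwards [this] with T hT _ using hT
  obtain ⟨T, ⟨h1, h1'⟩, h2, h3, h4⟩ := (e1.and (e2.and (e3.and e4))).exists
  exact ⟨g, T, h1, h1', h2, h3, h4⟩

/-- the sign of a boolean -/
def lowSg (a : Bool) : ℝ := if a then 1 else -1

/-- The main metric estimate. -/
theorem low_main {X : Type*} [MetricSpace X] {κ : ℝ} (h : IsCAT κ X) {n : ℕ} {p : X}
    (hp : HasConeEmb (n + 1) p) {r₀ : ℝ} (hr₀ : 0 < r₀) {c : ℝ} (hc : 0 ≤ c)
    (U : UC (closedBall p r₀) c) : ¬ NZ (n + 1) (closedBall p r₀) := by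
  set m : ℝ := (n : ℝ) + 1 with hm
  have hm1 : 1 ≤ m := by
    have : (0:ℝ) ≤ n := Nat.cast_nonneg n
    linarith
  set R : ℝ := 16 * m ^ 2 + 1 with hR
  have hR1 : 1 ≤ R := by nlinarith
  have hR0 : 0 < R := by linarith only [hR1]
  have hmR : m ≤ R := by nlinarith
  obtain ⟨g, T, hT, hTr, hTlen, hopp, hup⟩ := low_scale h hp hR1 hr₀
  set t : ℝ := T / R with ht
  have ht0 : 0 < t := by positivity
  have hTt : T = R * t := by rw [ht]; field_simp
  have hL0 : 0 ≤ m * t := by positivity
  have hLT : m * t ≤ T := by rw [hTt]; gcongr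
  have hLlen : ∀ i a, m * t ≤ (g i a).len := fun i a => hLT.trans (hTlen i a)
  -- the points
  have hball : ∀ i (x : ℝ), lowPath (g i true) (g i false) (m * t) x ∈ closedBall p r₀ := by
    intro i x
    rw [mem_closedBall, dist_comm]
    exact (low_dist_p _ _ hL0 (hLlen i true) (hLlen i false) x).trans (hLT.trans hTr)
  have hball2 : ∀ i a, (g i a).toFun T ∈ closedBall p r₀ := by
    intro i a
    rw [mem_closedBall, dist_comm, low_germ_dist _ hT.le (hTlen i a)]
    exact hTr
  let P : Fin (n + 1) → ℝ → closedBall p r₀ := fun i x => ⟨_, hball i x⟩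
  let z : Fin (n + 1) → Bool → closedBall p r₀ := fun i a => ⟨_, hball2 i a⟩
  have hPc : ∀ i, Continuous (P i) := fun i =>
    Continuous.subtype_mk (lowPath_continuous _ _ hL0 (hLlen i true) (hLlen i false)) _
  obtain ⟨M, hMc, hMd⟩ := low_mean hc U n
  set τ : (Fin (n + 1) → ℝ) → closedBall p r₀ := fun v => M fun i => P i (v i) with hτ
  have hτc : Continuous τ := by
    refine hMc.comp (continuous_pi fun i => (hPc i).comp (continuous_apply i))
  set F : closedBall p r₀ → Fin (n + 1) → ℝ := fun y i =>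
    (dist y (z i false) - dist y (z i true)) / (2 * t) with hF
  have hFc : Continuous F := by
    refine continuous_pi fun i => ?_
    simp only [hF]
    fun_prop
  refine low_not_NZ F hFc τ hτc ?_
  intro v hv
  have hvi : ∀ i, |v i| ≤ 1 := fun i => (norm_le_pi_norm v i).trans hv
  -- distance to the path of the same index
  have hsame : ∀ i a, dist (z i a) (P i (v i)) ^ 2 ≤ ((R - m * (lowSg a * v i)) * t) ^ 2 := by
    intro i a
    have hvi' := abs_le.mp (hvi i)
    have hle : dist (z i a) (P i (v i)) ≤ (R - m * (lowSg a * v i)) * t := by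
      change dist ((g i a).toFun T) (lowPath (g i true) (g i false) (m * t) (v i)) ≤ _
      have htri : ∀ (b : Bool) (s : ℝ), 0 ≤ s → s ≤ (g i b).len →
          dist ((g i a).toFun T) ((g i b).toFun s) ≤ T + s := by
        intro b s hs hsl
        have h1 := dist_triangle ((g i a).toFun T) p ((g i b).toFun s)
        rw [dist_comm _ p, low_germ_dist _ hT.le (hTlen i a), low_germ_dist _ hs hsl] at h1
        exact h1
      have hgeo : ∀ (s : ℝ), 0 ≤ s → s ≤ T →
          dist ((g i a).toFun T) ((g i a).toFun s) = T - s := by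
        intro s hs hsl
        rw [(g i a).geod T ⟨hT.le, hTlen i a⟩ s ⟨hs, hsl.trans (hTlen i a)⟩,
          abs_of_nonneg (by linarith only [hsl])]
      rcases lowPath_cases (g i true) (g i false) (L := m * t) (hvi i) with ⟨h0, h1⟩ | ⟨h0, h1⟩
      · rw [h1]
        have hs0 : 0 ≤ m * t * v i := by positivity
        have hs1 : m * t * v i ≤ m * t := by nlinarith only [hL0, hvi']
        cases a with
        | true =>
          rw [hgeo _ hs0 (hs1.trans hLT), hTt]
          simp only [lowSg, if_true]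
          apply le_of_eq; ring
        | false =>
          refine (htri true _ hs0 (hs1.trans (hLlen i true))).trans ?_
          rw [hTt]
          simp only [lowSg, Bool.false_eq_true, if_false]
          apply le_of_eq; ring
      · rw [h1]
        have hs0 : 0 ≤ m * t * (-v i) := by
          have : 0 ≤ -v i := by linarith only [h0]
          positivity
        have hs1 : m * t * (-v i) ≤ m * t := by nlinarith only [hL0, hvi']
        cases a with
        | true =>
          refine (htri false _ hs0 (hs1.trans (hLlen i false))).trans ?_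
          rw [hTt]
          simp only [lowSg, if_true]
          apply le_of_eq; ring
        | false =>
          rw [hgeo _ hs0 (hs1.trans hLT), hTt]
          simp only [lowSg, Bool.false_eq_true, if_false]
          apply le_of_eq; ring
    exact pow_le_pow_left₀ dist_nonneg hle 2
  have hother : ∀ i j, i ≠ j → ∀ a, dist (z i a) (P j (v j)) ^ 2 ≤ t ^ 2 * (R ^ 2 + m ^ 2 + 2 * m) := by
    intro i j hij a
    change dist ((g i a).toFun T) (lowPath (g j true) (g j false) (m * t) (v j)) ^ 2 ≤ _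
    have hvj' := abs_le.mp (hvi j)
    have hgen : ∀ (b : Bool) (x : ℝ), 0 ≤ x → x ≤ 1 →
        dist ((g i a).toFun T) ((g j b).toFun (m * t * x)) ^ 2 ≤ t ^ 2 * (R ^ 2 + m ^ 2 + 2 * m) := by
      intro b x hx0 hx1
      rcases hx0.eq_or_lt with rfl | hx
      · rw [mul_zero, (g j b).base, dist_comm, low_germ_dist _ hT.le (hTlen i a), hTt]
        have h20 : 0 ≤ t ^ 2 * (m ^ 2 + 2 * m) := by positivity
        linarith only [h20]
      · have hs0 : 0 < m * t * x := by positivity
        have hs1 : m * t * x ≤ m * t := by nlinarith only [hL0, hx1]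
        refine (hup i j hij a b T _ hT le_rfl hs0 (hs1.trans hLT)).trans ?_
        have h1 : (m * t * x) ^ 2 ≤ (m * t) ^ 2 := pow_le_pow_left₀ hs0.le hs1 2
        have h2 : 2 * (T * (m * t * x)) / R = 2 * t * (m * t * x) := by
          rw [hTt]; field_simp
        rw [h2, hTt]
        have h3 : 2 * t * (m * t * x) ≤ 2 * t * (m * t) := by gcongr
        nlinarith only [h1, h3]
    rcases lowPath_cases (g j true) (g j false) (L := m * t) (hvi j) with ⟨h0, h1⟩ | ⟨h0, h1⟩
    · rw [h1]; exact hgen true _ h0 hvj'.2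
    · rw [h1]; exact hgen false _ (by linarith only [h0]) (by linarith only [hvj'])
  have hdist : ∀ i a, dist (z i a) (τ v) ≤ t * (R - lowSg a * v i + 1 / 8) := by
    intro i a
    have h1 := hMd (fun i => P i (v i)) (z i a)
    have hsgv : |lowSg a * v i| ≤ 1 := by
      rw [abs_mul]
      have : |lowSg a| = 1 := by cases a <;> simp [lowSg]
      rw [this, one_mul]; exact hvi i
    set x := lowSg a * v i with hx
    have hx' := abs_le.mp hsgv
    have h2 : ∑ j, dist (z i a) (P j (v j)) ^ 2 ≤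
        ((R - m * x) * t) ^ 2 + n * (t ^ 2 * (R ^ 2 + m ^ 2 + 2 * m)) := by
      rw [← Finset.add_sum_erase _ _ (Finset.mem_univ i)]
      refine add_le_add (hsame i a) ?_
      refine (Finset.sum_le_card_nsmul _ _ _ (fun j hj => hother i j
        (Finset.ne_of_mem_erase hj).symm a)).trans ?_
      rw [Finset.card_erase_of_mem (Finset.mem_univ i), Finset.card_univ, Fintype.card_fin]
      simp
    have h3 : dist (z i a) (τ v) ^ 2 ≤ (t * (R - x + 1 / 8)) ^ 2 := by
      refine h1.trans ?_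
      rw [div_le_iff₀ (by positivity)]
      refine h2.trans ?_
      rw [← hm]
      have hn : (n : ℝ) = m - 1 := by rw [hm]; ring
      rw [hn]
      have h4 : ((R - m * x) * t) ^ 2 + (m - 1) * (t ^ 2 * (R ^ 2 + m ^ 2 + 2 * m)) =
        t ^ 2 * ((R - m * x) ^ 2 + (m - 1) * (R ^ 2 + m ^ 2 + 2 * m)) := by ring
      have h5 : (t * (R - x + 1 / 8)) ^ 2 * m = t ^ 2 * ((R - x + 1 / 8) ^ 2 * m) := by ring
      rw [h4, h5]
      refine mul_le_mul_of_nonneg_left ?_ (by positivity)
      have hx2 : x ^ 2 ≤ 1 := by nlinarith only [hx']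
      have h6 : (R - m * x) ^ 2 + (m - 1) * (R ^ 2 + m ^ 2 + 2 * m) =
        m * (R ^ 2 - 2 * R * x + m * x ^ 2) + (m - 1) * (m ^ 2 + 2 * m) := by ring
      rw [h6]
      have h7 : m * x ^ 2 ≤ m := mul_le_of_le_one_right (by linarith only [hm1]) hx2
      have h8 : (m - 1) * (m ^ 2 + 2 * m) ≤ m * (m ^ 2 + 2 * m) :=
        mul_le_mul_of_nonneg_right (by linarith only []) (by positivity)
      have h9 : m * (R ^ 2 - 2 * R * x + m * x ^ 2) ≤ m * (R ^ 2 - 2 * R * x + m) := by gcongr
      have h10 : R ^ 2 - 2 * R * x + m + (m ^ 2 + 2 * m) ≤ (R - x + 1 / 8) ^ 2 := by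
        have h11 : (R - x + 1 / 8) ^ 2 = R ^ 2 - 2 * R * x + x ^ 2 + (R - x) / 4 + 1 / 64 := by ring
        have h12 : (R - x) / 4 ≥ 4 * m ^ 2 := by
          rw [hR]; linarith only [hx']
        have h13 : m ≤ m ^ 2 := by nlinarith only [hm1]
        rw [h11]
        linarith only [h12, h13, sq_nonneg x]
      have h14 := mul_le_mul_of_nonneg_left h10 (show 0 ≤ m by linarith only [hm1])
      linarith only [h8, h9, h14]
    have hpos : 0 ≤ t * (R - x + 1 / 8) := by
      have : 0 ≤ R - x + 1 / 8 := by linarith only [hR1, hx']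
      positivity
    exact abs_le_of_sq_le_sq' h3 hpos |>.2
  rw [pi_norm_le_iff_of_nonneg (by norm_num)]
  intro i
  rw [Pi.sub_apply, Real.norm_eq_abs, abs_le]
  have hp1 := hdist i true
  have hp2 := hdist i false
  simp only [lowSg, if_true, Bool.false_eq_true, if_false, one_mul] at hp1 hp2
  have hp3 : (2 - 1 / (8 * R)) * T ≤ dist (z i true) (z i false) := hopp i
  have hp4 : dist (z i true) (z i false) ≤ dist (z i true) (τ v) + dist (z i false) (τ v) :=
    dist_triangle_right _ _ _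
  have hp5 : (2 - 1 / (8 * R)) * T = 2 * R * t - t / 8 := by
    rw [hTt]; field_simp
  rw [hp5] at hp3
  have hFi : F (τ v) i = (dist (z i false) (τ v) - dist (z i true) (τ v)) / (2 * t) := by
    simp only [hF]
    rw [dist_comm (τ v), dist_comm (τ v)]
  rw [hFi]
  constructor
  · have : (v i - 1 / 4) ≤ (dist (z i false) (τ v) - dist (z i true) (τ v)) / (2 * t) := by
      rw [le_div_iff₀ (by positivity)]
      nlinarith only [ht0, hp1, hp3, hp4]
    linarith only [this]
  · have : (dist (z i false) (τ v) - dist (z i true) (τ v)) / (2 * t) ≤ (v i + 1 / 4) := by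
      rw [div_le_iff₀ (by positivity)]
      nlinarith only [ht0, hp2, hp3, hp4]
    linarith only [this]

end MP629748

end part2

section part3

/-! The lower bound. -/

open Set Filter Topology Metric
open scoped NNReal

namespace MP629748

universe u

theorem exists_not_NZ {κ : ℝ} {X : Type u} [MetricSpace X] [CompleteSpace X]
    (h : IsCAT κ X) {m : ℕ} (hm : 1 ≤ m) (p : X) (hp : HasConeEmb m p) :
    ∃ Z : Set X, IsClosed Z ∧ ¬ NZ m Z := by
  obtain ⟨n, rfl⟩ : ∃ n, m = n + 1 := ⟨m - 1, by omega⟩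
  obtain ⟨r₀, hr₀, hU⟩ := exists_uc_of_cat h (c := 1 / 2) (by norm_num)
  obtain ⟨U, -⟩ := hU p r₀ hr₀ le_rfl
  exact ⟨closedBall p r₀, isClosed_closedBall, low_main h hp hr₀ (by norm_num) U⟩

end MP629748

end part3
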