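import Pool.Agent.Lib.MP_629748_gt.MGeoA

/-!
The linear dimension bounds the rank.
-/

section part0

/-!
# MP_629748_gt, piece P14-R2a: uniform descent at Lebesgue points (helper14)
-/

set_option autoImplicit false

open Set Filter Topology MeasureTheory Metric
open scoped NNReal

namespace MP629748

section descent

variable {d : ℕ}

/-- the smeared function along the segment -/
noncomputable def udPhi (g : (Fin d → ℝ) → ℝ) (s w e : Fin d → ℝ) (t r τ : ℝ) : ℝ :=
  ∫ z in closedBall (0 : Fin d → ℝ) r, g (s + t • (w + τ • e) + z)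

theorem ud_hasDerivAt {g : (Fin d → ℝ) → ℝ} {K : ℝ≥0} (hg : LipschitzWith K g)
    (s w e : Fin d → ℝ) (t r τ : ℝ) :
    Integrable (fun z => t * fderiv ℝ g (s + t • (w + τ • e) + z) e)
      (volume.restrict (closedBall (0 : Fin d → ℝ) r)) ∧
    HasDerivAt (udPhi g s w e t r)
      (∫ z in closedBall (0 : Fin d → ℝ) r, t * fderiv ℝ g (s + t • (w + τ • e) + z) e) τ := by
  have hcont : ∀ τ' : ℝ, Continuous (fun z => g (s + t • (w + τ' • e) + z)) := fun τ' =>
    hg.continuous.comp (continuous_const.add continuous_id)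
  refine hasDerivAt_integral_of_dominated_loc_of_lip (s := univ) univ_mem
    (F := fun τ' z => g (s + t • (w + τ' • e) + z)) (bound := fun _ => K * (|t| * ‖e‖))
    ?_ ?_ ?_ ?_ ?_ ?_
  · exact Eventually.of_forall fun τ' => (hcont τ').aestronglyMeasurable
  · exact (hcont τ).continuousOn.integrableOn_compact (isCompact_closedBall 0 r)
  · refine Measurable.aestronglyMeasurable ?_
    refine measurable_const.mul ?_
    exact (measurable_fderiv_apply_const ℝ g e).comp (measurable_const.add measurable_id)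
  · refine ae_of_all _ (fun z => ?_)
    refine LipschitzOnWith.of_dist_le_mul (fun a _ b _ => ?_)
    refine (hg.dist_le_mul _ _).trans ?_
    have h1 : dist (s + t • (w + a • e) + z) (s + t • (w + b • e) + z) = |t| * ‖e‖ * dist a b := by
      rw [dist_eq_norm, Real.dist_eq]
      have : s + t • (w + a • e) + z - (s + t • (w + b • e) + z) = (t * (a - b)) • e := by
        ext i; simp; ring
      rw [this, norm_smul, Real.norm_eq_abs, abs_mul]
      ring
    rw [h1]
    have h2 : ((Real.nnabs (K * (|t| * ‖e‖)) : ℝ≥0) : ℝ) = K * (|t| * ‖e‖) := by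
      rw [Real.coe_nnabs, abs_of_nonneg (by positivity)]
    rw [h2]
    ring_nf
    rfl
  · exact integrableOn_const (isCompact_closedBall 0 r).measure_lt_top.ne
  · have h1 : ∀ᵐ z : Fin d → ℝ, DifferentiableAt ℝ g (s + t • (w + τ • e) + z) :=
      (measurePreserving_add_left volume (s + t • (w + τ • e))).quasiMeasurePreserving.ae
        hg.ae_differentiableAt
    refine ae_restrict_of_ae ?_
    filter_upwards [h1] with z hz
    have h2 : HasDerivAt (fun τ' : ℝ => s + t • (w + τ' • e) + z) (t • e) τ := by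
      have h3 : HasDerivAt (fun τ' : ℝ => τ' • e) e τ := by
        simpa using (hasDerivAt_id τ).smul_const e
      exact (((h3.const_add w).const_smul t).const_add s).add_const z
    have h4 := hz.hasFDerivAt.comp_hasDerivAt τ h2
    rw [map_smul, smul_eq_mul] at h4
    exact h4

theorem ud_vol (r : ℝ) (hr : 0 ≤ r) (c : Fin d → ℝ) :
    volume.real (closedBall c r) = (2 * r) ^ d := by
  rw [Measure.real, Real.volume_pi_closedBall c hr, Fintype.card_fin,
    ENNReal.toReal_ofReal (by positivity)]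

/-- one function, one scale -/
theorem ud_step {g : (Fin d → ℝ) → ℝ} {K : ℝ≥0} (hg : LipschitzWith K g) (s w e : Fin d → ℝ)
    (σ : (Fin d → ℝ) → ℝ) (hσm : Measurable σ) {Cσ : ℝ} (hσb : ∀ x, |σ x| ≤ Cσ)
    (hσ : ∀ᵐ x, - fderiv ℝ g x e ≤ σ x) {t δ C η : ℝ} (ht : 0 < t) (hδ : 0 < δ)
    (hC : ‖w‖ + ‖e‖ + δ ≤ C)
    (hη : ∫ y in closedBall s (C * t), ‖σ y - σ s‖ ≤ η * (2 * (C * t)) ^ d) :
    g (s + t • w) - g (s + t • (w + e)) ≤
      2 * K * (δ * t) + t * (σ s + η * (C / δ) ^ d) := by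
  have hC0 : 0 < C := lt_of_lt_of_le (by positivity) hC
  set r := δ * t with hr
  have hr0 : 0 < r := by positivity
  set B := closedBall (0 : Fin d → ℝ) r with hB
  have hV : volume.real B = (2 * r) ^ d := ud_vol r hr0.le 0
  have hV0 : 0 < (2 * r) ^ d := by positivity
  have hBfin : volume B ≠ ⊤ := (isCompact_closedBall 0 r).measure_lt_top.ne
  -- mean value theorem
  obtain ⟨c, hc, hcs⟩ := exists_hasDerivAt_eq_slope (udPhi g s w e t r) _ (zero_lt_one' ℝ)
    (fun x _ => (ud_hasDerivAt hg s w e t r x).2.continuousAt.continuousWithinAt)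
    (fun x _ => (ud_hasDerivAt hg s w e t r x).2)
  rw [sub_zero, div_one] at hcs
  -- bound of the derivative
  have hint : Integrable (fun z => t * fderiv ℝ g (s + t • (w + c • e) + z) e)
      (volume.restrict B) := (ud_hasDerivAt hg s w e t r c).1
  have hσint : ∀ p : Fin d → ℝ, ∀ A : Set (Fin d → ℝ), volume A ≠ ⊤ →
      IntegrableOn (fun z => σ (p + z)) A := by
    intro p A hA
    refine Measure.integrableOn_of_bounded (M := Cσ) hA ?_ ?_
    · exact (hσm.comp (measurable_const.add measurable_id)).aestronglyMeasurable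
    · exact ae_of_all _ (fun z => hσb _)
  set p := s + t • (w + c • e) with hp
  have hae : ∀ᵐ z : Fin d → ℝ, - fderiv ℝ g (p + z) e ≤ σ (p + z) :=
    (measurePreserving_add_left volume p).quasiMeasurePreserving.ae hσ
  have h1 : - ∫ z in B, t * fderiv ℝ g (p + z) e ≤ t * ∫ z in B, σ (p + z) := by
    rw [← integral_neg, ← integral_const_mul]
    refine integral_mono_ae hint.neg ((hσint p B hBfin).const_mul t) ?_
    refine ae_restrict_of_ae ?_
    filter_upwards [hae] with z hz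
    have := mul_le_mul_of_nonneg_left hz ht.le
    show -(t * (fderiv ℝ g (p + z)) e) ≤ t * σ (p + z)
    linarith
  have hsub : ∀ z ∈ B, p + z ∈ closedBall s (C * t) := by
    intro z hz
    rw [hB, mem_closedBall, dist_zero_right] at hz
    rw [mem_closedBall, dist_eq_norm, hp]
    have e1 : s + t • (w + c • e) + z - s = t • (w + c • e) + z := by abel
    rw [e1]
    calc ‖t • (w + c • e) + z‖ ≤ ‖t • (w + c • e)‖ + ‖z‖ := norm_add_le _ _
      _ ≤ t * (‖w‖ + ‖e‖) + δ * t := by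
          refine add_le_add ?_ (hz.trans (le_of_eq hr))
          rw [norm_smul, Real.norm_eq_abs, abs_of_pos ht]
          refine mul_le_mul_of_nonneg_left ((norm_add_le _ _).trans ?_) ht.le
          refine add_le_add le_rfl ?_
          rw [norm_smul, Real.norm_eq_abs, abs_of_pos hc.1]
          calc c * ‖e‖ ≤ 1 * ‖e‖ := mul_le_mul_of_nonneg_right hc.2.le (norm_nonneg _)
            _ = ‖e‖ := one_mul _
      _ = (‖w‖ + ‖e‖ + δ) * t := by ring
      _ ≤ C * t := mul_le_mul_of_nonneg_right hC ht.le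
  have h2 : ∫ z in B, σ (p + z) ≤ σ s * (2 * r) ^ d + ∫ z in B, ‖σ (p + z) - σ s‖ := by
    have e2 : σ s * (2 * r) ^ d = ∫ _ in B, σ s := by
      rw [setIntegral_const, hV, smul_eq_mul, mul_comm]
    rw [e2, ← integral_add]
    · refine integral_mono (hσint p B hBfin) ?_ (fun z => ?_)
      · exact (integrableOn_const hBfin).add
          ((hσint p B hBfin).sub (integrableOn_const hBfin)).norm
      · simp only
        have := le_abs_self (σ (p + z) - σ s)
        rw [Real.norm_eq_abs]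
        linarith
    · exact integrableOn_const hBfin
    · exact ((hσint p B hBfin).sub (integrableOn_const hBfin)).norm
  have h3 : ∫ z in B, ‖σ (p + z) - σ s‖ ≤ ∫ y in closedBall s (C * t), ‖σ y - σ s‖ := by
    have hmp := measurePreserving_add_left (volume : Measure (Fin d → ℝ)) p
    have hme : MeasurableEmbedding (fun z : Fin d → ℝ => p + z) :=
      (Homeomorph.addLeft p).measurableEmbedding
    have e3 : ∫ z in B, ‖σ (p + z) - σ s‖ = ∫ y in (fun z => p + z) '' B, ‖σ y - σ s‖ :=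
      (hmp.setIntegral_image_emb hme (fun y => ‖σ y - σ s‖) B).symm
    rw [e3]
    refine setIntegral_mono_set ?_ ?_ ?_
    · have := hσint 0 (closedBall s (C * t)) (isCompact_closedBall s _).measure_lt_top.ne
      simp only [zero_add] at this
      exact (this.sub (integrableOn_const (isCompact_closedBall s _).measure_lt_top.ne)).norm
    · exact ae_of_all _ (fun y => norm_nonneg _)
    · refine LE.le.eventuallyLE ?_
      rintro _ ⟨z, hz, rfl⟩
      exact hsub z hz
  -- bound of the ends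
  have hgl : ∀ q : Fin d → ℝ, ∀ z ∈ B, |g (q + z) - g q| ≤ K * r := by
    intro q z hz
    rw [hB, mem_closedBall, dist_zero_right] at hz
    have := hg.dist_le_mul (q + z) q
    rw [Real.dist_eq, dist_eq_norm, add_sub_cancel_left] at this
    exact this.trans (mul_le_mul_of_nonneg_left hz K.coe_nonneg)
  have hgc : ∀ q : Fin d → ℝ, IntegrableOn (fun z => g (q + z)) B := fun q =>
    (hg.continuous.comp (continuous_const.add continuous_id)).continuousOn.integrableOn_compact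
      (isCompact_closedBall 0 r)
  have h4 : (g (s + t • w) - K * r) * (2 * r) ^ d ≤ udPhi g s w e t r 0 := by
    have e4 : (g (s + t • w) - K * r) * (2 * r) ^ d = ∫ _ in B, (g (s + t • w) - K * r) := by
      rw [setIntegral_const, hV, smul_eq_mul, mul_comm]
    rw [e4]
    unfold udPhi
    refine setIntegral_mono_on (integrableOn_const hBfin) (hgc _) measurableSet_closedBall
      (fun z hz => ?_)
    have := hgl (s + t • (w + (0:ℝ) • e)) z hz
    rw [zero_smul, add_zero] at this ⊢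
    have := neg_le_of_abs_le this
    linarith
  have h5 : udPhi g s w e t r 1 ≤ (g (s + t • (w + e)) + K * r) * (2 * r) ^ d := by
    have e5 : (g (s + t • (w + e)) + K * r) * (2 * r) ^ d =
        ∫ _ in B, (g (s + t • (w + e)) + K * r) := by
      rw [setIntegral_const, hV, smul_eq_mul, mul_comm]
    rw [e5]
    unfold udPhi
    refine setIntegral_mono_on (hgc _) (integrableOn_const hBfin) measurableSet_closedBall
      (fun z hz => ?_)
    have := hgl (s + t • (w + (1:ℝ) • e)) z hz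
    rw [one_smul] at this ⊢
    have := le_of_abs_le this
    linarith
  -- conclusion
  have h6 : udPhi g s w e t r 0 - udPhi g s w e t r 1 ≤
      t * (σ s * (2 * r) ^ d + η * (2 * (C * t)) ^ d) := by
    have : udPhi g s w e t r 0 - udPhi g s w e t r 1 =
        - ∫ z in B, t * fderiv ℝ g (p + z) e := by
      rw [hcs]; ring
    rw [this]
    refine h1.trans (mul_le_mul_of_nonneg_left ?_ ht.le)
    exact h2.trans (add_le_add le_rfl (h3.trans hη))
  have h7 : (2 * (C * t)) ^ d = (C / δ) ^ d * (2 * r) ^ d := by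
    rw [← mul_pow, hr]
    congr 1
    field_simp
  have h8 : (g (s + t • w) - g (s + t • (w + e)) - 2 * K * r) * (2 * r) ^ d ≤
      (t * (σ s + η * (C / δ) ^ d)) * (2 * r) ^ d := by
    rw [h7] at h6
    calc (g (s + t • w) - g (s + t • (w + e)) - 2 * K * r) * (2 * r) ^ d
        = (g (s + t • w) - K * r) * (2 * r) ^ d - (g (s + t • (w + e)) + K * r) * (2 * r) ^ d := by
          ring
      _ ≤ udPhi g s w e t r 0 - udPhi g s w e t r 1 := by linarith
      _ ≤ _ := h6
      _ = _ := by ring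
  have h9 := le_of_mul_le_mul_right h8 hV0
  linarith

theorem uniform_descent {d : ℕ} (h : ℕ → (Fin d → ℝ) → ℝ) (K : ℝ≥0)
    (hh : ∀ i, LipschitzWith K (h i)) (e : Fin d → ℝ) (σ : (Fin d → ℝ) → ℝ)
    (hσm : Measurable σ) (hσb : ∃ C, ∀ x, |σ x| ≤ C)
    (hσ : ∀ i, ∀ᵐ x, - fderiv ℝ (h i) x e ≤ σ x) :
    ∀ᵐ s : Fin d → ℝ, ∀ w : Fin d → ℝ, ∀ ε > (0:ℝ), ∀ᶠ t : ℝ in 𝓝[>] 0, ∀ i,
      h i (s + t • w) - h i (s + t • (w + e)) ≤ t * (σ s + ε) := by
  obtain ⟨Cσ, hCσ⟩ := hσb
  have hloc : LocallyIntegrable σ (volume : Measure (Fin d → ℝ)) := by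
    intro x
    refine ⟨closedBall x 1, closedBall_mem_nhds x one_pos, ?_⟩
    refine Measure.integrableOn_of_bounded (M := Cσ) (isCompact_closedBall x 1).measure_lt_top.ne
      hσm.aestronglyMeasurable (ae_of_all _ (fun z => hCσ _))
  filter_upwards [IsUnifLocDoublingMeasure.ae_tendsto_average_norm_sub volume hloc 1] with s hs w ε hε
  set δ : ℝ := min 1 (ε / (4 * (K + 1))) with hδ
  have hδ0 : 0 < δ := lt_min one_pos (by positivity)
  set C : ℝ := ‖w‖ + ‖e‖ + 1 with hC
  have hC0 : 0 < C := by positivity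
  set η : ℝ := ε / 2 / (C / δ) ^ d with hη
  have hη0 : 0 < η := by positivity
  have h1 : Tendsto (fun t : ℝ => C * t) (𝓝[>] 0) (𝓝[>] 0) := by
    refine tendsto_nhdsWithin_of_tendsto_nhds_of_eventually_within _ ?_ ?_
    · have : Tendsto (fun t : ℝ => C * t) (𝓝 0) (𝓝 (C * 0)) :=
        (continuous_const.mul continuous_id).tendsto 0
      rw [mul_zero] at this
      exact this.mono_left nhdsWithin_le_nhds
    · filter_upwards [self_mem_nhdsWithin] with t ht
      exact mul_pos hC0 ht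
  have h2 := hs (fun _ : ℝ => s) (fun t => C * t) h1 (by
    filter_upwards [self_mem_nhdsWithin] with t ht
    have ht' : (0:ℝ) < t := ht
    rw [mem_closedBall, dist_self]
    positivity)
  have h3 := h2.eventually (gt_mem_nhds hη0)
  filter_upwards [h3, self_mem_nhdsWithin] with t ht3 ht i
  have ht0 : (0:ℝ) < t := ht
  have hCt : 0 < C * t := by positivity
  have h4 : ∫ y in closedBall s (C * t), ‖σ y - σ s‖ ≤ η * (2 * (C * t)) ^ d := by
    rw [setAverage_eq, smul_eq_mul, ud_vol (C * t) hCt.le s] at ht3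
    have hpos : 0 < (2 * (C * t)) ^ d := by positivity
    rw [inv_mul_lt_iff₀ hpos] at ht3
    linarith
  have h5 := ud_step (hh i) s w e σ hσm hCσ (hσ i) ht0 hδ0
    (C := C) (by rw [hC]; linarith [min_le_left 1 (ε / (4 * ((K:ℝ) + 1)))]) h4
  have h6 : η * (C / δ) ^ d = ε / 2 := by
    rw [hη]
    field_simp
  have h7 : 2 * (K:ℝ) * (δ * t) ≤ t * (ε / 2) := by
    have h8 : δ ≤ ε / (4 * (K + 1)) := min_le_right _ _
    have hK : (0:ℝ) ≤ K := K.coe_nonneg
    have h9 : δ * (4 * ((K:ℝ) + 1)) ≤ ε := by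
      rwa [le_div_iff₀ (by positivity)] at h8
    have h10 : 2 * (K:ℝ) * δ ≤ ε / 2 := by nlinarith
    calc 2 * (K:ℝ) * (δ * t) = (2 * (K:ℝ) * δ) * t := by ring
      _ ≤ (ε / 2) * t := mul_le_mul_of_nonneg_right h10 ht0.le
      _ = t * (ε / 2) := mul_comm _ _
  rw [h6] at h5
  calc h i (s + t • w) - h i (s + t • (w + e)) ≤ 2 * K * (δ * t) + t * (σ s + ε / 2) := h5
    _ ≤ t * (ε / 2) + t * (σ s + ε / 2) := by linarith
    _ = t * (σ s + ε) := by ring

end descent

end MP629748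

end part0

section part1

/-!
Strong metric differentiability of Lipschitz maps (helper33).
-/

set_option autoImplicit false

open Set Filter Topology MeasureTheory
open scoped NNReal

namespace MP629748

section strong

variable {X : Type*} [MetricSpace X] {d : ℕ}

theorem lip_distf (f : (Fin d → ℝ) → X) (K : ℝ≥0) (hf : LipschitzWith K f) (y : X) :
    LipschitzWith K (fun x => dist y (f x)) := by
  have := (LipschitzWith.dist_right y).comp hf
  rw [one_mul] at this
  exact this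

theorem abs_fderiv_apply_le {h : (Fin d → ℝ) → ℝ} {K : ℝ≥0} (hh : LipschitzWith K h)
    (s e : Fin d → ℝ) : |fderiv ℝ h s e| ≤ K * ‖e‖ := by
  have h1 : ‖fderiv ℝ h s e‖ ≤ ‖fderiv ℝ h s‖ * ‖e‖ := (fderiv ℝ h s).le_opNorm e
  have h2 : ‖fderiv ℝ h s‖ ≤ K := norm_fderiv_le_of_lipschitz ℝ hh
  rw [← Real.norm_eq_abs]
  exact h1.trans (mul_le_mul_of_nonneg_right h2 (norm_nonneg _))

/-- The supremum of the descents. -/
noncomputable def sdesc (h : ℕ → (Fin d → ℝ) → ℝ) (e s : Fin d → ℝ) : ℝ :=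
  ⨆ i, - fderiv ℝ (h i) s e

theorem sdesc_bdd {h : ℕ → (Fin d → ℝ) → ℝ} {K : ℝ≥0} (hh : ∀ i, LipschitzWith K (h i))
    (e s : Fin d → ℝ) : BddAbove (range fun i => - fderiv ℝ (h i) s e) := by
  refine ⟨K * ‖e‖, ?_⟩
  rintro _ ⟨i, rfl⟩
  have := abs_fderiv_apply_le (hh i) s e
  exact (neg_le_abs _).trans this

theorem le_sdesc {h : ℕ → (Fin d → ℝ) → ℝ} {K : ℝ≥0} (hh : ∀ i, LipschitzWith K (h i))
    (e s : Fin d → ℝ) (i : ℕ) : - fderiv ℝ (h i) s e ≤ sdesc h e s :=
  le_ciSup (sdesc_bdd hh e s) i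

theorem sdesc_abs {h : ℕ → (Fin d → ℝ) → ℝ} {K : ℝ≥0} (hh : ∀ i, LipschitzWith K (h i))
    (e s : Fin d → ℝ) : |sdesc h e s| ≤ K * ‖e‖ := by
  rw [abs_le]
  constructor
  · have h1 := le_sdesc hh e s 0
    have h2 := abs_fderiv_apply_le (hh 0) s e
    have h3 := (abs_le.1 h2).2
    linarith
  · refine ciSup_le fun i => ?_
    exact (neg_le_abs _).trans (abs_fderiv_apply_le (hh i) s e)

theorem sdesc_lip {h : ℕ → (Fin d → ℝ) → ℝ} {K : ℝ≥0} (hh : ∀ i, LipschitzWith K (h i))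
    (e e' s : Fin d → ℝ) : sdesc h e s ≤ sdesc h e' s + K * ‖e - e'‖ := by
  refine ciSup_le fun i => ?_
  have h1 := le_sdesc hh e' s i
  have h2 := abs_fderiv_apply_le (hh i) s (e - e')
  rw [map_sub] at h2
  have h3 := (abs_le.1 h2).1
  linarith

theorem sdesc_measurable (h : ℕ → (Fin d → ℝ) → ℝ) (e : Fin d → ℝ) :
    Measurable (sdesc h e) := by
  unfold sdesc
  exact Measurable.iSup fun i => (measurable_fderiv_apply_const ℝ (h i) e).neg

/-- uniform descent for all directions -/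
theorem uniform_descent_all (h : ℕ → (Fin d → ℝ) → ℝ) (K : ℝ≥0)
    (hh : ∀ i, LipschitzWith K (h i)) :
    ∀ᵐ s : Fin d → ℝ, ∀ e w : Fin d → ℝ, ∀ ε > (0:ℝ), ∀ᶠ t : ℝ in 𝓝[>] 0, ∀ i,
      h i (s + t • w) - h i (s + t • (w + e)) ≤ t * (sdesc h e s + ε) := by
  have h1 : ∀ᵐ s : Fin d → ℝ, ∀ n : ℕ, ∀ w : Fin d → ℝ, ∀ ε > (0:ℝ),
      ∀ᶠ t : ℝ in 𝓝[>] 0, ∀ i,
      h i (s + t • w) - h i (s + t • (w + TopologicalSpace.denseSeq (Fin d → ℝ) n)) ≤
        t * (sdesc h (TopologicalSpace.denseSeq (Fin d → ℝ) n) s + ε) := by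
    rw [ae_all_iff]
    intro n
    refine uniform_descent h K hh _ _ (sdesc_measurable h _) ⟨_, fun x => sdesc_abs hh _ x⟩ ?_
    intro i
    exact Eventually.of_forall fun x => le_sdesc hh _ x i
  filter_upwards [h1] with s hs
  intro e w ε hε
  obtain ⟨n, hn⟩ : ∃ n, dist e (TopologicalSpace.denseSeq (Fin d → ℝ) n) <
      ε / (4 * ((K : ℝ) + 1)) :=
    (TopologicalSpace.denseRange_denseSeq (Fin d → ℝ)).exists_dist_lt e (by positivity)
  set e' := TopologicalSpace.denseSeq (Fin d → ℝ) n with he'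
  have hK : (K : ℝ) * ‖e - e'‖ ≤ ε / 4 := by
    rw [dist_eq_norm] at hn
    have h2 : (K : ℝ) * ‖e - e'‖ ≤ ((K : ℝ) + 1) * (ε / (4 * ((K : ℝ) + 1))) := by
      refine mul_le_mul (by linarith) hn.le (norm_nonneg _) (by positivity)
    have h3 : ((K : ℝ) + 1) * (ε / (4 * ((K : ℝ) + 1))) = ε / 4 := by
      have : (K : ℝ) + 1 ≠ 0 := by positivity
      field_simp
    linarith
  filter_upwards [hs n w (ε / 2) (by linarith), self_mem_nhdsWithin] with t ht ht0 i
  have ht0 : 0 < t := ht0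
  have h2 := ht i
  have h3 : h i (s + t • (w + e')) - h i (s + t • (w + e)) ≤ t * (ε / 4) := by
    have h4 := (hh i).dist_le_mul (s + t • (w + e')) (s + t • (w + e))
    have h5 : dist (s + t • (w + e')) (s + t • (w + e)) = t * ‖e - e'‖ := by
      rw [dist_eq_norm]
      have : s + t • (w + e') - (s + t • (w + e)) = - (t • (e - e')) := by
        simp only [smul_add, smul_sub]; abel
      rw [this, norm_neg, norm_smul, Real.norm_of_nonneg ht0.le]
    rw [h5] at h4
    have h6 := (le_abs_self _).trans (by rwa [Real.dist_eq] at h4)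
    calc h i (s + t • (w + e')) - h i (s + t • (w + e)) ≤ K * (t * ‖e - e'‖) := h6
      _ = t * (K * ‖e - e'‖) := by ring
      _ ≤ t * (ε / 4) := mul_le_mul_of_nonneg_left hK ht0.le
  have h4 : sdesc h e' s ≤ sdesc h e s + ε / 4 := by
    have := sdesc_lip hh e' e s
    rw [norm_sub_rev] at this
    linarith
  calc h i (s + t • w) - h i (s + t • (w + e)) =
      (h i (s + t • w) - h i (s + t • (w + e'))) +
        (h i (s + t • (w + e')) - h i (s + t • (w + e))) := by ring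
    _ ≤ t * (sdesc h e' s + ε / 2) + t * (ε / 4) := add_le_add h2 h3
    _ ≤ t * (sdesc h e s + ε / 4 + ε / 2) + t * (ε / 4) := by
        have := mul_le_mul_of_nonneg_left h4 ht0.le
        nlinarith
    _ = t * (sdesc h e s + ε) := by ring

/-- first order expansion along two rays -/
theorem tendsto_descent {h : (Fin d → ℝ) → ℝ} {s : Fin d → ℝ} (hd : DifferentiableAt ℝ h s)
    (w e : Fin d → ℝ) :
    Tendsto (fun t : ℝ => (h (s + t • w) - h (s + t • (w + e))) / t) (𝓝[>] 0)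
      (𝓝 (- fderiv ℝ h s e)) := by
  have key : ∀ v : Fin d → ℝ, Tendsto (fun t : ℝ => (h (s + t • v) - h s) / t) (𝓝[>] 0)
      (𝓝 (fderiv ℝ h s v)) := by
    intro v
    have h1 := (hd.hasFDerivAt.hasLineDerivAt v)
    have h2 : HasDerivAt (fun t : ℝ => h (s + t • v)) (fderiv ℝ h s v) 0 := h1
    have h3 := h2.tendsto_slope_zero_right
    refine h3.congr ?_
    intro t
    simp only [zero_add, zero_smul, add_zero, smul_eq_mul]
    rw [inv_mul_eq_div]
  have h1 := (key w).sub (key (w + e))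
  have h2 : fderiv ℝ h s w - fderiv ℝ h s (w + e) = - fderiv ℝ h s e := by
    rw [map_add]; ring
  rw [h2] at h1
  refine h1.congr ?_
  intro t
  ring

end strong

theorem strong_md {X : Type*} [MetricSpace X] {d : ℕ} (f : (Fin d → ℝ) → X) (K : ℝ≥0)
    (hf : LipschitzWith K f) (r : ℝ) (hr : 0 < r) :
    ∀ᵐ s : Fin d → ℝ, ∃ ρ : (Fin d → ℝ) → ℝ,
      (∀ w e : Fin d → ℝ, Tendsto (fun t : ℝ => dist (f (s + t • (w + e))) (f (s + t • w)) / t)
        (𝓝[>] 0) (𝓝 (ρ e))) ∧
      ∀ e : Fin d → ℝ, ∀ η > (0:ℝ), ∃ y : Fin d → ℝ, dist (f y) (f s) < r ∧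
        DifferentiableAt ℝ (fun x => dist (f y) (f x)) s ∧
        ρ e - η < - fderiv ℝ (fun x => dist (f y) (f x)) s e := by
  classical
  obtain ⟨δ₀, hδ₀, hδr⟩ : ∃ δ₀ > (0:ℝ), (K : ℝ) * (2 * δ₀) < r := by
    refine ⟨r / (4 * ((K : ℝ) + 1)), by positivity, ?_⟩
    have h1 : (K : ℝ) * (2 * (r / (4 * ((K : ℝ) + 1)))) = r / 2 * (K / (K + 1)) := by
      have : (K : ℝ) + 1 ≠ 0 := by positivity
      field_simp
      ring
    have h2 : (K : ℝ) / (K + 1) ≤ 1 := by
      rw [div_le_one (by positivity)]; linarith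
    rw [h1]
    nlinarith
  -- dense sequence in the ball around the `n`-th point of the dense sequence
  let Q : ℕ → (Fin d → ℝ) := TopologicalSpace.denseSeq (Fin d → ℝ)
  let y : ℕ → ℕ → (Fin d → ℝ) := fun n i => if Q i ∈ Metric.ball (Q n) δ₀ then Q i else Q n
  let h : ℕ → ℕ → (Fin d → ℝ) → ℝ := fun n i x => dist (f (y n i)) (f x)
  have hh : ∀ n i, LipschitzWith K (h n i) := fun n i => lip_distf f K hf _
  have hyball : ∀ n i, y n i ∈ Metric.ball (Q n) δ₀ := by
    intro n i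
    simp only [y]
    split_ifs with h1
    · exact h1
    · exact Metric.mem_ball_self hδ₀
  have hydense : ∀ n, ∀ x ∈ Metric.ball (Q n) δ₀, ∀ ε > 0, ∃ i, dist x (y n i) < ε := by
    intro n x hx ε hε
    have hopen : IsOpen (Metric.ball (Q n) δ₀ ∩ Metric.ball x ε) :=
      Metric.isOpen_ball.inter Metric.isOpen_ball
    obtain ⟨z, hz, i, hi⟩ := (TopologicalSpace.denseRange_denseSeq (Fin d → ℝ)).inter_open_nonempty
      _ hopen ⟨x, hx, Metric.mem_ball_self hε⟩
    refine ⟨i, ?_⟩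
    have hQi : Q i = z := hi
    have : y n i = z := by
      simp only [y]
      rw [if_pos (by rw [hQi]; exact hz.1), hQi]
    rw [this, dist_comm]
    exact hz.2
  have hae1 : ∀ᵐ s : Fin d → ℝ, ∀ n, ∀ e w : Fin d → ℝ, ∀ ε > (0:ℝ), ∀ᶠ t : ℝ in 𝓝[>] 0, ∀ i,
      h n i (s + t • w) - h n i (s + t • (w + e)) ≤ t * (sdesc (h n) e s + ε) := by
    rw [ae_all_iff]
    intro n
    exact uniform_descent_all (h n) K (hh n)
  have hae2 : ∀ᵐ s : Fin d → ℝ, ∀ n, ∀ i, DifferentiableAt ℝ (h n i) s := by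
    rw [ae_all_iff]
    intro n
    rw [ae_all_iff]
    intro i
    exact (hh n i).ae_differentiableAt
  filter_upwards [hae1, hae2] with s hs1 hs2
  obtain ⟨n, hn⟩ : ∃ n, dist s (Q n) < δ₀ :=
    (TopologicalSpace.denseRange_denseSeq (Fin d → ℝ)).exists_dist_lt s hδ₀
  refine ⟨fun e => sdesc (h n) e s, ?_, ?_⟩
  · intro w e
    rw [Metric.tendsto_nhds]
    intro ε hε
    -- upper bound
    have hup := hs1 n e w (ε / 2) (by linarith)
    -- membership in the ball
    have hmem : ∀ᶠ t : ℝ in 𝓝[>] 0, s + t • (w + e) ∈ Metric.ball (Q n) δ₀ := by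
      have hc : Tendsto (fun t : ℝ => s + t • (w + e)) (𝓝[>] 0) (𝓝 (s + (0:ℝ) • (w + e))) := by
        refine Tendsto.mono_left ?_ nhdsWithin_le_nhds
        exact (continuous_const.add (continuous_id.smul continuous_const)).tendsto 0
      rw [zero_smul, add_zero] at hc
      exact hc.eventually (Metric.isOpen_ball.mem_nhds hn)
    -- lower bound
    obtain ⟨i, hi⟩ : ∃ i, sdesc (h n) e s - ε / 2 < - fderiv ℝ (h n i) s e := by
      apply exists_lt_of_lt_ciSup
      exact sub_lt_self _ (by linarith)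
    have hlow : ∀ᶠ t : ℝ in 𝓝[>] 0, sdesc (h n) e s - ε / 2 <
        (h n i (s + t • w) - h n i (s + t • (w + e))) / t :=
      (tendsto_descent (hs2 n i) w e).eventually (lt_mem_nhds hi)
    filter_upwards [hup, hmem, hlow, self_mem_nhdsWithin] with t h1 h2 h3 ht0
    have ht0 : 0 < t := ht0
    have hU : dist (f (s + t • (w + e))) (f (s + t • w)) ≤ t * (sdesc (h n) e s + ε / 2) := by
      refine le_of_forall_pos_le_add fun δ hδ => ?_
      obtain ⟨j, hj⟩ := hydense n _ h2 (δ / (2 * ((K : ℝ) + 1))) (by positivity)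
      have h4 := h1 j
      have h5 : dist (f (s + t • (w + e))) (f (y n j)) ≤ δ / 2 := by
        have h6 := hf.dist_le_mul (s + t • (w + e)) (y n j)
        have h7 : (K : ℝ) * dist (s + t • (w + e)) (y n j) ≤
            ((K : ℝ) + 1) * (δ / (2 * ((K : ℝ) + 1))) :=
          mul_le_mul (by linarith) hj.le dist_nonneg (by positivity)
        have h8 : ((K : ℝ) + 1) * (δ / (2 * ((K : ℝ) + 1))) = δ / 2 := by
          have : (K : ℝ) + 1 ≠ 0 := by positivity
          field_simp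
        linarith
      have h6 : h n j (s + t • w) = dist (f (y n j)) (f (s + t • w)) := rfl
      have h7 : h n j (s + t • (w + e)) = dist (f (y n j)) (f (s + t • (w + e))) := rfl
      rw [h6, h7] at h4
      have h8 := dist_triangle (f (s + t • (w + e))) (f (y n j)) (f (s + t • w))
      have h9 : dist (f (y n j)) (f (s + t • (w + e))) ≤ δ / 2 := by rw [dist_comm]; exact h5
      linarith
    have hL : (h n i (s + t • w) - h n i (s + t • (w + e))) / t ≤
        dist (f (s + t • (w + e))) (f (s + t • w)) / t := by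
      refine div_le_div_of_nonneg_right ?_ ht0.le
      have h6 : h n i (s + t • w) = dist (f (y n i)) (f (s + t • w)) := rfl
      have h7 : h n i (s + t • (w + e)) = dist (f (y n i)) (f (s + t • (w + e))) := rfl
      rw [h6, h7]
      have h8 := dist_triangle (f (y n i)) (f (s + t • (w + e))) (f (s + t • w))
      linarith
    have hU' : dist (f (s + t • (w + e))) (f (s + t • w)) / t ≤ sdesc (h n) e s + ε / 2 := by
      rw [div_le_iff₀ ht0]
      linarith [mul_comm t (sdesc (h n) e s + ε / 2)]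
    rw [Real.dist_eq, abs_lt]
    constructor
    · linarith
    · linarith
  · intro e η hη
    obtain ⟨i, hi⟩ : ∃ i, sdesc (h n) e s - η < - fderiv ℝ (h n i) s e := by
      apply exists_lt_of_lt_ciSup
      exact sub_lt_self _ hη
    refine ⟨y n i, ?_, hs2 n i, hi⟩
    have h1 := hf.dist_le_mul (y n i) s
    have h2 : dist (y n i) s ≤ 2 * δ₀ := by
      have h3 := dist_triangle (y n i) (Q n) s
      have h4 : dist (y n i) (Q n) < δ₀ := hyball n i
      rw [dist_comm (Q n) s] at h3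
      linarith
    have h3 : (K : ℝ) * dist (y n i) s ≤ K * (2 * δ₀) :=
      mul_le_mul_of_nonneg_left h2 K.2
    linarith

end MP629748

end part1

section part2

/-!
P14-R3: a seminorm with the parallelogram inequality is Euclidean on a complement of its kernel.
-/

set_option autoImplicit false

namespace MP629748

theorem par_eq_of_par_le {V : Type*} [AddCommGroup V] [Module ℝ V]
    (ρ : Seminorm ℝ V) (hpar : ∀ u w, ρ (u + w) ^ 2 + ρ (u - w) ^ 2 ≤ 2 * ρ u ^ 2 + 2 * ρ w ^ 2)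
    (u w : V) : ρ (u + w) ^ 2 + ρ (u - w) ^ 2 = 2 * ρ u ^ 2 + 2 * ρ w ^ 2 := by
  refine le_antisymm (hpar u w) ?_
  have h := hpar (u + w) (u - w)
  have h1 : u + w + (u - w) = (2:ℝ) • u := by rw [two_smul]; abel
  have h2 : u + w - (u - w) = (2:ℝ) • w := by rw [two_smul]; abel
  rw [h1, h2, map_smul_eq_mul, map_smul_eq_mul] at h
  norm_num at h
  nlinarith [h]

theorem exists_euclid_iso {W : Type*} [AddCommGroup W] [Module ℝ W] [FiniteDimensional ℝ W]
    (ρ : Seminorm ℝ W) (h0 : ∀ v, ρ v = 0 → v = 0)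
    (hpar : ∀ u w, ρ (u + w) ^ 2 + ρ (u - w) ^ 2 = 2 * ρ u ^ 2 + 2 * ρ w ^ 2) {n : ℕ}
    (hn : Module.finrank ℝ W = n) :
    ∃ A : EuclideanSpace ℝ (Fin n) →ₗ[ℝ] W, ∀ v, ρ (A v) = ‖v‖ := by
  let _ : NormedAddCommGroup W := AddGroupNorm.toNormedAddCommGroup
    { toFun := ρ, map_zero' := map_zero ρ, add_le' := map_add_le_add ρ,
      neg' := map_neg_eq_map ρ, eq_zero_of_map_eq_zero' := h0 }
  let _ : NormedSpace ℝ W := { norm_smul_le := fun a b => (map_smul_eq_mul ρ a b).le }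
  let _ : InnerProductSpace ℝ W := InnerProductSpace.ofNorm ℝ (fun u w => by
    have h := hpar u w
    show ρ (u + w) * ρ (u + w) + ρ (u - w) * ρ (u - w) = 2 * (ρ u * ρ u + ρ w * ρ w)
    linarith)
  let b := (stdOrthonormalBasis ℝ W).reindex (finCongr hn)
  exact ⟨b.repr.symm.toLinearEquiv.toLinearMap, fun v => b.repr.symm.norm_map v⟩

theorem exists_euclid_section {V : Type*} [AddCommGroup V] [Module ℝ V] [FiniteDimensional ℝ V]
    (ρ : Seminorm ℝ V) (hpar : ∀ u w, ρ (u + w) ^ 2 + ρ (u - w) ^ 2 ≤ 2 * ρ u ^ 2 + 2 * ρ w ^ 2) :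
    ∃ (L : Submodule ℝ V) (A : EuclideanSpace ℝ (Fin (Module.finrank ℝ (V ⧸ L))) →ₗ[ℝ] V),
      (∀ v, v ∈ L ↔ ρ v = 0) ∧ ∀ v, ρ (A v) = ‖v‖ := by
  let L : Submodule ℝ V :=
    { carrier := {v | ρ v = 0}
      add_mem' := by
        intro a b ha hb
        have ha : ρ a = 0 := ha
        have hb : ρ b = 0 := hb
        have h1 := map_add_le_add ρ a b
        have h2 := apply_nonneg ρ (a + b)
        show ρ (a + b) = 0
        linarith
      zero_mem' := map_zero ρ
      smul_mem' := by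
        intro c v hv
        have hv : ρ v = 0 := hv
        show ρ (c • v) = 0
        rw [map_smul_eq_mul, hv, mul_zero] }
  obtain ⟨W, hW⟩ := Submodule.exists_isCompl L
  obtain ⟨A, hA⟩ := exists_euclid_iso (ρ.comp W.subtype) (by
      intro v hv
      have h1 : (v : V) ∈ L ⊓ W := ⟨hv, v.2⟩
      rw [hW.inf_eq_bot] at h1
      exact Subtype.ext h1) (fun u w => par_eq_of_par_le ρ hpar u w)
    (Submodule.quotientEquivOfIsCompl L W hW).finrank_eq.symm
  exact ⟨L, W.subtype.comp A, fun v => Iff.rfl, fun v => hA v⟩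

end MP629748

end part2

section part3

open Set Filter Topology MeasureTheory
open scoped NNReal

namespace MP629748

theorem cng_comp_slope {φ : ℝ → ℝ} {φ' x0 : ℝ} (hφ : HasDerivAt φ φ' x0) {u : ℝ → ℝ} {u' : ℝ}
    (hu : Tendsto (fun t => (u t - x0) / t) (𝓝[>] 0) (𝓝 u')) :
    Tendsto (fun t => (φ (u t) - φ x0) / t) (𝓝[>] 0) (𝓝 (u' * φ')) := by
  have h0 : Tendsto (fun t : ℝ => t) (𝓝[>] 0) (𝓝 0) := nhdsWithin_le_nhds
  have hux : Tendsto u (𝓝[>] 0) (𝓝 x0) := by
    have h1 := (hu.mul h0).add_const x0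
    rw [mul_zero, zero_add] at h1
    refine h1.congr' ?_
    filter_upwards [self_mem_nhdsWithin] with t ht
    have ht : (0:ℝ) < t := ht
    field_simp
    ring
  have hd : Tendsto (fun t => dslope φ x0 (u t)) (𝓝[>] 0) (𝓝 φ') := by
    have h2 : ContinuousAt (dslope φ x0) x0 := continuousAt_dslope_same.2 hφ.differentiableAt
    have h3 := h2.tendsto.comp hux
    rw [dslope_same, hφ.deriv] at h3
    exact h3
  refine (hu.mul hd).congr fun t => ?_
  have h4 := sub_smul_dslope φ x0 (u t)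
  rw [smul_eq_mul] at h4
  rw [← h4]
  ring

theorem cng_sq_limit {D b' : ℝ} {A B : ℝ → ℝ} (ha : Tendsto (fun t : ℝ => A t / t) (𝓝[>] 0) (𝓝 1))
    (hb : Tendsto (fun t : ℝ => (B t - D) / t) (𝓝[>] 0) (𝓝 b')) :
    Tendsto (fun t : ℝ => ((D - t) * A t ^ 2 + t * B t ^ 2 - t * (D - t) * D) / t ^ 2) (𝓝[>] 0)
      (𝓝 (2 * D * (1 + b'))) := by
  have h0 : Tendsto (fun t : ℝ => t) (𝓝[>] 0) (𝓝 0) := nhdsWithin_le_nhds
  have h1 : Tendsto (fun t : ℝ => (B t ^ 2 - D ^ 2) / t) (𝓝[>] 0) (𝓝 (b' * (2 * D))) := by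
    have := cng_comp_slope (φ := fun x => x ^ 2) (by simpa using hasDerivAt_pow 2 D) hb
    exact this
  have h2 : Tendsto (fun t : ℝ => (D - t) * (A t / t) ^ 2 + (B t ^ 2 - D ^ 2) / t + D) (𝓝[>] 0)
      (𝓝 ((D - 0) * 1 ^ 2 + b' * (2 * D) + D)) :=
    (((tendsto_const_nhds.sub h0).mul (ha.pow 2)).add h1).add tendsto_const_nhds
  have h3 : (D - 0) * 1 ^ 2 + b' * (2 * D) + D = 2 * D * (1 + b') := by ring
  rw [h3] at h2
  refine h2.congr' ?_
  filter_upwards [self_mem_nhdsWithin] with t ht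
  have ht : (0:ℝ) < t := ht
  field_simp
  ring

theorem cng_cos_limit {D b' k : ℝ} {A B : ℝ → ℝ}
    (ha : Tendsto (fun t : ℝ => A t / t) (𝓝[>] 0) (𝓝 1))
    (hb : Tendsto (fun t : ℝ => (B t - D) / t) (𝓝[>] 0) (𝓝 b')) :
    Tendsto (fun t : ℝ => (Real.sin (k * D) - Real.sin (k * (D - t)) * Real.cos (k * A t) -
      Real.sin (k * t) * Real.cos (k * B t)) / t ^ 2) (𝓝[>] 0)
      (𝓝 (k ^ 2 * Real.sin (k * D) * (1 + b'))) := by
  have h0 : Tendsto (fun t : ℝ => t) (𝓝[>] 0) (𝓝 0) := nhdsWithin_le_nhds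
  have hid : Tendsto (fun t : ℝ => (t - 0) / t) (𝓝[>] 0) (𝓝 1) := by
    refine tendsto_const_nhds.congr' ?_
    filter_upwards [self_mem_nhdsWithin] with t ht
    have ht : (0:ℝ) < t := ht
    field_simp
    ring
  have hsin : ∀ a : ℝ, HasDerivAt (fun x => Real.sin (a * x)) a 0 := by
    intro a
    have h := ((hasDerivAt_id (0:ℝ)).const_mul a).sin
    simpa using h
  have h1 : Tendsto (fun t : ℝ => Real.sin (k / 2 * t) / t) (𝓝[>] 0) (𝓝 (k / 2)) := by
    have := cng_comp_slope (hsin (k / 2)) hid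
    simpa using this
  have h2 : Tendsto (fun t : ℝ => Real.sin (k / 2 * A t) / t) (𝓝[>] 0) (𝓝 (k / 2)) := by
    have := cng_comp_slope (hsin (k / 2)) (u := A) (by simpa using ha)
    simpa using this
  have h3 : Tendsto (fun t : ℝ => Real.sin (k * t) / t) (𝓝[>] 0) (𝓝 k) := by
    have := cng_comp_slope (hsin k) hid
    simpa using this
  have h4 : Tendsto (fun t : ℝ => (Real.cos (k * B t) - Real.cos (k * D)) / t) (𝓝[>] 0)
      (𝓝 (b' * (-(Real.sin (k * D)) * k))) := by
    have hcos : HasDerivAt (fun x => Real.cos (k * x)) (-(Real.sin (k * D)) * k) D := by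
      have h := ((hasDerivAt_id D).const_mul k).cos
      simpa using h
    exact cng_comp_slope hcos hb
  have h5 : Tendsto (fun t : ℝ => Real.sin (k * (D - t))) (𝓝[>] 0) (𝓝 (Real.sin (k * (D - 0)))) :=
    (Real.continuous_sin.tendsto _).comp ((tendsto_const_nhds.sub h0).const_mul k)
  have h6 := (((h1.pow 2).const_mul (2 * Real.sin (k * D))).add
    ((h5.mul (h2.pow 2)).const_mul 2)).sub (h3.mul h4)
  have h7 : 2 * Real.sin (k * D) * (k / 2) ^ 2 + 2 * (Real.sin (k * (D - 0)) * (k / 2) ^ 2) -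
      k * (b' * (-(Real.sin (k * D)) * k)) = k ^ 2 * Real.sin (k * D) * (1 + b') := by
    rw [sub_zero]; ring
  rw [h7] at h6
  refine h6.congr' ?_
  filter_upwards [self_mem_nhdsWithin] with t ht
  have ht : (0:ℝ) < t := ht
  have e1 : ∀ x : ℝ, Real.cos (k * x) = 1 - 2 * Real.sin (k / 2 * x) ^ 2 := by
    intro x
    have := Real.cos_two_mul (k / 2 * x)
    have h8 := Real.sin_sq_add_cos_sq (k / 2 * x)
    have h9 : k * x = 2 * (k / 2 * x) := by ring
    rw [h9, this]
    nlinarith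
  have e2 : Real.sin (k * (D - t)) = Real.sin (k * D) * Real.cos (k * t) -
      Real.cos (k * D) * Real.sin (k * t) := by rw [mul_sub, Real.sin_sub]
  have e3 : Real.sin (k * D) - Real.sin (k * (D - t)) * Real.cos (k * A t) -
      Real.sin (k * t) * Real.cos (k * B t) = 2 * Real.sin (k * D) * Real.sin (k / 2 * t) ^ 2 +
      2 * (Real.sin (k * (D - t)) * Real.sin (k / 2 * A t) ^ 2) -
      Real.sin (k * t) * (Real.cos (k * B t) - Real.cos (k * D)) := by
    rw [e1 (A t)]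
    have e4 : Real.cos (k * t) = 1 - 2 * Real.sin (k / 2 * t) ^ 2 := e1 t
    rw [e4] at e2
    linear_combination (-1 : ℝ) * e2
  rw [e3]
  field_simp

theorem cng_cosh_limit {D b' k : ℝ} {A B : ℝ → ℝ}
    (ha : Tendsto (fun t : ℝ => A t / t) (𝓝[>] 0) (𝓝 1))
    (hb : Tendsto (fun t : ℝ => (B t - D) / t) (𝓝[>] 0) (𝓝 b')) :
    Tendsto (fun t : ℝ => (Real.sinh (k * (D - t)) * Real.cosh (k * A t) +
      Real.sinh (k * t) * Real.cosh (k * B t) - Real.sinh (k * D)) / t ^ 2) (𝓝[>] 0)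
      (𝓝 (k ^ 2 * Real.sinh (k * D) * (1 + b'))) := by
  have h0 : Tendsto (fun t : ℝ => t) (𝓝[>] 0) (𝓝 0) := nhdsWithin_le_nhds
  have hid : Tendsto (fun t : ℝ => (t - 0) / t) (𝓝[>] 0) (𝓝 1) := by
    refine tendsto_const_nhds.congr' ?_
    filter_upwards [self_mem_nhdsWithin] with t ht
    have ht : (0:ℝ) < t := ht
    field_simp
    ring
  have hsin : ∀ a : ℝ, HasDerivAt (fun x => Real.sinh (a * x)) a 0 := by
    intro a
    have h := ((hasDerivAt_id (0:ℝ)).const_mul a).sinh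
    simpa using h
  have h1 : Tendsto (fun t : ℝ => Real.sinh (k / 2 * t) / t) (𝓝[>] 0) (𝓝 (k / 2)) := by
    have := cng_comp_slope (hsin (k / 2)) hid
    simpa using this
  have h2 : Tendsto (fun t : ℝ => Real.sinh (k / 2 * A t) / t) (𝓝[>] 0) (𝓝 (k / 2)) := by
    have := cng_comp_slope (hsin (k / 2)) (u := A) (by simpa using ha)
    simpa using this
  have h3 : Tendsto (fun t : ℝ => Real.sinh (k * t) / t) (𝓝[>] 0) (𝓝 k) := by
    have := cng_comp_slope (hsin k) hid
    simpa using this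
  have h4 : Tendsto (fun t : ℝ => (Real.cosh (k * B t) - Real.cosh (k * D)) / t) (𝓝[>] 0)
      (𝓝 (b' * (Real.sinh (k * D) * k))) := by
    have hcos : HasDerivAt (fun x => Real.cosh (k * x)) (Real.sinh (k * D) * k) D := by
      have h := ((hasDerivAt_id D).const_mul k).cosh
      simpa using h
    exact cng_comp_slope hcos hb
  have h5 : Tendsto (fun t : ℝ => Real.sinh (k * (D - t))) (𝓝[>] 0)
      (𝓝 (Real.sinh (k * (D - 0)))) :=
    (Real.continuous_sinh.tendsto _).comp ((tendsto_const_nhds.sub h0).const_mul k)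
  have h6 := (((h1.pow 2).const_mul (2 * Real.sinh (k * D))).add
    ((h5.mul (h2.pow 2)).const_mul 2)).add (h3.mul h4)
  have h7 : 2 * Real.sinh (k * D) * (k / 2) ^ 2 + 2 * (Real.sinh (k * (D - 0)) * (k / 2) ^ 2) +
      k * (b' * (Real.sinh (k * D) * k)) = k ^ 2 * Real.sinh (k * D) * (1 + b') := by
    rw [sub_zero]; ring
  rw [h7] at h6
  refine h6.congr' ?_
  filter_upwards [self_mem_nhdsWithin] with t ht
  have ht : (0:ℝ) < t := ht
  have e1 : ∀ x : ℝ, Real.cosh (k * x) = 1 + 2 * Real.sinh (k / 2 * x) ^ 2 := by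
    intro x
    have := Real.cosh_two_mul (k / 2 * x)
    have h8 := Real.cosh_sq (k / 2 * x)
    have h9 : k * x = 2 * (k / 2 * x) := by ring
    rw [h9, this]
    nlinarith
  have e2 : Real.sinh (k * (D - t)) = Real.sinh (k * D) * Real.cosh (k * t) -
      Real.cosh (k * D) * Real.sinh (k * t) := by rw [mul_sub, Real.sinh_sub]
  have e3 : Real.sinh (k * (D - t)) * Real.cosh (k * A t) +
      Real.sinh (k * t) * Real.cosh (k * B t) - Real.sinh (k * D) =
      2 * Real.sinh (k * D) * Real.sinh (k / 2 * t) ^ 2 +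
      2 * (Real.sinh (k * (D - t)) * Real.sinh (k / 2 * A t) ^ 2) +
      Real.sinh (k * t) * (Real.cosh (k * B t) - Real.cosh (k * D)) := by
    rw [e1 (A t)]
    have e4 : Real.cosh (k * t) = 1 + 2 * Real.sinh (k / 2 * t) ^ 2 := e1 t
    rw [e4] at e2
    linear_combination e2
  rw [e3]
  field_simp

theorem cng_one_sub_cos {x : ℝ} (hx0 : 0 ≤ x) (hx : x ≤ Real.pi) :
    x ^ 2 ≤ 5 * (1 - Real.cos x) - (1 / 100) * (1 - Real.cos x) := by
  have h1 := Real.mul_le_sin (x := x / 2) (by linarith) (by linarith)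
  have h2 : Real.cos x = 1 - 2 * Real.sin (x / 2) ^ 2 := by
    have := Real.cos_two_mul (x / 2)
    have h8 := Real.sin_sq_add_cos_sq (x / 2)
    have h9 : 2 * (x / 2) = x := by ring
    rw [h9] at this
    linarith
  have hpi := Real.pi_pos
  have h3 : x ≤ Real.pi * Real.sin (x / 2) := by
    have : 2 / Real.pi * (x / 2) * Real.pi = x := by field_simp
    nlinarith
  have hpi2 : Real.pi ^ 2 ≤ 9.97 := by
    have := Real.pi_lt_d2
    nlinarith
  have hs0 : 0 ≤ Real.sin (x / 2) := Real.sin_nonneg_of_nonneg_of_le_pi (by linarith) (by linarith)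
  have h4 : x ^ 2 ≤ Real.pi ^ 2 * Real.sin (x / 2) ^ 2 := by
    have := mul_self_le_mul_self hx0 h3
    nlinarith
  rw [h2]
  nlinarith [mul_le_mul_of_nonneg_right hpi2 (sq_nonneg (Real.sin (x / 2)))]

/-- The general limit argument. -/
theorem cng_final {η b' C : ℝ} {d F : ℝ → ℝ} (hη : 0 < η) (hb' : b' ≤ -(1 - η)) (hC : 0 < C)
    (hC5 : C ≤ 4.99)
    (hF : Tendsto F (𝓝[>] 0) (𝓝 (1 + b')))
    (hd : ∀ᶠ t : ℝ in 𝓝[>] 0, d t ^ 2 ≤ C * (F t * t ^ 2)) :
    ∀ᶠ t : ℝ in 𝓝[>] 0, d t ^ 2 ≤ 5 * η * t ^ 2 := by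
  have h1 : ∀ᶠ t : ℝ in 𝓝[>] 0, F t < η * (5 / C) := by
    apply (tendsto_order.1 hF).2
    have : 1 < 5 / C := by rw [lt_div_iff₀ hC]; linarith
    nlinarith
  filter_upwards [h1, hd] with t h2 h3
  have h4 : C * F t ≤ 5 * η := by
    have := mul_le_mul_of_nonneg_left h2.le hC.le
    have h5 : C * (η * (5 / C)) = 5 * η := by field_simp
    linarith
  nlinarith [sq_nonneg t]

theorem curve_near_geodesic {κ : ℝ} {X : Type*} [MetricSpace X] (h : IsCAT κ X) {p q : X}
    {γ : ℝ → X} (hγ : IsGeodFromTo γ p q) (hD : 0 < dist p q)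
    (hDs : 0 < κ → dist p q < Real.pi / (2 * √κ)) {c : ℝ → X}
    (ha : Tendsto (fun t : ℝ => dist p (c t) / t) (𝓝[>] 0) (𝓝 1)) {b' η : ℝ} (hη : 0 < η)
    (hb : Tendsto (fun t : ℝ => (dist q (c t) - dist p q) / t) (𝓝[>] 0) (𝓝 b'))
    (hb' : b' ≤ -(1 - η)) :
    ∀ᶠ t : ℝ in 𝓝[>] 0, dist (γ t) (c t) ^ 2 ≤ 5 * η * t ^ 2 := by
  set D := dist p q with hDdef
  have h0 : Tendsto (fun t : ℝ => t) (𝓝[>] 0) (𝓝 0) := nhdsWithin_le_nhds
  have hIcc : ∀ᶠ t : ℝ in 𝓝[>] 0, t ∈ Icc (0:ℝ) D := by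
    have : Ioc (0:ℝ) D ∈ 𝓝[>] (0:ℝ) := Ioc_mem_nhdsGT hD
    filter_upwards [this] with t ht
    exact ⟨ht.1.le, ht.2⟩
  have hA0 : Tendsto (fun t : ℝ => dist p (c t)) (𝓝[>] 0) (𝓝 0) := by
    have h1 := ha.mul h0
    rw [mul_zero] at h1
    refine h1.congr' ?_
    filter_upwards [self_mem_nhdsWithin] with t ht
    have ht : (0:ℝ) < t := ht
    field_simp
  have hB0 : Tendsto (fun t : ℝ => dist q (c t)) (𝓝[>] 0) (𝓝 D) := by
    have h1 := (hb.mul h0).add_const D
    rw [mul_zero, zero_add] at h1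
    refine h1.congr' ?_
    filter_upwards [self_mem_nhdsWithin] with t ht
    have ht : (0:ℝ) < t := ht
    field_simp
    ring
  rcases lt_trichotomy κ 0 with hκ | hκ | hκ
  · -- negative curvature
    set k := √(-κ) with hk
    have hk0 : 0 < k := Real.sqrt_pos.2 (by linarith)
    have hs : 0 < Real.sinh (k * D) := Real.sinh_pos_iff.2 (by positivity)
    have hlim := (cng_cosh_limit (k := k) ha hb).div_const (k ^ 2 * Real.sinh (k * D))
    have e : k ^ 2 * Real.sinh (k * D) * (1 + b') / (k ^ 2 * Real.sinh (k * D)) = 1 + b' := by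
      field_simp
    rw [e] at hlim
    refine cng_final (C := 2) (d := fun t => dist (γ t) (c t)) hη hb' (by norm_num)
      (by norm_num) hlim ?_
    filter_upwards [hIcc, self_mem_nhdsWithin] with t ht ht0
    have ht0 : (0:ℝ) < t := ht0
    have h1 := stewart_neg hκ h hγ (z := c t) ht
    rw [← hDdef, ← hk] at h1
    have h2 : 1 + (k * dist (γ t) (c t)) ^ 2 / 2 ≤ Real.cosh (k * dist (γ t) (c t)) := by
      have hx : 0 ≤ k * dist (γ t) (c t) / 2 := by positivity
      have h8 := Real.self_le_sinh_iff.2 hx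
      have h9 := Real.cosh_two_mul (k * dist (γ t) (c t) / 2)
      have h10 := Real.cosh_sq (k * dist (γ t) (c t) / 2)
      have h11 : 2 * (k * dist (γ t) (c t) / 2) = k * dist (γ t) (c t) := by ring
      rw [h11] at h9
      nlinarith
    have h3 := mul_le_mul_of_nonneg_left h2 hs.le
    have h5 : k ^ 2 * Real.sinh (k * D) * dist (γ t) (c t) ^ 2 ≤
        2 * (Real.sinh (k * (D - t)) * Real.cosh (k * dist p (c t)) +
          Real.sinh (k * t) * Real.cosh (k * dist q (c t)) - Real.sinh (k * D)) := by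
      nlinarith
    have h6 : 2 * ((Real.sinh (k * (D - t)) * Real.cosh (k * dist p (c t)) +
          Real.sinh (k * t) * Real.cosh (k * dist q (c t)) - Real.sinh (k * D)) / t ^ 2 /
          (k ^ 2 * Real.sinh (k * D)) * t ^ 2) =
        2 * (Real.sinh (k * (D - t)) * Real.cosh (k * dist p (c t)) +
          Real.sinh (k * t) * Real.cosh (k * dist q (c t)) - Real.sinh (k * D)) /
          (k ^ 2 * Real.sinh (k * D)) := by
      field_simp
    rw [h6, le_div_iff₀ (by positivity)]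
    linarith
  · -- zero curvature
    subst hκ
    have hlim := (cng_sq_limit ha hb).div_const (2 * D)
    have e : 2 * D * (1 + b') / (2 * D) = 1 + b' := by field_simp
    rw [e] at hlim
    refine cng_final (C := 2) (d := fun t => dist (γ t) (c t)) hη hb' (by norm_num)
      (by norm_num) hlim ?_
    filter_upwards [hIcc, self_mem_nhdsWithin] with t ht ht0
    have ht0 : (0:ℝ) < t := ht0
    have h1 := stewart_zero h hγ (z := c t) ht
    rw [← hDdef] at h1
    have h6 : 2 * (((D - t) * dist p (c t) ^ 2 + t * dist q (c t) ^ 2 - t * (D - t) * D) / t ^ 2 /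
        (2 * D) * t ^ 2) =
        ((D - t) * dist p (c t) ^ 2 + t * dist q (c t) ^ 2 - t * (D - t) * D) / D := by
      field_simp
    rw [h6, le_div_iff₀ hD]
    linarith
  · -- positive curvature
    set k := √κ with hk
    have hk0 : 0 < k := Real.sqrt_pos.2 hκ
    have hDs' := hDs hκ
    have hkD : k * D < Real.pi / 2 := by
      rw [lt_div_iff₀ (by positivity)] at hDs'
      linarith
    have hkD0 : 0 < k * D := by positivity
    have hs : 0 < Real.sin (k * D) :=
      Real.sin_pos_of_pos_of_lt_pi hkD0 (by linarith [Real.pi_pos])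
    have hlim := (cng_cos_limit (k := k) ha hb).div_const (k ^ 2 * Real.sin (k * D))
    have e : k ^ 2 * Real.sin (k * D) * (1 + b') / (k ^ 2 * Real.sin (k * D)) = 1 + b' := by
      field_simp
    rw [e] at hlim
    refine cng_final (C := 4.99) (d := fun t => dist (γ t) (c t)) hη hb' (by norm_num)
      (by norm_num) hlim ?_
    have hpk : D < Real.pi / k := by
      rw [lt_div_iff₀ hk0]
      linarith [Real.pi_pos, mul_comm D k]
    have hsmall : ∀ᶠ t : ℝ in 𝓝[>] 0, (D + dist q (c t) + dist p (c t)) / 2 < Real.pi / k := by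
      have h1 : Tendsto (fun t : ℝ => (D + dist q (c t) + dist p (c t)) / 2) (𝓝[>] 0)
          (𝓝 ((D + D + 0) / 2)) := ((tendsto_const_nhds.add hB0).add hA0).div_const 2
      apply (tendsto_order.1 h1).2
      linarith
    have hd0 : ∀ᶠ t : ℝ in 𝓝[>] 0, k * dist (γ t) (c t) ≤ Real.pi := by
      have h1 : Tendsto (fun t : ℝ => t + dist p (c t)) (𝓝[>] 0) (𝓝 (0 + 0)) := h0.add hA0
      have h2 : ∀ᶠ t : ℝ in 𝓝[>] 0, t + dist p (c t) < Real.pi / k := by
        apply (tendsto_order.1 h1).2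
        have := Real.pi_pos
        rw [add_zero]
        positivity
      filter_upwards [h2, hIcc] with t ht htI
      have h3 := dist_triangle (γ t) p (c t)
      rw [hγ.dist_left htI] at h3
      rw [lt_div_iff₀ hk0] at ht
      nlinarith
    filter_upwards [hIcc, self_mem_nhdsWithin, hsmall, hd0] with t ht ht0 hsm hd1
    have ht0 : (0:ℝ) < t := ht0
    have h1 := stewart_pos hκ h hγ (z := c t) hsm ht
    rw [← hDdef, ← hk] at h1
    have h2 := cng_one_sub_cos (x := k * dist (γ t) (c t)) (by positivity) hd1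
    have h3 := mul_le_mul_of_nonneg_left h2 hs.le
    have h5 : k ^ 2 * Real.sin (k * D) * dist (γ t) (c t) ^ 2 ≤
        4.99 * (Real.sin (k * D) - Real.sin (k * (D - t)) * Real.cos (k * dist p (c t)) -
          Real.sin (k * t) * Real.cos (k * dist q (c t))) := by
      nlinarith
    have h6 : 4.99 * ((Real.sin (k * D) - Real.sin (k * (D - t)) * Real.cos (k * dist p (c t)) -
          Real.sin (k * t) * Real.cos (k * dist q (c t))) / t ^ 2 /
          (k ^ 2 * Real.sin (k * D)) * t ^ 2) =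
        4.99 * (Real.sin (k * D) - Real.sin (k * (D - t)) * Real.cos (k * dist p (c t)) -
          Real.sin (k * t) * Real.cos (k * dist q (c t))) /
          (k ^ 2 * Real.sin (k * D)) := by
      field_simp
    rw [h6, le_div_iff₀ (by positivity)]
    linarith

end MP629748

end part3

section part4

/-!
R5 (helper28): cone embedding from a Euclidean family of curves.
-/

set_option autoImplicit false

open Set Filter Topology MeasureTheory
open scoped NNReal

namespace MP629748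

/-- the Euclidean cosine of the comparison angle -/
noncomputable def r5x (a b c : ℝ) : ℝ := (a ^ 2 + b ^ 2 - c ^ 2) / (2 * a * b)

theorem r5x_comm (a b c : ℝ) : r5x a b c = r5x b a c := by
  unfold r5x
  congr 1 <;> ring

theorem r5x_diag {t d : ℝ} (ht : 0 < t) : r5x t t d = 1 - (d / t) ^ 2 / 2 := by
  unfold r5x
  field_simp
  ring

theorem r5_le_cos_germAngle {X : Type*} [MetricSpace X] {p : X} (g g' : Germ p) {M : ℝ}
    (hM : M ≤ 1)
    (h : ∀ᶠ q : ℝ × ℝ in 𝓝[>] (0:ℝ) ×ˢ 𝓝[>] (0:ℝ),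
      M ≤ r5x q.1 q.2 (dist (g.toFun q.1) (g'.toFun q.2))) : M ≤ Real.cos (germAngle g g') := by
  rcases lt_or_ge M (-1) with h1 | h1
  · exact h1.le.trans (Real.neg_one_le_cos _)
  have h2 : germAngle g g' ≤ Real.arccos M := by
    refine limsup_le_of_le (compAngle_bdd_below g g').isCoboundedUnder_le ?_
    filter_upwards [h] with q hq
    exact Real.antitone_arccos hq
  calc M = Real.cos (Real.arccos M) := (Real.cos_arccos h1 hM).symm
    _ ≤ Real.cos (germAngle g g') :=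
      Real.cos_le_cos_of_nonneg_of_le_pi (germAngle_nonneg _ _) (Real.arccos_le_pi _) h2

theorem r5_cos_germAngle_le {X : Type*} [MetricSpace X] {p : X} (g g' : Germ p) {M : ℝ}
    (hM : -1 ≤ M)
    (h : ∃ᶠ q : ℝ × ℝ in 𝓝[>] (0:ℝ) ×ˢ 𝓝[>] (0:ℝ),
      r5x q.1 q.2 (dist (g.toFun q.1) (g'.toFun q.2)) ≤ M) : Real.cos (germAngle g g') ≤ M := by
  rcases lt_or_ge 1 M with h1 | h1
  · exact (Real.cos_le_one _).trans h1.le
  have h2 : Real.arccos M ≤ germAngle g g' := by
    refine le_limsup_of_frequently_le ?_ (compAngle_bdd_above g g')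
    refine h.mono ?_
    intro q hq
    exact Real.antitone_arccos hq
  calc Real.cos (germAngle g g') ≤ Real.cos (Real.arccos M) :=
      Real.cos_le_cos_of_nonneg_of_le_pi (Real.arccos_nonneg _) (germAngle_le_pi _ _) h2
    _ = M := Real.cos_arccos hM h1

/-- almost monotonicity of the comparison angle -/
theorem r5_mono {X : Type*} [MetricSpace X] {κ : ℝ} (h : IsCAT κ X) {c : ℝ} (hc0 : 0 ≤ c)
    (hc : c < 1) : ∃ r₀ > (0:ℝ), ∀ (p : X) (g g' : Germ p) (a b : ℝ), 0 < a → a ≤ b →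
      b ≤ r₀ → b ≤ g.len → b ≤ g'.len →
      r5x b b (dist (g.toFun b) (g'.toFun b)) - (1 - c) / 2 ≤
        r5x a b (dist (g.toFun a) (g'.toFun b)) := by
  obtain ⟨r₀, hr₀, H⟩ := cn_small h hc0 hc
  refine ⟨r₀ / 2, by positivity, ?_⟩
  intro p g g' a b ha hab hb hbg hbg'
  have hb0 : 0 < b := ha.trans_le hab
  have d1 : dist p (g.toFun b) = b := by
    have := g.geod 0 ⟨le_rfl, g.len_pos.le⟩ b ⟨hb0.le, hbg⟩
    rw [g.base] at this
    rw [this, zero_sub, abs_neg, abs_of_pos hb0]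
  have d2 : dist p (g'.toFun b) = b := by
    have := g'.geod 0 ⟨le_rfl, g'.len_pos.le⟩ b ⟨hb0.le, hbg'⟩
    rw [g'.base] at this
    rw [this, zero_sub, abs_neg, abs_of_pos hb0]
  have d3 : dist (g.toFun b) (g'.toFun b) ≤ 2 * b := by
    calc dist (g.toFun b) (g'.toFun b) ≤ dist (g.toFun b) p + dist p (g'.toFun b) :=
        dist_triangle _ _ _
      _ = 2 * b := by rw [dist_comm, d1, d2]; ring
  have hgeo : IsGeodFromTo g.toFun p (g.toFun b) := by
    refine ⟨g.base, by rw [d1], ?_⟩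
    rw [d1]
    intro s hs t ht
    exact g.geod s ⟨hs.1, hs.2.trans hbg⟩ t ⟨ht.1, ht.2.trans hbg⟩
  have key := H p (g.toFun b) (g'.toFun b) g.toFun hgeo (by rw [d1]; linarith)
    (by rw [d2]; linarith) (by linarith) a (by rw [d1]; exact ⟨ha.le, hab⟩)
  rw [d1, d2] at key
  set D := dist (g.toFun b) (g'.toFun b) with hD
  set d := dist (g.toFun a) (g'.toFun b) with hd
  rw [r5x_diag hb0]
  unfold r5x
  rw [le_div_iff₀ (by positivity)]
  have e1 : (1 - (D / b) ^ 2 / 2 - (1 - c) / 2) * (2 * a * b) * b =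
      (1 + c) * a * b ^ 2 - a * D ^ 2 := by
    field_simp
    ring
  have e2 : (1 - (D / b) ^ 2 / 2 - (1 - c) / 2) * (2 * a * b) * b ≤
      (a ^ 2 + b ^ 2 - d ^ 2) * b := by
    rw [e1]
    nlinarith [mul_nonneg (sub_nonneg.2 hc.le) (mul_nonneg (sq_nonneg a) hb0.le)]
  exact le_of_mul_le_mul_right e2 hb0

theorem r5_cos_near {X : Type*} [MetricSpace X] {κ : ℝ} (h : IsCAT κ X) {p : X} (g g' : Germ p)
    (F G : ℝ → X) {l ε ε' : ℝ} (hl0 : 0 ≤ l) (hl2 : l ≤ 2)
    (hl : Tendsto (fun t : ℝ => dist (F t) (G t) / t) (𝓝[>] 0) (𝓝 l))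
    (hg : ∀ᶠ t : ℝ in 𝓝[>] 0, dist (g.toFun t) (F t) ≤ ε * t)
    (hg' : ∀ᶠ t : ℝ in 𝓝[>] 0, dist (g'.toFun t) (G t) ≤ ε' * t) :
    |Real.cos (germAngle g g') - (1 - l ^ 2 / 2)| ≤ 2 * (ε + ε') := by
  -- ε, ε' ≥ 0
  have hpos : ∀ᶠ t : ℝ in 𝓝[>] 0, (0:ℝ) < t := self_mem_nhdsWithin
  have hε : 0 ≤ ε := by
    obtain ⟨t, ht, ht0⟩ := (hg.and hpos).exists
    by_contra hcon
    push Not at hcon
    have := dist_nonneg.trans ht
    nlinarith
  have hε' : 0 ≤ ε' := by
    obtain ⟨t, ht, ht0⟩ := (hg'.and hpos).exists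
    by_contra hcon
    push Not at hcon
    have := dist_nonneg.trans ht
    nlinarith
  have main : ∀ δ > (0:ℝ), |Real.cos (germAngle g g') - (1 - l ^ 2 / 2)| ≤
      2 * (ε + ε') + δ := by
    intro δ hδ
    set c : ℝ := 1 - min δ 1 with hcdef
    have hmin : 0 < min δ 1 := lt_min hδ one_pos
    have hc0 : 0 ≤ c := by rw [hcdef]; linarith [min_le_right δ 1]
    have hc1 : c < 1 := by rw [hcdef]; linarith
    have hcδ : (1 - c) / 2 ≤ δ / 2 := by rw [hcdef]; linarith [min_le_left δ 1]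
    obtain ⟨r₀, hr₀, hmono⟩ := r5_mono h hc0 hc1
    have hclose : ∀ᶠ t : ℝ in 𝓝[>] 0, |dist (F t) (G t) / t - l| < δ / 4 := by
      have := hl (Metric.ball_mem_nhds l (show 0 < δ / 4 by positivity))
      filter_upwards [this] with t ht
      simpa [Real.dist_eq] using ht
    have hsmall : ∀ᶠ t : ℝ in 𝓝[>] 0, t ∈ Ioo 0 (min r₀ (min g.len g'.len)) :=
      Ioo_mem_nhdsGT (lt_min hr₀ (lt_min g.len_pos g'.len_pos))
    have hall : ∀ᶠ t : ℝ in 𝓝[>] 0, t ∈ Ioo 0 (min r₀ (min g.len g'.len)) ∧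
        |r5x t t (dist (g.toFun t) (g'.toFun t)) - (1 - l ^ 2 / 2)| ≤
          2 * (ε + ε') + δ / 2 := by
      filter_upwards [hclose, hsmall, hg, hg'] with t h1 h2 h3 h4
      refine ⟨h2, ?_⟩
      have ht0 : 0 < t := h2.1
      have htg : t ≤ g.len := h2.2.le.trans ((min_le_right _ _).trans (min_le_left _ _))
      have htg' : t ≤ g'.len := h2.2.le.trans ((min_le_right _ _).trans (min_le_right _ _))
      have d1 : dist p (g.toFun t) = t := by
        have := g.geod 0 ⟨le_rfl, g.len_pos.le⟩ t ⟨ht0.le, htg⟩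
        rw [g.base] at this
        rw [this, zero_sub, abs_neg, abs_of_pos ht0]
      have d2 : dist p (g'.toFun t) = t := by
        have := g'.geod 0 ⟨le_rfl, g'.len_pos.le⟩ t ⟨ht0.le, htg'⟩
        rw [g'.base] at this
        rw [this, zero_sub, abs_neg, abs_of_pos ht0]
      set d := dist (g.toFun t) (g'.toFun t) with hd
      have d3 : d ≤ 2 * t := by
        calc d ≤ dist (g.toFun t) p + dist p (g'.toFun t) := dist_triangle _ _ _
          _ = 2 * t := by rw [dist_comm, d1, d2]; ring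
      have hd0 : 0 ≤ d := dist_nonneg
      have e1 : |d - dist (F t) (G t)| ≤ (ε + ε') * t := by
        rw [abs_le]
        constructor
        · have := dist_triangle4 (F t) (g.toFun t) (g'.toFun t) (G t)
          rw [dist_comm (F t) (g.toFun t)] at this
          linarith
        · have := dist_triangle4 (g.toFun t) (F t) (G t) (g'.toFun t)
          rw [dist_comm (G t) (g'.toFun t)] at this
          linarith
      have e2 : |d / t - dist (F t) (G t) / t| ≤ ε + ε' := by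
        rw [← sub_div, abs_div, abs_of_pos ht0, div_le_iff₀ ht0]
        exact e1
      have e3 : |d / t - l| ≤ ε + ε' + δ / 4 := by
        calc |d / t - l| ≤ |d / t - dist (F t) (G t) / t| + |dist (F t) (G t) / t - l| :=
            abs_sub_le _ _ _
          _ ≤ ε + ε' + δ / 4 := add_le_add e2 h1.le
      have e4 : 0 ≤ d / t := div_nonneg hd0 ht0.le
      have e5 : d / t ≤ 2 := by rw [div_le_iff₀ ht0]; exact d3
      rw [r5x_diag ht0]
      have e6 : 1 - (d / t) ^ 2 / 2 - (1 - l ^ 2 / 2) = -((d / t - l) * (d / t + l) / 2) := by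
        ring
      rw [e6, abs_neg, abs_div, abs_mul, abs_of_pos (show (0:ℝ) < 2 by norm_num),
        div_le_iff₀ (by norm_num), abs_of_nonneg (show 0 ≤ d / t + l by linarith)]
      have := mul_le_mul e3 (show d / t + l ≤ 4 by linarith) (by linarith) (by linarith)
      linarith
    obtain ⟨T, hT0, hT⟩ := mem_nhdsGT_iff_exists_Ioo_subset.1 hall
    have hT0' : (0:ℝ) < T := hT0
    have hTs : ∀ᶠ t : ℝ in 𝓝[>] 0, t ∈ Ioo 0 T := Ioo_mem_nhdsGT hT0'
    have hlower : 1 - l ^ 2 / 2 - (2 * (ε + ε') + δ) ≤ Real.cos (germAngle g g') := by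
      apply r5_le_cos_germAngle
      · nlinarith [sq_nonneg l]
      · filter_upwards [hTs.prod_mk hTs] with q hq
        obtain ⟨hq1, hq2⟩ := hq
        rcases le_total q.1 q.2 with hle | hle
        · have hb := hT hq2
          obtain ⟨⟨hb0, hb1⟩, hb2⟩ := hb
          have := hmono p g g' q.1 q.2 hq1.1 hle (hb1.le.trans (min_le_left _ _))
            (hb1.le.trans ((min_le_right _ _).trans (min_le_left _ _)))
            (hb1.le.trans ((min_le_right _ _).trans (min_le_right _ _)))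
          have h5 := (abs_le.1 hb2).1
          linarith
        · have hb := hT hq1
          obtain ⟨⟨hb0, hb1⟩, hb2⟩ := hb
          have := hmono p g' g q.2 q.1 hq2.1 hle (hb1.le.trans (min_le_left _ _))
            (hb1.le.trans ((min_le_right _ _).trans (min_le_right _ _)))
            (hb1.le.trans ((min_le_right _ _).trans (min_le_left _ _)))
          rw [r5x_comm q.2 q.1, dist_comm (g'.toFun q.2), dist_comm (g'.toFun q.1)] at this
          have h5 := (abs_le.1 hb2).1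
          linarith
    have hupper : Real.cos (germAngle g g') ≤ 1 - l ^ 2 / 2 + (2 * (ε + ε') + δ) := by
      apply r5_cos_germAngle_le
      · nlinarith
      · have hdiag : Tendsto (fun t : ℝ => (t, t)) (𝓝[>] (0:ℝ)) (𝓝[>] (0:ℝ) ×ˢ 𝓝[>] (0:ℝ)) :=
          tendsto_id.prodMk tendsto_id
        refine hdiag.frequently (Eventually.frequently ?_)
        filter_upwards [hTs] with t ht
        have := (abs_le.1 (hT ht).2).2
        linarith
    rw [abs_le]
    constructor <;> linarith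
  exact le_of_forall_pos_le_add main

theorem r5_norm_sub_le_two {E : Type*} [NormedAddCommGroup E] {v v' : E} (hv : ‖v‖ = 1)
    (hv' : ‖v'‖ = 1) : ‖v - v'‖ ≤ 2 := by
  have := norm_sub_le v v'
  rw [hv, hv'] at this
  linarith

theorem r5_inner_eq {r : ℕ} {v v' : EuclideanSpace ℝ (Fin r)} (hv : ‖v‖ = 1)
    (hv' : ‖v'‖ = 1) : 1 - ‖v - v'‖ ^ 2 / 2 = inner ℝ v v' := by
  have := norm_sub_sq_real v v'
  rw [hv, hv'] at this
  linarith

/-- choice of approximating germs and their limit direction -/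
theorem r5_exists_dir {X : Type*} [MetricSpace X] {κ : ℝ} (h : IsCAT κ X) {p : X}
    {r : ℕ} (F : EuclideanSpace ℝ (Fin r) → ℝ → X)
    (hFd : ∀ v v', Tendsto (fun t : ℝ => dist (F v t) (F v' t) / t) (𝓝[>] 0) (𝓝 ‖v - v'‖))
    (hg : ∀ v, ‖v‖ = 1 → ∀ ε > (0:ℝ), ∃ g : Germ p,
      ∀ᶠ t : ℝ in 𝓝[>] 0, dist (g.toFun t) (F v t) ≤ ε * t) :
    ∃ ξ : {v : EuclideanSpace ℝ (Fin r) // ‖v‖ = 1} → Directions p, ∀ v v',
      Real.cos (dist (ξ v) (ξ v')) = inner ℝ v.1 v'.1 := by
  have hu : ∀ n : ℕ, (0:ℝ) < 1 / ((n:ℝ) + 1) := fun n => by positivity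
  -- the sequence
  have hex : ∀ v : {v : EuclideanSpace ℝ (Fin r) // ‖v‖ = 1}, ∃ g : ℕ → Germ p, ∀ n,
      ∀ᶠ t : ℝ in 𝓝[>] 0, dist ((g n).toFun t) (F v t) ≤ (1 / ((n:ℝ) + 1)) * t := by
    intro v
    exact ⟨fun n => (hg v v.2 _ (hu n)).choose, fun n => (hg v v.2 _ (hu n)).choose_spec⟩
  choose g hgs using hex
  have hnear : ∀ (v v' : {v : EuclideanSpace ℝ (Fin r) // ‖v‖ = 1}) (n m : ℕ),
      |Real.cos (dist (g v n) (g v' m)) - inner ℝ v.1 v'.1| ≤
        2 * (1 / ((n:ℝ) + 1) + 1 / ((m:ℝ) + 1)) := by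
    intro v v' n m
    have := r5_cos_near h (g v n) (g v' m) (F v) (F v') (norm_nonneg (v.1 - v'.1))
      (r5_norm_sub_le_two v.2 v'.2) (hFd v v') (hgs v n) (hgs v' m)
    rw [r5_inner_eq v.2 v'.2] at this
    exact this
  have hlim0 : Tendsto (fun n : ℕ => 1 / ((n:ℝ) + 1)) atTop (𝓝 0) :=
    tendsto_one_div_add_atTop_nhds_zero_nat
  have hcauchy : ∀ v : {v : EuclideanSpace ℝ (Fin r) // ‖v‖ = 1},
      CauchySeq (fun n => ((g v n : Germ p) : Directions p)) := by
    intro v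
    refine cauchySeq_of_le_tendsto_0 (fun N => Real.arccos (1 - 4 * (1 / ((N:ℝ) + 1)))) ?_ ?_
    · intro n m N hn hm
      rw [UniformSpace.Completion.dist_eq]
      have h1 := (abs_le.1 (hnear v v n m)).1
      rw [real_inner_self_eq_norm_sq, v.2] at h1
      have hn' : 1 / ((n:ℝ) + 1) ≤ 1 / ((N:ℝ) + 1) :=
        one_div_le_one_div_of_le (by positivity) (by exact_mod_cast Nat.succ_le_succ hn)
      have hm' : 1 / ((m:ℝ) + 1) ≤ 1 / ((N:ℝ) + 1) :=
        one_div_le_one_div_of_le (by positivity) (by exact_mod_cast Nat.succ_le_succ hm)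
      have h2 : 1 - 4 * (1 / ((N:ℝ) + 1)) ≤ Real.cos (dist (g v n) (g v m)) := by
        linarith
      have h3 : dist (g v n) (g v m) = Real.arccos (Real.cos (dist (g v n) (g v m))) :=
        (Real.arccos_cos dist_nonneg (germAngle_le_pi _ _)).symm
      rw [h3]
      exact Real.antitone_arccos h2
    · have h4 : Tendsto (fun N : ℕ => 1 - 4 * (1 / ((N:ℝ) + 1))) atTop (𝓝 (1 - 4 * 0)) :=
        (hlim0.const_mul 4).const_sub 1
      have h5 := (Real.continuous_arccos.tendsto _).comp h4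
      simpa [Function.comp_def] using h5
  have hlim : ∀ v : {v : EuclideanSpace ℝ (Fin r) // ‖v‖ = 1}, ∃ ξ : Directions p,
      Tendsto (fun n => ((g v n : Germ p) : Directions p)) atTop (𝓝 ξ) := fun v =>
    cauchySeq_tendsto_of_complete (hcauchy v)
  choose ξ hξ using hlim
  refine ⟨ξ, fun v v' => ?_⟩
  have h1 : Tendsto (fun n => Real.cos (dist ((g v n : Germ p) : Directions p) (g v' n))) atTop
      (𝓝 (Real.cos (dist (ξ v) (ξ v')))) :=
    (Real.continuous_cos.tendsto _).comp ((hξ v).dist (hξ v'))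
  have h2 : Tendsto (fun n => Real.cos (dist ((g v n : Germ p) : Directions p) (g v' n))) atTop
      (𝓝 (inner ℝ v.1 v'.1)) := by
    rw [tendsto_iff_dist_tendsto_zero]
    have h3 : Tendsto (fun n : ℕ => 2 * (1 / ((n:ℝ) + 1) + 1 / ((n:ℝ) + 1))) atTop
        (𝓝 (2 * (0 + 0))) := (hlim0.add hlim0).const_mul 2
    rw [show (2:ℝ) * (0 + 0) = 0 by ring] at h3
    refine squeeze_zero (fun _ => dist_nonneg) (fun n => ?_) h3
    rw [UniformSpace.Completion.dist_eq, Real.dist_eq]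
    exact hnear v v' n n
  exact tendsto_nhds_unique h1 h2

theorem r5_unit {r : ℕ} {u : EuclideanSpace ℝ (Fin r)} (hu : u ≠ 0) : ‖‖u‖⁻¹ • u‖ = 1 := by
  rw [norm_smul, norm_inv, norm_norm, inv_mul_cancel₀ (norm_ne_zero_iff.2 hu)]

theorem hasConeEmb_of_curves {κ : ℝ} {X : Type*} [MetricSpace X] (h : IsCAT κ X) {p : X}
    {r : ℕ} (F : EuclideanSpace ℝ (Fin r) → ℝ → X)
    (hFd : ∀ v v', Tendsto (fun t : ℝ => dist (F v t) (F v' t) / t) (𝓝[>] 0) (𝓝 ‖v - v'‖))
    (hg : ∀ v, ‖v‖ = 1 → ∀ ε > (0:ℝ), ∃ g : Germ p,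
      ∀ᶠ t : ℝ in 𝓝[>] 0, dist (g.toFun t) (F v t) ≤ ε * t) : HasConeEmb r p := by
  classical
  obtain ⟨ξ, hξ⟩ := r5_exists_dir h F hFd hg
  refine ⟨fun u => if hu : u = 0 then TCone.apex else
    TCone.pt ‖u‖ (norm_pos_iff.2 hu) (ξ ⟨‖u‖⁻¹ • u, r5_unit hu⟩), ?_, ?_, ?_⟩
  · intro u v
    by_cases hu : u = 0
    · by_cases hv : v = 0
      · subst hu hv
        simp [TCone.cdist]
      · subst hu
        simp [TCone.cdist, hv]
    · by_cases hv : v = 0
      · subst hv
        simp [TCone.cdist, hu]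
      · simp only [hu, hv, dite_false, TCone.cdist]
        rw [hξ, real_inner_smul_left, real_inner_smul_right, dist_eq_norm]
        have hu' : ‖u‖ ≠ 0 := norm_ne_zero_iff.2 hu
        have hv' : ‖v‖ ≠ 0 := norm_ne_zero_iff.2 hv
        have e1 : ‖u‖ ^ 2 + ‖v‖ ^ 2 - 2 * ‖u‖ * ‖v‖ * (‖u‖⁻¹ * (‖v‖⁻¹ * inner ℝ u v)) =
            ‖u - v‖ ^ 2 := by
          rw [norm_sub_sq_real]
          field_simp
          ring
        rw [e1, Real.sqrt_sq (norm_nonneg _)]
  · simp
  · intro r hr u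
    by_cases hu : u = 0
    · subst hu
      simp [TCone.mul]
    · have hru : r • u ≠ 0 := smul_ne_zero hr.ne' hu
      simp only [hu, hru, dite_false, TCone.mul]
      have e1 : ‖r • u‖ = r * ‖u‖ := by rw [norm_smul, Real.norm_of_nonneg hr.le]
      have e2 : ‖r • u‖⁻¹ • (r • u) = ‖u‖⁻¹ • u := by
        rw [e1, smul_smul]
        congr 1
        have hu' : ‖u‖ ≠ 0 := norm_ne_zero_iff.2 hu
        field_simp
      congr 1
      congr 1
      exact Subtype.ext e2

end MP629748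

end part4

section part5

/-! P14-R6a: the metric derivative is a Euclidean seminorm. -/

set_option autoImplicit false

open Set Filter Topology MeasureTheory
open scoped NNReal

namespace MP629748

theorem cn_quad {κ : ℝ} {X : Type*} [MetricSpace X] (h : IsCAT κ X) {c : ℝ} (hc0 : 0 ≤ c)
    (hc : c < 1) : ∃ r₀ > (0:ℝ), ∀ P Q Z₁ Z₂ : X, dist P Q ≤ r₀ → dist P Z₁ ≤ r₀ →
      dist Q Z₁ ≤ r₀ → dist P Z₂ ≤ r₀ → dist Q Z₂ ≤ r₀ →
      dist Z₁ Z₂ ^ 2 + c * dist P Q ^ 2 ≤
        dist P Z₁ ^ 2 + dist Q Z₁ ^ 2 + dist P Z₂ ^ 2 + dist Q Z₂ ^ 2 := by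
  obtain ⟨r₁, hr₁, hcn⟩ := cn_small h hc0 hc
  obtain ⟨r₂, hr₂, hgeo⟩ : ∃ r₂ > (0:ℝ), ∀ x y : X, dist x y ≤ r₂ →
      ∃ γ : ℝ → X, IsGeodFromTo γ x y := by
    rcases le_or_gt κ 0 with hκ | hκ
    · exact ⟨1, one_pos, fun x y _ => h.geod x y (Or.inl hκ)⟩
    · have hs : 0 < √κ := Real.sqrt_pos.2 hκ
      refine ⟨Real.pi / (2 * √κ), by positivity, fun x y hxy => h.geod x y (Or.inr ?_)⟩
      refine hxy.trans_lt ?_
      have := Real.pi_pos
      refine div_lt_div_of_pos_left this hs ?_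
      linarith
  refine ⟨min r₁ r₂, lt_min hr₁ hr₂, fun P Q Z₁ Z₂ h1 h2 h3 h4 h5 => ?_⟩
  have e1 := le_min_iff.1 h1
  have e2 := le_min_iff.1 h2
  have e3 := le_min_iff.1 h3
  have e4 := le_min_iff.1 h4
  have e5 := le_min_iff.1 h5
  obtain ⟨γ, hγ⟩ := hgeo P Q e1.2
  have hD : 0 ≤ dist P Q := dist_nonneg
  have hτ : dist P Q / 2 ∈ Icc (0:ℝ) (dist P Q) := ⟨by linarith, by linarith⟩
  rcases hD.eq_or_lt with hD0 | hD0
  · have hPQ : P = Q := dist_eq_zero.1 hD0.symm
    subst hPQ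
    rw [dist_self]
    have ht : dist Z₁ Z₂ ≤ dist P Z₁ + dist P Z₂ := dist_triangle_left _ _ _
    have hz : 0 ≤ dist Z₁ Z₂ := dist_nonneg
    have hsq : dist Z₁ Z₂ ^ 2 ≤ (dist P Z₁ + dist P Z₂) ^ 2 := pow_le_pow_left₀ hz ht 2
    nlinarith [sq_nonneg (dist P Z₁ - dist P Z₂)]
  · have k1 := hcn P Q Z₁ γ hγ e1.1 e2.1 e3.1 _ hτ
    have k2 := hcn P Q Z₂ γ hγ e1.1 e4.1 e5.1 _ hτ
    set D := dist P Q with hDdef
    set m := γ (D / 2) with hm
    have k1' : dist m Z₁ ^ 2 ≤ dist P Z₁ ^ 2 / 2 + dist Q Z₁ ^ 2 / 2 - c / 4 * D ^ 2 := by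
      refine le_of_mul_le_mul_left ?_ hD0
      refine k1.trans (le_of_eq ?_)
      ring
    have k2' : dist m Z₂ ^ 2 ≤ dist P Z₂ ^ 2 / 2 + dist Q Z₂ ^ 2 / 2 - c / 4 * D ^ 2 := by
      refine le_of_mul_le_mul_left ?_ hD0
      refine k2.trans (le_of_eq ?_)
      ring
    have ht : dist Z₁ Z₂ ≤ dist m Z₁ + dist m Z₂ := dist_triangle_left _ _ _
    have hz : 0 ≤ dist Z₁ Z₂ := dist_nonneg
    have hsq : dist Z₁ Z₂ ^ 2 ≤ (dist m Z₁ + dist m Z₂) ^ 2 := pow_le_pow_left₀ hz ht 2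
    nlinarith [sq_nonneg (dist m Z₁ - dist m Z₂)]

section md

variable {X : Type*} [MetricSpace X] {d : ℕ} {f : (Fin d → ℝ) → X} {s : Fin d → ℝ}
  {ρ : (Fin d → ℝ) → ℝ}

theorem md_tendsto
    (hρ : ∀ w e : Fin d → ℝ, Tendsto (fun t : ℝ => dist (f (s + t • (w + e))) (f (s + t • w)) / t)
        (𝓝[>] 0) (𝓝 (ρ e))) (a b : Fin d → ℝ) :
    Tendsto (fun t : ℝ => dist (f (s + t • a)) (f (s + t • b)) / t) (𝓝[>] 0) (𝓝 (ρ (a - b))) := by
  have := hρ b (a - b)
  rwa [add_sub_cancel] at this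

theorem md_nonneg
    (hρ : ∀ w e : Fin d → ℝ, Tendsto (fun t : ℝ => dist (f (s + t • (w + e))) (f (s + t • w)) / t)
        (𝓝[>] 0) (𝓝 (ρ e))) (e : Fin d → ℝ) : 0 ≤ ρ e := by
  refine ge_of_tendsto (hρ 0 e) ?_
  filter_upwards [self_mem_nhdsWithin] with t ht
  exact div_nonneg dist_nonneg (le_of_lt ht)

theorem md_add_le
    (hρ : ∀ w e : Fin d → ℝ, Tendsto (fun t : ℝ => dist (f (s + t • (w + e))) (f (s + t • w)) / t)
        (𝓝[>] 0) (𝓝 (ρ e))) (u w : Fin d → ℝ) : ρ (u + w) ≤ ρ u + ρ w := by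
  have h1 := md_tendsto hρ (u + w) 0
  have h2 := md_tendsto hρ (u + w) w
  have h3 := md_tendsto hρ w 0
  rw [sub_zero] at h1 h3
  rw [add_sub_cancel_right] at h2
  refine le_of_tendsto_of_tendsto h1 (h2.add h3) ?_
  filter_upwards [self_mem_nhdsWithin] with t ht
  rw [← add_div]
  exact div_le_div_of_nonneg_right (dist_triangle _ _ _) (le_of_lt ht)

theorem md_neg
    (hρ : ∀ w e : Fin d → ℝ, Tendsto (fun t : ℝ => dist (f (s + t • (w + e))) (f (s + t • w)) / t)
        (𝓝[>] 0) (𝓝 (ρ e))) (u : Fin d → ℝ) : ρ (-u) = ρ u := by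
  have h1 := md_tendsto hρ 0 u
  have h2 := md_tendsto hρ u 0
  rw [zero_sub] at h1
  rw [sub_zero] at h2
  refine tendsto_nhds_unique h1 (h2.congr fun t => ?_)
  rw [dist_comm]

theorem md_smul_pos
    (hρ : ∀ w e : Fin d → ℝ, Tendsto (fun t : ℝ => dist (f (s + t • (w + e))) (f (s + t • w)) / t)
        (𝓝[>] 0) (𝓝 (ρ e))) {c : ℝ} (hc : 0 < c) (u : Fin d → ℝ) : ρ (c • u) = c * ρ u := by
  have h1 := md_tendsto hρ (c • u) 0
  have h2 := md_tendsto hρ u 0
  rw [sub_zero] at h1 h2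
  have hct : Tendsto (fun t : ℝ => c * t) (𝓝[>] 0) (𝓝[>] 0) := by
    refine tendsto_nhdsWithin_iff.2 ⟨?_, ?_⟩
    · have : Tendsto (fun t : ℝ => c * t) (𝓝 0) (𝓝 (c * 0)) := tendsto_id.const_mul c
      rw [mul_zero] at this
      exact this.mono_left nhdsWithin_le_nhds
    · filter_upwards [self_mem_nhdsWithin] with t ht
      exact mul_pos hc ht
  have h3 := (h2.comp hct).const_mul c
  refine tendsto_nhds_unique h1 (h3.congr' ?_)
  filter_upwards [self_mem_nhdsWithin] with t ht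
  have ht' : t ≠ 0 := ne_of_gt ht
  simp only [Function.comp, smul_zero, add_zero]
  rw [smul_smul, mul_comm t c]
  field_simp

theorem md_zero
    (hρ : ∀ w e : Fin d → ℝ, Tendsto (fun t : ℝ => dist (f (s + t • (w + e))) (f (s + t • w)) / t)
        (𝓝[>] 0) (𝓝 (ρ e))) : ρ 0 = 0 := by
  have h1 := md_tendsto hρ 0 0
  rw [sub_zero] at h1
  refine tendsto_nhds_unique h1 ?_
  simp

end md

theorem md_parallelogram {κ : ℝ} {X : Type*} [MetricSpace X] (h : IsCAT κ X) {d : ℕ}
    (f : (Fin d → ℝ) → X) (s : Fin d → ℝ) (K : ℝ≥0) (hf : LipschitzWith K f)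
    (ρ : (Fin d → ℝ) → ℝ)
    (hρ : ∀ w e : Fin d → ℝ, Tendsto (fun t : ℝ => dist (f (s + t • (w + e))) (f (s + t • w)) / t)
        (𝓝[>] 0) (𝓝 (ρ e))) :
    ∃ ρ' : Seminorm ℝ (Fin d → ℝ), (∀ e, ρ' e = ρ e) ∧
      ∀ u w, ρ' (u + w) ^ 2 + ρ' (u - w) ^ 2 ≤ 2 * ρ' u ^ 2 + 2 * ρ' w ^ 2 := by
  have hsmul : ∀ (c : ℝ) (u : Fin d → ℝ), ρ (c • u) = ‖c‖ * ρ u := by
    intro c u
    rcases lt_trichotomy c 0 with hc | hc | hc
    · have h1 := md_smul_pos hρ (neg_pos.2 hc) u
      rw [neg_smul, md_neg hρ] at h1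
      rw [h1, Real.norm_of_nonpos hc.le]
    · subst hc
      rw [zero_smul, norm_zero, zero_mul, md_zero hρ]
    · rw [md_smul_pos hρ hc, Real.norm_of_nonneg hc.le]
  refine ⟨Seminorm.of ρ (md_add_le hρ) hsmul, fun e => rfl, fun u w => ?_⟩
  change ρ (u + w) ^ 2 + ρ (u - w) ^ 2 ≤ 2 * ρ u ^ 2 + 2 * ρ w ^ 2
  have main : ∀ c : ℝ, 0 ≤ c → c < 1 →
      c * ρ (u + w) ^ 2 + ρ (u - w) ^ 2 ≤ 2 * ρ u ^ 2 + 2 * ρ w ^ 2 := by
    intro c hc0 hc1
    obtain ⟨r₀, hr₀, hq⟩ := cn_quad h hc0 hc1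
    have hsmall : ∀ a b : Fin d → ℝ, ∀ᶠ t : ℝ in 𝓝[>] 0,
        dist (f (s + t • a)) (f (s + t • b)) ≤ r₀ := by
      intro a b
      have hcont : Continuous fun t : ℝ => dist (f (s + t • a)) (f (s + t • b)) := by
        have := hf.continuous
        fun_prop
      have h0 : Tendsto (fun t : ℝ => dist (f (s + t • a)) (f (s + t • b))) (𝓝[>] 0) (𝓝 0) := by
        have := hcont.tendsto 0
        simp only [zero_smul, add_zero, dist_self] at this
        exact this.mono_left nhdsWithin_le_nhds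
      exact (h0.eventually (gt_mem_nhds hr₀)).mono fun t ht => ht.le
    have l0 := md_tendsto hρ 0 (u + w)
    have l1 := md_tendsto hρ 0 u
    have l2 := md_tendsto hρ 0 w
    have l3 := md_tendsto hρ (u + w) u
    have l4 := md_tendsto hρ (u + w) w
    have l5 := md_tendsto hρ u w
    rw [zero_sub, md_neg hρ] at l0 l1 l2
    rw [add_sub_cancel_left] at l3
    rw [add_sub_cancel_right] at l4
    have lim1 := ((l0.pow 2).const_mul c).add (l5.pow 2)
    have lim2 := ((l1.pow 2).add (l3.pow 2)).add ((l2.pow 2).add (l4.pow 2))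
    have hle := le_of_tendsto_of_tendsto lim1 lim2 ?_
    · linarith
    · filter_upwards [hsmall 0 (u + w), hsmall 0 u, hsmall 0 w, hsmall (u + w) u,
        hsmall (u + w) w, self_mem_nhdsWithin] with t h1 h2 h3 h4 h5 ht
      have ht0 : (0:ℝ) < t := ht
      have k := hq _ _ _ _ h1 h2 h4 h3 h5
      have ht2 : (0:ℝ) < t ^ 2 := by positivity
      refine le_of_mul_le_mul_right ?_ ht2
      have e : ∀ x : ℝ, (x / t) ^ 2 * t ^ 2 = x ^ 2 := fun x => by
        field_simp
      simp only [add_mul, e, mul_assoc]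
      linarith
  have hlim : Tendsto (fun n : ℕ => (1 - 1 / ((n:ℝ) + 1)) * ρ (u + w) ^ 2 + ρ (u - w) ^ 2) atTop
      (𝓝 ((1 - 0) * ρ (u + w) ^ 2 + ρ (u - w) ^ 2)) := by
    refine Tendsto.add_const _ (Tendsto.mul_const _ ?_)
    exact tendsto_const_nhds.sub tendsto_one_div_add_atTop_nhds_zero_nat
  rw [sub_zero, one_mul] at hlim
  refine le_of_tendsto' hlim fun n => main _ ?_ ?_
  · rw [sub_nonneg, div_le_one (by positivity)]
    have : (0:ℝ) ≤ n := Nat.cast_nonneg n
    linarith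
  · have : (0:ℝ) < 1 / ((n:ℝ) + 1) := by positivity
    linarith

end MP629748

end part5

section part6

/-!
P14, R6b: the metric derivative vanishes uniformly on its kernel.
-/

open Set Filter Topology MeasureTheory
open scoped NNReal

namespace MP629748

theorem md_tendsto_kernel {X : Type*} [MetricSpace X] {d : ℕ}
    (f : (Fin d → ℝ) → X) (s : Fin d → ℝ) (K : ℝ≥0) (hf : LipschitzWith K f)
    (ρ : (Fin d → ℝ) → ℝ)
    (hρ : ∀ e : Fin d → ℝ, Tendsto (fun t : ℝ => dist (f (s + t • e)) (f s) / t)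
        (𝓝[>] 0) (𝓝 (ρ e))) (L : Submodule ℝ (Fin d → ℝ)) (hL : ∀ v ∈ L, ρ v = 0) :
    Tendsto (fun w => dist (f (s + w)) (f s) / ‖w‖) (𝓝[(L : Set (Fin d → ℝ)) \ {0}] 0) (𝓝 0) := by
  rw [Metric.tendsto_nhds]
  intro ε hε
  have hcomp : IsCompact (Metric.sphere (0 : Fin d → ℝ) 1 ∩ (L : Set (Fin d → ℝ))) :=
    (isCompact_sphere _ _).inter_right L.closed_of_finiteDimensional
  set δ : ℝ := ε / (2 * (K + 1)) with hδ
  have hδ0 : 0 < δ := by positivity
  obtain ⟨T, hTs, hTf, hTcov⟩ := hcomp.finite_cover_balls hδ0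
  have h1 : ∀ᶠ t : ℝ in 𝓝[>] 0, ∀ e ∈ T, dist (f (s + t • e)) (f s) / t < ε / 2 := by
    rw [eventually_all_finite hTf]
    intro e he
    have h2 := hρ e
    rw [hL e (hTs he).2] at h2
    exact (tendsto_order.1 h2).2 _ (by positivity)
  obtain ⟨r, hr0, hr⟩ := mem_nhdsGT_iff_exists_Ioo_subset.1 h1
  have hr0 : (0:ℝ) < r := hr0
  have h3 : ∀ᶠ w : Fin d → ℝ in 𝓝[(L : Set (Fin d → ℝ)) \ {0}] 0, ‖w‖ < r := by
    apply mem_nhdsWithin_of_mem_nhds
    have := Metric.ball_mem_nhds (0 : Fin d → ℝ) hr0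
    filter_upwards [this] with w hw
    simpa using hw
  filter_upwards [h3, self_mem_nhdsWithin] with w hw hwL
  have hw0 : w ≠ 0 := hwL.2
  have hn : 0 < ‖w‖ := norm_pos_iff.2 hw0
  have he : (‖w‖⁻¹ • w) ∈ Metric.sphere (0 : Fin d → ℝ) 1 ∩ (L : Set (Fin d → ℝ)) := by
    refine ⟨?_, L.smul_mem _ hwL.1⟩
    rw [mem_sphere_zero_iff_norm, norm_smul, norm_inv, norm_norm, inv_mul_cancel₀ hn.ne']
  obtain ⟨e, heT, hee⟩ := mem_iUnion₂.1 (hTcov he)
  rw [Metric.mem_ball, dist_eq_norm] at hee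
  have h4 : dist (f (s + ‖w‖ • e)) (f s) / ‖w‖ < ε / 2 := hr ⟨hn, hw⟩ e heT
  have h5 : dist (f (s + w)) (f (s + ‖w‖ • e)) ≤ K * (‖w‖ * δ) := by
    refine (hf.dist_le_mul _ _).trans ?_
    refine mul_le_mul_of_nonneg_left ?_ K.2
    rw [dist_eq_norm]
    have h6 : s + w - (s + ‖w‖ • e) = ‖w‖ • (‖w‖⁻¹ • w - e) := by
      rw [smul_sub, smul_smul, mul_inv_cancel₀ hn.ne', one_smul]
      abel
    rw [h6, norm_smul, norm_norm]
    exact mul_le_mul_of_nonneg_left hee.le hn.le
  have h7 : dist (f (s + w)) (f s) ≤ K * (‖w‖ * δ) + ε / 2 * ‖w‖ := by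
    refine (dist_triangle _ (f (s + ‖w‖ • e)) _).trans (add_le_add h5 ?_)
    exact ((div_lt_iff₀ hn).1 h4).le
  rw [Real.dist_eq, sub_zero, abs_of_nonneg (by positivity), div_lt_iff₀ hn]
  have h8 : (K:ℝ) * δ < ε / 2 := by
    rw [hδ, mul_div_assoc', div_lt_div_iff₀ (by positivity) (by norm_num)]
    have : (0:ℝ) ≤ K := K.2
    nlinarith
  nlinarith

end MP629748

end part6

section part7

/-!
P14: the linear dimension bounds the rank (helper33).
-/

set_option autoImplicit false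

open Set Filter Topology MeasureTheory
open scoped NNReal

namespace MP629748

universe u

theorem rankLE_of_linDim {κ : ℝ} {X : Type u} [MetricSpace X] [CompleteSpace X]
    (h : IsCAT κ X) {n : ℕ} (hn : ∀ m : ℕ, (∃ p : X, HasConeEmb m p) → m ≤ n) :
    RankLE n X := by
  intro d f K hf
  obtain ⟨r, hr, hrκ⟩ : ∃ r > (0:ℝ), 0 < κ → r < Real.pi / (2 * √κ) := by
    by_cases hκ : 0 < κ
    · have hk : 0 < √κ := Real.sqrt_pos.2 hκ
      refine ⟨Real.pi / (4 * √κ), by positivity, fun _ => ?_⟩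
      apply div_lt_div_of_pos_left Real.pi_pos (by positivity)
      linarith
    · exact ⟨1, one_pos, fun h => absurd h hκ⟩
  filter_upwards [strong_md f K hf r hr] with s hs
  obtain ⟨ρ, hρ, hy⟩ := hs
  obtain ⟨ρ', hρ', hpar⟩ := md_parallelogram h f s K hf ρ hρ
  obtain ⟨L, A, hL, hA⟩ := exists_euclid_section ρ' hpar
  have hρ0 : ∀ e : Fin d → ℝ, Tendsto (fun t : ℝ => dist (f (s + t • e)) (f s) / t)
        (𝓝[>] 0) (𝓝 (ρ e)) := by
    intro e
    have := hρ 0 e
    simpa using this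
  refine ⟨L, hn _ ⟨f s, hasConeEmb_of_curves h (fun v t => f (s + t • A v)) ?_ ?_⟩,
    md_tendsto_kernel f s K hf ρ hρ0 L ?_⟩
  · intro v v'
    have h1 := hρ (A v') (A v - A v')
    rw [add_sub_cancel, ← hρ', ← map_sub, hA] at h1
    exact h1
  · intro v hv ε hε
    have he : ρ (A v) = 1 := by rw [← hρ', hA, hv]
    obtain ⟨η, hη, hη1, hη2⟩ : ∃ η > (0:ℝ), η ≤ 1 / 2 ∧ 5 * η ≤ ε ^ 2 := by
      refine ⟨min (1 / 2) (ε ^ 2 / 5), by positivity, min_le_left _ _, ?_⟩
      have := min_le_right (1 / 2) (ε ^ 2 / 5)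
      linarith
    obtain ⟨y, hy1, hy2, hy3⟩ := hy (A v) η hη
    rw [he] at hy3
    set p := f s with hp
    set q := f y with hq
    have hD : 0 < dist p q := by
      rcases (dist_nonneg (x := p) (y := q)).eq_or_lt with h0 | h0
      · exfalso
        have hpq : p = q := dist_eq_zero.1 h0.symm
        have hmin : IsLocalMin (fun x => dist q (f x)) s := by
          refine Eventually.of_forall fun x => ?_
          show dist q (f s) ≤ dist q (f x)
          rw [← hp, hpq, dist_self]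
          exact dist_nonneg
        rw [hmin.fderiv_eq_zero] at hy3
        simp at hy3
        linarith
      · exact h0
    have hDr : dist p q < r := by rw [dist_comm]; exact hy1
    have hlt : LtVarpi κ (dist p q) := by
      by_cases hκ : 0 < κ
      · right
        have h1 := hrκ hκ
        have hk : 0 < √κ := Real.sqrt_pos.2 hκ
        have h2 : Real.pi / (2 * √κ) ≤ Real.pi / √κ := by
          apply div_le_div_of_nonneg_left Real.pi_pos.le hk
          linarith
        linarith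
      · left; linarith
    obtain ⟨γ, hγ⟩ := h.geod p q hlt
    refine ⟨⟨γ, dist p q, hD, hγ.1, hγ.2.2⟩, ?_⟩
    have ha : Tendsto (fun t : ℝ => dist p (f (s + t • A v)) / t) (𝓝[>] 0) (𝓝 1) := by
      have := hρ0 (A v)
      rw [he] at this
      refine this.congr fun t => ?_
      rw [dist_comm]
    have hb : Tendsto (fun t : ℝ => (dist q (f (s + t • A v)) - dist p q) / t) (𝓝[>] 0)
        (𝓝 (fderiv ℝ (fun x => dist q (f x)) s (A v))) := by
      have h1 := (hy2.hasFDerivAt.hasLineDerivAt (A v))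
      have h2 : HasDerivAt (fun t : ℝ => dist q (f (s + t • A v)))
        (fderiv ℝ (fun x => dist q (f x)) s (A v)) 0 := h1
      have h3 := h2.tendsto_slope_zero_right
      refine h3.congr ?_
      intro t
      simp only [zero_add, zero_smul, add_zero, smul_eq_mul]
      rw [inv_mul_eq_div, ← hp, dist_comm q p]
    have hb' : fderiv ℝ (fun x => dist q (f x)) s (A v) ≤ -(1 - η) := by linarith
    have hkey := curve_near_geodesic h hγ hD (fun hκ => hDr.trans (hrκ hκ))
      (c := fun t => f (s + t • A v)) ha hη hb hb'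
    filter_upwards [hkey, self_mem_nhdsWithin] with t ht ht0
    have ht0 : 0 < t := ht0
    have h1 : dist (γ t) (f (s + t • A v)) ^ 2 ≤ (ε * t) ^ 2 := by
      have : 5 * η * t ^ 2 ≤ ε ^ 2 * t ^ 2 := mul_le_mul_of_nonneg_right hη2 (by positivity)
      calc dist (γ t) (f (s + t • A v)) ^ 2 ≤ 5 * η * t ^ 2 := ht
        _ ≤ ε ^ 2 * t ^ 2 := this
        _ = (ε * t) ^ 2 := by ring
    exact le_of_sq_le_sq h1 (by positivity)
  · intro v hv
    rw [← hρ']
    exact (hL v).1 hv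

end MP629748

end part7
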