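import Pool.Agent.Lib.MP_629748_gt.MMain
import Pool.Agent.Lib.MP_629748_gt.MGeoB
import Pool.Agent.Lib.MP_629748_gt.MRank

/-! P16: the final theorem. -/

open Set Filter Topology MeasureTheory Metric
open scoped NNReal

namespace MP629748

universe u

theorem RankLE.subtype {X : Type*} [MetricSpace X] {n : ℕ} (h : RankLE n X) (Z : Set X) :
    RankLE n Z := by
  intro d f K hf
  have h1 := h d (fun s => (f s : X)) K (by
    have := (LipschitzWith.subtype_val Z).comp hf
    rw [one_mul] at this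
    exact this)
  exact h1

theorem TopDimLE.mono {X : Type*} [TopologicalSpace X] {n k : ℕ} (h : TopDimLE X n)
    (hnk : n ≤ k) : TopDimLE X k := by
  intro 𝒰 h1 h2 h3
  obtain ⟨𝒱, a1, a2, a3, a4, a5⟩ := h 𝒰 h1 h2 h3
  exact ⟨𝒱, a1, a2, a3, a4, fun s hs hx => (a5 s hs hx).trans (by omega)⟩

theorem topDim_le {X : Type*} [TopologicalSpace X] {n : ℕ} (h : TopDimLE X n) :
    TopDim X ≤ n := sInf_le ⟨n, rfl, h⟩

theorem final {X : Type u} [MetricSpace X] [CompleteSpace X] (_hl : IsLengthSpace X)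
    (h : ∃ κ, IsCAT κ X) : TopDim X = LinDim X := by
  obtain ⟨κ, hκ⟩ := h
  apply le_antisymm
  · by_cases htop : LinDim X = ⊤
    · rw [htop]; exact le_top
    · obtain ⟨n, hn⟩ := WithTop.ne_top_iff_exists.1 htop
      have hn' : ∀ m : ℕ, (∃ p : X, HasConeEmb m p) → m ≤ n := by
        intro m hm
        have h1 : (m : ℕ∞) ≤ LinDim X := by
          unfold LinDim
          exact le_iSup₂ (f := fun (m : ℕ) (_ : ∃ p : X, HasConeEmb m p) => (m : ℕ∞)) m hm
        rw [← hn] at h1
        have h2 : (m : ℕ∞) ≤ (n : ℕ∞) := h1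
        exact Nat.cast_le.1 h2
      have hR : RankLE n X := rankLE_of_linDim hκ hn'
      rw [← hn]
      refine topDim_le (topDimLE_of_NZ fun j hj => ?_)
      obtain ⟨r₀, hr₀, hU⟩ := exists_uc_of_cat hκ (c := 1 / 2) (by norm_num)
      refine NZ.of_local fun y => ⟨closedBall y r₀, closedBall_mem_nhds y hr₀,
        isClosed_closedBall, ?_⟩
      obtain ⟨U, -⟩ := hU y r₀ hr₀ le_rfl
      have : CompleteSpace (closedBall y r₀) :=
        isClosed_closedBall.completeSpace_coe
      exact nz_of_uc (c := 1 / 2) (by norm_num) U (hR.subtype _) j hj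
  · unfold LinDim
    refine iSup₂_le fun m hm => ?_
    obtain ⟨p, hp⟩ := hm
    refine le_sInf ?_
    rintro _ ⟨n, rfl, hn⟩
    by_contra hlt
    have hlt' : n < m := by
      have := not_le.1 hlt
      exact_mod_cast this
    obtain ⟨k, rfl⟩ : ∃ k, m = k + 1 := ⟨m - 1, by omega⟩
    obtain ⟨Z, hZ, hNZ⟩ := exists_not_NZ hκ (m := k + 1) (by omega) p hp
    exact hNZ (NZ.closed (NZ_of_topDimLE (hn.mono (by omega))) hZ)

end MP629748
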