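import Mathlib

/-!
Definitions used in the statement of MP_629748_gt.
-/

open Set Filter Topology
open scoped NNReal

namespace MP629748

/-! ### Covering dimension -/

/-- Every finite open cover has a finite open refinement of order at most `n`. -/
def TopDimLE (X : Type*) [TopologicalSpace X] (n : ℕ) : Prop :=
  ∀ 𝒰 : Set (Set X), 𝒰.Finite → (∀ U ∈ 𝒰, IsOpen U) → ⋃₀ 𝒰 = univ →
    ∃ 𝒱 : Set (Set X), 𝒱.Finite ∧ (∀ V ∈ 𝒱, IsOpen V) ∧ ⋃₀ 𝒱 = univ ∧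
      (∀ V ∈ 𝒱, ∃ U ∈ 𝒰, V ⊆ U) ∧
      ∀ s : Finset (Set X), (∀ V ∈ s, V ∈ 𝒱) → (∃ x, ∀ V ∈ s, x ∈ V) → s.card ≤ n + 1

/-- The topological (covering) dimension. -/
noncomputable def TopDim (X : Type*) [TopologicalSpace X] : ℕ∞ :=
  sInf {a : ℕ∞ | ∃ n : ℕ, a = n ∧ TopDimLE X n}

/-! ### Length spaces and geodesics -/

/-- `X` is a length space: the distance is the infimum of the lengths of curves. -/
def IsLengthSpace (X : Type*) [MetricSpace X] : Prop :=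
  ∀ x y : X, ∀ ε > 0, ∃ γ : ℝ → X, ContinuousOn γ (Icc 0 1) ∧ γ 0 = x ∧ γ 1 = y ∧
    eVariationOn γ (Icc 0 1) ≤ ENNReal.ofReal (dist x y + ε)

/-- `γ` is a unit speed geodesic on `[0, l]`. -/
def IsGeodOn {X : Type*} [MetricSpace X] (γ : ℝ → X) (l : ℝ) : Prop :=
  ∀ s ∈ Icc (0:ℝ) l, ∀ t ∈ Icc (0:ℝ) l, dist (γ s) (γ t) = |s - t|

/-- `γ` is a geodesic from `x` to `y`, parametrised by arc length on `[0, dist x y]`. -/
def IsGeodFromTo {X : Type*} [MetricSpace X] (γ : ℝ → X) (x y : X) : Prop :=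
  γ 0 = x ∧ γ (dist x y) = y ∧ IsGeodOn γ (dist x y)

/-! ### Model planes of constant curvature -/

/-- The model plane of curvature `κ` as a subset of `ℝ^3`: the unit sphere (`κ > 0`),
the affine plane `v₀ = 1` (`κ = 0`), the upper sheet of the hyperboloid (`κ < 0`). -/
def modelPlane (κ : ℝ) : Set (Fin 3 → ℝ) :=
  {v | (0 < κ ∧ v 0 ^ 2 + v 1 ^ 2 + v 2 ^ 2 = 1) ∨ (κ = 0 ∧ v 0 = 1) ∨
    (κ < 0 ∧ 0 < v 0 ∧ v 0 ^ 2 - v 1 ^ 2 - v 2 ^ 2 = 1)}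

/-- The distance of the model plane of curvature `κ`. -/
noncomputable def modelDist (κ : ℝ) (v w : Fin 3 → ℝ) : ℝ :=
  if 0 < κ then Real.arccos (v 0 * w 0 + v 1 * w 1 + v 2 * w 2) / √κ
  else if κ = 0 then √((v 1 - w 1) ^ 2 + (v 2 - w 2) ^ 2)
  else Real.arcosh (v 0 * w 0 - v 1 * w 1 - v 2 * w 2) / √(-κ)

/-- `d < ϖ_κ` (`ϖ_κ = π / √κ` for `κ > 0`, `ϖ_κ = ∞` otherwise). -/
def LtVarpi (κ d : ℝ) : Prop := κ ≤ 0 ∨ d < Real.pi / √κ

/-- `CAT(κ)`: points at distance less than `ϖ_κ` are joined by a geodesic, and every geodesic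
triangle of perimeter less than `2 ϖ_κ` is no fatter than its comparison triangle in the model
plane: the distance between points `γ₁ s` and `γ₂ t` on two sides is at most the distance of the
corresponding points of the comparison triangle. -/
structure IsCAT (κ : ℝ) (X : Type*) [MetricSpace X] : Prop where
  geod : ∀ x y : X, LtVarpi κ (dist x y) → ∃ γ : ℝ → X, IsGeodFromTo γ x y
  comp : ∀ (a b c : X) (γ₁ γ₂ γ₃ : ℝ → X), IsGeodFromTo γ₁ a b → IsGeodFromTo γ₂ a c →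
    IsGeodFromTo γ₃ b c → LtVarpi κ ((dist a b + dist b c + dist a c) / 2) →
    ∀ s ∈ Icc (0:ℝ) (dist a b), ∀ t ∈ Icc (0:ℝ) (dist a c),
    ∀ a' ∈ modelPlane κ, ∀ b' ∈ modelPlane κ, ∀ c' ∈ modelPlane κ,
    ∀ x' ∈ modelPlane κ, ∀ y' ∈ modelPlane κ,
      modelDist κ a' b' = dist a b → modelDist κ b' c' = dist b c →
      modelDist κ a' c' = dist a c →
      modelDist κ a' x' = s → modelDist κ x' b' = dist a b - s →
      modelDist κ a' y' = t → modelDist κ y' c' = dist a c - t →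
      dist (γ₁ s) (γ₂ t) ≤ modelDist κ x' y'

/-! ### Space of directions, tangent space, linear dimension -/

/-- Geodesics starting at `p` (with some positive length `len`, unit speed). -/
structure Germ {X : Type*} [MetricSpace X] (p : X) where
  toFun : ℝ → X
  len : ℝ
  len_pos : 0 < len
  base : toFun 0 = p
  geod : IsGeodOn toFun len

/-- Comparison angle (Euclidean law of cosines). -/
noncomputable def compAngle (a b c : ℝ) : ℝ := Real.arccos ((a ^ 2 + b ^ 2 - c ^ 2) / (2 * a * b))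

/-- The Alexandrov (upper) angle between two geodesics starting at `p`. -/
noncomputable def germAngle {X : Type*} [MetricSpace X] {p : X} (γ η : Germ p) : ℝ :=
  limsup (fun q : ℝ × ℝ => compAngle q.1 q.2 (dist (γ.toFun q.1) (η.toFun q.2)))
    (𝓝[>] (0:ℝ) ×ˢ 𝓝[>] (0:ℝ))

theorem compAngle_nonneg (a b c : ℝ) : 0 ≤ compAngle a b c := Real.arccos_nonneg _

theorem compAngle_le_pi (a b c : ℝ) : compAngle a b c ≤ Real.pi := Real.arccos_le_pi _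

theorem compAngle_comm (a b c : ℝ) : compAngle a b c = compAngle b a c := by
  unfold compAngle
  congr 1
  ring

theorem compAngle_bdd_above {X : Type*} [MetricSpace X] {p : X} (γ η : Germ p) :
    (𝓝[>] (0:ℝ) ×ˢ 𝓝[>] (0:ℝ)).IsBoundedUnder (· ≤ ·)
      (fun q : ℝ × ℝ => compAngle q.1 q.2 (dist (γ.toFun q.1) (η.toFun q.2))) :=
  isBoundedUnder_of ⟨Real.pi, fun _ => compAngle_le_pi _ _ _⟩

theorem compAngle_bdd_below {X : Type*} [MetricSpace X] {p : X} (γ η : Germ p) :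
    (𝓝[>] (0:ℝ) ×ˢ 𝓝[>] (0:ℝ)).IsBoundedUnder (· ≥ ·)
      (fun q : ℝ × ℝ => compAngle q.1 q.2 (dist (γ.toFun q.1) (η.toFun q.2))) :=
  isBoundedUnder_of ⟨0, fun _ => compAngle_nonneg _ _ _⟩

theorem germAngle_nonneg {X : Type*} [MetricSpace X] {p : X} (γ η : Germ p) :
    0 ≤ germAngle γ η :=
  le_limsup_of_frequently_le
    (Frequently.of_forall fun _ => compAngle_nonneg _ _ _) (compAngle_bdd_above γ η)

theorem germAngle_le_pi {X : Type*} [MetricSpace X] {p : X} (γ η : Germ p) :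
    germAngle γ η ≤ Real.pi :=
  limsup_le_of_le (compAngle_bdd_below γ η).isCoboundedUnder_le
    (Eventually.of_forall fun _ => compAngle_le_pi _ _ _)

theorem germAngle_self {X : Type*} [MetricSpace X] {p : X} (γ : Germ p) :
    germAngle γ γ = 0 := by
  have h1 : ∀ᶠ q : ℝ × ℝ in 𝓝[>] (0:ℝ) ×ˢ 𝓝[>] (0:ℝ),
      compAngle q.1 q.2 (dist (γ.toFun q.1) (γ.toFun q.2)) = 0 := by
    have h2 : ∀ᶠ t : ℝ in 𝓝[>] (0:ℝ), t ∈ Ioc (0:ℝ) γ.len := Ioc_mem_nhdsGT γ.len_pos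
    filter_upwards [h2.prod_mk h2] with q hq
    obtain ⟨hq1, hq2⟩ := hq
    rw [γ.geod q.1 ⟨hq1.1.le, hq1.2⟩ q.2 ⟨hq2.1.le, hq2.2⟩, compAngle, sq_abs]
    have h3 : (q.1 ^ 2 + q.2 ^ 2 - (q.1 - q.2) ^ 2) / (2 * q.1 * q.2) = 1 := by
      have ha := hq1.1.ne'
      have hb := hq2.1.ne'
      field_simp
      ring
    rw [h3, Real.arccos_one]
  rw [germAngle, limsup_congr h1, limsup_const]

theorem germAngle_comm {X : Type*} [MetricSpace X] {p : X} (γ η : Germ p) :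
    germAngle γ η = germAngle η γ := by
  unfold germAngle
  have h : 𝓝[>] (0:ℝ) ×ˢ 𝓝[>] (0:ℝ) = map Prod.swap (𝓝[>] (0:ℝ) ×ˢ 𝓝[>] (0:ℝ)) := prod_comm
  conv_rhs => rw [h]
  rw [limsup, limsup, map_map]
  congr 2
  funext q
  simp only [Function.comp_apply, Prod.fst_swap, Prod.snd_swap]
  rw [compAngle_comm, dist_comm]

/-- the law of cosines in one direction -/
theorem lt_of_compAngle_lt {a b c α : ℝ} (ha : 0 < a) (hb : 0 < b) (hα : α ∈ Icc 0 Real.pi)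
    (h : compAngle a b c < α) : c ^ 2 < a ^ 2 + b ^ 2 - 2 * a * b * Real.cos α := by
  have h1 : Real.cos α < (a ^ 2 + b ^ 2 - c ^ 2) / (2 * a * b) := by
    by_contra hcon
    push Not at hcon
    have h2 := Real.antitone_arccos hcon
    rw [Real.arccos_cos hα.1 hα.2] at h2
    exact absurd h (not_lt.2 h2)
  have hab : 0 < 2 * a * b := by positivity
  rw [lt_div_iff₀ hab] at h1
  linarith

theorem lt_of_lt_compAngle {a b c α : ℝ} (ha : 0 < a) (hb : 0 < b) (hα : α ∈ Icc 0 Real.pi)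
    (h : α < compAngle a b c) : a ^ 2 + b ^ 2 - 2 * a * b * Real.cos α < c ^ 2 := by
  have h1 : (a ^ 2 + b ^ 2 - c ^ 2) / (2 * a * b) < Real.cos α := by
    by_contra hcon
    push Not at hcon
    have h2 := Real.antitone_arccos hcon
    rw [Real.arccos_cos hα.1 hα.2] at h2
    exact absurd h (not_lt.2 h2)
  have hab : 0 < 2 * a * b := by positivity
  rw [div_lt_iff₀ hab] at h1
  linarith

theorem hinge_aux {a b s₁ c₁ s₂ c₂ S : ℝ} (hS : S = a * s₁ + b * s₂) (hS0 : S ≠ 0)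
    (h1 : s₁ ^ 2 + c₁ ^ 2 = 1) (h2 : s₂ ^ 2 + c₂ ^ 2 = 1) :
    (a * b * (s₁ * c₂ + c₁ * s₂) / S) ^ 2 + a ^ 2 -
      2 * (a * b * (s₁ * c₂ + c₁ * s₂) / S) * a * c₁ =
    (a * s₁ / S) ^ 2 * (a ^ 2 + b ^ 2 - 2 * a * b * (c₁ * c₂ - s₁ * s₂)) := by
  have key : (a * b * (s₁ * c₂ + c₁ * s₂)) ^ 2 + a ^ 2 * S ^ 2 -
      2 * (a * b * (s₁ * c₂ + c₁ * s₂)) * a * c₁ * S =
      (a * s₁) ^ 2 * (a ^ 2 + b ^ 2 - 2 * a * b * (c₁ * c₂ - s₁ * s₂)) := by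
    rw [hS]
    linear_combination (-(a ^ 2 * (2 * a * b * s₁ * s₂ + b ^ 2 * s₂ ^ 2))) * h1 +
      (a ^ 2 * b ^ 2 * s₁ ^ 2) * h2
  have e : (a * b * (s₁ * c₂ + c₁ * s₂) / S) ^ 2 + a ^ 2 -
      2 * (a * b * (s₁ * c₂ + c₁ * s₂) / S) * a * c₁ =
      ((a * b * (s₁ * c₂ + c₁ * s₂)) ^ 2 + a ^ 2 * S ^ 2 -
      2 * (a * b * (s₁ * c₂ + c₁ * s₂)) * a * c₁ * S) / S ^ 2 := by
    field_simp
  rw [e, key, div_pow, div_mul_eq_mul_div]

theorem exists_hinge {a b α' α'' : ℝ} (ha : 0 < a) (hb : 0 < b) (hα' : 0 < α') (hα'' : 0 < α'')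
    (hα : α' + α'' < Real.pi) : ∃ τ D₁ D₂ : ℝ, 0 < τ ∧ (τ ≤ a ∨ τ ≤ b) ∧ 0 ≤ D₁ ∧ 0 ≤ D₂ ∧
      a ^ 2 + τ ^ 2 - 2 * a * τ * Real.cos α' = D₁ ^ 2 ∧
      τ ^ 2 + b ^ 2 - 2 * τ * b * Real.cos α'' = D₂ ^ 2 ∧
      a ^ 2 + b ^ 2 - 2 * a * b * Real.cos (α' + α'') = (D₁ + D₂) ^ 2 := by
  have hs' : 0 < Real.sin α' := Real.sin_pos_of_pos_of_lt_pi hα' (by linarith)
  have hs'' : 0 < Real.sin α'' := Real.sin_pos_of_pos_of_lt_pi hα'' (by linarith)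
  have hs : 0 < Real.sin (α' + α'') := Real.sin_pos_of_pos_of_lt_pi (by linarith) hα
  have hS0 : 0 < a * Real.sin α' + b * Real.sin α'' := by positivity
  have hc1 := Real.sin_sq_add_cos_sq α'
  have hc2 := Real.sin_sq_add_cos_sq α''
  have hle1 := Real.cos_le_one α'
  have hle2 := Real.cos_le_one α''
  have hle3 := Real.cos_le_one (α' + α'')
  rw [Real.sin_add] at hs
  rw [Real.cos_add] at hle3
  rw [Real.cos_add]
  clear hα
  generalize Real.sin α' = s₁ at *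
  generalize Real.sin α'' = s₂ at *
  generalize Real.cos α' = c₁ at *
  generalize Real.cos α'' = c₂ at *
  obtain ⟨S, hS⟩ : ∃ S, S = a * s₁ + b * s₂ := ⟨_, rfl⟩
  rw [← hS] at hS0
  have hQ : 0 ≤ a ^ 2 + b ^ 2 - 2 * a * b * (c₁ * c₂ - s₁ * s₂) := by
    have h2 : 2 * a * b * (c₁ * c₂ - s₁ * s₂) ≤ 2 * a * b * 1 :=
      mul_le_mul_of_nonneg_left hle3 (by positivity)
    nlinarith [sq_nonneg (a - b)]
  have q1 := hinge_aux (c₁ := c₁) (c₂ := c₂) hS hS0.ne' hc1 hc2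
  have q2 := hinge_aux (a := b) (b := a) (s₁ := s₂) (s₂ := s₁) (c₁ := c₂) (c₂ := c₁) (S := S)
    (by rw [hS]; ring) hS0.ne' hc2 hc1
  have hN : b * a * (s₂ * c₁ + c₂ * s₁) = a * b * (s₁ * c₂ + c₁ * s₂) := by ring
  rw [hN] at q2
  have hτ0 : 0 < a * b * (s₁ * c₂ + c₁ * s₂) / S := by positivity
  have hsum : a * s₁ / S + b * s₂ / S = 1 := by
    rw [← add_div, ← hS, div_self hS0.ne']
  have hτle : a * b * (s₁ * c₂ + c₁ * s₂) / S ≤ b * s₂ / S * a + a * s₁ / S * b := by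
    have h1 : a * b * (s₁ * c₂ + c₁ * s₂) ≤ b * s₂ * a + a * s₁ * b := by
      have h3 : s₁ * c₂ ≤ s₁ * 1 := mul_le_mul_of_nonneg_left hle2 hs'.le
      have h4 : c₁ * s₂ ≤ 1 * s₂ := mul_le_mul_of_nonneg_right hle1 hs''.le
      calc a * b * (s₁ * c₂ + c₁ * s₂) ≤ a * b * (s₁ * 1 + 1 * s₂) :=
            mul_le_mul_of_nonneg_left (add_le_add h3 h4) (by positivity)
        _ = _ := by ring
    calc a * b * (s₁ * c₂ + c₁ * s₂) / S ≤ (b * s₂ * a + a * s₁ * b) / S :=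
          div_le_div_of_nonneg_right h1 hS0.le
      _ = _ := by ring
  have hl0 : 0 < a * s₁ / S := by positivity
  have hl1 : 0 < b * s₂ / S := by positivity
  generalize a * b * (s₁ * c₂ + c₁ * s₂) / S = τ at *
  generalize a * s₁ / S = l at *
  generalize b * s₂ / S = l' at *
  have hD := Real.sq_sqrt hQ
  have hD0 := Real.sqrt_nonneg (a ^ 2 + b ^ 2 - 2 * a * b * (c₁ * c₂ - s₁ * s₂))
  refine ⟨τ, l * √(a ^ 2 + b ^ 2 - 2 * a * b * (c₁ * c₂ - s₁ * s₂)),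
    l' * √(a ^ 2 + b ^ 2 - 2 * a * b * (c₁ * c₂ - s₁ * s₂)), hτ0, ?_,
    mul_nonneg hl0.le hD0, mul_nonneg hl1.le hD0, ?_, ?_, ?_⟩
  · by_contra hcon
    push Not at hcon
    have h5 : l' * a < l' * τ := mul_lt_mul_of_pos_left hcon.1 hl1
    have h6 : l * b < l * τ := mul_lt_mul_of_pos_left hcon.2 hl0
    have h7 : l * τ + l' * τ = τ := by rw [← add_mul, hsum, one_mul]
    linarith
  · rw [mul_pow, hD, ← q1]
    ring
  · rw [mul_pow, hD]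
    have : b ^ 2 + a ^ 2 - 2 * b * a * (c₂ * c₁ - s₂ * s₁) =
      a ^ 2 + b ^ 2 - 2 * a * b * (c₁ * c₂ - s₁ * s₂) := by ring
    rw [← this, ← q2]
  · rw [← add_mul, hsum, one_mul, hD]

/-- Alexandrov's triangle inequality for upper angles. -/
theorem germAngle_triangle {X : Type*} [MetricSpace X] {p : X} (γ₁ γ₂ γ₃ : Germ p) :
    germAngle γ₁ γ₃ ≤ germAngle γ₁ γ₂ + germAngle γ₂ γ₃ := by
  by_contra hcon
  push Not at hcon
  obtain ⟨δ, hδ0, hδ⟩ : ∃ δ > 0, germAngle γ₁ γ₂ + germAngle γ₂ γ₃ + 3 * δ < germAngle γ₁ γ₃ :=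
    ⟨(germAngle γ₁ γ₃ - (germAngle γ₁ γ₂ + germAngle γ₂ γ₃)) / 4, by linarith, by linarith⟩
  have hA0 : 0 ≤ germAngle γ₁ γ₂ := germAngle_nonneg _ _
  have hB0 : 0 ≤ germAngle γ₂ γ₃ := germAngle_nonneg _ _
  -- the eventual bounds
  have e1 : ∀ᶠ q : ℝ × ℝ in 𝓝[>] (0:ℝ) ×ˢ 𝓝[>] (0:ℝ),
      compAngle q.1 q.2 (dist (γ₁.toFun q.1) (γ₂.toFun q.2)) < germAngle γ₁ γ₂ + δ :=
    eventually_lt_of_limsup_lt (lt_add_of_pos_right _ hδ0) (compAngle_bdd_above γ₁ γ₂)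
  have e2 : ∀ᶠ q : ℝ × ℝ in 𝓝[>] (0:ℝ) ×ˢ 𝓝[>] (0:ℝ),
      compAngle q.1 q.2 (dist (γ₂.toFun q.1) (γ₃.toFun q.2)) < germAngle γ₂ γ₃ + δ :=
    eventually_lt_of_limsup_lt (lt_add_of_pos_right _ hδ0) (compAngle_bdd_above γ₂ γ₃)
  obtain ⟨t, ht, hts⟩ := mem_prod_self_iff.1 (e1.and e2)
  obtain ⟨ε, hε, hεt⟩ := mem_nhdsGT_iff_exists_Ioo_subset.1 ht
  have hε0 : 0 < ε := hε
  have hkey : ∀ x ∈ Ioo 0 ε, ∀ y ∈ Ioo 0 ε,
      compAngle x y (dist (γ₁.toFun x) (γ₂.toFun y)) < germAngle γ₁ γ₂ + δ ∧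
      compAngle x y (dist (γ₂.toFun x) (γ₃.toFun y)) < germAngle γ₂ γ₃ + δ := fun x hx y hy =>
    @hts (x, y) ⟨hεt hx, hεt hy⟩
  have e3 : ∃ᶠ q : ℝ × ℝ in 𝓝[>] (0:ℝ) ×ˢ 𝓝[>] (0:ℝ),
      germAngle γ₁ γ₂ + germAngle γ₂ γ₃ + 3 * δ <
        compAngle q.1 q.2 (dist (γ₁.toFun q.1) (γ₃.toFun q.2)) :=
    frequently_lt_of_lt_limsup (compAngle_bdd_below γ₁ γ₃).isCoboundedUnder_le hδ
  have e4 : ∀ᶠ q : ℝ × ℝ in 𝓝[>] (0:ℝ) ×ˢ 𝓝[>] (0:ℝ), q.1 ∈ Ioo 0 ε ∧ q.2 ∈ Ioo 0 ε :=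
    (show ∀ᶠ x : ℝ in 𝓝[>] (0:ℝ), x ∈ Ioo 0 ε from Ioo_mem_nhdsGT hε0).prod_mk
      (show ∀ᶠ x : ℝ in 𝓝[>] (0:ℝ), x ∈ Ioo 0 ε from Ioo_mem_nhdsGT hε0)
  obtain ⟨⟨a, b⟩, hab, ha, hb⟩ := (e3.and_eventually e4).exists
  simp only at hab ha hb
  clear e1 e2 e3 e4 hts ht hεt hδ hcon
  have hpi := compAngle_le_pi a b (dist (γ₁.toFun a) (γ₃.toFun b))
  obtain ⟨α', hα'⟩ : ∃ α', α' = germAngle γ₁ γ₂ + δ + δ / 2 := ⟨_, rfl⟩
  obtain ⟨α'', hα''⟩ : ∃ α'', α'' = germAngle γ₂ γ₃ + δ + δ / 2 := ⟨_, rfl⟩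
  have hα'0 : 0 < α' := by rw [hα']; linarith
  have hα''0 : 0 < α'' := by rw [hα'']; linarith
  have hsum : α' + α'' = germAngle γ₁ γ₂ + germAngle γ₂ γ₃ + 3 * δ := by rw [hα', hα'']; ring
  have hsumpi : α' + α'' < Real.pi := by rw [hsum]; exact hab.trans_le hpi
  obtain ⟨τ, D₁, D₂, hτ0, hτ, hD₁, hD₂, q1, q2, q3⟩ :=
    exists_hinge ha.1 hb.1 hα'0 hα''0 hsumpi
  have hτε : τ < ε := by
    rcases hτ with h | h
    · exact h.trans_lt ha.2
    · exact h.trans_lt hb.2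
  have d1 : dist (γ₁.toFun a) (γ₂.toFun τ) < D₁ := by
    have h := (hkey a ha τ ⟨hτ0, hτε⟩).1
    have h2 := lt_of_compAngle_lt (α := α') ha.1 hτ0 ⟨hα'0.le, by linarith⟩
      (h.trans (by rw [hα']; linarith))
    rw [q1] at h2
    exact lt_of_pow_lt_pow_left₀ 2 hD₁ h2
  have d2 : dist (γ₂.toFun τ) (γ₃.toFun b) < D₂ := by
    have h := (hkey τ ⟨hτ0, hτε⟩ b hb).2
    have h2 := lt_of_compAngle_lt (α := α'') hτ0 hb.1 ⟨hα''0.le, by linarith⟩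
      (h.trans (by rw [hα'']; linarith))
    rw [q2] at h2
    exact lt_of_pow_lt_pow_left₀ 2 hD₂ h2
  have d3 : dist (γ₁.toFun a) (γ₃.toFun b) < D₁ + D₂ :=
    (dist_triangle _ _ _).trans_lt (add_lt_add d1 d2)
  have d4 := lt_of_lt_compAngle ha.1 hb.1 ⟨(add_pos hα'0 hα''0).le, hsumpi.le⟩
    (by rw [hsum]; exact hab)
  rw [q3] at d4
  exact absurd (lt_of_pow_lt_pow_left₀ 2 dist_nonneg d4) (not_lt.2 d3.le)

noncomputable instance {X : Type*} [MetricSpace X] (p : X) : PseudoMetricSpace (Germ p) where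
  dist := germAngle
  dist_self := germAngle_self
  dist_comm := germAngle_comm
  dist_triangle := germAngle_triangle

/-- The space of directions `Σ_p`: metric completion of the set of geodesics starting at `p`
modulo zero angle, with the angle metric. -/
abbrev Directions {X : Type*} [MetricSpace X] (p : X) := UniformSpace.Completion (Germ p)

/-- The tangent space `T_p`: Euclidean cone over `Σ_p`. -/
inductive TCone {X : Type*} [MetricSpace X] (p : X)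
  | apex : TCone p
  | pt (t : ℝ) (ht : 0 < t) (ξ : Directions p) : TCone p

/-- The distance of the Euclidean cone. -/
noncomputable def TCone.cdist {X : Type*} [MetricSpace X] {p : X} : TCone p → TCone p → ℝ
  | .apex, .apex => 0
  | .apex, .pt t _ _ => t
  | .pt t _ _, .apex => t
  | .pt s _ ξ, .pt t _ η => √(s ^ 2 + t ^ 2 - 2 * s * t * Real.cos (dist ξ η))

/-- Multiplication of a point of the cone by a positive number. -/
noncomputable def TCone.mul {X : Type*} [MetricSpace X] {p : X} (r : ℝ) (hr : 0 < r) :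
    TCone p → TCone p
  | .apex => .apex
  | .pt t ht ξ => .pt (r * t) (mul_pos hr ht) ξ

/-- There is an isometric cone embedding of `𝔼^m` in the tangent space at `p`. -/
def HasConeEmb {X : Type*} [MetricSpace X] (m : ℕ) (p : X) : Prop :=
  ∃ j : EuclideanSpace ℝ (Fin m) → TCone p, (∀ u v, (j u).cdist (j v) = dist u v) ∧
    j 0 = .apex ∧ ∀ (r : ℝ) (hr : 0 < r) (u : EuclideanSpace ℝ (Fin m)), j (r • u) = (j u).mul r hr

/-- The linear dimension. -/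
noncomputable def LinDim (X : Type*) [MetricSpace X] : ℕ∞ :=
  ⨆ (m : ℕ) (_ : ∃ p : X, HasConeEmb m p), (m : ℕ∞)

/-- The final theorem. -/
def FinalStatement : Prop := ∀ (X : Type) [MetricSpace X] [CompleteSpace X],
  IsLengthSpace X → (∃ κ, IsCAT κ X) → TopDim X = LinDim X

end MP629748
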