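import Pool.Agent.Lib.MP_629748_gt.MBase
import Pool.Agent.Lib.MP_629748_gt.Stmt

/-!
CAT spaces are locally uniformly convex.
-/

section part0

/-!
Exact Stewart inequalities in `CAT(κ)` spaces (helper33).
-/

set_option autoImplicit false

open Set Filter Topology
open scoped NNReal

namespace MP629748

theorem IsGeodFromTo.dist_left {X : Type*} [MetricSpace X] {γ : ℝ → X} {p q : X}
    (h : IsGeodFromTo γ p q) {τ : ℝ} (hτ : τ ∈ Icc (0:ℝ) (dist p q)) : dist (γ τ) p = τ := by
  have := h.2.2 τ hτ 0 ⟨le_rfl, dist_nonneg⟩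
  rw [h.1] at this
  rw [this, sub_zero, abs_of_nonneg hτ.1]

theorem IsGeodFromTo.dist_right {X : Type*} [MetricSpace X] {γ : ℝ → X} {p q : X}
    (h : IsGeodFromTo γ p q) {τ : ℝ} (hτ : τ ∈ Icc (0:ℝ) (dist p q)) :
    dist (γ τ) q = dist p q - τ := by
  have := h.2.2 τ hτ (dist p q) ⟨dist_nonneg, le_rfl⟩
  rw [h.2.1] at this
  rw [this, abs_sub_comm, abs_of_nonneg (by linarith [hτ.2])]

/-- Stewart inequality, positive curvature.  `γ` is the geodesic from `p` to `q`. -/
theorem stewart_pos {κ : ℝ} (hκ : 0 < κ) {X : Type*} [MetricSpace X] (h : IsCAT κ X)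
    {p q z : X} {γ : ℝ → X} (hγ : IsGeodFromTo γ p q)
    (hsm : (dist p q + dist q z + dist p z) / 2 < Real.pi / √κ)
    {τ : ℝ} (hτ : τ ∈ Icc (0:ℝ) (dist p q)) :
    Real.sin (√κ * (dist p q - τ)) * Real.cos (√κ * dist p z) +
      Real.sin (√κ * τ) * Real.cos (√κ * dist q z) ≤
    Real.sin (√κ * dist p q) * Real.cos (√κ * dist (γ τ) z) := by
  set k := √κ with hk
  have hk0 : 0 < k := Real.sqrt_pos.2 hκ
  set D := dist p q with hD
  set A := dist p z with hA
  set B := dist q z with hB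
  have hDn : 0 ≤ D := dist_nonneg
  have hAn : 0 ≤ A := dist_nonneg
  have hBn : 0 ≤ B := dist_nonneg
  have t1 : D ≤ A + B := by
    rw [hD, hA, hB, dist_comm q z]; exact dist_triangle _ _ _
  have t2 : A ≤ D + B := dist_triangle _ _ _
  have t3 : B ≤ D + A := by
    rw [hD, hA, hB, dist_comm p q]; exact dist_triangle _ _ _
  have hsm' : k * ((D + B + A) / 2) < Real.pi := by
    have := (lt_div_iff₀ hk0).1 hsm
    linarith [mul_comm ((D + B + A) / 2) k]
  have hτD : τ ≤ D := hτ.2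
  have hτ0 : 0 ≤ τ := hτ.1
  have hkD : k * D < Real.pi := lt_of_le_of_lt (mul_le_mul_of_nonneg_left (by linarith) hk0.le) hsm'
  have hkA : k * A < Real.pi := lt_of_le_of_lt (mul_le_mul_of_nonneg_left (by linarith) hk0.le) hsm'
  have hkB : k * B < Real.pi := lt_of_le_of_lt (mul_le_mul_of_nonneg_left (by linarith) hk0.le) hsm'
  have hkD0 : 0 ≤ k * D := by positivity
  have hkA0 : 0 ≤ k * A := by positivity
  have hkB0 : 0 ≤ k * B := by positivity
  have hkτ0 : 0 ≤ k * τ := by positivity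
  have hkτD : k * τ ≤ k * D := mul_le_mul_of_nonneg_left hτD hk0.le
  rcases hDn.eq_or_lt with hD0 | hD0
  · have hτ' : τ = 0 := le_antisymm (hD0 ▸ hτD) hτ0
    subst hτ'
    rw [← hD0]
    simp
  rcases hAn.eq_or_lt with hA0 | hA0
  · have hpz : p = z := dist_eq_zero.1 (hA0 ▸ hA.symm)
    have hBD : B = D := by rw [hB, hD, ← hpz, dist_comm]
    rw [hBD, ← hpz, hγ.dist_left hτ, ← hA0]
    have : Real.sin (k * (D - τ)) = Real.sin (k * D) * Real.cos (k * τ) -
        Real.cos (k * D) * Real.sin (k * τ) := by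
      rw [mul_sub, Real.sin_sub]
    rw [this]
    simp
    linarith
  obtain ⟨γ₂, hγ₂⟩ := h.geod p z (Or.inr (by
    rw [lt_div_iff₀ hk0, mul_comm]; exact hkA))
  obtain ⟨γ₃, hγ₃⟩ := h.geod q z (Or.inr (by
    rw [lt_div_iff₀ hk0, mul_comm]; exact hkB))
  have sD : 0 < Real.sin (k * D) := Real.sin_pos_of_pos_of_lt_pi (by positivity) hkD
  have sA : 0 < Real.sin (k * A) := Real.sin_pos_of_pos_of_lt_pi (by positivity) hkA
  have e1 : Real.cos (k * B) ≤ Real.cos (k * D) * Real.cos (k * A) +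
      Real.sin (k * D) * Real.sin (k * A) := by
    rw [← Real.cos_sub]
    rcases le_total (k * D - k * A) 0 with hc | hc
    · rw [← Real.cos_neg (k * D - k * A)]
      apply Real.cos_le_cos_of_nonneg_of_le_pi (by linarith) hkB.le
      have := mul_le_mul_of_nonneg_left t2 hk0.le; linarith
    · apply Real.cos_le_cos_of_nonneg_of_le_pi hc hkB.le
      have := mul_le_mul_of_nonneg_left t3 hk0.le; have := mul_le_mul_of_nonneg_left t1 hk0.le; linarith
  have e2 : Real.cos (k * D) * Real.cos (k * A) - Real.sin (k * D) * Real.sin (k * A) ≤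
      Real.cos (k * B) := by
    rw [← Real.cos_add]
    rcases le_total (k * D + k * A) Real.pi with hc | hc
    · apply Real.cos_le_cos_of_nonneg_of_le_pi hkB0 hc
      have := mul_le_mul_of_nonneg_left t3 hk0.le; linarith
    · rw [← Real.cos_two_pi_sub (k * D + k * A)]
      apply Real.cos_le_cos_of_nonneg_of_le_pi hkB0 (by linarith)
      linarith
  obtain ⟨c0, hc0⟩ : ∃ c0 : ℝ, c0 = (Real.cos (k * B) - Real.cos (k * D) * Real.cos (k * A)) /
    (Real.sin (k * D) * Real.sin (k * A)) := ⟨_, rfl⟩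
  have hc0' : Real.sin (k * D) * Real.sin (k * A) * c0 =
      Real.cos (k * B) - Real.cos (k * D) * Real.cos (k * A) := by
    rw [hc0]; field_simp
  have hc1 : c0 ≤ 1 := by
    rw [hc0, div_le_one (by positivity)]; linarith
  have hc2 : -1 ≤ c0 := by
    rw [hc0, le_div_iff₀ (by positivity)]; linarith
  obtain ⟨s0, hs0⟩ : ∃ s0 : ℝ, s0 = √(1 - c0 ^ 2) := ⟨_, rfl⟩
  have hs2 : s0 ^ 2 = 1 - c0 ^ 2 := by
    rw [hs0, Real.sq_sqrt]; have := mul_nonneg (sub_nonneg.2 hc1) (sub_nonneg.2 hc2); linarith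
  have pD := Real.sin_sq_add_cos_sq (k * D)
  have pA := Real.sin_sq_add_cos_sq (k * A)
  have pτ := Real.sin_sq_add_cos_sq (k * τ)
  have hkne : k ≠ 0 := hk0.ne'
  have arc : ∀ x : ℝ, 0 ≤ x → x ≤ Real.pi → Real.arccos (Real.cos x) = x := fun x h0 h1 =>
    Real.arccos_cos h0 h1
  have key := h.comp p q z γ γ₂ γ₃ hγ hγ₂ hγ₃ (Or.inr hsm) τ hτ A ⟨hAn, le_rfl⟩
    ![1, 0, 0] (Or.inl ⟨hκ, by simp⟩)
    ![Real.cos (k * D), Real.sin (k * D), 0] (Or.inl ⟨hκ, by simp⟩)
    ![Real.cos (k * A), Real.sin (k * A) * c0, Real.sin (k * A) * s0]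
      (Or.inl ⟨hκ, by simp; linear_combination pA + Real.sin (k * A) ^ 2 * hs2⟩)
    ![Real.cos (k * τ), Real.sin (k * τ), 0] (Or.inl ⟨hκ, by simp⟩)
    ![Real.cos (k * A), Real.sin (k * A) * c0, Real.sin (k * A) * s0]
      (Or.inl ⟨hκ, by simp; linear_combination pA + Real.sin (k * A) ^ 2 * hs2⟩)
    (by
      simp only [modelDist, if_pos hκ, ← hk]
      simp only [Matrix.cons_val_zero, Matrix.cons_val_one, Matrix.cons_val]
      rw [show (1:ℝ) * Real.cos (k * D) + 0 * Real.sin (k * D) + 0 * 0 = Real.cos (k * D) by ring,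
        arc _ hkD0 hkD.le]
      field_simp
      exact hD)
    (by
      simp only [modelDist, if_pos hκ, ← hk]
      simp only [Matrix.cons_val_zero, Matrix.cons_val_one, Matrix.cons_val]
      rw [show Real.cos (k * D) * Real.cos (k * A) + Real.sin (k * D) * (Real.sin (k * A) * c0) +
        0 * (Real.sin (k * A) * s0) = Real.cos (k * B) by linarith,
        arc _ hkB0 hkB.le]
      field_simp
      exact hB)
    (by
      simp only [modelDist, if_pos hκ, ← hk]
      simp only [Matrix.cons_val_zero, Matrix.cons_val_one, Matrix.cons_val]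
      rw [show (1:ℝ) * Real.cos (k * A) + 0 * (Real.sin (k * A) * c0) +
        0 * (Real.sin (k * A) * s0) = Real.cos (k * A) by ring,
        arc _ hkA0 hkA.le]
      field_simp
      exact hA)
    (by
      simp only [modelDist, if_pos hκ, ← hk]
      simp only [Matrix.cons_val_zero, Matrix.cons_val_one, Matrix.cons_val]
      rw [show (1:ℝ) * Real.cos (k * τ) + 0 * Real.sin (k * τ) + 0 * 0 = Real.cos (k * τ) by ring,
        arc _ hkτ0 (by linarith)]
      field_simp)
    (by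
      simp only [modelDist, if_pos hκ, ← hk]
      simp only [Matrix.cons_val_zero, Matrix.cons_val_one, Matrix.cons_val]
      rw [show Real.cos (k * τ) * Real.cos (k * D) + Real.sin (k * τ) * Real.sin (k * D) +
        0 * 0 = Real.cos (k * D - k * τ) by rw [Real.cos_sub]; ring,
        arc _ (by linarith) (by linarith)]
      field_simp
      rw [hD])
    (by
      simp only [modelDist, if_pos hκ, ← hk]
      simp only [Matrix.cons_val_zero, Matrix.cons_val_one, Matrix.cons_val]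
      rw [show (1:ℝ) * Real.cos (k * A) + 0 * (Real.sin (k * A) * c0) +
        0 * (Real.sin (k * A) * s0) = Real.cos (k * A) by ring,
        arc _ hkA0 hkA.le]
      field_simp)
    (by
      simp only [modelDist, if_pos hκ, ← hk]
      simp only [Matrix.cons_val_zero, Matrix.cons_val_one, Matrix.cons_val]
      rw [show Real.cos (k * A) * Real.cos (k * A) + Real.sin (k * A) * c0 * (Real.sin (k * A) * c0)
        + Real.sin (k * A) * s0 * (Real.sin (k * A) * s0) = 1 by
        linear_combination pA + Real.sin (k * A) ^ 2 * hs2]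
      rw [Real.arccos_one, ← hA]
      simp)
  rw [show γ₂ A = z from hγ₂.2.1] at key
  simp only [modelDist, if_pos hκ, ← hk] at key
  simp only [Matrix.cons_val_zero, Matrix.cons_val_one, Matrix.cons_val] at key
  set M := Real.cos (k * τ) * Real.cos (k * A) + Real.sin (k * τ) * (Real.sin (k * A) * c0) +
    0 * (Real.sin (k * A) * s0) with hM
  have hM1 : M ≤ 1 := by
    have e3 : (Real.cos (k * τ) - Real.cos (k * A)) ^ 2 +
        (Real.sin (k * τ) - Real.sin (k * A) * c0) ^ 2 + (Real.sin (k * A) * s0) ^ 2 =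
        2 - 2 * M := by
      rw [hM]; linear_combination pτ + pA + Real.sin (k * A) ^ 2 * hs2
    have e4 : 0 ≤ (Real.cos (k * τ) - Real.cos (k * A)) ^ 2 +
        (Real.sin (k * τ) - Real.sin (k * A) * c0) ^ 2 + (Real.sin (k * A) * s0) ^ 2 := by
      positivity
    linarith
  have hM2 : -1 ≤ M := by
    have e3 : (Real.cos (k * τ) + Real.cos (k * A)) ^ 2 +
        (Real.sin (k * τ) + Real.sin (k * A) * c0) ^ 2 + (Real.sin (k * A) * s0) ^ 2 =
        2 + 2 * M := by
      rw [hM]; linear_combination pτ + pA + Real.sin (k * A) ^ 2 * hs2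
    have e4 : 0 ≤ (Real.cos (k * τ) + Real.cos (k * A)) ^ 2 +
        (Real.sin (k * τ) + Real.sin (k * A) * c0) ^ 2 + (Real.sin (k * A) * s0) ^ 2 := by
      positivity
    linarith
  have hcos : M ≤ Real.cos (k * dist (γ τ) z) := by
    have h1 : k * dist (γ τ) z ≤ Real.arccos M := by
      have := (le_div_iff₀ hk0).1 key
      linarith [mul_comm k (dist (γ τ) z)]
    calc M = Real.cos (Real.arccos M) := (Real.cos_arccos hM2 hM1).symm
      _ ≤ _ := Real.cos_le_cos_of_nonneg_of_le_pi (by positivity) (Real.arccos_le_pi _) h1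
  have hfin : Real.sin (k * D) * M = Real.sin (k * (D - τ)) * Real.cos (k * A) +
      Real.sin (k * τ) * Real.cos (k * B) := by
    rw [hM, show k * (D - τ) = k * D - k * τ by ring, Real.sin_sub]
    linear_combination Real.sin (k * τ) * hc0'
  rw [← hfin]
  exact mul_le_mul_of_nonneg_left hcos sD.le

/-- Stewart inequality, zero curvature. -/
theorem stewart_zero {X : Type*} [MetricSpace X] (h : IsCAT 0 X)
    {p q z : X} {γ : ℝ → X} (hγ : IsGeodFromTo γ p q)
    {τ : ℝ} (hτ : τ ∈ Icc (0:ℝ) (dist p q)) :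
    dist p q * dist (γ τ) z ^ 2 ≤
      (dist p q - τ) * dist p z ^ 2 + τ * dist q z ^ 2 - τ * (dist p q - τ) * dist p q := by
  set D := dist p q with hD
  set A := dist p z with hA
  set B := dist q z with hB
  have hDn : 0 ≤ D := dist_nonneg
  have hAn : 0 ≤ A := dist_nonneg
  have hBn : 0 ≤ B := dist_nonneg
  have t1 : D ≤ A + B := by
    rw [hD, hA, hB, dist_comm q z]; exact dist_triangle _ _ _
  have t2 : A ≤ D + B := dist_triangle _ _ _
  have t3 : B ≤ D + A := by
    rw [hD, hA, hB, dist_comm p q]; exact dist_triangle _ _ _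
  have hτD : τ ≤ D := hτ.2
  have hτ0 : 0 ≤ τ := hτ.1
  rcases hDn.eq_or_lt with hD0 | hD0
  · have hτ' : τ = 0 := le_antisymm (hD0 ▸ hτD) hτ0
    subst hτ'
    rw [← hD0]
    simp
  rcases hAn.eq_or_lt with hA0 | hA0
  · have hpz : p = z := dist_eq_zero.1 (hA0 ▸ hA.symm)
    have hBD : B = D := by rw [hB, hD, ← hpz, dist_comm]
    rw [hBD, ← hpz, hγ.dist_left hτ, ← hA0]
    apply le_of_eq
    ring
  obtain ⟨γ₂, hγ₂⟩ := h.geod p z (Or.inl le_rfl)
  obtain ⟨γ₃, hγ₃⟩ := h.geod q z (Or.inl le_rfl)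
  obtain ⟨c0, hc0⟩ : ∃ c0 : ℝ, c0 = (A ^ 2 + D ^ 2 - B ^ 2) / (2 * A * D) := ⟨_, rfl⟩
  have hc0' : 2 * A * D * c0 = A ^ 2 + D ^ 2 - B ^ 2 := by
    rw [hc0]; field_simp
  have hc1 : c0 ≤ 1 := by
    rw [hc0, div_le_one (by positivity)]
    have := mul_nonneg (sub_nonneg.2 t3) (sub_nonneg.2 t2)
    have := mul_nonneg (show 0 ≤ B - (A - D) by linarith) (show 0 ≤ B + (A - D) by linarith)
    linarith
  have hc2 : -1 ≤ c0 := by
    rw [hc0, le_div_iff₀ (by positivity)]
    have := mul_nonneg (show 0 ≤ D + A - B by linarith) (show 0 ≤ D + A + B by linarith)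
    linarith
  obtain ⟨s0, hs0⟩ : ∃ s0 : ℝ, s0 = √(1 - c0 ^ 2) := ⟨_, rfl⟩
  have hs2 : s0 ^ 2 = 1 - c0 ^ 2 := by
    rw [hs0, Real.sq_sqrt]; have := mul_nonneg (sub_nonneg.2 hc1) (sub_nonneg.2 hc2); linarith
  have md : ∀ v w : Fin 3 → ℝ, modelDist 0 v w = √((v 1 - w 1) ^ 2 + (v 2 - w 2) ^ 2) := by
    intro v w; simp [modelDist]
  have key := h.comp p q z γ γ₂ γ₃ hγ hγ₂ hγ₃ (Or.inl le_rfl) τ hτ A ⟨hAn, le_rfl⟩
    ![1, 0, 0] (Or.inr (Or.inl ⟨rfl, by simp⟩))
    ![1, D, 0] (Or.inr (Or.inl ⟨rfl, by simp⟩))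
    ![1, A * c0, A * s0] (Or.inr (Or.inl ⟨rfl, by simp⟩))
    ![1, τ, 0] (Or.inr (Or.inl ⟨rfl, by simp⟩))
    ![1, A * c0, A * s0] (Or.inr (Or.inl ⟨rfl, by simp⟩))
    (by rw [md]; simp only [Matrix.cons_val_one, Matrix.cons_val]
        rw [show ((0:ℝ) - D) ^ 2 + (0 - 0) ^ 2 = D ^ 2 by ring, Real.sqrt_sq hDn])
    (by rw [md]; simp only [Matrix.cons_val_one, Matrix.cons_val]
        rw [show (D - A * c0) ^ 2 + (0 - A * s0) ^ 2 = B ^ 2 by
          linear_combination A ^ 2 * hs2 - hc0', Real.sqrt_sq hBn])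
    (by rw [md]; simp only [Matrix.cons_val_one, Matrix.cons_val]
        rw [show (0 - A * c0) ^ 2 + (0 - A * s0) ^ 2 = A ^ 2 by
          linear_combination A ^ 2 * hs2, Real.sqrt_sq hAn])
    (by rw [md]; simp only [Matrix.cons_val_one, Matrix.cons_val]
        rw [show ((0:ℝ) - τ) ^ 2 + (0 - 0) ^ 2 = τ ^ 2 by ring, Real.sqrt_sq hτ0])
    (by rw [md]; simp only [Matrix.cons_val_one, Matrix.cons_val]
        rw [show (τ - D) ^ 2 + (0 - 0) ^ 2 = (D - τ) ^ 2 by ring, Real.sqrt_sq (by linarith)])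
    (by rw [md]; simp only [Matrix.cons_val_one, Matrix.cons_val]
        rw [show (0 - A * c0) ^ 2 + (0 - A * s0) ^ 2 = A ^ 2 by
          linear_combination A ^ 2 * hs2, Real.sqrt_sq hAn])
    (by rw [md]; simp [hA])
  rw [show γ₂ A = z from hγ₂.2.1, md] at key
  simp only [Matrix.cons_val_one, Matrix.cons_val] at key
  have key2 : dist (γ τ) z ^ 2 ≤ (τ - A * c0) ^ 2 + (0 - A * s0) ^ 2 := by
    exact (Real.le_sqrt dist_nonneg (by positivity)).1 key
  have : (τ - A * c0) ^ 2 + (0 - A * s0) ^ 2 = τ ^ 2 - 2 * τ * A * c0 + A ^ 2 := by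
    linear_combination A ^ 2 * hs2
  rw [this] at key2
  refine (mul_le_mul_of_nonneg_left key2 hDn).trans (le_of_eq ?_)
  linear_combination (-τ) * hc0'

/-- Stewart inequality, negative curvature. -/
theorem stewart_neg {κ : ℝ} (hκ : κ < 0) {X : Type*} [MetricSpace X] (h : IsCAT κ X)
    {p q z : X} {γ : ℝ → X} (hγ : IsGeodFromTo γ p q)
    {τ : ℝ} (hτ : τ ∈ Icc (0:ℝ) (dist p q)) :
    Real.sinh (√(-κ) * dist p q) * Real.cosh (√(-κ) * dist (γ τ) z) ≤
    Real.sinh (√(-κ) * (dist p q - τ)) * Real.cosh (√(-κ) * dist p z) +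
      Real.sinh (√(-κ) * τ) * Real.cosh (√(-κ) * dist q z) := by
  set k := √(-κ) with hk
  have hk0 : 0 < k := Real.sqrt_pos.2 (by linarith)
  set D := dist p q with hD
  set A := dist p z with hA
  set B := dist q z with hB
  have hDn : 0 ≤ D := dist_nonneg
  have hAn : 0 ≤ A := dist_nonneg
  have hBn : 0 ≤ B := dist_nonneg
  have t1 : D ≤ A + B := by
    rw [hD, hA, hB, dist_comm q z]; exact dist_triangle _ _ _
  have t2 : A ≤ D + B := dist_triangle _ _ _
  have t3 : B ≤ D + A := by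
    rw [hD, hA, hB, dist_comm p q]; exact dist_triangle _ _ _
  have hτD : τ ≤ D := hτ.2
  have hτ0 : 0 ≤ τ := hτ.1
  have hkD0 : 0 ≤ k * D := by positivity
  have hkA0 : 0 ≤ k * A := by positivity
  have hkB0 : 0 ≤ k * B := by positivity
  have hkτ0 : 0 ≤ k * τ := by positivity
  have hkτD : k * τ ≤ k * D := mul_le_mul_of_nonneg_left hτD hk0.le
  rcases hDn.eq_or_lt with hD0 | hD0
  · have hτ' : τ = 0 := le_antisymm (hD0 ▸ hτD) hτ0
    subst hτ'
    rw [← hD0]
    simp
  rcases hAn.eq_or_lt with hA0 | hA0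
  · have hpz : p = z := dist_eq_zero.1 (hA0 ▸ hA.symm)
    have hBD : B = D := by rw [hB, hD, ← hpz, dist_comm]
    rw [hBD, ← hpz, hγ.dist_left hτ, ← hA0]
    have : Real.sinh (k * (D - τ)) = Real.sinh (k * D) * Real.cosh (k * τ) -
        Real.cosh (k * D) * Real.sinh (k * τ) := by
      rw [mul_sub, Real.sinh_sub]
    rw [this]
    simp
    linarith
  obtain ⟨γ₂, hγ₂⟩ := h.geod p z (Or.inl hκ.le)
  obtain ⟨γ₃, hγ₃⟩ := h.geod q z (Or.inl hκ.le)
  have sD : 0 < Real.sinh (k * D) := Real.sinh_pos_iff.2 (by positivity)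
  have sA : 0 < Real.sinh (k * A) := Real.sinh_pos_iff.2 (by positivity)
  have e1 : Real.cosh (k * B) ≤ Real.cosh (k * D) * Real.cosh (k * A) +
      Real.sinh (k * D) * Real.sinh (k * A) := by
    rw [← Real.cosh_add, Real.cosh_le_cosh, abs_of_nonneg hkB0, abs_of_nonneg (by positivity)]
    have := mul_le_mul_of_nonneg_left t3 hk0.le
    linarith
  have e2 : Real.cosh (k * D) * Real.cosh (k * A) - Real.sinh (k * D) * Real.sinh (k * A) ≤
      Real.cosh (k * B) := by
    rw [← Real.cosh_sub, Real.cosh_le_cosh, abs_of_nonneg hkB0, abs_le]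
    have h1 := mul_le_mul_of_nonneg_left t2 hk0.le
    have h2 := mul_le_mul_of_nonneg_left t1 hk0.le
    constructor <;> linarith
  obtain ⟨c0, hc0⟩ : ∃ c0 : ℝ, c0 = (Real.cosh (k * D) * Real.cosh (k * A) - Real.cosh (k * B)) /
    (Real.sinh (k * D) * Real.sinh (k * A)) := ⟨_, rfl⟩
  have hc0' : Real.sinh (k * D) * Real.sinh (k * A) * c0 =
      Real.cosh (k * D) * Real.cosh (k * A) - Real.cosh (k * B) := by
    rw [hc0]; field_simp
  have hc1 : c0 ≤ 1 := by
    rw [hc0, div_le_one (by positivity)]; linarith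
  have hc2 : -1 ≤ c0 := by
    rw [hc0, le_div_iff₀ (by positivity)]; linarith
  obtain ⟨s0, hs0⟩ : ∃ s0 : ℝ, s0 = √(1 - c0 ^ 2) := ⟨_, rfl⟩
  have hs2 : s0 ^ 2 = 1 - c0 ^ 2 := by
    rw [hs0, Real.sq_sqrt]; have := mul_nonneg (sub_nonneg.2 hc1) (sub_nonneg.2 hc2); linarith
  have pD := Real.cosh_sq (k * D)
  have pA := Real.cosh_sq (k * A)
  have pτ := Real.cosh_sq (k * τ)
  have cD := Real.cosh_pos (k * D)
  have cA := Real.cosh_pos (k * A)
  have cτ := Real.cosh_pos (k * τ)
  have hkne : k ≠ 0 := hk0.ne'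
  have hn : ¬ 0 < κ := by linarith
  have hn' : κ ≠ 0 := by linarith
  have arc : ∀ x : ℝ, 0 ≤ x → Real.arcosh (Real.cosh x) = x := fun x h0 =>
    Real.arcosh_cosh h0
  have key := h.comp p q z γ γ₂ γ₃ hγ hγ₂ hγ₃ (Or.inl hκ.le) τ hτ A ⟨hAn, le_rfl⟩
    ![1, 0, 0] (Or.inr (Or.inr ⟨hκ, by simp, by simp⟩))
    ![Real.cosh (k * D), Real.sinh (k * D), 0]
      (Or.inr (Or.inr ⟨hκ, by simpa using cD, by simp⟩))
    ![Real.cosh (k * A), Real.sinh (k * A) * c0, Real.sinh (k * A) * s0]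
      (Or.inr (Or.inr ⟨hκ, by simpa using cA, by
        simp; linear_combination pA - Real.sinh (k * A) ^ 2 * hs2⟩))
    ![Real.cosh (k * τ), Real.sinh (k * τ), 0]
      (Or.inr (Or.inr ⟨hκ, by simpa using cτ, by simp⟩))
    ![Real.cosh (k * A), Real.sinh (k * A) * c0, Real.sinh (k * A) * s0]
      (Or.inr (Or.inr ⟨hκ, by simpa using cA, by
        simp; linear_combination pA - Real.sinh (k * A) ^ 2 * hs2⟩))
    (by
      simp only [modelDist, if_neg hn, if_neg hn', ← hk]
      simp only [Matrix.cons_val_zero, Matrix.cons_val_one, Matrix.cons_val]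
      rw [show (1:ℝ) * Real.cosh (k * D) - 0 * Real.sinh (k * D) - 0 * 0 = Real.cosh (k * D)
        by ring, arc _ hkD0]
      field_simp
      exact hD)
    (by
      simp only [modelDist, if_neg hn, if_neg hn', ← hk]
      simp only [Matrix.cons_val_zero, Matrix.cons_val_one, Matrix.cons_val]
      rw [show Real.cosh (k * D) * Real.cosh (k * A) - Real.sinh (k * D) *
        (Real.sinh (k * A) * c0) - 0 * (Real.sinh (k * A) * s0) = Real.cosh (k * B) by linarith,
        arc _ hkB0]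
      field_simp
      exact hB)
    (by
      simp only [modelDist, if_neg hn, if_neg hn', ← hk]
      simp only [Matrix.cons_val_zero, Matrix.cons_val_one, Matrix.cons_val]
      rw [show (1:ℝ) * Real.cosh (k * A) - 0 * (Real.sinh (k * A) * c0) -
        0 * (Real.sinh (k * A) * s0) = Real.cosh (k * A) by ring,
        arc _ hkA0]
      field_simp
      exact hA)
    (by
      simp only [modelDist, if_neg hn, if_neg hn', ← hk]
      simp only [Matrix.cons_val_zero, Matrix.cons_val_one, Matrix.cons_val]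
      rw [show (1:ℝ) * Real.cosh (k * τ) - 0 * Real.sinh (k * τ) - 0 * 0 = Real.cosh (k * τ)
        by ring, arc _ hkτ0]
      field_simp)
    (by
      simp only [modelDist, if_neg hn, if_neg hn', ← hk]
      simp only [Matrix.cons_val_zero, Matrix.cons_val_one, Matrix.cons_val]
      rw [show Real.cosh (k * τ) * Real.cosh (k * D) - Real.sinh (k * τ) * Real.sinh (k * D) -
        0 * 0 = Real.cosh (k * D - k * τ) by rw [Real.cosh_sub]; ring,
        arc _ (by linarith)]
      field_simp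
      rw [hD])
    (by
      simp only [modelDist, if_neg hn, if_neg hn', ← hk]
      simp only [Matrix.cons_val_zero, Matrix.cons_val_one, Matrix.cons_val]
      rw [show (1:ℝ) * Real.cosh (k * A) - 0 * (Real.sinh (k * A) * c0) -
        0 * (Real.sinh (k * A) * s0) = Real.cosh (k * A) by ring,
        arc _ hkA0]
      field_simp)
    (by
      simp only [modelDist, if_neg hn, if_neg hn', ← hk]
      simp only [Matrix.cons_val_zero, Matrix.cons_val_one, Matrix.cons_val]
      rw [show Real.cosh (k * A) * Real.cosh (k * A) -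
        Real.sinh (k * A) * c0 * (Real.sinh (k * A) * c0)
        - Real.sinh (k * A) * s0 * (Real.sinh (k * A) * s0) = 1 by
        linear_combination pA - Real.sinh (k * A) ^ 2 * hs2]
      rw [← Real.cosh_zero, arc _ le_rfl, ← hA]
      simp)
  rw [show γ₂ A = z from hγ₂.2.1] at key
  simp only [modelDist, if_neg hn, if_neg hn', ← hk] at key
  simp only [Matrix.cons_val_zero, Matrix.cons_val_one, Matrix.cons_val] at key
  set M := Real.cosh (k * τ) * Real.cosh (k * A) - Real.sinh (k * τ) * (Real.sinh (k * A) * c0) -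
    0 * (Real.sinh (k * A) * s0) with hM
  have sτ : 0 ≤ Real.sinh (k * τ) := Real.sinh_nonneg_iff.2 hkτ0
  have hM1 : 1 ≤ M := by
    have h1 : Real.cosh (k * τ - k * A) ≤ M := by
      rw [Real.cosh_sub, hM]
      have := mul_nonneg (mul_nonneg sτ sA.le) (sub_nonneg.2 hc1)
      linarith
    exact (Real.one_le_cosh _).trans h1
  have hcos : Real.cosh (k * dist (γ τ) z) ≤ M := by
    have h1 : k * dist (γ τ) z ≤ Real.arcosh M := by
      have := (le_div_iff₀ hk0).1 key
      linarith [mul_comm k (dist (γ τ) z)]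
    calc Real.cosh (k * dist (γ τ) z) ≤ Real.cosh (Real.arcosh M) := by
          rw [Real.cosh_le_cosh, abs_of_nonneg (by positivity)]
          exact h1.trans (le_abs_self _)
      _ = M := Real.cosh_arcosh hM1
  have hfin : Real.sinh (k * D) * M = Real.sinh (k * (D - τ)) * Real.cosh (k * A) +
      Real.sinh (k * τ) * Real.cosh (k * B) := by
    rw [hM, show k * (D - τ) = k * D - k * τ by ring, Real.sinh_sub]
    linear_combination (-Real.sinh (k * τ)) * hc0'
  rw [← hfin]
  exact mul_le_mul_of_nonneg_left hcos sD.le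

end MP629748

end part0

section part1

/-!
P14-R1: the (almost) CN inequality in small balls of CAT spaces.
-/

open Set Filter Topology Metric

namespace MP629748

namespace CatUC

universe u

/-! ### A maximum principle for midpoint convex functions -/

theorem nonpos_of_midpoint {g : ℝ → ℝ} (hg : ContinuousOn g (Icc 0 1)) (h0 : g 0 ≤ 0)
    (h1 : g 1 ≤ 0)
    (hm : ∀ s ∈ Icc (0:ℝ) 1, ∀ t ∈ Icc (0:ℝ) 1, g ((s + t) / 2) ≤ (g s + g t) / 2) :
    ∀ t ∈ Icc (0:ℝ) 1, g t ≤ 0 := by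
  obtain ⟨m, hmI, hmax⟩ := isCompact_Icc.exists_isMaxOn (nonempty_Icc.2 zero_le_one) hg
  by_contra hcon
  push Not at hcon
  obtain ⟨t1, ht1, hpos⟩ := hcon
  have hM : 0 < g m := lt_of_lt_of_le hpos (hmax ht1)
  set S : Set ℝ := {t | t ∈ Icc (0:ℝ) 1 ∧ g t = g m} with hS
  have hScl : IsClosed S := by
    have : S = Icc (0:ℝ) 1 ∩ g ⁻¹' {g m} := by
      ext t; simp [hS]
    rw [this]
    exact hg.preimage_isClosed_of_isClosed isClosed_Icc isClosed_singleton
  have hSne : S.Nonempty := ⟨m, hmI, rfl⟩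
  have hSbd : BddBelow S := ⟨0, fun t ht => ht.1.1⟩
  have ht0 : sInf S ∈ S := hScl.csInf_mem hSne hSbd
  set t0 := sInf S with ht0def
  obtain ⟨⟨ht00, ht01⟩, hgt0⟩ := ht0
  have hne0 : t0 ≠ 0 := by
    intro h; rw [h] at hgt0; linarith
  have hne1 : t0 ≠ 1 := by
    intro h; rw [h] at hgt0; linarith
  have hlt0 : 0 < t0 := lt_of_le_of_ne ht00 (Ne.symm hne0)
  have hlt1 : t0 < 1 := lt_of_le_of_ne ht01 hne1
  set δ := min t0 (1 - t0) with hδ
  have hδ0 : 0 < δ := lt_min hlt0 (by linarith)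
  have hδ1 : δ ≤ t0 := min_le_left _ _
  have hδ2 : δ ≤ 1 - t0 := min_le_right _ _
  have ha : t0 - δ ∈ Icc (0:ℝ) 1 := ⟨by linarith, by linarith⟩
  have hb : t0 + δ ∈ Icc (0:ℝ) 1 := ⟨by linarith, by linarith⟩
  have h3 := hm _ ha _ hb
  have h4 : (t0 - δ + (t0 + δ)) / 2 = t0 := by ring
  rw [h4, hgt0] at h3
  have h5 : g (t0 + δ) ≤ g m := hmax hb
  have h6 : g (t0 - δ) ≤ g m := hmax ha
  have h7 : g (t0 - δ) ≠ g m := by
    intro h
    have : t0 - δ ∈ S := ⟨ha, h⟩
    have := csInf_le hSbd this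
    linarith
  have h8 : g (t0 - δ) < g m := lt_of_le_of_ne h6 h7
  linarith

/-! ### The abstract comparison data -/

/-- Comparison data: geodesics exist and the distance from a point to a point of a geodesic is
bounded by an explicit function `R` of the side lengths. -/
structure Cmp (X : Type u) [MetricSpace X] (c D : ℝ) (R : ℝ → ℝ → ℝ → ℝ → ℝ) : Prop where
  pos : 0 < D
  clt : c < 1
  geod : ∀ x y : X, dist x y ≤ D → ∃ γ : ℝ → X, IsGeodFromTo γ x y
  est : ∀ (a b z : X) (γ : ℝ → X), IsGeodFromTo γ a b → 0 < dist a b → dist a b ≤ D →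
    dist a z ≤ D → dist b z ≤ D → ∀ s ∈ Icc (0:ℝ) (dist a b),
      dist (γ s) z ≤ R (dist a b) s (dist a z) (dist b z)
  cont : ∀ l s : ℝ, 0 < l → l ≤ D → s ∈ Icc (0:ℝ) l →
    Tendsto (fun p : ℝ × ℝ × ℝ × ℝ => R p.1 p.2.1 p.2.2.1 p.2.2.2) (𝓝 (l, s, s, l - s)) (𝓝 0)
  mid : ∀ l α β : ℝ, 0 < l → l ≤ D → 0 ≤ α → α ≤ D → 0 ≤ β → β ≤ D → |α - β| ≤ l → l ≤ α + β →
    0 ≤ R l (l / 2) α β → R l (l / 2) α β ^ 2 ≤ (α ^ 2 + β ^ 2) / 2 - c / 4 * l ^ 2

variable {X : Type u} [MetricSpace X] {c D : ℝ} {R : ℝ → ℝ → ℝ → ℝ → ℝ}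

theorem geod_sub {γ : ℝ → X} {x y : X} (h : IsGeodFromTo γ x y) {s t : ℝ} (hs : 0 ≤ s)
    (hst : s ≤ t) (ht : t ≤ dist x y) :
    IsGeodFromTo (fun u => γ (s + u)) (γ s) (γ t) := by
  have hd : dist (γ s) (γ t) = t - s := by
    rw [h.2.2 s ⟨hs, hst.trans ht⟩ t ⟨hs.trans hst, ht⟩, abs_sub_comm, abs_of_nonneg (by linarith)]
  refine ⟨by simp, by rw [hd]; simp, ?_⟩
  rw [hd]
  intro a ha b hb
  have := h.2.2 (s + a) ⟨by linarith [ha.1], by linarith [ha.2]⟩ (s + b)
    ⟨by linarith [hb.1], by linarith [hb.2]⟩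
  rw [this]
  congr 1
  ring

theorem Cmp.midpoint (H : Cmp X c D R) {a b z : X} {γ : ℝ → X} (h : IsGeodFromTo γ a b)
    (hab : dist a b ≤ D) (haz : dist a z ≤ D) (hbz : dist b z ≤ D) :
    dist (γ (dist a b / 2)) z ^ 2 ≤ (dist a z ^ 2 + dist b z ^ 2) / 2 - c / 4 * dist a b ^ 2 := by
  rcases eq_or_lt_of_le (dist_nonneg (x := a) (y := b)) with h0 | h0
  · have hab' : a = b := dist_eq_zero.1 h0.symm
    subst hab'
    have hg := h.1
    rw [← h0]
    norm_num
    rw [hg]
  · have h1 := H.est a b z γ h h0 hab haz hbz (dist a b / 2) ⟨by linarith, by linarith⟩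
    have h2 := H.mid (dist a b) (dist a z) (dist b z) h0 hab dist_nonneg haz dist_nonneg hbz
      (by
        rw [abs_le]
        constructor
        · have := dist_triangle b a z
          rw [dist_comm b a] at this; linarith
        · have := dist_triangle a b z
          linarith)
      (by
        have := dist_triangle a z b
        rw [dist_comm z b] at this; linarith)
      (dist_nonneg.trans h1)
    have h3 : dist (γ (dist a b / 2)) z ^ 2 ≤
        R (dist a b) (dist a b / 2) (dist a z) (dist b z) ^ 2 :=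
      pow_le_pow_left₀ dist_nonneg h1 2
    linarith

theorem Cmp.cn (H : Cmp X c D R) {x y z : X} {γ : ℝ → X} (h : IsGeodFromTo γ x y)
    (hxy : dist x y ≤ D / 2) (hxz : dist x z ≤ D / 2) {t : ℝ} (ht : t ∈ Icc (0:ℝ) 1) :
    dist (γ (t * dist x y)) z ^ 2 ≤
      (1 - t) * dist x z ^ 2 + t * dist y z ^ 2 - c * (t * (1 - t)) * dist x y ^ 2 := by
  set l := dist x y with hl
  have hl0 : 0 ≤ l := dist_nonneg
  have hD := H.pos
  have hmem : ∀ t ∈ Icc (0:ℝ) 1, t * l ∈ Icc (0:ℝ) l := fun t ht =>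
    ⟨mul_nonneg ht.1 hl0, by nlinarith [ht.2]⟩
  have hγc : ContinuousOn γ (Icc 0 l) := by
    refine LipschitzOnWith.continuousOn (K := 1) (LipschitzOnWith.of_dist_le_mul ?_)
    intro a ha b hb
    rw [h.2.2 a ha b hb, Real.dist_eq]
    simp
  set g : ℝ → ℝ := fun t => dist (γ (t * l)) z ^ 2 -
    ((1 - t) * dist x z ^ 2 + t * dist y z ^ 2 - c * (t * (1 - t)) * l ^ 2) with hg
  have hgc : ContinuousOn g (Icc 0 1) := by
    have h1 : ContinuousOn (fun t : ℝ => γ (t * l)) (Icc 0 1) :=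
      hγc.comp (by fun_prop) hmem
    have h2 : ContinuousOn (fun t : ℝ => dist (γ (t * l)) z ^ 2) (Icc 0 1) :=
      (continuous_dist.comp_continuousOn (h1.prodMk continuousOn_const)).pow 2
    exact h2.sub (by fun_prop)
  have hg0 : g 0 ≤ 0 := by
    simp [hg, h.1]
  have hg1 : g 1 ≤ 0 := by
    have : γ l = y := h.2.1
    simp [hg, this]
  have hgm : ∀ s ∈ Icc (0:ℝ) 1, ∀ t ∈ Icc (0:ℝ) 1, g ((s + t) / 2) ≤ (g s + g t) / 2 := by
    have key : ∀ s ∈ Icc (0:ℝ) 1, ∀ t ∈ Icc (0:ℝ) 1, s ≤ t → g ((s + t) / 2) ≤ (g s + g t) / 2 := by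
      intro s hs t ht hst
      have hsl := hmem s hs
      have htl := hmem t ht
      have hstl : s * l ≤ t * l := mul_le_mul_of_nonneg_right hst hl0
      have hsub := geod_sub h hsl.1 hstl htl.2
      have hd : dist (γ (s * l)) (γ (t * l)) = (t - s) * l := by
        rw [h.2.2 _ hsl _ htl, abs_sub_comm, abs_of_nonneg (by linarith)]
        ring
      have hz : ∀ u ∈ Icc (0:ℝ) l, dist (γ u) z ≤ D := by
        intro u hu
        have h1 : dist (γ u) x ≤ D / 2 := by
          have := h.2.2 u hu 0 ⟨le_refl _, hl0⟩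
          rw [h.1] at this
          rw [this]
          simp only [sub_zero]
          rw [abs_of_nonneg hu.1]
          exact hu.2.trans hxy
        have := dist_triangle (γ u) x z
        linarith
      have hm := H.midpoint hsub (z := z)
        (by rw [hd]; nlinarith [hs.1, hs.2, ht.1, ht.2]) (hz _ hsl) (hz _ htl)
      rw [hd] at hm
      have e1 : s * l + (t - s) * l / 2 = (s + t) / 2 * l := by ring
      simp only [e1] at hm
      simp only [hg]
      nlinarith [hm]
    intro s hs t ht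
    rcases le_total s t with hst | hst
    · exact key s hs t ht hst
    · have := key t ht s hs hst
      rw [add_comm s t, add_comm (g s)]
      exact this
  have := nonpos_of_midpoint hgc hg0 hg1 hgm t ht
  simp only [hg] at this
  linarith

/-! ### Elementary estimates -/

theorem sin_le_self' {x : ℝ} (hx : 0 ≤ x) : Real.sin x ≤ x := by
  rcases eq_or_lt_of_le hx with h | h
  · subst h; simp
  · exact (Real.sin_lt h).le

theorem sin_ge' {x e : ℝ} (hx : 0 ≤ x) (hxe : x ≤ e) : x * (1 - e ^ 2 / 6) ≤ Real.sin x := by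
  rcases eq_or_lt_of_le hx with h | h
  · subst h; simp
  · have h1 := (Real.sin_gt_sub_cube h).le
    have h2 : x ^ 2 ≤ e ^ 2 := pow_le_pow_left₀ hx hxe 2
    nlinarith

theorem cos_diff_eq (u v : ℝ) :
    Real.cos u - Real.cos v = 2 * Real.sin ((u + v) / 2) * Real.sin ((v - u) / 2) := by
  rw [Real.cos_sub_cos]
  have e : (u - v) / 2 = -((v - u) / 2) := by ring
  rw [e, Real.sin_neg]
  ring

theorem cos_diff_le {u v : ℝ} (hu : 0 ≤ u) (huv : u ≤ v) (hv : v ≤ 1) :
    Real.cos u - Real.cos v ≤ (v ^ 2 - u ^ 2) / 2 := by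
  rw [cos_diff_eq]
  have ha : 0 ≤ (u + v) / 2 := by linarith
  have hb : 0 ≤ (v - u) / 2 := by linarith
  have h1 := sin_le_self' ha
  have h2 := sin_le_self' hb
  have h3 : 0 ≤ Real.sin ((u + v) / 2) :=
    Real.sin_nonneg_of_nonneg_of_le_pi ha (by linarith [Real.pi_gt_three])
  have h4 : 0 ≤ Real.sin ((v - u) / 2) :=
    Real.sin_nonneg_of_nonneg_of_le_pi hb (by linarith [Real.pi_gt_three])
  have h5 := mul_le_mul h1 h2 h4 ha
  nlinarith

theorem le_cos_diff {u v e : ℝ} (hu : 0 ≤ u) (huv : u ≤ v) (hve : v ≤ e) (he : e ≤ 1) :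
    (1 - e ^ 2 / 6) ^ 2 * ((v ^ 2 - u ^ 2) / 2) ≤ Real.cos u - Real.cos v := by
  rw [cos_diff_eq]
  have ha : 0 ≤ (u + v) / 2 := by linarith
  have hb : 0 ≤ (v - u) / 2 := by linarith
  have he0 : 0 ≤ e := by linarith
  have h1 := sin_ge' ha (show (u + v) / 2 ≤ e by linarith)
  have h2 := sin_ge' hb (show (v - u) / 2 ≤ e by linarith)
  have h0 : 0 ≤ 1 - e ^ 2 / 6 := by nlinarith
  have h5 := mul_le_mul h1 h2 (mul_nonneg hb h0) ((mul_nonneg ha h0).trans h1)
  nlinarith

/-- The spherical midpoint inequality. -/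
theorem cos_mid {c e p q h w : ℝ} (he0 : 0 ≤ e) (he : e ≤ 1) (hc0 : 0 ≤ c) (hc1 : c ≤ 1)
    (hce : c ≤ (1 - e ^ 2 / 2) * (1 - e ^ 2 / 6) ^ 2)
    (hq : 0 ≤ q) (hqh : q ≤ h) (hhp : h ≤ p) (hpe : p ≤ e) (hw : 0 ≤ w)
    (hwe : w ^ 2 = p ^ 2 + q ^ 2 - c * h ^ 2) :
    Real.cos w * Real.cos h ≤ Real.cos p * Real.cos q := by
  have hpi := Real.pi_gt_three
  have hh0 : 0 ≤ h := hq.trans hqh
  have hp0 : 0 ≤ p := hh0.trans hhp
  have hcosh : 0 ≤ Real.cos h := Real.cos_nonneg_of_neg_pi_div_two_le_of_le (by linarith) (by linarith)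
  have hcosp : 0 ≤ Real.cos p := Real.cos_nonneg_of_neg_pi_div_two_le_of_le (by linarith) (by linarith)
  have hcosq : 0 ≤ Real.cos q := Real.cos_nonneg_of_neg_pi_div_two_le_of_le (by linarith) (by linarith)
  have hcq : Real.cos h ≤ Real.cos q := Real.cos_le_cos_of_nonneg_of_le_pi hq (by linarith) hqh
  rcases le_or_gt p w with hpw | hpw
  · have hwpi : w ≤ Real.pi := by
      have h1 : w ^ 2 ≤ 2 := by nlinarith [mul_nonneg hc0 (sq_nonneg h)]
      nlinarith
    have hcw : Real.cos w ≤ Real.cos p := Real.cos_le_cos_of_nonneg_of_le_pi hp0 hwpi hpw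
    calc Real.cos w * Real.cos h ≤ Real.cos p * Real.cos h := mul_le_mul_of_nonneg_right hcw hcosh
      _ ≤ Real.cos p * Real.cos q := mul_le_mul_of_nonneg_left hcq hcosp
  · have hA := cos_diff_le hw hpw.le (hpe.trans he)
    have hB := le_cos_diff hq hqh (hhp.trans hpe) he
    have hcw : 1 - e ^ 2 / 2 ≤ Real.cos w := by
      have := Real.one_sub_sq_div_two_le_cos (x := w)
      nlinarith
    have hcw0 : 0 ≤ Real.cos w := le_trans (by nlinarith) hcw
    have hq1 : Real.cos q ≤ 1 := Real.cos_le_one q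
    have hB' : 0 ≤ Real.cos q - Real.cos h := by linarith
    have hh2 : 0 ≤ h ^ 2 - q ^ 2 := by nlinarith
    have h1 : (1 - e ^ 2 / 2) * ((1 - e ^ 2 / 6) ^ 2 * ((h ^ 2 - q ^ 2) / 2)) ≤
        Real.cos w * (Real.cos q - Real.cos h) :=
      mul_le_mul hcw hB (by positivity) hcw0
    have hA0 : 0 ≤ Real.cos w - Real.cos p := by
      have := Real.cos_le_cos_of_nonneg_of_le_pi hw (by linarith) hpw.le
      linarith
    have h2 : (Real.cos w - Real.cos p) * Real.cos q ≤ (p ^ 2 - w ^ 2) / 2 := by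
      calc (Real.cos w - Real.cos p) * Real.cos q ≤ (Real.cos w - Real.cos p) * 1 :=
            mul_le_mul_of_nonneg_left hq1 hA0
        _ ≤ _ := by linarith
    have h3 : c * ((h ^ 2 - q ^ 2) / 2) ≤
        (1 - e ^ 2 / 2) * ((1 - e ^ 2 / 6) ^ 2 * ((h ^ 2 - q ^ 2) / 2)) := by
      rw [← mul_assoc]
      exact mul_le_mul_of_nonneg_right hce (by positivity)
    have h4 : (p ^ 2 - w ^ 2) / 2 ≤ c * ((h ^ 2 - q ^ 2) / 2) := by
      rw [hwe]
      nlinarith [sq_nonneg q]
    nlinarith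

theorem sinh_le_mul_cosh {x e : ℝ} (hx : 0 ≤ x) (hxe : x ≤ e) :
    Real.sinh x ≤ x * Real.cosh e := by
  have hmono : MonotoneOn (fun y : ℝ => y * Real.cosh y - Real.sinh y) (Ici 0) := by
    apply monotoneOn_of_deriv_nonneg (convex_Ici 0) (by fun_prop) (by fun_prop)
    intro y hy
    rw [interior_Ici] at hy
    have : HasDerivAt (fun y : ℝ => y * Real.cosh y - Real.sinh y)
        (1 * Real.cosh y + y * Real.sinh y - Real.cosh y) y :=
      ((hasDerivAt_id y).mul (Real.hasDerivAt_cosh y)).sub (Real.hasDerivAt_sinh y)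
    rw [this.deriv]
    have h1 : 0 ≤ Real.sinh y := Real.sinh_nonneg_iff.2 (le_of_lt hy)
    have h2 : (0:ℝ) ≤ y := le_of_lt hy
    nlinarith [mul_nonneg h2 h1]
  have h1 := hmono (mem_Ici.2 (le_refl (0:ℝ))) (show x ∈ Ici (0:ℝ) from hx) hx
  simp at h1
  have h2 : Real.cosh x ≤ Real.cosh e := by
    rw [Real.cosh_le_cosh, abs_of_nonneg hx, abs_of_nonneg (hx.trans hxe)]
    exact hxe
  nlinarith [mul_le_mul_of_nonneg_left h2 hx]

theorem cosh_diff_eq (u v : ℝ) :
    Real.cosh v - Real.cosh u = 2 * Real.sinh ((u + v) / 2) * Real.sinh ((v - u) / 2) := by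
  have h1 : Real.cosh v = Real.cosh ((u + v) / 2 + (v - u) / 2) := by congr 1; ring
  have h2 : Real.cosh u = Real.cosh ((u + v) / 2 - (v - u) / 2) := by congr 1; ring
  rw [h1, h2, Real.cosh_add, Real.cosh_sub]
  ring

theorem cosh_diff_le {u v e : ℝ} (hu : 0 ≤ u) (huv : u ≤ v) (hve : v ≤ e) :
    Real.cosh v - Real.cosh u ≤ Real.cosh e ^ 2 * ((v ^ 2 - u ^ 2) / 2) := by
  rw [cosh_diff_eq]
  have ha : 0 ≤ (u + v) / 2 := by linarith
  have hb : 0 ≤ (v - u) / 2 := by linarith
  have h1 := sinh_le_mul_cosh ha (show (u + v) / 2 ≤ e by linarith)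
  have h2 := sinh_le_mul_cosh hb (show (v - u) / 2 ≤ e by linarith)
  have h3 : 0 ≤ Real.sinh ((v - u) / 2) := Real.sinh_nonneg_iff.2 hb
  have h4 : 0 ≤ Real.cosh e := (Real.cosh_pos e).le
  have h5 := mul_le_mul h1 h2 h3 (mul_nonneg ha h4)
  nlinarith

theorem le_cosh_diff {u v : ℝ} (hu : 0 ≤ u) (huv : u ≤ v) :
    (v ^ 2 - u ^ 2) / 2 ≤ Real.cosh v - Real.cosh u := by
  rw [cosh_diff_eq]
  have ha : 0 ≤ (u + v) / 2 := by linarith
  have hb : 0 ≤ (v - u) / 2 := by linarith
  have h1 := Real.self_le_sinh_iff.2 ha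
  have h2 := Real.self_le_sinh_iff.2 hb
  have h5 := mul_le_mul h1 h2 hb (ha.trans h1)
  nlinarith

/-- The hyperbolic midpoint inequality. -/
theorem cosh_mid {c e p q h w : ℝ} (hc1 : c ≤ 1)
    (hce : c * Real.cosh e ^ 2 ≤ 1)
    (hq : 0 ≤ q) (hqh : q ≤ h) (hhp : h ≤ p) (hpe : p ≤ e) (hw : 0 ≤ w)
    (hwe : w ^ 2 = p ^ 2 + q ^ 2 - c * h ^ 2) :
    Real.cosh p * Real.cosh q ≤ Real.cosh w * Real.cosh h := by
  have hh0 : 0 ≤ h := hq.trans hqh
  have hp0 : 0 ≤ p := hh0.trans hhp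
  have hcq : Real.cosh q ≤ Real.cosh h := by
    rw [Real.cosh_le_cosh, abs_of_nonneg hq, abs_of_nonneg hh0]; exact hqh
  have hq0 := Real.cosh_pos q
  have hh0' := Real.cosh_pos h
  have hp0' := Real.cosh_pos p
  have hw0' := Real.cosh_pos w
  rcases le_or_gt p w with hpw | hpw
  · have hcw : Real.cosh p ≤ Real.cosh w := by
      rw [Real.cosh_le_cosh, abs_of_nonneg hp0, abs_of_nonneg hw]; exact hpw
    exact mul_le_mul hcw hcq hq0.le hw0'.le
  · have hA := cosh_diff_le hw hpw.le hpe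
    have hB := le_cosh_diff hq hqh
    have hwq : q ≤ w := by
      have h1 : q ^ 2 ≤ w ^ 2 := by
        rw [hwe]
        nlinarith [mul_nonneg (sub_nonneg.2 hc1) (sq_nonneg h)]
      exact le_of_sq_le_sq h1 hw
    have hcwq : Real.cosh q ≤ Real.cosh w := by
      rw [Real.cosh_le_cosh, abs_of_nonneg hq, abs_of_nonneg hw]; exact hwq
    have hh2 : 0 ≤ h ^ 2 - q ^ 2 := by nlinarith
    have h1 : Real.cosh e ^ 2 * ((p ^ 2 - w ^ 2) / 2) ≤ (h ^ 2 - q ^ 2) / 2 := by
      rw [hwe]
      have h3 : 1 ≤ Real.cosh e ^ 2 := by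
        have := Real.one_le_cosh e
        nlinarith
      nlinarith [mul_le_mul_of_nonneg_right hce (sq_nonneg h), mul_le_mul_of_nonneg_right h3 (sq_nonneg q)]
    have h2 : Real.cosh p - Real.cosh w ≤ Real.cosh h - Real.cosh q := by linarith
    have h3 : 0 ≤ Real.cosh h - Real.cosh q := by linarith
    have h4 : (Real.cosh p - Real.cosh w) * Real.cosh q ≤ (Real.cosh h - Real.cosh q) * Real.cosh q :=
      mul_le_mul_of_nonneg_right h2 hq0.le
    have h5 : (Real.cosh h - Real.cosh q) * Real.cosh q ≤ (Real.cosh h - Real.cosh q) * Real.cosh w :=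
      mul_le_mul_of_nonneg_left hcwq h3
    nlinarith

theorem exists_small {c : ℝ} (hc : c < 1) : ∃ e : ℝ, 0 < e ∧ e ≤ 1 ∧
    c ≤ (1 - e ^ 2 / 2) * (1 - e ^ 2 / 6) ^ 2 ∧ c * Real.cosh e ^ 2 ≤ 1 := by
  have h1 : Tendsto (fun e : ℝ => (1 - e ^ 2 / 2) * (1 - e ^ 2 / 6) ^ 2) (𝓝[>] 0) (𝓝 1) := by
    have : Continuous (fun e : ℝ => (1 - e ^ 2 / 2) * (1 - e ^ 2 / 6) ^ 2) := by fun_prop
    have := (this.tendsto 0).mono_left (nhdsWithin_le_nhds (s := Ioi 0))
    simpa using this
  have h2 : Tendsto (fun e : ℝ => c * Real.cosh e ^ 2) (𝓝[>] 0) (𝓝 c) := by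
    have : Continuous (fun e : ℝ => c * Real.cosh e ^ 2) := by fun_prop
    have := (this.tendsto 0).mono_left (nhdsWithin_le_nhds (s := Ioi 0))
    simpa using this
  have h3 : ∀ᶠ e : ℝ in 𝓝[>] 0, e ∈ Ioc (0:ℝ) 1 := Ioc_mem_nhdsGT one_pos
  obtain ⟨e, he1, he2, he3⟩ := ((h1.eventually (lt_mem_nhds hc)).and
    ((h2.eventually (gt_mem_nhds hc)).and h3)).exists
  exact ⟨e, he3.1, he3.2, he1.le, he2.le⟩


/-! ### Comparison data from the Stewart inequalities -/


/-- the comparison function for positive curvature -/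
noncomputable def Rpos (k : ℝ) (l s α β : ℝ) : ℝ :=
  Real.arccos ((Real.sin (k * (l - s)) * Real.cos (k * α) + Real.sin (k * s) * Real.cos (k * β)) /
    Real.sin (k * l)) / k

/-- the comparison function for zero curvature -/
noncomputable def Rzero (l s α β : ℝ) : ℝ :=
  √(((l - s) * α ^ 2 + s * β ^ 2 - s * (l - s) * l) / l)

/-- the comparison function for negative curvature -/
noncomputable def Rneg (k : ℝ) (l s α β : ℝ) : ℝ :=
  Real.arcosh ((Real.sinh (k * (l - s)) * Real.cosh (k * α) +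
    Real.sinh (k * s) * Real.cosh (k * β)) / Real.sinh (k * l)) / k

/-- the argument of the comparison function for negative curvature -/
noncomputable def Aneg (k : ℝ) (p : ℝ × ℝ × ℝ × ℝ) : ℝ :=
  (Real.sinh (k * (p.1 - p.2.1)) * Real.cosh (k * p.2.2.1) +
    Real.sinh (k * p.2.1) * Real.cosh (k * p.2.2.2)) / Real.sinh (k * p.1)

theorem mid_setup {k l α β c : ℝ} (hk : 0 < k) (hc1 : c ≤ 1) (hl : 0 < l)
    (h1 : |α - β| ≤ l) (h2 : l ≤ α + β) :
    ∃ w : ℝ, 0 ≤ w ∧ w ^ 2 = (k * (α + β) / 2) ^ 2 + |k * (α - β) / 2| ^ 2 - c * (k * l / 2) ^ 2 ∧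
      0 ≤ |k * (α - β) / 2| ∧ |k * (α - β) / 2| ≤ k * l / 2 ∧ k * l / 2 ≤ k * (α + β) / 2 ∧
      (w / k) ^ 2 = (α ^ 2 + β ^ 2) / 2 - c / 4 * l ^ 2 := by
  have hk2 : k * l / 2 ≤ k * (α + β) / 2 := by
    have := mul_le_mul_of_nonneg_left h2 hk.le
    linarith
  have hnn : 0 ≤ (k * (α + β) / 2) ^ 2 + |k * (α - β) / 2| ^ 2 - c * (k * l / 2) ^ 2 := by
    have h3 : (k * l / 2) ^ 2 ≤ (k * (α + β) / 2) ^ 2 :=
      pow_le_pow_left₀ (by positivity) hk2 2
    nlinarith [sq_nonneg (|k * (α - β) / 2|), sq_nonneg (k * l / 2),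
      mul_nonneg (sub_nonneg.2 hc1) (sq_nonneg (k * l / 2))]
  refine ⟨√((k * (α + β) / 2) ^ 2 + |k * (α - β) / 2| ^ 2 - c * (k * l / 2) ^ 2),
    Real.sqrt_nonneg _, Real.sq_sqrt hnn, abs_nonneg _, ?_, hk2, ?_⟩
  · rw [abs_div, abs_mul, abs_of_pos hk, abs_of_pos (zero_lt_two' ℝ)]
    have := mul_le_mul_of_nonneg_left h1 hk.le
    linarith
  · rw [div_pow, Real.sq_sqrt hnn, sq_abs, div_eq_iff (by positivity)]
    ring

theorem cmp_pos {k c D₀ : ℝ} (hk : 0 < k) (hc0 : 0 ≤ c) (hc : c < 1) (hD₀ : 0 < D₀)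
    (hg : ∀ x y : X, dist x y ≤ D₀ → ∃ γ : ℝ → X, IsGeodFromTo γ x y)
    (hst : ∀ (a b z : X) (γ : ℝ → X), IsGeodFromTo γ a b → dist a b ≤ D₀ → dist a z ≤ D₀ →
      dist b z ≤ D₀ → ∀ s ∈ Icc (0:ℝ) (dist a b),
      Real.sin (k * (dist a b - s)) * Real.cos (k * dist a z) +
        Real.sin (k * s) * Real.cos (k * dist b z) ≤
        Real.sin (k * dist a b) * Real.cos (k * dist (γ s) z)) :
    ∃ D, Cmp X c D (Rpos k) := by
  obtain ⟨e, he0, he1, hce, -⟩ := exists_small hc
  have hpi := Real.pi_gt_three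
  set D := min D₀ (e / k) with hDdef
  have hD0 : 0 < D := lt_min hD₀ (by positivity)
  have hDD : D ≤ D₀ := min_le_left _ _
  have hkD : k * D ≤ e := by
    have : D ≤ e / k := min_le_right _ _
    rw [le_div_iff₀ hk] at this
    linarith
  have hle : ∀ {x : ℝ}, x ≤ D → k * x ≤ e := fun hx => (mul_le_mul_of_nonneg_left hx hk.le).trans hkD
  refine ⟨D, hD0, hc, fun x y hxy => hg x y (hxy.trans hDD), ?_, ?_, ?_⟩
  · intro a b z γ hγ hab0 hab haz hbz s hs
    have h1 := hst a b z γ hγ (hab.trans hDD) (haz.trans hDD) (hbz.trans hDD) s hs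
    have hsin : 0 < Real.sin (k * dist a b) :=
      Real.sin_pos_of_pos_of_lt_pi (by positivity) (by linarith [hle hab])
    have h2 : (Real.sin (k * (dist a b - s)) * Real.cos (k * dist a z) +
        Real.sin (k * s) * Real.cos (k * dist b z)) / Real.sin (k * dist a b) ≤
        Real.cos (k * dist (γ s) z) := by
      rw [div_le_iff₀ hsin]
      linarith
    have h3 : dist (γ s) z ≤ 2 * D := by
      have h4 := dist_triangle (γ s) a z
      have h5 : dist (γ s) a = s := by
        have := hγ.2.2 s hs 0 ⟨le_refl _, dist_nonneg⟩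
        rw [hγ.1, sub_zero, abs_of_nonneg hs.1] at this
        exact this
      linarith [hs.2]
    have h6 : k * dist (γ s) z ≤ Real.pi := by
      have := mul_le_mul_of_nonneg_left h3 hk.le
      linarith
    have h7 : Real.arccos (Real.cos (k * dist (γ s) z)) ≤ _ := Real.arccos_le_arccos h2
    rw [Real.arccos_cos (by positivity) h6] at h7
    unfold Rpos
    rw [le_div_iff₀ hk]
    linarith
  · intro l s hl hlD hs
    have hsin : 0 < Real.sin (k * l) :=
      Real.sin_pos_of_pos_of_lt_pi (by positivity) (by linarith [hle hlD])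
    have hval : Rpos k l s s (l - s) = 0 := by
      unfold Rpos
      have : Real.sin (k * (l - s)) * Real.cos (k * s) + Real.sin (k * s) * Real.cos (k * (l - s)) =
          Real.sin (k * l) := by
        have e1 : k * l = k * (l - s) + k * s := by ring
        rw [e1, Real.sin_add]
        ring
      rw [this, div_self hsin.ne', Real.arccos_one, zero_div]
    rw [← hval]
    have hc : ContinuousAt (fun p : ℝ × ℝ × ℝ × ℝ => Rpos k p.1 p.2.1 p.2.2.1 p.2.2.2)
        (l, s, s, l - s) := by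
      unfold Rpos
      refine ContinuousAt.div_const (Real.continuous_arccos.continuousAt.comp
        (ContinuousAt.div ?_ ?_ ?_)) _
      · apply Continuous.continuousAt; fun_prop
      · apply Continuous.continuousAt; fun_prop
      · exact hsin.ne'
    exact hc
  · intro l α β hl hlD hα hαD hβ hβD h1 h2 _
    obtain ⟨w, hw0, hw2, hq0, hqh, hhp, hfin⟩ := mid_setup (c := c) hk hc.le hl h1 h2
    rw [← hfin]
    have hpe : k * (α + β) / 2 ≤ e := by
      have h3 := hle hαD
      have h4 := hle hβD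
      linarith
    have hm := cos_mid he0.le he1 hc0 hc.le hce hq0 hqh hhp hpe hw0 hw2
    rw [Real.cos_abs] at hm
    have hcosh : 0 < Real.cos (k * l / 2) :=
      Real.cos_pos_of_mem_Ioo ⟨by nlinarith, by linarith⟩
    have hsinh : 0 < Real.sin (k * l / 2) :=
      Real.sin_pos_of_pos_of_lt_pi (by positivity) (by linarith)
    have hwpi : w ≤ Real.pi := by
      have h5 : w ^ 2 ≤ 2 := by
        have h6 : (k * (α + β) / 2) ^ 2 ≤ 1 := by
          have : 0 ≤ k * (α + β) / 2 := by positivity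
          nlinarith
        have h7 : |k * (α - β) / 2| ^ 2 ≤ 1 := by nlinarith
        have h8 : 0 ≤ c * (k * l / 2) ^ 2 := by positivity
        linarith
      nlinarith
    have hR : Rpos k l (l / 2) α β ≤ w / k := by
      unfold Rpos
      apply div_le_div_of_nonneg_right _ hk.le
      have e1 : k * (l - l / 2) = k * l / 2 := by ring
      have e2 : k * (l / 2) = k * l / 2 := by ring
      have e3 : k * l = 2 * (k * l / 2) := by ring
      have e4 : k * α = k * (α + β) / 2 + k * (α - β) / 2 := by ring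
      have e5 : k * β = k * (α + β) / 2 - k * (α - β) / 2 := by ring
      have e6 : (Real.sin (k * (l - l / 2)) * Real.cos (k * α) +
          Real.sin (k * (l / 2)) * Real.cos (k * β)) / Real.sin (k * l) =
          Real.cos (k * (α + β) / 2) * Real.cos (k * (α - β) / 2) / Real.cos (k * l / 2) := by
        rw [e1, e2, e4, e5, Real.cos_add, Real.cos_sub]
        rw [e3, Real.sin_two_mul]
        have e7 : 2 * (k * l / 2) / 2 = k * l / 2 := by ring
        simp only [e7]
        field_simp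
        ring
      rw [e6]
      have h9 : Real.cos w ≤ Real.cos (k * (α + β) / 2) * Real.cos (k * (α - β) / 2) /
          Real.cos (k * l / 2) := by
        rw [le_div_iff₀ hcosh]
        exact hm
      have h10 := Real.arccos_le_arccos h9
      rwa [Real.arccos_cos hw0 hwpi] at h10
    have hR0 : 0 ≤ Rpos k l (l / 2) α β := by
      unfold Rpos
      exact div_nonneg (Real.arccos_nonneg _) hk.le
    exact pow_le_pow_left₀ hR0 hR 2

theorem cmp_zero {c D₀ : ℝ} (hc : c < 1) (hD₀ : 0 < D₀)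
    (hg : ∀ x y : X, dist x y ≤ D₀ → ∃ γ : ℝ → X, IsGeodFromTo γ x y)
    (hst : ∀ (a b z : X) (γ : ℝ → X), IsGeodFromTo γ a b → dist a b ≤ D₀ → dist a z ≤ D₀ →
      dist b z ≤ D₀ → ∀ s ∈ Icc (0:ℝ) (dist a b),
      dist a b * dist (γ s) z ^ 2 ≤ (dist a b - s) * dist a z ^ 2 + s * dist b z ^ 2 -
        s * (dist a b - s) * dist a b) :
    ∃ D, Cmp X c D Rzero := by
  refine ⟨D₀, hD₀, hc, hg, ?_, ?_, ?_⟩
  · intro a b z γ hγ hab0 hab haz hbz s hs
    have h1 := hst a b z γ hγ hab haz hbz s hs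
    unfold Rzero
    apply Real.le_sqrt_of_sq_le
    rw [le_div_iff₀ hab0]
    linarith
  · intro l s hl hlD hs
    have hval : Rzero l s s (l - s) = 0 := by
      unfold Rzero
      have : (l - s) * s ^ 2 + s * (l - s) ^ 2 - s * (l - s) * l = 0 := by ring
      rw [this, zero_div, Real.sqrt_zero]
    rw [← hval]
    have hc : ContinuousAt (fun p : ℝ × ℝ × ℝ × ℝ => Rzero p.1 p.2.1 p.2.2.1 p.2.2.2)
        (l, s, s, l - s) := by
      unfold Rzero
      refine Real.continuous_sqrt.continuousAt.comp (ContinuousAt.div ?_ ?_ ?_)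
      · apply Continuous.continuousAt; fun_prop
      · apply Continuous.continuousAt; fun_prop
      · exact hl.ne'
    exact hc
  · intro l α β hl hlD hα hαD hβ hβD h1 h2 _
    have h3 : Rzero l (l / 2) α β ^ 2 = max ((α ^ 2 + β ^ 2) / 2 - l ^ 2 / 4) 0 := by
      unfold Rzero
      have e1 : ((l - l / 2) * α ^ 2 + l / 2 * β ^ 2 - l / 2 * (l - l / 2) * l) / l =
          (α ^ 2 + β ^ 2) / 2 - l ^ 2 / 4 := by
        field_simp; ring
      rw [e1]
      rcases le_total 0 ((α ^ 2 + β ^ 2) / 2 - l ^ 2 / 4) with h | h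
      · rw [Real.sq_sqrt h, max_eq_left h]
      · rw [Real.sqrt_eq_zero_of_nonpos h, max_eq_right h]; norm_num
    rw [h3]
    apply max_le
    · nlinarith [sq_nonneg l]
    · have : l ^ 2 ≤ (α + β) ^ 2 := pow_le_pow_left₀ hl.le h2 2
      nlinarith [sq_nonneg (α - β), sq_nonneg l]

theorem continuousAt_arcosh_one : ContinuousAt Real.arcosh 1 := by
  unfold Real.arcosh
  refine ContinuousAt.log ?_ (by norm_num)
  apply Continuous.continuousAt
  fun_prop

theorem cmp_neg {k c D₀ : ℝ} (hk : 0 < k) (hc : c < 1) (hD₀ : 0 < D₀)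
    (hg : ∀ x y : X, dist x y ≤ D₀ → ∃ γ : ℝ → X, IsGeodFromTo γ x y)
    (hst : ∀ (a b z : X) (γ : ℝ → X), IsGeodFromTo γ a b → dist a b ≤ D₀ → dist a z ≤ D₀ →
      dist b z ≤ D₀ → ∀ s ∈ Icc (0:ℝ) (dist a b),
      Real.sinh (k * dist a b) * Real.cosh (k * dist (γ s) z) ≤
      Real.sinh (k * (dist a b - s)) * Real.cosh (k * dist a z) +
        Real.sinh (k * s) * Real.cosh (k * dist b z)) :
    ∃ D, Cmp X c D (Rneg k) := by
  obtain ⟨e, he0, he1, -, hce⟩ := exists_small hc
  set D := min D₀ (e / k) with hDdef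
  have hD0 : 0 < D := lt_min hD₀ (by positivity)
  have hDD : D ≤ D₀ := min_le_left _ _
  have hkD : k * D ≤ e := by
    have : D ≤ e / k := min_le_right _ _
    rw [le_div_iff₀ hk] at this
    linarith
  have hle : ∀ {x : ℝ}, x ≤ D → k * x ≤ e := fun hx => (mul_le_mul_of_nonneg_left hx hk.le).trans hkD
  refine ⟨D, hD0, hc, fun x y hxy => hg x y (hxy.trans hDD), ?_, ?_, ?_⟩
  · intro a b z γ hγ hab0 hab haz hbz s hs
    have h1 := hst a b z γ hγ (hab.trans hDD) (haz.trans hDD) (hbz.trans hDD) s hs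
    have hsin : 0 < Real.sinh (k * dist a b) := Real.sinh_pos_iff.2 (by positivity)
    have h2 : Real.cosh (k * dist (γ s) z) ≤ (Real.sinh (k * (dist a b - s)) *
        Real.cosh (k * dist a z) +
        Real.sinh (k * s) * Real.cosh (k * dist b z)) / Real.sinh (k * dist a b) := by
      rw [le_div_iff₀ hsin]
      linarith
    have h7 := (Real.arcosh_le_arcosh (Real.cosh_pos _) ((Real.cosh_pos _).trans_le h2)).2 h2
    rw [Real.arcosh_cosh (by positivity)] at h7
    unfold Rneg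
    rw [le_div_iff₀ hk]
    linarith
  · intro l s hl hlD hs
    have hsin : 0 < Real.sinh (k * l) := Real.sinh_pos_iff.2 (by positivity)
    have harg : (Real.sinh (k * (l - s)) * Real.cosh (k * s) +
        Real.sinh (k * s) * Real.cosh (k * (l - s))) / Real.sinh (k * l) = 1 := by
      have : Real.sinh (k * (l - s)) * Real.cosh (k * s) +
          Real.sinh (k * s) * Real.cosh (k * (l - s)) = Real.sinh (k * l) := by
        have e1 : k * l = k * (l - s) + k * s := by ring
        rw [e1, Real.sinh_add]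
        ring
      rw [this, div_self hsin.ne']
    have hval : Rneg k l s s (l - s) = 0 := by
      unfold Rneg
      rw [harg, Real.arcosh_zero, zero_div]
    rw [← hval]
    have h1 : ContinuousAt Real.arcosh (Aneg k (l, s, s, l - s)) := by
      have : Aneg k (l, s, s, l - s) = 1 := harg
      rw [this]; exact continuousAt_arcosh_one
    have h2 : ContinuousAt (Aneg k) (l, s, s, l - s) := by
      unfold Aneg
      refine ContinuousAt.div ?_ ?_ ?_
      · apply Continuous.continuousAt; fun_prop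
      · apply Continuous.continuousAt; fun_prop
      · exact hsin.ne'
    exact (ContinuousAt.comp h1 h2).div_const k
  · intro l α β hl hlD hα hαD hβ hβD h1 h2 hR0
    obtain ⟨w, hw0, hw2, hq0, hqh, hhp, hfin⟩ := mid_setup (c := c) hk hc.le hl h1 h2
    rw [← hfin]
    have hpe : k * (α + β) / 2 ≤ e := by
      have h3 := hle hαD
      have h4 := hle hβD
      linarith
    have hm := cosh_mid hc.le hce hq0 hqh hhp hpe hw0 hw2
    rw [Real.cosh_abs] at hm
    have hcosh : 0 < Real.cosh (k * l / 2) := Real.cosh_pos _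
    have hsinh : 0 < Real.sinh (k * l / 2) := Real.sinh_pos_iff.2 (by positivity)
    have hR : Rneg k l (l / 2) α β ≤ w / k := by
      unfold Rneg
      apply div_le_div_of_nonneg_right _ hk.le
      have e1 : k * (l - l / 2) = k * l / 2 := by ring
      have e2 : k * (l / 2) = k * l / 2 := by ring
      have e3 : k * l = 2 * (k * l / 2) := by ring
      have e4 : k * α = k * (α + β) / 2 + k * (α - β) / 2 := by ring
      have e5 : k * β = k * (α + β) / 2 - k * (α - β) / 2 := by ring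
      have e6 : (Real.sinh (k * (l - l / 2)) * Real.cosh (k * α) +
          Real.sinh (k * (l / 2)) * Real.cosh (k * β)) / Real.sinh (k * l) =
          Real.cosh (k * (α + β) / 2) * Real.cosh (k * (α - β) / 2) / Real.cosh (k * l / 2) := by
        rw [e1, e2, e4, e5, Real.cosh_add, Real.cosh_sub]
        rw [e3, Real.sinh_two_mul]
        have e7 : 2 * (k * l / 2) / 2 = k * l / 2 := by ring
        simp only [e7]
        field_simp
        ring
      rw [e6]
      have h9 : Real.cosh (k * (α + β) / 2) * Real.cosh (k * (α - β) / 2) /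
          Real.cosh (k * l / 2) ≤ Real.cosh w := by
        rw [div_le_iff₀ hcosh]
        exact hm
      have hp1 : 0 < Real.cosh (k * (α + β) / 2) * Real.cosh (k * (α - β) / 2) /
          Real.cosh (k * l / 2) :=
        div_pos (mul_pos (Real.cosh_pos _) (Real.cosh_pos _)) (Real.cosh_pos _)
      have h10 := (Real.arcosh_le_arcosh hp1 (Real.cosh_pos _)).2 h9
      rwa [Real.arcosh_cosh hw0] at h10
    exact pow_le_pow_left₀ hR0 hR 2

theorem exists_cmp {κ : ℝ} (h : IsCAT κ X) {c : ℝ} (hc0 : 0 ≤ c) (hc : c < 1) :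
    ∃ (D : ℝ) (R : ℝ → ℝ → ℝ → ℝ → ℝ), Cmp X c D R := by
  rcases lt_trichotomy κ 0 with hκ | hκ | hκ
  · obtain ⟨D, hD⟩ := cmp_neg (X := X) (k := √(-κ)) (D₀ := 1) (Real.sqrt_pos.2 (by linarith)) hc
      one_pos (fun x y _ => h.geod x y (Or.inl hκ.le))
      (fun a b z γ hγ _ _ _ s hs => stewart_neg hκ h hγ hs)
    exact ⟨D, _, hD⟩
  · subst hκ
    obtain ⟨D, hD⟩ := cmp_zero (X := X) (D₀ := 1) hc
      one_pos (fun x y _ => h.geod x y (Or.inl le_rfl))
      (fun a b z γ hγ _ _ _ s hs => stewart_zero h hγ hs)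
    exact ⟨D, _, hD⟩
  · have hk : 0 < √κ := Real.sqrt_pos.2 hκ
    have hpi := Real.pi_gt_three
    have hlt : 2 * (1 / √κ) < Real.pi / √κ := by
      rw [← mul_div_assoc]
      exact div_lt_div_of_pos_right (by linarith) hk
    have h0 : 0 < 1 / √κ := by positivity
    obtain ⟨D, hD⟩ := cmp_pos (X := X) (k := √κ) (D₀ := 1 / √κ) hk hc0 hc
      h0 (fun x y hxy => h.geod x y (Or.inr (by linarith)))
      (fun a b z γ hγ h1 h2 h3 s hs => stewart_pos hκ h hγ (by linarith) hs)
    exact ⟨D, _, hD⟩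

end CatUC

theorem cn_small {κ : ℝ} {X : Type*} [MetricSpace X] (h : IsCAT κ X) {c : ℝ} (hc0 : 0 ≤ c)
    (hc : c < 1) : ∃ r₀ > (0:ℝ), ∀ (p q z : X) (γ : ℝ → X), IsGeodFromTo γ p q →
      dist p q ≤ r₀ → dist p z ≤ r₀ → dist q z ≤ r₀ → ∀ τ ∈ Icc (0:ℝ) (dist p q),
      dist p q * dist (γ τ) z ^ 2 ≤ (dist p q - τ) * dist p z ^ 2 + τ * dist q z ^ 2
        - c * (τ * (dist p q - τ)) * dist p q := by
  obtain ⟨D, R, H⟩ := CatUC.exists_cmp h hc0 hc
  have hD := H.pos
  refine ⟨D / 2, by positivity, ?_⟩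
  intro p q z γ hγ hpq hpz hqz τ hτ
  rcases eq_or_lt_of_le (dist_nonneg (x := p) (y := q)) with h0 | h0
  · have hτ0 : τ = 0 := le_antisymm (by rw [h0]; exact hτ.2) hτ.1
    rw [← h0, hτ0]
    simp
  · have h1 := H.cn hγ hpq hpz (t := τ / dist p q)
      ⟨div_nonneg hτ.1 h0.le, (div_le_one h0).2 hτ.2⟩
    rw [div_mul_cancel₀ _ h0.ne'] at h1
    have h2 := mul_le_mul_of_nonneg_left h1 h0.le
    refine h2.trans (le_of_eq ?_)
    field_simp

end MP629748

end part1

section part2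

/-!
P13: small balls of CAT spaces carry uniformly convex geodesic structures.
-/

open Set Filter Topology Metric

namespace MP629748

namespace CatUC

universe u

variable {X : Type u} [MetricSpace X] {c D : ℝ} {R : ℝ → ℝ → ℝ → ℝ → ℝ}

/-- clamp of a real number to `[0,1]` -/
noncomputable def cl (t : ℝ) : ℝ := max 0 (min 1 t)

theorem cl_mem (t : ℝ) : cl t ∈ Icc (0:ℝ) 1 :=
  ⟨le_max_left _ _, max_le zero_le_one (min_le_left _ _)⟩

theorem cl_of_mem {t : ℝ} (ht : t ∈ Icc (0:ℝ) 1) : cl t = t := by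
  unfold cl
  rw [min_eq_right ht.2, max_eq_right ht.1]

theorem Cmp.exists_uc (H : Cmp X c D R) (hc : 0 ≤ c) (p : X) {r : ℝ} (hr : 0 < r)
    (hrD : r ≤ D / 4) :
    ∃ U : UC (closedBall p r) c,
      ∀ x y : closedBall p r, ∀ s ∈ Icc (0:ℝ) 1, ∀ t ∈ Icc (0:ℝ) 1,
        dist (U.cc x y s) (U.cc x y t) = |s - t| * dist x y := by
  have hD := H.pos
  have hdist : ∀ x y : closedBall p r, dist (x : X) y ≤ D / 2 := by
    intro x y
    have h1 := mem_closedBall.1 x.2
    have h2 := mem_closedBall.1 y.2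
    have h3 := dist_triangle (x : X) p y
    rw [dist_comm p] at h3
    linarith
  have hex : ∀ x y : closedBall p r, ∃ γ : ℝ → X, IsGeodFromTo γ (x : X) y := fun x y =>
    H.geod x y ((hdist x y).trans (by linarith))
  choose G hG using hex
  have hball : ∀ (x y : closedBall p r) (t : ℝ), t ∈ Icc (0:ℝ) 1 →
      G x y (t * dist (x : X) y) ∈ closedBall p r := by
    intro x y t ht
    have h1 := mem_closedBall.1 x.2
    have h2 := mem_closedBall.1 y.2
    have h3 := H.cn (hG x y) (hdist x y) (z := p) (by linarith) ht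
    rw [mem_closedBall]
    have h4 : dist (x : X) p ^ 2 ≤ r ^ 2 := pow_le_pow_left₀ dist_nonneg h1 2
    have h5 : dist (y : X) p ^ 2 ≤ r ^ 2 := pow_le_pow_left₀ dist_nonneg h2 2
    have h6 : 0 ≤ c * (t * (1 - t)) * dist (x : X) y ^ 2 := by
      have : 0 ≤ 1 - t := by linarith [ht.2]
      have := ht.1
      positivity
    have h7 : dist (G x y (t * dist (x : X) y)) p ^ 2 ≤ r ^ 2 := by
      nlinarith [ht.1, ht.2]
    exact le_of_sq_le_sq h7 hr.le
  let cc : closedBall p r → closedBall p r → ℝ → closedBall p r := fun x y t =>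
    ⟨G x y (cl t * dist (x : X) y), hball x y _ (cl_mem t)⟩
  have hcc : ∀ x y t, t ∈ Icc (0:ℝ) 1 → ((cc x y t : closedBall p r) : X) =
      G x y (t * dist (x : X) y) := by
    intro x y t ht
    simp only [cc, cl_of_mem ht]
  have hmemI : ∀ (x y : closedBall p r) (t : ℝ), t ∈ Icc (0:ℝ) 1 →
      t * dist (x : X) y ∈ Icc (0:ℝ) (dist (x : X) y) := fun x y t ht =>
    ⟨mul_nonneg ht.1 dist_nonneg, by nlinarith [ht.2, dist_nonneg (x := (x : X)) (y := (y : X))]⟩
  have hcd : ∀ x y : closedBall p r, ∀ s ∈ Icc (0:ℝ) 1, ∀ t ∈ Icc (0:ℝ) 1,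
        dist (cc x y s) (cc x y t) = |s - t| * dist x y := by
    intro x y s hs t ht
    rw [Subtype.dist_eq, Subtype.dist_eq, hcc x y s hs, hcc x y t ht,
      (hG x y).2.2 _ (hmemI x y s hs) _ (hmemI x y t ht), ← sub_mul, abs_mul,
      abs_of_nonneg (dist_nonneg (x := (x : X)) (y := (y : X)))]
  have h0 : ∀ x y, cc x y 0 = x := by
    intro x y
    apply Subtype.ext
    rw [hcc x y 0 ⟨le_refl _, zero_le_one⟩, zero_mul]
    exact (hG x y).1
  have h1 : ∀ x y, cc x y 1 = y := by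
    intro x y
    apply Subtype.ext
    rw [hcc x y 1 ⟨zero_le_one, le_refl _⟩, one_mul]
    exact (hG x y).2.1
  refine ⟨⟨cc, h0, h1, ?_, ?_⟩, hcd⟩
  · -- continuity
    rintro ⟨x, y, t⟩ ht
    simp only [mem_ofPred_eq] at ht
    rw [ContinuousWithinAt, tendsto_iff_dist_tendsto_zero]
    set W : Set (closedBall p r × closedBall p r × ℝ) := {p | p.2.2 ∈ Icc (0:ℝ) 1} with hW
    have hid : Tendsto (fun q : closedBall p r × closedBall p r × ℝ => q) (𝓝[W] (x, y, t))
        (𝓝 (x, y, t)) := tendsto_id.mono_left nhdsWithin_le_nhds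
    have hx : Tendsto (fun q : closedBall p r × closedBall p r × ℝ => q.1) (𝓝[W] (x, y, t))
        (𝓝 x) := (continuous_fst.tendsto _).comp hid
    have hy : Tendsto (fun q : closedBall p r × closedBall p r × ℝ => q.2.1) (𝓝[W] (x, y, t))
        (𝓝 y) := ((continuous_fst.comp continuous_snd).tendsto (x, y, t)).comp hid
    have htt : Tendsto (fun q : closedBall p r × closedBall p r × ℝ => q.2.2) (𝓝[W] (x, y, t))
        (𝓝 t) := ((continuous_snd.comp continuous_snd).tendsto (x, y, t)).comp hid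
    have hxy : Tendsto (fun q : closedBall p r × closedBall p r × ℝ => dist q.1 q.2.1)
        (𝓝[W] (x, y, t)) (𝓝 (dist x y)) := hx.dist hy
    have hWev : ∀ᶠ q in 𝓝[W] (x, y, t), q ∈ W := self_mem_nhdsWithin
    rcases eq_or_lt_of_le (dist_nonneg (x := x) (y := y)) with hl | hl
    · have hxy' : x = y := dist_eq_zero.1 hl.symm
      have hm : cc x y t = x := by
        have := hcd x y t ht 0 ⟨le_refl _, zero_le_one⟩
        rw [← hl, mul_zero, h0] at this
        exact dist_eq_zero.1 this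
      rw [hm]
      have hb : Tendsto (fun q : closedBall p r × closedBall p r × ℝ =>
          dist q.1 q.2.1 + dist q.1 x) (𝓝[W] (x, y, t)) (𝓝 0) := by
        have h2 : Tendsto (fun q : closedBall p r × closedBall p r × ℝ => dist q.1 x)
            (𝓝[W] (x, y, t)) (𝓝 (dist x x)) := hx.dist tendsto_const_nhds
        have := hxy.add h2
        rwa [← hl, dist_self, add_zero] at this
      refine tendsto_of_tendsto_of_tendsto_of_le_of_le' tendsto_const_nhds hb
        (Eventually.of_forall fun q => dist_nonneg) ?_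
      filter_upwards [hWev] with q hq
      have h3 := dist_triangle (cc q.1 q.2.1 q.2.2) q.1 x
      have h4 := hcd q.1 q.2.1 q.2.2 hq 0 ⟨le_refl _, zero_le_one⟩
      rw [h0, sub_zero, abs_of_nonneg hq.1] at h4
      have h5 : q.2.2 * dist q.1 q.2.1 ≤ dist q.1 q.2.1 := by
        nlinarith [hq.2, dist_nonneg (x := q.1) (y := q.2.1)]
      linarith
    · set m := cc x y t with hmdef
      have hmx : dist x m = t * dist x y := by
        have := hcd x y 0 ⟨le_refl _, zero_le_one⟩ t ht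
        rw [h0, zero_sub, abs_neg, abs_of_nonneg ht.1] at this
        exact this
      have hmy : dist y m = dist x y - t * dist x y := by
        have := hcd x y 1 ⟨zero_le_one, le_refl _⟩ t ht
        rw [h1, abs_of_nonneg (by linarith [ht.2])] at this
        rw [this]; ring
      have hlD : dist x y ≤ D := (hdist x y).trans (by linarith)
      have hR := H.cont (dist x y) (t * dist x y) hl hlD
        ⟨mul_nonneg ht.1 dist_nonneg, by nlinarith [ht.2]⟩
      have hcomp : Tendsto (fun q : closedBall p r × closedBall p r × ℝ =>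
          ((dist q.1 q.2.1, q.2.2 * dist q.1 q.2.1, dist q.1 m, dist q.2.1 m) :
            ℝ × ℝ × ℝ × ℝ)) (𝓝[W] (x, y, t))
          (𝓝 (dist x y, t * dist x y, t * dist x y, dist x y - t * dist x y)) := by
        refine hxy.prodMk_nhds ((htt.mul hxy).prodMk_nhds (Tendsto.prodMk_nhds ?_ ?_))
        · rw [← hmx]; exact hx.dist tendsto_const_nhds
        · rw [← hmy]; exact hy.dist tendsto_const_nhds
      have hb := hR.comp hcomp
      refine tendsto_of_tendsto_of_tendsto_of_le_of_le' tendsto_const_nhds hb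
        (Eventually.of_forall fun q => dist_nonneg) ?_
      filter_upwards [hWev, hxy.eventually (lt_mem_nhds hl)] with q hq hq0
      have h3 := H.est (q.1 : X) (q.2.1 : X) (m : X) (G q.1 q.2.1) (hG _ _) hq0
        ((hdist _ _).trans (by linarith)) ((hdist _ _).trans (by linarith))
        ((hdist _ _).trans (by linarith)) (q.2.2 * dist (q.1 : X) q.2.1) (hmemI _ _ _ hq)
      simp only [Function.comp]
      rw [Subtype.dist_eq (cc q.1 q.2.1 q.2.2) m, hcc _ _ _ hq]
      exact h3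
  · -- CN inequality
    intro x y z t ht
    have h3 := H.cn (hG x y) (hdist x y) (z := (z : X)) (hdist x z) ht
    rw [Subtype.dist_eq, Subtype.dist_eq, Subtype.dist_eq, Subtype.dist_eq, hcc x y t ht,
      dist_comm (z : X), dist_comm (z : X) (x : X), dist_comm (z : X) (y : X)]
    exact h3

/-- A larger convexity constant is better. -/
noncomputable def ucMono {Y : Type*} [MetricSpace Y] {c c' : ℝ} (hcc : c ≤ c') (U : UC Y c') :
    UC Y c where
  cc := U.cc
  zero := U.zero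
  one := U.one
  cont := U.cont
  cn := by
    intro x y z t ht
    have h1 := U.cn x y z t ht
    have h2 : 0 ≤ t * (1 - t) := mul_nonneg ht.1 (by linarith [ht.2])
    have h3 : c * (t * (1 - t)) * dist x y ^ 2 ≤ c' * (t * (1 - t)) * dist x y ^ 2 :=
      mul_le_mul_of_nonneg_right (mul_le_mul_of_nonneg_right hcc h2) (sq_nonneg _)
    linarith

end CatUC

universe u

theorem exists_uc_of_cat {κ : ℝ} {X : Type u} [MetricSpace X] [CompleteSpace X]
    (h : IsCAT κ X) {c : ℝ} (hc : c < 1) :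
    ∃ r₀ > 0, ∀ (p : X) (r : ℝ), 0 < r → r ≤ r₀ → ∃ U : UC (closedBall p r) c,
      ∀ x y : closedBall p r, ∀ s ∈ Icc (0:ℝ) 1, ∀ t ∈ Icc (0:ℝ) 1,
        dist (U.cc x y s) (U.cc x y t) = |s - t| * dist x y := by
  obtain ⟨D, R, H⟩ := CatUC.exists_cmp h (le_max_right c 0) (max_lt hc zero_lt_one)
  have hD := H.pos
  refine ⟨D / 4, by positivity, ?_⟩
  intro p r hr hrD
  obtain ⟨U, hU⟩ := H.exists_uc (le_max_right c 0) p hr hrD
  exact ⟨CatUC.ucMono (le_max_left c 0) U, hU⟩

end MP629748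

end part2
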