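import Pool.Agent.Lib.MP_629748_gt.MBase

/-!
The filling property (Hopf).
-/

section part0

/-! P9b (helper28), following helper56's explicit note: bubbles and explicit filling. -/

open Set Filter Topology MeasureTheory Metric
open scoped NNReal

namespace MP629748

/-! ### Gluing homotopies on the facets -/

/-- the boundary of the standard simplex -/
def sBd (m : ℕ) : Set (Fin m → ℝ) := {x | x ∈ stdSimplex ℝ (Fin m) ∧ ∃ i, x i = 0}

theorem isClosed_facet {m : ℕ} (i : Fin m) :
    IsClosed {x : Fin m → ℝ | x ∈ stdSimplex ℝ (Fin m) ∧ x i = 0} :=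
  (isClosed_stdSimplex ℝ (Fin m)).inter (isClosed_eq (continuous_apply i) continuous_const)

theorem isCompact_facet {m : ℕ} (i : Fin m) :
    IsCompact {x : Fin m → ℝ | x ∈ stdSimplex ℝ (Fin m) ∧ x i = 0} :=
  (isCompact_stdSimplex ℝ (Fin m)).inter_right (isClosed_eq (continuous_apply i) continuous_const)

theorem succAbove_mem {m : ℕ} {i : Fin (m + 1)} {x : Fin (m + 1) → ℝ}
    (hx : x ∈ stdSimplex ℝ (Fin (m + 1))) (hi : x i = 0) :
    (fun j => x (i.succAbove j)) ∈ stdSimplex ℝ (Fin m) ∧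
      i.insertNth 0 (fun j => x (i.succAbove j)) = x := by
  refine ⟨⟨fun j => hx.1 _, ?_⟩, ?_⟩
  · have := hx.2
    rw [Fin.sum_univ_succAbove _ i, hi, zero_add] at this
    exact this
  · funext j
    rcases Fin.eq_self_or_eq_succAbove i j with rfl | ⟨j, rfl⟩
    · simp [hi]
    · simp

theorem insertNth_mem {m : ℕ} (i : Fin (m + 1)) {x : Fin m → ℝ}
    (hx : x ∈ stdSimplex ℝ (Fin m)) :
    (i.insertNth (0:ℝ) x : Fin (m + 1) → ℝ) ∈ stdSimplex ℝ (Fin (m + 1)) := by
  refine ⟨fun j => ?_, ?_⟩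
  · rcases Fin.eq_self_or_eq_succAbove i j with rfl | ⟨j, rfl⟩
    · simp
    · simpa using hx.1 j
  · rw [Fin.sum_univ_succAbove _ i]
    simpa using hx.2

/-- Gluing of facet homotopies and homotopy extension. -/
theorem glue_fill {m : ℕ} (V1 : (Fin (m + 1) → ℝ) → (Fin m → ℝ))
    (hV : ContinuousOn V1 (stdSimplex ℝ (Fin (m + 1))))
    (hV0 : ∀ x ∈ stdSimplex ℝ (Fin (m + 1)), V1 x ≠ 0)
    (h : Fin (m + 1) → (Fin m → ℝ) → ℝ → (Fin m → ℝ))
    (hc : ∀ i, ContinuousOn (fun p : (Fin m → ℝ) × ℝ => h i p.1 p.2)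
      (stdSimplex ℝ (Fin m) ×ˢ Icc (0:ℝ) 1))
    (h0 : ∀ i, ∀ x ∈ stdSimplex ℝ (Fin m), ∀ s ∈ Icc (0:ℝ) 1, h i x s ≠ 0)
    (hcomp : ∀ i j, ∀ x ∈ stdSimplex ℝ (Fin m), ∀ x' ∈ stdSimplex ℝ (Fin m),
      (i.insertNth (0:ℝ) x : Fin (m + 1) → ℝ) = j.insertNth (0:ℝ) x' →
      ∀ s ∈ Icc (0:ℝ) 1, h i x s = h j x' s)
    (h1 : ∀ i, ∀ x ∈ stdSimplex ℝ (Fin m), h i x 1 = V1 (i.insertNth (0:ℝ) x)) :
    ∃ V : (Fin (m + 1) → ℝ) → (Fin m → ℝ), ContinuousOn V (stdSimplex ℝ (Fin (m + 1))) ∧
      (∀ x ∈ stdSimplex ℝ (Fin (m + 1)), V x ≠ 0) ∧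
      ∀ i, ∀ x ∈ stdSimplex ℝ (Fin m), V (i.insertNth (0:ℝ) x) = h i x 0 := by
  classical
  -- the glued function
  let g : (Fin (m + 1) → ℝ) × ℝ → (Fin m → ℝ) := fun p =>
    if hp : ∃ i, p.1 i = 0 then h hp.choose (fun j => p.1 (hp.choose.succAbove j)) p.2 else V1 p.1
  have hg : ∀ (i : Fin (m + 1)) (x : Fin (m + 1) → ℝ), x ∈ stdSimplex ℝ (Fin (m + 1)) → x i = 0 →
      ∀ s ∈ Icc (0:ℝ) 1, g (x, s) = h i (fun j => x (i.succAbove j)) s := by
    intro i x hx hi s hs
    have hp : ∃ i, x i = 0 := ⟨i, hi⟩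
    have h2 := succAbove_mem hx hp.choose_spec
    have h3 := succAbove_mem hx hi
    show (if hp : ∃ i, x i = 0 then h hp.choose (fun j => x (hp.choose.succAbove j)) s
      else V1 x) = _
    rw [dif_pos hp]
    exact hcomp _ _ _ h2.1 _ h3.1 (h2.2.trans h3.2.symm) s hs
  have hg1 : ∀ x ∈ stdSimplex ℝ (Fin (m + 1)), g (x, 1) = V1 x := by
    intro x hx
    by_cases hp : ∃ i, x i = 0
    · obtain ⟨i, hi⟩ := hp
      rw [hg i x hx hi 1 ⟨zero_le_one, le_rfl⟩, h1 i _ (succAbove_mem hx hi).1,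
        (succAbove_mem hx hi).2]
    · show (if hp : ∃ i, x i = 0 then h hp.choose (fun j => x (hp.choose.succAbove j)) 1
        else V1 x) = _
      rw [dif_neg hp]
  -- closed pieces
  let C : Option (Fin (m + 1)) → Set ((Fin (m + 1) → ℝ) × ℝ) := fun o => o.elim
    (stdSimplex ℝ (Fin (m + 1)) ×ˢ {1})
    (fun i => {x | x ∈ stdSimplex ℝ (Fin (m + 1)) ∧ x i = 0} ×ˢ Icc (0:ℝ) 1)
  have hCc : ∀ o, IsClosed (C o) := by
    rintro (_ | i)
    · exact (isClosed_stdSimplex ℝ _).prod isClosed_singleton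
    · exact (isClosed_facet i).prod isClosed_Icc
  have hCg : ∀ o, ContinuousOn g (C o) := by
    rintro (_ | i)
    · have : ContinuousOn (fun p : (Fin (m + 1) → ℝ) × ℝ => V1 p.1) (C none) :=
        hV.comp continuousOn_fst (fun p hp => hp.1)
      refine this.congr ?_
      rintro ⟨x, s⟩ ⟨hx, hs⟩
      rw [mem_singleton_iff] at hs
      subst hs
      exact hg1 x hx
    · have : ContinuousOn (fun p : (Fin (m + 1) → ℝ) × ℝ =>
          h i (fun j => p.1 (i.succAbove j)) p.2) (C (some i)) := by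
        refine (hc i).comp (f := fun p : (Fin (m + 1) → ℝ) × ℝ =>
          ((fun j => p.1 (i.succAbove j)), p.2)) ?_ ?_
        · exact Continuous.continuousOn (by fun_prop)
        · rintro ⟨x, s⟩ ⟨hx, hs⟩
          exact ⟨(succAbove_mem hx.1 hx.2).1, hs⟩
      refine this.congr ?_
      rintro ⟨x, s⟩ ⟨hx, hs⟩
      exact hg i x hx.1 hx.2 s hs
  have hgc : ContinuousOn g (⋃ o, C o) :=
    (locallyFinite_of_finite C).continuousOn_iUnion hCc hCg
  have hclosed : IsClosed (⋃ o, C o) := isClosed_iUnion_of_finite hCc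
  obtain ⟨G, hG⟩ := ContinuousMap.exists_restrict_eq hclosed
    (⟨(⋃ o, C o).domRestrict g, hgc.domRestrict⟩ : C((⋃ o, C o : Set _), Fin m → ℝ))
  have hG' : ∀ p ∈ ⋃ o, C o, G p = g p := by
    intro p hp
    have := congrArg (fun f : C((⋃ o, C o : Set _), Fin m → ℝ) => f ⟨p, hp⟩) hG
    exact this
  have hG1 : ∀ x ∈ stdSimplex ℝ (Fin (m + 1)), G (x, 1) = V1 x := by
    intro x hx
    rw [hG' (x, 1) (mem_iUnion.2 ⟨none, ⟨hx, rfl⟩⟩), hg1 x hx]
  have hGi : ∀ (i : Fin (m + 1)) (x : Fin (m + 1) → ℝ), x ∈ stdSimplex ℝ (Fin (m + 1)) →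
      x i = 0 → ∀ s ∈ Icc (0:ℝ) 1, G (x, s) = h i (fun j => x (i.succAbove j)) s := by
    intro i x hx hi s hs
    rw [hG' (x, s) (mem_iUnion.2 ⟨some i, ⟨⟨hx, hi⟩, hs⟩⟩), hg i x hx hi s hs]
  -- bad set
  let B : Set (Fin (m + 1) → ℝ) := Prod.fst ''
    ((stdSimplex ℝ (Fin (m + 1)) ×ˢ Icc (0:ℝ) 1) ∩ G ⁻¹' {0})
  have hB : IsClosed B := by
    refine IsCompact.isClosed (IsCompact.image ?_ continuous_fst)
    exact ((isCompact_stdSimplex ℝ _).prod isCompact_Icc).inter_right
      (isClosed_singleton.preimage G.continuous)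
  let A : Set (Fin (m + 1) → ℝ) := ⋃ i, {x | x ∈ stdSimplex ℝ (Fin (m + 1)) ∧ x i = 0}
  have hA : IsClosed A := isClosed_iUnion_of_finite (fun i => isClosed_facet i)
  have hAB : Disjoint B A := by
    rw [Set.disjoint_left]
    rintro x ⟨⟨y, s⟩, ⟨⟨hy, hs⟩, hz⟩, rfl⟩ hxA
    obtain ⟨i, hi⟩ := mem_iUnion.1 hxA
    have hz' : G (y, s) = 0 := hz
    rw [hGi i y hi.1 hi.2 s hs] at hz'
    exact h0 i _ (succAbove_mem hi.1 hi.2).1 s hs hz'
  obtain ⟨u, hu0, hu1, hu⟩ := exists_continuous_zero_one_of_isClosed hB hA hAB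
  refine ⟨fun x => G (x, 1 - u x), ?_, ?_, ?_⟩
  · exact Continuous.continuousOn (G.continuous.comp
      (continuous_id.prodMk (continuous_const.sub u.continuous)))
  · intro x hx
    by_cases hxB : x ∈ B
    · have : u x = 0 := hu0 hxB
      show G (x, 1 - u x) ≠ 0
      rw [this, sub_zero, hG1 x hx]
      exact hV0 x hx
    · intro hz
      exact hxB ⟨(x, 1 - u x), ⟨⟨hx, by have := hu x; constructor <;> linarith [this.1, this.2]⟩,
        hz⟩, rfl⟩
  · intro i x hx
    have hmem := insertNth_mem i hx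
    have hi0 : (i.insertNth (0:ℝ) x : Fin (m + 1) → ℝ) i = 0 := by simp
    have : u (i.insertNth (0:ℝ) x) = 1 := hu1 (mem_iUnion.2 ⟨i, hmem, hi0⟩)
    show G (i.insertNth (0:ℝ) x, 1 - u (i.insertNth (0:ℝ) x)) = h i x 0
    rw [this, sub_self, hGi i _ hmem hi0 0 ⟨le_rfl, zero_le_one⟩]
    congr 1
    funext j
    simp

end MP629748

end part0

section part1

open Set Filter Topology MeasureTheory Metric
open scoped NNReal Cardinal

namespace MP629748

namespace Hopf

/-- mean of the coordinates other than the zeroth -/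
noncomputable def mean {n : ℕ} (x : Fin (n + 2) → ℝ) : ℝ := (∑ j : Fin (n + 1), x j.succ) / (n + 1)

noncomputable def yy {n : ℕ} (x : Fin (n + 2) → ℝ) : Fin (n + 1) → ℝ := fun i => x i.succ - mean x

/-- the scale -/
noncomputable def KK (n : ℕ) : ℝ := 8 * (n + 2) ^ 2

noncomputable def lamb {n : ℕ} (x : Fin (n + 2) → ℝ) : ℝ := max 0 (1 - KK n * ‖yy x‖)

/-- the base value -/
def base (n : ℕ) : Fin (n + 2) → ℝ := fun _ => -1

noncomputable def bub {n : ℕ} (t : ℝ) (x : Fin (n + 2) → ℝ) : Fin (n + 2) → ℝ :=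
  Fin.cons (-1 + lamb x * (1 - Real.cos (2 * Real.pi * t) + Real.sin (2 * Real.pi * t)))
    (fun i => -1 + lamb x * (1 - Real.cos (2 * Real.pi * t)) * (1 + yy x i))

lemma bub_zero {n : ℕ} (t : ℝ) (x : Fin (n + 2) → ℝ) : bub t x 0 =
    -1 + lamb x * (1 - Real.cos (2 * Real.pi * t) + Real.sin (2 * Real.pi * t)) := rfl

lemma bub_succ {n : ℕ} (t : ℝ) (x : Fin (n + 2) → ℝ) (i : Fin (n + 1)) : bub t x i.succ =
    -1 + lamb x * (1 - Real.cos (2 * Real.pi * t)) * (1 + yy x i) := rfl

lemma continuous_mean {n : ℕ} : Continuous (mean (n := n)) := by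
  unfold mean
  fun_prop

lemma continuous_yy {n : ℕ} : Continuous (yy (n := n)) := by
  unfold yy
  have := continuous_mean (n := n)
  fun_prop

lemma continuous_lamb {n : ℕ} : Continuous (lamb (n := n)) := by
  unfold lamb
  have := continuous_yy (n := n)
  fun_prop

lemma continuous_bub {n : ℕ} :
    Continuous (fun p : ℝ × (Fin (n + 2) → ℝ) => bub p.1 p.2) := by
  have h1 := continuous_lamb (n := n)
  have h2 := continuous_yy (n := n)
  refine continuous_pi fun i => ?_
  refine Fin.cases ?_ (fun i => ?_) i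
  · simp only [bub_zero]
    fun_prop
  · simp only [bub_succ]
    have h3 : Continuous (fun p : ℝ × (Fin (n + 2) → ℝ) => yy p.2 i) :=
      ((continuous_apply i).comp h2).comp continuous_snd
    fun_prop

lemma sum_yy {n : ℕ} (x : Fin (n + 2) → ℝ) : ∑ i, yy x i = 0 := by
  unfold yy mean
  rw [Finset.sum_sub_distrib]
  simp only [Finset.sum_const, Finset.card_univ, Fintype.card_fin, nsmul_eq_mul]
  have : ((n : ℝ) + 1) ≠ 0 := by positivity
  push_cast
  field_simp
  ring

lemma bub_ne_zero {n : ℕ} (t : ℝ) (x : Fin (n + 2) → ℝ) : bub t x ≠ 0 := by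
  intro h
  have h0 := congrFun h 0
  rw [bub_zero, Pi.zero_apply] at h0
  have hi : ∀ i : Fin (n + 1),
      lamb x * (1 - Real.cos (2 * Real.pi * t)) * (1 + yy x i) = 1 := by
    intro i
    have := congrFun h i.succ
    rw [bub_succ, Pi.zero_apply] at this
    linarith
  have hs : ∑ i : Fin (n + 1),
      lamb x * (1 - Real.cos (2 * Real.pi * t)) * (1 + yy x i) = n + 1 := by
    rw [Finset.sum_congr rfl fun i _ => hi i]
    simp
  rw [← Finset.mul_sum, Finset.sum_add_distrib, sum_yy] at hs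
  simp only [Finset.sum_const, Finset.card_univ, Fintype.card_fin, nsmul_eq_mul, add_zero,
    mul_one] at hs
  have hn : ((n : ℝ) + 1) ≠ 0 := by positivity
  have h1 : lamb x * (1 - Real.cos (2 * Real.pi * t)) = 1 := by
    push_cast at hs
    have : (lamb x * (1 - Real.cos (2 * Real.pi * t)) - 1) * ((n : ℝ) + 1) = 0 := by linarith
    rcases mul_eq_zero.1 this with h | h
    · linarith
    · exact absurd h hn
  have hy : yy x = 0 := by
    funext i
    have := hi i
    rw [h1] at this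
    simp only [Pi.zero_apply]
    linarith
  have hl : lamb x = 1 := by
    unfold lamb
    rw [hy]
    simp
  rw [hl] at h1 h0
  have hc : Real.cos (2 * Real.pi * t) = 0 := by linarith
  have hs : Real.sin (2 * Real.pi * t) = 0 := by rw [hc] at h0; linarith
  have := Real.cos_sq_add_sin_sq (2 * Real.pi * t)
  rw [hc, hs] at this
  norm_num at this

lemma bub_add_int {n : ℕ} (t : ℝ) (z : ℤ) (x : Fin (n + 2) → ℝ) : bub (t + z) x = bub t x := by
  have h1 : Real.cos (2 * Real.pi * (t + z)) = Real.cos (2 * Real.pi * t) := by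
    rw [show 2 * Real.pi * (t + z) = 2 * Real.pi * t + z * (2 * Real.pi) by ring,
      Real.cos_add_int_mul_two_pi]
  have h2 : Real.sin (2 * Real.pi * (t + z)) = Real.sin (2 * Real.pi * t) := by
    rw [show 2 * Real.pi * (t + z) = 2 * Real.pi * t + z * (2 * Real.pi) by ring,
      Real.sin_add_int_mul_two_pi]
  unfold bub
  rw [h1, h2]

lemma bub_zero_left {n : ℕ} (x : Fin (n + 2) → ℝ) : bub 0 x = base n := by
  funext i
  refine Fin.cases ?_ (fun i => ?_) i
  · rw [bub_zero]; simp [base]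
  · rw [bub_succ]; simp [base]

lemma bub_int {n : ℕ} (z : ℤ) (x : Fin (n + 2) → ℝ) : bub z x = base n := by
  have := bub_add_int 0 z x
  rw [zero_add] at this
  rw [this, bub_zero_left]

lemma bub_of_lamb {n : ℕ} (t : ℝ) {x : Fin (n + 2) → ℝ} (h : lamb x = 0) : bub t x = base n := by
  funext i
  refine Fin.cases ?_ (fun i => ?_) i
  · rw [bub_zero, h]; simp [base]
  · rw [bub_succ, h]; simp [base]

/-! ### the parameters -/

noncomputable def qq {n : ℕ} (x : Fin (n + 2) → ℝ) : ℝ := 1 / 2 + KK n * (x 0 - 1 / (n + 2))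

noncomputable def cl (t : ℝ) : ℝ := max 0 (min 1 t)

lemma cl_of_le {t : ℝ} (h : t ≤ 0) : cl t = 0 := by
  unfold cl
  rw [min_eq_right (by linarith), max_eq_left h]

lemma cl_of_ge {t : ℝ} (h : 1 ≤ t) : cl t = 1 := by
  unfold cl
  rw [min_eq_left h]
  simp

lemma cl_of_mem {t : ℝ} (h0 : 0 ≤ t) (h1 : t ≤ 1) : cl t = t := by
  unfold cl
  rw [min_eq_right h1, max_eq_right h0]

lemma continuous_cl : Continuous cl := by
  unfold cl
  fun_prop

noncomputable def tauC {n : ℕ} (x : Fin (n + 2) → ℝ) : ℝ := cl (qq x)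
noncomputable def tauA {n : ℕ} (x : Fin (n + 2) → ℝ) : ℝ := cl (2 * qq x)
noncomputable def tauB {n : ℕ} (x : Fin (n + 2) → ℝ) : ℝ := cl (2 * qq x - 1)

lemma continuous_qq {n : ℕ} : Continuous (qq (n := n)) := by
  unfold qq
  fun_prop

lemma continuous_tauC {n : ℕ} : Continuous (tauC (n := n)) :=
  continuous_cl.comp continuous_qq

lemma continuous_tauA {n : ℕ} : Continuous (tauA (n := n)) := by
  have := continuous_qq (n := n)
  exact continuous_cl.comp (by fun_prop)

lemma continuous_tauB {n : ℕ} : Continuous (tauB (n := n)) := by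
  have := continuous_qq (n := n)
  exact continuous_cl.comp (by fun_prop)

/-- `x` is close to the barycentre -/
def Core {n : ℕ} (x : Fin (n + 2) → ℝ) : Prop := ∀ i, |x i - 1 / (n + 2)| < 1 / (4 * (n + 2) ^ 2)

lemma mean_of_sum {n : ℕ} {x : Fin (n + 2) → ℝ} (hx : ∑ i, x i = 1) :
    mean x = (1 - x 0) / (n + 1) := by
  unfold mean
  rw [Fin.sum_univ_succ] at hx
  rw [show ∑ j : Fin (n + 1), x j.succ = 1 - x 0 by linarith]

lemma core_of {n : ℕ} {x : Fin (n + 2) → ℝ} (hx : ∑ i, x i = 1) (hl : lamb x ≠ 0)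
    (h0 : 0 ≤ qq x) (h1 : qq x ≤ 1) : Core x := by
  have hm : (0 : ℝ) < n + 2 := by positivity
  have hKpos : 0 < KK n := by unfold KK; positivity
  have hK : KK n = 8 * (n + 2) ^ 2 := rfl
  -- the zeroth coordinate
  have hx0 : |x 0 - 1 / (n + 2)| ≤ 1 / (16 * ((n : ℝ) + 2) ^ 2) := by
    have h2 : |KK n * (x 0 - 1 / (n + 2))| ≤ 1 / 2 := by
      unfold qq at h0 h1
      rw [abs_le]; constructor <;> linarith
    rw [abs_mul, abs_of_pos hKpos] at h2
    rw [le_div_iff₀ (by positivity)]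
    rw [hK] at h2
    nlinarith [h2]
  -- the deviation
  have hy : KK n * ‖yy x‖ < 1 := by
    by_contra hcon
    apply hl
    unfold lamb
    rw [max_eq_left (by linarith)]
  have hy' : ∀ i, |yy x i| < 1 / (8 * ((n : ℝ) + 2) ^ 2) := by
    intro i
    have h3 : |yy x i| ≤ ‖yy x‖ := by
      rw [← Real.norm_eq_abs]
      exact norm_le_pi_norm _ i
    have h4 : ‖yy x‖ < 1 / (8 * ((n : ℝ) + 2) ^ 2) := by
      rw [lt_div_iff₀ (by positivity)]
      rw [hK] at hy
      linarith
    linarith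
  have hmean : |mean x - 1 / (n + 2)| ≤ 1 / (16 * ((n : ℝ) + 2) ^ 2) := by
    rw [mean_of_sum hx]
    have h5 : (1 - x 0) / ((n : ℝ) + 1) - 1 / (n + 2) = -(x 0 - 1 / (n + 2)) / (n + 1) := by
      field_simp
      ring
    rw [h5, abs_div, abs_neg]
    have h6 : |(n : ℝ) + 1| = n + 1 := abs_of_pos (by positivity)
    rw [h6, div_le_iff₀ (by positivity)]
    have h7 : (0 : ℝ) ≤ 1 / (16 * ((n : ℝ) + 2) ^ 2) := by positivity
    have h8 : (0 : ℝ) ≤ n := by positivity
    nlinarith
  intro i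
  have hq : (1 : ℝ) / (4 * (n + 2) ^ 2) = 4 * (1 / (16 * ((n : ℝ) + 2) ^ 2)) := by
    field_simp
    norm_num
  have hq2 : (1 : ℝ) / (8 * (n + 2) ^ 2) = 2 * (1 / (16 * ((n : ℝ) + 2) ^ 2)) := by
    field_simp
    norm_num
  have hpos : (0 : ℝ) < 1 / (16 * ((n : ℝ) + 2) ^ 2) := by positivity
  refine Fin.cases ?_ (fun i => ?_) i
  · rw [hq]; linarith
  · have h8 : x i.succ - 1 / (n + 2) = yy x i + (mean x - 1 / (n + 2)) := by
      unfold yy; ring
    rw [h8]
    have h9 := abs_add_le (yy x i) (mean x - 1 / (n + 2))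
    have h10 := hy' i
    rw [hq2] at h10
    rw [hq]
    linarith

/-- Away from the core the bubble has the base value. -/
lemma bub_not_core {n : ℕ} {x : Fin (n + 2) → ℝ} (hx : ∑ i, x i = 1) (hc : ¬ Core x)
    (a b c : ℝ) (z : ℤ) (habc : a + b + c = z) :
    bub (a * tauA x + b * tauB x + c * tauC x) x = base n := by
  by_cases hl : lamb x = 0
  · exact bub_of_lamb _ hl
  · have h : qq x < 0 ∨ 1 < qq x := by
      by_contra hcon
      push Not at hcon
      exact hc (core_of hx hl hcon.1 hcon.2)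
    rcases h with h | h
    · have h1 : tauA x = 0 := cl_of_le (by linarith)
      have h2 : tauB x = 0 := cl_of_le (by linarith)
      have h3 : tauC x = 0 := cl_of_le (by linarith)
      rw [h1, h2, h3]
      simp only [mul_zero, add_zero]
      exact bub_zero_left x
    · have h1 : tauA x = 1 := cl_of_ge (by linarith)
      have h2 : tauB x = 1 := cl_of_ge (by linarith)
      have h3 : tauC x = 1 := cl_of_ge (by linarith)
      rw [h1, h2, h3]
      simp only [mul_one]
      rw [habc]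
      exact bub_int z x

lemma qq_half_iff {n : ℕ} (x : Fin (n + 2) → ℝ) : qq x ≤ 1 / 2 ↔ x 0 ≤ 1 / (n + 2) := by
  have hKpos : 0 < KK n := by unfold KK; positivity
  unfold qq
  constructor
  · intro h
    by_contra hc
    push Not at hc
    have : 0 < KK n * (x 0 - 1 / (n + 2)) := mul_pos hKpos (by linarith)
    linarith
  · intro h
    have : KK n * (x 0 - 1 / (n + 2)) ≤ 0 :=
      mul_nonpos_of_nonneg_of_nonpos hKpos.le (by linarith)
    linarith

lemma bubA_ne {n : ℕ} {x : Fin (n + 2) → ℝ} (hx : ∑ i, x i = 1) (a : ℤ)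
    (h : bub (a * tauA x) x ≠ base n) : Core x ∧ x 0 < 1 / (n + 2) := by
  constructor
  · by_contra hc
    apply h
    have := bub_not_core hx hc a 0 0 a (by simp)
    simpa using this
  · by_contra hc
    push Not at hc
    apply h
    have h1 : 1 / 2 ≤ qq x := by
      have hKpos : 0 < KK n := by unfold KK; positivity
      unfold qq
      have : 0 ≤ KK n * (x 0 - 1 / (n + 2)) := mul_nonneg hKpos.le (by linarith)
      linarith
    have h2 : tauA x = 1 := cl_of_ge (by linarith)
    rw [h2, mul_one]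
    exact bub_int a x

lemma bubB_ne {n : ℕ} {x : Fin (n + 2) → ℝ} (hx : ∑ i, x i = 1) (a : ℤ)
    (h : bub (a * tauB x) x ≠ base n) : Core x ∧ 1 / (n + 2) < x 0 := by
  constructor
  · by_contra hc
    apply h
    have := bub_not_core hx hc 0 a 0 a (by simp)
    simpa using this
  · by_contra hc
    push Not at hc
    apply h
    have h1 : qq x ≤ 1 / 2 := (qq_half_iff x).2 hc
    have h2 : tauB x = 0 := cl_of_le (by linarith)
    rw [h2, mul_zero]
    exact bub_zero_left x

/-- the two slots do not interact -/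
lemma bub_slots {n : ℕ} (x : Fin (n + 2) → ℝ) (a b : ℤ) :
    base n + (bub (a * tauA x) x - base n) + (bub (b * tauB x) x - base n) =
      bub (a * tauA x + b * tauB x) x := by
  by_cases h : qq x ≤ 1 / 2
  · have h2 : tauB x = 0 := cl_of_le (by linarith)
    rw [h2, mul_zero, add_zero, bub_zero_left]
    abel
  · push Not at h
    have h2 : tauA x = 1 := cl_of_ge (by linarith)
    rw [h2, mul_one, bub_int, add_comm (a : ℝ), bub_add_int]
    abel

/-! ### the straight segment to the bubble of degree `-1` -/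

lemma segment_bub {n : ℕ} {x : Fin (n + 2) → ℝ} (hx0 : ∀ i, 0 ≤ x i) (hx : ∑ i, x i = 1)
    {s : ℝ} (hs0 : 0 ≤ s) (hs1 : s ≤ 1) : (1 - s) • x + s • bub (-tauC x) x ≠ 0 := by
  intro h
  have hn : (0 : ℝ) < n + 1 := by positivity
  set C := Real.cos (2 * Real.pi * tauC x) with hC
  set S := Real.sin (2 * Real.pi * tauC x) with hS
  have e1 : Real.cos (2 * Real.pi * (-tauC x)) = C := by
    rw [mul_neg, Real.cos_neg]
  have e2 : Real.sin (2 * Real.pi * (-tauC x)) = -S := by
    rw [mul_neg, Real.sin_neg]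
  have hs : s ≠ 0 := by
    rintro rfl
    have h2 : ∀ i, x i = 0 := by
      intro i
      have := congrFun h i
      simpa using this
    rw [Finset.sum_congr rfl fun i _ => h2 i] at hx
    simp at hx
  have hs' : 0 < s := lt_of_le_of_ne hs0 (Ne.symm hs)
  have h0 := congrFun h 0
  have hi : ∀ i : Fin (n + 1), (1 - s) * x i.succ +
      s * (-1 + lamb x * (1 - C) * (1 + yy x i)) = 0 := by
    intro i
    have := congrFun h i.succ
    simp only [Pi.add_apply, Pi.smul_apply, smul_eq_mul, Pi.zero_apply, bub_succ, e1] at this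
    exact this
  simp only [Pi.add_apply, Pi.smul_apply, smul_eq_mul, Pi.zero_apply, bub_zero, e1, e2] at h0
  -- the sum of the equations
  have hsum : (1 - s) * mean x = s * (1 - lamb x * (1 - C)) := by
    have h3 : ∑ i : Fin (n + 1), ((1 - s) * x i.succ +
      s * (-1 + lamb x * (1 - C) * (1 + yy x i))) = 0 :=
      Finset.sum_eq_zero fun i _ => hi i
    rw [Finset.sum_add_distrib, ← Finset.mul_sum, ← Finset.mul_sum, Finset.sum_add_distrib,
      ← Finset.mul_sum, Finset.sum_add_distrib, sum_yy] at h3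
    simp only [Finset.sum_const, Finset.card_univ, Fintype.card_fin, nsmul_eq_mul] at h3
    have h4 : ∑ j : Fin (n + 1), x j.succ = (n + 1) * mean x := by
      unfold mean
      field_simp
    rw [h4] at h3
    push_cast at h3
    have h5 : ((n : ℝ) + 1) * ((1 - s) * mean x - s * (1 - lamb x * (1 - C))) = 0 := by
      linarith
    rcases mul_eq_zero.1 h5 with h6 | h6
    · linarith
    · linarith
  -- the deviations vanish
  have hlam : 0 ≤ lamb x := le_max_left _ _
  have hC1 : C ≤ 1 := Real.cos_le_one _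
  have hbr : 0 < (1 - s) + s * (lamb x * (1 - C)) := by
    have h6 : 0 ≤ s * (lamb x * (1 - C)) :=
      mul_nonneg hs0 (mul_nonneg hlam (by linarith))
    rcases lt_or_eq_of_le hs1 with h7 | h7
    · linarith
    · exfalso
      rw [h7] at h
      simp only [sub_self, zero_smul, one_smul, zero_add] at h
      exact bub_ne_zero _ _ h
  have hy : yy x = 0 := by
    funext i
    have h6 := hi i
    have h7 : x i.succ = mean x + yy x i := by unfold yy; ring
    rw [h7] at h6
    have h8 : ((1 - s) + s * (lamb x * (1 - C))) * yy x i = 0 := by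
      linarith
    rcases mul_eq_zero.1 h8 with h9 | h9
    · linarith
    · exact h9
  have hl : lamb x = 1 := by
    unfold lamb
    rw [hy]
    simp
  rw [hl] at hsum h0
  have hmean : 0 ≤ mean x := by
    unfold mean
    exact div_nonneg (Finset.sum_nonneg fun i _ => hx0 _) hn.le
  have h1 : (1 - s) * (x 0 - mean x) = s * S := by linarith
  have hmx := mean_of_sum hx
  have hxm : x 0 - mean x = (n + 2) / (n + 1) * (x 0 - 1 / (n + 2)) := by
    rw [hmx]
    field_simp
    ring
  have hKpos : 0 < KK n := by unfold KK; positivity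
  have hpi := Real.pi_pos
  rcases lt_trichotomy (qq x) (1 / 2) with hq | hq | hq
  · -- left half
    have h2 : x 0 - 1 / (n + 2) < 0 := by
      by_contra hcon
      have : ¬ (x 0 < 1 / (n + 2)) := by push Not at hcon ⊢; linarith
      push Not at hcon
      have : 0 ≤ KK n * (x 0 - 1 / (n + 2)) := mul_nonneg hKpos.le hcon
      unfold qq at hq
      linarith
    have h3 : 0 ≤ tauC x ∧ tauC x ≤ 1 / 2 := by
      unfold tauC cl
      constructor
      · exact le_max_left _ _
      · exact max_le (by norm_num) ((min_le_right _ _).trans hq.le)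
    have h4 : 0 ≤ S := by
      rw [hS]
      apply Real.sin_nonneg_of_nonneg_of_le_pi
      · have := mul_nonneg hpi.le h3.1
        linarith
      · nlinarith [h3.2]
    have h5 : (1 - s) * (x 0 - mean x) < 0 := by
      rcases lt_or_eq_of_le hs1 with h7 | h7
      · apply mul_neg_of_pos_of_neg (by linarith)
        rw [hxm]
        exact mul_neg_of_pos_of_neg (by positivity) h2
      · exfalso
        rw [h7] at h
        simp only [sub_self, zero_smul, one_smul, zero_add] at h
        exact bub_ne_zero _ _ h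
    have := mul_nonneg hs0 h4
    linarith
  · have h2 : tauC x = 1 / 2 := by
      unfold tauC
      rw [hq]
      exact cl_of_mem (by norm_num) (by norm_num)
    have h3 : C = -1 := by
      rw [hC, h2, show 2 * Real.pi * (1 / 2) = Real.pi by ring, Real.cos_pi]
    rw [h3] at hsum
    have h4 : 0 ≤ (1 - s) * mean x := mul_nonneg (by linarith) hmean
    linarith
  · have h2 : 0 < x 0 - 1 / (n + 2) := by
      by_contra hcon
      push Not at hcon
      have : KK n * (x 0 - 1 / (n + 2)) ≤ 0 := mul_nonpos_of_nonneg_of_nonpos hKpos.le hcon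
      unfold qq at hq
      linarith
    have h3 : 1 / 2 ≤ tauC x ∧ tauC x ≤ 1 := by
      unfold tauC cl
      constructor
      · exact le_max_of_le_right (le_min (by norm_num) hq.le)
      · exact max_le (by norm_num) (min_le_left _ _)
    have h4 : S ≤ 0 := by
      rw [hS, show 2 * Real.pi * tauC x = (2 * Real.pi * tauC x - 2 * Real.pi) + 2 * Real.pi by ring,
        Real.sin_add_two_pi]
      apply Real.sin_nonpos_of_nonpos_of_neg_pi_le
      · nlinarith [h3.2]
      · nlinarith [h3.1]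
    have h5 : 0 < (1 - s) * (x 0 - mean x) := by
      rcases lt_or_eq_of_le hs1 with h7 | h7
      · apply mul_pos (by linarith)
        rw [hxm]
        exact mul_pos (by positivity) h2
      · exfalso
        rw [h7] at h
        simp only [sub_self, zero_smul, one_smul, zero_add] at h
        exact bub_ne_zero _ _ h
    have := mul_nonpos_of_nonneg_of_nonpos hs0 h4
    linarith

/-! ### merging two coordinates -/

/-- merge the coordinates `j` and `j + 1` -/
noncomputable def mer {n : ℕ} (j : Fin (n + 2)) (x : Fin (n + 3) → ℝ) : Fin (n + 2) → ℝ :=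
  fun a => (if a ≤ j then x a.castSucc else 0) + (if j ≤ a then x a.succ else 0)

lemma continuous_mer {n : ℕ} (j : Fin (n + 2)) : Continuous (mer j) := by
  refine continuous_pi fun a => ?_
  unfold mer
  split_ifs <;> fun_prop

lemma mer_lt {n : ℕ} {j a : Fin (n + 2)} (h : a < j) (x : Fin (n + 3) → ℝ) :
    mer j x a = x a.castSucc := by
  unfold mer
  rw [if_pos h.le, if_neg (not_le.2 h), add_zero]

lemma mer_gt {n : ℕ} {j a : Fin (n + 2)} (h : j < a) (x : Fin (n + 3) → ℝ) :
    mer j x a = x a.succ := by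
  unfold mer
  rw [if_neg (not_le.2 h), if_pos h.le, zero_add]

lemma mer_self {n : ℕ} (j : Fin (n + 2)) (x : Fin (n + 3) → ℝ) :
    mer j x j = x j.castSucc + x j.succ := by
  unfold mer
  rw [if_pos le_rfl, if_pos le_rfl]

lemma mer_insertNth_castSucc {n : ℕ} (j : Fin (n + 2)) (x : Fin (n + 2) → ℝ) :
    mer j (j.castSucc.insertNth 0 x) = x := by
  funext a
  rcases lt_trichotomy a j with h | h | h
  · rw [mer_lt h]
    have : a.castSucc = j.castSucc.succAbove a := by
      rw [Fin.succAbove_of_castSucc_lt _ _ (by simpa using h)]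
    rw [this, Fin.insertNth_apply_succAbove]
  · subst h
    rw [mer_self, Fin.insertNth_apply_same, zero_add]
    have : a.succ = a.castSucc.succAbove a := by
      rw [Fin.succAbove_of_le_castSucc _ _ le_rfl]
    rw [this, Fin.insertNth_apply_succAbove]
  · rw [mer_gt h]
    have : a.succ = j.castSucc.succAbove a := by
      rw [Fin.succAbove_of_le_castSucc _ _ (by simpa using h.le)]
    rw [this, Fin.insertNth_apply_succAbove]

lemma mer_insertNth_succ {n : ℕ} (j : Fin (n + 2)) (x : Fin (n + 2) → ℝ) :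
    mer j (j.succ.insertNth 0 x) = x := by
  funext a
  rcases lt_trichotomy a j with h | h | h
  · rw [mer_lt h]
    have : a.castSucc = j.succ.succAbove a := by
      rw [Fin.succAbove_of_castSucc_lt]
      rw [Fin.lt_def] at h ⊢
      simp
      omega
    rw [this, Fin.insertNth_apply_succAbove]
  · subst h
    rw [mer_self, Fin.insertNth_apply_same, add_zero]
    have : a.castSucc = a.succ.succAbove a := by
      rw [Fin.succAbove_of_castSucc_lt]
      simp
    rw [this, Fin.insertNth_apply_succAbove]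
  · rw [mer_gt h]
    have : a.succ = j.succ.succAbove a := by
      rw [Fin.succAbove_of_le_castSucc]
      rw [Fin.lt_def] at h
      rw [Fin.le_def]
      simp
      omega
    rw [this, Fin.insertNth_apply_succAbove]

lemma sum_mer {n : ℕ} (j : Fin (n + 2)) (x : Fin (n + 3) → ℝ) : ∑ a, mer j x a = ∑ a, x a := by
  have h : ∀ a, mer j x a = x (j.castSucc.succAbove a) + if a = j then x j.castSucc else 0 := by
    intro a
    rcases lt_trichotomy a j with h | h | h
    · rw [mer_lt h, if_neg h.ne, Fin.succAbove_of_castSucc_lt _ _ (by simpa using h), add_zero]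
    · subst h
      rw [mer_self, if_pos rfl, Fin.succAbove_of_le_castSucc _ _ le_rfl, add_comm]
    · rw [mer_gt h, if_neg h.ne', Fin.succAbove_of_le_castSucc _ _ (by simpa using h.le), add_zero]
  rw [Finset.sum_congr rfl fun a _ => h a, Finset.sum_add_distrib,
    Finset.sum_ite_eq' Finset.univ j, if_pos (Finset.mem_univ _), Fin.sum_univ_succAbove _ j.castSucc]
  ring

/-- on the other facets a coordinate vanishes -/
lemma mer_insertNth_other {n : ℕ} (i : Fin (n + 3)) (j : Fin (n + 2)) (h1 : i ≠ j.castSucc)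
    (h2 : i ≠ j.succ) (x : Fin (n + 2) → ℝ) : ∃ a, mer j (i.insertNth 0 x) a = 0 := by
  rcases lt_or_gt_of_ne h1 with h | h
  · have hlt : i.val < j.val := by simpa [Fin.lt_def] using h
    refine ⟨⟨i.val, by omega⟩, ?_⟩
    rw [mer_lt (by rw [Fin.lt_def]; exact hlt)]
    have : (⟨i.val, by omega⟩ : Fin (n + 2)).castSucc = i := by ext; simp
    rw [this, Fin.insertNth_apply_same]
  · have hlt : j.val + 1 < i.val := by
      rw [Fin.lt_def] at h
      simp only [Fin.val_castSucc] at h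
      rcases Nat.lt_or_ge (j.val + 1) i.val with h3 | h3
      · exact h3
      · exfalso
        apply h2
        ext
        simp
        omega
    refine ⟨⟨i.val - 1, by omega⟩, ?_⟩
    rw [mer_gt (by rw [Fin.lt_def]; simp; omega)]
    have : (⟨i.val - 1, by omega⟩ : Fin (n + 2)).succ = i := by ext; simp; omega
    rw [this, Fin.insertNth_apply_same]

lemma not_core_of_zero {n : ℕ} {x : Fin (n + 2) → ℝ} {a : Fin (n + 2)} (h : x a = 0) :
    ¬ Core x := by
  intro hc
  have h1 := hc a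
  rw [h, zero_sub, abs_neg, abs_of_pos (by positivity)] at h1
  rw [div_lt_div_iff₀ (by positivity) (by positivity)] at h1
  have : (0 : ℝ) ≤ n := by positivity
  nlinarith

/-- the slot of index `j` -/
noncomputable def slot {n : ℕ} (j : ℕ) (x : Fin (n + 2) → ℝ) : ℝ :=
  if j % 2 = 0 then tauA x else tauB x

lemma continuous_slot {n : ℕ} (j : ℕ) : Continuous (slot (n := n) j) := by
  unfold slot
  split_ifs
  · exact continuous_tauA
  · exact continuous_tauB

lemma bub_slot_ne {n : ℕ} {x : Fin (n + 2) → ℝ} (hx : ∑ i, x i = 1) (j : ℕ) (a : ℤ)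
    (h : bub (a * slot j x) x ≠ base n) :
    Core x ∧ (j % 2 = 0 → x 0 < 1 / (n + 2)) ∧ (j % 2 = 1 → 1 / (n + 2) < x 0) := by
  unfold slot at h
  split_ifs at h with hj
  · obtain ⟨h1, h2⟩ := bubA_ne hx a h
    exact ⟨h1, fun _ => h2, fun h3 => by omega⟩
  · obtain ⟨h1, h2⟩ := bubB_ne hx a h
    exact ⟨h1, fun h3 => by omega, fun _ => h2⟩

/-- the tubes are disjoint -/
lemma tubes_disjoint {n : ℕ} {x : Fin (n + 3) → ℝ} (hx0 : ∀ i, 0 ≤ x i) (hx : ∑ i, x i = 1)
    {i j : Fin (n + 2)} (hij : i < j) (a b : ℤ)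
    (h1 : bub (a * slot i.val (mer i x)) (mer i x) ≠ base n)
    (h2 : bub (b * slot j.val (mer j x)) (mer j x) ≠ base n) : False := by
  obtain ⟨c1, a1, b1⟩ := bub_slot_ne (by rw [sum_mer, hx]) _ _ h1
  obtain ⟨c2, a2, b2⟩ := bub_slot_ne (by rw [sum_mer, hx]) _ _ h2
  have hlt : i.val < j.val := hij
  rcases Nat.lt_or_ge (i.val + 1) j.val with h | h
  · -- far tubes
    have e1 := c1 i
    have e2 := c2 i
    have e3 := c2 ⟨i.val + 1, by omega⟩
    rw [mer_self] at e1
    rw [mer_lt hij] at e2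
    rw [mer_lt (by rw [Fin.lt_def]; exact h)] at e3
    have : (⟨i.val + 1, by omega⟩ : Fin (n + 2)).castSucc = i.succ := by ext; simp
    rw [this] at e3
    rw [abs_lt] at e1 e2 e3
    have h5 : (3 : ℝ) * (1 / (4 * (n + 2) ^ 2)) < 1 / (n + 2) := by
      rw [← mul_div_assoc, div_lt_div_iff₀ (by positivity) (by positivity)]
      have : (0 : ℝ) ≤ n := by positivity
      nlinarith
    linarith [e1.2, e2.1, e3.1]
  · have hj : j.val = i.val + 1 := by omega
    by_cases hi : i.val = 0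
    · -- i = 0, j = 1
      have i0 : i = 0 := by ext; exact hi
      subst i0
      have a1' := a1 (by simp)
      have b2' := b2 (by rw [hj]; simp)
      rw [mer_self] at a1'
      rw [mer_lt hij] at b2'
      have := hx0 (0 : Fin (n + 2)).succ
      linarith
    · have p1 : (0 : Fin (n + 2)) < i := by
        rw [Fin.pos_iff_ne_zero]
        rintro rfl
        exact hi rfl
      have p2 : (0 : Fin (n + 2)) < j := p1.trans hij
      rw [mer_lt p1] at a1 b1
      rw [mer_lt p2] at a2 b2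
      rcases Nat.mod_two_eq_zero_or_one i.val with h6 | h6
      · have := a1 h6
        have := b2 (by omega)
        linarith
      · have := b1 h6
        have := a2 (by omega)
        linarith

/-! ### the explicit filling -/

lemma cont_bub {n : ℕ} {X : Type*} [TopologicalSpace X] {f : X → ℝ} {g : X → Fin (n + 2) → ℝ}
    (hf : Continuous f) (hg : Continuous g) : Continuous fun x => bub (f x) (g x) := by
  have h := (continuous_bub (n := n)).comp (hf.prodMk hg)
  exact h

lemma base_ne_zero (n : ℕ) : base n ≠ 0 := by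
  intro h
  have := congrFun h 0
  simp [base] at this

lemma bub_slots' {n : ℕ} (x : Fin (n + 2) → ℝ) (i : ℕ) (a b : ℤ) :
    base n + (bub (a * slot i x) x - base n) + (bub (b * slot (i + 1) x) x - base n) =
      bub (a * slot i x + b * slot (i + 1) x) x := by
  unfold slot
  rcases Nat.mod_two_eq_zero_or_one i with h | h
  · rw [if_pos h, if_neg (by omega)]
    exact bub_slots x a b
  · rw [if_neg (by omega), if_pos (by omega)]
    rw [add_comm ((a : ℝ) * _), ← bub_slots x b a]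
    abel

/-- the explicit filling -/
noncomputable def fillV {n : ℕ} (T : ℕ → ℤ) (x : Fin (n + 3) → ℝ) : Fin (n + 2) → ℝ :=
  base n + ∑ j : Fin (n + 2), (bub (T (j.val + 1) * slot j.val (mer j x)) (mer j x) - base n)

lemma continuous_fillV {n : ℕ} (T : ℕ → ℤ) : Continuous (fillV (n := n) T) := by
  have h0 : ∀ j : Fin (n + 2), Continuous fun x : Fin (n + 3) → ℝ =>
      bub (T (j.val + 1) * slot j.val (mer j x)) (mer j x) := by
    intro j
    have h1 := continuous_mer j
    have h2 : Continuous fun x : Fin (n + 3) → ℝ => (T (j.val + 1) : ℝ) * slot j.val (mer j x) :=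
      continuous_const.mul ((continuous_slot j.val).comp h1)
    exact cont_bub h2 h1
  have h4 : Continuous fun x : Fin (n + 3) → ℝ =>
      ∑ j : Fin (n + 2), (bub (T (j.val + 1) * slot j.val (mer j x)) (mer j x) - base n) :=
    continuous_finsetSum _ fun j _ => (h0 j).sub continuous_const
  exact continuous_const.add h4

lemma fillV_ne_zero {n : ℕ} (T : ℕ → ℤ) {x : Fin (n + 3) → ℝ}
    (hx : x ∈ stdSimplex ℝ (Fin (n + 3))) : fillV T x ≠ 0 := by
  by_cases h : ∀ j : Fin (n + 2), bub (T (j.val + 1) * slot j.val (mer j x)) (mer j x) = base n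
  · unfold fillV
    rw [Finset.sum_eq_zero fun j _ => by rw [h j, sub_self], add_zero]
    exact base_ne_zero n
  · push Not at h
    obtain ⟨j, hj⟩ := h
    have h2 : ∀ i : Fin (n + 2), i ≠ j →
        bub (T (i.val + 1) * slot i.val (mer i x)) (mer i x) = base n := by
      intro i hij
      by_contra hi
      rcases lt_or_gt_of_ne hij with h3 | h3
      · exact tubes_disjoint hx.1 hx.2 h3 _ _ hi hj
      · exact tubes_disjoint hx.1 hx.2 h3 _ _ hj hi
    unfold fillV
    rw [Finset.sum_eq_single j (fun i _ hi => by rw [h2 i hi, sub_self])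
      (fun h3 => absurd (Finset.mem_univ _) h3)]
    rw [add_sub_cancel]
    exact bub_ne_zero _ _

lemma sum_insertNth_zero {n : ℕ} (i : Fin (n + 3)) (x : Fin (n + 2) → ℝ) :
    ∑ a, (i.insertNth 0 x : Fin (n + 3) → ℝ) a = ∑ a, x a := by
  rw [Fin.sum_univ_succAbove _ i, Fin.insertNth_apply_same, zero_add]
  simp only [Fin.insertNth_apply_succAbove]

lemma insertNth_mem {n : ℕ} (i : Fin (n + 3)) {x : Fin (n + 2) → ℝ}
    (hx : x ∈ stdSimplex ℝ (Fin (n + 2))) :
    (i.insertNth 0 x : Fin (n + 3) → ℝ) ∈ stdSimplex ℝ (Fin (n + 3)) := by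
  refine ⟨fun a => ?_, ?_⟩
  · refine Fin.succAboveCases i ?_ (fun a => ?_) a
    · rw [Fin.insertNth_apply_same]
    · rw [Fin.insertNth_apply_succAbove]; exact hx.1 a
  · rw [sum_insertNth_zero, hx.2]

lemma term_other {n : ℕ} (T : ℕ → ℤ) {x : Fin (n + 2) → ℝ}
    (hx : x ∈ stdSimplex ℝ (Fin (n + 2))) (i : Fin (n + 3)) (j : Fin (n + 2))
    (h1 : i ≠ j.castSucc) (h2 : i ≠ j.succ) :
    bub (T (j.val + 1) * slot j.val (mer j (i.insertNth 0 x))) (mer j (i.insertNth 0 x)) = base n := by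
  by_contra h
  have hs : ∑ a, mer j (i.insertNth 0 x) a = 1 := by
    rw [sum_mer, sum_insertNth_zero, hx.2]
  obtain ⟨hc, -, -⟩ := bub_slot_ne hs _ _ h
  obtain ⟨a, ha⟩ := mer_insertNth_other i j h1 h2 x
  exact not_core_of_zero ha hc

lemma fillV_facet {n : ℕ} (T : ℕ → ℤ) (hT0 : T 0 = 0) (hT1 : T (n + 3) = 0)
    {x : Fin (n + 2) → ℝ} (hx : x ∈ stdSimplex ℝ (Fin (n + 2))) (i : Fin (n + 3)) :
    fillV T (i.insertNth 0 x) =
      bub (T (i.val + 1) * slot i.val x + T i.val * slot (i.val + 1) x) x := by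
  rw [← bub_slots']
  unfold fillV
  have hg : ∀ j : Fin (n + 2), i ≠ j.castSucc → i ≠ j.succ →
      bub (T (j.val + 1) * slot j.val (mer j (i.insertNth 0 x))) (mer j (i.insertNth 0 x)) - base n
        = 0 := by
    intro j h1 h2
    rw [term_other T hx i j h1 h2, sub_self]
  rw [add_assoc]
  congr 1
  by_cases h0 : i.val = 0
  · -- first facet
    have hi : i = (0 : Fin (n + 2)).castSucc := by ext; simp [h0]
    have h00 : i.val = (0 : Fin (n + 2)).val := by rw [h0]; rfl
    rw [Finset.sum_eq_single (0 : Fin (n + 2))]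
    · rw [h0, hT0]
      simp only [Int.cast_zero, zero_mul, bub_zero_left, sub_self, add_zero]
      rw [hi, mer_insertNth_castSucc]
      simp
    · intro j _ hj
      apply hg j
      · rw [hi]; intro h; exact hj (Fin.castSucc_injective _ h).symm
      · intro h
        have := congrArg Fin.val h
        simp [h0] at this
    · intro h; exact absurd (Finset.mem_univ _) h
  · by_cases h1 : i.val = n + 2
    · -- last facet
      have hi : i = (Fin.last (n + 1)).succ := by ext; simp [h1]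
      rw [Finset.sum_eq_single (Fin.last (n + 1))]
      · rw [hi, mer_insertNth_succ]
        have e1 : (Fin.last (n + 1)).succ.val = n + 2 := by simp
        have e2 : (Fin.last (n + 1)).val = n + 1 := by simp
        rw [e1, e2, show n + 2 + 1 = n + 3 by rfl, hT1]
        have e3 : slot (n + 3) x = slot (n + 1) x := by
          unfold slot
          have : (n + 3) % 2 = (n + 1) % 2 := by omega
          rw [this]
        rw [e3]
        simp only [Int.cast_zero, zero_mul, bub_zero_left, sub_self, zero_add]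
      · intro j _ hj
        apply hg j
        · intro h
          have := congrArg Fin.val h
          rw [h1] at this
          simp at this
          omega
        · rw [hi]; intro h; exact hj (Fin.succ_injective _ h).symm
      · intro h; exact absurd (Finset.mem_univ _) h
    · -- middle facets
      have hlt : i.val < n + 2 := by omega
      obtain ⟨j1, hj1⟩ : ∃ j1 : Fin (n + 2), j1.val = i.val := ⟨⟨i.val, hlt⟩, rfl⟩
      obtain ⟨j2, hj2⟩ : ∃ j2 : Fin (n + 2), j2.val + 1 = i.val :=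
        ⟨⟨i.val - 1, by omega⟩, by simp; omega⟩
      have hi1 : i = j1.castSucc := by ext; simp [hj1]
      have hi2 : i = j2.succ := by ext; simp [hj2]
      have hne : j1 ≠ j2 := by
        rintro rfl
        omega
      rw [← Finset.sum_subset (Finset.subset_univ {j1, j2})]
      · rw [Finset.sum_pair hne]
        congr 1
        · rw [hi1, mer_insertNth_castSucc]
          simp
        · rw [hi2, mer_insertNth_succ]
          have e1 : j2.succ.val = j2.val + 1 := by simp
          rw [e1]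
          have e3 : slot (j2.val + 1 + 1) x = slot j2.val x := by
            unfold slot
            have : (j2.val + 1 + 1) % 2 = j2.val % 2 := by omega
            rw [this]
          rw [e3]
      · intro j _ hj
        simp only [Finset.mem_insert, Finset.mem_singleton, not_or] at hj
        apply hg j
        · rw [hi1]; intro h; exact hj.1 (Fin.castSucc_injective _ h).symm
        · rw [hi2]; intro h; exact hj.2 (Fin.succ_injective _ h).symm

/-- partial alternating sums -/
def TT (N : ℕ → ℤ) : ℕ → ℤ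
  | 0 => 0
  | (i + 1) => N i - TT N i

lemma TT_sum (N : ℕ → ℤ) (k : ℕ) : (-1 : ℤ) ^ k * TT N k = - ∑ i ∈ Finset.range k, (-1) ^ i * N i := by
  induction k with
  | zero => simp [TT]
  | succ k ih =>
    rw [Finset.sum_range_succ, TT, pow_succ]
    linarith

/-- two maps of the simplex, equal to the base value on the boundary, are homotopic -/
def RelHom {n : ℕ} (f g : (Fin (n + 2) → ℝ) → (Fin (n + 2) → ℝ)) : Prop :=
  ∃ H : ℝ → (Fin (n + 2) → ℝ) → (Fin (n + 2) → ℝ),
    ContinuousOn (fun p : ℝ × (Fin (n + 2) → ℝ) => H p.1 p.2)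
      (Icc (0 : ℝ) 1 ×ˢ stdSimplex ℝ (Fin (n + 2))) ∧
    (∀ s ∈ Icc (0 : ℝ) 1, ∀ x ∈ stdSimplex ℝ (Fin (n + 2)), H s x ≠ 0) ∧
    (∀ x ∈ stdSimplex ℝ (Fin (n + 2)), H 0 x = f x) ∧
    (∀ x ∈ stdSimplex ℝ (Fin (n + 2)), H 1 x = g x) ∧
    ∀ s ∈ Icc (0 : ℝ) 1, ∀ x ∈ stdSimplex ℝ (Fin (n + 2)), (∃ i, x i = 0) → H s x = base n

lemma slot_lin {n : ℕ} (i : ℕ) (x : Fin (n + 2) → ℝ) (a b c : ℝ) : ∃ a' b' : ℝ,
    a' + b' = a + b ∧ a * slot i x + b * slot (i + 1) x + c * tauC x =
      a' * tauA x + b' * tauB x + c * tauC x := by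
  unfold slot
  rcases Nat.mod_two_eq_zero_or_one i with h | h
  · rw [if_pos h, if_neg (by omega)]
    exact ⟨a, b, rfl, rfl⟩
  · rw [if_neg (by omega), if_pos (by omega)]
    exact ⟨b, a, by ring, by ring⟩

lemma relHom_slots {n : ℕ} (i : ℕ) (a b c : ℤ) (h : c = a + b) :
    RelHom (fun x : Fin (n + 2) → ℝ => bub (c * tauC x) x)
      (fun x => bub (a * slot i x + b * slot (i + 1) x) x) := by
  refine ⟨fun s x => bub ((s * a) * slot i x + (s * b) * slot (i + 1) x + ((1 - s) * c) * tauC x) x,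
    ?_, ?_, ?_, ?_, ?_⟩
  · apply Continuous.continuousOn
    have h1 : Continuous fun p : ℝ × (Fin (n + 2) → ℝ) => slot i p.2 :=
      (continuous_slot i).comp continuous_snd
    have h2 : Continuous fun p : ℝ × (Fin (n + 2) → ℝ) => slot (i + 1) p.2 :=
      (continuous_slot (i + 1)).comp continuous_snd
    have h3 : Continuous fun p : ℝ × (Fin (n + 2) → ℝ) => tauC p.2 :=
      continuous_tauC.comp continuous_snd
    have h4 : Continuous fun p : ℝ × (Fin (n + 2) → ℝ) =>
        (p.1 * (a : ℝ)) * slot i p.2 + (p.1 * (b : ℝ)) * slot (i + 1) p.2 +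
          ((1 - p.1) * (c : ℝ)) * tauC p.2 :=
      (((continuous_fst.mul continuous_const).mul h1).add
        ((continuous_fst.mul continuous_const).mul h2)).add
        (((continuous_const.sub continuous_fst).mul continuous_const).mul h3)
    exact cont_bub h4 continuous_snd
  · intro s _ x _
    exact bub_ne_zero _ _
  · intro x _
    simp
  · intro x _
    simp
  · intro s _ x hx hi
    obtain ⟨k, hk⟩ := hi
    obtain ⟨a', b', h1, h2⟩ := slot_lin i x (s * a) (s * b) ((1 - s) * c)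
    simp only [h2]
    refine bub_not_core hx.2 (not_core_of_zero hk) _ _ _ c ?_
    rw [h1, h]
    push_cast
    ring

/-- Explicit filling of a family of bubbles with vanishing alternating sum. -/
theorem exists_fill {n : ℕ} (N : Fin (n + 3) → ℤ) (hN : ∑ i : Fin (n + 3), (-1 : ℤ) ^ (i : ℕ) * N i = 0) :
    ∃ (V : (Fin (n + 3) → ℝ) → (Fin (n + 2) → ℝ))
      (g : Fin (n + 3) → (Fin (n + 2) → ℝ) → (Fin (n + 2) → ℝ)), Continuous V ∧
      (∀ x ∈ stdSimplex ℝ (Fin (n + 3)), V x ≠ 0) ∧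
      (∀ i, ∀ x ∈ stdSimplex ℝ (Fin (n + 2)), V (i.insertNth 0 x) = g i x) ∧
      ∀ i, RelHom (fun x => bub (N i * tauC x) x) (g i) := by
  let N' : ℕ → ℤ := fun i => if h : i < n + 3 then N ⟨i, h⟩ else 0
  have hN' : ∀ i : Fin (n + 3), N' i = N i := by
    intro i
    simp [N']
  have hT1 : TT N' (n + 3) = 0 := by
    have h1 := TT_sum N' (n + 3)
    have h2 : ∑ i ∈ Finset.range (n + 3), (-1 : ℤ) ^ i * N' i = 0 := by
      rw [Finset.sum_range]
      rw [← hN]
      refine Finset.sum_congr rfl fun i _ => ?_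
      rw [hN']
    rw [h2, neg_zero] at h1
    rcases mul_eq_zero.1 h1 with h3 | h3
    · exact absurd h3 (pow_ne_zero _ (by norm_num))
    · exact h3
  refine ⟨fillV (TT N'), fun i x => bub (TT N' (i.val + 1) * slot i.val x + TT N' i.val * slot (i.val + 1) x) x,
    continuous_fillV _, fun x hx => fillV_ne_zero _ hx, fun i x hx => ?_, fun i => ?_⟩
  · exact fillV_facet (TT N') rfl hT1 hx i
  · apply relHom_slots
    rw [← hN' i, TT]
    ring

end Hopf

end MP629748

end part1

section part2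

/-! P9 (4) (helper28): permutations of the coordinates act on bubbles by the sign. -/

open Set Filter Topology MeasureTheory Metric
open scoped NNReal Cardinal

namespace MP629748

namespace Hopf

lemma RelHom.symm {n : ℕ} {f g : (Fin (n + 2) → ℝ) → (Fin (n + 2) → ℝ)} (h : RelHom f g) :
    RelHom g f := by
  obtain ⟨H, h1, h2, h3, h4, h5⟩ := h
  refine ⟨fun s x => H (1 - s) x, ?_, ?_, ?_, ?_, ?_⟩
  · refine h1.comp (f := fun p : ℝ × (Fin (n + 2) → ℝ) => (1 - p.1, p.2)) (by fun_prop) ?_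
    rintro ⟨s, x⟩ ⟨hs, hx⟩
    exact ⟨⟨by simpa using hs.2, by simpa using hs.1⟩, hx⟩
  · intro s hs x hx
    exact h2 (1 - s) ⟨by linarith [hs.2], by linarith [hs.1]⟩ x hx
  · intro x hx
    simpa using h4 x hx
  · intro x hx
    simpa using h3 x hx
  · intro s hs x hx hb
    exact h5 (1 - s) ⟨by linarith [hs.2], by linarith [hs.1]⟩ x hx hb

lemma RelHom.trans {n : ℕ} {f g k : (Fin (n + 2) → ℝ) → (Fin (n + 2) → ℝ)} (h : RelHom f g)
    (h' : RelHom g k) : RelHom f k := by
  obtain ⟨H, h1, h2, h3, h4, h5⟩ := h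
  obtain ⟨H', h1', h2', h3', h4', h5'⟩ := h'
  refine ⟨fun s x => if s ≤ 1 / 2 then H (2 * s) x else H' (2 * s - 1) x, ?_, ?_, ?_, ?_, ?_⟩
  · have hA : IsClosed {p : ℝ × (Fin (n + 2) → ℝ) | p.1 ≤ 1 / 2} :=
      isClosed_le continuous_fst continuous_const
    have e1 : ContinuousOn (fun p : ℝ × (Fin (n + 2) → ℝ) =>
        if p.1 ≤ 1 / 2 then H (2 * p.1) p.2 else H' (2 * p.1 - 1) p.2)
        (Icc (0:ℝ) (1/2) ×ˢ stdSimplex ℝ (Fin (n + 2))) := by
      refine ContinuousOn.congr (f := fun p : ℝ × (Fin (n + 2) → ℝ) => H (2 * p.1) p.2) ?_ ?_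
      · refine h1.comp (f := fun p : ℝ × (Fin (n + 2) → ℝ) => (2 * p.1, p.2)) (by fun_prop) ?_
        rintro ⟨s, x⟩ ⟨hs, hx⟩
        exact ⟨⟨by show 0 ≤ 2 * s; linarith [hs.1], by show 2 * s ≤ 1; linarith [hs.2]⟩, hx⟩
      · rintro ⟨s, x⟩ ⟨hs, hx⟩
        exact if_pos hs.2
    have e2 : ContinuousOn (fun p : ℝ × (Fin (n + 2) → ℝ) =>
        if p.1 ≤ 1 / 2 then H (2 * p.1) p.2 else H' (2 * p.1 - 1) p.2)
        (Icc (1/2:ℝ) 1 ×ˢ stdSimplex ℝ (Fin (n + 2))) := by
      refine ContinuousOn.congr (f := fun p : ℝ × (Fin (n + 2) → ℝ) => H' (2 * p.1 - 1) p.2) ?_ ?_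
      · refine h1'.comp (f := fun p : ℝ × (Fin (n + 2) → ℝ) => (2 * p.1 - 1, p.2))
          (by fun_prop) ?_
        rintro ⟨s, x⟩ ⟨hs, hx⟩
        exact ⟨⟨by show 0 ≤ 2 * s - 1; linarith [hs.1], by show 2 * s - 1 ≤ 1; linarith [hs.2]⟩, hx⟩
      · rintro ⟨s, x⟩ ⟨hs, hx⟩
        by_cases hs' : s ≤ 1 / 2
        · have hs2 : s = 1 / 2 := le_antisymm hs' hs.1
          subst hs2
          show (if (1/2:ℝ) ≤ 1 / 2 then H (2 * (1/2)) x else H' (2 * (1/2) - 1) x) =
            H' (2 * (1/2) - 1) x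
          rw [if_pos le_rfl]
          have a1 : (2:ℝ) * (1/2) = 1 := by norm_num
          have a2 : (2:ℝ) * (1/2) - 1 = 0 := by norm_num
          rw [a2, a1, h4 x hx, h3' x hx]
        · exact if_neg hs'
    have e3 := e1.union_of_isClosed e2 (isClosed_Icc.prod (isClosed_stdSimplex ℝ _))
      (isClosed_Icc.prod (isClosed_stdSimplex ℝ _))
    refine e3.mono ?_
    rintro ⟨s, x⟩ ⟨hs, hx⟩
    rcases le_total s (1/2) with h | h
    · exact Or.inl ⟨⟨hs.1, h⟩, hx⟩
    · exact Or.inr ⟨⟨h, hs.2⟩, hx⟩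
  · intro s hs x hx
    beta_reduce
    by_cases hs' : s ≤ 1 / 2
    · rw [if_pos hs']; exact h2 _ ⟨by linarith [hs.1], by linarith⟩ x hx
    · rw [if_neg hs']; exact h2' _ ⟨by linarith, by linarith [hs.2]⟩ x hx
  · intro x hx
    beta_reduce
    rw [if_pos (by norm_num), mul_zero]
    exact h3 x hx
  · intro x hx
    beta_reduce
    rw [if_neg (by norm_num)]
    have a2 : (2:ℝ) * 1 - 1 = 1 := by norm_num
    rw [a2]
    exact h4' x hx
  · intro s hs x hx hb
    beta_reduce
    by_cases hs' : s ≤ 1 / 2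
    · rw [if_pos hs']; exact h5 _ ⟨by linarith [hs.1], by linarith⟩ x hx hb
    · rw [if_neg hs']; exact h5' _ ⟨by linarith, by linarith [hs.2]⟩ x hx hb

lemma RelHom.congr {n : ℕ} {f g f' g' : (Fin (n + 2) → ℝ) → (Fin (n + 2) → ℝ)} (h : RelHom f g)
    (hf : ∀ x ∈ stdSimplex ℝ (Fin (n + 2)), f' x = f x)
    (hg : ∀ x ∈ stdSimplex ℝ (Fin (n + 2)), g' x = g x) : RelHom f' g' := by
  obtain ⟨H, h1, h2, h3, h4, h5⟩ := h
  exact ⟨H, h1, h2, fun x hx => (h3 x hx).trans (hf x hx).symm,
    fun x hx => (h4 x hx).trans (hg x hx).symm, h5⟩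

lemma perm_mem {n : ℕ} (σ : Equiv.Perm (Fin (n + 2))) {x : Fin (n + 2) → ℝ}
    (hx : x ∈ stdSimplex ℝ (Fin (n + 2))) : x ∘ σ ∈ stdSimplex ℝ (Fin (n + 2)) :=
  ⟨fun i => hx.1 _, by rw [← hx.2]; exact Equiv.sum_comp σ x⟩

lemma RelHom.comp_perm {n : ℕ} {f g : (Fin (n + 2) → ℝ) → (Fin (n + 2) → ℝ)} (h : RelHom f g)
    (σ : Equiv.Perm (Fin (n + 2))) : RelHom (fun x => f (x ∘ σ)) (fun x => g (x ∘ σ)) := by
  obtain ⟨H, h1, h2, h3, h4, h5⟩ := h
  refine ⟨fun s x => H s (x ∘ σ), ?_, ?_, ?_, ?_, ?_⟩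
  · refine h1.comp (f := fun p : ℝ × (Fin (n + 2) → ℝ) => (p.1, p.2 ∘ σ)) ?_ ?_
    · refine Continuous.continuousOn (continuous_fst.prodMk ?_)
      exact continuous_pi (fun i => (continuous_apply (σ i)).comp continuous_snd)
    · rintro ⟨s, x⟩ ⟨hs, hx⟩
      exact ⟨hs, perm_mem σ hx⟩
  · intro s hs x hx; exact h2 s hs _ (perm_mem σ hx)
  · intro x hx; exact h3 _ (perm_mem σ hx)
  · intro x hx; exact h4 _ (perm_mem σ hx)
  · rintro s hs x hx ⟨i, hi⟩
    exact h5 s hs _ (perm_mem σ hx) ⟨σ.symm i, by simpa using hi⟩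

/-- the bubble of degree `z` -/
noncomputable def fz {n : ℕ} (z : ℤ) (x : Fin (n + 2) → ℝ) : Fin (n + 2) → ℝ :=
  bub (z * tauC x) x

lemma continuous_fz {n : ℕ} (z : ℤ) : Continuous (fz (n := n) z) := by
  have h : Continuous (fun x : Fin (n + 2) → ℝ => ((z : ℝ) * tauC x, x)) :=
    (continuous_const.mul continuous_tauC).prodMk continuous_id
  have h2 := (continuous_bub (n := n)).comp h
  exact h2

lemma fz_ne_zero {n : ℕ} (z : ℤ) (x : Fin (n + 2) → ℝ) : fz z x ≠ 0 := bub_ne_zero _ _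

lemma fz_not_core {n : ℕ} (z : ℤ) {x : Fin (n + 2) → ℝ} (hx : ∑ i, x i = 1) (hc : ¬ Core x) :
    fz z x = base n := by
  have := bub_not_core hx hc 0 0 z z (by simp)
  simpa [fz] using this

lemma RelHom.refl_fz {n : ℕ} (z : ℤ) : RelHom (fz (n := n) z) (fz z) := by
  refine ⟨fun _ x => fz z x, ?_, ?_, ?_, ?_, ?_⟩
  · exact ((continuous_fz z).comp continuous_snd).continuousOn
  · intro s _ x _; exact fz_ne_zero z x
  · intro x _; rfl
  · intro x _; rfl
  · rintro s _ x hx ⟨i, hi⟩
    exact fz_not_core z hx.2 (not_core_of_zero hi)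

/-! ### reflections -/

/-- reflection at the barycentre in the vector `v` -/
noncomputable def refl {n : ℕ} (v x : Fin (n + 2) → ℝ) : Fin (n + 2) → ℝ := fun i =>
  x i - (2 * (∑ j, v j * (x j - 1 / (n + 2))) / (∑ j, v j * v j)) * v i

lemma refl_sum {n : ℕ} {v x : Fin (n + 2) → ℝ} (hv : ∑ i, v i = 0) :
    ∑ i, refl v x i = ∑ i, x i := by
  unfold refl
  rw [Finset.sum_sub_distrib, ← Finset.mul_sum, hv, mul_zero, sub_zero]

lemma refl_dist {n : ℕ} {v x : Fin (n + 2) → ℝ} (hv : ∑ j, v j * v j ≠ 0) :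
    ∑ i, (refl v x i - 1 / (n + 2)) ^ 2 = ∑ i, (x i - 1 / (n + 2)) ^ 2 := by
  set c := 2 * (∑ j, v j * (x j - 1 / ((n:ℝ) + 2))) / (∑ j, v j * v j) with hc
  have h1 : ∀ i, (refl v x i - 1 / (n + 2)) ^ 2 = (x i - 1 / (n + 2)) ^ 2 -
      2 * c * (v i * (x i - 1 / (n + 2))) + c ^ 2 * (v i * v i) := by
    intro i
    have : refl v x i = x i - c * v i := rfl
    rw [this]; ring
  rw [Finset.sum_congr rfl (fun i _ => h1 i), Finset.sum_add_distrib, Finset.sum_sub_distrib,
    ← Finset.mul_sum, ← Finset.mul_sum]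
  have h2 : c * (∑ j, v j * v j) = 2 * (∑ j, v j * (x j - 1 / ((n:ℝ) + 2))) := by
    rw [hc, div_mul_cancel₀ _ hv]
  have h3 : c ^ 2 * (∑ j, v j * v j) = 2 * c * (∑ j, v j * (x j - 1 / ((n:ℝ) + 2))) := by
    rw [pow_two, mul_assoc, h2]; ring
  rw [h3]; ring

/-- reflections do not move the boundary into the core -/
lemma refl_not_core {n : ℕ} {v x : Fin (n + 2) → ℝ} (hv : ∑ j, v j * v j ≠ 0)
    (hb : ∃ i, x i = 0) : ¬ Core (refl v x) := by
  obtain ⟨i, hi⟩ := hb
  intro hc
  have h1 : (1 / ((n:ℝ) + 2)) ^ 2 ≤ ∑ i, (x i - 1 / (n + 2)) ^ 2 := by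
    have := Finset.single_le_sum (f := fun i => (x i - 1 / ((n:ℝ) + 2)) ^ 2)
      (fun j _ => sq_nonneg _) (Finset.mem_univ i)
    refine le_trans ?_ this
    show (1 / ((n:ℝ) + 2)) ^ 2 ≤ (x i - 1 / (n + 2)) ^ 2
    rw [hi, zero_sub, neg_sq]
  rw [← refl_dist hv] at h1
  have h2 : ∑ i, (refl v x i - 1 / (n + 2)) ^ 2 ≤
      ∑ _i : Fin (n + 2), (1 / (4 * ((n:ℝ) + 2) ^ 2)) ^ 2 := by
    refine Finset.sum_le_sum (fun j _ => ?_)
    have := (hc j).le
    rw [← sq_abs]
    gcongr
  rw [Finset.sum_const, Finset.card_univ, Fintype.card_fin, nsmul_eq_mul] at h2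
  have h3 : ((n + 2 : ℕ) : ℝ) * (1 / (4 * ((n:ℝ) + 2) ^ 2)) ^ 2 < (1 / ((n:ℝ) + 2)) ^ 2 := by
    push_cast
    have hn : (0:ℝ) ≤ n := by positivity
    rw [one_div, one_div, inv_pow, inv_pow, ← div_eq_mul_inv, div_lt_iff₀ (by positivity),
      inv_mul_eq_div, lt_div_iff₀ (by positivity)]
    nlinarith [pow_pos (by positivity : (0:ℝ) < n + 2) 3]
  linarith

/-- reflection in `e i - e j` is the transposition -/
lemma refl_swap {n : ℕ} {i j : Fin (n + 2)} (hij : i ≠ j) (x : Fin (n + 2) → ℝ) :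
    refl (fun a => (if a = i then 1 else 0) - (if a = j then 1 else 0)) x =
      x ∘ Equiv.swap i j := by
  have h1 : ∑ a : Fin (n + 2), ((if a = i then (1:ℝ) else 0) - (if a = j then 1 else 0)) *
      (x a - 1 / (n + 2)) = x i - x j := by
    simp only [sub_mul, Finset.sum_sub_distrib, ite_mul, one_mul, zero_mul]
    rw [Finset.sum_ite_eq', Finset.sum_ite_eq']
    simp
  have h2 : ∑ a : Fin (n + 2), ((if a = i then (1:ℝ) else 0) - (if a = j then 1 else 0)) *
      ((if a = i then (1:ℝ) else 0) - (if a = j then 1 else 0)) = 2 := by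
    have : ∀ a : Fin (n + 2), ((if a = i then (1:ℝ) else 0) - (if a = j then 1 else 0)) *
      ((if a = i then (1:ℝ) else 0) - (if a = j then 1 else 0)) =
        (if a = i then (1:ℝ) else 0) + (if a = j then 1 else 0) := by
      intro a
      by_cases h : a = i
      · by_cases h' : a = j
        · exact absurd (h.symm.trans h') hij
        · simp [h, hij]
      · by_cases h' : a = j
        · simp [h', hij.symm]
        · simp [h, h']
    rw [Finset.sum_congr rfl (fun a _ => this a), Finset.sum_add_distrib, Finset.sum_ite_eq',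
      Finset.sum_ite_eq']
    simp; norm_num
  funext a
  unfold refl
  rw [h1, h2]
  by_cases h : a = i
  · subst h
    simp [hij]
  · by_cases h' : a = j
    · subst h'
      simp [h]
    · simp [h, h', Equiv.swap_apply_of_ne_of_ne h h']

/-- the vector `(n+1, -1, ..., -1)` -/
def uu (n : ℕ) : Fin (n + 2) → ℝ := fun a => if a = 0 then n + 1 else -1

lemma sum_uu (n : ℕ) : ∑ a, uu n a = 0 := by
  rw [Fin.sum_univ_succ]
  simp [uu]

lemma refl_uu {n : ℕ} {x : Fin (n + 2) → ℝ} (hx : ∑ i, x i = 1) (i : Fin (n + 2)) :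
    refl (uu n) x i = x i - 2 * (x 0 - 1 / (n + 2)) / (n + 1) * uu n i := by
  have h1 : ∑ j : Fin (n + 2), uu n j * (x j - 1 / (n + 2)) = (n + 2) * (x 0 - 1 / (n + 2)) := by
    have : ∀ j : Fin (n + 2), uu n j * (x j - 1 / (n + 2)) =
        (if j = 0 then ((n:ℝ) + 2) * (x 0 - 1 / (n + 2)) else 0) - (x j - 1 / (n + 2)) := by
      intro j
      unfold uu
      by_cases h : j = 0
      · subst h; simp; ring
      · simp [h]
    rw [Finset.sum_congr rfl (fun j _ => this j), Finset.sum_sub_distrib, Finset.sum_ite_eq',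
      Finset.sum_sub_distrib, hx]
    simp
    field_simp
    ring
  have h2 : ∑ j : Fin (n + 2), uu n j * uu n j = (n + 1) * (n + 2) := by
    rw [Fin.sum_univ_succ]
    simp [uu]
    ring
  unfold refl
  rw [h1, h2]
  have : (2:ℝ) * ((n + 2) * (x 0 - 1 / (n + 2))) / ((n + 1) * (n + 2)) =
      2 * (x 0 - 1 / (n + 2)) / (n + 1) := by
    field_simp
  rw [this]

lemma refl_uu_zero {n : ℕ} {x : Fin (n + 2) → ℝ} (hx : ∑ i, x i = 1) :
    refl (uu n) x 0 = 2 / (n + 2) - x 0 := by
  rw [refl_uu hx]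
  simp only [uu, if_true]
  field_simp
  ring

lemma refl_uu_yy {n : ℕ} {x : Fin (n + 2) → ℝ} (hx : ∑ i, x i = 1) :
    yy (refl (uu n) x) = yy x := by
  have h1 : ∀ i : Fin (n + 1), refl (uu n) x i.succ =
      x i.succ + 2 * (x 0 - 1 / (n + 2)) / (n + 1) := by
    intro i
    rw [refl_uu hx]
    simp [uu, Fin.succ_ne_zero]
  funext i
  unfold yy mean
  simp only [h1]
  rw [Finset.sum_add_distrib, Finset.sum_const, Finset.card_univ, Fintype.card_fin,
    nsmul_eq_mul]
  push_cast
  field_simp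
  ring

lemma refl_uu_tau {n : ℕ} {x : Fin (n + 2) → ℝ} (hx : ∑ i, x i = 1) :
    tauC (refl (uu n) x) = 1 - tauC x := by
  have h1 : qq (refl (uu n) x) = 1 - qq x := by
    unfold qq
    rw [refl_uu_zero hx]
    ring
  unfold tauC
  rw [h1]
  rcases le_total (qq x) 0 with h | h
  · rw [cl_of_le h, cl_of_ge (by linarith)]; ring
  · rcases le_total (qq x) 1 with h' | h'
    · rw [cl_of_mem h h', cl_of_mem (by linarith) (by linarith)]
    · rw [cl_of_ge h', cl_of_le (by linarith)]; ring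

lemma fz_refl_uu {n : ℕ} (z : ℤ) {x : Fin (n + 2) → ℝ} (hx : ∑ i, x i = 1) :
    fz z (refl (uu n) x) = fz (-z) x := by
  unfold fz
  rw [refl_uu_tau hx]
  have h1 : bub ((z:ℝ) * (1 - tauC x)) (refl (uu n) x) = bub ((z:ℝ) * (1 - tauC x)) x := by
    have hl : lamb (refl (uu n) x) = lamb x := by
      unfold lamb; rw [refl_uu_yy hx]
    unfold bub
    rw [hl, refl_uu_yy hx]
  rw [h1, show (z:ℝ) * (1 - tauC x) = ((-z : ℤ) : ℝ) * tauC x + z by push_cast; ring,
    bub_add_int]

/-- the path of vectors -/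
noncomputable def vv {n : ℕ} (i j : Fin (n + 2)) (s : ℝ) : Fin (n + 2) → ℝ := fun a =>
  (1 - s) * ((if a = i then 1 else 0) - (if a = j then 1 else 0)) + s * uu n a

lemma sum_vv {n : ℕ} (i j : Fin (n + 2)) (s : ℝ) : ∑ a, vv i j s a = 0 := by
  unfold vv
  rw [Finset.sum_add_distrib, ← Finset.mul_sum, ← Finset.mul_sum, sum_uu,
    Finset.sum_sub_distrib, Finset.sum_ite_eq', Finset.sum_ite_eq']
  simp

lemma vv_ne {n : ℕ} {i j : Fin (n + 2)} (hij : i ≠ j) (hj : j ≠ 0) {s : ℝ}
    (hs : s ∈ Icc (0:ℝ) 1) : ∑ a, vv i j s a * vv i j s a ≠ 0 := by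
  intro h
  have h1 : ∀ a, vv i j s a = 0 := by
    intro a
    have := (Finset.sum_eq_zero_iff_of_nonneg (fun a _ => mul_self_nonneg (vv i j s a))).1 h a
      (Finset.mem_univ a)
    exact mul_self_eq_zero.1 this
  have hi := h1 i
  have hjj := h1 j
  unfold vv at hi hjj
  simp only [if_true, if_neg hij, if_neg hij.symm] at hi hjj
  have huj : uu n j = -1 := by simp [uu, hj]
  rw [huj] at hjj
  have : s = 1 := by
    have := hs.1
    have := hs.2
    linarith
  rw [huj.symm.trans huj] at hjj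
  subst this
  norm_num at hjj

lemma RelHom_swap {n : ℕ} {i j : Fin (n + 2)} (hij : i ≠ j) (hj : j ≠ 0) (z : ℤ) :
    RelHom (fun x => fz (n := n) z (x ∘ Equiv.swap i j)) (fz (-z)) := by
  refine ⟨fun s x => fz z (refl (vv i j s) x), ?_, ?_, ?_, ?_, ?_⟩
  · refine (continuous_fz z).comp_continuousOn ?_
    have hv : ∀ a, Continuous (fun p : ℝ × (Fin (n + 2) → ℝ) => vv i j p.1 a) := by
      intro a
      unfold vv
      fun_prop
    refine continuousOn_pi.2 (fun a => ?_)
    unfold refl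
    refine ContinuousOn.sub (by fun_prop) (ContinuousOn.mul (ContinuousOn.div ?_ ?_ ?_)
      (hv a).continuousOn)
    · refine Continuous.continuousOn (continuous_const.mul (continuous_finsetSum _
        (fun b _ => (hv b).mul ?_)))
      fun_prop
    · exact Continuous.continuousOn (continuous_finsetSum _ (fun b _ => (hv b).mul (hv b)))
    · rintro ⟨s, x⟩ ⟨hs, _⟩
      exact vv_ne hij hj hs
  · intro s _ x _; exact fz_ne_zero z _
  · intro x _
    beta_reduce
    have : vv i j 0 = fun a => (if a = i then (1:ℝ) else 0) - (if a = j then 1 else 0) := by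
      funext a; unfold vv; ring
    rw [this, refl_swap hij]
  · intro x hx
    beta_reduce
    have : vv i j 1 = uu n := by
      funext a; unfold vv; ring
    rw [this]
    exact fz_refl_uu z hx.2
  · rintro s hs x hx hb
    exact fz_not_core z (by rw [refl_sum (sum_vv i j s)]; exact hx.2)
      (refl_not_core (vv_ne hij hj hs) hb)

/-- Permutations act on bubbles by the sign. -/
theorem RelHom_perm {n : ℕ} (σ : Equiv.Perm (Fin (n + 2))) : ∀ z : ℤ,
    RelHom (fun x => fz (n := n) z (x ∘ σ)) (fz ((Equiv.Perm.sign σ : ℤ) * z)) := by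
  induction σ using Equiv.Perm.swap_induction_on with
  | one =>
    intro z
    refine (RelHom.refl_fz z).congr (fun x _ => ?_) (fun x _ => ?_)
    · rfl
    · simp
  | swap_mul σ i j hij ih =>
    intro z
    have h1 := (ih z).comp_perm (Equiv.swap i j)
    have h2 : RelHom (fun x => fz (n := n) ((Equiv.Perm.sign σ : ℤ) * z) (x ∘ Equiv.swap i j))
        (fz (-((Equiv.Perm.sign σ : ℤ) * z))) := by
      by_cases hj : j = 0
      · have hi : i ≠ 0 := fun h => hij (h.trans hj.symm)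
        have := RelHom_swap hij.symm hi ((Equiv.Perm.sign σ : ℤ) * z)
        rwa [Equiv.swap_comm] at this
      · exact RelHom_swap hij hj _
    have h3 := h1.trans h2
    refine h3.congr (fun x _ => ?_) (fun x _ => ?_)
    · rfl
    · rw [Equiv.Perm.sign_mul, Equiv.Perm.sign_swap hij]
      push_cast
      congr 2
      ring

end Hopf

end MP629748

end part2

section part3

/-! P9 sign identity (helper28). -/

open Set Filter Topology
open scoped NNReal

namespace MP629748

namespace Hopf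

/-- the degree of the labelled face -/
noncomputable def cc {n : ℕ} (l : Fin (n + 2) → Fin (n + 3)) : ℤ :=
  - Matrix.det (Matrix.of fun a b : Fin (n + 2) => if l a = b.succ then (1:ℤ) else 0)

lemma det_perm_of {k : ℕ} (σ : Equiv.Perm (Fin k)) :
    Matrix.det (Matrix.of fun a b : Fin k => if σ a = b then (1:ℤ) else 0) =
      (Equiv.Perm.sign σ : ℤ) := by
  have h := Matrix.det_permutation (R := ℤ) σ
  rw [Int.cast_id] at h
  rw [← h]
  congr 1
  ext a b
  simp [Equiv.Perm.permMatrix, PEquiv.toMatrix_apply, eq_comm]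

theorem cc_perm {n : ℕ} {l : Fin (n + 2) → Fin (n + 3)} (σ : Equiv.Perm (Fin (n + 2)))
    (h : ∀ a, l a = (σ a).succ) : cc l = - (Equiv.Perm.sign σ : ℤ) := by
  unfold cc
  rw [← det_perm_of σ]
  congr 3
  funext a b
  rw [h a]
  simp

theorem cc_none {n : ℕ} {l : Fin (n + 2) → Fin (n + 3)}
    (h : ¬ ∃ σ : Equiv.Perm (Fin (n + 2)), ∀ a, l a = (σ a).succ) : cc l = 0 := by
  unfold cc
  rw [neg_eq_zero]
  by_cases h0 : ∃ a, l a = 0
  · obtain ⟨a, ha⟩ := h0
    refine Matrix.det_eq_zero_of_row_eq_zero a (fun b => ?_)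
    rw [Matrix.of_apply, ha, if_neg (Fin.succ_ne_zero b).symm]
  · by_cases hinj : Function.Injective l
    · exfalso
      push Not at h0
      have hf : Function.Injective (fun a => (l a).pred (h0 a)) := by
        intro a b hab
        exact hinj (Fin.pred_inj.1 hab)
      have hb := Finite.injective_iff_bijective.1 hf
      exact h ⟨Equiv.ofBijective _ hb, fun a => by simp⟩
    · unfold Function.Injective at hinj
      push Not at hinj
      obtain ⟨a, b, hab, hne⟩ := hinj
      refine Matrix.det_zero_of_row_eq hne ?_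
      funext c
      rw [Matrix.of_apply, Matrix.of_apply, hab]

theorem csgn_eq_det {k : ℕ} (l : Fin k → Fin k) :
    csgn l = Matrix.det (Matrix.of fun a b : Fin k => if l a = b then (1:ℤ) else 0) := by
  unfold csgn
  split_ifs with h
  · rw [← det_perm_of (Equiv.ofBijective l h)]
    rfl
  · have hinj : ¬ Function.Injective l := fun hi => h (Finite.injective_iff_bijective.1 hi)
    unfold Function.Injective at hinj
    push Not at hinj
    obtain ⟨a, b, hab, hne⟩ := hinj
    symm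
    refine Matrix.det_zero_of_row_eq hne ?_
    funext c
    rw [Matrix.of_apply, Matrix.of_apply, hab]

theorem cc_sum {n : ℕ} (l : Fin (n + 3) → Fin (n + 3)) :
    ∑ i : Fin (n + 3), (-1 : ℤ) ^ (i : ℕ) * cc (l ∘ i.succAbove) = - csgn l := by
  let E : Matrix (Fin (n + 3)) (Fin (n + 3)) ℤ :=
    Matrix.of fun b c => if c = 0 then 1 else if b = c then 1 else 0
  have hE : E.det = 1 := by
    rw [Matrix.det_of_isLowerTriangular E]
    · refine Finset.prod_eq_one (fun i _ => ?_)
      show (if i = 0 then (1:ℤ) else if i = i then 1 else 0) = 1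
      simp
    · intro i j hij
      have hij' : i < j := by simpa using hij
      show (if j = 0 then (1:ℤ) else if i = j then 1 else 0) = 0
      rw [if_neg (by rintro rfl; exact absurd hij' (Fin.not_lt_zero i)), if_neg hij'.ne]
  let Q : Matrix (Fin (n + 3)) (Fin (n + 3)) ℤ := Matrix.of fun a b => if l a = b then 1 else 0
  have hQ : Q.det = csgn l := (csgn_eq_det l).symm
  let P : Matrix (Fin (n + 3)) (Fin (n + 3)) ℤ :=
    Matrix.of fun a c => if c = 0 then 1 else if l a = c then 1 else 0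
  have hP : P = Q * E := by
    ext a c
    rw [Matrix.mul_apply]
    show (if c = 0 then (1:ℤ) else if l a = c then 1 else 0) =
      ∑ b, (if l a = b then (1:ℤ) else 0) * (if c = 0 then 1 else if b = c then 1 else 0)
    rw [Finset.sum_eq_single (l a)]
    · simp
    · intro b _ hb
      rw [if_neg (Ne.symm hb), zero_mul]
    · intro h; exact absurd (Finset.mem_univ _) h
  have hdet : P.det = csgn l := by rw [hP, Matrix.det_mul, hE, mul_one, hQ]
  rw [Matrix.det_succ_column_zero] at hdet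
  rw [← hdet, ← Finset.sum_neg_distrib]
  refine Finset.sum_congr rfl (fun i _ => ?_)
  have h1 : P i 0 = 1 := by simp [P]
  have h2 : (Matrix.of fun a b : Fin (n + 2) => if (l ∘ i.succAbove) a = b.succ then (1:ℤ) else 0) =
      P.submatrix i.succAbove Fin.succ := by
    ext a b
    show (if (l ∘ i.succAbove) a = b.succ then (1:ℤ) else 0) =
      if b.succ = 0 then 1 else if l (i.succAbove a) = b.succ then 1 else 0
    rw [if_neg (Fin.succ_ne_zero b)]
    rfl
  rw [h1, mul_one, cc, mul_neg, h2]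

/-! ### segments -/

/-- coordinates of `lam` -/
lemma lam_apply {k n : ℕ} (l : Fin k → Fin (n + 3)) (x : Fin k → ℝ) (j : Fin (n + 2)) :
    lam l x j = (∑ i, if l i = j.succ then x i else 0) - ∑ i, if l i = 0 then x i else 0 := by
  unfold lam
  rw [Finset.sum_apply, ← Finset.sum_sub_distrib]
  refine Finset.sum_congr rfl (fun i _ => ?_)
  rw [Pi.smul_apply, smul_eq_mul]
  rcases Fin.eq_zero_or_eq_succ (l i) with h | ⟨a, h⟩
  · rw [h]
    have : ev (n + 2) 0 j = -1 := rfl
    rw [this, if_neg (Fin.succ_ne_zero j).symm, if_pos rfl]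
    ring
  · rw [h, if_neg (Fin.succ_ne_zero a)]
    have : ev (n + 2) a.succ j = (Pi.single a (1:ℝ) : Fin (n + 2) → ℝ) j := rfl
    rw [this]
    by_cases haj : j = a
    · subst haj; simp
    · rw [Pi.single_eq_of_ne haj, if_neg (by simpa using Ne.symm haj)]
      ring

/-- If the segment from `lam l x` to the base point meets zero, then `l` is a bijection onto the
nonzero labels and `x` has positive coordinates. -/
lemma seg_zero {n : ℕ} {l : Fin (n + 2) → Fin (n + 3)} {x : Fin (n + 2) → ℝ}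
    (hx : x ∈ stdSimplex ℝ (Fin (n + 2))) {s : ℝ} (hs : s ∈ Icc (0:ℝ) 1)
    (h : (1 - s) • lam l x + s • base n = 0) :
    (∃ σ : Equiv.Perm (Fin (n + 2)), ∀ a, l a = (σ a).succ) ∧ ∀ a, 0 < x a := by
  have hc : ∀ j, (1 - s) * lam l x j = s := by
    intro j
    have := congrFun h j
    simp only [Pi.add_apply, Pi.smul_apply, smul_eq_mul, Pi.zero_apply, base] at this
    linarith
  have hs1 : 0 < 1 - s := by
    rcases lt_or_eq_of_le hs.2 with h1 | h1
    · linarith
    · exfalso
      have := hc 0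
      rw [h1] at this
      norm_num at this
  set m0 : ℝ := ∑ i, if l i = 0 then x i else 0 with hm0
  have hm0' : 0 ≤ m0 := Finset.sum_nonneg (fun i _ => by
    split_ifs
    · exact hx.1 i
    · exact le_rfl)
  have hr : ∀ j : Fin (n + 2), (∑ i, if l i = j.succ then x i else 0) = m0 + s / (1 - s) := by
    intro j
    have h1 := hc j
    rw [lam_apply] at h1
    have : (∑ i, if l i = j.succ then x i else 0) - m0 = s / (1 - s) := by
      rw [eq_div_iff hs1.ne', mul_comm]
      exact h1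
    linarith
  have htot : m0 + ∑ j : Fin (n + 2), (∑ i, if l i = j.succ then x i else 0) = 1 := by
    rw [← hx.2, hm0, Finset.sum_comm, ← Finset.sum_add_distrib]
    refine Finset.sum_congr rfl (fun i _ => ?_)
    rw [← Fin.sum_univ_succ (f := fun c : Fin (n + 3) => if l i = c then x i else 0)]
    simp
  have hpos : 0 < m0 + s / (1 - s) := by
    have h2 : 0 ≤ s / (1 - s) := div_nonneg hs.1 hs1.le
    rcases lt_or_eq_of_le (add_nonneg hm0' h2) with h3 | h3
    · exact h3
    · exfalso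
      have h4 : m0 = 0 := by linarith
      rw [Finset.sum_congr rfl (fun j _ => hr j), ← h3, h4] at htot
      simp at htot
  have hsurj : ∀ j : Fin (n + 2), ∃ a, l a = j.succ := by
    intro j
    by_contra hcon
    push Not at hcon
    have h1 := hr j
    rw [Finset.sum_eq_zero (fun i _ => if_neg (hcon i))] at h1
    linarith
  choose f hf using hsurj
  have hfinj : Function.Injective f := by
    intro a b hab
    have := (hf a).symm.trans ((congrArg l hab).trans (hf b))
    exact Fin.succ_injective _ this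
  have hfb := Finite.injective_iff_bijective.1 hfinj
  let τ := Equiv.ofBijective f hfb
  have hl : ∀ a, l a = (τ.symm a).succ := by
    intro a
    have h1 := hf (τ.symm a)
    have h2 : f (τ.symm a) = a := τ.apply_symm_apply a
    rw [h2] at h1
    exact h1
  refine ⟨⟨τ.symm, hl⟩, fun a => ?_⟩
  have h1 := hr (τ.symm a)
  rw [Finset.sum_eq_single a] at h1
  · rw [if_pos (hl a)] at h1
    rw [h1]; exact hpos
  · intro b _ hb
    rw [if_neg]
    rw [hl b]
    intro h2
    exact hb (τ.symm.injective (Fin.succ_injective _ h2))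
  · intro h2; exact absurd (Finset.mem_univ _) h2

theorem seg_none {n : ℕ} {l : Fin (n + 2) → Fin (n + 3)}
    (h : ¬ ∃ σ : Equiv.Perm (Fin (n + 2)), ∀ a, l a = (σ a).succ) {x : Fin (n + 2) → ℝ}
    (hx : x ∈ stdSimplex ℝ (Fin (n + 2))) {s : ℝ} (hs : s ∈ Icc (0:ℝ) 1) :
    (1 - s) • lam l x + s • base n ≠ 0 := fun h0 => h (seg_zero hx hs h0).1

theorem seg_bd {n : ℕ} (l : Fin (n + 2) → Fin (n + 3)) {x : Fin (n + 2) → ℝ}
    (hx : x ∈ stdSimplex ℝ (Fin (n + 2))) (h0 : ∃ a, x a = 0) {s : ℝ} (hs : s ∈ Icc (0:ℝ) 1) :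
    (1 - s) • lam l x + s • base n ≠ 0 := by
  intro h
  obtain ⟨a, ha⟩ := h0
  have := (seg_zero hx hs h).2 a
  rw [ha] at this
  exact lt_irrefl _ this

end Hopf

end MP629748

end part3

section part4

/-! P9 (6) (helper28): assembly of the filling theorem. -/

open Set Filter Topology MeasureTheory Metric
open scoped NNReal Cardinal

namespace MP629748

namespace Hopf


/-- `φ(s) = min (2 s) 1` -/
noncomputable def phs (s : ℝ) : ℝ := min (2 * s) 1

lemma continuous_phs : Continuous phs := by unfold phs; fun_prop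

lemma phs_mem {s : ℝ} (hs : s ∈ Icc (0:ℝ) 1) : phs s ∈ Icc (0:ℝ) 1 :=
  ⟨le_min (by linarith [hs.1]) zero_le_one, min_le_right _ _⟩

/-- the boundary homotopy -/
noncomputable def beta {n : ℕ} (l : Fin (n + 2) → Fin (n + 3)) (s : ℝ) (x : Fin (n + 2) → ℝ) :
    Fin (n + 2) → ℝ := (1 - phs s) • lam l x + phs s • base n

lemma continuous_lam {m k : ℕ} (l : Fin k → Fin (m + 1)) : Continuous (lam l) := by
  unfold lam; fun_prop

lemma continuous_beta {n : ℕ} (l : Fin (n + 2) → Fin (n + 3)) :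
    Continuous (fun p : ℝ × (Fin (n + 2) → ℝ) => beta l p.1 p.2) := by
  unfold beta
  have h1 := continuous_lam l
  have h2 := continuous_phs
  fun_prop

/-- pointwise version of the data on each label -/
def Hom {n : ℕ} (l : Fin (n + 2) → Fin (n + 3)) (z : ℤ)
    (H : ℝ → (Fin (n + 2) → ℝ) → (Fin (n + 2) → ℝ)) : Prop :=
  ContinuousOn (fun p : ℝ × (Fin (n + 2) → ℝ) => H p.1 p.2)
      (Icc (0:ℝ) 1 ×ˢ stdSimplex ℝ (Fin (n + 2))) ∧
    (∀ s ∈ Icc (0:ℝ) 1, ∀ x ∈ stdSimplex ℝ (Fin (n + 2)), H s x ≠ 0) ∧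
    (∀ x ∈ stdSimplex ℝ (Fin (n + 2)), H 1 x = fz z x) ∧
    ∀ s ∈ Icc (0:ℝ) 1, ∀ x ∈ stdSimplex ℝ (Fin (n + 2)), (∃ i, x i = 0) → H s x = beta l s x

/-- time concatenation of two homotopies -/
lemma concat_cont {n : ℕ} {H H' : ℝ → (Fin (n + 2) → ℝ) → (Fin (n + 2) → ℝ)}
    (h1 : ContinuousOn (fun p : ℝ × (Fin (n + 2) → ℝ) => H p.1 p.2)
      (Icc (0:ℝ) 1 ×ˢ stdSimplex ℝ (Fin (n + 2))))
    (h1' : ContinuousOn (fun p : ℝ × (Fin (n + 2) → ℝ) => H' p.1 p.2)
      (Icc (0:ℝ) 1 ×ˢ stdSimplex ℝ (Fin (n + 2))))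
    (hm : ∀ x ∈ stdSimplex ℝ (Fin (n + 2)), H 1 x = H' 0 x) :
    ContinuousOn (fun p : ℝ × (Fin (n + 2) → ℝ) =>
      if p.1 ≤ 1 / 2 then H (2 * p.1) p.2 else H' (2 * p.1 - 1) p.2)
      (Icc (0:ℝ) 1 ×ˢ stdSimplex ℝ (Fin (n + 2))) := by
  have e1 : ContinuousOn (fun p : ℝ × (Fin (n + 2) → ℝ) =>
      if p.1 ≤ 1 / 2 then H (2 * p.1) p.2 else H' (2 * p.1 - 1) p.2)
      (Icc (0:ℝ) (1/2) ×ˢ stdSimplex ℝ (Fin (n + 2))) := by
    refine ContinuousOn.congr (f := fun p : ℝ × (Fin (n + 2) → ℝ) => H (2 * p.1) p.2) ?_ ?_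
    · refine h1.comp (f := fun p : ℝ × (Fin (n + 2) → ℝ) => (2 * p.1, p.2)) (by fun_prop) ?_
      rintro ⟨s, x⟩ ⟨hs, hx⟩
      exact ⟨⟨by show 0 ≤ 2 * s; linarith [hs.1], by show 2 * s ≤ 1; linarith [hs.2]⟩, hx⟩
    · rintro ⟨s, x⟩ ⟨hs, hx⟩
      exact if_pos hs.2
  have e2 : ContinuousOn (fun p : ℝ × (Fin (n + 2) → ℝ) =>
      if p.1 ≤ 1 / 2 then H (2 * p.1) p.2 else H' (2 * p.1 - 1) p.2)
      (Icc (1/2:ℝ) 1 ×ˢ stdSimplex ℝ (Fin (n + 2))) := by
    refine ContinuousOn.congr (f := fun p : ℝ × (Fin (n + 2) → ℝ) => H' (2 * p.1 - 1) p.2) ?_ ?_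
    · refine h1'.comp (f := fun p : ℝ × (Fin (n + 2) → ℝ) => (2 * p.1 - 1, p.2))
        (by fun_prop) ?_
      rintro ⟨s, x⟩ ⟨hs, hx⟩
      exact ⟨⟨by show 0 ≤ 2 * s - 1; linarith [hs.1], by show 2 * s - 1 ≤ 1; linarith [hs.2]⟩, hx⟩
    · rintro ⟨s, x⟩ ⟨hs, hx⟩
      by_cases hs' : s ≤ 1 / 2
      · have hs2 : s = 1 / 2 := le_antisymm hs' hs.1
        subst hs2
        show (if (1/2:ℝ) ≤ 1 / 2 then H (2 * (1/2)) x else H' (2 * (1/2) - 1) x) =
          H' (2 * (1/2) - 1) x
        rw [if_pos le_rfl]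
        have a1 : (2:ℝ) * (1/2) = 1 := by norm_num
        have a2 : (2:ℝ) * (1/2) - 1 = 0 := by norm_num
        rw [a2, a1, hm x hx]
      · exact if_neg hs'
  have e3 := e1.union_of_isClosed e2 (isClosed_Icc.prod (isClosed_stdSimplex ℝ _))
    (isClosed_Icc.prod (isClosed_stdSimplex ℝ _))
  refine e3.mono ?_
  rintro ⟨s, x⟩ ⟨hs, hx⟩
  rcases le_total s (1/2) with h | h
  · exact Or.inl ⟨⟨hs.1, h⟩, hx⟩
  · exact Or.inr ⟨⟨h, hs.2⟩, hx⟩

lemma lam_perm {n : ℕ} {l : Fin (n + 2) → Fin (n + 3)} (σ : Equiv.Perm (Fin (n + 2)))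
    (h : ∀ a, l a = (σ a).succ) (x : Fin (n + 2) → ℝ) : lam l x = x ∘ σ.symm := by
  funext j
  unfold lam
  rw [Finset.sum_apply]
  have : ∀ i : Fin (n + 2), (x i • ev (n + 2) (l i)) j = if i = σ.symm j then x i else 0 := by
    intro i
    rw [h i]
    show x i * (Pi.single (σ i) (1:ℝ) : Fin (n + 2) → ℝ) j = _
    by_cases hij : i = σ.symm j
    · rw [hij]; simp
    · have : j ≠ σ i := fun hj => hij (by rw [hj]; simp)
      rw [Pi.single_eq_of_ne this, if_neg hij, mul_zero]
  rw [Finset.sum_congr rfl (fun i _ => this i), Finset.sum_ite_eq']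
  simp

/-- the labelled simplex is homotopic to the bubble of degree `cc l` -/
lemma exists_lamHom {n : ℕ} (l : Fin (n + 2) → Fin (n + 3)) :
    ∃ H, Hom l (cc l) H ∧ ∀ x ∈ stdSimplex ℝ (Fin (n + 2)), H 0 x = lam l x := by
  by_cases hσ : ∃ σ : Equiv.Perm (Fin (n + 2)), ∀ a, l a = (σ a).succ
  · obtain ⟨σ, hσ⟩ := hσ
    obtain ⟨H', h1', h2', h3', h4', h5'⟩ := RelHom_perm σ.symm (-1)
    have hseg : ∀ s ∈ Icc (0:ℝ) 1, ∀ x ∈ stdSimplex ℝ (Fin (n + 2)),
        (1 - s) • lam l x + s • fz (-1) (x ∘ σ.symm) ≠ 0 := by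
      intro s hs x hx
      rw [lam_perm σ hσ]
      have hy := perm_mem σ.symm hx
      have := segment_bub (fun i => hy.1 i) hy.2 hs.1 hs.2
      unfold fz
      push_cast
      rwa [neg_one_mul]
    have hcs : Continuous (fun p : ℝ × (Fin (n + 2) → ℝ) =>
        (1 - p.1) • lam l p.2 + p.1 • fz (-1) (p.2 ∘ σ.symm)) := by
      have e1 := continuous_lam l
      have e2 : Continuous (fun p : ℝ × (Fin (n + 2) → ℝ) => fz (-1) (p.2 ∘ σ.symm)) := by
        refine (continuous_fz (-1)).comp ?_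
        exact continuous_pi (fun i => (continuous_apply (σ.symm i)).comp continuous_snd)
      fun_prop
    refine ⟨fun s x => if s ≤ 1 / 2 then (1 - (2 * s)) • lam l x + (2 * s) • fz (-1) (x ∘ σ.symm)
      else H' (2 * s - 1) x, ⟨?_, ?_, ?_, ?_⟩, ?_⟩
    · refine concat_cont (H := fun s x => (1 - s) • lam l x + s • fz (-1) (x ∘ σ.symm)) (H' := H')
        hcs.continuousOn h1' ?_
      intro x hx
      rw [h3' x hx]
      simp
    · intro s hs x hx
      beta_reduce
      split_ifs with h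
      · exact hseg (2 * s) ⟨by linarith [hs.1], by linarith⟩ x hx
      · exact h2' _ ⟨by linarith, by linarith [hs.2]⟩ x hx
    · intro x hx
      beta_reduce
      rw [if_neg (by norm_num), show (2:ℝ) * 1 - 1 = 1 by norm_num, h4' x hx, cc_perm σ hσ]
      congr 1
      rw [Equiv.Perm.sign_symm]
      ring
    · rintro s hs x hx ⟨i, hi⟩
      beta_reduce
      split_ifs with h
      · have h1 : fz (-1) (x ∘ σ.symm) = base n :=
          fz_not_core _ (perm_mem σ.symm hx).2 (not_core_of_zero (a := σ i) (by simpa using hi))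
        have h2 : phs s = 2 * s := min_eq_left (by linarith)
        unfold beta
        rw [h1, h2]
      · have h2 : phs s = 1 := min_eq_right (by linarith)
        unfold beta
        rw [h2, h5' _ ⟨by linarith, by linarith [hs.2]⟩ x hx ⟨i, hi⟩]
        simp
    · intro x hx
      beta_reduce
      rw [if_pos (by norm_num)]
      simp
  · refine ⟨fun s x => beta l s x, ⟨(continuous_beta l).continuousOn, ?_, ?_, ?_⟩, ?_⟩
    · intro s hs x hx
      exact seg_none hσ hx (phs_mem hs)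
    · intro x hx
      beta_reduce
      rw [cc_none hσ]
      unfold fz beta
      have : phs 1 = 1 := min_eq_right (by norm_num)
      rw [this]
      simp [bub_zero_left]
    · intro s _ x _ _; rfl
    · intro x hx
      unfold beta
      have : phs 0 = 0 := by unfold phs; norm_num
      beta_reduce
      rw [this]
      simp

/-- homotopy extension: any degree can be reached -/
lemma exists_Hom {n : ℕ} (l : Fin (n + 2) → Fin (n + 3)) (z : ℤ) : ∃ H, Hom l z H := by
  classical
  -- glued function on the boundary times the interval and the top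
  let D := stdSimplex ℝ (Fin (n + 2))
  let A : Set (Fin (n + 2) → ℝ) := ⋃ i, {x | x ∈ stdSimplex ℝ (Fin (n + 2)) ∧ x i = 0}
  have hA : IsClosed A := isClosed_iUnion_of_finite (fun i => isClosed_facet i)
  have hAD : A ⊆ D := by
    intro x hx
    obtain ⟨i, hi⟩ := mem_iUnion.1 hx
    exact hi.1
  let g : ℝ × (Fin (n + 2) → ℝ) → (Fin (n + 2) → ℝ) := fun p =>
    if p.2 ∈ A then beta l p.1 p.2 else fz z p.2
  have hg1 : ∀ x ∈ D, g (1, x) = fz z x := by
    intro x hx
    by_cases hxA : x ∈ A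
    · obtain ⟨i, hi⟩ := mem_iUnion.1 hxA
      show (if x ∈ A then beta l 1 x else fz z x) = _
      rw [if_pos hxA]
      unfold beta
      have : phs 1 = 1 := min_eq_right (by norm_num)
      rw [this, fz_not_core z hx.2 (not_core_of_zero hi.2)]
      simp
    · exact if_neg hxA
  have hC1 : IsClosed (Icc (0:ℝ) 1 ×ˢ A) := isClosed_Icc.prod hA
  have hC2 : IsClosed (({1} : Set ℝ) ×ˢ D) := isClosed_singleton.prod (isClosed_stdSimplex ℝ _)
  have e1 : ContinuousOn g (Icc (0:ℝ) 1 ×ˢ A) :=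
    (continuous_beta l).continuousOn.congr (fun p hp => if_pos hp.2)
  have e2 : ContinuousOn g (({1} : Set ℝ) ×ˢ D) := by
    refine ContinuousOn.congr (f := fun p : ℝ × (Fin (n + 2) → ℝ) => fz z p.2)
      ((continuous_fz z).comp continuous_snd).continuousOn ?_
    rintro ⟨s, x⟩ ⟨hs, hx⟩
    rw [mem_singleton_iff] at hs
    subst hs
    exact hg1 x hx
  have hgc := e1.union_of_isClosed e2 hC1 hC2
  obtain ⟨G, hG⟩ := ContinuousMap.exists_restrict_eq (hC1.union hC2)
    (⟨_, hgc.domRestrict⟩ : C(((Icc (0:ℝ) 1 ×ˢ A) ∪ (({1} : Set ℝ) ×ˢ D) : Set _),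
      Fin (n + 2) → ℝ))
  have hG' : ∀ p ∈ (Icc (0:ℝ) 1 ×ˢ A) ∪ (({1} : Set ℝ) ×ˢ D), G p = g p := by
    intro p hp
    exact congrArg (fun f : C(((Icc (0:ℝ) 1 ×ˢ A) ∪ (({1} : Set ℝ) ×ˢ D) : Set _),
      Fin (n + 2) → ℝ) => f ⟨p, hp⟩) hG
  have hG1 : ∀ x ∈ D, G (1, x) = fz z x := by
    intro x hx
    rw [hG' (1, x) (Or.inr ⟨rfl, hx⟩), hg1 x hx]
  have hGA : ∀ s ∈ Icc (0:ℝ) 1, ∀ x ∈ A, G (s, x) = beta l s x := by
    intro s hs x hx
    rw [hG' (s, x) (Or.inl ⟨hs, hx⟩)]
    exact if_pos hx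
  let B : Set (Fin (n + 2) → ℝ) := Prod.snd '' ((Icc (0:ℝ) 1 ×ˢ D) ∩ G ⁻¹' {0})
  have hB : IsClosed B := by
    refine IsCompact.isClosed (IsCompact.image ?_ continuous_snd)
    exact (isCompact_Icc.prod (isCompact_stdSimplex ℝ _)).inter_right
      (isClosed_singleton.preimage G.continuous)
  have hAB : Disjoint B A := by
    rw [Set.disjoint_left]
    rintro x ⟨⟨s, y⟩, ⟨⟨hs, hy⟩, hz⟩, rfl⟩ hxA
    obtain ⟨i, hi⟩ := mem_iUnion.1 hxA
    have hz' : G (s, y) = 0 := hz
    rw [hGA s hs y hxA] at hz'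
    exact seg_bd l hi.1 ⟨i, hi.2⟩ (phs_mem hs) hz'
  obtain ⟨u, hu0, hu1, hu⟩ := exists_continuous_zero_one_of_isClosed hB hA hAB
  refine ⟨fun s x => G (1 - u x * (1 - s), x), ?_, ?_, ?_, ?_⟩
  · refine Continuous.continuousOn (G.continuous.comp ?_)
    have := u.continuous
    fun_prop
  · intro s hs x hx
    by_cases hxB : x ∈ B
    · have : u x = 0 := hu0 hxB
      beta_reduce
      rw [this, zero_mul, sub_zero, hG1 x hx]
      exact fz_ne_zero z x
    · intro hz
      refine hxB ⟨(1 - u x * (1 - s), x), ⟨⟨?_, hx⟩, hz⟩, rfl⟩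
      have h1 := hu x
      constructor
      · have : u x * (1 - s) ≤ 1 * 1 := mul_le_mul h1.2 (by linarith [hs.1])
          (by linarith [hs.2]) zero_le_one
        linarith
      · have : 0 ≤ u x * (1 - s) := mul_nonneg h1.1 (by linarith [hs.2])
        linarith
  · intro x hx
    beta_reduce
    rw [sub_self, mul_zero, sub_zero, hG1 x hx]
  · rintro s hs x hx ⟨i, hi⟩
    have hxA : x ∈ A := mem_iUnion.2 ⟨i, hx, hi⟩
    have : u x = 1 := hu1 hxA
    beta_reduce
    rw [this, one_mul, sub_sub_cancel, hGA s hs x hxA]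

/-- the chosen homotopies -/
lemma exists_HH {n : ℕ} (l : Fin (n + 2) → Fin (n + 3)) (w : ℤ) :
    ∃ H, Hom l (cc l + w) H ∧ (w = 0 → ∀ x ∈ stdSimplex ℝ (Fin (n + 2)), H 0 x = lam l x) := by
  by_cases hw : w = 0
  · subst hw
    obtain ⟨H, h1, h2⟩ := exists_lamHom l
    exact ⟨H, by rwa [add_zero], fun _ => h2⟩
  · obtain ⟨H, h1⟩ := exists_Hom l (cc l + w)
    exact ⟨H, h1, fun h => absurd h hw⟩

/-- distinct facets meet in the boundary -/
lemma facet_meet {m : ℕ} {i j : Fin (m + 1)} (hij : i ≠ j) {x x' : Fin m → ℝ}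
    (h : (i.insertNth (0:ℝ) x : Fin (m + 1) → ℝ) = j.insertNth (0:ℝ) x') : ∃ a, x a = 0 := by
  obtain ⟨a, ha⟩ := Fin.exists_succAbove_eq hij.symm
  refine ⟨a, ?_⟩
  have h1 := congrFun h (i.succAbove a)
  rw [Fin.insertNth_apply_succAbove, ha, Fin.insertNth_apply_same] at h1
  exact h1

lemma lam_facet {m k : ℕ} (l : Fin (k + 1) → Fin (m + 1)) (i : Fin (k + 1)) (x : Fin k → ℝ) :
    lam (l ∘ i.succAbove) x = lam l (i.insertNth (0:ℝ) x) := by
  unfold lam
  rw [Fin.sum_univ_succAbove _ i]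
  simp

end Hopf

open Hopf in
/-- Modified maps of the labelled simplices and the filling property. -/
theorem hopf_fill (m : ℕ) (hm : 2 ≤ m) :
    ∃ W : (Fin m → Fin (m + 1)) → ℤ → (Fin m → ℝ) → (Fin m → ℝ),
      (∀ l w, ContinuousOn (W l w) (stdSimplex ℝ (Fin m))) ∧
      (∀ l w, ∀ x ∈ stdSimplex ℝ (Fin m), W l w x ≠ 0) ∧
      (∀ l w, ∀ x ∈ stdSimplex ℝ (Fin m), (∃ i, x i = 0) → W l w x = lam l x) ∧
      (∀ l, ∀ x ∈ stdSimplex ℝ (Fin m), W l 0 x = lam l x) ∧
      ∀ (l : Fin (m + 1) → Fin (m + 1)) (w : Fin (m + 1) → ℤ),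
        ∑ i : Fin (m + 1), (-1 : ℤ) ^ (i : ℕ) * w i = csgn l →
        ∃ V : (Fin (m + 1) → ℝ) → (Fin m → ℝ), ContinuousOn V (stdSimplex ℝ (Fin (m + 1))) ∧
          (∀ x ∈ stdSimplex ℝ (Fin (m + 1)), V x ≠ 0) ∧
          ∀ i, ∀ x ∈ stdSimplex ℝ (Fin m), V (i.insertNth 0 x) = W (l ∘ i.succAbove) (w i) x := by
  obtain ⟨n, rfl⟩ : ∃ n, m = n + 2 := ⟨m - 2, by omega⟩
  choose HH hH hH0 using fun (l : Fin (n + 2) → Fin (n + 3)) (w : ℤ) => exists_HH l w
  have h01 : (0:ℝ) ∈ Icc (0:ℝ) 1 := ⟨le_rfl, zero_le_one⟩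
  have hb0 : ∀ (l : Fin (n + 2) → Fin (n + 3)) (x : Fin (n + 2) → ℝ), beta l 0 x = lam l x := by
    intro l x
    unfold beta
    have : phs 0 = 0 := by unfold phs; norm_num
    rw [this]
    simp
  refine ⟨fun l w => HH l w 0, ?_, ?_, ?_, ?_, ?_⟩
  · intro l w
    refine (hH l w).1.comp (f := fun x : Fin (n + 2) → ℝ => ((0:ℝ), x)) (by fun_prop) ?_
    intro x hx
    exact ⟨h01, hx⟩
  · intro l w x hx
    exact (hH l w).2.1 0 h01 x hx
  · intro l w x hx hb
    beta_reduce
    rw [(hH l w).2.2.2 0 h01 x hx hb, hb0]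
  · intro l x hx
    exact hH0 l 0 rfl x hx
  · intro l w hw
    obtain ⟨V1, g, v1, v2, v3, v4⟩ := exists_fill (n := n)
      (fun i => cc (l ∘ i.succAbove) + w i) (by
        simp only [mul_add, Finset.sum_add_distrib]
        rw [cc_sum, hw]
        ring)
    choose R r1 r2 r3 r4 r5 using v4
    refine glue_fill V1 v1.continuousOn v2 (fun i x s => if s ≤ 1 / 2 then
      HH (l ∘ i.succAbove) (w i) (2 * s) x else R i (2 * s - 1) x) ?_ ?_ ?_ ?_ |>.imp ?_
    · intro i
      have h1 := concat_cont (hH (l ∘ i.succAbove) (w i)).1 (r1 i) (by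
          intro x hx
          rw [(hH (l ∘ i.succAbove) (w i)).2.2.1 x hx, r3 i x hx]
          rfl)
      refine h1.comp (f := fun p : (Fin (n + 2) → ℝ) × ℝ => (p.2, p.1)) (by fun_prop) ?_
      rintro ⟨x, s⟩ ⟨hx, hs⟩
      exact ⟨hs, hx⟩
    · intro i x hx s hs
      split_ifs with h
      · exact (hH _ _).2.1 _ ⟨by linarith [hs.1], by linarith⟩ x hx
      · exact r2 i _ ⟨by linarith, by linarith [hs.2]⟩ x hx
    · intro i j x hx x' hx' he s hs
      by_cases hij : i = j
      · subst hij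
        have : x = x' := by
          funext c
          have := congrFun he (i.succAbove c)
          simpa using this
        rw [this]
      · have hz := facet_meet hij he
        have hz' := facet_meet (Ne.symm hij) he.symm
        split_ifs with h
        · have hs2 : 2 * s ∈ Icc (0:ℝ) 1 := ⟨by linarith [hs.1], by linarith⟩
          rw [(hH _ _).2.2.2 _ hs2 x hx hz, (hH _ _).2.2.2 _ hs2 x' hx' hz']
          unfold beta
          rw [lam_facet, lam_facet, he]
        · have hs2 : 2 * s - 1 ∈ Icc (0:ℝ) 1 := ⟨by linarith, by linarith [hs.2]⟩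
          rw [r5 i _ hs2 x hx hz, r5 j _ hs2 x' hx' hz']
    · intro i x hx
      rw [if_neg (by norm_num), show (2:ℝ) * 1 - 1 = 1 by norm_num, r4 i x hx, v3 i x hx]
    · rintro V ⟨hV1, hV2, hV3⟩
      refine ⟨hV1, hV2, fun i x hx => ?_⟩
      rw [hV3 i x hx, if_pos (by norm_num), mul_zero]

end MP629748

end part4
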