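import Pool.Agent.Lib.MP_629748_gt.MBase
import Pool.Agent.Lib.MP_629748_gt.Stmt

/-!
Dimension theory: the extension property.
-/

section part0

/-!
Piece P1a: the extension property `NZ` (basic part).
-/

open Set Filter Topology MeasureTheory Metric
open scoped NNReal

namespace MP629748

theorem NZ.closed {m : ℕ} {Y : Type*} [TopologicalSpace Y] [NormalSpace Y] (h : NZ m Y)
    {Z : Set Y} (hZ : IsClosed Z) : NZ m Z := by
  intro f A hf hA hfA
  obtain ⟨F, hF⟩ := ContinuousMap.exists_restrict_eq hZ (⟨f, hf⟩ : C(Z, Fin m → ℝ))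
  have hF' : ∀ z : Z, F z = f z := fun z => by
    have := DFunLike.congr_fun hF z
    simpa using this
  obtain ⟨g, hg, hg0, hgA⟩ := h F (Subtype.val '' A) F.continuous
    (hZ.isClosedEmbedding_subtypeVal.isClosedMap A hA) (by
      rintro _ ⟨a, ha, rfl⟩
      rw [hF']
      exact hfA a ha)
  refine ⟨fun z => g z, hg.comp continuous_subtype_val, fun z => hg0 z, fun a ha => ?_⟩
  exact (hgA a ⟨a, ha, rfl⟩).trans (hF' a)

theorem NZ.of_homeo {m : ℕ} {Y Z : Type*} [TopologicalSpace Y] [TopologicalSpace Z]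
    (e : Y ≃ₜ Z) (h : NZ m Y) : NZ m Z := by
  intro f A hf hA hfA
  obtain ⟨g, hg, hg0, hgA⟩ := h (f ∘ e) (e ⁻¹' A) (hf.comp e.continuous)
    (hA.preimage e.continuous) (fun a ha => hfA _ ha)
  refine ⟨g ∘ e.symm, hg.comp e.symm.continuous, fun z => hg0 _, fun a ha => ?_⟩
  have := hgA (e.symm a) (by simpa using ha)
  simpa using this

/-- Borsuk homotopy extension. -/
theorem exists_nonvanishing_of_homotopy {m : ℕ} {Y : Type*} [TopologicalSpace Y] [NormalSpace Y]
    (A : Set Y) (hA : IsClosed A) (H : Y × ℝ → (Fin m → ℝ)) (hH : Continuous H)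
    (h1 : ∀ y, H (y, 1) ≠ 0) (hA0 : ∀ a ∈ A, ∀ t ∈ Icc (0:ℝ) 1, H (a, t) ≠ 0) :
    ∃ g : Y → (Fin m → ℝ), Continuous g ∧ (∀ y, g y ≠ 0) ∧ ∀ a ∈ A, g a = H (a, 0) := by
  let D : Set Y := Prod.fst '' {p : Y × Icc (0:ℝ) 1 | H (p.1, (p.2 : ℝ)) = 0}
  have hD : IsClosed D := by
    apply isClosedMap_fst_of_compactSpace
    exact isClosed_eq (hH.comp (by fun_prop)) continuous_const
  have hAD : Disjoint A D := by
    rw [Set.disjoint_left]
    rintro a ha ⟨⟨a', t⟩, hp, rfl⟩
    exact hA0 a' ha t t.2 hp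
  obtain ⟨θ, hθA, hθD, hθ⟩ := exists_continuous_zero_one_of_isClosed hA hD hAD
  refine ⟨fun y => H (y, θ y), hH.comp (by fun_prop), fun y hy => ?_, fun a ha => ?_⟩
  · have hyD : y ∈ D := ⟨(y, ⟨θ y, hθ y⟩), hy, rfl⟩
    have := hθD hyD
    simp only [Pi.one_apply] at this
    apply h1 y
    rw [← this]
    exact hy
  · have := hθA ha
    simp only [Pi.zero_apply] at this
    simp only [this]

theorem exists_nonvanishing_of_segment {m : ℕ} {Y : Type*} [TopologicalSpace Y] [NormalSpace Y]
    (A : Set Y) (hA : IsClosed A) (f g : Y → (Fin m → ℝ)) (hf : Continuous f) (hg : Continuous g)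
    (hg0 : ∀ y, g y ≠ 0) (hseg : ∀ a ∈ A, ∀ t ∈ Icc (0:ℝ) 1, (1 - t) • f a + t • g a ≠ 0) :
    ∃ h : Y → (Fin m → ℝ), Continuous h ∧ (∀ y, h y ≠ 0) ∧ ∀ a ∈ A, h a = f a := by
  have := exists_nonvanishing_of_homotopy A hA
    (fun p : Y × ℝ => (1 - p.2) • f p.1 + p.2 • g p.1) (by fun_prop)
    (fun y => by simpa using hg0 y) hseg
  simpa using this

/-- To prove `NZ m Y` it is enough to treat maps with `2 ≤ ‖f‖` on `A`, up to an error `< ‖f‖`
on `A`. -/
theorem NZ.of_approx {m : ℕ} {Y : Type*} [MetricSpace Y]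
    (h : ∀ (f : Y → (Fin m → ℝ)) (A : Set Y), Continuous f → IsClosed A → (∀ a ∈ A, 2 ≤ ‖f a‖) →
      ∃ g : Y → (Fin m → ℝ), Continuous g ∧ (∀ y, g y ≠ 0) ∧ ∀ a ∈ A, ‖g a - f a‖ < ‖f a‖) :
    NZ m Y := by
  intro f A hf hA hfA
  rcases A.eq_empty_or_nonempty with rfl | hne
  · obtain ⟨g, hg, hg0, -⟩ := h f ∅ hf isClosed_empty (by simp)
    exact ⟨g, hg, hg0, by simp⟩
  let w : Y → ℝ := fun y => max ‖f y‖ (infDist y A)
  have hw : ∀ y, 0 < w y := fun y => by
    by_cases hy : y ∈ A
    · exact lt_of_lt_of_le (norm_pos_iff.2 (hfA y hy)) (le_max_left _ _)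
    · exact lt_of_lt_of_le ((hA.notMem_iff_infDist_pos hne).1 hy) (le_max_right _ _)
  have hwA : ∀ a ∈ A, w a = ‖f a‖ := fun a ha => by
    simp [w, infDist_zero_of_mem ha]
  have hwc : Continuous w := by
    have := continuous_infDist_pt A
    fun_prop
  have hw0 : ∀ y, w y ≠ 0 := fun y => (hw y).ne'
  obtain ⟨g, hg, hg0, hgA⟩ := h (fun y => (2 / w y) • f y) A
    ((continuous_const.div hwc hw0).smul hf) hA (fun a ha => by
      rw [norm_smul, Real.norm_of_nonneg (div_nonneg zero_le_two (hw a).le), hwA a ha]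
      have := norm_pos_iff.2 (hfA a ha)
      rw [div_mul_cancel₀ _ this.ne'])
  have hdiv : ∀ y, (2 : ℝ) / w y ≠ 0 := fun y => div_ne_zero two_ne_zero (hw0 y)
  refine exists_nonvanishing_of_segment A hA f (fun y => (w y / 2) • g y) hf
    ((hwc.div_const 2).smul hg) (fun y => smul_ne_zero (div_ne_zero (hw0 y) two_ne_zero) (hg0 y))
    (fun a ha t ht h0 => ?_)
  have h1 : ‖(w a / 2) • g a - f a‖ < ‖f a‖ := by
    have h2 := hgA a ha
    have h3 : (w a / 2) • (g a - (2 / w a) • f a) = (w a / 2) • g a - f a := by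
      rw [smul_sub, smul_smul]
      congr 1
      have : w a / 2 * (2 / w a) = 1 := by
        have := hw0 a
        field_simp
      rw [this, one_smul]
    have h4 : ‖(w a / 2) • ((2 / w a) • f a)‖ = ‖f a‖ := by
      rw [smul_smul]
      have : w a / 2 * (2 / w a) = 1 := by
        have := hw0 a
        field_simp
      rw [this, one_smul]
    rw [← h3, ← h4, norm_smul, norm_smul (w a / 2)]
    exact mul_lt_mul_of_pos_left h2 (by
      rw [Real.norm_of_nonneg (by have := hw a; positivity)]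
      have := hw a
      positivity)
  have h5 : f a = - (t • ((w a / 2) • g a - f a)) := by
    have h6 : (1 - t) • f a + t • ((w a / 2) • g a)
        = f a + t • ((w a / 2) • g a - f a) := by
      rw [smul_sub, sub_smul, one_smul]; abel
    rw [h6] at h0
    exact eq_neg_of_add_eq_zero_left h0
  have h7 : ‖f a‖ ≤ ‖(w a / 2) • g a - f a‖ := by
    calc ‖f a‖ = ‖t • ((w a / 2) • g a - f a)‖ := by
          conv_lhs => rw [h5]
          rw [norm_neg]
      _ = |t| * ‖(w a / 2) • g a - f a‖ := norm_smul _ _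
      _ ≤ 1 * ‖(w a / 2) • g a - f a‖ := by
          apply mul_le_mul_of_nonneg_right _ (norm_nonneg _)
          rw [abs_of_nonneg ht.1]
          exact ht.2
      _ = _ := one_mul _
  linarith

end MP629748

end part0

section part1

/-!
Piece P1b of MP_629748_gt: sum theorems for the extension property `NZ`, and approximation of
continuous functions by locally Lipschitz ones.
-/

open Set Filter Topology MeasureTheory
open scoped NNReal

namespace MP629748

universe u

namespace NZsum

theorem extend {m : ℕ} {Y : Type*} [TopologicalSpace Y] [NormalSpace Y]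
    (g : Y → (Fin m → ℝ)) (hg : Continuous g) (M Z : Set Y) (hM : IsClosed M) (hZ : IsClosed Z)
    (h : NZ m Z) (hg0 : ∀ y ∈ M, g y ≠ 0) :
    ∃ g' : Y → (Fin m → ℝ), Continuous g' ∧ (∀ y ∈ M, g' y = g y) ∧
      (∀ y ∈ M ∪ Z, g' y ≠ 0) := by
  classical
  obtain ⟨g0, hg0c, hg0n, hg0e⟩ := h (fun z => g z) (Subtype.val ⁻¹' M)
    (hg.comp continuous_subtype_val) (hM.preimage continuous_subtype_val)
    (fun a ha => hg0 a ha)
  let k : Y → (Fin m → ℝ) := fun y => if hy : y ∈ Z then g0 ⟨y, hy⟩ else g y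
  have hkM' : ∀ y ∈ M, k y = g y := by
    intro y hy
    by_cases hz : y ∈ Z
    · simp only [k, hz, dif_pos]
      exact hg0e ⟨y, hz⟩ hy
    · simp only [k, hz, dif_neg, not_false_eq_true]
  have hkZ' : ∀ y (hy : y ∈ Z), k y = g0 ⟨y, hy⟩ := by
    intro y hy
    simp only [k, hy, dif_pos]
  have hkZ : ContinuousOn k Z := by
    rw [continuousOn_iff_continuous_domRestrict]
    have : Z.domRestrict k = g0 := by
      funext z
      exact hkZ' z.1 z.2
    rw [this]; exact hg0c
  have hkM : ContinuousOn k M := hg.continuousOn.congr hkM'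
  have hk : ContinuousOn k (M ∪ Z) := hkM.union_of_isClosed hkZ hM hZ
  obtain ⟨G, hG⟩ := ContinuousMap.exists_restrict_eq (hM.union hZ)
    (⟨(M ∪ Z).domRestrict k, continuousOn_iff_continuous_domRestrict.1 hk⟩ :
      C((M ∪ Z : Set Y), Fin m → ℝ))
  have hGe : ∀ y ∈ M ∪ Z, G y = k y := by
    intro y hy
    have := congrArg (fun f => f ⟨y, hy⟩) hG
    exact this
  refine ⟨G, G.continuous, ?_, ?_⟩
  · intro y hy
    rw [hGe y (Or.inl hy), hkM' y hy]
  · intro y hy
    rw [hGe y hy]
    rcases hy with hy | hy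
    · rw [hkM' y hy]; exact hg0 y hy
    · rw [hkZ' y hy]; exact hg0n _

/-- one step, with a closed neighbourhood -/
theorem step {m : ℕ} {Y : Type*} [TopologicalSpace Y] [NormalSpace Y]
    (g : Y → (Fin m → ℝ)) (hg : Continuous g) (M Z : Set Y) (hM : IsClosed M) (hZ : IsClosed Z)
    (h : NZ m Z) (hg0 : ∀ y ∈ M, g y ≠ 0) :
    ∃ (g' : Y → (Fin m → ℝ)) (M' : Set Y), Continuous g' ∧ IsClosed M' ∧
      (∀ y ∈ M', g' y ≠ 0) ∧ M ⊆ M' ∧ Z ⊆ interior M' ∧ (∀ y ∈ M, g' y = g y) := by
  obtain ⟨g', hg', hge, hgn⟩ := extend g hg M Z hM hZ h hg0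
  have hopen : IsOpen {y | g' y ≠ 0} := isOpen_ne_fun hg' continuous_const
  obtain ⟨V, hV, hV1, hV2⟩ := normal_exists_closure_subset (hM.union hZ) hopen
    (fun y hy => hgn y hy)
  refine ⟨g', closure V, hg', isClosed_closure, fun y hy => hV2 hy, ?_, ?_, hge⟩
  · exact fun y hy => subset_closure (hV1 (Or.inl hy))
  · intro y hy
    exact interior_mono subset_closure (hV.interior_eq.symm ▸ hV1 (Or.inr hy))

/-- state of the induction -/
structure St (m : ℕ) (Y : Type*) [TopologicalSpace Y] where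
  g : Y → (Fin m → ℝ)
  M : Set Y
  hg : Continuous g
  hM : IsClosed M
  h0 : ∀ y ∈ M, g y ≠ 0

end NZsum

theorem NZ.countable_iUnion {m : ℕ} {Y : Type*} [TopologicalSpace Y] [NormalSpace Y]
    (Z : ℕ → Set Y) (hZ : ∀ i, IsClosed (Z i)) (hcov : ⋃ i, Z i = univ) (h : ∀ i, NZ m (Z i)) :
    NZ m Y := by
  classical
  intro f A hf hA hfA
  have hstep : ∀ (i : ℕ) (s : NZsum.St m Y), ∃ s' : NZsum.St m Y, s.M ⊆ s'.M ∧
      Z i ⊆ interior s'.M ∧ ∀ y ∈ s.M, s'.g y = s.g y := by
    intro i s
    obtain ⟨g', M', h1, h2, h3, h4, h5, h6⟩ := NZsum.step s.g s.hg s.M (Z i) s.hM (hZ i) (h i) s.h0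
    exact ⟨⟨g', M', h1, h2, h3⟩, h4, h5, h6⟩
  choose F hF1 hF2 hF3 using hstep
  let s0 : NZsum.St m Y := ⟨f, A, hf, hA, hfA⟩
  let S : ℕ → NZsum.St m Y := fun n => Nat.rec s0 (fun i s => F i s) n
  have hS0 : S 0 = s0 := rfl
  have hS1 : ∀ n, S (n + 1) = F n (S n) := fun n => rfl
  have hmono : ∀ i j, i ≤ j → (S i).M ⊆ (S j).M ∧ ∀ y ∈ (S i).M, (S j).g y = (S i).g y := by
    intro i j hij
    induction hij with
    | refl => exact ⟨subset_rfl, fun _ _ => rfl⟩
    | step hij ih =>
      rename_i k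
      rw [hS1]
      refine ⟨ih.1.trans (hF1 _ _), fun y hy => ?_⟩
      rw [hF3 k (S k) y (ih.1 hy), ih.2 y hy]
  have hint : ∀ y, ∃ n, y ∈ interior (S n).M := by
    intro y
    have : y ∈ ⋃ i, Z i := by rw [hcov]; trivial
    obtain ⟨i, hi⟩ := mem_iUnion.1 this
    exact ⟨i + 1, by rw [hS1]; exact hF2 i _ hi⟩
  let N : Y → ℕ := fun y => Nat.find (hint y)
  have hN : ∀ y, y ∈ interior (S (N y)).M := fun y => Nat.find_spec (hint y)
  let G : Y → (Fin m → ℝ) := fun y => (S (N y)).g y
  have hG : ∀ n, ∀ y ∈ (S n).M, G y = (S n).g y := by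
    intro n y hy
    have hy' : y ∈ (S (N y)).M := interior_subset (hN y)
    rcases le_total n (N y) with hn | hn
    · exact (hmono _ _ hn).2 y hy
    · exact ((hmono _ _ hn).2 y hy').symm
  refine ⟨G, ?_, ?_, ?_⟩
  · rw [continuous_iff_continuousAt]
    intro y
    have h1 : ContinuousAt (S (N y)).g y := (S (N y)).hg.continuousAt
    refine h1.congr ?_
    filter_upwards [isOpen_interior.mem_nhds (hN y)] with z hz
    exact (hG _ z (interior_subset hz)).symm
  · intro y
    exact (S (N y)).h0 y (interior_subset (hN y))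
  · intro a ha
    have := hG 0 a (by rw [hS0]; exact ha)
    rw [this, hS0]

theorem NZsum.nz_preimage {m : ℕ} {Y : Type*} [TopologicalSpace Y] {V F : Set Y} (hFV : F ⊆ V)
    (h : NZ m F) : NZ m (Subtype.val ⁻¹' F : Set V) := by
  let e : F ≃ₜ (Subtype.val ⁻¹' F : Set V) :=
    { toFun := fun x => ⟨⟨x.1, hFV x.2⟩, x.2⟩
      invFun := fun x => ⟨x.1.1, x.2⟩
      left_inv := fun x => rfl
      right_inv := fun x => rfl
      continuous_toFun := by fun_prop
      continuous_invFun := by fun_prop }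
  exact NZ.of_homeo e h

theorem NZ.isOpen {m : ℕ} {Y : Type*} [MetricSpace Y] (h : NZ m Y) {V : Set Y}
    (hV : IsOpen V) : NZ m V := by
  obtain ⟨F, hF1, hF2, hF3, -⟩ := hV.exists_iUnion_isClosed
  refine NZ.countable_iUnion (fun i => (Subtype.val ⁻¹' (F i) : Set V))
    (fun i => (hF1 i).preimage continuous_subtype_val) ?_ ?_
  · rw [eq_univ_iff_forall]
    intro y
    have : (y : Y) ∈ ⋃ i, F i := by rw [hF3]; exact y.2
    obtain ⟨i, hi⟩ := mem_iUnion.1 this
    exact mem_iUnion.2 ⟨i, hi⟩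
  · intro i
    exact NZsum.nz_preimage (hF2 i) (NZ.closed h (hF1 i))

/-! ### locally finite sums -/

namespace NZsum

section zorn

variable {m : ℕ} {Y : Type*} [TopologicalSpace Y]

/-- the domain belonging to a set of indices -/
def dom (A : Set Y) {ι : Type*} (C : ι → Set Y) (L : Set ι) : Set Y := A ∪ ⋃ i ∈ L, C i

theorem mem_dom {A : Set Y} {ι : Type*} {C : ι → Set Y} {L : Set ι} {y : Y} :
    y ∈ dom A C L ↔ y ∈ A ∨ ∃ i ∈ L, y ∈ C i := by
  simp [dom]

theorem dom_mono {A : Set Y} {ι : Type*} {C : ι → Set Y} {L L' : Set ι} (h : L ⊆ L') :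
    dom A C L ⊆ dom A C L' := by
  intro y hy
  rw [mem_dom] at hy ⊢
  rcases hy with hy | ⟨i, hi, hy⟩
  · exact Or.inl hy
  · exact Or.inr ⟨i, h hi, hy⟩

theorem isClosed_dom {A : Set Y} (hA : IsClosed A) {ι : Type*} {C : ι → Set Y}
    (hC : ∀ i, IsClosed (C i)) (hlf : LocallyFinite C) (L : Set ι) : IsClosed (dom A C L) := by
  refine hA.union ?_
  have h1 : LocallyFinite (fun i : L => C i) := hlf.comp_injective Subtype.val_injective
  have h2 := h1.isClosed_iUnion (fun i => hC i)
  have h3 : (⋃ i ∈ L, C i) = ⋃ i : L, C i := biUnion_eq_iUnion L (fun i _ => C i)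
  rw [h3]; exact h2

/-- partial solutions -/
structure PS (f : Y → (Fin m → ℝ)) (A : Set Y) {ι : Type*} (C : ι → Set Y) where
  L : Set ι
  g : Y → (Fin m → ℝ)
  hg : ContinuousOn g (dom A C L)
  h0 : ∀ y ∈ dom A C L, g y ≠ 0
  hf : ∀ a ∈ A, g a = f a

instance (f : Y → (Fin m → ℝ)) (A : Set Y) {ι : Type*} (C : ι → Set Y) : Preorder (PS f A C) where
  le p q := p.L ⊆ q.L ∧ ∀ y ∈ dom A C p.L, q.g y = p.g y
  le_refl p := ⟨subset_rfl, fun _ _ => rfl⟩
  le_trans p q r h1 h2 := ⟨h1.1.trans h2.1, fun y hy => by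
    rw [h2.2 y (dom_mono h1.1 hy), h1.2 y hy]⟩

theorem chain_bdd (f : Y → (Fin m → ℝ)) (A : Set Y) {ι : Type*} (C : ι → Set Y)
    (hlf : LocallyFinite C) (c : Set (PS f A C)) (hc : IsChain (· ≤ ·) c) (hne : c.Nonempty) :
    BddAbove c := by
  classical
  let L : Set ι := ⋃ p ∈ c, p.L
  have hLm : ∀ i, i ∈ L ↔ ∃ p ∈ c, i ∈ p.L := by intro i; simp [L]
  have hD : ∀ y ∈ dom A C L, ∃ p ∈ c, y ∈ dom A C p.L := by
    intro y hy
    rcases mem_dom.1 hy with hy | ⟨i, hi, hy⟩
    · obtain ⟨p, hp⟩ := hne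
      exact ⟨p, hp, mem_dom.2 (Or.inl hy)⟩
    · obtain ⟨p, hp, hi⟩ := (hLm i).1 hi
      exact ⟨p, hp, mem_dom.2 (Or.inr ⟨i, hi, hy⟩)⟩
  let g : Y → (Fin m → ℝ) := fun y =>
    if h : ∃ p ∈ c, y ∈ dom A C p.L then h.choose.g y else 0
  have hgp : ∀ p ∈ c, ∀ y ∈ dom A C p.L, g y = p.g y := by
    intro p hp y hy
    have h : ∃ p ∈ c, y ∈ dom A C p.L := ⟨p, hp, hy⟩
    have hg : g y = h.choose.g y := by simp only [g, h, dif_pos]
    rw [hg]
    rcases hc.total hp h.choose_spec.1 with h1 | h1
    · exact h1.2 y hy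
    · exact (h1.2 y h.choose_spec.2).symm
  have hLp : ∀ p ∈ c, p.L ⊆ L := fun p hp i hi => (hLm i).2 ⟨p, hp, hi⟩
  -- finite subsets of L lie in one member
  have hfin : ∀ s : Set ι, s.Finite → s ⊆ L → ∃ p ∈ c, s ⊆ p.L := by
    intro s hs
    induction s, hs using Set.Finite.induction_on with
    | empty =>
      intro _
      obtain ⟨p, hp⟩ := hne
      exact ⟨p, hp, empty_subset _⟩
    | insert _ _ ih =>
      rename_i a s _ _
      intro hsub
      obtain ⟨p, hp, hsp⟩ := ih (fun x hx => hsub (mem_insert_of_mem _ hx))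
      obtain ⟨q, hq, haq⟩ := (hLm a).1 (hsub (mem_insert _ _))
      rcases hc.total hp hq with h1 | h1
      · exact ⟨q, hq, insert_subset haq (hsp.trans h1.1)⟩
      · exact ⟨p, hp, insert_subset (h1.1 haq) hsp⟩
  have hgc : ContinuousOn g (dom A C L) := by
    intro y hy
    obtain ⟨W, hW, hWf⟩ := hlf y
    obtain ⟨p0, hp0, hyp0⟩ := hD y hy
    have hs : ({i | (C i ∩ W).Nonempty} ∩ L).Finite := hWf.subset inter_subset_left
    obtain ⟨p1, hp1, hsp1⟩ := hfin _ hs inter_subset_right
    have key : ∃ p ∈ c, y ∈ dom A C p.L ∧ {i | (C i ∩ W).Nonempty} ∩ L ⊆ p.L := by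
      rcases hc.total hp0 hp1 with h1 | h1
      · exact ⟨p1, hp1, dom_mono h1.1 hyp0, hsp1⟩
      · exact ⟨p0, hp0, hyp0, hsp1.trans h1.1⟩
    obtain ⟨p, hp, hyp, hsp⟩ := key
    have h1 : ContinuousWithinAt p.g (dom A C p.L) y := p.hg y hyp
    have hsub : dom A C L ∩ W ⊆ dom A C p.L := by
      rintro z ⟨hz, hzW⟩
      rcases mem_dom.1 hz with hz | ⟨i, hi, hz⟩
      · exact mem_dom.2 (Or.inl hz)
      · exact mem_dom.2 (Or.inr ⟨i, hsp ⟨⟨z, hz, hzW⟩, hi⟩, hz⟩)
    have h2 : ContinuousWithinAt g (dom A C p.L) y :=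
      h1.congr (fun z hz => hgp p hp z hz) (hgp p hp y hyp)
    have h3 : ContinuousWithinAt g (dom A C L ∩ W) y := h2.mono hsub
    exact (continuousWithinAt_inter hW).1 h3
  refine ⟨⟨L, g, hgc, ?_, ?_⟩, ?_⟩
  · intro y hy
    obtain ⟨p, hp, hyp⟩ := hD y hy
    rw [hgp p hp y hyp]
    exact p.h0 y hyp
  · intro a ha
    obtain ⟨p, hp⟩ := hne
    rw [hgp p hp a (mem_dom.2 (Or.inl ha))]
    exact p.hf a ha
  · intro p hp
    exact ⟨hLp p hp, fun y hy => hgp p hp y hy⟩

end zorn

/-- sum theorem for locally finite closed coverings -/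
theorem locallyFinite_sum {m : ℕ} {Y : Type*} [TopologicalSpace Y] [NormalSpace Y] {ι : Type*}
    (C : ι → Set Y) (hC : ∀ i, IsClosed (C i)) (hlf : LocallyFinite C) (hcov : ⋃ i, C i = univ)
    (h : ∀ i, NZ m (C i)) : NZ m Y := by
  classical
  intro f A hf hA hfA
  have hdom0 : dom A C (∅ : Set ι) = A := by simp [dom]
  have : Nonempty (PS f A C) := ⟨⟨∅, f, hf.continuousOn, by rw [hdom0]; exact hfA,
    fun _ _ => rfl⟩⟩
  obtain ⟨p, hp⟩ := zorn_le_nonempty (chain_bdd f A C hlf)
  have huniv : p.L = univ := by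
    rw [eq_univ_iff_forall]
    intro i
    by_contra hi
    have hcl := isClosed_dom hA hC hlf p.L
    obtain ⟨G, hG⟩ := ContinuousMap.exists_restrict_eq hcl
      (⟨(dom A C p.L).domRestrict p.g, continuousOn_iff_continuous_domRestrict.1 p.hg⟩ :
        C((dom A C p.L : Set Y), Fin m → ℝ))
    have hGe : ∀ y ∈ dom A C p.L, G y = p.g y := by
      intro y hy
      have := congrArg (fun f => f ⟨y, hy⟩) hG
      exact this
    obtain ⟨g', hg', hge, hgn⟩ := extend G G.continuous (dom A C p.L) (C i) hcl (hC i) (h i)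
      (fun y hy => by rw [hGe y hy]; exact p.h0 y hy)
    have hdomi : dom A C (insert i p.L) ⊆ dom A C p.L ∪ C i := by
      intro y hy
      rcases mem_dom.1 hy with hy | ⟨j, hj, hy⟩
      · exact Or.inl (mem_dom.2 (Or.inl hy))
      · rcases hj with hj | hj
        · exact Or.inr (hj ▸ hy)
        · exact Or.inl (mem_dom.2 (Or.inr ⟨j, hj, hy⟩))
    let q : PS f A C := ⟨insert i p.L, g', hg'.continuousOn,
      fun y hy => hgn y (hdomi hy), fun a ha => by
        have ha' : a ∈ dom A C p.L := mem_dom.2 (Or.inl ha)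
        rw [hge a ha', hGe a ha']; exact p.hf a ha⟩
    have hpq : p ≤ q := ⟨subset_insert _ _, fun y hy => by
      change g' y = p.g y
      rw [hge y hy, hGe y hy]⟩
    have hqp := hp hpq
    exact hi (hqp.1 (mem_insert _ _))
  have hD : dom A C p.L = univ := by
    rw [huniv, eq_univ_iff_forall]
    intro y
    have : y ∈ ⋃ i, C i := by rw [hcov]; trivial
    obtain ⟨i, hi⟩ := mem_iUnion.1 this
    exact mem_dom.2 (Or.inr ⟨i, trivial, hi⟩)
  refine ⟨p.g, ?_, ?_, p.hf⟩
  · have := p.hg
    rwa [hD, continuousOn_univ] at this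
  · intro y
    exact p.h0 y (by rw [hD]; trivial)

/-- closed subsets, relative version -/
theorem nz_closed_subset {m : ℕ} {Y : Type*} [TopologicalSpace Y] {Z C : Set Y} [NormalSpace Z]
    (hC : IsClosed C) (hCZ : C ⊆ Z) (h : NZ m Z) : NZ m C := by
  have h1 : NZ m (Subtype.val ⁻¹' C : Set Z) := NZ.closed h (hC.preimage continuous_subtype_val)
  let e : (Subtype.val ⁻¹' C : Set Z) ≃ₜ C :=
    { toFun := fun x => ⟨x.1.1, x.2⟩
      invFun := fun x => ⟨⟨x.1, hCZ x.2⟩, x.2⟩
      left_inv := fun x => rfl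
      right_inv := fun x => rfl
      continuous_toFun := by fun_prop
      continuous_invFun := by fun_prop }
  exact NZ.of_homeo e h1

end NZsum

theorem NZ.of_local {m : ℕ} {Y : Type*} [MetricSpace Y]
    (h : ∀ y : Y, ∃ Z ∈ 𝓝 y, IsClosed Z ∧ NZ m Z) : NZ m Y := by
  choose Z hZn hZc hZnz using h
  obtain ⟨v, hvo, hvc, hvl, hvs⟩ := precise_refinement (fun y => interior (Z y))
    (fun y => isOpen_interior)
    (by
      rw [eq_univ_iff_forall]
      intro y
      exact mem_iUnion.2 ⟨y, mem_interior_iff_mem_nhds.2 (hZn y)⟩)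
  obtain ⟨w, hwc, hwo, hws⟩ := exists_iUnion_eq_closure_subset hvo
    (fun y => hvl.point_finite y) hvc
  refine NZsum.locallyFinite_sum (fun y => closure (w y)) (fun _ => isClosed_closure)
    (hvl.subset hws) ?_ ?_
  · rw [eq_univ_iff_forall]
    intro y
    have : y ∈ ⋃ i, w i := by rw [hwc]; trivial
    obtain ⟨i, hi⟩ := mem_iUnion.1 this
    exact mem_iUnion.2 ⟨i, subset_closure hi⟩
  · intro y
    exact NZsum.nz_closed_subset isClosed_closure
      ((hws y).trans ((hvs y).trans interior_subset)) (hZnz y)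

/-! ### locally Lipschitz approximation -/

namespace NZsum

theorem ll_congr {Y Z : Type*} [MetricSpace Y] [MetricSpace Z] {f : Y → Z}
    (h : ∀ y, ∃ g : Y → Z, LocallyLipschitz g ∧ g =ᶠ[𝓝 y] f) : LocallyLipschitz f := by
  intro y
  obtain ⟨g, hg, hgf⟩ := h y
  obtain ⟨K, t, ht, hK⟩ := hg y
  refine ⟨K, t ∩ {z | g z = f z}, inter_mem ht hgf, ?_⟩
  intro a ha b hb
  have h1 : g a = f a := ha.2
  have h2 : g b = f b := hb.2
  rw [← h1, ← h2]
  exact hK ha.1 hb.1

theorem ll_pi {Y : Type*} [MetricSpace Y] {m : ℕ} {f : Y → (Fin m → ℝ)}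
    (h : ∀ i, LocallyLipschitz (fun y => f y i)) : LocallyLipschitz f := by
  intro y
  choose K t ht hK using fun i => h i y
  refine ⟨∑ i, K i, ⋂ i, t i, iInter_mem.2 ht, ?_⟩
  intro a ha b hb
  rw [edist_pi_le_iff]
  intro i
  refine (hK i (mem_iInter.1 ha i) (mem_iInter.1 hb i)).trans ?_
  gcongr
  exact_mod_cast Finset.single_le_sum (f := K) (fun _ _ => zero_le) (Finset.mem_univ i)

theorem ll_comp_contDiff {Y : Type*} [MetricSpace Y] {g : Y → ℝ × ℝ} (hg : LocallyLipschitz g)
    {φ : ℝ × ℝ → ℝ} (hφ : ∀ y, ContDiffAt ℝ 1 φ (g y)) : LocallyLipschitz (fun y => φ (g y)) := by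
  intro y
  obtain ⟨K, t, ht, hK⟩ := (hφ y).exists_lipschitzOnWith
  obtain ⟨K', t', ht', hK'⟩ := hg y
  refine ⟨K * K', t' ∩ g ⁻¹' t, inter_mem ht' (hg.continuous.continuousAt ht), ?_⟩
  intro a ha b hb
  refine (hK ha.2 hb.2).trans ?_
  have := hK' ha.1 hb.1
  rw [ENNReal.coe_mul, mul_assoc]
  gcongr

theorem ll_add {Y : Type*} [MetricSpace Y] {f g : Y → ℝ} (hf : LocallyLipschitz f)
    (hg : LocallyLipschitz g) : LocallyLipschitz (fun y => f y + g y) :=
  ll_comp_contDiff (hf.prodMk hg) (φ := fun p => p.1 + p.2) (fun y => by fun_prop)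

/-- locally Lipschitz Urysohn functions -/
theorem ll_urysohn {Y : Type*} [MetricSpace Y] (A B : Set Y) (hA : IsClosed A) (hB : IsClosed B)
    (hAB : Disjoint A B) : ∃ φ : Y → ℝ, LocallyLipschitz φ ∧ (∀ y, 0 ≤ φ y ∧ φ y ≤ 1) ∧
      (∀ y ∈ A, φ y = 0) ∧ (∀ y ∈ B, φ y = 1) := by
  rcases A.eq_empty_or_nonempty with rfl | hAn
  · exact ⟨fun _ => 1, LocallyLipschitz.const _, fun _ => ⟨zero_le_one, le_rfl⟩,
      fun y hy => absurd hy (by simp), fun _ _ => rfl⟩
  rcases B.eq_empty_or_nonempty with rfl | hBn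
  · exact ⟨fun _ => 0, LocallyLipschitz.const _, fun _ => ⟨le_rfl, zero_le_one⟩,
      fun _ _ => rfl, fun y hy => absurd hy (by simp)⟩
  have hpos : ∀ y, 0 < Metric.infDist y A + Metric.infDist y B := by
    intro y
    by_cases hy : y ∈ A
    · have hyB : y ∉ B := fun hyB => (disjoint_left.1 hAB) hy hyB
      have := (hB.notMem_iff_infDist_pos hBn).1 hyB
      have h2 : 0 ≤ Metric.infDist y A := Metric.infDist_nonneg
      linarith
    · have := (hA.notMem_iff_infDist_pos hAn).1 hy
      have h2 : 0 ≤ Metric.infDist y B := Metric.infDist_nonneg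
      linarith
  refine ⟨fun y => Metric.infDist y A / (Metric.infDist y A + Metric.infDist y B), ?_, ?_, ?_, ?_⟩
  · refine ll_comp_contDiff (((Metric.lipschitz_infDist_pt A).locallyLipschitz).prodMk
      ((Metric.lipschitz_infDist_pt B).locallyLipschitz)) (φ := fun p => p.1 / (p.1 + p.2)) ?_
    intro y
    have : (Metric.infDist y A + Metric.infDist y B) ≠ 0 := (hpos y).ne'
    exact ContDiffAt.div (by fun_prop) (by fun_prop) this
  · intro y
    have h1 : 0 ≤ Metric.infDist y A := Metric.infDist_nonneg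
    have h2 : 0 ≤ Metric.infDist y B := Metric.infDist_nonneg
    refine ⟨by positivity, ?_⟩
    rw [div_le_one (hpos y)]
    linarith
  · intro y hy
    have : Metric.infDist y A = 0 := (hA.mem_iff_infDist_zero hAn).1 hy
    simp [this]
  · intro y hy
    have : Metric.infDist y B = 0 := (hB.mem_iff_infDist_zero hBn).1 hy
    have h3 := hpos y
    change Metric.infDist y A / (Metric.infDist y A + Metric.infDist y B) = 1
    rw [this, add_zero] at h3 ⊢
    exact div_self h3.ne'

/-- scalar version, error at most one -/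
theorem ll_near_one {Y : Type*} [MetricSpace Y] (f : Y → ℝ) (hf : Continuous f) :
    ∃ g : Y → ℝ, LocallyLipschitz g ∧ ∀ y, |g y - f y| ≤ 1 := by
  have hex : ∀ k : ℤ, ∃ φ : Y → ℝ, LocallyLipschitz φ ∧ (∀ y, 0 ≤ φ y ∧ φ y ≤ 1) ∧
      (∀ y, f y ≤ k → φ y = 0) ∧ (∀ y, (k : ℝ) + 1 ≤ f y → φ y = 1) := by
    intro k
    obtain ⟨φ, h1, h2, h3, h4⟩ := ll_urysohn {y | f y ≤ k} {y | (k : ℝ) + 1 ≤ f y}
      (isClosed_le hf continuous_const) (isClosed_le continuous_const hf) (by
        rw [disjoint_left]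
        intro y hy1 hy2
        have h1 : f y ≤ k := hy1
        have h2 : (k : ℝ) + 1 ≤ f y := hy2
        linarith)
    exact ⟨φ, h1, h2, h3, h4⟩
  choose φ hφl hφb hφ0 hφ1 using hex
  refine ⟨fun y => ⌊f y⌋ + φ ⌊f y⌋ y, ?_, ?_⟩
  · refine ll_congr fun y => ?_
    set j : ℤ := ⌊f y⌋ with hj
    have hj1 : (j : ℝ) ≤ f y := Int.floor_le _
    have hj2 : f y < j + 1 := Int.lt_floor_add_one _
    refine ⟨fun z => ((j : ℝ) - 1) + (φ (j - 1) z + φ j z), ?_, ?_⟩
    · exact ll_add (LocallyLipschitz.const _) (ll_add (hφl _) (hφl _))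
    · have ho : {z | (j : ℝ) - 1 < f z ∧ f z < j + 1} ∈ 𝓝 y := by
        refine IsOpen.mem_nhds ?_ ⟨by linarith, hj2⟩
        exact (isOpen_lt continuous_const hf).inter (isOpen_lt hf continuous_const)
      filter_upwards [ho] with z hz
      rcases lt_or_ge (f z) j with hzj | hzj
      · have hfl : ⌊f z⌋ = j - 1 := by
          rw [Int.floor_eq_iff]
          push_cast
          exact ⟨by linarith [hz.1], by linarith⟩
        rw [hfl, hφ0 j z hzj.le]
        push_cast
        ring
      · have hfl : ⌊f z⌋ = j := by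
          rw [Int.floor_eq_iff]
          exact ⟨hzj, hz.2⟩
        rw [hfl, hφ1 (j - 1) z (by push_cast; linarith)]
        ring
  · intro y
    have h1 : (⌊f y⌋ : ℝ) ≤ f y := Int.floor_le _
    have h2 : f y < ⌊f y⌋ + 1 := Int.lt_floor_add_one _
    have h3 := hφb ⌊f y⌋ y
    rw [abs_le]
    constructor <;> linarith [h3.1, h3.2]

end NZsum

/-- Continuous functions are uniformly approximable by locally Lipschitz ones. -/
theorem exists_locallyLipschitz_near {m : ℕ} {Y : Type*} [MetricSpace Y] (f : Y → (Fin m → ℝ))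
    (hf : Continuous f) {ε : ℝ} (hε : 0 < ε) :
    ∃ g : Y → (Fin m → ℝ), LocallyLipschitz g ∧ ∀ y, ‖g y - f y‖ ≤ ε := by
  have h1 : ∀ i : Fin m, ∃ g : Y → ℝ, LocallyLipschitz g ∧ ∀ y, |g y - f y i / ε| ≤ 1 := by
    intro i
    exact NZsum.ll_near_one (fun y => f y i / ε) (by fun_prop)
  choose g hg1 hg2 using h1
  refine ⟨fun y i => ε * g i y, ?_, ?_⟩
  · refine NZsum.ll_pi fun i => ?_
    exact NZsum.ll_comp_contDiff ((hg1 i).prodMk (LocallyLipschitz.const ε))
      (φ := fun p => p.2 * p.1) (fun y => by fun_prop)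
  · intro y
    rw [pi_norm_le_iff_of_nonneg hε.le]
    intro i
    have h2 := hg2 i y
    have h3 : ε * g i y - f y i = ε * (g i y - f y i / ε) := by
      field_simp
    rw [Pi.sub_apply, h3, Real.norm_eq_abs, abs_mul, abs_of_pos hε]
    nlinarith

end MP629748

end part1

section part2

/-!
P2 (TopoB) of MP_629748_gt: refinements of bounded order from the extension property `NZ`.
-/

open Set Filter Topology

namespace MP629748

/-- Tietze + `NZ`. -/
theorem tb_nz_ext {m : ℕ} {Y : Type*} [TopologicalSpace Y] [NormalSpace Y] (h : NZ m Y)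
    {A : Set Y} (hA : IsClosed A) (f : Y → (Fin m → ℝ)) (hf : ContinuousOn f A)
    (h0 : ∀ a ∈ A, f a ≠ 0) :
    ∃ g : Y → (Fin m → ℝ), Continuous g ∧ (∀ y, g y ≠ 0) ∧ ∀ a ∈ A, g a = f a := by
  obtain ⟨F, hF⟩ := ContinuousMap.exists_restrict_eq hA
    (⟨A.domRestrict f, hf.domRestrict⟩ : C(A, Fin m → ℝ))
  have hFA : ∀ a ∈ A, F a = f a := by
    intro a ha
    exact congrArg (fun G : C(A, Fin m → ℝ) => G ⟨a, ha⟩) hF
  obtain ⟨g, hg, hg0, hgA⟩ := h F A F.continuous hA
    (fun a ha => by rw [hFA a ha]; exact h0 a ha)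
  exact ⟨g, hg, hg0, fun a ha => (hgA a ha).trans (hFA a ha)⟩

/-- Extension to the boundary of a simplex with vertices `Fin (j+1)`. -/
theorem tb_bdry {j : ℕ} {Y : Type*} [TopologicalSpace Y] [NormalSpace Y] (h : NZ j Y)
    {B : Set Y} (hB : IsClosed B) (g : Y → Fin (j + 1) → ℝ) (hg : ContinuousOn g B)
    (hgs : ∀ y ∈ B, g y ∈ stdSimplex ℝ (Fin (j + 1)) ∧ ∃ i, g y i = 0) :
    ∃ g' : Y → Fin (j + 1) → ℝ, Continuous g' ∧
      (∀ y, g' y ∈ stdSimplex ℝ (Fin (j + 1)) ∧ ∃ i, g' y i = 0) ∧ ∀ y ∈ B, g' y = g y := by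
  have hj : (0:ℝ) < (j:ℝ) + 1 := by positivity
  -- the vector field in coordinates `1..j`
  obtain ⟨b, hb⟩ : ∃ b : ℝ, b = 1 / ((j:ℝ) + 1) := ⟨_, rfl⟩
  have hbpos : 0 < b := by rw [hb]; positivity
  have hsumg : ∀ y ∈ B, g y 0 + ∑ i : Fin j, g y i.succ = 1 := by
    intro y hy
    have := (hgs y hy).1.2
    rwa [Fin.sum_univ_succ] at this
  have hjb : (j:ℝ) * b + b = 1 := by rw [hb]; field_simp
  obtain ⟨w, hw, hw0, hwB⟩ := tb_nz_ext h hB (fun y i => g y i.succ - b)
    (by
      refine continuousOn_pi.2 fun i => ?_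
      exact ((continuousOn_pi.1 hg) i.succ).sub continuousOn_const)
    (by
      intro y hy h0
      have h1 : ∀ i : Fin j, g y i.succ = b := by
        intro i
        have := congrFun h0 i
        simp only [Pi.zero_apply] at this
        linarith
      have h2 : g y 0 = b := by
        have := hsumg y hy
        simp only [h1, Finset.sum_const, Finset.card_univ, Fintype.card_fin, nsmul_eq_mul] at this
        linarith
      obtain ⟨i, hi⟩ := (hgs y hy).2
      induction i using Fin.cases with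
      | zero => linarith
      | succ i => rw [h1 i] at hi; linarith)
  -- the full vector
  let W : Y → Fin (j + 1) → ℝ := fun y => Fin.cons (-∑ i, w y i) (w y)
  have hWc : ∀ i, Continuous (fun y => W y i) := by
    intro i
    induction i using Fin.cases with
    | zero =>
      show Continuous fun y => -∑ i, w y i
      exact (continuous_finsetSum _ fun i _ => (continuous_apply i).comp hw).neg
    | succ i =>
      show Continuous fun y => w y i
      exact (continuous_apply i).comp hw
  have hWsum : ∀ y, ∑ i, W y i = 0 := by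
    intro y
    rw [Fin.sum_univ_succ]
    show -∑ i, w y i + ∑ i : Fin j, w y i = 0
    ring
  have hWne : ∀ y, W y ≠ 0 := by
    intro y h0
    refine hw0 y ?_
    funext i
    exact congrFun h0 i.succ
  let N : Y → Fin (j + 1) → ℝ := fun y i => max (-W y i) 0
  have hNc : Continuous N := continuous_pi fun i => (hWc i).neg.max continuous_const
  have hNmax : ∀ y, ∃ i, ‖N y‖ = N y i := by
    intro y
    obtain ⟨i, hi⟩ := Finite.exists_max (N y)
    refine ⟨i, le_antisymm ?_ ?_⟩
    · refine (pi_norm_le_iff_of_nonneg (le_max_right _ _)).2 fun k => ?_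
      rw [Real.norm_eq_abs, abs_of_nonneg (le_max_right _ _)]
      exact hi k
    · exact (le_abs_self _).trans (norm_le_pi_norm (N y) i)
  have hNpos : ∀ y, 0 < ‖N y‖ := by
    intro y
    rw [norm_pos_iff]
    intro h0
    refine hWne y ?_
    have h1 : ∀ i, 0 ≤ W y i := by
      intro i
      have : max (-W y i) 0 = 0 := congrFun h0 i
      have := max_eq_right_iff.1 this
      linarith
    funext i
    exact (Finset.sum_eq_zero_iff_of_nonneg (fun i _ => h1 i)).1 (hWsum y) i (Finset.mem_univ i)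
  have hNle : ∀ y i, -W y i ≤ ‖N y‖ := fun y i =>
    (le_max_left _ _).trans ((le_abs_self _).trans (norm_le_pi_norm (N y) i))
  refine ⟨fun y i => b + b * (W y i / ‖N y‖), ?_, ?_, ?_⟩
  · refine continuous_pi fun i => ?_
    exact continuous_const.add (continuous_const.mul
      ((hWc i).div hNc.norm fun y => (hNpos y).ne'))
  · intro y
    refine ⟨⟨fun i => ?_, ?_⟩, ?_⟩
    · have h1 : -1 ≤ W y i / ‖N y‖ := by
        rw [le_div_iff₀ (hNpos y)]
        have := hNle y i
        linarith
      nlinarith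
    · have h1 : ∑ i, b * (W y i / ‖N y‖) = 0 := by
        rw [← Finset.mul_sum, ← Finset.sum_div, hWsum]
        simp
      rw [Finset.sum_add_distrib, h1]
      simp only [Finset.sum_const, Finset.card_univ, Fintype.card_fin, nsmul_eq_mul,
        add_zero, Nat.cast_add, Nat.cast_one]
      linarith
    · obtain ⟨i, hi⟩ := hNmax y
      refine ⟨i, ?_⟩
      have hpos := hNpos y
      have h2 : N y i = -W y i := by
        show max (-W y i) 0 = -W y i
        apply max_eq_left
        by_contra hc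
        push Not at hc
        have : N y i = 0 := max_eq_right hc.le
        rw [hi, this] at hpos
        exact lt_irrefl _ hpos
      have h3 : W y i = -‖N y‖ := by rw [hi, h2]; ring
      show b + b * (W y i / ‖N y‖) = 0
      rw [h3, neg_div, div_self hpos.ne']
      ring
  · intro y hy
    have hWg : ∀ i, W y i = g y i - b := by
      intro i
      induction i using Fin.cases with
      | zero =>
        show -∑ i, w y i = g y 0 - b
        rw [hwB y hy]
        simp only [Finset.sum_sub_distrib, Finset.sum_const, Finset.card_univ, Fintype.card_fin,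
          nsmul_eq_mul]
        have := hsumg y hy
        linarith
      | succ i =>
        show w y i = g y i.succ - b
        rw [hwB y hy]
    have hM : ‖N y‖ = b := by
      refine le_antisymm ?_ ?_
      · refine (pi_norm_le_iff_of_nonneg hbpos.le).2 fun k => ?_
        show ‖max (-W y k) 0‖ ≤ b
        rw [Real.norm_eq_abs, abs_of_nonneg (le_max_right _ _)]
        refine max_le ?_ hbpos.le
        rw [hWg]
        have := (hgs y hy).1.1 k
        linarith
      · obtain ⟨i, hi⟩ := (hgs y hy).2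
        have := hNle y i
        rw [hWg, hi] at this
        linarith
    funext i
    show b + b * (W y i / ‖N y‖) = g y i
    rw [hM, hWg]
    field_simp
    ring

/-- The same for an arbitrary finite index type. -/
theorem tb_bdry' {j : ℕ} {Y : Type*} [TopologicalSpace Y] [NormalSpace Y] (h : NZ j Y)
    {G : Type*} [Fintype G] (hG : Fintype.card G = j + 1)
    {B : Set Y} (hB : IsClosed B) (g : Y → G → ℝ) (hg : ContinuousOn g B)
    (hgs : ∀ y ∈ B, g y ∈ stdSimplex ℝ G ∧ ∃ i, g y i = 0) :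
    ∃ g' : Y → G → ℝ, Continuous g' ∧
      (∀ y, g' y ∈ stdSimplex ℝ G ∧ ∃ i, g' y i = 0) ∧ ∀ y ∈ B, g' y = g y := by
  let e : G ≃ Fin (j + 1) := Fintype.equivFinOfCardEq hG
  obtain ⟨g', hc, hs, hB'⟩ := tb_bdry h hB (fun y i => g y (e.symm i))
    (continuousOn_pi.2 fun i => (continuousOn_pi.1 hg) (e.symm i))
    (by
      intro y hy
      refine ⟨⟨fun i => (hgs y hy).1.1 _, ?_⟩, ?_⟩
      · rw [← (hgs y hy).1.2]
        exact Equiv.sum_comp e.symm (g y)
      · obtain ⟨i, hi⟩ := (hgs y hy).2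
        exact ⟨e i, by simpa using hi⟩)
  refine ⟨fun y i => g' y (e i), ?_, ?_, ?_⟩
  · exact continuous_pi fun i => (continuous_apply (e i)).comp hc
  · intro y
    refine ⟨⟨fun i => (hs y).1.1 _, ?_⟩, ?_⟩
    · rw [← (hs y).1.2]
      exact Equiv.sum_comp e (g' y)
    · obtain ⟨i, hi⟩ := (hs y).2
      exact ⟨e.symm i, by simpa using hi⟩
  · intro y hy
    funext i
    have := congrFun (hB' y hy) (e i)
    simpa using this

/-- Push a map into the `j`-skeleton (at most `j+1` nonzero coordinates) down to the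
`(j-1)`-skeleton. -/
theorem tb_push {j : ℕ} {Y : Type*} [TopologicalSpace Y] [NormalSpace Y] (h : NZ j Y)
    {F : Type*} [Fintype F] (g : Y → F → ℝ) (hg : Continuous g)
    (hgs : ∀ y, g y ∈ stdSimplex ℝ F) (hgc : ∀ y, {i | g y i ≠ 0}.ncard ≤ j + 1) :
    ∃ g' : Y → F → ℝ, Continuous g' ∧ (∀ y, g' y ∈ stdSimplex ℝ F) ∧
      (∀ y, {i | g' y i ≠ 0}.ncard ≤ j) ∧
      ∀ y, {i | g y i ≠ 0}.ncard ≤ j → g' y = g y := by
  classical
  let supp : Y → Finset F := fun y => Finset.univ.filter fun i => g y i ≠ 0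
  have hsupp : ∀ y i, i ∈ supp y ↔ g y i ≠ 0 := by intro y i; simp [supp]
  have hcard : ∀ y, {i | g y i ≠ 0}.ncard = (supp y).card := by
    intro y
    rw [← Set.ncard_coe_finset]
    congr 1
    ext i
    simp [supp]
  -- the new maps on the faces
  have hface : ∀ G : Finset F, G.card = j + 1 → ∃ n : Y → F → ℝ, Continuous n ∧
      (∀ y, n y ∈ stdSimplex ℝ F) ∧ (∀ y, {i | n y i ≠ 0}.ncard ≤ j) ∧
      ∀ y, (∀ i ∉ G, g y i = 0) → (∃ i ∈ G, g y i = 0) → n y = g y := by
    intro G hG
    have hB : IsClosed {y | (∀ i ∉ G, g y i = 0) ∧ ∃ i ∈ G, g y i = 0} := by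
      have h1 : {y | (∀ i ∉ G, g y i = 0) ∧ ∃ i ∈ G, g y i = 0} =
          (⋂ i ∈ (↑G : Set F)ᶜ, {y | g y i = 0}) ∩ ⋃ i ∈ G, {y | g y i = 0} := by
        ext y; simp
      rw [h1]
      have h2 : ∀ i, IsClosed {y | g y i = 0} := fun i =>
        isClosed_eq ((continuous_apply i).comp hg) continuous_const
      exact (isClosed_biInter fun i _ => h2 i).inter
        (isClosed_biUnion_finset fun i _ => h2 i)
    obtain ⟨n, hn, hns, hnB⟩ := tb_bdry' h (G := G) (by simpa using hG) hB
      (fun y i => g y i)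
      (continuousOn_pi.2 fun i => ((continuous_apply (i : F)).comp hg).continuousOn)
      (by
        rintro y ⟨hy1, i, hi, hyi⟩
        refine ⟨⟨fun i => (hgs y).1 _, ?_⟩, ⟨⟨i, hi⟩, hyi⟩⟩
        have h3 : ∑ i : G, g y i = ∑ i ∈ G, g y i := Finset.sum_coe_sort G (g y)
        rw [h3, ← (hgs y).2]
        exact Finset.sum_subset (Finset.subset_univ G) fun i _ hi => hy1 i hi)
    refine ⟨fun y i => if hi : i ∈ G then n y ⟨i, hi⟩ else 0, ?_, ?_, ?_, ?_⟩
    · refine continuous_pi fun i => ?_
      by_cases hi : i ∈ G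
      · simp only [hi, dif_pos]
        exact (continuous_apply (⟨i, hi⟩ : G)).comp hn
      · simp only [hi, dif_neg, not_false_eq_true]
        exact continuous_const
    · intro y
      refine ⟨fun i => ?_, ?_⟩
      · dsimp only
        split_ifs with hi
        · exact (hns y).1.1 _
        · exact le_refl _
      · have h3 : ∑ i, (if hi : i ∈ G then n y ⟨i, hi⟩ else 0) = ∑ i : G, n y i := by
          have h4 : ∑ i, (if hi : i ∈ G then n y ⟨i, hi⟩ else 0) =
              ∑ i ∈ G, (if hi : i ∈ G then n y ⟨i, hi⟩ else 0) := by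
            refine (Finset.sum_subset (Finset.subset_univ G) fun i _ hi => ?_).symm
            rw [dif_neg hi]
          rw [h4, ← Finset.sum_coe_sort G fun i => (if hi : i ∈ G then n y ⟨i, hi⟩ else 0)]
          refine Finset.sum_congr rfl fun i _ => ?_
          rw [dif_pos i.2]
        rw [h3]
        exact (hns y).1.2
    · intro y
      obtain ⟨i, hi⟩ := (hns y).2
      have h4 : {k | (if hk : k ∈ G then n y ⟨k, hk⟩ else 0) ≠ 0} ⊆ ((G.erase i : Finset F) : Set F) := by
        intro k hk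
        simp only [ne_eq, mem_ofPred_eq] at hk
        by_cases hkG : k ∈ G
        · simp only [hkG, dif_pos] at hk
          simp only [Finset.coe_erase, Set.mem_sdiff, Finset.mem_coe, hkG, mem_singleton_iff, true_and]
          rintro rfl
          exact hk hi
        · simp [hkG] at hk
      calc _ ≤ ((G.erase i : Finset F) : Set F).ncard := Set.ncard_le_ncard h4 (Finset.finite_toSet _)
        _ = (G.erase i).card := Set.ncard_coe_finset _
        _ = j := by rw [Finset.card_erase_of_mem i.2, hG]; rfl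
    · intro y hy1 hy2
      funext i
      have h5 := hnB y ⟨hy1, hy2⟩
      by_cases hi : i ∈ G
      · simp only [hi, dif_pos]
        exact congrFun h5 ⟨i, hi⟩
      · simp only [hi, dif_neg, not_false_eq_true]
        exact (hy1 i hi).symm
  choose! n hnc hns hnj hnB using hface
  -- gluing
  let g' : Y → F → ℝ := fun y => if (supp y).card = j + 1 then n (supp y) y else g y
  have hsc : ∀ y, (supp y).card ≤ j + 1 := fun y => by rw [← hcard]; exact hgc y
  let C : Option {G : Finset F // G.card = j + 1} → Set Y := fun o =>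
    o.elim {y | (supp y).card ≤ j} fun G => {y | supp y ⊆ G}
  have hcov : ⋃ o, C o = univ := by
    rw [eq_univ_iff_forall]
    intro y
    rw [mem_iUnion]
    by_cases hy : (supp y).card = j + 1
    · exact ⟨some ⟨supp y, hy⟩, Finset.Subset.refl _⟩
    · exact ⟨none, Nat.lt_succ_iff.1 (lt_of_le_of_ne (hsc y) hy)⟩
  have hcl : ∀ o, IsClosed (C o) := by
    intro o
    cases o with
    | none =>
      have h1 : (C none)ᶜ = ⋃ G ∈ (Finset.univ.filter fun G : Finset F => G.card = j + 1),
          ⋂ i ∈ G, {y | g y i ≠ 0} := by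
        ext y
        simp only [C, Option.elim_none, mem_compl_iff, mem_ofPred_eq, not_le, Finset.mem_filter,
          Finset.mem_univ, true_and, mem_iUnion, mem_iInter, exists_prop]
        constructor
        · intro hy
          exact ⟨supp y, le_antisymm (hsc y) hy, fun i hi => (hsupp y i).1 hi⟩
        · rintro ⟨G, hG, hGy⟩
          have : G ⊆ supp y := fun i hi => (hsupp y i).2 (hGy i hi)
          have := Finset.card_le_card this
          omega
      rw [← isOpen_compl_iff, h1]
      refine isOpen_biUnion fun G _ => isOpen_biInter_finset fun i _ => ?_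
      exact isOpen_ne_fun ((continuous_apply i).comp hg) continuous_const
    | some G =>
      have h1 : C (some G) = ⋂ i ∈ (↑(G : Finset F) : Set F)ᶜ, {y | g y i = 0} := by
        ext y
        simp only [C, Option.elim_some, mem_ofPred_eq, mem_compl_iff, Finset.mem_coe, mem_iInter]
        constructor
        · intro hy i hi
          by_contra hc
          exact hi (hy ((hsupp y i).2 hc))
        · intro hy i hi
          by_contra hc
          exact (hsupp y i).1 hi (hy i hc)
      rw [h1]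
      exact isClosed_biInter fun i _ => isClosed_eq ((continuous_apply i).comp hg) continuous_const
  have hg'n : ∀ (G : Finset F), G.card = j + 1 → ∀ y, supp y ⊆ G → g' y = n G y := by
    intro G hG y hy
    by_cases hy2 : (supp y).card = j + 1
    · have : supp y = G := Finset.eq_of_subset_of_card_le hy (by omega)
      simp only [g', this, hG, if_true]
    · simp only [g', hy2, if_false]
      refine (hnB G hG y ?_ ?_).symm
      · intro i hi
        by_contra hc
        exact hi (hy ((hsupp y i).2 hc))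
      · by_contra hc
        push Not at hc
        have : G ⊆ supp y := fun i hi => (hsupp y i).2 (hc i hi)
        have := Finset.card_le_card this
        have := hsc y
        omega
  have hcont : ∀ o, ContinuousOn g' (C o) := by
    intro o
    cases o with
    | none =>
      refine hg.continuousOn.congr ?_
      intro y hy
      have hy' : (supp y).card ≤ j := hy
      have : ¬ (supp y).card = j + 1 := by omega
      simp only [g', this, if_false]
    | some G =>
      exact (hnc G G.2).continuousOn.congr fun y hy => hg'n G G.2 y hy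
  refine ⟨g', (locallyFinite_of_finite C).continuous hcov hcl hcont, ?_, ?_, ?_⟩
  · intro y
    by_cases hy : (supp y).card = j + 1
    · simp only [g', hy, if_true]
      exact hns _ hy y
    · simp only [g', hy, if_false]
      exact hgs y
  · intro y
    by_cases hy : (supp y).card = j + 1
    · simp only [g', hy, if_true]
      exact hnj _ hy y
    · simp only [g', hy, if_false]
      have := hsc y
      rw [hcard]
      omega
  · intro y hy
    rw [hcard] at hy
    have : ¬ (supp y).card = j + 1 := by omega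
    simp only [g', this, if_false]

/-- Extension into the `(m-1)`-skeleton of a simplex. -/
theorem tb_ext {m : ℕ} {Y : Type*} [TopologicalSpace Y] [NormalSpace Y] (h : ∀ j ≥ m, NZ j Y)
    {F : Type*} [Fintype F] [Nonempty F] {A : Set Y} (hA : IsClosed A) (g : Y → F → ℝ)
    (hg : ContinuousOn g A) (hgs : ∀ a ∈ A, g a ∈ stdSimplex ℝ F)
    (hgm : ∀ a ∈ A, {i | g a i ≠ 0}.ncard ≤ m) :
    ∃ g' : Y → F → ℝ, Continuous g' ∧ (∀ y, g' y ∈ stdSimplex ℝ F) ∧
      (∀ y, {i | g' y i ≠ 0}.ncard ≤ m) ∧ ∀ a ∈ A, g' a = g a := by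
  -- Tietze into the simplex
  have h0 : ∃ g' : Y → F → ℝ, Continuous g' ∧ (∀ y, g' y ∈ stdSimplex ℝ F) ∧
      ∀ a ∈ A, g' a = g a := by
    obtain ⟨E, hE⟩ := ContinuousMap.exists_restrict_eq hA
      (⟨A.domRestrict g, hg.domRestrict⟩ : C(A, F → ℝ))
    have hEA : ∀ a ∈ A, E a = g a := by
      intro a ha
      exact congrArg (fun G : C(A, F → ℝ) => G ⟨a, ha⟩) hE
    have hNpos : (0:ℝ) < Fintype.card F := by exact_mod_cast Fintype.card_pos
    let p : Y → F → ℝ := fun y i => max (E y i) 0
    let s : Y → ℝ := fun y => ∑ i, p y i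
    have hpc : ∀ i, Continuous fun y => p y i := fun i =>
      ((continuous_apply i).comp E.continuous).max continuous_const
    have hsc : Continuous s := continuous_finsetSum _ fun i _ => hpc i
    have hp0 : ∀ y i, 0 ≤ p y i := fun y i => le_max_right _ _
    have hmpos : ∀ y, 0 < max (s y) 1 := fun y => lt_of_lt_of_le one_pos (le_max_right _ _)
    refine ⟨fun y i => (p y i + max 0 (1 - s y) / Fintype.card F) / max (s y) 1, ?_, ?_, ?_⟩
    · refine continuous_pi fun i => ?_
      refine Continuous.div ?_ (hsc.max continuous_const) fun y => (hmpos y).ne'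
      exact (hpc i).add ((continuous_const.max (continuous_const.sub hsc)).div_const _)
    · intro y
      refine ⟨fun i => ?_, ?_⟩
      · refine div_nonneg ?_ (hmpos y).le
        have := hp0 y i
        have : 0 ≤ max 0 (1 - s y) := le_max_left _ _
        positivity
      · rw [← Finset.sum_div, Finset.sum_add_distrib, Finset.sum_const, Finset.card_univ,
          nsmul_eq_mul, mul_div_cancel₀ _ hNpos.ne']
        rw [div_eq_one_iff_eq (hmpos y).ne']
        show s y + max 0 (1 - s y) = max (s y) 1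
        rcases le_total (s y) 1 with h1 | h1
        · rw [max_eq_right (by linarith), max_eq_right h1]; ring
        · rw [max_eq_left (by linarith), max_eq_left h1]; ring
    · intro a ha
      have h1 : ∀ i, p a i = g a i := fun i => by
        show max (E a i) 0 = g a i
        rw [hEA a ha]
        exact max_eq_left ((hgs a ha).1 i)
      have h2 : s a = 1 := by
        show ∑ i, p a i = 1
        simp only [h1]
        exact (hgs a ha).2
      funext i
      simp [h1, h2]
  -- descending induction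
  have h1 : ∀ d : ℕ, d + m ≤ max m (Fintype.card F) → ∃ g' : Y → F → ℝ, Continuous g' ∧
      (∀ y, g' y ∈ stdSimplex ℝ F) ∧
      (∀ y, {i | g' y i ≠ 0}.ncard ≤ max m (Fintype.card F) - d) ∧ ∀ a ∈ A, g' a = g a := by
    intro d
    induction d with
    | zero =>
      intro _
      obtain ⟨g', h1, h2, h3⟩ := h0
      refine ⟨g', h1, h2, fun y => ?_, h3⟩
      refine (Set.ncard_le_card _).trans ?_
      rw [Nat.card_eq_fintype_card]
      omega
    | succ d ih =>
      intro hd
      obtain ⟨g', h1, h2, h3, h4⟩ := ih (by omega)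
      obtain ⟨g'', h5, h6, h7, h8⟩ := tb_push (j := max m (Fintype.card F) - (d + 1))
        (h _ (by omega)) g' h1 h2 (fun y => (h3 y).trans (by omega))
      refine ⟨g'', h5, h6, h7, fun a ha => ?_⟩
      rw [h8 a, h4 a ha]
      rw [h4 a ha]
      exact (hgm a ha).trans (by omega)
  obtain ⟨g', h2, h3, h4, h5⟩ := h1 (max m (Fintype.card F) - m) (by omega)
  exact ⟨g', h2, h3, fun y => (h4 y).trans (by omega), h5⟩

/-- Reduction of a partition of unity to order at most `m`. -/
theorem tb_main {m : ℕ} {Y : Type*} [TopologicalSpace Y] [NormalSpace Y] (h : ∀ j ≥ m, NZ j Y)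
    {ι : Type*} (φ : ι → Y → ℝ) (hφ : ∀ i, Continuous (φ i))
    (hlf : LocallyFinite fun i => Function.support (φ i)) (hφ0 : ∀ i y, 0 ≤ φ i y)
    (hφ1 : ∀ y, ∑ᶠ i, φ i y = 1) :
    ∃ g : Y → ι → ℝ, Continuous g ∧ (∀ i y, 0 ≤ g y i) ∧ (∀ i y, g y i ≠ 0 → φ i y ≠ 0) ∧
      (∀ y, ∑ᶠ i, g y i = 1) ∧ ∀ y, {i | g y i ≠ 0}.ncard ≤ m := by
  classical
  let S : Y → Finset ι := fun y => (hlf.point_finite y).toFinset
  have hS : ∀ y i, i ∈ S y ↔ φ i y ≠ 0 := by
    intro y i
    simp [S]
  have hSne : ∀ y, (S y).Nonempty := by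
    intro y
    by_contra hc
    rw [Finset.not_nonempty_iff_eq_empty] at hc
    have h0 : ∀ i, φ i y = 0 := by
      intro i
      by_contra hi
      have := (hS y i).2 hi
      rw [hc] at this
      exact absurd this (Finset.notMem_empty i)
    have := hφ1 y
    simp [h0] at this
  let Yk : ℕ → Set Y := fun k => {y | (S y).card ≤ k}
  have hYk : ∀ k, IsClosed (Yk k) := by
    intro k
    rw [← isOpen_compl_iff, isOpen_iff_mem_nhds]
    intro y hy
    have h1 : (⋂ i ∈ S y, {z | φ i z ≠ 0}) ∈ 𝓝 y := by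
      refine (Filter.biInter_finset_mem (S y)).2 fun i hi => ?_
      exact (isOpen_ne_fun (hφ i) continuous_const).mem_nhds ((hS y i).1 hi)
    refine mem_of_superset h1 ?_
    intro z hz
    have h2 : S y ⊆ S z := by
      intro i hi
      rw [hS]
      exact mem_iInter₂.1 hz i hi
    have h3 := Finset.card_le_card h2
    have h4 : ¬ (S y).card ≤ k := hy
    show ¬ (S z).card ≤ k
    omega
  have hSF : ∀ F : Finset ι, IsClosed {y | S y ⊆ F} := by
    intro F
    have h1 : {y | S y ⊆ F} = ⋂ i ∈ (↑F : Set ι)ᶜ, {y | φ i y = 0} := by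
      ext y
      simp only [mem_ofPred_eq, mem_compl_iff, Finset.mem_coe, mem_iInter]
      constructor
      · intro hy i hi
        by_contra hc
        exact hi (hy ((hS y i).2 hc))
      · intro hy i hi
        by_contra hc
        exact (hS y i).1 hi (hy i hc)
    rw [h1]
    exact isClosed_biInter fun i _ => isClosed_eq (hφ i) continuous_const
  -- sets of constant support
  have hlfS : LocallyFinite fun F : Finset ι => {y | S y = F} := by
    intro y
    obtain ⟨t, ht, hI⟩ := hlf y
    refine ⟨t, ht, ?_⟩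
    refine (Finset.finite_toSet hI.toFinset.powerset).subset ?_
    rintro F ⟨z, hz, hzt⟩
    have hz' : S z = F := hz
    rw [Finset.mem_coe, Finset.mem_powerset]
    intro i hi
    rw [← hz', hS] at hi
    rw [Set.Finite.mem_toFinset]
    exact ⟨z, hi, hzt⟩
  let P : ℕ → (Y → ι → ℝ) → Prop := fun k G => ContinuousOn G (Yk k) ∧ ∀ y ∈ Yk k,
    (∀ i, 0 ≤ G y i) ∧ (∀ i, G y i ≠ 0 → i ∈ S y) ∧ ∑ i ∈ S y, G y i = 1 ∧
      {i | G y i ≠ 0}.ncard ≤ m
  have hstep : ∀ k G, P k G → ∃ G', P (k + 1) G' ∧ ∀ y ∈ Yk k, G' y = G y := by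
    rintro k G ⟨hGc, hG⟩
    have hface : ∀ F : Finset ι, F.card = k + 1 → ∃ n : Y → ι → ℝ, Continuous n ∧
        (∀ y i, 0 ≤ n y i) ∧ (∀ y i, n y i ≠ 0 → i ∈ F) ∧ (∀ y, ∑ i ∈ F, n y i = 1) ∧
        (∀ y, {i | n y i ≠ 0}.ncard ≤ m) ∧ ∀ y, S y ⊆ F → y ∈ Yk k → n y = G y := by
      intro F hF
      have hFne : Nonempty F := by
        have : F.Nonempty := by
          rw [← Finset.card_pos]; omega
        exact this.to_subtype
      obtain ⟨n, hn, hns, hnm, hnA⟩ := tb_ext h (F := F)
        (A := {y | S y ⊆ F} ∩ Yk k) ((hSF F).inter (hYk k)) (fun y i => G y i)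
        (continuousOn_pi.2 fun i =>
          ((continuous_apply (i : ι)).comp_continuousOn hGc).mono inter_subset_right)
        (by
          rintro y ⟨hy1, hy2⟩
          obtain ⟨h1, h2, h3, h4⟩ := hG y hy2
          refine ⟨fun i => h1 i, ?_⟩
          rw [Finset.sum_coe_sort F (G y), ← h3]
          refine (Finset.sum_subset hy1 fun i _ hi => ?_).symm
          by_contra hc
          exact hi (h2 i hc))
        (by
          rintro y ⟨hy1, hy2⟩
          obtain ⟨h1, h2, h3, h4⟩ := hG y hy2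
          refine le_trans ?_ h4
          have h5 : ((↑) : F → ι) '' {i : F | G y i ≠ 0} ⊆ {i | G y i ≠ 0} := by
            rintro _ ⟨i, hi, rfl⟩
            exact hi
          rw [← Set.ncard_image_of_injective _ Subtype.val_injective]
          refine Set.ncard_le_ncard h5 ?_
          exact (Finset.finite_toSet (S y)).subset fun i hi => h2 i hi)
      refine ⟨fun y i => if hi : i ∈ F then n y ⟨i, hi⟩ else 0, ?_, ?_, ?_, ?_, ?_, ?_⟩
      · refine continuous_pi fun i => ?_
        by_cases hi : i ∈ F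
        · simp only [hi, dif_pos]
          exact (continuous_apply (⟨i, hi⟩ : F)).comp hn
        · simp only [hi, dif_neg, not_false_eq_true]
          exact continuous_const
      · intro y i
        dsimp only
        split_ifs with hi
        · exact (hns y).1 _
        · exact le_refl _
      · intro y i hi
        by_contra hc
        simp [hc] at hi
      · intro y
        rw [← Finset.sum_coe_sort F fun i => (if hi : i ∈ F then n y ⟨i, hi⟩ else 0)]
        rw [← (hns y).2]
        refine Finset.sum_congr rfl fun i _ => ?_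
        rw [dif_pos i.2]
      · intro y
        refine le_trans ?_ (hnm y)
        have h5 : {i | (if hi : i ∈ F then n y ⟨i, hi⟩ else 0) ≠ 0} ⊆
            ((↑) : F → ι) '' {i : F | n y i ≠ 0} := by
          intro i hi
          by_cases hiF : i ∈ F
          · refine ⟨⟨i, hiF⟩, ?_, rfl⟩
            simpa [hiF] using hi
          · simp [hiF] at hi
        rw [← Set.ncard_image_of_injective _ Subtype.val_injective]
        exact Set.ncard_le_ncard h5 (Set.toFinite _)
      · intro y hy1 hy2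
        have h5 := hnA y ⟨hy1, hy2⟩
        obtain ⟨h1, h2, h3, h4⟩ := hG y hy2
        funext i
        by_cases hi : i ∈ F
        · simp only [hi, dif_pos]
          exact congrFun h5 ⟨i, hi⟩
        · simp only [hi, dif_neg, not_false_eq_true]
          by_contra hc
          exact hi (hy1 (h2 i (Ne.symm hc)))
    choose! n hnc hn0 hnF hn1 hnm hnG using hface
    let G' : Y → ι → ℝ := fun y => if (S y).card ≤ k then G y else n (S y) y
    have hG'n : ∀ F : Finset ι, F.card = k + 1 → ∀ y, S y ⊆ F → G' y = n F y := by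
      intro F hF y hy
      by_cases hk : (S y).card ≤ k
      · simp only [G', hk, if_true]
        exact (hnG F hF y hy hk).symm
      · have : S y = F := Finset.eq_of_subset_of_card_le hy (by omega)
        have hk' : ¬ F.card ≤ k := by omega
        simp only [G', this, hk', if_false]
    let C : Option {F : Finset ι // F.card = k + 1} → Set Y := fun o =>
      o.elim (Yk k) fun F => closure {y | S y = F}
    have hClf : LocallyFinite C := by
      rw [locallyFinite_option]
      have h1 : LocallyFinite fun F : {F : Finset ι // F.card = k + 1} => {y | S y = F} :=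
        hlfS.comp_injective Subtype.val_injective
      exact h1.closure
    have hCcl : ∀ o, IsClosed (C o) := by
      intro o
      cases o with
      | none => exact hYk k
      | some F => exact isClosed_closure
    have hcont : ∀ o, ContinuousOn G' (C o) := by
      intro o
      cases o with
      | none =>
        refine hGc.congr fun y hy => ?_
        have hy' : (S y).card ≤ k := hy
        simp only [G', hy', if_true]
      | some F =>
        refine (hnc F F.2).continuousOn.congr fun y hy => hG'n F F.2 y ?_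
        have h1 : closure {y | S y = F} ⊆ {y | S y ⊆ F} :=
          closure_minimal (fun z hz => by
            have : S z = F := hz
            show S z ⊆ F
            rw [this]) (hSF F)
        exact h1 hy
    refine ⟨G', ⟨?_, ?_⟩, ?_⟩
    · refine (hClf.continuousOn_iUnion hCcl hcont).mono ?_
      intro y hy
      have hy' : (S y).card ≤ k + 1 := hy
      rw [mem_iUnion]
      by_cases hk : (S y).card ≤ k
      · exact ⟨none, hk⟩
      · exact ⟨some ⟨S y, by omega⟩, subset_closure rfl⟩
    · intro y hy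
      have hy' : (S y).card ≤ k + 1 := hy
      by_cases hk : (S y).card ≤ k
      · simp only [G', hk, if_true]
        exact hG y hk
      · have hF : (S y).card = k + 1 := by omega
        simp only [G', hk, if_false]
        exact ⟨hn0 _ hF y, hnF _ hF y, hn1 _ hF y, hnm _ hF y⟩
    · intro y hy
      have hy' : (S y).card ≤ k := hy
      simp only [G', hy', if_true]
  -- the sequence
  choose! nx hnx1 hnx2 using hstep
  let G : ℕ → Y → ι → ℝ := fun k => Nat.rec (fun _ _ => 0) (fun k g => nx k g) k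
  have hGP : ∀ k, P k (G k) := by
    intro k
    induction k with
    | zero =>
      have h0 : ∀ y, y ∉ Yk 0 := by
        intro y hy
        have hy' : (S y).card ≤ 0 := hy
        have := Finset.card_pos.2 (hSne y)
        omega
      exact ⟨fun y hy => absurd hy (h0 y), fun y hy => absurd hy (h0 y)⟩
    | succ k ih => exact hnx1 k _ ih
  have hGs : ∀ k, ∀ y ∈ Yk k, G (k + 1) y = G k y := fun k y hy => hnx2 k _ (hGP k) y hy
  have hGm : ∀ d k, ∀ y ∈ Yk k, G (k + d) y = G k y := by
    intro d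
    induction d with
    | zero => intro k y _; rfl
    | succ d ih =>
      intro k y hy
      rw [← add_assoc, hGs (k + d) y, ih k y hy]
      have hy' : (S y).card ≤ k := hy
      show (S y).card ≤ k + d
      omega
  let g : Y → ι → ℝ := fun y => G (S y).card y
  have hgG : ∀ k, ∀ y ∈ Yk k, g y = G k y := by
    intro k y hy
    have hy' : (S y).card ≤ k := hy
    have := hGm (k - (S y).card) (S y).card y (le_refl (S y).card)
    rw [Nat.add_sub_cancel' hy'] at this
    exact this.symm
  have hgP : ∀ y, (∀ i, 0 ≤ g y i) ∧ (∀ i, g y i ≠ 0 → i ∈ S y) ∧ ∑ i ∈ S y, g y i = 1 ∧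
      {i | g y i ≠ 0}.ncard ≤ m := fun y => (hGP (S y).card).2 y (le_refl (S y).card)
  refine ⟨g, ?_, fun i y => (hgP y).1 i, fun i y hi => (hS y i).1 ((hgP y).2.1 i hi), ?_,
    fun y => (hgP y).2.2.2⟩
  · rw [continuous_iff_continuousAt]
    intro y
    obtain ⟨t, ht, hI⟩ := hlf y
    have htY : t ⊆ Yk hI.toFinset.card := by
      intro z hz
      refine Finset.card_le_card ?_
      intro i hi
      rw [hS] at hi
      rw [Set.Finite.mem_toFinset]
      exact ⟨z, hi, hz⟩
    have h1 : ContinuousOn g t :=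
      ((hGP hI.toFinset.card).1.mono htY).congr fun z hz => hgG _ z (htY hz)
    exact h1.continuousAt ht
  · intro y
    rw [← (hgP y).2.2.1]
    refine finsum_eq_sum_of_support_subset _ ?_
    intro i hi
    exact (hgP y).2.1 i hi

theorem exists_partition_of_NZ {Y : Type*} [MetricSpace Y] {m : ℕ} (h : ∀ j ≥ m, NZ j Y)
    {ι : Type*} (U : ι → Set Y) (hU : ∀ i, IsOpen (U i)) (hcov : ⋃ i, U i = univ) :
    ∃ g : ι → Y → ℝ, (∀ i, Continuous (g i)) ∧
      LocallyFinite (fun i => Function.support (g i)) ∧ (∀ i y, 0 ≤ g i y) ∧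
      (∀ y, ∑ᶠ i, g i y = 1) ∧ (∀ i y, g i y ≠ 0 → y ∈ U i) ∧
      ∀ y, {i | g i y ≠ 0}.Finite ∧ {i | g i y ≠ 0}.ncard ≤ m := by
  obtain ⟨f, hf⟩ := PartitionOfUnity.exists_isSubordinate isClosed_univ U hU hcov.ge
  obtain ⟨g, hg, hg0, hgf, hg1, hgm⟩ := tb_main h (fun i y => f i y) (fun i => (f i).continuous)
    f.locallyFinite (fun i y => f.nonneg i y) (fun y => f.sum_eq_one (mem_univ y))
  refine ⟨fun i y => g y i, fun i => (continuous_apply i).comp hg, ?_, hg0, hg1, ?_, ?_⟩
  · exact f.locallyFinite.subset fun i y hy => hgf i y hy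
  · intro i y hi
    exact hf i (subset_tsupport _ (hgf i y hi))
  · intro y
    refine ⟨?_, hgm y⟩
    exact (f.locallyFinite.point_finite y).subset fun i hi => hgf i y hi

theorem topDimLE_of_NZ {Y : Type*} [MetricSpace Y] {n : ℕ} (h : ∀ j ≥ n + 1, NZ j Y) :
    TopDimLE Y n := by
  classical
  intro 𝒰 hfin ho hcov
  have : Finite 𝒰 := hfin.to_subtype
  obtain ⟨g, hg, _, hg0, hg1, hgU, hgm⟩ := exists_partition_of_NZ h
    (fun U : 𝒰 => (U : Set Y)) (fun U => ho U U.2) (by rw [← hcov, sUnion_eq_iUnion])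
  refine ⟨range fun U : 𝒰 => {y | g U y ≠ 0}, finite_range _, ?_, ?_, ?_, ?_⟩
  · rintro _ ⟨U, rfl⟩
    exact isOpen_ne_fun (hg U) continuous_const
  · rw [eq_univ_iff_forall]
    intro y
    by_contra hc
    have h0 : ∀ U, g U y = 0 := by
      intro U
      by_contra hU
      exact hc ⟨_, ⟨U, rfl⟩, hU⟩
    have := hg1 y
    simp [h0] at this
  · rintro _ ⟨U, rfl⟩
    exact ⟨U, U.2, fun y hy => hgU U y hy⟩
  · rintro s hs ⟨x, hx⟩
    obtain ⟨U₀, hU₀, -⟩ : ∃ U ∈ 𝒰, x ∈ U := by
      have : x ∈ ⋃₀ 𝒰 := by rw [hcov]; trivial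
      exact this
    have : Nonempty 𝒰 := ⟨⟨U₀, hU₀⟩⟩
    choose! u hu using fun V hV => mem_range.1 (hs V hV)
    have h1 : (u '' (s : Set (Set Y))).ncard = s.card := by
      rw [Set.ncard_image_of_injOn, Set.ncard_coe_finset]
      intro V hV W hW hVW
      rw [← hu V hV, ← hu W hW, hVW]
    rw [← h1]
    refine le_trans (Set.ncard_le_ncard ?_ (hgm x).1) (hgm x).2
    rintro _ ⟨V, hV, rfl⟩
    have h2 := hx V hV
    rw [← hu V hV] at h2
    exact h2

end MP629748

end part2

section part3

/-!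
# Covering dimension at most `k` implies the extension property `NZ (k+1)`
-/

open Set Filter Topology
open scoped NNReal

namespace MP629748

/-- Small perturbations of finitely many points of `ℝ^m` such that any at most `m` of them
are linearly independent. -/
theorem exists_generalPosition {m : ℕ} {ι : Type*} [Finite ι] (c : ι → (Fin m → ℝ)) {ε : ℝ}
    (hε : 0 < ε) :
    ∃ w : ι → (Fin m → ℝ), (∀ i, ‖w i - c i‖ < ε) ∧
      ∀ S : Finset ι, S.card ≤ m → LinearIndependent ℝ (fun i : S => w i) := by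
  classical
  cases nonempty_fintype ι
  let t : ι → ℝ := fun i => ((Fintype.equivFin ι i : Fin _) : ℕ)
  have ht : Function.Injective t := by
    intro i j hij
    have : ((Fintype.equivFin ι i : Fin _) : ℕ) = (Fintype.equivFin ι j : Fin _) := by
      have h : (((Fintype.equivFin ι i : Fin _) : ℕ) : ℝ) = ((Fintype.equivFin ι j : Fin _) : ℕ) :=
        hij
      exact_mod_cast h
    exact (Fintype.equivFin ι).injective (Fin.ext this)
  let u : ι → (Fin m → ℝ) := fun i j => t i ^ (j : ℕ)
  let A : ∀ S : Finset ι, Matrix (Fin S.card) (Fin S.card) ℝ :=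
    fun S => Matrix.vandermonde (fun i => t (S.equivFin.symm i))
  let B : ∀ S : Finset ι, Matrix (Fin S.card) (Fin S.card) ℝ :=
    fun S => Matrix.of fun i j => if h : (j : ℕ) < m then c (S.equivFin.symm i) ⟨j, h⟩ else 0
  let P : Finset ι → Polynomial ℝ := fun S =>
    Matrix.det ((Polynomial.X : Polynomial ℝ) • (A S).map Polynomial.C + (B S).map Polynomial.C)
  have hP : ∀ S, P S ≠ 0 := fun S h => by
    have h1 := Polynomial.coeff_det_X_add_C_card (A S) (B S)
    have h2 : (A S).det ≠ 0 := by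
      rw [Matrix.det_vandermonde_ne_zero_iff]
      intro i j hij
      exact S.equivFin.symm.injective (Subtype.ext (ht hij))
    apply h2
    rw [← h1]
    change (P S).coeff _ = 0
    rw [h, Polynomial.coeff_zero]
  have hPe : ∀ S (δ : ℝ), (P S).eval δ = (δ • A S + B S).det := by
    intro S δ
    change (Polynomial.evalRingHom δ) (Matrix.det _) = _
    rw [RingHom.map_det]
    congr 1
    ext i j
    simp only [RingHom.mapMatrix_apply, Matrix.map_apply, Matrix.add_apply, Matrix.smul_apply,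
      smul_eq_mul, Polynomial.coe_evalRingHom, Polynomial.eval_add, Polynomial.eval_mul,
      Polynomial.eval_X, Polynomial.eval_C]
  obtain ⟨K, hK⟩ : ∃ K : ℝ, 0 < K ∧ ∀ i, ‖u i‖ ≤ K := by
    refine ⟨(∑ i, ‖u i‖) + 1, add_pos_of_nonneg_of_pos (Finset.sum_nonneg fun i _ =>
      norm_nonneg _) one_pos, fun i => ?_⟩
    exact (Finset.single_le_sum (f := fun i => ‖u i‖) (fun i _ => norm_nonneg _)
      (Finset.mem_univ i)).trans (le_add_of_nonneg_right zero_le_one)
  have hδ0 : 0 < ε / K := div_pos hε hK.1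
  have hprod : ∏ S : Finset ι, P S ≠ 0 := Finset.prod_ne_zero_iff.mpr fun S _ => hP S
  obtain ⟨δ, hδ, hδr⟩ := (Set.Ioo_infinite hδ0).exists_notMem_finset
    (∏ S : Finset ι, P S).roots.toFinset
  have hδP : ∀ S, (P S).eval δ ≠ 0 := by
    intro S h
    apply hδr
    rw [Multiset.mem_toFinset, Polynomial.mem_roots hprod, Polynomial.IsRoot.def,
      Polynomial.eval_prod]
    exact Finset.prod_eq_zero (Finset.mem_univ S) h
  refine ⟨fun i => δ • u i + c i, fun i => ?_, fun S hS => ?_⟩
  · rw [add_sub_cancel_right, norm_smul, Real.norm_of_nonneg hδ.1.le]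
    calc δ * ‖u i‖ ≤ δ * K := by gcongr; exacts [hδ.1.le, hK.2 i]
      _ < ε / K * K := by gcongr; exacts [hK.1, hδ.2]
      _ = ε := div_mul_cancel₀ _ hK.1.ne'
  · have h1 : (δ • A S + B S).det ≠ 0 := by rw [← hPe]; exact hδP S
    have h2 : LinearIndependent ℝ (δ • A S + B S).row :=
      Matrix.linearIndependent_rows_of_det_ne_zero h1
    let T : (Fin m → ℝ) →ₗ[ℝ] (Fin S.card → ℝ) := LinearMap.funLeft ℝ ℝ (Fin.castLE hS)
    have h3 : LinearIndependent ℝ (T ∘ fun i : S => δ • u i + c i) := by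
      have h4 := h2.comp S.equivFin S.equivFin.injective
      convert h4 using 1
      funext i j
      have hj : (j : ℕ) < m := j.2.trans_le hS
      change δ * t i ^ (j : ℕ) + c i ⟨j, _⟩ = δ * (t (S.equivFin.symm (S.equivFin i))) ^ (j : ℕ) +
        (if h : (j : ℕ) < m then c (S.equivFin.symm (S.equivFin i)) ⟨j, h⟩ else 0)
      rw [dif_pos hj, Equiv.symm_apply_apply]
    exact h3.of_comp


theorem abs_clamp_sub_le {x M : ℝ} (hx : |x| ≤ M) (hM : 2 ≤ M) :
    |max (-2) (min 2 x) - x| ≤ M - 2 := by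
  rw [abs_le] at hx ⊢
  rcases le_total 2 x with h | h
  · rw [min_eq_left h, max_eq_right (by norm_num)]
    constructor <;> linarith [hx.1, hx.2]
  · rw [min_eq_right h]
    rcases le_total (-2) x with h' | h'
    · rw [max_eq_right h', sub_self]
      constructor <;> linarith
    · rw [max_eq_left h']
      constructor <;> linarith [hx.1, hx.2]

theorem abs_clamp_le (x : ℝ) : |max (-2) (min 2 x)| ≤ 2 := by
  rw [abs_le]
  exact ⟨le_max_left _ _, max_le (by norm_num) (min_le_left _ _)⟩

/-- Approximation of bounded maps by nowhere vanishing ones. -/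
theorem exists_nonvanishing_near_of_topDimLE {Y : Type*} [MetricSpace Y] {k : ℕ}
    (h : TopDimLE Y k) (f : Y → (Fin (k + 1) → ℝ)) (hf : Continuous f) (hb : ∀ y, ‖f y‖ ≤ 2) :
    ∃ g : Y → (Fin (k + 1) → ℝ), Continuous g ∧ (∀ y, g y ≠ 0) ∧ ∀ y, ‖g y - f y‖ < 1 := by
  classical
  -- a finite cover of the ball by small balls
  obtain ⟨t, -, htfin, htcov⟩ := (isCompact_closedBall (0 : Fin (k + 1) → ℝ) 2).finite_cover_balls
    (e := 1 / 4) (by norm_num)
  obtain ⟨V, hVfin, hVo, hVcov, hVref, hVord⟩ := h ((fun c => f ⁻¹' Metric.ball c (1 / 4)) '' t)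
    (htfin.image _) (by
      rintro _ ⟨c, _, rfl⟩
      exact Metric.isOpen_ball.preimage hf) (by
      rw [eq_univ_iff_forall]
      intro y
      have hy : f y ∈ Metric.closedBall (0 : Fin (k + 1) → ℝ) 2 := by
        rw [mem_closedBall_zero_iff]; exact hb y
      obtain ⟨c, hc, hyc⟩ := mem_iUnion₂.mp (htcov hy)
      exact ⟨_, ⟨c, hc, rfl⟩, hyc⟩)
  have hch : ∀ W : V, ∃ c : Fin (k + 1) → ℝ, ∀ y ∈ W.1, ‖c - f y‖ < 1 / 4 := by
    intro W
    obtain ⟨_, ⟨c, _, rfl⟩, hWU⟩ := hVref W.1 W.2
    refine ⟨c, fun y hy => ?_⟩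
    have := hWU hy
    rw [mem_preimage, Metric.mem_ball, dist_comm, dist_eq_norm] at this
    exact this
  choose c hc using hch
  have : Finite V := hVfin
  cases nonempty_fintype V
  obtain ⟨w, hw, hwli⟩ := exists_generalPosition c (ε := 1 / 4) (by norm_num)
  obtain ⟨ρ, hρ⟩ := PartitionOfUnity.exists_isSubordinate (s := (univ : Set Y)) isClosed_univ
    (fun W : V => W.1) (fun W => hVo W.1 W.2) (by
      intro y _
      have : y ∈ ⋃₀ V := by rw [hVcov]; trivial
      obtain ⟨W, hW, hy⟩ := this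
      exact mem_iUnion.mpr ⟨⟨W, hW⟩, hy⟩)
  have hsupp : ∀ W y, ρ W y ≠ 0 → y ∈ W.1 := fun W y hy => hρ W (subset_tsupport _ hy)
  have hsum : ∀ y, ∑ W, ρ W y = 1 := by
    intro y
    rw [← finsum_eq_sum_of_fintype]
    exact ρ.sum_eq_one (mem_univ y)
  refine ⟨fun y => ∑ W, ρ W y • w W, ?_, fun y hy0 => ?_, fun y => ?_⟩
  · exact continuous_finsetSum _ fun W _ => (ρ W).continuous.smul continuous_const
  · -- nonvanishing
    let S : Finset V := Finset.univ.filter fun W => ρ W y ≠ 0
    have hScard : S.card ≤ k + 1 := by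
      have h1 := hVord (S.map ⟨Subtype.val, Subtype.val_injective⟩) (by
        intro W hW
        obtain ⟨W', _, rfl⟩ := Finset.mem_map.mp hW
        exact W'.2) ⟨y, by
        intro W hW
        obtain ⟨W', hW', rfl⟩ := Finset.mem_map.mp hW
        exact hsupp W' y (Finset.mem_filter.mp hW').2⟩
      rwa [Finset.card_map] at h1
    have h2 := hwli S hScard
    rw [Fintype.linearIndependent_iff] at h2
    have h3 : ∑ W : S, ρ W.1 y • w W.1 = 0 := by
      rw [Finset.sum_coe_sort S (fun W => ρ W y • w W), ← hy0]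
      refine Finset.sum_filter_of_ne ?_
      intro W _ hne h0
      exact hne (by rw [h0, zero_smul])
    have h4 := h2 (fun W => ρ W.1 y) h3
    have h5 : ∀ W, ρ W y = 0 := by
      intro W
      by_contra hne
      exact hne (h4 ⟨W, Finset.mem_filter.mpr ⟨Finset.mem_univ _, hne⟩⟩)
    have h6 := hsum y
    simp only [h5, Finset.sum_const_zero] at h6
    exact zero_ne_one h6
  · have h1 : ∑ W, ρ W y • w W - f y = ∑ W, ρ W y • (w W - f y) := by
      simp only [smul_sub, Finset.sum_sub_distrib]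
      rw [← Finset.sum_smul, hsum, one_smul]
    rw [h1]
    calc ‖∑ W, ρ W y • (w W - f y)‖ ≤ ∑ W, ‖ρ W y • (w W - f y)‖ := norm_sum_le _ _
      _ ≤ ∑ W, ρ W y * (1 / 2) := by
          refine Finset.sum_le_sum fun W _ => ?_
          rw [norm_smul, Real.norm_of_nonneg (ρ.nonneg W y)]
          by_cases h0 : ρ W y = 0
          · rw [h0, zero_mul, zero_mul]
          · refine mul_le_mul_of_nonneg_left ?_ (ρ.nonneg W y)
            have e1 := hw W
            have e2 := hc W y (hsupp W y h0)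
            have e3 : w W - f y = (w W - c W) + (c W - f y) := by abel
            rw [e3]
            exact (norm_add_le _ _).trans (by linarith)
      _ = 1 / 2 := by rw [← Finset.sum_mul, hsum, one_mul]
      _ < 1 := by norm_num

theorem NZ_of_topDimLE {Y : Type*} [MetricSpace Y] {k : ℕ} (h : TopDimLE Y k) :
    NZ (k + 1) Y := by
  refine NZ.of_approx fun f A hf _ hA => ?_
  obtain ⟨g, hg, hg0, hgf⟩ := exists_nonvanishing_near_of_topDimLE h
    (fun y i => max (-2) (min 2 (f y i)))
    (continuous_pi fun i => continuous_const.max (continuous_const.min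
      ((continuous_apply i).comp hf)))
    (fun y => (pi_norm_le_iff_of_nonneg (by norm_num)).mpr fun i => abs_clamp_le _)
  refine ⟨g, hg, hg0, fun a ha => ?_⟩
  have h1 : ‖(fun i => max (-2) (min 2 (f a i))) - f a‖ ≤ ‖f a‖ - 2 := by
    refine (pi_norm_le_iff_of_nonneg (by linarith [hA a ha])).mpr fun i => ?_
    exact abs_clamp_sub_le (norm_le_pi_norm (f a) i) (hA a ha)
  have e : g a - f a = (g a - fun i => max (-2) (min 2 (f a i))) +
    ((fun i => max (-2) (min 2 (f a i))) - f a) := by abel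
  rw [e]
  refine (norm_add_le _ _).trans_lt ?_
  linarith [hgf a]

end MP629748

end part3
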