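import Pool.Agent.Lib.MP_629748_gt.MCochain
import Pool.Agent.Lib.MP_629748_gt.MTopo
import Pool.Agent.Lib.MP_629748_gt.MHopf

/-!
Descent, the transfinite step and the main abstract theorem.
-/

section part0

/-!
P10 (Descent), part A: gluing of the simplex maps.
-/

open Set Filter Topology MeasureTheory Metric
open scoped NNReal

namespace MP629748

universe u

section Glue

variable {ι : Type u} [LinearOrder ι] {m : ℕ}

/-- The simplex spanned by a finite index set, as a set of weights. -/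
def wsimp (F : Finset ι) : Set (ι → ℝ) := {w | (∀ x ∈ F, 0 ≤ w x) ∧ ∑ x ∈ F, w x = 1}

theorem comp_mem_stdSimplex {F : Finset ι} {k : ℕ} (h : F.card = k) {w : ι → ℝ}
    (hw : w ∈ wsimp F) : (w ∘ F.orderEmbOfFin h) ∈ stdSimplex ℝ (Fin k) := by
  refine ⟨fun i => hw.1 _ (F.orderEmbOfFin_mem h i), ?_⟩
  have : ∑ i : Fin k, (w ∘ F.orderEmbOfFin h) i = ∑ x ∈ F, w x := by
    have hmap : Finset.univ.map (F.orderEmbOfFin h).toEmbedding = F := by
      ext x
      simp only [Finset.mem_map, Finset.mem_univ, true_and]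
      constructor
      · rintro ⟨i, rfl⟩; exact F.orderEmbOfFin_mem h i
      · intro hx
        have := F.range_orderEmbOfFin h
        have hx' : x ∈ Set.range (F.orderEmbOfFin h) := by rw [this]; exact hx
        obtain ⟨i, hi⟩ := hx'
        exact ⟨i, hi⟩
    conv_rhs => rw [← hmap]
    rw [Finset.sum_map]
    rfl
  rw [this]; exact hw.2

theorem sum_comp_orderEmb {E : Type*} [AddCommMonoid E] {F : Finset ι} {k : ℕ} (h : F.card = k)
    (v : ι → E) : ∑ i : Fin k, v (F.orderEmbOfFin h i) = ∑ x ∈ F, v x := by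
  have hmap : Finset.univ.map (F.orderEmbOfFin h).toEmbedding = F := by
    ext x
    simp only [Finset.mem_map, Finset.mem_univ, true_and]
    constructor
    · rintro ⟨i, rfl⟩; exact F.orderEmbOfFin_mem h i
    · intro hx
      have := F.range_orderEmbOfFin h
      have hx' : x ∈ Set.range (F.orderEmbOfFin h) := by rw [this]; exact hx
      obtain ⟨i, hi⟩ := hx'
      exact ⟨i, hi⟩
  conv_rhs => rw [← hmap]
  rw [Finset.sum_map]
  rfl

theorem lam_comp_orderEmb (l : ι → Fin (m + 1)) {F : Finset ι} {k : ℕ} (h : F.card = k)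
    (w : ι → ℝ) : lam (l ∘ F.orderEmbOfFin h) (w ∘ F.orderEmbOfFin h) =
      ∑ x ∈ F, w x • ev m (l x) := by
  unfold lam
  exact sum_comp_orderEmb h (fun x => w x • ev m (l x))

theorem orderEmb_erase {F : Finset ι} {k : ℕ} (h : F.card = k + 1) (i : Fin (k + 1))
    (h' : (F.erase (F.orderEmbOfFin h i)).card = k) :
    (F.orderEmbOfFin h) ∘ i.succAbove = (F.erase (F.orderEmbOfFin h i)).orderEmbOfFin h' := by
  refine Finset.orderEmbOfFin_unique h' (fun j => ?_) ?_
  · rw [Finset.mem_erase]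
    refine ⟨fun hj => ?_, F.orderEmbOfFin_mem h _⟩
    exact Fin.succAbove_ne i j ((F.orderEmbOfFin h).injective hj)
  · exact (F.orderEmbOfFin h).strictMono.comp (Fin.strictMono_succAbove i)

/-- The data of the gluing. -/
structure GlueData (m : ℕ) (ι : Type u) [LinearOrder ι] where
  l : ι → Fin (m + 1)
  W : (Fin m → Fin (m + 1)) → ℤ → (Fin m → ℝ) → (Fin m → ℝ)
  b : (Fin m → ι) → ℤ
  V : Finset ι → (Fin (m + 1) → ℝ) → (Fin m → ℝ)

/-- the simplex map -/
noncomputable def GlueData.map (D : GlueData m ι) (F : Finset ι) (w : ι → ℝ) : Fin m → ℝ :=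
  if h : F.card = m then
    D.W (D.l ∘ F.orderEmbOfFin h) (D.b (F.orderEmbOfFin h)) (w ∘ F.orderEmbOfFin h)
  else if h : F.card = m + 1 then D.V F (w ∘ F.orderEmbOfFin h)
  else ∑ x ∈ F, w x • ev m (D.l x)

/-- Properties of the data. `P` : small sets, `Q` : sets outside. -/
structure GlueData.Ok (D : GlueData m ι) (P Q : Finset ι → Prop) : Prop where
  hP : ∀ F F', F' ⊆ F → P F → P F'
  hQ : ∀ F F', F' ⊆ F → Q F → Q F'
  Wc : ∀ l w, ContinuousOn (D.W l w) (stdSimplex ℝ (Fin m))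
  Wn : ∀ l w, ∀ x ∈ stdSimplex ℝ (Fin m), D.W l w x ≠ 0
  Wb : ∀ l w, ∀ x ∈ stdSimplex ℝ (Fin m), (∃ i, x i = 0) → D.W l w x = lam l x
  W0 : ∀ l, ∀ x ∈ stdSimplex ℝ (Fin m), D.W l 0 x = lam l x
  b0 : ∀ (F : Finset ι) (h : F.card = m), P F → Q F → D.b (F.orderEmbOfFin h) = 0
  Vc : ∀ (F : Finset ι), F.card = m + 1 → P F → ContinuousOn (D.V F) (stdSimplex ℝ (Fin (m + 1)))
  Vn : ∀ (F : Finset ι), F.card = m + 1 → P F → ∀ x ∈ stdSimplex ℝ (Fin (m + 1)), D.V F x ≠ 0
  Vf : ∀ (F : Finset ι) (h : F.card = m + 1), P F → ∀ i : Fin (m + 1),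
    ∀ x ∈ stdSimplex ℝ (Fin m), D.V F (i.insertNth 0 x) =
      D.W (D.l ∘ (F.orderEmbOfFin h) ∘ i.succAbove) (D.b ((F.orderEmbOfFin h) ∘ i.succAbove)) x
  VQ : ∀ (F : Finset ι) (h : F.card = m + 1), P F → Q F → ∀ x ∈ stdSimplex ℝ (Fin (m + 1)),
    D.V F x = lam (D.l ∘ F.orderEmbOfFin h) x

variable {D : GlueData m ι} {P Q : Finset ι → Prop}

theorem exists_insertNth_of_zero {k : ℕ} (i : Fin (k + 1)) (x : Fin (k + 1) → ℝ) (hi : x i = 0) :
    i.insertNth (0:ℝ) (x ∘ i.succAbove) = x := by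
  rw [Fin.insertNth_eq_iff]
  exact ⟨hi.symm, rfl⟩

theorem GlueData.Ok.map_erase (hD : D.Ok P Q) {F : Finset ι} (hc : F.card ≤ m + 1) (hPF : P F)
    {w : ι → ℝ} (hw : w ∈ wsimp F) {x₀ : ι} (hx : x₀ ∈ F) (h0 : w x₀ = 0) :
    D.map F w = D.map (F.erase x₀) w := by
  have hcard : (F.erase x₀).card = F.card - 1 := Finset.card_erase_of_mem hx
  have hpos : 0 < F.card := Finset.card_pos.2 ⟨x₀, hx⟩
  have hsum : ∑ x ∈ F, w x • ev m (D.l x) = ∑ x ∈ F.erase x₀, w x • ev m (D.l x) := by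
    rw [← Finset.add_sum_erase F (fun x => w x • ev m (D.l x)) hx]
    simp [h0]
  by_cases h1 : F.card = m
  · have h1' : (F.erase x₀).card ≠ m := by omega
    have h1'' : (F.erase x₀).card ≠ m + 1 := by omega
    simp only [GlueData.map, dif_pos h1, dif_neg h1', dif_neg h1'']
    rw [hD.Wb _ _ _ (comp_mem_stdSimplex h1 hw), lam_comp_orderEmb, hsum]
    have hx' : x₀ ∈ Set.range (F.orderEmbOfFin h1) := by rw [F.range_orderEmbOfFin h1]; exact hx
    obtain ⟨i, hi⟩ := hx'
    exact ⟨i, by simp [hi, h0]⟩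
  · by_cases h2 : F.card = m + 1
    · have hx' : x₀ ∈ Set.range (F.orderEmbOfFin h2) := by rw [F.range_orderEmbOfFin h2]; exact hx
      obtain ⟨i, hi⟩ := hx'
      subst hi
      have h3 : (F.erase (F.orderEmbOfFin h2 i)).card = m := by omega
      simp only [GlueData.map, dif_neg h1, dif_pos h2, dif_pos h3]
      have hs := comp_mem_stdSimplex h2 hw
      have hwe : w ∈ wsimp (F.erase (F.orderEmbOfFin h2 i)) := by
        refine ⟨fun x hx => hw.1 x (Finset.mem_of_mem_erase hx), ?_⟩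
        rw [← hw.2, ← Finset.add_sum_erase F w hx, h0, zero_add]
      have hs' := comp_mem_stdSimplex h3 hwe
      have e1 : w ∘ F.orderEmbOfFin h2 =
          i.insertNth (0:ℝ) (w ∘ (F.erase (F.orderEmbOfFin h2 i)).orderEmbOfFin h3) := by
        rw [← orderEmb_erase h2 i h3]
        exact (exists_insertNth_of_zero i (w ∘ F.orderEmbOfFin h2) h0).symm
      rw [e1, hD.Vf F h2 hPF i _ hs', orderEmb_erase h2 i h3]
    · have h4 : (F.erase x₀).card ≠ m := by omega
      have h5 : (F.erase x₀).card ≠ m + 1 := by omega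
      simp only [GlueData.map, dif_neg h1, dif_neg h2, dif_neg h4, dif_neg h5]
      exact hsum

theorem wsimp_of_subset {F F' : Finset ι} (hF : F' ⊆ F) {w : ι → ℝ} (hw : w ∈ wsimp F)
    (h0 : ∀ x ∈ F, x ∉ F' → w x = 0) : w ∈ wsimp F' := by
  refine ⟨fun x hx => hw.1 x (hF hx), ?_⟩
  rw [← hw.2]
  exact Finset.sum_subset hF (fun x hx hx' => h0 x hx hx')

theorem GlueData.Ok.map_subset (hD : D.Ok P Q) {F F' : Finset ι} (hF : F' ⊆ F)
    (hc : F.card ≤ m + 1) (hPF : P F) {w : ι → ℝ} (hw : w ∈ wsimp F)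
    (h0 : ∀ x ∈ F, x ∉ F' → w x = 0) : D.map F w = D.map F' w := by
  induction hn : (F \ F').card generalizing F with
  | zero =>
    have : F \ F' = ∅ := Finset.card_eq_zero.1 hn
    have h1 : F ⊆ F' := Finset.sdiff_eq_empty_iff_subset.1 this
    rw [Finset.Subset.antisymm h1 hF]
  | succ n ih =>
    have hne : (F \ F').Nonempty := by
      rw [← Finset.card_pos]; omega
    obtain ⟨x₀, hx₀⟩ := hne
    rw [Finset.mem_sdiff] at hx₀
    have hz := h0 x₀ hx₀.1 hx₀.2
    rw [hD.map_erase hc hPF hw hx₀.1 hz]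
    have hsub : F' ⊆ F.erase x₀ := fun x hx => Finset.mem_erase.2
      ⟨fun e => hx₀.2 (e ▸ hx), hF hx⟩
    refine ih hsub ?_ (hD.hP _ _ (Finset.erase_subset _ _) hPF) ?_ ?_ ?_
    · exact (Finset.card_erase_le).trans hc
    · refine wsimp_of_subset (Finset.erase_subset _ _) hw ?_
      intro x hx hx'
      have : x = x₀ := by
        by_contra hne
        exact hx' (Finset.mem_erase.2 ⟨hne, hx⟩)
      rw [this]; exact hz
    · intro x hx hx'
      exact h0 x (Finset.mem_of_mem_erase hx) hx'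
    · have : F.erase x₀ \ F' = (F \ F').erase x₀ := by
        ext x; simp only [Finset.mem_sdiff, Finset.mem_erase]; tauto
      rw [this, Finset.card_erase_of_mem (Finset.mem_sdiff.2 hx₀), hn]
      rfl

theorem GlueData.Ok.map_Q (hD : D.Ok P Q) {F : Finset ι} (hc : F.card ≤ m + 1) (hPF : P F)
    (hQF : Q F) {w : ι → ℝ} (hw : w ∈ wsimp F) : D.map F w = ∑ x ∈ F, w x • ev m (D.l x) := by
  by_cases h1 : F.card = m
  · simp only [GlueData.map, dif_pos h1]
    rw [hD.b0 F h1 hPF hQF, hD.W0 _ _ (comp_mem_stdSimplex h1 hw), lam_comp_orderEmb]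
  · by_cases h2 : F.card = m + 1
    · simp only [GlueData.map, dif_neg h1, dif_pos h2]
      rw [hD.VQ F h2 hPF hQF _ (comp_mem_stdSimplex h2 hw), lam_comp_orderEmb]
    · simp only [GlueData.map, dif_neg h1, dif_neg h2]

theorem continuous_comp_orderEmb {F : Finset ι} {k : ℕ} (h : F.card = k) :
    Continuous (fun w : ι → ℝ => w ∘ F.orderEmbOfFin h) := by
  refine continuous_pi fun i => ?_
  exact continuous_apply _

theorem GlueData.Ok.map_continuousOn (hD : D.Ok P Q) {F : Finset ι} (hPF : P F) :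
    ContinuousOn (D.map F) (wsimp F) := by
  by_cases h1 : F.card = m
  · have : D.map F = fun w => D.W (D.l ∘ F.orderEmbOfFin h1) (D.b (F.orderEmbOfFin h1))
        (w ∘ F.orderEmbOfFin h1) := by
      funext w; simp only [GlueData.map, dif_pos h1]
    rw [this]
    exact (hD.Wc _ _).comp (continuous_comp_orderEmb h1).continuousOn
      (fun w hw => comp_mem_stdSimplex h1 hw)
  · by_cases h2 : F.card = m + 1
    · have : D.map F = fun w => D.V F (w ∘ F.orderEmbOfFin h2) := by
        funext w; simp only [GlueData.map, dif_neg h1, dif_pos h2]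
      rw [this]
      exact (hD.Vc F h2 hPF).comp (continuous_comp_orderEmb h2).continuousOn
        (fun w hw => comp_mem_stdSimplex h2 hw)
    · have : D.map F = fun w => ∑ x ∈ F, w x • ev m (D.l x) := by
        funext w; simp only [GlueData.map, dif_neg h1, dif_neg h2]
      rw [this]
      refine Continuous.continuousOn ?_
      refine continuous_finsetSum _ fun x _ => ?_
      exact (continuous_apply x).smul continuous_const

theorem exists_not_mem_image {k : ℕ} (l : Fin k → Fin (m + 1)) (hk : k ≤ m) :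
    ∃ i₀ : Fin (m + 1), ∀ i, l i ≠ i₀ := by
  by_contra hcon
  push Not at hcon
  have hsurj : Function.Surjective l := fun i => hcon i
  have := Fintype.card_le_of_surjective l hsurj
  simp at this
  omega

theorem lam_ne_zero {k : ℕ} (l : Fin k → Fin (m + 1)) (i₀ : Fin (m + 1)) (h : ∀ i, l i ≠ i₀)
    {x : Fin k → ℝ} (hx : x ∈ stdSimplex ℝ (Fin k)) : lam l x ≠ 0 := by
  intro h0
  have := phi_lam_of_forall_ne i₀ l h hx
  rw [h0, phi_zero] at this
  exact zero_ne_one this

theorem GlueData.Ok.map_ne_zero (hD : D.Ok P Q) {F : Finset ι} (hc : F.card ≤ m + 1) (hPF : P F)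
    {w : ι → ℝ} (hw : w ∈ wsimp F) : D.map F w ≠ 0 := by
  by_cases h1 : F.card = m
  · simp only [GlueData.map, dif_pos h1]
    exact hD.Wn _ _ _ (comp_mem_stdSimplex h1 hw)
  · by_cases h2 : F.card = m + 1
    · simp only [GlueData.map, dif_neg h1, dif_pos h2]
      exact hD.Vn F h2 hPF _ (comp_mem_stdSimplex h2 hw)
    · simp only [GlueData.map, dif_neg h1, dif_neg h2]
      rw [← lam_comp_orderEmb D.l (rfl : F.card = F.card) w]
      obtain ⟨i₀, hi₀⟩ := exists_not_mem_image (m := m) (D.l ∘ F.orderEmbOfFin rfl)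
        (by omega : F.card ≤ m)
      exact lam_ne_zero _ i₀ hi₀ (comp_mem_stdSimplex rfl hw)

/-- The glued map. -/
theorem GlueData.Ok.exists_map (hD : D.Ok P Q) {Y : Type u} [TopologicalSpace Y] (g : ι → Y → ℝ)
    (hg : ∀ i, Continuous (g i)) (hlf : LocallyFinite (fun i => Function.support (g i)))
    (hg0 : ∀ i y, 0 ≤ g i y) (hg1 : ∀ y, ∑ᶠ i, g i y = 1)
    (S : Y → Finset ι) (hS : ∀ y i, i ∈ S y ↔ g i y ≠ 0) (hSc : ∀ y, (S y).card ≤ m + 1)
    (hSP : ∀ y, P (S y)) :
    ∃ h : Y → (Fin m → ℝ), Continuous h ∧ (∀ y, h y ≠ 0) ∧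
      ∀ y, Q (S y) → h y = ∑ x ∈ S y, g x y • ev m (D.l x) := by
  have hsum : ∀ y, ∑ x ∈ S y, g x y = 1 := by
    intro y
    rw [← hg1 y, finsum_eq_sum_of_support_subset]
    intro i hi
    simp only [Finset.mem_coe]
    exact (hS y i).2 hi
  have hws : ∀ y, (fun i => g i y) ∈ wsimp (S y) := fun y => ⟨fun x _ => hg0 x y, hsum y⟩
  refine ⟨fun y => D.map (S y) (fun i => g i y), ?_, ?_, ?_⟩
  · -- continuity
    let 𝒟 : Finset ι → Set Y := fun F => closure {y | S y = F}
    have hD1 : LocallyFinite 𝒟 := by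
      refine LocallyFinite.closure ?_
      intro y
      obtain ⟨N, hN, hfin⟩ := hlf y
      refine ⟨N, hN, ?_⟩
      let T : Finset ι := hfin.toFinset
      refine (Finset.finite_toSet T.powerset).subset ?_
      rintro F ⟨z, hz, hzN⟩
      simp only [Finset.coe_powerset, mem_preimage, mem_powerset_iff]
      intro x hx
      have hz' : S z = F := hz
      have : x ∈ S z := by rw [hz']; exact hx
      simp only [T, Set.Finite.coe_toFinset, mem_ofPred_eq]
      exact ⟨z, (hS z x).1 this, hzN⟩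
    have hD2 : ⋃ F, 𝒟 F = univ := by
      refine eq_univ_of_forall fun y => ?_
      exact mem_iUnion.2 ⟨S y, subset_closure rfl⟩
    have hD3 : ∀ F, ∀ y ∈ 𝒟 F, ∀ x, x ∉ F → g x y = 0 := by
      intro F y hy x hx
      have hcl : IsClosed {y | g x y = 0} := isClosed_eq (hg x) continuous_const
      refine hcl.closure_subset_iff.2 ?_ hy
      intro z hz
      have hz' : S z = F := hz
      by_contra hne
      exact hx (hz' ▸ (hS z x).2 hne)
    refine hD1.continuous hD2 (fun F => isClosed_closure) ?_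
    intro F
    by_cases hne : ∃ y, S y = F
    · obtain ⟨y₀, hy₀⟩ := hne
      have hFc : F.card ≤ m + 1 := hy₀ ▸ hSc y₀
      have hFP : P F := hy₀ ▸ hSP y₀
      have hmem : ∀ y ∈ 𝒟 F, (fun i => g i y) ∈ wsimp F := by
        intro y hy
        refine ⟨fun x _ => hg0 x y, ?_⟩
        rw [← hg1 y, finsum_eq_sum_of_support_subset]
        intro i hi
        by_contra hni
        exact hi (hD3 F y hy i hni)
      have heq : ∀ y ∈ 𝒟 F, D.map (S y) (fun i => g i y) = D.map F (fun i => g i y) := by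
        intro y hy
        have hsub : S y ⊆ F := by
          intro x hx
          by_contra hni
          exact (hS y x).1 hx (hD3 F y hy x hni)
        refine (hD.map_subset hsub hFc hFP (hmem y hy) ?_).symm
        intro x _ hx'
        by_contra hne
        exact hx' ((hS y x).2 hne)
      refine ContinuousOn.congr ?_ heq
      refine (hD.map_continuousOn hFP).comp ?_ hmem
      exact (continuous_pi fun i => hg i).continuousOn
    · have : 𝒟 F = ∅ := by
        have : {y | S y = F} = ∅ := by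
          ext y; simp only [mem_ofPred_eq, mem_empty_iff_false, iff_false]
          exact fun h => hne ⟨y, h⟩
        simp only [𝒟, this, closure_empty]
      rw [this]
      exact continuousOn_empty _
  · intro y
    exact hD.map_ne_zero (hSc y) (hSP y) (hws y)
  · intro y hy
    exact hD.map_Q (hSc y) (hSP y) hy (hws y)

end Glue

end MP629748

end part0

section part1

/-!
P10 (Descent).
-/

open Set Filter Topology MeasureTheory Metric
open scoped NNReal

namespace MP629748

universe u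

section rank0

theorem bary_vertex {X : Type u} [MetricSpace X] [CompleteSpace X] {c : ℝ} (hc : 0 < c)
    (U : UC X c) {k : ℕ} (x : Fin (k + 1) → X) (i : Fin (k + 1)) :
    bary x (Pi.single i 1) = x i := by
  have hl : (Pi.single i 1 : Fin (k + 1) → ℝ) ∈ stdSimplex ℝ (Fin (k + 1)) := by
    refine ⟨fun j => ?_, by simp⟩
    by_cases h : j = i
    · subst h; simp
    · simp [h]
  have h := bary_min U hc x _ hl (x i)
  have h1 : ∑ j, (Pi.single i 1 : Fin (k + 1) → ℝ) j * dist (x j) (x i) ^ 2 = 0 := by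
    refine Finset.sum_eq_zero fun j _ => ?_
    by_cases h : j = i
    · subst h; simp
    · simp [h]
  have h2 : 0 ≤ ∑ j, (Pi.single i 1 : Fin (k + 1) → ℝ) j *
      dist (x j) (bary x (Pi.single i 1)) ^ 2 :=
    Finset.sum_nonneg fun j _ => mul_nonneg (hl.1 j) (sq_nonneg _)
  rw [h1] at h
  have h3 : 0 ≤ dist (x i) (bary x (Pi.single i 1)) ^ 2 := sq_nonneg _
  have h4 : dist (x i) (bary x (Pi.single i 1)) ^ 2 = 0 := by nlinarith
  have h5 : dist (x i) (bary x (Pi.single i 1)) = 0 := by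
    exact pow_eq_zero_iff (two_ne_zero) |>.1 h4
  exact (dist_eq_zero.1 h5).symm

theorem subsingleton_of_rank_zero {X : Type u} [MetricSpace X] [CompleteSpace X] {c : ℝ}
    (hc : 0 < c) (U : UC X c) (hR : RankLE 0 X) (p q : X) : p = q := by
  obtain ⟨K, hK⟩ := cube_lipschitz U hc (k := 1) ![p, q]
  have h := hR 1 (cube ![p, q]) K hK
  set f : (Fin 1 → ℝ) → X := cube ![p, q] with hf
  have h' : ∀ᵐ s : Fin 1 → ℝ,
      Tendsto (fun w => dist (f (s + w)) (f s) / ‖w‖) (𝓝[({0} : Set (Fin 1 → ℝ))ᶜ] 0) (𝓝 0) := by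
    filter_upwards [h] with s hs
    obtain ⟨L, hL, ht⟩ := hs
    have hL0 : Module.finrank ℝ ((Fin 1 → ℝ) ⧸ L) = 0 := Nat.le_zero.1 hL
    have hsub : Subsingleton ((Fin 1 → ℝ) ⧸ L) := Module.finrank_zero_iff.1 hL0
    have hLt : L = ⊤ := Submodule.unique_quotient_iff_eq_top.1 ⟨Unique.mk' _⟩
    subst hLt
    have : ((⊤ : Submodule ℝ (Fin 1 → ℝ)) : Set (Fin 1 → ℝ)) \ {0} = {0}ᶜ := by
      ext x; simp
    rwa [this] at ht
  let e : ℝ → (Fin 1 → ℝ) := fun t _ => t
  have he : ∀ᵐ t : ℝ,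
      Tendsto (fun w => dist (f (e t + w)) (f (e t)) / ‖w‖) (𝓝[({0} : Set (Fin 1 → ℝ))ᶜ] 0)
        (𝓝 0) := by
    have hmp := (MeasureTheory.volume_preserving_funUnique (Fin 1) ℝ).symm
    have := hmp.quasiMeasurePreserving.ae h'
    filter_upwards [this] with t ht
    exact ht
  let u : ℝ → ℝ := fun t => dist (f (e t)) p
  have hu : LipschitzWith K u := by
    refine LipschitzWith.of_dist_le_mul fun s t => ?_
    have h1 : dist (u s) (u t) ≤ dist (f (e s)) (f (e t)) := by
      rw [Real.dist_eq]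
      exact abs_dist_sub_le _ _ _
    refine h1.trans ((hK.dist_le_mul _ _).trans ?_)
    refine mul_le_mul_of_nonneg_left ?_ K.2
    rw [dist_pi_le_iff dist_nonneg]
    intro _
    exact le_rfl
  have hderiv : ∀ᵐ t : ℝ, t ∈ uIcc (0:ℝ) 1 → HasDerivAt u 0 t := by
    filter_upwards [he] with t ht _
    rw [hasDerivAt_iff_tendsto_slope_zero]
    have hte : Tendsto e (𝓝[≠] 0) (𝓝[({0} : Set (Fin 1 → ℝ))ᶜ] 0) := by
      refine tendsto_nhdsWithin_iff.2 ⟨?_, ?_⟩
      · have : Continuous e := continuous_pi fun _ => continuous_id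
        have h0 : e 0 = 0 := rfl
        have := this.tendsto 0
        rw [h0] at this
        exact this.mono_left nhdsWithin_le_nhds
      · filter_upwards [self_mem_nhdsWithin] with s hs hs0
        exact hs (congrFun hs0 0)
    have hcomp := ht.comp hte
    refine squeeze_zero_norm (fun s => ?_) hcomp
    have hns : ‖e s‖ = |s| := by
      rw [pi_norm_const]
      exact Real.norm_eq_abs s
    have hadd : e t + e s = e (t + s) := rfl
    simp only [Function.comp, hns, hadd, smul_eq_mul, norm_mul, norm_inv, Real.norm_eq_abs]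
    rw [div_eq_inv_mul]
    refine mul_le_mul_of_nonneg_left ?_ (by positivity)
    exact abs_dist_sub_le _ _ _
  obtain ⟨C, hC⟩ := (hu.lipschitzOnWith (s := uIcc (0:ℝ) 1)).absolutelyContinuousOnInterval.const_of_ae_hasDerivAt_zero hderiv
  have h0 : f (e 0) = p := by
    have : duffy 1 (clamp (e 0)) = Pi.single 0 1 := by
      funext i
      fin_cases i <;> simp [duffy, clamp, e]
    simp only [hf, cube, this]
    exact bary_vertex hc U _ 0
  have h1 : f (e 1) = q := by
    have : duffy 1 (clamp (e 1)) = Pi.single 1 1 := by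
      funext i
      fin_cases i <;> simp [duffy, clamp, e]
    simp only [hf, cube, this]
    exact bary_vertex hc U _ 1
  have hu0 : u 0 = 0 := by simp only [u, h0, dist_self]
  have hu1 : u 1 = dist q p := by simp only [u, h1]
  have hC0 := hC 0 (by simp)
  have hC1 := hC 1 (by simp)
  rw [hu0] at hC0
  rw [hu1, ← hC0] at hC1
  exact (dist_eq_zero.1 hC1).symm

theorem NZ_of_subsingleton {Y : Type u} [TopologicalSpace Y] [Subsingleton Y] {m : ℕ}
    (hm : 1 ≤ m) : NZ m Y := by
  intro f A hf hA hfA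
  by_cases hY : Nonempty Y
  · obtain ⟨y₀⟩ := hY
    by_cases hyA : y₀ ∈ A
    · refine ⟨f, hf, fun y => ?_, fun a _ => rfl⟩
      rw [Subsingleton.elim y y₀]
      exact hfA y₀ hyA
    · refine ⟨fun _ => fun _ => 1, continuous_const, fun y h => ?_, fun a ha => ?_⟩
      · have := congrFun h ⟨0, hm⟩
        simp at this
      · exact absurd (Subsingleton.elim a y₀ ▸ ha) hyA
  · rw [not_nonempty_iff] at hY
    exact ⟨f, hf, fun y => (hY.false y).elim, fun a _ => rfl⟩

end rank0

section main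

variable {X : Type u} [MetricSpace X] {m : ℕ}

theorem lam_insertNth {k : ℕ} (l : Fin (k + 1) → Fin (m + 1)) (i : Fin (k + 1))
    (x : Fin k → ℝ) : lam l (i.insertNth (0:ℝ) x) = lam (l ∘ i.succAbove) x := by
  unfold lam
  rw [Fin.sum_univ_succAbove _ i]
  simp

theorem continuous_lam {k : ℕ} (l : Fin k → Fin (m + 1)) : Continuous (lam (m := m) l) := by
  unfold lam
  refine continuous_finsetSum _ fun i _ => ?_
  exact (continuous_apply i).smul continuous_const

theorem Good.exists_of_locallyLipschitz {f : X → Fin m → ℝ} (hf : LocallyLipschitz f)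
    {η : ℝ} (hη : 0 < η) (z : X) : ∃ r, Good f η z r := by
  obtain ⟨K, t, ht, hK⟩ := hf z
  obtain ⟨r₁, hr₁, hb₁⟩ := Metric.mem_nhds_iff.1 ht
  have hcont : ContinuousAt f z := hf.continuous.continuousAt
  obtain ⟨r₂, hr₂, hb₂⟩ := Metric.continuousAt_iff.1 hcont (η / 2) (by positivity)
  refine ⟨min r₁ r₂, lt_min hr₁ hr₂, ⟨K, hK.mono ?_⟩, ?_⟩
  · exact (ball_subset_ball (min_le_left _ _)).trans hb₁
  · intro x hx y hy
    have hx' : dist x z < r₂ := (mem_ball.1 hx).trans_le (min_le_right _ _)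
    have hy' : dist y z < r₂ := (mem_ball.1 hy).trans_le (min_le_right _ _)
    have h1 := hb₂ hx'
    have h2 := hb₂ hy'
    have h3 : dist (f x) (f y) ≤ dist (f x) (f z) + dist (f y) (f z) := dist_triangle_right _ _ _
    rw [← dist_eq_norm]
    linarith

/-- A family of points on a small set with large values misses a label. -/
theorem labels_miss {f : X → Fin m → ℝ} {η : ℝ} (hη : η ≤ 1 / (16 * (m + 1))) {z : X} {r : ℝ}
    (hg : Good f η z r) {y : X} (hy : dist y z < r) (hfy : 1 / 2 ≤ ‖f y‖) :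
    ∃ i₀ : Fin (m + 1), ∀ x, dist x z < r → lab m (f x) ≠ i₀ ∧ 1 / 8 ≤ phi m i₀ (f x) := by
  obtain ⟨i₀, hi₀⟩ := lab_spec hfy
  refine ⟨i₀, fun x hx => hi₀ _ ?_⟩
  exact (hg.2.2 x (mem_ball.2 hx) y (mem_ball.2 hy)).trans hη

/-- The gluing data from a family of points. -/
theorem exists_glueData [CompleteSpace X] {c : ℝ} (hc : 0 < c) (U : UC X c) {n : ℕ}
    (hm : n + 1 ≤ m) (hm2 : 2 ≤ m) (hR : RankLE n X) (f : X → Fin m → ℝ) {η : ℝ}
    (hη : η ≤ 1 / (16 * (m + 1))) {ι : Type u} [LinearOrder ι] (pt : ι → X) :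
    ∃ D : GlueData m ι, D.l = (fun x => lab m (f (pt x))) ∧
      D.Ok (fun F => ∃ z r, Good f η z r ∧ ∀ x ∈ F, dist (pt x) z < r / 8)
        (fun F => ∀ x ∈ F, 1 / 2 ≤ ‖f (pt x)‖) := by
  classical
  obtain ⟨b, hb1, hb2⟩ := cochain hc U hm hm2 hR f η hη
  obtain ⟨W, Wc, Wn, Wb, W0, Wf⟩ := hopf_fill m hm2
  let l : ι → Fin (m + 1) := fun x => lab m (f (pt x))
  let P : Finset ι → Prop := fun F => ∃ z r, Good f η z r ∧ ∀ x ∈ F, dist (pt x) z < r / 8
  let Q : Finset ι → Prop := fun F => ∀ x ∈ F, 1 / 2 ≤ ‖f (pt x)‖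
  have hsmall : ∀ (F : Finset ι) (k : ℕ) (h : F.card = k), P F →
      Small f η (pt ∘ F.orderEmbOfFin h) := by
    rintro F k h ⟨z, r, hg, hd⟩
    exact ⟨z, r, hg, fun i => hd _ (F.orderEmbOfFin_mem h i)⟩
  have hsmall' : ∀ (F : Finset ι) (k : ℕ) (h : F.card = k + 1) (i : Fin (k + 1)), P F →
      Small f η (pt ∘ F.orderEmbOfFin h ∘ i.succAbove) := by
    rintro F k h j ⟨z, r, hg, hd⟩
    exact ⟨z, r, hg, fun i => hd _ (F.orderEmbOfFin_mem h _)⟩
  have hfill : ∀ F : Finset ι, ∃ V : (Fin (m + 1) → ℝ) → (Fin m → ℝ),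
      ∀ h : F.card = m + 1, P F → ContinuousOn V (stdSimplex ℝ (Fin (m + 1))) ∧
        (∀ x ∈ stdSimplex ℝ (Fin (m + 1)), V x ≠ 0) ∧
        (∀ i : Fin (m + 1), ∀ x ∈ stdSimplex ℝ (Fin m), V (i.insertNth 0 x) =
          W (l ∘ (F.orderEmbOfFin h) ∘ i.succAbove) (b (pt ∘ (F.orderEmbOfFin h) ∘ i.succAbove))
            x) ∧
        (Q F → ∀ x ∈ stdSimplex ℝ (Fin (m + 1)), V x = lam (l ∘ F.orderEmbOfFin h) x) := by
    intro F
    by_cases hF : F.card = m + 1
    swap
    · exact ⟨fun _ => 0, fun h => absurd h hF⟩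
    by_cases hP : P F
    swap
    · exact ⟨fun _ => 0, fun _ h => absurd h hP⟩
    by_cases hQ : Q F
    · refine ⟨lam (l ∘ F.orderEmbOfFin hF), fun h _ => ⟨(continuous_lam _).continuousOn, ?_, ?_,
        fun _ x _ => rfl⟩⟩
      · obtain ⟨z, r, hg, hd⟩ := hP
        have hne : F.Nonempty := by rw [← Finset.card_pos]; omega
        obtain ⟨x₁, hx₁⟩ := hne
        have hr8 : r / 8 ≤ r := by linarith [hg.1]
        obtain ⟨i₀, hi₀⟩ := labels_miss hη hg ((hd x₁ hx₁).trans_le hr8) (hQ x₁ hx₁)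
        intro x hx
        refine lam_ne_zero _ i₀ (fun i => ?_) hx
        exact (hi₀ _ ((hd _ (F.orderEmbOfFin_mem hF i)).trans_le hr8)).1
      · intro i x hx
        rw [hb2 _ (hsmall' F m h i hP) (fun j => hQ _ (F.orderEmbOfFin_mem h _)), W0 _ x hx,
          lam_insertNth]
        rfl
    · have hsum := hb1 _ (hsmall F _ hF hP)
      obtain ⟨V, Vc, Vn, Vf⟩ := Wf (l ∘ F.orderEmbOfFin hF)
        (fun i => b (pt ∘ F.orderEmbOfFin hF ∘ i.succAbove)) hsum
      exact ⟨V, fun h _ => ⟨Vc, Vn, fun i x hx => Vf i x hx, fun h => absurd h hQ⟩⟩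
  choose V hV using hfill
  refine ⟨⟨l, W, fun t => b (pt ∘ t), V⟩, rfl, ?_⟩
  constructor
  · rintro F F' hF ⟨z, r, hg, hd⟩
    exact ⟨z, r, hg, fun x hx => hd x (hF hx)⟩
  · exact fun F F' hF hQ x hx => hQ x (hF hx)
  · exact Wc
  · exact Wn
  · exact Wb
  · exact W0
  · exact fun F h hP hQ => hb2 _ (hsmall F _ h hP) (fun i => hQ _ (F.orderEmbOfFin_mem h i))
  · exact fun F h hP => (hV F h hP).1
  · exact fun F h hP => (hV F h hP).2.1
  · exact fun F h hP => (hV F h hP).2.2.1
  · exact fun F h hP hQ => (hV F h hP).2.2.2 hQ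

theorem descent_two [CompleteSpace X] {c : ℝ} (hc : 0 < c)
    (U : UC X c) {n : ℕ} (hm : n + 1 ≤ m) (hm2 : 2 ≤ m) (hR : RankLE n X) (Y : Set X)
    (hY : IsClosed Y) (h : ∀ j ≥ m + 1, NZ j Y) : NZ m Y := by
  classical
  refine NZ.of_approx fun f A hf hA hfA => ?_
  set η : ℝ := 1 / (16 * (m + 1)) with hηdef
  have hη0 : 0 < η := by positivity
  have hη1 : η ≤ 1 / 16 := by
    rw [hηdef, div_le_div_iff₀ (by positivity) (by norm_num)]
    have : (0:ℝ) ≤ m := Nat.cast_nonneg m
    linarith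
  -- extend
  obtain ⟨F, hF⟩ := ContinuousMap.exists_restrict_eq hY (⟨f, hf⟩ : C(Y, Fin m → ℝ))
  have hFf : ∀ y : Y, F (y : X) = f y := fun y => by
    have := congrArg (fun g : C(Y, Fin m → ℝ) => g y) hF
    exact this
  obtain ⟨f', hf', hf'F⟩ := exists_locallyLipschitz_near (fun x => F x) F.continuous hη0
  have hf'f : ∀ y : Y, ‖f y - f' y‖ ≤ η := fun y => by
    rw [norm_sub_rev, ← hFf y]; exact hf'F y
  -- good radii
  choose R hRg using fun y : Y => Good.exists_of_locallyLipschitz hf' hη0 (y : X)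
  obtain ⟨g, gc, glf, g0, g1, gU, gfin⟩ := exists_partition_of_NZ h
    (fun x : Y => ball x (R x / 32)) (fun x => isOpen_ball)
    (by
      refine eq_univ_of_forall fun y => mem_iUnion.2 ⟨y, ?_⟩
      rw [mem_ball, dist_self]
      have := (hRg y).1
      positivity)
  let _ : LinearOrder Y := linearOrderOfSTO WellOrderingRel
  let S : Y → Finset Y := fun y => (gfin y).1.toFinset
  have hS : ∀ y i, i ∈ S y ↔ g i y ≠ 0 := fun y i => by
    simp only [S, Set.Finite.mem_toFinset, mem_ofPred_eq]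
  have hSc : ∀ y, (S y).card ≤ m + 1 := fun y => by
    have := (gfin y).2
    rwa [Set.ncard_eq_toFinset_card _ (gfin y).1] at this
  have hSne : ∀ y, (S y).Nonempty := fun y => by
    by_contra hne
    have h0 : ∀ i, g i y = 0 := fun i => by
      by_contra hi
      exact hne ⟨i, (hS y i).2 hi⟩
    have := g1 y
    simp [h0] at this
  have hgood : ∀ y, ∃ j ∈ S y, dist (y : X) j < R j / 32 ∧
      ∀ x ∈ S y, dist (x : X) j < R j / 8 := by
    intro y
    obtain ⟨j, hj, hmax⟩ := Finset.exists_max_image (S y) R (hSne y)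
    have hyj : dist y j < R j / 32 := mem_ball.1 (gU j y ((hS y j).1 hj))
    refine ⟨j, hj, hyj, fun x hx => ?_⟩
    have hyx : dist y x < R x / 32 := mem_ball.1 (gU x y ((hS y x).1 hx))
    have h1 : dist x j ≤ dist y x + dist y j := dist_triangle_left _ _ _
    have h2 : R x ≤ R j := hmax x hx
    have h3 := (hRg j).1
    have h4 : dist (x : X) j = dist x j := rfl
    rw [h4]
    linarith
  obtain ⟨D, hDl, hD⟩ := exists_glueData hc U hm hm2 hR f' (le_refl η) (fun y : Y => (y : X))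
  have hSP : ∀ y, ∃ z r, Good f' η z r ∧ ∀ x ∈ S y, dist (x : X) z < r / 8 := by
    intro y
    obtain ⟨j, hj, _, hd⟩ := hgood y
    exact ⟨j, R j, hRg j, hd⟩
  obtain ⟨k, kc, kn, kQ⟩ := hD.exists_map g gc glf g0 g1 S hS hSc hSP
  have hseg : ∀ a ∈ A, ∀ t ∈ Icc (0:ℝ) 1, (1 - t) • f a + t • k a ≠ 0 := by
    intro a ha t ht
    obtain ⟨j, hj, haj, hd⟩ := hgood a
    have hRj := (hRg j).1
    have haR : dist (a : X) j < R j := by linarith
    have hf'a : 1 / 2 ≤ ‖f' a‖ := by
      have h1 := hfA a ha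
      have h2 := hf'f a
      have h3 : ‖f a‖ ≤ ‖f a - f' a‖ + ‖f' a‖ := by
        calc ‖f a‖ = ‖(f a - f' a) + f' a‖ := by rw [sub_add_cancel]
          _ ≤ _ := norm_add_le _ _
      linarith
    obtain ⟨i₀, hi₀⟩ := lab_spec hf'a
    have hlab : ∀ x ∈ S a, lab m (f' x) ≠ i₀ := fun x hx => by
      refine (hi₀ _ ?_).1
      refine (hRg j).2.2 _ (mem_ball.2 ?_) _ (mem_ball.2 haR)
      have := hd x hx
      linarith
    have hphi : 1 / 8 ≤ phi m i₀ (f a) := (hi₀ _ (hf'f a)).2
    have hQ : ∀ x ∈ S a, 1 / 2 ≤ ‖f' x‖ := fun x hx => by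
      have h1 := hfA a ha
      have h2 := hf'f a
      have h4 : ‖f' x - f' a‖ ≤ η := by
        refine (hRg j).2.2 _ (mem_ball.2 ?_) _ (mem_ball.2 haR)
        have := hd x hx
        linarith
      have h3 : ‖f a‖ ≤ ‖f a - f' a‖ + ‖f' x - f' a‖ + ‖f' x‖ := by
        calc ‖f a‖ = ‖(f a - f' a) - (f' x - f' a) + f' x‖ := by congr 1; abel
          _ ≤ ‖(f a - f' a) - (f' x - f' a)‖ + ‖f' x‖ := norm_add_le _ _
          _ ≤ _ := by gcongr; exact norm_sub_le _ _
      linarith
    have hk := kQ a hQ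
    have hphik : phi m i₀ (k a) = 1 := by
      rw [hk, phi_sum]
      simp_rw [phi_smul]
      have : ∑ x ∈ S a, g x a = 1 := by
        rw [← g1 a, finsum_eq_sum_of_support_subset]
        intro i hi
        exact (hS a i).2 hi
      rw [← this]
      refine Finset.sum_congr rfl fun x hx => ?_
      rw [phi_ev_of_ne m i₀ _ ?_, mul_one]
      rw [hDl]
      exact hlab x hx
    intro h0
    have h1 : phi m i₀ ((1 - t) • f a + t • k a) = 0 := by rw [h0, phi_zero]
    rw [phi_add, phi_smul, phi_smul, hphik] at h1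
    nlinarith [ht.1, ht.2]
  obtain ⟨w, wc, wn, wA⟩ := exists_nonvanishing_of_segment A hA f k hf kc kn hseg
  refine ⟨w, wc, wn, fun a ha => ?_⟩
  rw [wA a ha, sub_self, norm_zero]
  linarith [hfA a ha]

end main

theorem descent {X : Type u} [MetricSpace X] [CompleteSpace X] {c : ℝ} (hc : 0 < c)
    (U : UC X c) {n m : ℕ} (hm : n + 1 ≤ m) (hR : RankLE n X) (Y : Set X) (hY : IsClosed Y)
    (h : ∀ j ≥ m + 1, NZ j Y) : NZ m Y := by
  by_cases hm2 : 2 ≤ m
  · exact descent_two hc U hm hm2 hR Y hY h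
  · have hn : n = 0 := by omega
    subst hn
    have hsub : Subsingleton Y :=
      ⟨fun p q => Subtype.ext (subsingleton_of_rank_zero hc U hR p q)⟩
    exact NZ_of_subsingleton (by omega)

end MP629748

end part1

section part2

/-!
Piece P11 (soft) of MP_629748_gt: the extension property passes from closed convex subsets of
smaller density to the whole space.
-/

open Set Filter Topology Metric
open scoped NNReal Cardinal

namespace MP629748

universe u

namespace SoftAux

/-! ### iterated convex combinations -/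

section Conv
variable {X : Type*} [MetricSpace X] {c : ℝ} (U : UC X c)

theorem soft_closedBall_convex (hc : 0 < c) (z : X) (r : ℝ) : U.ConvexSet (closedBall z r) := by
  intro x hx y hy t ht
  rw [mem_closedBall, dist_comm] at hx hy ⊢
  have h := U.cn x y z t ht
  have hr : 0 ≤ r := dist_nonneg.trans hx
  have h1 : 0 ≤ c * (t * (1 - t)) * dist x y ^ 2 := by
    have := ht.1; have := ht.2
    have : 0 ≤ 1 - t := by linarith
    positivity
  have h2 : dist z x ^ 2 ≤ r ^ 2 := by gcongr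
  have h3 : dist z y ^ 2 ≤ r ^ 2 := by gcongr
  have h4 : dist z (U.cc x y t) ^ 2 ≤ r ^ 2 := by
    have := ht.1; have := ht.2
    nlinarith
  exact abs_le_of_sq_le_sq' h4 hr |>.2

theorem soft_ball_convex (hc : 0 < c) (z : X) (r : ℝ) : U.ConvexSet (ball z r) := by
  intro x hx y hy t ht
  have hx' : x ∈ closedBall z (max (dist x z) (dist y z)) := by simp
  have hy' : y ∈ closedBall z (max (dist x z) (dist y z)) := by simp
  have := soft_closedBall_convex U hc z _ x hx' y hy' t ht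
  rw [mem_closedBall] at this
  rw [mem_ball] at hx hy ⊢
  exact this.trans_lt (max_lt hx hy)

/-- one step of an iterated convex combination -/
noncomputable def cstep (s w : ℝ × X) : ℝ × X := (s.1 + w.1, U.cc s.2 w.2 (w.1 / (s.1 + w.1)))

theorem cstep_zero (s : ℝ × X) (p : X) : cstep U s (0, p) = s := by
  simp [cstep, U.zero]

/-- iterated convex combination along a list -/
noncomputable def csum (x0 : X) {ι : Type*} (w : ι → ℝ) (p : ι → X) (l : List ι) : ℝ × X :=
  l.foldl (fun s i => cstep U s (w i, p i)) (0, x0)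

variable {ι : Type*} (x0 : X) (p : ι → X)

theorem csum_concat (w : ι → ℝ) (l : List ι) (i : ι) :
    csum U x0 w p (l ++ [i]) = cstep U (csum U x0 w p l) (w i, p i) := by
  simp [csum, List.foldl_append]

theorem csum_fst (w : ι → ℝ) (l : List ι) : (csum U x0 w p l).1 = (l.map w).sum := by
  induction l using List.reverseRecOn with
  | nil => simp [csum]
  | append_singleton l i ih => rw [csum_concat]; simp [cstep, ih]

theorem csum_fst_nonneg (w : ι → ℝ) (l : List ι) (hw : ∀ i ∈ l, 0 ≤ w i) :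
    0 ≤ (csum U x0 w p l).1 := by
  rw [csum_fst]
  apply List.sum_nonneg
  intro a ha
  obtain ⟨i, hi, rfl⟩ := List.mem_map.1 ha
  exact hw i hi

theorem csum_filter (w : ι → ℝ) (l : List ι) (P : ι → Bool)
    (h : ∀ i ∈ l, P i = false → w i = 0) :
    csum U x0 w p (l.filter P) = csum U x0 w p l := by
  induction l using List.reverseRecOn with
  | nil => simp
  | append_singleton l i ih =>
    have ih' := ih fun i hi => h i (by simp [hi])
    rw [List.filter_append, csum_concat]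
    by_cases hP : P i = true
    · simp only [List.filter_cons, hP, if_true, List.filter_nil]
      rw [csum_concat, ih']
    · have hP' : P i = false := by simpa using hP
      have : w i = 0 := h i (by simp) hP'
      simp only [List.filter_cons, hP', List.filter_nil, this, cstep_zero]
      simpa using ih'

theorem csum_mem (w : ι → ℝ) (l : List ι) (hw : ∀ i ∈ l, 0 ≤ w i) {C : Set X}
    (hC : U.ConvexSet C) (hp : ∀ i ∈ l, 0 < w i → p i ∈ C) (h : 0 < (csum U x0 w p l).1) :
    (csum U x0 w p l).2 ∈ C := by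
  induction l using List.reverseRecOn with
  | nil => simp [csum] at h
  | append_singleton l i ih =>
    have hw' : ∀ i ∈ l, 0 ≤ w i := fun i hi => hw i (by simp [hi])
    have h0 := csum_fst_nonneg U x0 p w l hw'
    have hwi : 0 ≤ w i := hw i (by simp)
    rw [csum_concat] at h ⊢
    simp only [cstep] at h ⊢
    have ht : w i / ((csum U x0 w p l).1 + w i) ∈ Icc (0:ℝ) 1 :=
      ⟨by positivity, by rw [div_le_one h]; linarith⟩
    rcases h0.eq_or_lt with h1 | h1
    · rw [← h1, zero_add] at h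
      rw [← h1, zero_add, div_self h.ne', U.one]
      exact hp i (by simp) h
    · have hq := ih hw' (fun i hi => hp i (by simp [hi])) h1
      rcases hwi.eq_or_lt with h2 | h2
      · rw [← h2]; simpa [U.zero] using hq
      · exact hC _ hq _ (hp i (by simp) h2) _ ht

theorem csum_bdd (hc : 0 < c) (w : ι → ℝ) (l : List ι) (hw : ∀ i ∈ l, 0 ≤ w i) {z : X} {R : ℝ}
    (h0 : x0 ∈ closedBall z R) (hp : ∀ i ∈ l, p i ∈ closedBall z R) :
    (csum U x0 w p l).2 ∈ closedBall z R := by
  induction l using List.reverseRecOn with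
  | nil => simpa [csum] using h0
  | append_singleton l i ih =>
    have hw' : ∀ i ∈ l, 0 ≤ w i := fun i hi => hw i (by simp [hi])
    have h1 := csum_fst_nonneg U x0 p w l hw'
    have hwi : 0 ≤ w i := hw i (by simp)
    rw [csum_concat]
    refine soft_closedBall_convex U hc z R _ (ih hw' fun i hi => hp i (by simp [hi])) _
      (hp i (by simp)) _ ⟨by positivity, ?_⟩
    exact div_le_one_of_le₀ (by linarith) (by positivity)

theorem csum_continuousAt (hc : 0 < c) {Y : Type*} [TopologicalSpace Y] (w : Y → ι → ℝ)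
    (l : List ι) (hw : ∀ y, ∀ i ∈ l, 0 ≤ w y i) (hcont : ∀ i ∈ l, Continuous fun y => w y i)
    (y0 : Y) (h : 0 < (csum U x0 (w y0) p l).1) :
    ContinuousAt (fun y => (csum U x0 (w y) p l).2) y0 := by
  induction l using List.reverseRecOn with
  | nil => simp [csum] at h
  | append_singleton l i ih =>
    have hw' : ∀ y, ∀ i ∈ l, 0 ≤ w y i := fun y i hi => hw y i (by simp [hi])
    have hcont' : ∀ i ∈ l, Continuous fun y => w y i := fun i hi => hcont i (by simp [hi])
    have h0 : ∀ y, 0 ≤ (csum U x0 (w y) p l).1 := fun y =>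
      csum_fst_nonneg U x0 p (w y) l (hw' y)
    have hwi : ∀ y, 0 ≤ w y i := fun y => hw y i (by simp)
    have hWc : Continuous fun y => (csum U x0 (w y) p l).1 := by
      simp only [csum_fst]
      exact continuous_list_sum _ fun i hi => hcont' i hi
    have hic : Continuous fun y => w y i := hcont i (by simp)
    simp only [csum_concat] at h ⊢
    simp only [cstep] at h ⊢
    have htc : ContinuousAt (fun y => w y i / ((csum U x0 (w y) p l).1 + w y i)) y0 :=
      hic.continuousAt.div (hWc.add hic).continuousAt h.ne'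
    have htm : ∀ y, w y i / ((csum U x0 (w y) p l).1 + w y i) ∈ Icc (0:ℝ) 1 := fun y =>
      ⟨div_nonneg (hwi y) (add_nonneg (h0 y) (hwi y)),
        div_le_one_of_le₀ (by linarith [h0 y]) (add_nonneg (h0 y) (hwi y))⟩
    rcases (h0 y0).eq_or_lt with h1 | h1
    · -- the previous weight vanishes at y0
      rw [← h1, zero_add] at h
      have ht1 : w y0 i / ((csum U x0 (w y0) p l).1 + w y0 i) = 1 := by
        rw [← h1, zero_add, div_self h.ne']
      -- a ball containing all points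
      obtain ⟨R, hR0, hR⟩ : ∃ R, x0 ∈ closedBall (p i) R ∧ ∀ k ∈ l, p k ∈ closedBall (p i) R := by
        refine ⟨dist x0 (p i) + (l.map fun k => dist (p k) (p i)).sum, ?_, ?_⟩
        · rw [mem_closedBall]
          have : 0 ≤ (l.map fun k => dist (p k) (p i)).sum := by
            apply List.sum_nonneg
            intro a ha
            obtain ⟨k, -, rfl⟩ := List.mem_map.1 ha
            exact dist_nonneg
          linarith
        · intro k hk
          rw [mem_closedBall]
          have : dist (p k) (p i) ≤ (l.map fun k => dist (p k) (p i)).sum :=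
            List.single_le_sum (by
              intro a ha
              obtain ⟨k, -, rfl⟩ := List.mem_map.1 ha
              exact dist_nonneg) _ (List.mem_map.2 ⟨k, hk, rfl⟩)
          have := dist_nonneg (x := x0) (y := p i)
          linarith
      have hb : ∀ y, dist (p i) (csum U x0 (w y) p l).2 ≤ R := fun y => by
        have := csum_bdd U x0 p hc (w y) l (hw' y) hR0 hR
        rwa [mem_closedBall, dist_comm] at this
      have hR' : 0 ≤ R := dist_nonneg.trans (hb y0)
      rw [ContinuousAt, ht1, U.one, tendsto_iff_dist_tendsto_zero]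
      have key : ∀ y, dist (U.cc (csum U x0 (w y) p l).2 (p i)
          (w y i / ((csum U x0 (w y) p l).1 + w y i))) (p i) ≤
          √(1 - w y i / ((csum U x0 (w y) p l).1 + w y i)) * R := by
        intro y
        set t := w y i / ((csum U x0 (w y) p l).1 + w y i) with ht
        have htm' := htm y
        rw [← ht] at htm'
        have hcn := U.cn (csum U x0 (w y) p l).2 (p i) (p i) t htm'
        rw [dist_self] at hcn
        have h1t : 0 ≤ 1 - t := by linarith [htm'.2]
        have h2 : 0 ≤ c * (t * (1 - t)) * dist (csum U x0 (w y) p l).2 (p i) ^ 2 := by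
          have := htm'.1
          positivity
        have h3 : dist (p i) (csum U x0 (w y) p l).2 ^ 2 ≤ R ^ 2 := by
          have := hb y
          gcongr
        have h4 : dist (p i) (U.cc (csum U x0 (w y) p l).2 (p i) t) ^ 2 ≤ (1 - t) * R ^ 2 := by
          nlinarith
        rw [dist_comm]
        have h5 : (√(1 - t) * R) ^ 2 = (1 - t) * R ^ 2 := by
          rw [mul_pow, Real.sq_sqrt h1t]
        rw [← h5] at h4
        exact (abs_le_of_sq_le_sq' h4 (by positivity)).2
      have hlim : Tendsto (fun y => √(1 - w y i / ((csum U x0 (w y) p l).1 + w y i)) * R)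
          (𝓝 y0) (𝓝 0) := by
        have : Tendsto (fun y => √(1 - w y i / ((csum U x0 (w y) p l).1 + w y i)) * R)
            (𝓝 y0) (𝓝 (√(1 - 1) * R)) := by
          have := htc.tendsto
          rw [ht1] at this
          exact ((tendsto_const_nhds.sub this).sqrt).mul_const R
        simpa using this
      exact squeeze_zero (fun y => dist_nonneg) key hlim
    · have hq := ih hw' hcont' h1
      have hU := U.cont ((csum U x0 (w y0) p l).2, p i,
        w y0 i / ((csum U x0 (w y0) p l).1 + w y0 i)) (htm y0)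
      have ht : Tendsto (fun y => ((csum U x0 (w y) p l).2, p i,
          w y i / ((csum U x0 (w y) p l).1 + w y i))) (𝓝 y0)
          (𝓝[{q : X × X × ℝ | q.2.2 ∈ Icc (0:ℝ) 1}] ((csum U x0 (w y0) p l).2, p i,
        w y0 i / ((csum U x0 (w y0) p l).1 + w y0 i))) := by
        refine tendsto_nhdsWithin_iff.2 ⟨?_, Eventually.of_forall fun y => htm y⟩
        exact hq.tendsto.prodMk_nhds (tendsto_const_nhds.prodMk_nhds htc.tendsto)
      exact hU.tendsto.comp ht

end Conv

/-! ### simplices and auxiliary functions -/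

section Simp
variable {X : Type u}

/-- the closed simplex spanned by a finite set -/
def Dl (F : Finset X) : Set (X → ℝ) :=
  {x | (∀ t, 0 ≤ x t) ∧ (∀ t, t ∉ F → x t = 0) ∧ ∑ t ∈ F, x t = 1}

noncomputable def qq (x : X → ℝ) : ℝ := (∑ᶠ t, x t ^ 2) / 2

variable {F : Finset X} {x : X → ℝ}

theorem Dl_mono {E F : Finset X} (h : E ⊆ F) : Dl E ⊆ Dl F := by
  intro x hx
  refine ⟨hx.1, fun t ht => hx.2.1 t fun h' => ht (h h'), ?_⟩
  rw [← hx.2.2]
  exact (Finset.sum_subset h fun t _ ht => hx.2.1 t ht).symm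

theorem Dl_le_one (hx : x ∈ Dl F) (t : X) : x t ≤ 1 := by
  by_cases ht : t ∈ F
  · rw [← hx.2.2]
    exact Finset.single_le_sum (f := x) (fun i _ => hx.1 i) ht
  · rw [hx.2.1 t ht]; norm_num

theorem qq_eq (hx : ∀ t, t ∉ F → x t = 0) : qq x = (∑ t ∈ F, x t ^ 2) / 2 := by
  unfold qq
  rw [finsum_eq_sum_of_support_subset]
  intro t ht
  by_contra h
  exact ht (by simp [hx t (by simpa using h)])

theorem exists_pos_of_Dl (hx : x ∈ Dl F) : ∃ t ∈ F, 0 < x t := by
  by_contra h
  push Not at h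
  have : ∑ t ∈ F, x t ≤ 0 := Finset.sum_nonpos h
  rw [hx.2.2] at this
  linarith

theorem qq_pos (hx : x ∈ Dl F) : 0 < qq x := by
  rw [qq_eq hx.2.1]
  obtain ⟨t, ht, h⟩ := exists_pos_of_Dl hx
  have : x t ^ 2 ≤ ∑ t ∈ F, x t ^ 2 := Finset.single_le_sum (f := fun t => x t ^ 2)
    (fun i _ => sq_nonneg _) ht
  have : 0 < x t ^ 2 := by positivity
  linarith

theorem exists_big (hx : x ∈ Dl F) : ∃ t ∈ F, qq x < x t := by
  by_contra h
  push Not at h
  have h1 : ∑ t ∈ F, x t ^ 2 ≤ ∑ t ∈ F, qq x * x t := by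
    refine Finset.sum_le_sum fun t ht => ?_
    rw [sq]
    exact mul_le_mul_of_nonneg_right (h t ht) (hx.1 t)
  rw [← Finset.mul_sum, hx.2.2, mul_one] at h1
  have h2 := qq_eq hx.2.1
  have := qq_pos hx
  linarith

theorem qq_continuousOn (F : Finset X) : ContinuousOn (qq : (X → ℝ) → ℝ) (Dl F) := by
  have : ContinuousOn (fun x : X → ℝ => (∑ t ∈ F, x t ^ 2) / 2) (Dl F) := by fun_prop
  exact this.congr fun x hx => qq_eq hx.2.1

/-- truncation to the big coordinates -/
noncomputable def th (x : X → ℝ) (t : X) : ℝ :=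
  max (x t - qq x) 0 / ∑ᶠ s, max (x s - qq x) 0

theorem th_den (hx : x ∈ Dl F) : ∑ᶠ s, max (x s - qq x) 0 = ∑ s ∈ F, max (x s - qq x) 0 := by
  rw [finsum_eq_sum_of_support_subset]
  intro t ht
  by_contra h
  apply ht
  have h0 : x t = 0 := hx.2.1 t (by simpa using h)
  have := qq_pos hx
  simp only [h0, zero_sub]
  exact max_eq_right (by linarith)

theorem th_den_pos (hx : x ∈ Dl F) : 0 < ∑ s ∈ F, max (x s - qq x) 0 := by
  obtain ⟨t, ht, h⟩ := exists_big hx
  have : max (x t - qq x) 0 ≤ ∑ s ∈ F, max (x s - qq x) 0 :=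
    Finset.single_le_sum (f := fun s => max (x s - qq x) 0) (fun i _ => le_max_right _ _) ht
  have h2 : 0 < max (x t - qq x) 0 := lt_max_of_lt_left (by linarith)
  linarith

theorem th_supp {t : X} (h : th x t ≠ 0) : qq x < x t := by
  by_contra h'
  apply h
  unfold th
  rw [max_eq_right (by linarith)]
  simp

theorem th_mem (hx : x ∈ Dl F) : th x ∈ Dl F := by
  refine ⟨fun t => ?_, fun t ht => ?_, ?_⟩
  · unfold th
    rw [th_den hx]
    have := th_den_pos hx
    have := le_max_right (x t - qq x) 0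
    positivity
  · by_contra h
    have := th_supp h
    rw [hx.2.1 t ht] at this
    linarith [qq_pos hx]
  · unfold th
    rw [th_den hx, ← Finset.sum_div]
    exact div_self (th_den_pos hx).ne'

theorem th_continuousOn (F : Finset X) (t : X) :
    ContinuousOn (fun x : X → ℝ => th x t) (Dl F) := by
  have h : ContinuousOn (fun x : X → ℝ => max (x t - qq x) 0 / ∑ s ∈ F, max (x s - qq x) 0)
      (Dl F) := by
    have hq := qq_continuousOn F
    refine ContinuousOn.div ?_ ?_ fun x hx => (th_den_pos hx).ne'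
    · fun_prop
    · fun_prop
  exact h.congr fun x hx => by simp only [th, th_den hx]

open Classical in
/-- weight of the level set `L` -/
noncomputable def lamb (x : X → ℝ) (L : Finset X) : ℝ :=
  ∏ᶠ t, if t ∈ L then x t else max 0 (1 - x t / qq x)

open Classical in
theorem lamb_eq {E L : Finset X} (hx : ∀ t, t ∉ E → x t = 0) (hL : L ⊆ E) :
    lamb x L = ∏ t ∈ E, if t ∈ L then x t else max 0 (1 - x t / qq x) := by
  unfold lamb
  rw [finprod_eq_prod_of_mulSupport_subset]
  intro t ht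
  by_contra h
  have h : t ∉ E := by simpa using h
  apply ht
  have h1 : t ∉ L := fun h' => h (hL h')
  simp [h1, hx t h]

theorem lamb_nonneg (hx : x ∈ Dl F) {L : Finset X} (hL : L ⊆ F) : 0 ≤ lamb x L := by
  classical
  rw [lamb_eq hx.2.1 hL]
  refine Finset.prod_nonneg fun t _ => ?_
  split_ifs
  · exact hx.1 t
  · exact le_max_left _ _

theorem lamb_pos (hx : x ∈ Dl F) {L : Finset X} (hL : L ⊆ F) (h : 0 < lamb x L) :
    (∀ t ∈ L, 0 < x t) ∧ ∀ t, qq x ≤ x t → t ∈ L := by
  classical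
  rw [lamb_eq hx.2.1 hL] at h
  have hne : ∀ t ∈ F, (if t ∈ L then x t else max 0 (1 - x t / qq x)) ≠ 0 := by
    intro t ht h0
    rw [Finset.prod_eq_zero ht h0] at h
    exact lt_irrefl _ h
  have hq := qq_pos hx
  refine ⟨fun t ht => ?_, fun t ht => ?_⟩
  · have := hne t (hL ht)
    rw [if_pos ht] at this
    exact lt_of_le_of_ne (hx.1 t) this.symm
  · by_contra h'
    have htF : t ∈ F := by
      by_contra h2
      rw [hx.2.1 t h2] at ht
      linarith
    have := hne t htF
    rw [if_neg h'] at this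
    apply this
    apply max_eq_left
    have : 1 ≤ x t / qq x := by rw [le_div_iff₀ hq]; linarith
    linarith

theorem lamb_zero (hx : x ∈ Dl F) {L : Finset X} (hL : L ⊆ F) {t : X} (ht : t ∈ L)
    (h : x t = 0) : lamb x L = 0 := by
  classical
  rw [lamb_eq hx.2.1 hL]
  exact Finset.prod_eq_zero (hL ht) (by rw [if_pos ht, h])

theorem lamb_continuousOn {L : Finset X} (hL : L ⊆ F) :
    ContinuousOn (fun x : X → ℝ => lamb x L) (Dl F) := by
  classical
  have h : ContinuousOn (fun x : X → ℝ => ∏ t ∈ F, if t ∈ L then x t else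
      max 0 (1 - x t / qq x)) (Dl F) := by
    refine continuousOn_finsetProd _ fun t _ => ?_
    split_ifs
    · fun_prop
    · have hq := qq_continuousOn F
      have h2 : ContinuousOn (fun x : X → ℝ => x t / qq x) (Dl F) :=
        ContinuousOn.div (by fun_prop) hq fun x hx => (qq_pos hx).ne'
      fun_prop
  exact h.congr fun x hx => lamb_eq hx.2.1 hL

end Simp

/-! ### a linear order on finite sets -/

section Order
variable {α : Type u}

/-- auxiliary total order -/
def rk (a b : α) : Prop := embeddingToCardinal a ≤ embeddingToCardinal b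

instance : IsTrans α rk := ⟨fun _ _ _ h h' => le_trans h h'⟩
instance : Std.Antisymm (rk (α := α)) :=
  ⟨fun _ _ h h' => embeddingToCardinal.injective (le_antisymm h h')⟩
instance : Std.Total (rk (α := α)) := ⟨fun _ _ => le_total _ _⟩
noncomputable instance : DecidableRel (rk (α := α)) := Classical.decRel _

theorem sort_filter [DecidableEq α] {A B : Finset α} (h : A ⊆ B) :
    (B.sort rk).filter (· ∈ A) = A.sort rk := by
  refine List.Perm.eq_of_pairwise' (r := rk) ((B.pairwise_sort rk).filter _)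
    (A.pairwise_sort rk) ?_
  rw [List.perm_ext_iff_of_nodup ((B.sort_nodup rk).filter _) (A.sort_nodup rk)]
  intro a
  simp only [List.mem_filter, Finset.mem_sort, decide_eq_true_eq]
  exact ⟨fun h => h.2, fun h' => ⟨h h', h'⟩⟩

end Order

/-! ### the map from the nerve to the space -/

section Psi
variable {X : Type u}

open Classical in
/-- the support as a finite set -/
noncomputable def suppF (x : X → ℝ) : Finset X :=
  if h : (Function.support x).Finite then h.toFinset else ∅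

theorem mem_suppF {F : Finset X} {x : X → ℝ} (hx : x ∈ Dl F) (t : X) :
    t ∈ suppF x ↔ x t ≠ 0 := by
  have : (Function.support x).Finite := F.finite_toSet.subset fun t ht => by
    by_contra h
    exact ht (hx.2.1 t (by simpa using h))
  rw [suppF, dif_pos this]
  simp

theorem suppF_subset {F : Finset X} {x : X → ℝ} (hx : x ∈ Dl F) : suppF x ⊆ F := by
  intro t ht
  by_contra h
  exact (mem_suppF hx t).1 ht (hx.2.1 t h)

theorem mem_Dl_suppF {F : Finset X} {x : X → ℝ} (hx : x ∈ Dl F) : x ∈ Dl (suppF x) := by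
  refine ⟨hx.1, fun t ht => ?_, ?_⟩
  · by_contra h
    exact ht ((mem_suppF hx t).2 h)
  · rw [← hx.2.2]
    refine Finset.sum_subset (suppF_subset hx) fun t _ ht => ?_
    by_contra h
    exact ht ((mem_suppF hx t).2 h)

variable [MetricSpace X] {c : ℝ} (U : UC X c) (x0 : X) (p : Finset X → X)

/-- the map `ψ` -/
noncomputable def psi (x : X → ℝ) : X :=
  (csum U x0 (lamb x) p ((suppF x).powerset.sort rk)).2

theorem psi_eq {F : Finset X} {x : X → ℝ} (hx : x ∈ Dl F) :
    psi U x0 p x = (csum U x0 (lamb x) p (F.powerset.sort rk)).2 := by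
  classical
  unfold psi
  rw [← sort_filter (Finset.powerset_mono.2 (suppF_subset hx)), csum_filter]
  intro L hL hL'
  rw [Finset.mem_sort, Finset.mem_powerset] at hL
  have : ¬ L ⊆ suppF x := by simpa using hL'
  obtain ⟨t, ht, ht'⟩ := Finset.not_subset.1 this
  refine lamb_zero hx hL ht ?_
  by_contra h
  exact ht' ((mem_suppF hx t).2 h)

theorem csum_pos {F : Finset X} {x : X → ℝ} (hx : x ∈ Dl F) :
    0 < (csum U x0 (lamb x) p (F.powerset.sort rk)).1 := by
  classical
  rw [csum_fst]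
  have h1 : (List.map (lamb x) (F.powerset.sort rk)).sum = ∑ L ∈ F.powerset, lamb x L := by
    have : ((F.powerset.sort rk : List (Finset X)) : Multiset (Finset X)) = F.powerset.1 :=
      Finset.sort_eq _ _
    rw [Finset.sum, ← this, Multiset.map_coe, Multiset.sum_coe]
  rw [h1]
  have h2 : lamb x (suppF x) ≤ ∑ L ∈ F.powerset, lamb x L :=
    Finset.single_le_sum (f := lamb x) (fun L hL => lamb_nonneg hx (Finset.mem_powerset.1 hL))
      (Finset.mem_powerset.2 (suppF_subset hx))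
  refine lt_of_lt_of_le ?_ h2
  rw [lamb_eq hx.2.1 (suppF_subset hx)]
  refine Finset.prod_pos fun t _ => ?_
  split_ifs with h
  · exact lt_of_le_of_ne (hx.1 t) ((mem_suppF hx t).1 h).symm
  · have : x t = 0 := by
      by_contra h'
      exact h ((mem_suppF hx t).2 h')
    rw [this]
    simp

theorem psi_mem {F : Finset X} {x : X → ℝ} (hx : x ∈ Dl F) {C : Set X} (hC : U.ConvexSet C)
    (h : ∀ L ⊆ F, (∀ t ∈ L, 0 < x t) → (∀ t, qq x ≤ x t → t ∈ L) → p L ∈ C) :
    psi U x0 p x ∈ C := by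
  rw [psi_eq U x0 p hx]
  refine csum_mem U x0 p _ _ ?_ hC ?_ (csum_pos U x0 p hx)
  · intro L hL
    rw [Finset.mem_sort, Finset.mem_powerset] at hL
    exact lamb_nonneg hx hL
  · intro L hL hpos
    rw [Finset.mem_sort, Finset.mem_powerset] at hL
    have := lamb_pos hx hL hpos
    exact h L hL this.1 this.2

theorem psi_continuousOn (hc : 0 < c) (F : Finset X) : ContinuousOn (psi U x0 p) (Dl F) := by
  rw [continuousOn_iff_continuous_domRestrict, continuous_iff_continuousAt]
  intro y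
  have h : (Dl F).domRestrict (psi U x0 p) =
      fun y : Dl F => (csum U x0 (lamb (y : X → ℝ)) p (F.powerset.sort rk)).2 := by
    ext y
    exact psi_eq U x0 p y.2
  rw [h]
  refine csum_continuousAt U x0 p hc (fun y : Dl F => lamb (y : X → ℝ)) _ ?_ ?_ y
    (csum_pos U x0 p y.2)
  · intro y L hL
    rw [Finset.mem_sort, Finset.mem_powerset] at hL
    exact lamb_nonneg y.2 hL
  · intro L hL
    rw [Finset.mem_sort, Finset.mem_powerset] at hL
    exact (lamb_continuousOn hL).comp_continuous continuous_subtype_val fun y => y.2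

end Psi

/-! ### Skolem hulls -/

section Hull
variable {X : Type u} (ap : X → X → ℚ × ℕ → X) (pf : Finset X → X)

/-- closure of a set under the operations `ap` and `pf` -/
inductive Hull (I : Set X) : X → Prop
  | base (x : X) (hx : x ∈ I) : Hull I x
  | ap (x y : X) (k : ℚ × ℕ) (hx : Hull I x) (hy : Hull I y) : Hull I (ap x y k)
  | pf (F : Finset X) (hF : ∀ t ∈ F, Hull I t) : Hull I (pf F)

/-- the hull as a set -/
def hull (I : Set X) : Set X := {x | Hull ap pf I x}

variable {ap pf}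

theorem subset_hull (I : Set X) : I ⊆ hull ap pf I := fun x hx => Hull.base x hx

theorem hull_mono {I J : Set X} (h : I ⊆ J) : hull ap pf I ⊆ hull ap pf J := by
  intro x hx
  induction hx with
  | base x hx => exact Hull.base x (h hx)
  | ap x y k _ _ ihx ihy => exact Hull.ap x y k ihx ihy
  | pf F _ ih => exact Hull.pf F ih

theorem hull_subset {I T : Set X} (h : I ⊆ T) (hap : ∀ x ∈ T, ∀ y ∈ T, ∀ k, ap x y k ∈ T)
    (hpf : ∀ F : Finset X, (F : Set X) ⊆ T → pf F ∈ T) : hull ap pf I ⊆ T := by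
  intro x hx
  induction hx with
  | base x hx => exact h hx
  | ap x y k _ _ ihx ihy => exact hap x ihx y ihy k
  | pf F _ ih => exact hpf F fun t ht => ih t ht

theorem hull_iUnion {J : Type*} [Nonempty J] (I : J → Set X) (hI : Directed (· ⊆ ·) I) {x : X}
    (hx : x ∈ hull ap pf (⋃ a, I a)) : ∃ a, x ∈ hull ap pf (I a) := by
  induction hx with
  | base x hx =>
    obtain ⟨a, ha⟩ := mem_iUnion.1 hx
    exact ⟨a, Hull.base x ha⟩
  | ap x y k _ _ ihx ihy =>
    obtain ⟨a, ha⟩ := ihx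
    obtain ⟨b, hb⟩ := ihy
    obtain ⟨d, hd1, hd2⟩ := hI a b
    exact ⟨d, Hull.ap x y k (hull_mono hd1 ha) (hull_mono hd2 hb)⟩
  | pf F _ ih =>
    have : ∃ a, ∀ t ∈ F, t ∈ hull ap pf (I a) := by
      classical
      induction F using Finset.induction_on with
      | empty => exact ⟨Classical.arbitrary J, by simp⟩
      | insert t F _ ih2 =>
        obtain ⟨a, ha⟩ := ih2 (fun t ht => by
          rename_i h1
          exact h1 t (Finset.mem_insert_of_mem ht)) fun t ht => ih t (Finset.mem_insert_of_mem ht)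
        obtain ⟨b, hb⟩ := ih t (Finset.mem_insert_self t F)
        obtain ⟨d, hd1, hd2⟩ := hI a b
        refine ⟨d, fun s hs => ?_⟩
        rcases Finset.mem_insert.1 hs with rfl | hs
        · exact hull_mono hd2 hb
        · exact hull_mono hd1 (ha s hs)
    obtain ⟨a, ha⟩ := this
    exact ⟨a, Hull.pf F ha⟩

open Classical in
/-- one closing-off step -/
def hstep (ap : X → X → ℚ × ℕ → X) (pf : Finset X → X) (I : Set X) : Set X :=
  I ∪ (range (fun q : I × I × (ℚ × ℕ) => ap q.1 q.2.1 q.2.2) ∪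
    range (fun l : List I => pf (l.map Subtype.val).toFinset))

theorem mk_hstep_le (I : Set X) : #(hstep ap pf I) ≤ max #I ℵ₀ := by
  classical
  set M := max #I ℵ₀ with hM
  have hM0 : ℵ₀ ≤ M := le_max_right _ _
  have h1 : #I ≤ M := le_max_left _ _
  have h2 : #(range (fun q : I × I × (ℚ × ℕ) => ap q.1 q.2.1 q.2.2)) ≤ M := by
    refine Cardinal.mk_range_le.trans ?_
    simp only [Cardinal.mk_prod, Cardinal.lift_id, Cardinal.mk_eq_aleph0,
      Cardinal.lift_aleph0, Cardinal.lift_uzero]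
    calc #I * (#I * ℵ₀) ≤ M * (M * M) := by gcongr
      _ = M := by rw [Cardinal.mul_eq_self hM0, Cardinal.mul_eq_self hM0]
  have h3 : #(range (fun l : List I => pf (l.map Subtype.val).toFinset)) ≤ M := by
    refine Cardinal.mk_range_le.trans ((Cardinal.mk_list_le_max I).trans ?_)
    rw [max_comm]
  unfold hstep
  refine (Cardinal.mk_union_le _ _).trans ?_
  calc #I + _ ≤ M + (M + M) := by
        refine add_le_add h1 ((Cardinal.mk_union_le _ _).trans (add_le_add h2 ?_))
        convert h3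
    _ = M := by rw [Cardinal.add_eq_self hM0, Cardinal.add_eq_self hM0]

theorem subset_hstep (I : Set X) : I ⊆ hstep ap pf I := subset_union_left

theorem iterate_mono (I : Set X) : Monotone fun n : ℕ => (hstep ap pf)^[n] I := by
  refine monotone_nat_of_le_succ fun n => ?_
  rw [Function.iterate_succ_apply']
  exact subset_hstep _

theorem hull_subset_iterate (I : Set X) : hull ap pf I ⊆ ⋃ n : ℕ, (hstep ap pf)^[n] I := by
  classical
  intro x hx
  induction hx with
  | base x hx => exact mem_iUnion.2 ⟨0, hx⟩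
  | ap x y k _ _ ihx ihy =>
    obtain ⟨a, ha⟩ := mem_iUnion.1 ihx
    obtain ⟨b, hb⟩ := mem_iUnion.1 ihy
    refine mem_iUnion.2 ⟨max a b + 1, ?_⟩
    rw [Function.iterate_succ_apply']
    exact Or.inr (Or.inl ⟨(⟨x, iterate_mono I (le_max_left a b) ha⟩,
      ⟨y, iterate_mono I (le_max_right a b) hb⟩, k), rfl⟩)
  | pf F _ ih =>
    have : ∃ n : ℕ, ∀ t ∈ F, t ∈ (hstep ap pf)^[n] I := by
      choose! N hN using fun t ht => mem_iUnion.1 (ih t ht)
      exact ⟨F.sup N, fun t ht => iterate_mono I (Finset.le_sup ht) (hN t ht)⟩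
    obtain ⟨n, hn⟩ := this
    refine mem_iUnion.2 ⟨n + 1, ?_⟩
    rw [Function.iterate_succ_apply']
    refine Or.inr (Or.inr ⟨F.toList.attach.map fun t => ⟨t.1, hn t.1 (Finset.mem_toList.1 t.2)⟩, ?_⟩)
    have : (List.map (Subtype.val : ((hstep ap pf)^[n] I : Set X) → X)
        (F.toList.attach.map fun t => ⟨t.1, hn t.1 (Finset.mem_toList.1 t.2)⟩)) = F.toList := by
      rw [List.map_map]
      exact List.attach_map_subtype_val _
    simp only [this]
    rw [Finset.toList_toFinset]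

theorem mk_hull_le (I : Set X) : #(hull ap pf I) ≤ max #I ℵ₀ := by
  set M := max #I ℵ₀ with hM
  have hM0 : ℵ₀ ≤ M := le_max_right _ _
  have hn : ∀ n : ℕ, #((hstep ap pf)^[n] I : Set X) ≤ M := by
    intro n
    induction n with
    | zero => exact le_max_left _ _
    | succ n ih =>
      rw [Function.iterate_succ_apply']
      exact (mk_hstep_le _).trans (max_le ih hM0)
  refine (Cardinal.mk_le_mk_of_subset (hull_subset_iterate I)).trans ?_
  have h := Cardinal.mk_iUnion_le_lift (fun n : ℕ => (hstep ap pf)^[n] I)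
  simp only [Cardinal.lift_uzero, Cardinal.mk_nat, Cardinal.lift_aleph0] at h
  refine h.trans ?_
  calc ℵ₀ * ⨆ n : ℕ, #((hstep ap pf)^[n] I : Set X) ≤ M * M := by
        gcongr
        exact ciSup_le' hn
    _ = M := Cardinal.mul_eq_self hM0

end Hull

/-! ### extension from closed sets -/

theorem nz_extend_closed {m : ℕ} {Y : Type*} [TopologicalSpace Y] [NormalSpace Y] (h : NZ m Y)
    {A : Set Y} (hA : IsClosed A) (D : Y → (Fin m → ℝ)) (hD : ContinuousOn D A)
    (h0 : ∀ a ∈ A, D a ≠ 0) :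
    ∃ g : Y → (Fin m → ℝ), Continuous g ∧ (∀ y, g y ≠ 0) ∧ ∀ a ∈ A, g a = D a := by
  have hD' : Continuous (A.domRestrict D) := continuousOn_iff_continuous_domRestrict.1 hD
  obtain ⟨F, hF⟩ := ContinuousMap.exists_restrict_eq hA ⟨A.domRestrict D, hD'⟩
  have hFA : ∀ a ∈ A, F a = D a := by
    intro a ha
    have := congrArg (fun k : C(A, Fin m → ℝ) => k ⟨a, ha⟩) hF
    simpa using this
  obtain ⟨g, hg, hg0, hgA⟩ := h F A F.continuous hA fun a ha => by
    rw [hFA a ha]
    exact h0 a ha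
  exact ⟨g, hg, hg0, fun a ha => (hgA a ha).trans (hFA a ha)⟩

/-! ### locally finite continuous families -/

section LFC
variable {X : Type u}

/-- continuous coordinates and locally finite supports -/
def LFC {Y : Type*} [TopologicalSpace Y] (h : Y → X → ℝ) : Prop :=
  (∀ t, Continuous fun y => h y t) ∧ LocallyFinite fun t => {y | h y t ≠ 0}

variable {Y Z : Type*} [TopologicalSpace Y] [TopologicalSpace Z]

theorem LFC.comp {h : Y → X → ℝ} (H : LFC h) {a : Z → Y} (ha : Continuous a) :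
    LFC fun z => h (a z) :=
  ⟨fun t => (H.1 t).comp ha, H.2.preimage_continuous ha⟩

theorem LFC.of_finset {h : Y → X → ℝ} (F : Finset X) (hc : ∀ t, Continuous fun y => h y t)
    (hF : ∀ y t, t ∉ F → h y t = 0) : LFC h := by
  refine ⟨hc, fun y => ⟨univ, univ_mem, ?_⟩⟩
  refine F.finite_toSet.subset fun t ht => ?_
  by_contra h'
  obtain ⟨z, hz, -⟩ := ht
  exact hz (hF z t h')

theorem LFC.add {h k : Y → X → ℝ} (H : LFC h) (K : LFC k) : LFC fun y t => h y t + k y t := by
  refine ⟨fun t => (H.1 t).add (K.1 t), fun y => ?_⟩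
  obtain ⟨V, hV, hV'⟩ := H.2 y
  obtain ⟨W, hW, hW'⟩ := K.2 y
  refine ⟨V ∩ W, inter_mem hV hW, (hV'.union hW').subset fun t ht => ?_⟩
  obtain ⟨z, hz, hzV, hzW⟩ := ht
  by_cases h0 : h z t = 0
  · right
    refine ⟨z, ?_, hzW⟩
    simpa [h0] using hz
  · left
    exact ⟨z, h0, hzV⟩

theorem LFC.smul {h : Y → X → ℝ} (H : LFC h) {a : Y → ℝ} (ha : Continuous a) :
    LFC fun y t => a y * h y t := by
  refine ⟨fun t => ha.mul (H.1 t), H.2.subset fun t y hy => ?_⟩
  simp only [mem_ofPred_eq] at hy ⊢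
  exact right_ne_zero_of_mul hy

theorem LFC.continuous {h : Y → X → ℝ} (H : LFC h) : Continuous h := continuous_pi H.1

theorem isClosed_Dl (F : Finset X) : IsClosed (Dl F) := by
  have : Dl F = {x : X → ℝ | ∀ t, 0 ≤ x t} ∩ {x | ∀ t, t ∉ F → x t = 0} ∩
      {x | ∑ t ∈ F, x t = 1} := by
    ext x
    simp [Dl, and_assoc]
  rw [this]
  refine (IsClosed.inter ?_ ?_).inter ?_
  · simp only [ofPred_forall]
    exact isClosed_iInter fun t => isClosed_le continuous_const (continuous_apply t)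
  · simp only [ofPred_forall]
    exact isClosed_iInter fun t => isClosed_iInter fun _ =>
      isClosed_eq (continuous_apply t) continuous_const
  · exact isClosed_eq (continuous_finsetSum _ fun t _ => continuous_apply t) continuous_const

/-- membership in the part over `S` of the complex `N` -/
def InN (N : Set (Finset X)) (S : Set X) (x : X → ℝ) : Prop :=
  ∃ F ∈ N, (F : Set X) ⊆ S ∧ x ∈ Dl F

/-- `N` is downward closed. -/
def DownN (N : Set (Finset X)) : Prop := ∀ F ∈ N, ∀ E ⊆ F, E.Nonempty → E ∈ N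

theorem InN.supp {N : Set (Finset X)} (hN : DownN N) {S : Set X} {x : X → ℝ}
    (h : InN N S x) : suppF x ∈ N ∧ (suppF x : Set X) ⊆ S ∧ x ∈ Dl (suppF x) := by
  obtain ⟨F, hF, hFS, hx⟩ := h
  have h1 := mem_Dl_suppF hx
  refine ⟨hN F hF _ (suppF_subset hx) ?_, ?_, h1⟩
  · obtain ⟨t, ht, -⟩ := exists_pos_of_Dl h1
    exact ⟨t, ht⟩
  · exact (Finset.coe_subset.2 (suppF_subset hx)).trans hFS

theorem cellcomp {E : Type*} [TopologicalSpace E] {N : Set (Finset X)} (hN : DownN N)
    {S : Set X} {Γ : (X → ℝ) → ℝ → E}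
    (hΓ : ∀ F ∈ N, (F : Set X) ⊆ S →
      ContinuousOn (fun q : (X → ℝ) × ℝ => Γ q.1 q.2) (Dl F ×ˢ Icc (0:ℝ) 1))
    {h : Y → X → ℝ} (H : LFC h) (hS : ∀ y, InN N S (h y)) {τ : Y → ℝ} (hτ : Continuous τ)
    (hτ1 : ∀ y, τ y ∈ Icc (0:ℝ) 1) : Continuous fun y => Γ (h y) (τ y) := by
  have hlf : LocallyFinite fun F : {F : Finset X // F ∈ N ∧ (F : Set X) ⊆ S} =>
      {y : Y | suppF (h y) = F.1} := by
    intro y
    obtain ⟨V, hV, hV'⟩ := H.2 y
    refine ⟨V, hV, ?_⟩
    have hfin : (((hV'.toFinset.powerset : Finset (Finset X)) : Set (Finset X))).Finite :=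
      Finset.finite_toSet _
    refine Finite.of_injOn (f := fun F : {F : Finset X // F ∈ N ∧ (F : Set X) ⊆ S} => F.1)
      ?_ (Subtype.val_injective.injOn) hfin
    rintro F ⟨z, hz, hzV⟩
    simp only [Finset.coe_powerset, mem_preimage, mem_powerset_iff, Finite.coe_toFinset]
    intro t ht
    refine ⟨z, ?_, hzV⟩
    rw [mem_ofPred_eq] at hz ⊢
    rw [← hz] at ht
    obtain ⟨F', -, -, hx⟩ := hS z
    exact (mem_suppF hx t).1 ht
  refine hlf.continuous' ?_ ?_
  · rw [eq_univ_iff_forall]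
    intro y
    have := (hS y).supp hN
    exact mem_iUnion.2 ⟨⟨suppF (h y), this.1, this.2.1⟩, rfl⟩
  · rintro ⟨F, hF, hFS⟩ y hy
    have hcl : IsClosed {y | h y ∈ Dl F} := (isClosed_Dl F).preimage H.continuous
    have hsub : {y : Y | suppF (h y) = F} ⊆ {y | h y ∈ Dl F} := by
      intro z hz
      rw [mem_ofPred_eq] at hz ⊢
      rw [← hz]
      exact ((hS z).supp hN).2.2
    have hy' : h y ∈ Dl F := hcl.closure_subset_iff.2 hsub hy
    have h1 := hΓ F hF hFS (h y, τ y) ⟨hy', hτ1 y⟩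
    have h2 : ContinuousWithinAt (fun y => (h y, τ y)) {y | h y ∈ Dl F} y :=
      (H.continuous.prodMk hτ).continuousWithinAt
    have h3 : ContinuousWithinAt ((fun q : (X → ℝ) × ℝ => Γ q.1 q.2) ∘ fun y => (h y, τ y))
        {y | h y ∈ Dl F} y :=
      ContinuousWithinAt.comp (t := Dl F ×ˢ Icc (0:ℝ) 1) h1 h2 (fun z hz => ⟨hz, hτ1 z⟩)
    exact h3.mono hsub

theorem Dl_combo {E F : Finset X} {x y : X → ℝ} (hx : x ∈ Dl E) (hy : y ∈ Dl F)
    {a b : ℝ} (ha : 0 ≤ a) (hb : 0 ≤ b) (hab : a + b = 1) {K : Finset X} (hE : E ⊆ K)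
    (hF : F ⊆ K) : (fun t => a * x t + b * y t) ∈ Dl K := by
  have hx' := Dl_mono hE hx
  have hy' := Dl_mono hF hy
  refine ⟨fun t => ?_, fun t ht => ?_, ?_⟩
  · have := hx'.1 t
    have := hy'.1 t
    positivity
  · simp only [hx'.2.1 t ht, hy'.2.1 t ht, mul_zero, add_zero]
  · rw [Finset.sum_add_distrib, ← Finset.mul_sum, ← Finset.mul_sum, hx'.2.2, hy'.2.2]
    simpa using hab

end LFC

/-! ### the data -/

/-- the radius function -/
theorem soft_exists_eps {X : Type u} [MetricSpace X] {j : ℕ} (f : X → (Fin j → ℝ))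
    (hf : Continuous f) (V : Set X) (hV : IsOpen V) (hV0 : ∀ y ∈ V, f y ≠ 0) :
    ∃ ε : X → ℝ, (∀ t, ∀ x ∈ ball t (ε t), ∀ x' ∈ ball t (ε t), x ∈ V ∧
      ‖f x - f x'‖ ≤ ‖f x‖ / 8) ∧ ∀ y ∈ V, ∃ δ > 0, ∀ t, dist t y < δ → y ∈ ball t (ε t) := by
  let P : X → ℝ → Prop := fun t r => ∀ x ∈ ball t r, ∀ x' ∈ ball t r, x ∈ V ∧
      ‖f x - f x'‖ ≤ ‖f x‖ / 8
  let S : X → Set ℝ := fun t => {r | r ∈ Icc (0:ℝ) 1 ∧ P t r}
  have hS0 : ∀ t, 0 ∈ S t := fun t => ⟨by simp, by simp [P]⟩
  have hSb : ∀ t, BddAbove (S t) := fun t => ⟨1, fun r hr => hr.1.2⟩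
  let ε : X → ℝ := fun t => sSup (S t)
  have hPε : ∀ t, P t (ε t) := by
    intro t x hx x' hx'
    rw [mem_ball] at hx hx'
    have h := max_lt hx hx'
    obtain ⟨r, hr, hr'⟩ := exists_lt_of_lt_csSup ⟨0, hS0 t⟩ h
    exact hr.2 x (mem_ball.2 ((le_max_left _ _).trans_lt hr')) x'
      (mem_ball.2 ((le_max_right _ _).trans_lt hr'))
  have hlip : ∀ y z, ε y - dist z y ≤ ε z := by
    intro y z
    by_cases h : ε y - dist z y ≤ 0
    · exact h.trans (le_csSup (hSb z) (hS0 z))
    · push Not at h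
      refine le_csSup (hSb z) ⟨⟨h.le, ?_⟩, ?_⟩
      · have : ε y ≤ 1 := csSup_le ⟨0, hS0 y⟩ fun r hr => hr.1.2
        have := dist_nonneg (x := z) (y := y)
        linarith
      · have hsub : ball z (ε y - dist z y) ⊆ ball y (ε y) := by
          apply ball_subset_ball'
          linarith
        intro x hx x' hx'
        exact hPε y x (hsub hx) x' (hsub hx')
  have hpos : ∀ y ∈ V, 0 < ε y := by
    intro y hy
    have h0 : 0 < ‖f y‖ := norm_pos_iff.2 (hV0 y hy)
    have h1a : ∀ᶠ x in 𝓝 y, x ∈ V := hV.mem_nhds hy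
    have h1 : ∀ᶠ x in 𝓝 y, x ∈ V ∧ dist (f x) (f y) < ‖f y‖ / 32 :=
      h1a.and (Metric.tendsto_nhds.1 hf.continuousAt.tendsto _ (by positivity))
    obtain ⟨r, hr, hr'⟩ := Metric.eventually_nhds_iff.1 h1
    have hm : min r 1 ∈ S y := by
      refine ⟨⟨by positivity, min_le_right _ _⟩, fun x hx x' hx' => ?_⟩
      have hx1 := hr' (lt_of_lt_of_le (mem_ball.1 hx) (min_le_left _ _))
      have hx2 := hr' (lt_of_lt_of_le (mem_ball.1 hx') (min_le_left _ _))
      refine ⟨hx1.1, ?_⟩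
      have e1 : ‖f x - f x'‖ ≤ dist (f x) (f y) + dist (f x') (f y) := by
        rw [← dist_eq_norm]
        exact dist_triangle_right _ _ _
      have e2 : ‖f y‖ ≤ ‖f x‖ + dist (f x) (f y) := by
        rw [dist_comm, dist_eq_norm]
        have := norm_add_le (f x) (f y - f x)
        simpa using this
      linarith [hx1.2, hx2.2]
    exact lt_of_lt_of_le (by positivity) (le_csSup (hSb y) hm)
  refine ⟨ε, hPε, fun y hy => ⟨ε y / 2, half_pos (hpos y hy), fun t ht => ?_⟩⟩
  rw [mem_ball, dist_comm]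
  have := hlip y t
  linarith

/-- All the fixed data of the soft step. -/
structure SDat {X : Type u} [MetricSpace X] {c : ℝ} (U : UC X c) (j : ℕ) where
  f : X → (Fin j → ℝ)
  hf : Continuous f
  V : Set X
  hV : IsOpen V
  hV0 : ∀ y ∈ V, f y ≠ 0
  ε : X → ℝ
  hE1 : ∀ t, ∀ x ∈ ball t (ε t), ∀ x' ∈ ball t (ε t), x ∈ V ∧ ‖f x - f x'‖ ≤ ‖f x‖ / 8
  hE2 : ∀ y ∈ V, ∃ δ > 0, ∀ t, dist t y < δ → y ∈ ball t (ε t)
  T : Set X
  p : Finset X → X
  hp : ∀ F : Finset X, (F : Set X) ⊆ T → (∃ y, ∀ t ∈ F, y ∈ ball t (ε t)) →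
    ∀ t ∈ F, p F ∈ ball t (ε t)
  x0 : X
  e : Fin j → ℝ
  he : e ≠ 0
  hc : 0 < c

namespace SDat

variable {X : Type u} [MetricSpace X] {c : ℝ} {U : UC X c} {j : ℕ} (D : SDat U j)

/-- the nerve -/
def N : Set (Finset X) :=
  {F | F.Nonempty ∧ (F : Set X) ⊆ D.T ∧ ∃ y, ∀ t ∈ F, y ∈ ball t (D.ε t)}

theorem down : DownN D.N := by
  rintro F ⟨-, hT, y, hy⟩ E hE hne
  exact ⟨hne, (Finset.coe_subset.2 hE).trans hT, y, fun t ht => hy t (hE ht)⟩

/-- the affine map on the nerve -/
noncomputable def gg (x : X → ℝ) : Fin j → ℝ := ∑ᶠ t, x t • D.f t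

theorem gg_eq {F : Finset X} {x : X → ℝ} (hx : x ∈ Dl F) : D.gg x = ∑ t ∈ F, x t • D.f t := by
  unfold gg
  rw [finsum_eq_sum_of_support_subset]
  intro t ht
  by_contra h
  apply ht
  simp [hx.2.1 t (by simpa using h)]

theorem gg_near {F : Finset X} {x : X → ℝ} (hx : x ∈ Dl F) {y : X}
    (hy : ∀ t, x t ≠ 0 → y ∈ ball t (D.ε t)) : ‖D.gg x - D.f y‖ ≤ ‖D.f y‖ / 8 := by
  rw [D.gg_eq hx]
  have h1 : D.f y = ∑ t ∈ F, x t • D.f y := by rw [← Finset.sum_smul, hx.2.2, one_smul]
  have h2 : ∑ t ∈ F, x t • D.f t - D.f y = ∑ t ∈ F, x t • (D.f t - D.f y) := by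
    conv_lhs => rw [h1]
    rw [← Finset.sum_sub_distrib]
    simp only [smul_sub]
  rw [h2]
  refine (norm_sum_le _ _).trans ?_
  have h3 : ∀ t ∈ F, ‖x t • (D.f t - D.f y)‖ ≤ x t * (‖D.f y‖ / 8) := by
    intro t ht
    rw [norm_smul, Real.norm_of_nonneg (hx.1 t)]
    by_cases h0 : x t = 0
    · simp [h0]
    · have hyt := hy t h0
      have htt : t ∈ ball t (D.ε t) := by
        rw [mem_ball, dist_self]
        exact dist_nonneg.trans_lt (mem_ball.1 hyt)
      have := (D.hE1 t y hyt t htt).2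
      rw [norm_sub_rev]
      exact mul_le_mul_of_nonneg_left this (hx.1 t)
  refine (Finset.sum_le_sum h3).trans ?_
  rw [← Finset.sum_mul, hx.2.2, one_mul]

theorem gg_ne {F : Finset X} (hF : F ∈ D.N) {x : X → ℝ} (hx : x ∈ Dl F) : D.gg x ≠ 0 := by
  obtain ⟨⟨t, ht⟩, -, y, hy⟩ := hF
  have hyV : y ∈ D.V := (D.hE1 t y (hy t ht) y (hy t ht)).1
  have h := D.gg_near hx (y := y) fun t ht => hy t (by
    by_contra h
    exact ht (hx.2.1 t h))
  intro h0
  rw [h0, zero_sub, norm_neg] at h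
  have := norm_pos_iff.2 (D.hV0 y hyV)
  linarith

theorem gg_continuousOn (F : Finset X) : ContinuousOn D.gg (Dl F) := by
  have : ContinuousOn (fun x : X → ℝ => ∑ t ∈ F, x t • D.f t) (Dl F) := by fun_prop
  exact this.congr fun x hx => D.gg_eq hx

/-! ### the partition of unity -/

/-- A map to the nerve of the closed set `closure S' ∩ V`, preserving `S`. -/
structure Phi (S S' : Set X) where
  φ : X → X → ℝ
  mem : ∀ y ∈ D.V, y ∈ closure S' → ∃ F ∈ D.N, (F : Set X) ⊆ S' ∧ φ y ∈ Dl F ∧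
    (∀ t ∈ F, y ∈ ball t (D.ε t)) ∧ (y ∈ closure S → (F : Set X) ⊆ S)
  lfc : LFC fun y : {y // y ∈ D.V ∧ y ∈ closure S'} => φ y.1

theorem nonempty_phi {S S' : Set X} (hS : S ⊆ S') (hT : S' ⊆ D.T) : Nonempty (D.Phi S S') := by
  classical
  let Y := {y // y ∈ D.V ∧ y ∈ closure S'}
  let W : X → Set Y := fun t => {y | t ∈ S' ∧ y.1 ∈ ball t (D.ε t) ∧ (t ∈ S ∨ y.1 ∉ closure S)}
  have hWo : ∀ t, IsOpen (W t) := by
    intro t
    by_cases h1 : t ∈ S'
    · by_cases h2 : t ∈ S
      · have : W t = Subtype.val ⁻¹' ball t (D.ε t) := by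
          ext y; simp [W, h1, h2]
        rw [this]
        exact isOpen_ball.preimage continuous_subtype_val
      · have : W t = Subtype.val ⁻¹' (ball t (D.ε t) ∩ (closure S)ᶜ) := by
          ext y; simp [W, h1, h2]
        rw [this]
        exact (isOpen_ball.inter isClosed_closure.isOpen_compl).preimage continuous_subtype_val
    · have : W t = ∅ := by
        ext y; simp [W, h1]
      rw [this]
      exact isOpen_empty
  have hcov : (univ : Set Y) ⊆ ⋃ t, W t := by
    rintro ⟨y, hyV, hy⟩ -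
    obtain ⟨δ, hδ, hδ'⟩ := D.hE2 y hyV
    by_cases h : y ∈ closure S
    · obtain ⟨t, ht, htd⟩ := Metric.mem_closure_iff.1 h δ hδ
      rw [dist_comm] at htd
      exact mem_iUnion.2 ⟨t, hS ht, hδ' t htd, Or.inl ht⟩
    · obtain ⟨t, ht, htd⟩ := Metric.mem_closure_iff.1 hy δ hδ
      rw [dist_comm] at htd
      exact mem_iUnion.2 ⟨t, ht, hδ' t htd, Or.inr h⟩
  obtain ⟨ρ, hρ⟩ := PartitionOfUnity.exists_isSubordinate isClosed_univ W hWo hcov
  refine ⟨⟨fun y t => if h : y ∈ D.V ∧ y ∈ closure S' then ρ t ⟨y, h⟩ else 0, ?_, ?_⟩⟩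
  · intro y hyV hy
    have hpos : ∀ t, ρ t ⟨y, hyV, hy⟩ ≠ 0 → (⟨y, hyV, hy⟩ : Y) ∈ W t := fun t ht =>
      hρ t (subset_tsupport _ ht)
    have hfin : (Function.support fun t => ρ t ⟨y, hyV, hy⟩).Finite :=
      ρ.locallyFinite.point_finite _
    have hsum := ρ.sum_eq_one (mem_univ (⟨y, hyV, hy⟩ : Y))
    have hmem : ∀ t ∈ hfin.toFinset, (⟨y, hyV, hy⟩ : Y) ∈ W t := by
      intro t ht
      exact hpos t (by simpa using ht)
    rw [finsum_eq_sum_of_support_subset (s := hfin.toFinset) _ (by simp)] at hsum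
    refine ⟨hfin.toFinset, ⟨?_, ?_, y, ?_⟩, ?_, ⟨?_, ?_, ?_⟩, ?_, ?_⟩
    · rw [Finset.nonempty_iff_ne_empty]
      intro h0
      rw [h0] at hsum
      simp at hsum
    · intro t ht
      exact hT (hmem t ht).1
    · intro t ht
      exact (hmem t ht).2.1
    · intro t ht
      exact (hmem t ht).1
    · intro t
      simp only [hyV, hy, and_self, dite_true]
      exact ρ.nonneg t _
    · intro t ht
      simp only [hyV, hy, and_self, dite_true]
      simpa using ht
    · simp only [hyV, hy, and_self, dite_true]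
      exact hsum
    · intro t ht
      exact (hmem t ht).2.1
    · intro hyS t ht
      exact (hmem t ht).2.2.resolve_right fun h => h hyS
  · have h1 : (fun y : Y => fun t => if h : y.1 ∈ D.V ∧ y.1 ∈ closure S' then ρ t ⟨y.1, h⟩
        else 0) = fun y t => ρ t y := by
      funext y t
      exact dif_pos y.2
    change LFC (fun y : Y => fun t => if h : y.1 ∈ D.V ∧ y.1 ∈ closure S' then ρ t ⟨y.1, h⟩
        else 0)
    rw [h1]
    exact ⟨fun t => (ρ t).continuous, ρ.locallyFinite⟩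

end SDat

namespace SDat

variable {X : Type u} [MetricSpace X] {c : ℝ} {U : UC X c} {j : ℕ} (D : SDat U j)

/-- good vertex sets -/
structure Good (S : Set X) : Prop where
  sub : S ⊆ D.T
  conv : U.ConvexSet (closure S)
  pf : ∀ F ∈ D.N, (F : Set X) ⊆ S → D.p F ∈ S

theorem good_empty : D.Good ∅ := by
  refine ⟨empty_subset _, ?_, ?_⟩
  · intro x hx
    simp at hx
  · rintro F ⟨⟨t, ht⟩, -⟩ hF
    exact (hF ht).elim

/-- the map to the space -/
noncomputable def ψ (x : X → ℝ) : X := psi U D.x0 D.p x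

variable {D} {S S' : Set X}

theorem lev_mem {F : Finset X} (hF : F ∈ D.N) {x : X → ℝ} (hx : x ∈ Dl F) {L : Finset X}
    (hL : L ⊆ F) (h : ∀ t, qq x ≤ x t → t ∈ L) : L ∈ D.N := by
  refine D.down F hF L hL ?_
  obtain ⟨t, ht, htt⟩ := exists_big hx
  exact ⟨t, h t htt.le⟩

theorem psi_closure (hS : D.Good S) {x : X → ℝ} (hx : InN D.N S x) : D.ψ x ∈ closure S := by
  obtain ⟨F, hF, hFS, hxF⟩ := hx
  refine psi_mem U D.x0 D.p hxF hS.conv fun L hL _ h => subset_closure ?_
  exact hS.pf L (lev_mem hF hxF hL h) ((Finset.coe_subset.2 hL).trans hFS)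

theorem psi_ball {x : X → ℝ} (hx : InN D.N S x) {t : X} (ht : qq x < x t) :
    D.ψ x ∈ ball t (D.ε t) := by
  obtain ⟨F, hF, hFS, hxF⟩ := hx
  refine psi_mem U D.x0 D.p hxF (soft_ball_convex U D.hc t _) fun L hL _ h => ?_
  have hLN := lev_mem hF hxF hL h
  exact D.hp L hLN.2.1 hLN.2.2 t (h t ht.le)

theorem psi_V {x : X → ℝ} (hx : InN D.N S x) : D.ψ x ∈ D.V := by
  obtain ⟨F, hF, hFS, hxF⟩ := id hx
  obtain ⟨t, -, ht⟩ := exists_big hxF
  have h := psi_ball hx ht
  exact (D.hE1 t _ h _ h).1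

/-- the homotopy from the identity to `φ ∘ ψ` -/
noncomputable def ee (P : D.Phi S S') (u : ℝ) (x : X → ℝ) (t : X) : ℝ :=
  max 0 (1 - 2 * u) * x t + (1 - |2 * u - 1|) * th x t + max 0 (2 * u - 1) * P.φ (D.ψ x) t

theorem ee_zero (P : D.Phi S S') (x : X → ℝ) : ee P 0 x = x := by
  funext t
  simp [ee]

theorem ee_one (P : D.Phi S S') (x : X → ℝ) : ee P 1 x = P.φ (D.ψ x) := by
  funext t
  simp only [ee]
  norm_num

theorem ee_mem' (P : D.Phi S S') (hS' : D.Good S') {u : ℝ} (hu : u ∈ Icc (0:ℝ) 1) {x : X → ℝ}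
    {R : Set X} (hRS : R ⊆ S') (hx : InN D.N R x)
    (hφ : ∀ F : Finset X, F ∈ D.N → (F : Set X) ⊆ S' →
      (D.ψ x ∈ closure S → (F : Set X) ⊆ S) → (F : Set X) ⊆ R) :
    InN D.N R (ee P u x) := by
  classical
  have hx' : InN D.N S' x := by
    obtain ⟨F, hF, hFR, hxF⟩ := hx
    exact ⟨F, hF, hFR.trans hRS, hxF⟩
  rcases le_total u (1/2) with h | h
  · obtain ⟨F, hF, hFR, hxF⟩ := hx
    refine ⟨F, hF, hFR, ?_⟩
    have h1 : ee P u x = fun t => (1 - 2 * u) * x t + (2 * u) * th x t := by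
      funext t
      simp only [ee]
      rw [max_eq_right (by linarith), max_eq_left (by linarith),
        abs_of_nonpos (by linarith)]
      ring
    rw [h1]
    exact Dl_combo hxF (th_mem hxF) (by linarith) (by linarith [hu.1]) (by ring)
      subset_rfl subset_rfl
  · obtain ⟨F, hF, hFR, hxF⟩ := hx
    have hV := psi_V hx'
    have hcl := psi_closure hS' hx'
    obtain ⟨F2, hF2, hF2S, hφ2, hF2b, hF2c⟩ := P.mem _ hV hcl
    have hF2R := hφ F2 hF2 hF2S hF2c
    have hth := th_mem hxF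
    have hth' := mem_Dl_suppF hth
    have h1 : ee P u x = fun t => (2 - 2 * u) * th x t + (2 * u - 1) * P.φ (D.ψ x) t := by
      funext t
      simp only [ee]
      rw [max_eq_left (by linarith), max_eq_right (by linarith),
        abs_of_nonneg (by linarith)]
      ring
    rw [h1]
    have hR : ((suppF (th x) ∪ F2 : Finset X) : Set X) ⊆ R := by
      rw [Finset.coe_union]
      exact union_subset ((Finset.coe_subset.2 (suppF_subset hth)).trans hFR) hF2R
    refine ⟨suppF (th x) ∪ F2, ⟨?_, hR.trans (hRS.trans hS'.sub), D.ψ x, ?_⟩, hR,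
      Dl_combo hth' hφ2 (by linarith [hu.2]) (by linarith) (by ring)
        Finset.subset_union_left Finset.subset_union_right⟩
    · exact hF2.1.mono Finset.subset_union_right
    · intro t ht
      rcases Finset.mem_union.1 ht with ht | ht
      · exact psi_ball hx' (th_supp ((mem_suppF hth t).1 ht))
      · exact hF2b t ht

theorem ee_mem (P : D.Phi S S') (hS' : D.Good S') {u : ℝ} (hu : u ∈ Icc (0:ℝ) 1) {x : X → ℝ}
    (hx : InN D.N S' x) : InN D.N S' (ee P u x) :=
  ee_mem' P hS' hu subset_rfl hx fun _ _ h _ => h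

theorem ee_memS (P : D.Phi S S') (hSS : S ⊆ S') (hS : D.Good S) (hS' : D.Good S') {u : ℝ}
    (hu : u ∈ Icc (0:ℝ) 1) {x : X → ℝ}
    (hx : InN D.N S x) : InN D.N S (ee P u x) :=
  ee_mem' P hS' hu hSS hx fun _ _ _ h => h (psi_closure hS hx)

theorem ee_lfc (P : D.Phi S S') (hS' : D.Good S') {F : Finset X} (hF : F ∈ D.N)
    (hFS : (F : Set X) ⊆ S') {Z : Type u} [TopologicalSpace Z] {R : Z → X → ℝ}
    (hR : Continuous R) (hRF : ∀ z, R z ∈ Dl F) {u : Z → ℝ} (hu : Continuous u) :
    LFC fun z => ee P (u z) (R z) := by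
  have h1 : LFC R := LFC.of_finset F (fun t => (continuous_apply t).comp hR)
    fun z t ht => (hRF z).2.1 t ht
  have h2 : LFC fun z => th (R z) := LFC.of_finset F
    (fun t => (th_continuousOn F t).comp_continuous hR hRF)
    fun z t ht => (th_mem (hRF z)).2.1 t ht
  have hin : ∀ z, InN D.N S' (R z) := fun z => ⟨F, hF, hFS, hRF z⟩
  have h3 : Continuous fun z => D.ψ (R z) :=
    (psi_continuousOn U D.x0 D.p D.hc F).comp_continuous hR hRF
  have h4 : LFC fun z => P.φ (D.ψ (R z)) :=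
    P.lfc.comp (a := fun z => ⟨D.ψ (R z), psi_V (hin z), psi_closure hS' (hin z)⟩)
      (h3.subtype_mk _)
  exact ((h1.smul (a := fun z => max 0 (1 - 2 * u z)) (by fun_prop)).add
    (h2.smul (a := fun z => 1 - |2 * u z - 1|) (by fun_prop))).add
    (h4.smul (a := fun z => max 0 (2 * u z - 1)) (by fun_prop))

variable (D) in
/-- a null homotopy of `gg` over `S` -/
def NH (S : Set X) (G : (X → ℝ) → ℝ → (Fin j → ℝ)) : Prop :=
  ∀ F ∈ D.N, (F : Set X) ⊆ S →
    ContinuousOn (fun q : (X → ℝ) × ℝ => G q.1 q.2) (Dl F ×ˢ Icc (0:ℝ) 1) ∧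
    ∀ x ∈ Dl F, G x 0 = D.gg x ∧ G x 1 = D.e ∧ ∀ τ ∈ Icc (0:ℝ) 1, G x τ ≠ 0

theorem ggcomp {Y : Type*} [TopologicalSpace Y] {h : Y → X → ℝ} (H : LFC h)
    (hS : ∀ y, InN D.N S (h y)) : Continuous fun y => D.gg (h y) := by
  refine cellcomp (Γ := fun x _ => D.gg x) (τ := fun _ => 0) D.down ?_ H hS continuous_const
    (by simp)
  intro F hF hFS
  exact (D.gg_continuousOn F).comp continuousOn_fst fun q hq => hq.1

theorem exists_HH (P : D.Phi S S') (hSS : S ⊆ S') {G : (X → ℝ) → ℝ → (Fin j → ℝ)}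
    (hG : D.NH S G) (hNZ : NZ j (↥(closure S') × ↥(Icc (0:ℝ) 1))) :
    ∃ HH : X → ℝ → (Fin j → ℝ), (∀ y ∈ D.V, y ∈ closure S' → ∀ τ ∈ Icc (0:ℝ) 1, HH y τ ≠ 0) ∧
      (∀ y ∈ D.V, y ∈ closure S' → HH y 0 = D.gg (P.φ y) ∧ HH y 1 = D.e) ∧
      (∀ y ∈ D.V, y ∈ closure S → ∀ τ ∈ Icc (0:ℝ) 1, HH y τ = G (P.φ y) τ) ∧
      ∀ (Z : Type u) [TopologicalSpace Z] (a : Z → X) (b : Z → ℝ), Continuous a →
        Continuous b → (∀ z, a z ∈ D.V ∧ a z ∈ closure S') → (∀ z, b z ∈ Icc (0:ℝ) 1) →
        Continuous fun z => HH (a z) (b z) := by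
  classical
  have hcl : closure S ⊆ closure S' := closure_mono hSS
  let Vq : Set (↥(closure S') × ↥(Icc (0:ℝ) 1)) := {q | q.1.1 ∈ D.V}
  have hVq : IsOpen Vq :=
    D.hV.preimage (continuous_subtype_val.comp continuous_fst)
  have hNZ' := hNZ.isOpen hVq
  let τ : Vq → ℝ := fun q => q.1.2.1
  let pr : Vq → X := fun q => q.1.1.1
  have hτ : Continuous τ := by fun_prop
  have hpr : Continuous pr := by fun_prop
  have hprm : ∀ q, pr q ∈ D.V ∧ pr q ∈ closure S' := fun q => ⟨q.2, q.1.1.2⟩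
  let D0 : Vq → (Fin j → ℝ) := fun q =>
    if τ q = 0 then D.gg (P.φ (pr q)) else if τ q = 1 then D.e else G (P.φ (pr q)) (τ q)
  have hlfc : LFC fun q : Vq => P.φ (pr q) :=
    P.lfc.comp (a := fun q : Vq => ⟨pr q, hprm q⟩) (hpr.subtype_mk _)
  have hin : ∀ q : Vq, InN D.N S' (P.φ (pr q)) := fun q => by
    obtain ⟨F, hF, hFS, hx, -⟩ := P.mem _ (hprm q).1 (hprm q).2
    exact ⟨F, hF, hFS, hx⟩
  have hinS : ∀ q : Vq, pr q ∈ closure S → InN D.N S (P.φ (pr q)) := fun q hq => by
    obtain ⟨F, hF, hFS, hx, -, h⟩ := P.mem _ (hprm q).1 (hprm q).2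
    exact ⟨F, hF, h hq, hx⟩
  let A0 : Set Vq := {q | τ q = 0}
  let A1 : Set Vq := {q | τ q = 1}
  let A2 : Set Vq := {q | pr q ∈ closure S}
  have hA0 : IsClosed A0 := isClosed_eq hτ continuous_const
  have hA1 : IsClosed A1 := isClosed_eq hτ continuous_const
  have hA2 : IsClosed A2 := isClosed_closure.preimage hpr
  have hD2 : ∀ q ∈ A2, D0 q = G (P.φ (pr q)) (τ q) := by
    intro q hq
    obtain ⟨F, hF, hFS, hx⟩ := hinS q hq
    have h := (hG F hF hFS).2 _ hx
    simp only [D0]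
    split_ifs with h0 h1
    · rw [h0, h.1]
    · rw [h1, h.2.1]
    · rfl
  have hC0 : ContinuousOn D0 A0 := by
    have : Continuous fun q : Vq => D.gg (P.φ (pr q)) := ggcomp hlfc hin
    refine this.continuousOn.congr fun q hq => ?_
    have hq : τ q = 0 := hq
    simp [D0, hq]
  have hC1 : ContinuousOn D0 A1 := by
    refine (continuousOn_const (c := D.e)).congr fun q hq => ?_
    have hq : τ q = 1 := hq
    simp [D0, hq]
  have hC2 : ContinuousOn D0 A2 := by
    have h : Continuous fun q : A2 => G (P.φ (pr q.1)) (τ q.1) :=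
      cellcomp (S := S) (Γ := G) D.down (fun F hF hFS => (hG F hF hFS).1)
        (hlfc.comp continuous_subtype_val) (fun q => hinS q.1 q.2)
        (hτ.comp continuous_subtype_val) fun q => q.1.1.2.2
    have h' : ContinuousOn (fun q : Vq => G (P.φ (pr q)) (τ q)) A2 :=
      continuousOn_iff_continuous_domRestrict.2 h
    exact h'.congr hD2
  have hCA : ContinuousOn D0 (A0 ∪ A1 ∪ A2) :=
    (hC0.union_of_isClosed hC1 hA0 hA1).union_of_isClosed hC2 (hA0.union hA1) hA2
  obtain ⟨g, hg, hg0, hgA⟩ := nz_extend_closed hNZ' ((hA0.union hA1).union hA2) D0 hCA (by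
    rintro q ((hq | hq) | hq)
    · have hq : τ q = 0 := hq
      obtain ⟨F, hF, hFS, hx⟩ := hin q
      simp only [D0, hq, if_true]
      exact D.gg_ne hF hx
    · have hq : τ q = 1 := hq
      simp only [D0, hq, one_ne_zero, if_true, if_false]
      exact D.he
    · obtain ⟨F, hF, hFS, hx⟩ := hinS q hq
      rw [hD2 q hq]
      exact ((hG F hF hFS).2 _ hx).2.2 _ q.1.2.2)
  let mk : ∀ (y : X) (s : ℝ), (y ∈ D.V ∧ y ∈ closure S') ∧ s ∈ Icc (0:ℝ) 1 → Vq :=
    fun y s h => ⟨(⟨y, h.1.2⟩, ⟨s, h.2⟩), h.1.1⟩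
  let HH : X → ℝ → (Fin j → ℝ) := fun y s =>
    if h : (y ∈ D.V ∧ y ∈ closure S') ∧ s ∈ Icc (0:ℝ) 1 then g (mk y s h) else 0
  have hHH : ∀ y s (h : (y ∈ D.V ∧ y ∈ closure S') ∧ s ∈ Icc (0:ℝ) 1),
      HH y s = g (mk y s h) := fun y s h => dif_pos h
  refine ⟨HH, ?_, ?_, ?_, ?_⟩
  · intro y hy hy' s hs
    rw [hHH y s ⟨⟨hy, hy'⟩, hs⟩]
    exact hg0 _
  · intro y hy hy'
    constructor
    · rw [hHH y 0 ⟨⟨hy, hy'⟩, by simp⟩, hgA _ (Or.inl (Or.inl rfl))]
      exact if_pos rfl
    · rw [hHH y 1 ⟨⟨hy, hy'⟩, by simp⟩, hgA _ (Or.inl (Or.inr rfl))]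
      simp [D0, mk, τ]
  · intro y hy hy' s hs
    rw [hHH y s ⟨⟨hy, hcl hy'⟩, hs⟩, hgA _ (Or.inr hy'), hD2 _ hy']
  · intro Z _ a b ha hb haz hbz
    have : (fun z => HH (a z) (b z)) = fun z => g (mk (a z) (b z) ⟨haz z, hbz z⟩) := by
      funext z
      exact hHH _ _ ⟨haz z, hbz z⟩
    rw [this]
    refine hg.comp ?_
    exact ((ha.subtype_mk _).prodMk (hb.subtype_mk _)).subtype_mk _

end SDat

/-! ### truncation off `S` -/

section Trunc
variable {X : Type u} (S : Set X)

open Classical in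
/-- mass off `S` above the level `s` -/
noncomputable def au (x : X → ℝ) (s : ℝ) : ℝ := ∑ᶠ t, if t ∈ S then 0 else max (x t - s) 0

open Classical in
/-- truncation off `S` at level `s`, the mass is moved to `S`. -/
noncomputable def RR (x : X → ℝ) (s : ℝ) (t : X) : ℝ :=
  if t ∈ S then x t * (1 + (au S x 0 - au S x s) / max (1 - au S x 0) (1/2))
  else max (x t - s) 0

variable {S} {F : Finset X} {x : X → ℝ}

open Classical in
theorem au_eq (hx : x ∈ Dl F) {s : ℝ} (hs : 0 ≤ s) :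
    au S x s = ∑ t ∈ F, if t ∈ S then 0 else max (x t - s) 0 := by
  unfold au
  rw [finsum_eq_sum_of_support_subset]
  intro t ht
  by_contra h
  apply ht
  have h0 : x t = 0 := hx.2.1 t (by simpa using h)
  simp only [h0, zero_sub]
  split_ifs
  · rfl
  · exact max_eq_right (by linarith)

theorem au_nonneg (hx : x ∈ Dl F) {s : ℝ} (hs : 0 ≤ s) : 0 ≤ au S x s := by
  classical
  rw [au_eq hx hs]
  refine Finset.sum_nonneg fun t _ => ?_
  split_ifs
  · exact le_rfl
  · exact le_max_right _ _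

theorem au_le (hx : x ∈ Dl F) {s : ℝ} (hs : 0 ≤ s) : au S x s ≤ au S x 0 := by
  classical
  rw [au_eq hx hs, au_eq hx le_rfl]
  refine Finset.sum_le_sum fun t _ => ?_
  split_ifs
  · exact le_rfl
  · exact max_le_max (by linarith) le_rfl

open Classical in
theorem au_zero (hx : x ∈ Dl F) : au S x 0 = ∑ t ∈ F, if t ∈ S then 0 else x t := by
  rw [au_eq hx le_rfl]
  refine Finset.sum_congr rfl fun t _ => ?_
  split_ifs
  · rfl
  · rw [sub_zero, max_eq_left (hx.1 t)]

theorem au_le_one (hx : x ∈ Dl F) : au S x 0 ≤ 1 := by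
  classical
  rw [au_zero hx, ← hx.2.2]
  refine Finset.sum_le_sum fun t _ => ?_
  split_ifs
  · exact hx.1 t
  · exact le_rfl

theorem le_au (hx : x ∈ Dl F) {t : X} (ht : t ∉ S) : x t ≤ au S x 0 := by
  classical
  rw [au_zero hx]
  by_cases h : t ∈ F
  · have := Finset.single_le_sum (f := fun t => if t ∈ S then (0:ℝ) else x t) (s := F)
      (fun i _ => by split_ifs; exacts [le_rfl, hx.1 i]) h
    simpa only [if_neg ht] using this
  · rw [hx.2.1 t h]
    refine Finset.sum_nonneg fun t _ => ?_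
    split_ifs
    · exact le_rfl
    · exact hx.1 t

theorem au_S (hx : x ∈ Dl F) (hF : (F : Set X) ⊆ S) : au S x 0 = 0 := by
  classical
  rw [au_zero hx]
  refine Finset.sum_eq_zero fun t ht => ?_
  rw [if_pos (hF ht)]

theorem RR_mem (hx : x ∈ Dl F) {s : ℝ} (hs : 0 ≤ s) (h : s = 0 ∨ au S x 0 ≤ 1/2) :
    RR S x s ∈ Dl F := by
  classical
  have h1 := au_le (S := S) hx hs
  refine ⟨fun t => ?_, fun t ht => ?_, ?_⟩
  · unfold RR
    split_ifs
    · have := hx.1 t
      have h2 : 0 < max (1 - au S x 0) (1/2) := by positivity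
      have h3 : 0 ≤ au S x 0 - au S x s := by linarith
      positivity
    · exact le_max_right _ _
  · unfold RR
    rw [hx.2.1 t ht]
    split_ifs
    · simp
    · exact max_eq_right (by linarith)
  · have e1 : ∑ t ∈ F, RR S x s t = (∑ t ∈ F, if t ∈ S then x t else 0) *
        (1 + (au S x 0 - au S x s) / max (1 - au S x 0) (1/2)) + au S x s := by
      rw [au_eq hx hs, Finset.sum_mul, ← Finset.sum_add_distrib]
      refine Finset.sum_congr rfl fun t _ => ?_
      unfold RR
      rw [au_eq hx hs]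
      split_ifs
      · simp
      · simp
    have e2 : (∑ t ∈ F, if t ∈ S then x t else 0) = 1 - au S x 0 := by
      rw [au_zero hx, ← hx.2.2, ← Finset.sum_sub_distrib]
      refine Finset.sum_congr rfl fun t _ => ?_
      split_ifs <;> simp
    rw [e1, e2]
    rcases h with h | h
    · rw [h]
      simp
    · rw [max_eq_left (by linarith)]
      have : 1 - au S x 0 ≠ 0 := by linarith
      field_simp
      ring

open Classical in
theorem RR_mem_S (hx : x ∈ Dl F) {s : ℝ} (h : au S x 0 ≤ 1/2) (hs : au S x 0 ≤ s) :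
    RR S x s ∈ Dl (F.filter (· ∈ S)) := by
  have hs0 : 0 ≤ s := (au_nonneg hx le_rfl).trans hs
  have hR := RR_mem (S := S) hx hs0 (Or.inr h)
  have h0 : ∀ t, t ∉ S → RR S x s t = 0 := by
    intro t ht
    unfold RR
    rw [if_neg ht]
    have := le_au hx ht
    exact max_eq_right (by linarith)
  refine ⟨hR.1, fun t ht => ?_, ?_⟩
  · by_cases h1 : t ∈ F
    · exact h0 t fun h2 => ht (Finset.mem_filter.2 ⟨h1, h2⟩)
    · exact hR.2.1 t h1
  · rw [← hR.2.2]
    refine Finset.sum_subset (Finset.filter_subset _ _) fun t ht ht' => ?_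
    exact h0 t fun h2 => ht' (Finset.mem_filter.2 ⟨ht, h2⟩)

theorem RR_zero (hx : x ∈ Dl F) : RR S x 0 = x := by
  funext t
  unfold RR
  split_ifs
  · simp
  · rw [sub_zero, max_eq_left (hx.1 t)]

theorem au_cont {Z : Type*} [TopologicalSpace Z] {x : Z → X → ℝ} {s : Z → ℝ}
    (hx : Continuous x) (hxF : ∀ z, x z ∈ Dl F) (hs : Continuous s) (hs0 : ∀ z, 0 ≤ s z) :
    Continuous fun z => au S (x z) (s z) := by
  classical
  have h : (fun z => au S (x z) (s z)) =
      fun z => ∑ t ∈ F, if t ∈ S then 0 else max (x z t - s z) 0 := by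
    funext z
    exact au_eq (hxF z) (hs0 z)
  rw [h]
  refine continuous_finsetSum _ fun t _ => ?_
  have : Continuous fun z => x z t := (continuous_apply t).comp hx
  split_ifs
  · exact continuous_const
  · fun_prop

theorem RR_cont {Z : Type*} [TopologicalSpace Z] {x : Z → X → ℝ} {s : Z → ℝ}
    (hx : Continuous x) (hxF : ∀ z, x z ∈ Dl F) (hs : Continuous s) (hs0 : ∀ z, 0 ≤ s z) :
    Continuous fun z => RR S (x z) (s z) := by
  classical
  refine continuous_pi fun t => ?_
  have h1 := au_cont (S := S) hx hxF hs hs0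
  have h2 := au_cont (S := S) hx hxF continuous_const fun _ => le_rfl
  have h3 : Continuous fun z => x z t := (continuous_apply t).comp hx
  unfold RR
  split_ifs
  · refine h3.mul (continuous_const.add ((h2.sub h1).div ?_ fun z => ?_))
    · exact (continuous_const.sub h2).max continuous_const
    · positivity
  · fun_prop

end Trunc

/-! ### the extension step -/

/-- time functions -/
noncomputable def dlt (a : ℝ) : ℝ := max 0 (min a (1/2 - a))
/-- time functions -/
noncomputable def sst (a : ℝ) : ℝ := min 1 (4 * a)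
/-- time functions -/
noncomputable def sgt (a : ℝ) : ℝ := dlt a + sst a / 4

theorem sgt_bounds {a : ℝ} (ha : a ∈ Icc (0:ℝ) 1) : 0 ≤ dlt a ∧ dlt a ≤ 1/4 ∧ sst a ∈ Icc (0:ℝ) 1 ∧
    sgt a ∈ Icc (0:ℝ) (1/2) := by
  obtain ⟨h0, h1⟩ := ha
  unfold sgt dlt sst
  rcases le_total a (1/4) with h | h
  · rw [min_eq_left (by linarith), max_eq_right h0, min_eq_right (by linarith)]
    refine ⟨?_, ?_, ⟨?_, ?_⟩, ⟨?_, ?_⟩⟩ <;> linarith
  · rw [min_eq_right (by linarith : 1/2 - a ≤ a), min_eq_left (by linarith : 1 ≤ 4 * a)]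
    have : max 0 (1/2 - a) ≤ 1/4 := max_le (by norm_num) (by linarith)
    have h3 : 0 ≤ max 0 (1/2 - a) := le_max_left _ _
    refine ⟨?_, ?_, ⟨?_, ?_⟩, ⟨?_, ?_⟩⟩ <;> linarith

theorem dlt_small {a : ℝ} (ha : 0 ≤ a) (h : a ≤ 1/4) : dlt a = a := by
  unfold dlt
  rw [min_eq_left (by linarith), max_eq_right ha]

theorem sst_big {a : ℝ} (h : 1/4 ≤ a) : sst a = 1 := by
  unfold sst
  exact min_eq_left (by linarith)

theorem dlt_or (a : ℝ) : dlt a = 0 ∨ a ≤ 1/2 := by
  by_cases h : a ≤ 1/2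
  · exact Or.inr h
  · left
    unfold dlt
    push Not at h
    rw [min_eq_right (by linarith), max_eq_left (by linarith)]

theorem dlt_cont : Continuous dlt := by
  unfold dlt
  fun_prop

theorem sst_cont : Continuous sst := by
  unfold sst
  fun_prop

namespace SDat

variable {X : Type u} [MetricSpace X] {c : ℝ} {U : UC X c} {j : ℕ} {D : SDat U j} {S S' : Set X}

theorem ext_step (hSS : S ⊆ S') (hS : D.Good S) (hS' : D.Good S')
    {G : (X → ℝ) → ℝ → (Fin j → ℝ)} (hG : D.NH S G)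
    (hNZ : NZ j (↥(closure S') × ↥(Icc (0:ℝ) 1))) :
    ∃ G' : (X → ℝ) → ℝ → (Fin j → ℝ), D.NH S' G' ∧
      ∀ x, InN D.N S x → ∀ τ ∈ Icc (0:ℝ) 1, G' x τ = G x τ := by
  classical
  obtain ⟨P⟩ := D.nonempty_phi hSS hS'.sub
  obtain ⟨HH, hHH0, hHH1, hHH2, hHH3⟩ := exists_HH P hSS hG hNZ
  let g1 : (X → ℝ) → ℝ → (Fin j → ℝ) := fun x τ =>
    D.gg (ee P (min 1 (4 * max 0 (τ - dlt (au S x 0)))) (RR S x (min τ (dlt (au S x 0)))))
  let tp : (X → ℝ) → ℝ → ℝ := fun x τ => max 0 ((τ - sgt (au S x 0)) / (1 - sgt (au S x 0)))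
  let g2 : (X → ℝ) → ℝ → (Fin j → ℝ) := fun x τ =>
    G (ee P (sst (au S x 0)) (RR S x (dlt (au S x 0)))) (tp x τ)
  let g3 : (X → ℝ) → ℝ → (Fin j → ℝ) := fun x τ =>
    HH (D.ψ (RR S x (dlt (au S x 0)))) (tp x τ)
  let G' : (X → ℝ) → ℝ → (Fin j → ℝ) := fun x τ =>
    if τ ≤ sgt (au S x 0) then g1 x τ else if au S x 0 ≤ 1/4 then g2 x τ else g3 x τ
  -- pointwise facts
  have hab : ∀ {F : Finset X} {x : X → ℝ}, x ∈ Dl F → au S x 0 ∈ Icc (0:ℝ) 1 := fun hx =>
    ⟨au_nonneg hx le_rfl, au_le_one hx⟩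
  have htp : ∀ {F : Finset X} {x : X → ℝ}, x ∈ Dl F → ∀ τ ∈ Icc (0:ℝ) 1,
      tp x τ ∈ Icc (0:ℝ) 1 := by
    intro F x hx τ hτ
    have h := (sgt_bounds (hab hx)).2.2.2
    refine ⟨le_max_left _ _, max_le (by norm_num) ?_⟩
    rw [div_le_one (by linarith [h.2])]
    linarith [hτ.2]
  -- the truncation at level delta
  have hRδ : ∀ {F : Finset X} {x : X → ℝ}, x ∈ Dl F → RR S x (dlt (au S x 0)) ∈ Dl F := by
    intro F x hx
    have h := sgt_bounds (hab hx)
    exact RR_mem hx h.1 (dlt_or (au S x 0))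
  have hRm : ∀ {F : Finset X} {x : X → ℝ}, x ∈ Dl F → ∀ τ, 0 ≤ τ →
      RR S x (min τ (dlt (au S x 0))) ∈ Dl F := by
    intro F x hx τ hτ
    have h := sgt_bounds (hab hx)
    refine RR_mem hx (le_min hτ h.1) ?_
    rcases dlt_or (au S x 0) with h' | h'
    · left
      rw [h', min_eq_right hτ]
    · exact Or.inr h'
  have hRS : ∀ {F : Finset X}, F ∈ D.N → ∀ {x : X → ℝ}, x ∈ Dl F → au S x 0 ≤ 1/4 →
      InN D.N S (RR S x (dlt (au S x 0))) := by
    intro F hF x hx h
    have h1 := RR_mem_S (S := S) (s := dlt (au S x 0)) hx (by linarith)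
      (dlt_small (hab hx).1 h).ge
    obtain ⟨t, ht, -⟩ := exists_pos_of_Dl h1
    refine ⟨_, D.down F hF _ (Finset.filter_subset _ _) ⟨t, ht⟩, ?_, h1⟩
    intro t ht
    exact (Finset.mem_filter.1 ht).2
  -- agreement at the boundaries
  have e12 : ∀ {F : Finset X}, F ∈ D.N → (F : Set X) ⊆ S' → ∀ {x : X → ℝ}, x ∈ Dl F →
      g1 x (sgt (au S x 0)) = D.gg (ee P (sst (au S x 0)) (RR S x (dlt (au S x 0)))) := by
    intro F hF hFS x hx
    have h := sgt_bounds (hab hx)
    have h1 : min 1 (4 * max 0 (sgt (au S x 0) - dlt (au S x 0))) = sst (au S x 0) := by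
      have : sgt (au S x 0) - dlt (au S x 0) = sst (au S x 0) / 4 := by unfold sgt; ring
      rw [this, max_eq_right (by linarith [h.2.2.1.1])]
      rw [mul_div_cancel₀ _ (by norm_num)]
      exact min_eq_right h.2.2.1.2
    have h2 : min (sgt (au S x 0)) (dlt (au S x 0)) = dlt (au S x 0) := by
      apply min_eq_right
      unfold sgt
      linarith [h.2.2.1.1]
    simp only [g1]
    rw [h1, h2]
  have htp0 : ∀ x, tp x (sgt (au S x 0)) = 0 := by
    intro x
    simp [tp]
  have e2 : ∀ {F : Finset X}, F ∈ D.N → (F : Set X) ⊆ S' → ∀ {x : X → ℝ}, x ∈ Dl F →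
      au S x 0 ≤ 1/4 → g1 x (sgt (au S x 0)) = g2 x (sgt (au S x 0)) := by
    intro F hF hFS x hx h
    rw [e12 hF hFS hx]
    obtain ⟨F', hF', hFS', hx'⟩ := ee_memS P hSS hS hS' (sgt_bounds (hab hx)).2.2.1 (hRS hF hx h)
    simp only [g2, htp0]
    exact ((hG F' hF' hFS').2 _ hx').1.symm
  have e3 : ∀ {F : Finset X}, F ∈ D.N → (F : Set X) ⊆ S' → ∀ {x : X → ℝ}, x ∈ Dl F →
      1/4 ≤ au S x 0 → g1 x (sgt (au S x 0)) = g3 x (sgt (au S x 0)) := by
    intro F hF hFS x hx h
    rw [e12 hF hFS hx, sst_big h, ee_one]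
    have hin : InN D.N S' (RR S x (dlt (au S x 0))) := ⟨F, hF, hFS, hRδ hx⟩
    simp only [g3, htp0]
    exact ((hHH1 _ (psi_V hin) (psi_closure hS' hin)).1).symm
  have e23 : ∀ {F : Finset X}, F ∈ D.N → (F : Set X) ⊆ S' → ∀ {x : X → ℝ}, x ∈ Dl F →
      au S x 0 = 1/4 → ∀ τ ∈ Icc (0:ℝ) 1, g2 x τ = g3 x τ := by
    intro F hF hFS x hx h τ hτ
    have hin := hRS hF hx h.le
    simp only [g2, g3]
    rw [sst_big h.ge, ee_one]
    exact (hHH2 _ (psi_V hin) (psi_closure hS hin) _ (htp hx τ hτ)).symm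
  refine ⟨G', ?_, ?_⟩
  · intro F hF hFS
    refine ⟨?_, ?_⟩
    · rw [continuousOn_iff_continuous_domRestrict]
      let Z := ↥(Dl F ×ˢ Icc (0:ℝ) 1)
      let x : Z → X → ℝ := fun z => z.1.1
      let τ : Z → ℝ := fun z => z.1.2
      have hx : Continuous x := continuous_fst.comp continuous_subtype_val
      have hτ : Continuous τ := continuous_snd.comp continuous_subtype_val
      have hxF : ∀ z, x z ∈ Dl F := fun z => z.2.1
      have hτ1 : ∀ z, τ z ∈ Icc (0:ℝ) 1 := fun z => z.2.2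
      let a : Z → ℝ := fun z => au S (x z) 0
      have ha : Continuous a := au_cont hx hxF continuous_const fun _ => le_rfl
      have hδ : Continuous fun z => dlt (a z) := dlt_cont.comp ha
      have hs : Continuous fun z => sst (a z) := sst_cont.comp ha
      have hσ : Continuous fun z => sgt (a z) := by
        unfold sgt
        exact hδ.add (hs.div_const 4)
      have htpc : Continuous fun z => tp (x z) (τ z) := by
        refine continuous_const.max ((hτ.sub hσ).div (continuous_const.sub hσ) fun z => ?_)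
        have := (sgt_bounds (hab (hxF z))).2.2.2.2
        have h' : sgt (a z) ≤ 1/2 := this
        linarith
      have hR1 : Continuous fun z => RR S (x z) (min (τ z) (dlt (a z))) :=
        RR_cont hx hxF (hτ.min hδ) fun z => le_min (hτ1 z).1 (sgt_bounds (hab (hxF z))).1
      have hR2 : Continuous fun z => RR S (x z) (dlt (a z)) :=
        RR_cont hx hxF hδ fun z => (sgt_bounds (hab (hxF z))).1
      have c1 : Continuous fun z => g1 (x z) (τ z) := by
        have hl : LFC fun z => ee P (min 1 (4 * max 0 (τ z - dlt (a z))))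
            (RR S (x z) (min (τ z) (dlt (a z)))) :=
          ee_lfc P hS' hF hFS hR1 (fun z => hRm (hxF z) _ (hτ1 z).1)
            (u := fun z => min 1 (4 * max 0 (τ z - dlt (a z)))) (by fun_prop)
        exact ggcomp hl fun z => ee_mem P hS'
          ⟨le_min (by norm_num) (by positivity), min_le_left _ _⟩
          ⟨F, hF, hFS, hRm (hxF z) _ (hτ1 z).1⟩
      have c3 : Continuous fun z => g3 (x z) (τ z) := by
        have hin : ∀ z, InN D.N S' (RR S (x z) (dlt (a z))) := fun z =>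
          ⟨F, hF, hFS, hRδ (hxF z)⟩
        exact hHH3 Z (fun z => D.ψ (RR S (x z) (dlt (a z)))) (fun z => tp (x z) (τ z))
          ((psi_continuousOn U D.x0 D.p D.hc F).comp_continuous hR2 fun z => hRδ (hxF z))
          htpc (fun z => ⟨psi_V (hin z), psi_closure hS' (hin z)⟩)
          fun z => htp (hxF z) _ (hτ1 z)
      have c2 : ContinuousOn (fun z => g2 (x z) (τ z)) {z | a z ≤ 1/4} := by
        rw [continuousOn_iff_continuous_domRestrict]
        have hl : LFC fun z => ee P (sst (a z)) (RR S (x z) (dlt (a z))) :=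
          ee_lfc P hS' hF hFS hR2 (fun z => hRδ (hxF z)) hs
        exact cellcomp (S := S) (Γ := G) D.down (fun F hF hFS => (hG F hF hFS).1)
          (hl.comp continuous_subtype_val)
          (fun z => ee_memS P hSS hS hS' (sgt_bounds (hab (hxF z.1))).2.2.1
            (hRS hF (hxF z.1) z.2)) (htpc.comp continuous_subtype_val)
          fun z => htp (hxF z.1) _ (hτ1 z.1)
      have c23 : Continuous fun z => if a z ≤ 1/4 then g2 (x z) (τ z) else g3 (x z) (τ z) :=
        continuous_if_le ha continuous_const c2 c3.continuousOn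
          fun z hz => e23 hF hFS (hxF z) hz _ (hτ1 z)
      refine continuous_if_le (f := τ) (g := fun z => sgt (a z)) hτ hσ c1.continuousOn
        c23.continuousOn ?_
      intro z hz
      have hz' : τ z = sgt (au S (x z) 0) := hz
      change g1 (x z) (τ z) = if au S (x z) 0 ≤ 1/4 then g2 (x z) (τ z) else g3 (x z) (τ z)
      rw [hz']
      split_ifs with h
      · exact e2 hF hFS (hxF z) h
      · exact e3 hF hFS (hxF z) (not_le.1 h).le
    · intro x hx
      have hb := sgt_bounds (hab hx)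
      refine ⟨?_, ?_, ?_⟩
      · simp only [G']
        rw [if_pos hb.2.2.2.1]
        simp only [g1]
        have h1 : min 1 (4 * max 0 (0 - dlt (au S x 0))) = 0 := by
          rw [max_eq_left (by linarith [hb.1])]
          simp
        rw [h1, min_eq_left hb.1, ee_zero, RR_zero hx]
      · have h1 : ¬ (1:ℝ) ≤ sgt (au S x 0) := by linarith [hb.2.2.2.2]
        have h2 : tp x 1 = 1 := by
          simp only [tp]
          rw [div_self (by linarith [hb.2.2.2.2])]
          simp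
        simp only [G', if_neg h1]
        split_ifs with h
        · simp only [g2, h2]
          obtain ⟨F', hF', hFS', hx'⟩ := ee_memS P hSS hS hS' hb.2.2.1 (hRS hF hx h)
          exact ((hG F' hF' hFS').2 _ hx').2.1
        · simp only [g3, h2]
          have hin : InN D.N S' (RR S x (dlt (au S x 0))) := ⟨F, hF, hFS, hRδ hx⟩
          exact ((hHH1 _ (psi_V hin) (psi_closure hS' hin)).2)
      · intro τ hτ
        simp only [G']
        split_ifs with h h'
        · simp only [g1]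
          obtain ⟨F', hF', hFS', hx'⟩ := ee_mem P hS' (u := min 1 (4 * max 0 (τ - dlt (au S x 0))))
            ⟨le_min (by norm_num) (by positivity), min_le_left _ _⟩
            (⟨F, hF, hFS, hRm hx τ hτ.1⟩ : InN D.N S' _)
          exact D.gg_ne hF' hx'
        · simp only [g2]
          obtain ⟨F', hF', hFS', hx'⟩ := ee_memS P hSS hS hS' hb.2.2.1 (hRS hF hx h')
          exact ((hG F' hF' hFS').2 _ hx').2.2 _ (htp hx τ hτ)
        · simp only [g3]
          have hin : InN D.N S' (RR S x (dlt (au S x 0))) := ⟨F, hF, hFS, hRδ hx⟩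
          exact hHH0 _ (psi_V hin) (psi_closure hS' hin) _ (htp hx τ hτ)
  · rintro x ⟨F, hF, hFS, hx⟩ τ hτ
    have ha : au S x 0 = 0 := au_S hx hFS
    have hd : dlt (au S x 0) = 0 := by rw [ha, dlt_small le_rfl (by norm_num)]
    have hs : sst (au S x 0) = 0 := by rw [ha]; simp [sst]
    have hσ : sgt (au S x 0) = 0 := by unfold sgt; rw [hd, hs]; simp
    have htτ : tp x τ = τ := by
      simp only [tp, hσ]
      simp [hτ.1]
    simp only [G', hσ]
    by_cases h : τ ≤ 0
    · have h0 : τ = 0 := le_antisymm h hτ.1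
      rw [if_pos h]
      simp only [g1, hd, h0]
      simp only [sub_self, max_self, mul_zero, min_self]
      rw [min_eq_right (by norm_num : (0:ℝ) ≤ 1), ee_zero, RR_zero hx]
      exact ((hG F hF hFS).2 x hx).1.symm
    · rw [if_neg h, if_pos (by rw [ha]; norm_num)]
      simp only [g2, hd, hs, htτ]
      rw [ee_zero, RR_zero hx]

end SDat

/-! ### transfinite construction -/

section Zorn
variable {X : Type u} [MetricSpace X] {c : ℝ} {U : UC X c} {j : ℕ}

theorem NH_mono {D : SDat U j} {S S' : Set X} (h : S ⊆ S') {G : (X → ℝ) → ℝ → (Fin j → ℝ)}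
    (hG : D.NH S' G) : D.NH S G := fun F hF hFS => hG F hF (hFS.trans h)

omit [MetricSpace X] in
theorem InN_mono {N : Set (Finset X)} {S S' : Set X} (h : S ⊆ S') {x : X → ℝ}
    (hx : InN N S x) : InN N S' x := by
  obtain ⟨F, hF, hFS, hxF⟩ := hx
  exact ⟨F, hF, hFS.trans h, hxF⟩

theorem hull_good {D : SDat U j} {ap : X → X → ℚ × ℕ → X} (hapT : ∀ x y k, ap x y k ∈ D.T)
    (hap : ∀ x y (q : ℚ) (n : ℕ), dist (U.cc x y q) (ap x y (q, n)) < 1 / ((n : ℝ) + 1))
    (hpT : ∀ F, D.p F ∈ D.T) {I : Set X} (hI : I ⊆ D.T) : D.Good (hull ap D.p I) := by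
  have hsub : hull ap D.p I ⊆ D.T :=
    hull_subset hI (fun x _ y _ k => hapT x y k) fun F _ => hpT F
  refine ⟨hsub, ?_, fun F _ hFS => Hull.pf F fun t ht => hFS ht⟩
  set H := hull ap D.p I with hH
  intro x hx y hy t ht
  have h1 : ∀ a ∈ H, ∀ b ∈ H, ∀ q : ℚ, U.cc a b q ∈ closure H := by
    intro a ha b hb q
    rw [Metric.mem_closure_iff]
    intro ε hε
    obtain ⟨n, hn⟩ := exists_nat_one_div_lt hε
    exact ⟨ap a b (q, n), Hull.ap a b _ ha hb, (hap a b q n).trans hn⟩
  let Q : Set ℝ := {s | s ∈ Ioo (0:ℝ) 1 ∧ ∃ q : ℚ, (q : ℝ) = s}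
  have hQ : Icc (0:ℝ) 1 ⊆ closure Q := by
    have h2 : closure (Ioo (0:ℝ) 1) = Icc 0 1 := closure_Ioo (by norm_num)
    rw [← h2]
    refine closure_minimal (fun s hs => ?_) isClosed_closure
    rw [Metric.mem_closure_iff]
    intro ε hε
    obtain ⟨q, hq1, hq2⟩ := exists_rat_btwn (show s < min 1 (s + ε) from lt_min hs.2 (by linarith))
    refine ⟨q, ⟨⟨hs.1.trans hq1, hq2.trans_le (min_le_left _ _)⟩, q, rfl⟩, ?_⟩
    rw [dist_comm, Real.dist_eq, abs_of_pos (by linarith)]
    have := hq2.trans_le (min_le_right _ _)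
    linarith
  have h3 : ((x, y, t) : X × X × ℝ) ∈ closure (H ×ˢ (H ×ˢ Q)) := by
    rw [closure_prod_eq, closure_prod_eq]
    exact ⟨hx, hy, hQ ht⟩
  have h4 : ContinuousWithinAt (fun p : X × X × ℝ => U.cc p.1 p.2.1 p.2.2) (H ×ˢ (H ×ˢ Q))
      (x, y, t) := by
    refine (U.cont (x, y, t) ht).mono ?_
    rintro ⟨a, b, s⟩ ⟨_, _, hs⟩
    exact ⟨hs.1.1.le, hs.1.2.le⟩
  have h5 := h4.mem_closure (t := closure H) h3 (by
    rintro ⟨a, b, s⟩ ⟨ha, hb, hs⟩
    obtain ⟨q, hq⟩ := hs.2
    have hq' : (q : ℝ) = s := hq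
    simp only
    rw [← hq']
    exact h1 a ha b hb q)
  rwa [closure_closure] at h5

theorem exists_NH (D : SDat U j) {ap : X → X → ℚ × ℕ → X} (hapT : ∀ x y k, ap x y k ∈ D.T)
    (hap : ∀ x y (q : ℚ) (n : ℕ), dist (U.cc x y q) (ap x y (q, n)) < 1 / ((n : ℝ) + 1))
    (hpT : ∀ F, D.p F ∈ D.T) (κ : Cardinal.{u}) (hκ : ℵ₀ < κ) (hTκ : #D.T = κ)
    (hIH : ∀ Z : Set X, IsClosed Z → U.ConvexSet Z →
      (∃ S : Set X, S ⊆ Z ∧ Z ⊆ closure S ∧ #S < κ) → NZ j (↥Z × ↥(Icc (0:ℝ) 1))) :
    ∃ G, D.NH D.T G := by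
  classical
  let I := κ.ord.ToType
  have hIc : #I = #D.T := by rw [hTκ]; exact Cardinal.mk_ord_toType κ
  obtain ⟨en⟩ := Cardinal.eq.1 hIc
  let HL : Set I → Set X := fun L => hull ap D.p ((fun i => (en i : X)) '' L)
  have hmono : ∀ {L L' : Set I}, L ⊆ L' → HL L ⊆ HL L' := fun h => hull_mono (image_mono h)
  have hgood : ∀ L, D.Good (HL L) := fun L => hull_good hapT hap hpT (by
    rintro _ ⟨i, -, rfl⟩
    exact (en i).2)
  have hcard : ∀ L : Set I, #L < κ → #(HL L) < κ := by
    intro L hL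
    refine (mk_hull_le _).trans_lt (max_lt ?_ hκ)
    exact Cardinal.mk_image_le.trans_lt hL
  have hNZ : ∀ L : Set I, #L < κ → NZ j (↥(closure (HL L)) × ↥(Icc (0:ℝ) 1)) := fun L hL =>
    hIH _ isClosed_closure (hgood L).conv ⟨HL L, subset_closure, subset_rfl, hcard L hL⟩
  let Ob := {q : Set I × ((X → ℝ) → ℝ → (Fin j → ℝ)) // IsLowerSet q.1 ∧ D.NH (HL q.1) q.2}
  let le : Ob → Ob → Prop := fun a b => a.1.1 ⊆ b.1.1 ∧
    ∀ x, InN D.N (HL a.1.1) x → ∀ τ ∈ Icc (0:ℝ) 1, a.1.2 x τ = b.1.2 x τ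
  have hle : ∀ a b : Ob, le a b ↔ a.1.1 ⊆ b.1.1 ∧
    ∀ x, InN D.N (HL a.1.1) x → ∀ τ ∈ Icc (0:ℝ) 1, a.1.2 x τ = b.1.2 x τ := fun a b => Iff.rfl
  have hrefl : ∀ a : Ob, le a a := fun a => ⟨subset_rfl, fun _ _ _ _ => rfl⟩
  have htrans : ∀ {a b d : Ob}, le a b → le b d → le a d :=
    fun {a b d} hab hbd => ⟨hab.1.trans hbd.1, fun x hx τ hτ =>
        (hab.2 x hx τ hτ).trans (hbd.2 x (InN_mono (hmono hab.1) hx) τ hτ)⟩
  have hbase : Nonempty Ob := by
    obtain ⟨G', hG', -⟩ := SDat.ext_step (S := ∅) (S' := HL ∅) (empty_subset _) D.good_empty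
      (hgood ∅) (G := fun _ _ => 0) (by
        rintro F ⟨⟨t, ht⟩, -⟩ hFS
        exact (hFS ht).elim) (hNZ ∅ (by
          rw [Cardinal.mk_eq_zero]
          exact (Cardinal.aleph0_pos).trans hκ))
    exact ⟨⟨(∅, G'), isLowerSet_empty, hG'⟩⟩
  obtain ⟨m, hm⟩ := exists_maximal_of_nonempty_chains_bounded (α := Ob) (r := le) (by
    intro ch hch hne
    obtain ⟨a0, ha0⟩ := hne
    have : Nonempty ch := ⟨⟨a0, ha0⟩⟩
    have htot : ∀ a ∈ ch, ∀ b ∈ ch, le a b ∨ le b a := by
      intro a ha b hb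
      by_cases hab : a = b
      · left
        rw [hab]
        exact hrefl b
      · exact hch ha hb hab
    let L : Set I := ⋃ a : ch, a.1.1.1
    let G : (X → ℝ) → ℝ → (Fin j → ℝ) := fun x τ =>
      if h : ∃ a ∈ ch, InN D.N (HL a.1.1) x then h.choose.1.2 x τ else 0
    have hG : ∀ a ∈ ch, ∀ x, InN D.N (HL a.1.1) x → ∀ τ ∈ Icc (0:ℝ) 1, a.1.2 x τ = G x τ := by
      intro a ha x hx τ hτ
      have h : ∃ a ∈ ch, InN D.N (HL a.1.1) x := ⟨a, ha, hx⟩
      simp only [G, dif_pos h]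
      have hs := h.choose_spec
      rcases htot a ha _ hs.1 with h1 | h1
      · exact ((hle _ _).1 h1).2 x hx τ hτ
      · exact (((hle _ _).1 h1).2 x hs.2 τ hτ).symm
    have hdir : Directed (· ⊆ ·) fun a : ch => HL a.1.1.1 := by
      intro a b
      rcases htot a a.2 b b.2 with h1 | h1
      · exact ⟨b, hmono ((hle _ _).1 h1).1, subset_rfl⟩
      · exact ⟨a, subset_rfl, hmono ((hle _ _).1 h1).1⟩
    have hdir' : Directed (· ⊆ ·) fun a : ch => (fun i => (en i : X)) '' a.1.1.1 := by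
      intro a b
      rcases htot a a.2 b b.2 with h1 | h1
      · exact ⟨b, image_mono ((hle _ _).1 h1).1, subset_rfl⟩
      · exact ⟨a, subset_rfl, image_mono ((hle _ _).1 h1).1⟩
    have hLU : HL L ⊆ ⋃ a : ch, HL a.1.1.1 := by
      intro x hx
      have hx' : x ∈ hull ap D.p (⋃ a : ch, (fun i => (en i : X)) '' a.1.1.1) := by
        rw [← image_iUnion]
        exact hx
      obtain ⟨a, ha⟩ := hull_iUnion _ hdir' hx'
      exact mem_iUnion.2 ⟨a, ha⟩
    refine ⟨⟨(L, G), ?_, ?_⟩, ?_⟩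
    · exact isLowerSet_iUnion fun a => a.1.2.1
    · intro F hF hFS
      obtain ⟨a, ha⟩ := hdir.exists_mem_subset_of_finset_subset_biUnion (hFS.trans hLU)
      have h := a.1.2.2 F hF ha
      have hGa := fun x (hx : x ∈ Dl F) => hG a.1 a.2 x ⟨F, hF, ha, hx⟩
      refine ⟨h.1.congr fun q hq => (hGa q.1 hq.1 q.2 hq.2).symm, fun x hx => ⟨?_, ?_, ?_⟩⟩
      · change G x 0 = _
        rw [← hGa x hx 0 (by simp)]
        exact (h.2 x hx).1
      · change G x 1 = _
        rw [← hGa x hx 1 (by simp)]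
        exact (h.2 x hx).2.1
      · intro τ hτ
        change G x τ ≠ 0
        rw [← hGa x hx τ hτ]
        exact (h.2 x hx).2.2 τ hτ
    · intro a ha
      rw [hle]
      exact ⟨subset_iUnion (fun a : ch => a.1.1.1) ⟨a, ha⟩, hG a ha⟩) htrans
  have huniv : m.1.1 = univ := by
    by_contra hne
    have hne' : (m.1.1ᶜ).Nonempty := nonempty_compl.2 hne
    have hwf : WellFounded ((· < ·) : I → I → Prop) := wellFounded_lt
    let t := hwf.min m.1.1ᶜ hne'
    have ht : t ∉ m.1.1 := hwf.min_mem m.1.1ᶜ hne'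
    have hsub : m.1.1 ⊆ Iic t := by
      intro s hs
      by_contra h
      rw [mem_Iic, not_le] at h
      exact ht (m.2.1 h.le hs)
    have hIic : #(Iic t) < κ := by
      have h1 : Iic t = insert t (Iio t) := by
        ext s; simp [le_iff_eq_or_lt]
      rw [h1]
      refine (Cardinal.mk_insert_le).trans_lt ?_
      exact Cardinal.add_lt_of_lt hκ.le (Cardinal.mk_Iio_toType_ord_lt t)
        (Cardinal.one_lt_aleph0.trans hκ)
    obtain ⟨G', hG', hext⟩ := SDat.ext_step (S := HL m.1.1) (S' := HL (Iic t)) (hmono hsub)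
      (hgood _) (hgood _) m.2.2 (hNZ _ hIic)
    have h2 : le m ⟨(Iic t, G'), isLowerSet_Iic t, hG'⟩ := by
      rw [hle]
      exact ⟨hsub, fun x hx τ hτ => (hext x hx τ hτ).symm⟩
    have h3 := ((hle _ _).1 (hm _ h2)).1
    exact ht (h3 (mem_Iic.2 le_rfl))
  refine ⟨m.1.2, NH_mono ?_ m.2.2⟩
  intro x hx
  refine Hull.base x ⟨en.symm ⟨x, hx⟩, ?_, ?_⟩
  · rw [huniv]
    exact mem_univ _
  · simp

end Zorn

end SoftAux

open SoftAux in
theorem soft {X : Type u} [MetricSpace X] [CompleteSpace X] {c : ℝ} (hc : 0 < c)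
    (U : UC X c) {j : ℕ} (hj : 2 ≤ j) (κ : Cardinal.{u}) (hκ : ℵ₀ < κ) (T : Set X) (hT : Dense T)
    (hTκ : #T = κ)
    (hIH : ∀ Z : Set X, IsClosed Z → U.ConvexSet Z →
      (∃ S : Set X, S ⊆ Z ∧ Z ⊆ closure S ∧ #S < κ) → NZ j (Z × Icc (0:ℝ) 1)) :
    NZ j X := by
  classical
  intro f A hf hA hfA
  have hTne : T.Nonempty := by
    rw [nonempty_iff_ne_empty]
    rintro rfl
    rw [Cardinal.mk_eq_zero] at hTκ
    rw [← hTκ] at hκ
    exact absurd hκ not_lt_zero
  obtain ⟨x0, hx0⟩ := hTne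
  let V : Set X := {y | f y ≠ 0}
  have hV : IsOpen V := isOpen_ne_fun hf continuous_const
  have hV0 : ∀ y ∈ V, f y ≠ 0 := fun y hy => hy
  obtain ⟨ε, hE1, hE2⟩ := soft_exists_eps f hf V hV hV0
  have happ : ∀ (z : X) (n : ℕ), ∃ t ∈ T, dist z t < 1 / ((n : ℝ) + 1) := by
    intro z n
    exact hT.exists_dist_lt z (by positivity)
  choose app happT happd using happ
  let ap : X → X → ℚ × ℕ → X := fun x y k => app (U.cc x y k.1) k.2
  let p : Finset X → X := fun F => if h : ∃ y ∈ T, ∀ t ∈ F, y ∈ ball t (ε t) then h.choose else x0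
  have hpT : ∀ F, p F ∈ T := by
    intro F
    simp only [p]
    split_ifs with h
    · exact h.choose_spec.1
    · exact hx0
  have hp : ∀ F : Finset X, (F : Set X) ⊆ T → (∃ y, ∀ t ∈ F, y ∈ ball t (ε t)) →
      ∀ t ∈ F, p F ∈ ball t (ε t) := by
    intro F _ hF
    have hopen : IsOpen (⋂ t ∈ F, ball t (ε t)) :=
      isOpen_biInter_finset fun t _ => isOpen_ball
    obtain ⟨y, hy⟩ := hF
    obtain ⟨z, hzT, hz⟩ := hT.exists_mem_open hopen ⟨y, by simpa using hy⟩
    have h : ∃ y ∈ T, ∀ t ∈ F, y ∈ ball t (ε t) := ⟨z, hzT, by simpa using hz⟩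
    simp only [p, dif_pos h]
    exact h.choose_spec.2
  have : NeZero j := ⟨by omega⟩
  let D : SDat U j :=
    { f := f, hf := hf, V := V, hV := hV, hV0 := hV0, ε := ε, hE1 := hE1, hE2 := hE2, T := T,
      p := p, hp := hp, x0 := x0, e := fun _ => 1, he := by
        intro h
        have := congrFun h 0
        simp at this
      hc := hc }
  obtain ⟨G, hG⟩ := exists_NH D (ap := ap) (fun x y k => happT _ _) (fun x y q n => happd _ _)
    hpT κ hκ hTκ hIH
  obtain ⟨P⟩ := D.nonempty_phi (S := ∅) (S' := T) (empty_subset _) subset_rfl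
  obtain ⟨w, hwA, hwV, hw1⟩ := exists_continuous_zero_one_of_isClosed hA hV.isClosed_compl (by
    rw [disjoint_compl_right_iff_subset]
    exact hfA)
  have hTcl : ∀ y, y ∈ closure T := fun y => hT y
  have hin : ∀ y ∈ V, InN D.N T (P.φ y) := fun y hy => by
    obtain ⟨F, hF, hFS, hx, -⟩ := P.mem y hy (hTcl y)
    exact ⟨F, hF, hFS, hx⟩
  have hnear : ∀ y ∈ V, ‖D.gg (P.φ y) - f y‖ ≤ ‖f y‖ / 8 := fun y hy => by
    obtain ⟨F, hF, hFS, hx, h, -⟩ := P.mem y hy (hTcl y)
    refine D.gg_near hx fun t ht => h t ?_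
    by_contra h'
    exact ht (hx.2.1 t h')
  let g1 : X → (Fin j → ℝ) := fun y => (1 - 4 * w y) • f y + (4 * w y) • D.gg (P.φ y)
  let g2 : X → (Fin j → ℝ) := fun y => G (P.φ y) (max 0 (4 * w y - 1))
  let g12 : X → (Fin j → ℝ) := fun y => if w y ≤ 1/4 then g1 y else g2 y
  let g : X → (Fin j → ℝ) := fun y => if w y ≤ 1/2 then g12 y else D.e
  have hC : {y | w y ≤ 1/2} ⊆ V := by
    intro y hy
    by_contra h
    have h1 : w y = 1 := hwV h
    have h2 : w y ≤ 1/2 := hy
    rw [h1] at h2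
    norm_num at h2
  have hg12 : ContinuousOn g12 {y | w y ≤ 1/2} := by
    rw [continuousOn_iff_continuous_domRestrict]
    have hlfc : LFC fun y : {y | w y ≤ 1/2} => P.φ y.1 :=
      P.lfc.comp (a := fun y : {y | w y ≤ 1/2} => ⟨y.1, hC y.2, hTcl y.1⟩)
        (continuous_subtype_val.subtype_mk _)
    have hw : Continuous fun y : {y | w y ≤ 1/2} => w y.1 :=
      w.continuous.comp continuous_subtype_val
    have hf' : Continuous fun y : {y | w y ≤ 1/2} => f y.1 := hf.comp continuous_subtype_val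
    have c1 : Continuous fun y : {y | w y ≤ 1/2} => g1 y.1 := by
      have : Continuous fun y : {y | w y ≤ 1/2} => D.gg (P.φ y.1) :=
        SDat.ggcomp hlfc fun y => hin y.1 (hC y.2)
      exact ((continuous_const.sub (continuous_const.mul hw)).smul hf').add
        ((continuous_const.mul hw).smul this)
    have c2 : Continuous fun y : {y | w y ≤ 1/2} => g2 y.1 := by
      refine cellcomp (S := T) (Γ := G) D.down (fun F hF hFS => (hG F hF hFS).1) hlfc
        (fun y => hin y.1 (hC y.2)) (τ := fun y => max 0 (4 * w y.1 - 1)) (by fun_prop) ?_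
      intro y
      have : w y.1 ≤ 1/2 := y.2
      exact ⟨le_max_left _ _, max_le (by norm_num) (by linarith)⟩
    refine continuous_if_le (f := fun y : {y | w y ≤ 1/2} => w y.1) (g := fun _ => 1/4) hw
      continuous_const c1.continuousOn c2.continuousOn ?_
    intro y hy
    change g1 y.1 = g2 y.1
    simp only [g1, g2]
    obtain ⟨F, hF, hFS, hx⟩ := hin y.1 (hC y.2)
    rw [hy]
    norm_num
    exact ((hG F hF hFS).2 _ hx).1.symm
  have hgc : Continuous g := by
    refine continuous_if_le w.continuous continuous_const hg12 continuousOn_const ?_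
    intro y hy
    have hyV : y ∈ V := hC hy.le
    obtain ⟨F, hF, hFS, hx⟩ := hin y hyV
    simp only [g12, g2]
    rw [hy]
    norm_num
    exact ((hG F hF hFS).2 _ hx).2.1
  refine ⟨g, hgc, fun y => ?_, fun a ha => ?_⟩
  · simp only [g]
    split_ifs with h
    · have hyV : y ∈ V := hC h
      simp only [g12]
      split_ifs with h'
      · simp only [g1]
        intro h0
        have h1 : f y = -((4 * w y) • (D.gg (P.φ y) - f y)) := by
          have : (1 - 4 * w y) • f y + (4 * w y) • D.gg (P.φ y) =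
              f y + (4 * w y) • (D.gg (P.φ y) - f y) := by
            rw [smul_sub, sub_smul, one_smul]
            abel
          rw [this] at h0
          exact eq_neg_of_add_eq_zero_left h0
        have h2 : ‖f y‖ ≤ ‖f y‖ / 8 := by
          conv_lhs => rw [h1]
          rw [norm_neg, norm_smul, Real.norm_of_nonneg (by linarith [(hw1 y).1])]
          have h3 := hnear y hyV
          have h4 := norm_nonneg (D.gg (P.φ y) - f y)
          have h5 : 4 * w y ≤ 1 := by linarith
          calc 4 * w y * ‖D.gg (P.φ y) - f y‖ ≤ 1 * ‖D.gg (P.φ y) - f y‖ := by gcongr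
            _ ≤ ‖f y‖ / 8 := by linarith
        have h6 := norm_pos_iff.2 (hV0 y hyV)
        linarith
      · obtain ⟨F, hF, hFS, hx⟩ := hin y hyV
        exact ((hG F hF hFS).2 _ hx).2.2 _ ⟨le_max_left _ _, max_le (by norm_num) (by linarith)⟩
    · exact D.he
  · have h0 : w a = 0 := hwA ha
    simp only [g, g12, g1, h0]
    norm_num

end MP629748

end part2

section part3

/-!
# Piece P12 of MP_629748_gt (helper85): the main abstract theorem `nz_of_uc`.
-/

open Set Filter Topology MeasureTheory Metric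
open scoped NNReal Cardinal

namespace MP629748

universe u


/-! ### The separable case -/

section sep

variable {X : Type u} [MetricSpace X] [CompleteSpace X] {c : ℝ}

/-- weights vanish far away: the barycentre is close -/
theorem p12_dist_bary_le (hc : 0 < c) (U : UC X c) {k : ℕ} (x : Fin (k + 1) → X)
    (l : Fin (k + 1) → ℝ) (hl : l ∈ stdSimplex ℝ (Fin (k + 1))) (z : X) (r : ℝ)
    (hr : ∀ i, l i ≠ 0 → dist (x i) z ≤ r) : dist (bary x l) z ≤ 2 * r := by
  have h1 := bary_min U hc x l hl z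
  have h2 : ∑ i, l i * dist (x i) z ^ 2 ≤ r ^ 2 := by
    calc ∑ i, l i * dist (x i) z ^ 2 ≤ ∑ i, l i * r ^ 2 := by
          refine Finset.sum_le_sum fun i _ => ?_
          by_cases h : l i = 0
          · simp [h]
          · have := hr i h
            exact mul_le_mul_of_nonneg_left (pow_le_pow_left₀ dist_nonneg this 2) (hl.1 i)
      _ = r ^ 2 := by rw [← Finset.sum_mul, hl.2, one_mul]
  have h3 : ∑ i, l i * dist (x i) (bary x l) ^ 2 ≤ ∑ i, l i * r ^ 2 := by
    rw [← Finset.sum_mul, hl.2, one_mul]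
    have : 0 ≤ c / 2 * dist z (bary x l) ^ 2 := by positivity
    linarith
  -- some active index is close to the barycentre
  obtain ⟨i, hi0, hi⟩ : ∃ i, l i ≠ 0 ∧ dist (x i) (bary x l) ≤ r := by
    by_contra hcon
    push Not at hcon
    obtain ⟨i0, hi0⟩ : ∃ i, l i ≠ 0 := by
      by_contra h
      push Not at h
      have := hl.2
      simp [h] at this
    have hr0 : 0 ≤ r := dist_nonneg.trans (hr i0 hi0)
    have : ∑ i, l i * r ^ 2 < ∑ i, l i * dist (x i) (bary x l) ^ 2 := by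
      refine Finset.sum_lt_sum (fun i _ => ?_) ⟨i0, Finset.mem_univ _, ?_⟩
      · by_cases h : l i = 0
        · simp [h]
        · exact mul_le_mul_of_nonneg_left (pow_le_pow_left₀ hr0 (hcon i h).le 2) (hl.1 i)
      · have hpos : 0 < l i0 := lt_of_le_of_ne (hl.1 i0) (Ne.symm hi0)
        exact mul_lt_mul_of_pos_left (pow_lt_pow_left₀ (hcon i0 hi0) hr0 two_ne_zero) hpos
    linarith
  calc dist (bary x l) z ≤ dist (bary x l) (x i) + dist (x i) z := dist_triangle _ _ _
    _ ≤ r + r := add_le_add (by rw [dist_comm]; exact hi) (hr i hi0)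
    _ = 2 * r := by ring

/-- the compact set of barycentres of the first `k+1` points of a sequence -/
def p12Y (t : ℕ → X) (k : ℕ) : Set X :=
  bary (fun i : Fin (k + 1) => t i) '' stdSimplex ℝ (Fin (k + 1))

theorem p12Y_compact (hc : 0 < c) (U : UC X c) (t : ℕ → X) (k : ℕ) : IsCompact (p12Y t k) := by
  obtain ⟨K, hK⟩ := bary_lipschitz U hc (fun i : Fin (k + 1) => t i)
  exact (isCompact_stdSimplex ℝ (Fin (k + 1))).image_of_continuousOn hK.continuousOn

/-- the affine parametrisation of the hyperplane of the simplex -/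
def p12L (k : ℕ) (s : Fin k → ℝ) : Fin (k + 1) → ℝ := Fin.cons (1 - ∑ i, s i) s

theorem p12L_lipschitz (k : ℕ) : ∃ K : ℝ≥0, LipschitzWith K (p12L k) := by
  refine ⟨(k + 1 : ℕ), LipschitzWith.of_dist_le_mul fun s s' => ?_⟩
  rw [dist_pi_le_iff (by positivity)]
  intro i
  refine Fin.cases ?_ (fun i => ?_) i
  · simp only [p12L, Fin.cons_zero, Real.dist_eq]
    have h1 : |(1 - ∑ i, s i) - (1 - ∑ i, s' i)| ≤ ∑ i, dist (s i) (s' i) := by
      have : (1 - ∑ i, s i) - (1 - ∑ i, s' i) = - ∑ i, (s i - s' i) := by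
        rw [Finset.sum_sub_distrib]; ring
      rw [this, abs_neg]
      exact Finset.abs_sum_le_sum_abs _ _
    have h2 : ∑ i, dist (s i) (s' i) ≤ ∑ _i : Fin k, dist s s' :=
      Finset.sum_le_sum fun i _ => dist_le_pi_dist s s' i
    have h3 : ∑ _i : Fin k, dist s s' = k * dist s s' := by simp
    have h4 : 0 ≤ dist s s' := dist_nonneg
    push_cast
    nlinarith
  · simp only [p12L, Fin.cons_succ]
    have h1 := dist_le_pi_dist s s' i
    have h4 : 0 ≤ dist s s' := dist_nonneg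
    have h5 : (0:ℝ) ≤ k := Nat.cast_nonneg k
    push_cast
    nlinarith

theorem p12L_mem {k : ℕ} {l : Fin (k + 1) → ℝ} (hl : l ∈ stdSimplex ℝ (Fin (k + 1))) :
    p12L k (Fin.tail l) = l := by
  have h := hl.2
  rw [Fin.sum_univ_succ] at h
  unfold p12L
  have h2 : (1 - ∑ i, Fin.tail l i) = l 0 := by
    have : ∑ i, Fin.tail l i = ∑ i : Fin k, l i.succ := rfl
    rw [this]
    linarith
  rw [h2]
  exact Fin.cons_self_tail l

/-- high-dimensional extension property of the sets of barycentres -/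
theorem p12Y_NZ_high (hc : 0 < c) (U : UC X c) (t : ℕ → X) (k : ℕ) {j : ℕ} (hj : k + 1 ≤ j) :
    NZ j (p12Y t k) := by
  classical
  refine NZ.of_approx fun f A hf hA hfA => ?_
  obtain ⟨h, hh, hhf⟩ := exists_locallyLipschitz_near f hf (ε := 1 / 2) (by norm_num)
  -- the range of `h` has dimension at most `k`
  have hdim : dimH (range h) ≤ k := by
    obtain ⟨K, hK⟩ := bary_lipschitz U hc (fun i : Fin (k + 1) => t i)
    obtain ⟨K', hK'⟩ := p12L_lipschitz k
    let D : Set (Fin k → ℝ) := p12L k ⁻¹' stdSimplex ℝ (Fin (k + 1))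
    let B : (Fin k → ℝ) → X := fun s => bary (fun i : Fin (k + 1) => t i) (p12L k s)
    have hB : LipschitzOnWith (K * K') B D := hK.comp (hK'.lipschitzOnWith) (mapsTo_preimage _ _)
    have hBm : ∀ s ∈ D, B s ∈ p12Y t k := fun s hs => ⟨_, hs, rfl⟩
    let q : (Fin k → ℝ) → (Fin j → ℝ) := fun s => if hs : s ∈ D then h ⟨B s, hBm s hs⟩ else 0
    have hq : range h = q '' D := by
      ext v
      constructor
      · rintro ⟨⟨y, l, hl, rfl⟩, rfl⟩
        have hD : Fin.tail l ∈ D := by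
          simp only [D, mem_preimage]
          rw [p12L_mem hl]; exact hl
        refine ⟨Fin.tail l, hD, ?_⟩
        simp only [q, hD, dif_pos]
        congr 1
        apply Subtype.ext
        simp only [B]
        rw [p12L_mem hl]
      · rintro ⟨s, hs, rfl⟩
        simp only [q, hs, dif_pos]
        exact mem_range_self _
    rw [hq]
    calc dimH (q '' D) ≤ dimH D := by
          refine dimH_image_le_of_locally_lipschitzOn fun s hs => ?_
          obtain ⟨C, W, hW, hC⟩ := hh ⟨B s, hBm s hs⟩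
          -- preimage of `W` in `D`
          have hcont : ContinuousWithinAt B D s := hB.continuousOn s hs
          rw [nhds_subtype_eq_comap, mem_comap] at hW
          obtain ⟨W', hW', hWW⟩ := hW
          refine ⟨C * (K * K'), D ∩ B ⁻¹' W', ?_, ?_⟩
          · exact Filter.inter_mem self_mem_nhdsWithin (hcont hW')
          · intro a ha b hb
            simp only [q, ha.1, hb.1, dif_pos]
            have h1 := hC (hWW (show (⟨B a, hBm a ha.1⟩ : p12Y t k) ∈ Subtype.val ⁻¹' W' from ha.2))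
              (hWW (show (⟨B b, hBm b hb.1⟩ : p12Y t k) ∈ Subtype.val ⁻¹' W' from hb.2))
            have h2 := hB ha.1 hb.1
            calc edist (h ⟨B a, hBm a ha.1⟩) (h ⟨B b, hBm b hb.1⟩)
                ≤ C * edist (⟨B a, hBm a ha.1⟩ : p12Y t k) ⟨B b, hBm b hb.1⟩ := h1
              _ = C * edist (B a) (B b) := rfl
              _ ≤ C * ((K * K' : ℝ≥0) * edist a b) := by gcongr
              _ = (C * (K * K') : ℝ≥0) * edist a b := by
                  rw [← mul_assoc, ← ENNReal.coe_mul]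
      _ ≤ dimH (univ : Set (Fin k → ℝ)) := dimH_mono (subset_univ _)
      _ = k := Real.dimH_univ_pi_fin k
  have hdense : Dense (range h)ᶜ := by
    apply dense_compl_of_dimH_lt_finrank
    rw [Module.finrank_fin_fun]
    exact hdim.trans_lt (by exact_mod_cast hj)
  obtain ⟨v, hv, hv2⟩ := Metric.dense_iff.1 hdense 0 (1 / 2) (by norm_num)
  rw [mem_ball_zero_iff] at hv
  refine ⟨fun y => h y - v, hh.continuous.sub continuous_const, fun y hy => ?_, fun a ha => ?_⟩
  · exact hv2 ⟨y, sub_eq_zero.1 hy⟩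
  · have h1 := hfA a ha
    have h2 := hhf a
    calc ‖h a - v - f a‖ = ‖(h a - f a) - v‖ := by congr 1; abel
      _ ≤ ‖h a - f a‖ + ‖v‖ := norm_sub_le _ _
      _ < 1 / 2 + 1 / 2 := by linarith
      _ ≤ ‖f a‖ := by linarith

theorem p12Y_NZ (hc : 0 < c) (U : UC X c) {n : ℕ} (hR : RankLE n X) (t : ℕ → X) (k : ℕ) :
    ∀ j ≥ n + 1, NZ j (p12Y t k) := by
  -- downward induction
  have key : ∀ d : ℕ, ∀ j, n + 1 ≤ j → k + 1 ≤ j + d → NZ j (p12Y t k) := by
    intro d
    induction d with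
    | zero => intro j _ h2; exact p12Y_NZ_high hc U t k h2
    | succ d ih =>
      intro j h1 h2
      refine descent hc U h1 hR _ (p12Y_compact hc U t k).isClosed fun i hi => ?_
      exact ih i (by omega) (by omega)
  intro j hj
  exact key (k + 1) j hj (by omega)

omit [CompleteSpace X] in
/-- a continuous modulus of continuity -/
theorem p12_modulus {j : ℕ} (f : X → Fin j → ℝ) (hf : Continuous f) :
    ∃ δ : X → ℝ, Continuous δ ∧ (∀ y, 0 < δ y) ∧ ∀ y z, dist z y ≤ δ y → ‖f z - f y‖ < 1 := by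
  let S : X → Set ℝ := fun y => {δ : ℝ | 0 < δ ∧ ∀ z, dist z y ≤ δ → ‖f z - f y‖ < 1}
  have hconv : ∀ y, Convex ℝ (S y) := by
    intro y
    refine OrdConnected.convex ⟨fun a ha b hb e he => ?_⟩
    exact ⟨ha.1.trans_le he.1, fun z hz => hb.2 z (hz.trans he.2)⟩
  have hloc : ∀ y, ∃ r : ℝ, ∀ᶠ y' in 𝓝 y, r ∈ S y' := by
    intro y
    have h1 := Metric.continuousAt_iff.1 (hf.continuousAt (x := y)) (1 / 2) (by norm_num)
    obtain ⟨r, hr, h1⟩ := h1
    refine ⟨r / 3, ?_⟩
    filter_upwards [Metric.ball_mem_nhds y (by positivity : 0 < r / 3)] with y' hy'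
    rw [mem_ball] at hy'
    refine ⟨by positivity, fun z hz => ?_⟩
    have h2 : dist z y < r := by
      have := dist_triangle z y' y
      linarith
    have h3 := h1 h2
    have h4 := h1 (show dist y' y < r by linarith)
    rw [← dist_eq_norm]
    calc dist (f z) (f y') ≤ dist (f z) (f y) + dist (f y') (f y) := dist_triangle_right _ _ _
      _ < 1 / 2 + 1 / 2 := add_lt_add h3 h4
      _ = 1 := by norm_num
  obtain ⟨δ, hδ⟩ := exists_continuous_forall_mem_convex_of_local_const hconv hloc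
  exact ⟨δ, δ.continuous, fun y => (hδ y).1, fun y z h => (hδ y).2 z h⟩

/-- dropping zero weights at the end -/
theorem p12_bary_drop (hc : 0 < c) (U : UC X c) (t : ℕ → X) (w : ℕ → ℝ) (N : ℕ)
    (hw0 : ∀ i, 0 ≤ w i) (hw1 : ∑ i : Fin (N + 1), w i = 1) (hw : ∀ i, N < i → w i = 0) :
    ∀ M, N ≤ M → (∑ i : Fin (M + 1), w i = 1) ∧
      bary (fun i : Fin (M + 1) => t i) (fun i : Fin (M + 1) => w i) =
      bary (fun i : Fin (N + 1) => t i) (fun i : Fin (N + 1) => w i) := by
  intro M hM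
  induction M, hM using Nat.le_induction with
  | base => exact ⟨hw1, rfl⟩
  | succ M hM ih =>
    have hz : w (M + 1) = 0 := hw _ (by omega)
    refine ⟨?_, ?_⟩
    · rw [Fin.sum_univ_castSucc]
      simp only [Fin.val_castSucc, Fin.val_last, hz, add_zero]
      exact ih.1
    · rw [← ih.2]
      have h1 := bary_face U hc (fun i : Fin (M + 2) => t i) (fun i : Fin (M + 1) => w i)
        ⟨fun i => hw0 i, ih.1⟩ (Fin.last (M + 1))
      have h2 : (Fin.last (M + 1)).insertNth (α := fun _ => ℝ) 0 (fun i : Fin (M + 1) => w i) =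
          (fun i : Fin (M + 2) => w i) := by
        funext i
        refine Fin.lastCases ?_ (fun i => ?_) i
        · simp [hz]
        · simp
      have h3 : (fun i : Fin (M + 2) => t i) ∘ (Fin.last (M + 1)).succAbove =
          (fun i : Fin (M + 1) => t i) := by
        funext i
        simp
      rw [h2, h3] at h1
      exact h1

theorem p12_sep (hc : 0 < c) (U : UC X c) {n : ℕ} (hR : RankLE n X) (T : Set X) (hT : Dense T)
    (hTc : T.Countable) : ∀ j ≥ n + 1, NZ j X := by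
  intro j hj
  rcases isEmpty_or_nonempty X with hX | hX
  · intro f A hf hA hfA
    exact ⟨f, hf, fun y => (hX.false y).elim, fun a _ => rfl⟩
  have hTn : T.Nonempty := hT.nonempty
  obtain ⟨t, rfl⟩ := hTc.exists_eq_range hTn
  refine NZ.of_approx fun f A hf hA hfA => ?_
  obtain ⟨δ, hδc, hδ0, hδ⟩ := p12_modulus f hf
  let V : ℕ → Set X := fun i => {y | dist (t i) y < δ y / 3}
  have hVo : ∀ i, IsOpen (V i) := fun i =>
    isOpen_lt (continuous_const.dist continuous_id) (hδc.div_const 3)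
  have hVcov : (univ : Set X) ⊆ ⋃ i, V i := by
    intro y _
    obtain ⟨_, hi, ⟨i, rfl⟩⟩ := Metric.dense_iff.1 hT y (δ y / 3) (by have := hδ0 y; positivity)
    exact mem_iUnion.2 ⟨i, hi⟩
  obtain ⟨φ, hφ⟩ := PartitionOfUnity.exists_isSubordinate isClosed_univ V hVo hVcov
  have hφV : ∀ i y, φ i y ≠ 0 → dist (t i) y < δ y / 3 := fun i y h =>
    hφ i (subset_tsupport _ h)
  -- local finiteness
  have hN : ∀ y, ∃ N : ℕ, ∀ᶠ y' in 𝓝 y, ∀ i, N < i → φ i y' = 0 := by
    intro y
    obtain ⟨W, hW, hfin⟩ := φ.locallyFinite y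
    obtain ⟨N, hN⟩ := hfin.bddAbove
    refine ⟨N, ?_⟩
    filter_upwards [hW] with y' hy' i hi
    by_contra hne
    have : i ≤ N := hN ⟨y', hne, hy'⟩
    omega
  choose N hN using hN
  have hsum : ∀ y M, (∀ i, M < i → φ i y = 0) → ∑ i : Fin (M + 1), φ i y = 1 := by
    intro y M hM
    have h1 : ∑ᶠ i, φ i y = ∑ i ∈ Finset.range (M + 1), φ i y := by
      apply finsum_eq_sum_of_support_subset
      intro i hi
      rw [Finset.coe_range, mem_Iio]
      by_contra hcon
      exact hi (hM i (by omega))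
    rw [φ.sum_eq_one (mem_univ y)] at h1
    rw [h1, Finset.sum_range]
  let w : ℕ → X → ℝ := fun i y => φ i y
  let ρN : ℕ → X → X := fun M y => bary (fun i : Fin (M + 1) => t i) (fun i : Fin (M + 1) => φ i y)
  let ρ : X → X := fun y => ρN (N y) y
  have hρN : ∀ y M, (∀ i, M < i → φ i y = 0) → ρ y = ρN M y := by
    intro y M hM
    have h0 : ∀ i, N y < i → φ i y = 0 := (hN y).self_of_nhds
    have h1 := p12_bary_drop hc U t (fun i => φ i y) (N y) (fun i => φ.nonneg i y)
      (hsum y _ h0) h0 (max (N y) M) (le_max_left _ _)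
    have h2 := p12_bary_drop hc U t (fun i => φ i y) M (fun i => φ.nonneg i y)
      (hsum y _ hM) hM (max (N y) M) (le_max_right _ _)
    exact h1.2.symm.trans h2.2
  have hρc : Continuous ρ := by
    rw [continuous_iff_continuousAt]
    intro y
    have heq : ρ =ᶠ[𝓝 y] ρN (N y) := by
      filter_upwards [hN y] with y' hy'
      exact hρN y' _ hy'
    refine ContinuousAt.congr ?_ heq.symm
    obtain ⟨K, hK⟩ := bary_lipschitz U hc (fun i : Fin (N y + 1) => t i)
    have hmem : ∀ᶠ y' in 𝓝 y, (fun i : Fin (N y + 1) => φ i y') ∈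
        stdSimplex ℝ (Fin (N y + 1)) := by
      filter_upwards [hN y] with y' hy'
      exact ⟨fun i => φ.nonneg i y', hsum y' _ hy'⟩
    have hwc : Continuous (fun y' => (fun i : Fin (N y + 1) => φ i y')) :=
      continuous_pi fun i => (φ i).continuous
    have h1 := (hK.continuousOn _ hmem.self_of_nhds).tendsto
    exact h1.comp (tendsto_nhdsWithin_iff.2 ⟨hwc.continuousAt, hmem⟩)
  have hρd : ∀ y, ‖f (ρ y) - f y‖ < 1 := by
    intro y
    apply hδ
    have h0 : ∀ i, N y < i → φ i y = 0 := (hN y).self_of_nhds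
    have h1 := p12_dist_bary_le hc U (fun i : Fin (N y + 1) => t i)
      (fun i : Fin (N y + 1) => φ i y) ⟨fun i => φ.nonneg i y, hsum y _ h0⟩ y (δ y / 3)
      (fun i hi => (hφV i y hi).le)
    have h2 := hδ0 y
    show dist (ρN (N y) y) y ≤ δ y
    calc dist (ρN (N y) y) y ≤ 2 * (δ y / 3) := h1
      _ ≤ δ y := by linarith
  -- the union of the sets of barycentres
  let Y : Set X := ⋃ k, p12Y t k
  have hρY : ∀ y, ρ y ∈ Y := by
    intro y
    have h0 : ∀ i, N y < i → φ i y = 0 := (hN y).self_of_nhds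
    exact mem_iUnion.2 ⟨N y, _, ⟨fun i => φ.nonneg i y, hsum y _ h0⟩, rfl⟩
  have hNZ : NZ j Y := by
    refine NZ.countable_iUnion (fun k => {z : Y | z.val ∈ p12Y t k}) (fun k => ?_) ?_ fun k => ?_
    · exact (p12Y_compact hc U t k).isClosed.preimage continuous_subtype_val
    · refine eq_univ_of_forall fun z => ?_
      obtain ⟨k, hk⟩ := mem_iUnion.1 z.2
      exact mem_iUnion.2 ⟨k, hk⟩
    · refine NZ.of_homeo (Y := p12Y t k) ?_ (p12Y_NZ hc U hR t k j hj)
      exact
        { toFun := fun z => ⟨⟨z.1, mem_iUnion.2 ⟨k, z.2⟩⟩, z.2⟩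
          invFun := fun z => ⟨z.1.1, z.2⟩
          left_inv := fun z => rfl
          right_inv := fun z => rfl
          continuous_toFun := (continuous_subtype_val.subtype_mk _).subtype_mk _
          continuous_invFun := (continuous_subtype_val.comp continuous_subtype_val).subtype_mk _ }
  obtain ⟨g, hg, hg0, hgA⟩ := hNZ (fun z => f z.1) {z : Y | 1 ≤ ‖f z.1‖}
    (hf.comp continuous_subtype_val)
    (isClosed_le continuous_const (hf.comp continuous_subtype_val).norm)
    (fun z hz h0 => by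
      have hz' : 1 ≤ ‖f z.1‖ := hz
      rw [h0, norm_zero] at hz'
      linarith)
  refine ⟨fun y => g ⟨ρ y, hρY y⟩, hg.comp (hρc.subtype_mk _), fun y => hg0 _, fun a ha => ?_⟩
  have h1 := hfA a ha
  have h2 := hρd a
  have h3 : 1 ≤ ‖f (ρ a)‖ := by
    have : ‖f a‖ ≤ ‖f (ρ a)‖ + ‖f (ρ a) - f a‖ := by
      calc ‖f a‖ = ‖f (ρ a) - (f (ρ a) - f a)‖ := by congr 1; abel
        _ ≤ _ := norm_sub_le _ _
    linarith
  have h4 : g ⟨ρ a, hρY a⟩ = f (ρ a) := hgA ⟨ρ a, hρY a⟩ h3
  show ‖g ⟨ρ a, hρY a⟩ - f a‖ < ‖f a‖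
  rw [h4]
  linarith

end sep

/-! ### Subspaces and the product with the interval -/

section prod

open Classical in
/-- the structure on a convex subset -/
noncomputable def UC.sub {X : Type*} [MetricSpace X] {c : ℝ} (U : UC X c) {Z : Set X}
    (hZ : U.ConvexSet Z) : UC Z c where
  cc x y t := if h : t ∈ Icc (0:ℝ) 1 then ⟨U.cc x y t, hZ x x.2 y y.2 t h⟩ else x
  zero x y := by
    have h : (0:ℝ) ∈ Icc (0:ℝ) 1 := by simp
    simp only [h, dif_pos]
    exact Subtype.ext (U.zero _ _)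
  one x y := by
    have h : (1:ℝ) ∈ Icc (0:ℝ) 1 := by simp
    simp only [h, dif_pos]
    exact Subtype.ext (U.one _ _)
  cont := by
    rw [IsInducing.subtypeVal.continuousOn_iff]
    have h1 : ContinuousOn (fun p : Z × Z × ℝ => U.cc p.1 p.2.1 p.2.2)
        {p | p.2.2 ∈ Icc (0:ℝ) 1} := by
      refine U.cont.comp (f := fun p : Z × Z × ℝ => ((p.1 : X), (p.2.1 : X), p.2.2)) ?_ ?_
      · exact Continuous.continuousOn (by fun_prop)
      · intro p hp
        exact hp
    refine h1.congr fun p hp => ?_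
    have hp' : p.2.2 ∈ Icc (0:ℝ) 1 := hp
    simp only [Function.comp, hp', dif_pos]
  cn x y z t ht := by
    simp only [ht, dif_pos]
    exact U.cn x y z t ht

theorem p12_dist_sq {A B : Type*} [MetricSpace A] [MetricSpace B] (p q : WithLp 2 (A × B)) :
    dist p q ^ 2 = dist p.fst q.fst ^ 2 + dist p.snd q.snd ^ 2 := by
  have h := WithLp.prod_dist_eq_add (p := 2) (by norm_num) p q
  have h0 : (0:ℝ) ≤ dist p.fst q.fst ^ 2 + dist p.snd q.snd ^ 2 := by positivity
  rw [h]
  simp only [ENNReal.toReal_ofNat, Real.rpow_ofNat]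
  rw [← Real.sqrt_eq_rpow, Real.sq_sqrt h0]

theorem p12_dist_le {A B : Type*} [MetricSpace A] [MetricSpace B] (p q : WithLp 2 (A × B)) :
    dist p q ≤ dist p.fst q.fst + dist p.snd q.snd := by
  have h := p12_dist_sq p q
  have h1 : 0 ≤ dist p.fst q.fst := dist_nonneg
  have h2 : 0 ≤ dist p.snd q.snd := dist_nonneg
  refine abs_le_of_sq_le_sq' ?_ (by positivity) |>.2
  nlinarith [mul_nonneg h1 h2]

open Classical in
/-- the structure on the product with the interval -/
noncomputable def UC.prodI {X : Type*} [MetricSpace X] {c : ℝ} (U : UC X c) :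
    UC (WithLp 2 (X × Icc (0:ℝ) 1)) (min c 1) where
  cc x y t := WithLp.toLp 2 (U.cc x.fst y.fst t,
    if h : t ∈ Icc (0:ℝ) 1 then
      ⟨(1 - t) * x.snd + t * y.snd,
        (convex_Icc (0:ℝ) 1) x.snd.2 y.snd.2 (sub_nonneg.2 h.2) h.1 (by ring)⟩
    else x.snd)
  zero x y := by
    have h : (0:ℝ) ∈ Icc (0:ℝ) 1 := by simp
    simp only [h, dif_pos, U.zero]
    congr 1
    refine Prod.ext rfl (Subtype.ext ?_)
    simp
  one x y := by
    have h : (1:ℝ) ∈ Icc (0:ℝ) 1 := by simp
    simp only [h, dif_pos, U.one]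
    congr 1
    refine Prod.ext rfl (Subtype.ext ?_)
    simp
  cont := by
    have hf : Continuous (fun x : WithLp 2 (X × Icc (0:ℝ) 1) => x.fst) :=
      continuous_fst.comp (WithLp.prod_continuous_ofLp 2 X (Icc (0:ℝ) 1))
    have hs : Continuous (fun x : WithLp 2 (X × Icc (0:ℝ) 1) => x.snd) :=
      continuous_snd.comp (WithLp.prod_continuous_ofLp 2 X (Icc (0:ℝ) 1))
    refine (WithLp.prod_continuous_toLp 2 X (Icc (0:ℝ) 1)).comp_continuousOn ?_
    refine ContinuousOn.prodMk ?_ ?_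
    · refine U.cont.comp (f := fun p : WithLp 2 (X × Icc (0:ℝ) 1) × WithLp 2 (X × Icc (0:ℝ) 1) × ℝ =>
        (p.1.fst, p.2.1.fst, p.2.2)) ?_ ?_
      · refine Continuous.continuousOn ?_
        exact (hf.comp continuous_fst).prodMk
          ((hf.comp (continuous_fst.comp continuous_snd)).prodMk
            (continuous_snd.comp continuous_snd))
      · intro p hp
        exact hp
    · rw [IsInducing.subtypeVal.continuousOn_iff]
      have h1 : Continuous (fun p : WithLp 2 (X × Icc (0:ℝ) 1) × WithLp 2 (X × Icc (0:ℝ) 1) × ℝ =>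
          (1 - p.2.2) * (p.1.snd : ℝ) + p.2.2 * (p.2.1.snd : ℝ)) := by
        have e1 := continuous_subtype_val.comp (hs.comp (continuous_fst
          (X := WithLp 2 (X × Icc (0:ℝ) 1)) (Y := WithLp 2 (X × Icc (0:ℝ) 1) × ℝ)))
        have e2 := continuous_subtype_val.comp (hs.comp ((continuous_fst
          (X := WithLp 2 (X × Icc (0:ℝ) 1)) (Y := ℝ)).comp (continuous_snd
          (X := WithLp 2 (X × Icc (0:ℝ) 1)) (Y := WithLp 2 (X × Icc (0:ℝ) 1) × ℝ))))
        have e3 := (continuous_snd (X := WithLp 2 (X × Icc (0:ℝ) 1)) (Y := ℝ)).comp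
          (continuous_snd (X := WithLp 2 (X × Icc (0:ℝ) 1))
            (Y := WithLp 2 (X × Icc (0:ℝ) 1) × ℝ))
        exact ((continuous_const.sub e3).mul e1).add (e3.mul e2)
      refine h1.continuousOn.congr fun p hp => ?_
      have hp' : p.2.2 ∈ Icc (0:ℝ) 1 := hp
      simp only [Function.comp, hp', dif_pos]
  cn x y z t ht := by
    simp only [p12_dist_sq, ht, dif_pos]
    show dist z.fst (U.cc x.fst y.fst t) ^ 2 + dist z.snd (⟨(1 - t) * (x.snd : ℝ) + t * y.snd,
        (convex_Icc (0:ℝ) 1) x.snd.2 y.snd.2 (sub_nonneg.2 ht.2) ht.1 (by ring)⟩ : Icc (0:ℝ) 1) ^ 2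
        ≤ _
    have h1 := U.cn x.fst y.fst z.fst t ht
    have h2 : dist z.snd (⟨(1 - t) * (x.snd : ℝ) + t * y.snd,
        (convex_Icc (0:ℝ) 1) x.snd.2 y.snd.2 (sub_nonneg.2 ht.2) ht.1 (by ring)⟩ : Icc (0:ℝ) 1) ^ 2
        = (1 - t) * dist z.snd x.snd ^ 2 + t * dist z.snd y.snd ^ 2
          - (t * (1 - t)) * dist x.snd y.snd ^ 2 := by
      simp only [Subtype.dist_eq, Real.dist_eq, sq_abs]
      ring
    rw [h2]
    have h3 : 0 ≤ t * (1 - t) := mul_nonneg ht.1 (sub_nonneg.2 ht.2)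
    have h4 : min c 1 * (t * (1 - t)) * dist x.fst y.fst ^ 2 ≤
        c * (t * (1 - t)) * dist x.fst y.fst ^ 2 := by
      gcongr
      exact min_le_left _ _
    have h5 : min c 1 * (t * (1 - t)) * dist x.snd y.snd ^ 2 ≤
        1 * (t * (1 - t)) * dist x.snd y.snd ^ 2 := by
      gcongr
      exact min_le_right _ _
    nlinarith [h1, h4, h5]

theorem RankLE.sub {n : ℕ} {X : Type*} [MetricSpace X] (h : RankLE n X) (Z : Set X) :
    RankLE n Z := by
  intro d f K hf
  exact h d (fun s => (f s : X)) K (by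
    have := (LipschitzWith.subtype_val Z).comp hf
    rw [one_mul] at this
    exact this)

theorem p12_codim {d : ℕ} (L1 L2 : Submodule ℝ (Fin d → ℝ)) :
    Module.finrank ℝ ((Fin d → ℝ) ⧸ (L1 ⊓ L2)) ≤
      Module.finrank ℝ ((Fin d → ℝ) ⧸ L1) + Module.finrank ℝ ((Fin d → ℝ) ⧸ L2) := by
  have h1 := Submodule.finrank_quotient_add_finrank L1
  have h2 := Submodule.finrank_quotient_add_finrank L2
  have h3 := Submodule.finrank_quotient_add_finrank (L1 ⊓ L2)
  have h4 := Submodule.finrank_sup_add_finrank_inf_eq L1 L2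
  have h5 := Submodule.finrank_le (L1 ⊔ L2)
  omega

theorem RankLE.prodI {n : ℕ} {X : Type*} [MetricSpace X] (h : RankLE n X) :
    RankLE (n + 1) (WithLp 2 (X × Icc (0:ℝ) 1)) := by
  intro d f K hf
  have hf1 : LipschitzWith K (fun s => (f s).fst) :=
    LipschitzWith.of_dist_le_mul fun s s' =>
      (WithLp.dist_fst_le (p := 2) (f s) (f s')).trans (hf.dist_le_mul s s')
  have hf2 : LipschitzWith K (fun s => ((f s).snd : ℝ)) :=
    LipschitzWith.of_dist_le_mul fun s s' =>
      (WithLp.dist_snd_le (p := 2) (f s) (f s')).trans (hf.dist_le_mul s s')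
  filter_upwards [h d _ K hf1, hf2.ae_differentiableAt (μ := volume)] with s hs1 hs2
  obtain ⟨L1, hL1, ht1⟩ := hs1
  let D := fderiv ℝ (fun s => ((f s).snd : ℝ)) s
  let L2 : Submodule ℝ (Fin d → ℝ) := LinearMap.ker (D : (Fin d → ℝ) →ₗ[ℝ] ℝ)
  have hL2 : Module.finrank ℝ ((Fin d → ℝ) ⧸ L2) ≤ 1 := by
    have e := (LinearMap.quotKerEquivRange (D : (Fin d → ℝ) →ₗ[ℝ] ℝ)).finrank_eq
    rw [e]
    calc Module.finrank ℝ (LinearMap.range (D : (Fin d → ℝ) →ₗ[ℝ] ℝ)) ≤ Module.finrank ℝ ℝ :=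
          Submodule.finrank_le _
      _ = 1 := Module.finrank_self ℝ
  refine ⟨L1 ⊓ L2, (p12_codim L1 L2).trans (add_le_add hL1 hL2), ?_⟩
  have ht1' : Tendsto (fun w => dist (f (s + w)).fst (f s).fst / ‖w‖)
      (𝓝[((L1 ⊓ L2 : Submodule ℝ (Fin d → ℝ)) : Set (Fin d → ℝ)) \ {0}] 0) (𝓝 0) := by
    refine ht1.mono_left (nhdsWithin_mono _ ?_)
    exact sdiff_subset_sdiff_left (fun w hw => hw.1)
  have ht2 : Tendsto (fun w => dist (f (s + w)).snd (f s).snd / ‖w‖)
      (𝓝[((L1 ⊓ L2 : Submodule ℝ (Fin d → ℝ)) : Set (Fin d → ℝ)) \ {0}] 0) (𝓝 0) := by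
    have h1 := (hasFDerivAt_iff_isLittleO_nhds_zero.1 hs2.hasFDerivAt).norm_norm
    have h2 := (h1.mono (nhdsWithin_le_nhds
      (s := ((L1 ⊓ L2 : Submodule ℝ (Fin d → ℝ)) : Set (Fin d → ℝ)) \ {0}))).tendsto_div_nhds_zero
    refine h2.congr' ?_
    filter_upwards [self_mem_nhdsWithin] with w hw
    have hw2 : D w = 0 := hw.1.2
    have hw3 : (fderiv ℝ (fun s => ((f s).snd : ℝ)) s) w = 0 := hw2
    rw [hw3, sub_zero, Subtype.dist_eq, Real.dist_eq, Real.norm_eq_abs]
  have h12 := ht1'.add ht2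
  rw [add_zero] at h12
  refine squeeze_zero (fun w => by positivity) (fun w => ?_) h12
  rw [← add_div]
  exact div_le_div_of_nonneg_right (p12_dist_le _ _) (norm_nonneg _)

end prod

/-! ### The induction on the density character -/

theorem p12_induction (κ : Cardinal.{u}) : ∀ (X : Type u) [MetricSpace X] [CompleteSpace X]
    (c : ℝ) (_ : 0 < c) (_ : UC X c) (n : ℕ) (_ : RankLE n X) (T : Set X), Dense T → #T = κ →
    ∀ j ≥ n + 1, NZ j X := by
  induction κ using WellFoundedLT.induction with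
  | ind κ ih =>
    intro X _ _ c hc U n hR T hT hTκ j hj
    rcases le_or_gt κ ℵ₀ with hκ | hκ
    · exact p12_sep hc U hR T hT (Cardinal.le_aleph0_iff_set_countable.1 (hTκ.trans_le hκ)) j hj
    -- the case `n + 2 ≤ j`
    have hbig : ∀ i ≥ n + 2, NZ i X := by
      intro i hi
      refine soft hc U (by omega) κ hκ T hT hTκ fun Z hZ hZc hS => ?_
      obtain ⟨S, hSZ, hZS, hSκ⟩ := hS
      have : CompleteSpace Z := hZ.completeSpace_coe
      obtain ⟨D, hDc, hDd⟩ := TopologicalSpace.exists_countable_dense (Icc (0:ℝ) 1)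
      let e := WithLp.homeomorphProd 2 Z (Icc (0:ℝ) 1)
      let S' : Set Z := Subtype.val ⁻¹' S
      have hS'd : Dense S' := by
        intro z
        rw [closure_subtype, image_preimage_eq_of_subset (by rwa [Subtype.range_coe])]
        exact hZS z.2
      let T' : Set (WithLp 2 (Z × Icc (0:ℝ) 1)) := e ⁻¹' (S' ×ˢ D)
      have hT'd : Dense T' := (hS'd.prod hDd).preimage e.isOpenMap
      have hT'κ : #T' < κ := by
        have h1 : #T' = #(S' ×ˢ D : Set (Z × Icc (0:ℝ) 1)) :=
          Cardinal.mk_congr (e.toEquiv.subtypeEquiv fun _ => Iff.rfl)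
        have h2 : #S' ≤ #S := Cardinal.mk_preimage_of_injective _ _ Subtype.val_injective
        have h3 : #D ≤ ℵ₀ := Cardinal.le_aleph0_iff_set_countable.2 hDc
        rw [h1, Cardinal.mk_congr (Equiv.Set.prod S' D), Cardinal.mk_prod]
        refine Cardinal.mul_lt_of_lt hκ.le ?_ ?_
        · simpa using h2.trans_lt hSκ
        · refine lt_of_le_of_lt ?_ hκ
          simpa using h3
      exact NZ.of_homeo e (ih #T' hT'κ (WithLp 2 (Z × Icc (0:ℝ) 1)) (min c 1)
        (lt_min hc one_pos) (U.sub hZc).prodI (n + 1) (hR.sub Z).prodI T' hT'd rfl i hi)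
    have huniv : NZ j (univ : Set X) :=
      descent hc U hj hR univ isClosed_univ fun i hi => NZ.closed (hbig i (by omega)) isClosed_univ
    exact NZ.of_homeo (Homeomorph.Set.univ X) huniv

/-! ## P12 (Main abstract theorem) -/

theorem nz_of_uc {X : Type u} [MetricSpace X] [CompleteSpace X] {c : ℝ} (hc : 0 < c)
    (U : UC X c) {n : ℕ} (hR : RankLE n X) : ∀ j ≥ n + 1, NZ j X :=
  p12_induction #(univ : Set X) X c hc U n hR univ dense_univ rfl

end MP629748

end part3
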